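import Pool.Agent.Helper73.SQ.Defs
import Pool.Agent.Helper73.SEM.MM

/-!
# SQ-LPQ: exact loads by duality

`ι` = finite set of configurations, `m i ≥ 0` their masses, `h i` a probability distribution on `Y` for the label `y` of the flexible vertex (for the `i` with `m i ≠ 0`),
`A i y t ≥ 0` = load put on the value `t ∈ U` when `y` is chosen, `bb t` = load of everything else.  `hE`: the total load is
`1 + err t` with `|err t| ≤ t1` and the mean of `err` is `≤ 0`.  `hG` (gain): Poincare inequality.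

Proof in words.  `minimax` (SEM.MM) with the compact convex set of all `q : ι × Y → ℝ` with `0 ≤ q i y ≤ 2 h i y`, `∑_y q i y = 1` (`= h i` where `m i = 0`, or
simply the same conditions when `∑ h i = 1` for all `i`; take `q i y` with `0 ≤ q ≤ 2 h`, `∑_y q i y = ∑_y h i y`), `a t = bb t - 1`.
For weights `l t ≥ 0` (`t ∈ U`) put `Φ i y = ∑_{t ∈ U} l t * A i y t` and let `g i` be a median of `Φ i ·` with respect to `h i`; `q i y = 2 h i y` if
`Φ i y < g i`, `0` if `Φ i y > g i`, and in between so that the total is right.  Then `∑_y (h i y - q i y) Φ i y = ∑_y h i y |Φ i y - g i|`, so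
`∑_t l t (load_q t - 1) = ∑_t l t err t - ∑_i m i ∑_y h i y |Φ i y - g i| ≤ ∑_t (l t - l̄) err t + 0 - t1 ∑_t |l t - l̄| ≤ 0`
(`l̄` the mean of `l` over `U`; `l̄ ∑ err ≤ 0`).
-/

set_option autoImplicit false

namespace Pool.Agent.SQ

open Finset Pool.Agent.SEM

/-- Weighted medians. -/
theorem exists_median83 (Y : Finset ℕ) (w Φ : ℕ → ℝ) (hw : ∀ y, 0 ≤ w y) (hY : Y.Nonempty) :
    ∃ g : ℝ, 2 * ∑ y ∈ Y with Φ y < g, w y ≤ ∑ y ∈ Y, w y ∧
      2 * ∑ y ∈ Y with g < Φ y, w y ≤ ∑ y ∈ Y, w y := by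
  classical
  set W := ∑ y ∈ Y, w y with hW
  have hW0 : 0 ≤ W := sum_nonneg fun y _ => hw y
  set V := (Y.image Φ).filter fun g => W ≤ 2 * ∑ y ∈ Y with Φ y ≤ g, w y with hV
  have hVn : V.Nonempty := by
    have hne : (Y.image Φ).Nonempty := hY.image Φ
    refine ⟨(Y.image Φ).max' hne, ?_⟩
    rw [hV, mem_filter]
    refine ⟨max'_mem _ _, ?_⟩
    have : (Y.filter fun y => Φ y ≤ (Y.image Φ).max' hne) = Y := by
      apply filter_true_of_mem
      intro y hy
      exact le_max' _ _ (mem_image_of_mem _ hy)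
    rw [this, ← hW]; linarith
  set g := V.min' hVn with hg
  have hgV : g ∈ V := min'_mem _ _
  rw [hV, mem_filter] at hgV
  refine ⟨g, ?_, ?_⟩
  · by_contra hcon
    push Not at hcon
    have hpos : 0 < ∑ y ∈ Y with Φ y < g, w y := by linarith
    have hne : (Y.filter fun y => Φ y < g).Nonempty := by
      by_contra h
      rw [not_nonempty_iff_eq_empty] at h
      rw [h, sum_empty] at hpos
      exact lt_irrefl _ hpos
    have hne2 : ((Y.filter fun y => Φ y < g).image Φ).Nonempty := hne.image Φ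
    set g' := ((Y.filter fun y => Φ y < g).image Φ).max' hne2 with hg'
    have hg'm : g' ∈ (Y.filter fun y => Φ y < g).image Φ := max'_mem _ _
    obtain ⟨y0, hy0, hy0'⟩ := mem_image.1 hg'm
    rw [mem_filter] at hy0
    have hlt : g' < g := by rw [← hy0']; exact hy0.2
    have hsub : (Y.filter fun y => Φ y < g) ⊆ (Y.filter fun y => Φ y ≤ g') := by
      intro y hy
      rw [mem_filter]
      exact ⟨(mem_filter.1 hy).1, le_max' _ _ (mem_image_of_mem _ hy)⟩
    have hle : ∑ y ∈ Y with Φ y < g, w y ≤ ∑ y ∈ Y with Φ y ≤ g', w y :=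
      sum_le_sum_of_subset_of_nonneg hsub fun y _ _ => hw y
    have hg'V : g' ∈ V := by
      rw [hV, mem_filter]
      refine ⟨mem_image.2 ⟨y0, hy0.1, hy0'⟩, ?_⟩
      linarith
    have := min'_le V g' hg'V
    rw [← hg] at this
    linarith
  · have hsplit : ∑ y ∈ Y with Φ y ≤ g, w y + ∑ y ∈ Y with ¬ Φ y ≤ g, w y = W :=
      sum_filter_add_sum_filter_not _ _ _
    have : (Y.filter fun y => g < Φ y) = (Y.filter fun y => ¬ Φ y ≤ g) := by
      apply filter_congr
      intro y _
      rw [not_le]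
    rw [this]
    linarith [hgV.2]

/-- Optimal redistribution of a weight. -/
theorem exists_shift83 (Y : Finset ℕ) (w Φ : ℕ → ℝ) (hw : ∀ y, 0 ≤ w y) :
    ∃ g : ℝ, ∃ q : ℕ → ℝ, (∀ y, 0 ≤ q y ∧ q y ≤ 2 * w y) ∧ ∑ y ∈ Y, q y = ∑ y ∈ Y, w y ∧
      ∑ y ∈ Y, w y * |Φ y - g| = ∑ y ∈ Y, (w y - q y) * Φ y := by
  classical
  rcases Y.eq_empty_or_nonempty with rfl | hY
  · exact ⟨0, w, fun y => ⟨hw y, by linarith [hw y]⟩, by simp, by simp⟩
  obtain ⟨g, h1, h2⟩ := exists_median83 Y w Φ hw hY
  set W := ∑ y ∈ Y, w y with hW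
  set a := ∑ y ∈ Y with Φ y < g, w y with ha
  set b := ∑ y ∈ Y with g < Φ y, w y with hb
  set c := ∑ y ∈ Y with Φ y = g, w y with hc
  have hc0 : 0 ≤ c := sum_nonneg fun y _ => hw y
  have habc : a + b + c = W := by
    have e1 : ∀ y, w y = (if Φ y < g then w y else 0) + (if g < Φ y then w y else 0)
        + (if Φ y = g then w y else 0) := by
      intro y
      rcases lt_trichotomy (Φ y) g with h | h | h
      · simp [h, h.ne, h.not_gt]
      · simp [h]
      · simp [h, h.ne', h.not_gt]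
    rw [hW, ha, hb, hc, sum_filter, sum_filter, sum_filter, ← sum_add_distrib, ← sum_add_distrib]
    exact (sum_congr rfl fun y _ => e1 y).symm
  obtain ⟨lam, hl0, hl2, hlc⟩ : ∃ lam : ℝ, 0 ≤ lam ∧ lam ≤ 2 ∧ 2 * a + lam * c = W := by
    rcases eq_or_lt_of_le hc0 with h0 | h0
    · exact ⟨1, by norm_num, by norm_num, by rw [← h0]; linarith⟩
    · refine ⟨(W - 2 * a) / c, div_nonneg (by linarith) hc0, ?_, ?_⟩
      · rw [div_le_iff₀ h0]; linarith
      · field_simp; ring
  set q : ℕ → ℝ := fun y => (if Φ y < g then 2 * w y else 0) + (if Φ y = g then lam * w y else 0)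
    with hq
  have hqs : ∑ y ∈ Y, q y = W := by
    simp only [hq]
    rw [sum_add_distrib, ← sum_filter, ← sum_filter, ← mul_sum, ← mul_sum]
    exact hlc
  refine ⟨g, q, ?_, hqs, ?_⟩
  · intro y
    have := hw y
    rcases lt_trichotomy (Φ y) g with h | h | h
    · simp only [hq, h, h.ne, if_true, if_false]; constructor <;> linarith
    · simp only [hq, h, lt_irrefl, if_true, if_false]; constructor <;> nlinarith
    · simp only [hq, h.ne', h.not_gt, if_false]; constructor <;> linarith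
  · have e1 : ∑ y ∈ Y, (w y - q y) * Φ y = ∑ y ∈ Y, (w y - q y) * (Φ y - g) := by
      have : ∑ y ∈ Y, (w y - q y) * g = 0 := by
        rw [← sum_mul, sum_sub_distrib, hqs, ← hW]; simp
      have e2 : ∑ y ∈ Y, (w y - q y) * (Φ y - g)
          = ∑ y ∈ Y, (w y - q y) * Φ y - ∑ y ∈ Y, (w y - q y) * g := by
        rw [← sum_sub_distrib]
        exact sum_congr rfl fun y _ => by ring
      rw [e2, this, sub_zero]
    rw [e1]
    apply sum_congr rfl
    intro y _
    rcases lt_trichotomy (Φ y) g with h | h | h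
    · simp only [hq, h, h.ne, if_true, if_false]
      rw [abs_of_neg (by linarith)]; ring
    · simp only [h, sub_self, abs_zero, mul_zero]
    · simp only [hq, h.ne', h.not_gt, if_false]
      rw [abs_of_pos (by linarith)]; ring

theorem lp_exact {ι : Type} [Fintype ι] (U Y : Finset ℕ) (m : ι → ℝ) (h : ι → ℕ → ℝ)
    (A : ι → ℕ → ℕ → ℝ) (bb : ℕ → ℝ) (t1 : ℝ) (hm : ∀ i, 0 ≤ m i) (hh : ∀ i y, 0 ≤ h i y)
    (hU : U.Nonempty) (ht1 : 0 ≤ t1)
    (hE : ∀ t ∈ U, |bb t + ∑ i, m i * ∑ y ∈ Y, h i y * A i y t - 1| ≤ t1)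
    (hE0 : ∑ t ∈ U, (bb t + ∑ i, m i * ∑ y ∈ Y, h i y * A i y t - 1) ≤ 0)
    (hG : ∀ (b : ℕ → ℝ) (g : ι → ℝ) (β : ℝ), β = (∑ t ∈ U, b t) / U.card →
      t1 * ∑ t ∈ U, |b t - β| ≤
        ∑ i, m i * ∑ y ∈ Y, h i y * |∑ t ∈ U, b t * A i y t - g i|) :
    ∃ q : ι → ℕ → ℝ, (∀ i, ∀ y ∈ Y, 0 ≤ q i y ∧ q i y ≤ 2 * h i y) ∧
      (∀ i, ∑ y ∈ Y, q i y = ∑ y ∈ Y, h i y) ∧
      ∀ t ∈ U, bb t + ∑ i, m i * ∑ y ∈ Y, q i y * A i y t ≤ 1 := by
  classical
  set Q : Set (ι × Y → ℝ) := {q | (∀ p, 0 ≤ q p ∧ q p ≤ 2 * h p.1 p.2) ∧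
    ∀ i, ∑ y : Y, q (i, y) = ∑ y : Y, h i y} with hQ
  have hconv : Convex ℝ Q := by
    intro q hq r hr x y hx hy hxy
    refine ⟨fun p => ?_, fun i => ?_⟩
    · have h1 := hq.1 p
      have h2 := hr.1 p
      simp only [Pi.add_apply, Pi.smul_apply, smul_eq_mul]
      constructor
      · exact add_nonneg (mul_nonneg hx h1.1) (mul_nonneg hy h2.1)
      · have e : 2 * h p.1 p.2 = x * (2 * h p.1 p.2) + y * (2 * h p.1 p.2) := by
          rw [← add_mul, hxy, one_mul]
        rw [e]
        exact add_le_add (mul_le_mul_of_nonneg_left h1.2 hx) (mul_le_mul_of_nonneg_left h2.2 hy)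
    · simp only [Pi.add_apply, Pi.smul_apply, smul_eq_mul]
      rw [sum_add_distrib, ← mul_sum, ← mul_sum, hq.2 i, hr.2 i, ← add_mul, hxy, one_mul]
  have hcpt : IsCompact Q := by
    have hsub : Q ⊆ Set.pi Set.univ fun p : ι × Y => Set.Icc 0 (2 * h p.1 p.2) := by
      intro q hq p _
      exact hq.1 p
    apply (isCompact_univ_pi fun p : ι × Y => isCompact_Icc).of_isClosed_subset _ hsub
    have : Q = (⋂ p : ι × Y, {q : ι × Y → ℝ | 0 ≤ q p}) ∩
        (⋂ p : ι × Y, {q : ι × Y → ℝ | q p ≤ 2 * h p.1 p.2}) ∩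
        ⋂ i, {q : ι × Y → ℝ | ∑ y : Y, q (i, y) = ∑ y : Y, h i y} := by
      ext q
      simp only [hQ, Set.mem_ofPred_eq, Set.mem_inter_iff, Set.mem_iInter]
      constructor
      · rintro ⟨h1, h2⟩
        exact ⟨⟨fun p => (h1 p).1, fun p => (h1 p).2⟩, h2⟩
      · rintro ⟨⟨h1, h2⟩, h3⟩
        exact ⟨fun p => ⟨h1 p, h2 p⟩, h3⟩
    rw [this]
    refine ((isClosed_iInter fun p => ?_).inter (isClosed_iInter fun p => ?_)).inter
      (isClosed_iInter fun i => ?_)
    · exact isClosed_le continuous_const (continuous_apply p)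
    · exact isClosed_le (continuous_apply p) continuous_const
    · exact isClosed_eq (continuous_finsetSum _ fun y _ => continuous_apply _) continuous_const
  have hne : Q.Nonempty := ⟨fun p => h p.1 p.2, fun p => ⟨hh _ _, by linarith [hh p.1 p.2]⟩,
    fun i => rfl⟩
  obtain ⟨q, hq, hqj⟩ := minimax Q hconv hcpt hne (fun t : U => bb t - 1)
    (fun (t : U) (p : ι × Y) => m p.1 * A p.1 p.2 t) (by
      intro l hl
      set b : ℕ → ℝ := fun t => if ht : t ∈ U then l ⟨t, ht⟩ else 0 with hb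
      have hbl : ∀ t : U, b t = l t := by
        intro t
        simp only [hb, t.2, dif_pos]
      have hb0 : ∀ t, 0 ≤ b t := by
        intro t
        simp only [hb]
        split_ifs with h1
        · exact hl _
        · exact le_refl _
      have hsh : ∀ i, ∃ g : ℝ, ∃ q : ℕ → ℝ, (∀ y, 0 ≤ q y ∧ q y ≤ 2 * h i y) ∧
          ∑ y ∈ Y, q y = ∑ y ∈ Y, h i y ∧
          ∑ y ∈ Y, h i y * |∑ t ∈ U, b t * A i y t - g|
            = ∑ y ∈ Y, (h i y - q y) * ∑ t ∈ U, b t * A i y t :=
        fun i => exists_shift83 Y (h i) (fun y => ∑ t ∈ U, b t * A i y t) (hh i)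
      choose g q hq1 hq2 hq3 using hsh
      refine ⟨fun p => q p.1 p.2, ⟨fun p => hq1 p.1 p.2, fun i => ?_⟩, ?_⟩
      · simp only
        rw [sum_coe_sort Y (fun y => q i y), sum_coe_sort Y (fun y => h i y)]
        exact hq2 i
      · -- rewrite everything over finsets
        have e1 : ∑ t : U, l t * (bb t - 1 + ∑ p : ι × Y, m p.1 * A p.1 p.2 t * q p.1 p.2)
            = ∑ t ∈ U, b t * (bb t - 1 + ∑ i, m i * ∑ y ∈ Y, q i y * A i y t) := by
          rw [← sum_coe_sort U (fun t => b t * (bb t - 1 + ∑ i, m i * ∑ y ∈ Y, q i y * A i y t))]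
          apply sum_congr rfl
          intro t _
          rw [hbl t]
          congr 2
          rw [Fintype.sum_prod_type]
          apply sum_congr rfl
          intro i _
          rw [mul_sum, ← sum_coe_sort Y (fun y => m i * (q i y * A i y t))]
          apply sum_congr rfl
          intro y _
          ring
        rw [e1]
        set β := (∑ t ∈ U, b t) / U.card with hβ
        have hβ0 : 0 ≤ β := div_nonneg (sum_nonneg fun t _ => hb0 t) (Nat.cast_nonneg _)
        set err : ℕ → ℝ := fun t => bb t + ∑ i, m i * ∑ y ∈ Y, h i y * A i y t - 1 with herr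
        have e2 : ∑ t ∈ U, b t * (bb t - 1 + ∑ i, m i * ∑ y ∈ Y, q i y * A i y t)
            = ∑ t ∈ U, b t * err t
              - ∑ i, m i * ∑ y ∈ Y, (h i y - q i y) * ∑ t ∈ U, b t * A i y t := by
          have e3 : ∑ i, m i * ∑ y ∈ Y, (h i y - q i y) * ∑ t ∈ U, b t * A i y t
              = ∑ t ∈ U, b t * (∑ i, m i * ∑ y ∈ Y, (h i y - q i y) * A i y t) := by
            simp only [mul_sum]
            rw [sum_comm' (s := univ) (t := fun _ => Y) (t' := Y) (s' := fun _ => univ)
              (by intro x y; simp)]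
            rw [sum_comm' (s := Y) (t := fun _ => univ) (t' := univ) (s' := fun _ => Y)
              (by intro x y; simp)]
            have : ∀ i : ι, ∑ y ∈ Y, ∑ t ∈ U, m i * ((h i y - q i y) * (b t * A i y t))
                = ∑ t ∈ U, ∑ y ∈ Y, b t * (m i * ((h i y - q i y) * A i y t)) := by
              intro i
              rw [sum_comm]
              apply sum_congr rfl; intro t _
              apply sum_congr rfl; intro y _
              ring
            rw [sum_congr rfl fun i _ => this i, sum_comm]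
          rw [e3, ← sum_sub_distrib]
          apply sum_congr rfl
          intro t _
          rw [← mul_sub]
          congr 1
          simp only [herr]
          have : ∑ i, m i * ∑ y ∈ Y, (h i y - q i y) * A i y t
              = ∑ i, m i * ∑ y ∈ Y, h i y * A i y t - ∑ i, m i * ∑ y ∈ Y, q i y * A i y t := by
            rw [← sum_sub_distrib]
            apply sum_congr rfl; intro i _
            rw [← mul_sub, ← sum_sub_distrib]
            congr 1
            apply sum_congr rfl; intro y _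
            ring
          rw [this]; ring
        have e4 : ∑ i, m i * ∑ y ∈ Y, (h i y - q i y) * ∑ t ∈ U, b t * A i y t
            = ∑ i, m i * ∑ y ∈ Y, h i y * |∑ t ∈ U, b t * A i y t - g i| :=
          sum_congr rfl fun i _ => by rw [hq3 i]
        rw [e2, e4]
        have hgain := hG b g β rfl
        have e5 : ∑ t ∈ U, b t * err t = ∑ t ∈ U, (b t - β) * err t + β * ∑ t ∈ U, err t := by
          rw [mul_sum, ← sum_add_distrib]
          apply sum_congr rfl; intro t _
          ring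
        have e6 : ∑ t ∈ U, (b t - β) * err t ≤ t1 * ∑ t ∈ U, |b t - β| := by
          rw [mul_sum]
          apply sum_le_sum
          intro t ht
          have h1 := hE t ht
          calc (b t - β) * err t ≤ |(b t - β) * err t| := le_abs_self _
            _ = |b t - β| * |err t| := abs_mul _ _
            _ ≤ |b t - β| * t1 := mul_le_mul_of_nonneg_left h1 (abs_nonneg _)
            _ = t1 * |b t - β| := mul_comm _ _
        have e7 : β * ∑ t ∈ U, err t ≤ 0 := mul_nonpos_of_nonneg_of_nonpos hβ0 hE0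
        linarith)
  refine ⟨fun i y => if hy : y ∈ Y then q (i, ⟨y, hy⟩) else 0, fun i y hy => ?_, fun i => ?_,
    fun t ht => ?_⟩
  · simp only [hy, dif_pos]
    exact hq.1 (i, ⟨y, hy⟩)
  · rw [← sum_coe_sort Y, ← sum_coe_sort Y (fun y => h i y)]
    rw [← hq.2 i]
    apply sum_congr rfl
    intro y _
    simp only [y.2, dif_pos]
  · have h1 := hqj ⟨t, ht⟩
    simp only at h1
    rw [Fintype.sum_prod_type] at h1
    have : ∑ i, m i * ∑ y ∈ Y, (if hy : y ∈ Y then q (i, ⟨y, hy⟩) else 0) * A i y t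
        = ∑ i, ∑ y : Y, m i * A i y t * q (i, y) := by
      apply sum_congr rfl; intro i _
      rw [← sum_coe_sort Y, mul_sum]
      apply sum_congr rfl; intro y _
      simp only [y.2, dif_pos]
      ring
    rw [this]
    linarith

end Pool.Agent.SQ
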