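import Pool.Agent.Helper73.SQ.Defs
import Pool.Agent.Helper73.SEM.LW1

/-!
# SQ-CN: Markov chain along a rooted tree

Proof in words.  Induction on `Q`: remove the largest vertex `v ≠ τ` (it is not the parent `p'` of another vertex).  If `L'` is the law for `Q \ {v}`, take
`Ω = L'.Ω × {y // y ∈ Y}`, `wt (ω, y) = wt' ω * Kv v (Φ' ω (p' v)) y`, `Φ (ω, y) = Function.update (Φ' ω) v y`; `Q = {τ}`: `Ω = {y // y ∈ Y}`, `wt = ρ`.
All claims by induction (compare SEM.LW1, which is the same with a fixed kernel; its lemmas can be copied).  Joint bound: if `v ∈ A` one more factor `≤ B/n`.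
-/

set_option autoImplicit false

namespace Pool.Agent.SQ

open Finset Pool.Agent.SEM

/-- the claims of `chain` -/
structure CN97 (n : ℕ) (p' lab : ℕ → ℕ) (Q Y : Finset ℕ) (τ : ℕ) (ρ : ℕ → ℝ)
    (Kv : ℕ → ℕ → ℕ → ℝ) (B : ℝ) (L : FL) : Prop where
  nn : ∀ ω, 0 ≤ L.wt ω
  one : L.Ex (fun _ => 1) = 1
  off : ∀ ω, ∀ v, v ∉ Q → L.Φ ω v = lab v
  val : ∀ ω, L.wt ω ≠ 0 → (∀ v ∈ Q, L.Φ ω v ∈ Y) ∧ ρ (L.Φ ω τ) ≠ 0 ∧
        ∀ v ∈ Q, v ≠ τ → Kv v (L.Φ ω (p' v)) (L.Φ ω v) ≠ 0
  top : ∀ G : ℕ → ℝ, L.Ex (fun φ => G (φ τ)) = ∑ y ∈ Y, ρ y * G y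
  mkv : ∀ v ∈ Q, v ≠ τ → ∀ G : ℕ → ℕ → ℝ, L.Ex (fun φ => G (φ (p' v)) (φ v)) =
        L.Ex (fun φ => ∑ y ∈ Y, Kv v (φ (p' v)) y * G (φ (p' v)) y)
  joint : ∀ A ⊆ Q, ∀ x : ℕ → ℕ, L.Pr (fun φ => ∀ v ∈ A, φ v = x v) ≤ (B / n) ^ A.card

/-- one vertex -/
noncomputable def FL97 (lab : ℕ → ℕ) (τ : ℕ) (Y : Finset ℕ) (ρ : ℕ → ℝ) : FL where
  Ω := Y
  fin := inferInstance
  wt := fun y => ρ y
  Φ := fun y => Function.update lab τ y

theorem FL97_Ex (lab : ℕ → ℕ) (τ : ℕ) (Y : Finset ℕ) (ρ : ℕ → ℝ) (F : (ℕ → ℕ) → ℝ) :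
    (FL97 lab τ Y ρ).Ex F = ∑ y ∈ Y, ρ y * F (Function.update lab τ y) := by
  unfold FL.Ex FL97
  exact Finset.sum_coe_sort Y (fun y => ρ y * F (Function.update lab τ y))

theorem chain97 {n : ℕ} (p' lab : ℕ → ℕ) (Y : Finset ℕ) (τ : ℕ) (ρ : ℕ → ℝ)
    (Kv : ℕ → ℕ → ℕ → ℝ) (B : ℝ)
    (hρ0 : ∀ x, 0 ≤ ρ x) (hρ1 : ∑ x ∈ Y, ρ x = 1) (hρB : ∀ x, ρ x ≤ B / n)
    (hK0 : ∀ v x y, 0 ≤ Kv v x y) (Q : Finset ℕ) :
    τ ∈ Q → (∀ v ∈ Q, v ≠ τ → p' v ∈ Q ∧ p' v < v) →
    (∀ v ∈ Q, v ≠ τ → ∀ x ∈ Y, ∑ y ∈ Y, Kv v x y = 1) →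
    (∀ v ∈ Q, ∀ x ∈ Y, ∀ y, Kv v x y ≤ B / n) →
    ∃ L : FL, CN97 n p' lab Q Y τ ρ Kv B L := by
  have hB0 : 0 ≤ B / n := (hρ0 0).trans (hρB 0)
  induction Q using Finset.induction_on_max with
  | empty => intro h; exact absurd h (Finset.notMem_empty τ)
  | insert a Q hmax ih =>
    intro hτ hp hK1 hKB
    have haQ : a ∉ Q := fun h => lt_irrefl _ (hmax a h)
    rcases Finset.eq_empty_or_nonempty Q with hQe | hQne
    · -- one vertex
      subst hQe
      have haτ : τ = a := by simpa using hτ
      subst haτ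
      refine ⟨FL97 lab τ Y ρ, ⟨fun y => hρ0 _, ?_, ?_, ?_, ?_, ?_, ?_⟩⟩
      · rw [FL97_Ex]
        simpa using hρ1
      · intro y v hv
        have hvτ : v ≠ τ := by simpa using hv
        exact Function.update_of_ne hvτ _ _
      · intro y hy
        refine ⟨?_, ?_, ?_⟩
        · intro v hv
          have hvτ : v = τ := by simpa using hv
          subst hvτ
          change Function.update lab v _ v ∈ Y
          rw [Function.update_self]
          exact y.2
        · change ρ (Function.update lab τ _ τ) ≠ 0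
          rw [Function.update_self]
          exact hy
        · intro v hv hvτ
          exact absurd (by simpa using hv) hvτ
      · intro G
        rw [FL97_Ex]
        refine Finset.sum_congr rfl fun y _ => ?_
        rw [Function.update_self]
      · intro v hv hvτ
        exact absurd (by simpa using hv) hvτ
      · intro A hA x
        rcases Finset.eq_empty_or_nonempty A with h | h
        · subst h
          unfold FL.Pr
          rw [FL97_Ex]
          simp [hρ1]
        · have hAτ : A = {τ} := by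
            refine Finset.Subset.antisymm (by simpa using hA) ?_
            obtain ⟨v, hv⟩ := h
            have : v = τ := by simpa using hA hv
            rw [this] at hv
            simpa using hv
          subst hAτ
          unfold FL.Pr
          rw [FL97_Ex, Finset.card_singleton, pow_one]
          have h1 : ∀ y ∈ Y, ρ y * (@ite ℝ (∀ v ∈ ({τ} : Finset ℕ), Function.update lab τ y v = x v)
              (Classical.propDecidable _) 1 0) ≤ if y = x τ then B / n else 0 := by
            intro y _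
            by_cases hc : ∀ v ∈ ({τ} : Finset ℕ), Function.update lab τ y v = x v
            · have hy : y = x τ := by
                have := hc τ (Finset.mem_singleton_self τ)
                rwa [Function.update_self] at this
              rw [if_pos hc, if_pos hy, mul_one]
              exact hρB _
            · rw [if_neg hc, mul_zero]
              split_ifs
              · exact hB0
              · exact le_rfl
          refine (Finset.sum_le_sum h1).trans ?_
          rw [Finset.sum_ite_eq']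
          split_ifs
          · exact le_rfl
          · exact hB0
    · -- the vertex `a` is not the top
      have haτ : a ≠ τ := by
        intro h
        subst h
        have hm := Finset.min'_mem Q hQne
        have h1 := hp _ (Finset.mem_insert_of_mem hm) (hmax _ hm).ne
        have h2 : p' (Q.min' hQne) ∈ Q := by
          rcases Finset.mem_insert.mp h1.1 with h | h
          · have := hmax _ hm
            omega
          · exact h
        have h3 := Finset.min'_le Q _ h2
        omega
      have hτQ : τ ∈ Q := by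
        rcases Finset.mem_insert.mp hτ with h | h
        · exact absurd h.symm haτ
        · exact h
      have hpQ : ∀ v ∈ Q, v ≠ τ → p' v ∈ Q ∧ p' v < v := by
        intro v hv hvτ
        obtain ⟨h1, h2⟩ := hp v (Finset.mem_insert_of_mem hv) hvτ
        refine ⟨?_, h2⟩
        rcases Finset.mem_insert.mp h1 with h | h
        · have := hmax v hv
          omega
        · exact h
      obtain ⟨hpa, hpa'⟩ : p' a ∈ Q ∧ p' a < a := by
        obtain ⟨h1, h2⟩ := hp a (Finset.mem_insert_self a Q) haτ
        refine ⟨?_, h2⟩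
        rcases Finset.mem_insert.mp h1 with h | h
        · omega
        · exact h
      obtain ⟨L, hL⟩ := ih hτQ hpQ (fun v hv => hK1 v (Finset.mem_insert_of_mem hv))
        (fun v hv => hKB v (Finset.mem_insert_of_mem hv))
      have hva : ∀ v ∈ Q, v ≠ a := fun v hv => (hmax v hv).ne
      have hpva : ∀ v ∈ Q, v ≠ τ → p' v ≠ a := fun v hv hvτ =>
        ((hpQ v hv hvτ).2.trans (hmax v hv)).ne
      have hqa : p' a ≠ a := hpa'.ne
      have hq : ∀ ω, L.wt ω ≠ 0 → L.Φ ω (p' a) ∈ Y := fun ω hω => (hL.val ω hω).1 _ hpa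
      have hk1 : ∀ ω, L.wt ω ≠ 0 → ∑ y ∈ Y, Kv a (L.Φ ω (p' a)) y = 1 := fun ω hω =>
        hK1 a (Finset.mem_insert_self a Q) haτ _ (hq ω hω)
      -- expectation of functions not involving `a`
      have hold : ∀ F : (ℕ → ℕ) → ℝ, (∀ φ y, F (Function.update φ a y) = F φ) →
          (L.ext38 a (p' a) Y (Kv a)).Ex F = L.Ex F := by
        intro F hF
        rw [FL.ext_Ex38]
        refine L.Ex_congr38 fun ω hω => ?_
        refine (Finset.sum_congr rfl fun y _ => by rw [hF]).trans ?_
        rw [← Finset.sum_mul, hk1 ω hω, one_mul]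
      have hwt : ∀ o, (L.ext38 a (p' a) Y (Kv a)).wt o ≠ 0 →
          L.wt o.1 ≠ 0 ∧ Kv a (L.Φ o.1 (p' a)) o.2 ≠ 0 := by
        intro o ho
        constructor
        · intro h
          exact ho (by change L.wt o.1 * _ = 0; rw [h, zero_mul])
        · intro h
          exact ho (by change L.wt o.1 * Kv a (L.Φ o.1 (p' a)) o.2 = 0; rw [h, mul_zero])
      refine ⟨L.ext38 a (p' a) Y (Kv a), ⟨?_, ?_, ?_, ?_, ?_, ?_, ?_⟩⟩
      · rintro ⟨ω, y⟩
        exact mul_nonneg (hL.nn ω) (hK0 _ _ _)
      · rw [hold _ fun _ _ => rfl]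
        exact hL.one
      · rintro ⟨ω, y⟩ v hv
        have hv' : v ≠ a ∧ v ∉ Q := by simpa [not_or] using hv
        change Function.update (L.Φ ω) a y v = lab v
        rw [Function.update_of_ne hv'.1]
        exact hL.off ω v hv'.2
      · intro o ho
        obtain ⟨h1, h2⟩ := hwt o ho
        obtain ⟨h3, h4, h5⟩ := hL.val o.1 h1
        refine ⟨?_, ?_, ?_⟩
        · intro v hv
          change Function.update (L.Φ o.1) a o.2 v ∈ Y
          rcases Finset.mem_insert.mp hv with h | h
          · rw [h, Function.update_self]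
            exact o.2.2
          · rw [Function.update_of_ne (hva v h)]
            exact h3 v h
        · change ρ (Function.update (L.Φ o.1) a o.2 τ) ≠ 0
          rw [Function.update_of_ne haτ.symm]
          exact h4
        · intro v hv hvτ
          change Kv v (Function.update (L.Φ o.1) a o.2 (p' v)) (Function.update (L.Φ o.1) a o.2 v) ≠ 0
          rcases Finset.mem_insert.mp hv with h | h
          · subst h
            rw [Function.update_self, Function.update_of_ne hqa]
            exact h2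
          · rw [Function.update_of_ne (hva v h), Function.update_of_ne (hpva v h hvτ)]
            exact h5 v h hvτ
      · intro G
        rw [hold _ fun φ y => by rw [Function.update_of_ne haτ.symm]]
        exact hL.top G
      · intro v hv hvτ G
        rcases Finset.mem_insert.mp hv with h | h
        · subst h
          rw [FL.ext_Ex38, hold (fun φ => ∑ y ∈ Y, Kv v (φ (p' v)) y * G (φ (p' v)) y)
            (fun φ y => by simp only [Function.update_of_ne hqa])]
          refine L.Ex_congr38 fun ω _ => ?_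
          refine Finset.sum_congr rfl fun y _ => ?_
          rw [Function.update_self, Function.update_of_ne hqa]
        · rw [hold (fun φ => G (φ (p' v)) (φ v)) (fun φ y => by
              rw [Function.update_of_ne (hva v h), Function.update_of_ne (hpva v h hvτ)]),
            hold (fun φ => ∑ y ∈ Y, Kv v (φ (p' v)) y * G (φ (p' v)) y)
              (fun φ y => by simp only [Function.update_of_ne (hpva v h hvτ)])]
          exact hL.mkv v h hvτ G
      · intro A hA x
        by_cases haA : a ∈ A
        · set A' := A.erase a with hA'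
          have hA'Q : A' ⊆ Q := by
            intro v hv
            have h1 := Finset.mem_of_mem_erase hv
            rcases Finset.mem_insert.mp (hA h1) with h | h
            · exact absurd h (Finset.ne_of_mem_erase hv)
            · exact h
          have hcard : A.card = A'.card + 1 := (Finset.card_erase_add_one haA).symm
          have h1 := hL.joint A' hA'Q x
          have h2 : (L.ext38 a (p' a) Y (Kv a)).Pr (fun φ => ∀ v ∈ A, φ v = x v) ≤
              L.Pr (fun φ => ∀ v ∈ A', φ v = x v) * (B / n) := by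
            unfold FL.Pr
            rw [FL.ext_Ex38, ← FL.Ex_mul38]
            refine L.Ex_mono38 hL.nn fun ω hω => ?_
            have h3 : ∀ y ∈ Y, Kv a (L.Φ ω (p' a)) y * (@ite ℝ (∀ v ∈ A, Function.update (L.Φ ω) a y v = x v) (Classical.propDecidable _) 1 0) ≤
                if y = x a then (@ite ℝ (∀ v ∈ A', L.Φ ω v = x v) (Classical.propDecidable _) 1 0) * (B / n) else 0 := by
              intro y _
              by_cases hc : ∀ v ∈ A, Function.update (L.Φ ω) a y v = x v
              · have hy : y = x a := by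
                  have := hc a haA
                  rwa [Function.update_self] at this
                have hc' : ∀ v ∈ A', L.Φ ω v = x v := by
                  intro v hv
                  have := hc v (Finset.mem_of_mem_erase hv)
                  rwa [Function.update_of_ne (Finset.ne_of_mem_erase hv)] at this
                rw [if_pos hc, if_pos hy, if_pos hc', mul_one, one_mul]
                exact hKB a (Finset.mem_insert_self a Q) _ (hq ω hω) _
              · rw [if_neg hc, mul_zero]
                split_ifs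
                · rw [one_mul]; exact hB0
                · rw [zero_mul]
                · exact le_rfl
            refine (Finset.sum_le_sum h3).trans ?_
            rw [Finset.sum_ite_eq']
            split_ifs
            · exact le_rfl
            · exact le_rfl
            · rw [one_mul]; exact hB0
            · rw [zero_mul]
          rw [hcard, pow_succ]
          exact h2.trans (mul_le_mul_of_nonneg_right h1 hB0)
        · have hAQ : A ⊆ Q := by
            intro v hv
            rcases Finset.mem_insert.mp (hA hv) with h | h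
            · exact absurd (h ▸ hv) haA
            · exact h
          unfold FL.Pr
          rw [hold]
          · exact hL.joint A hAQ x
          · intro φ y
            have he : (∀ v ∈ A, Function.update φ a y v = x v) ↔ ∀ v ∈ A, φ v = x v := by
              refine forall₂_congr fun v hv => ?_
              rw [Function.update_of_ne (hva v (hAQ hv))]
            by_cases h : ∀ v ∈ A, φ v = x v
            · rw [if_pos h, if_pos (he.mpr h)]
            · rw [if_neg h, if_neg (fun h' => h (he.mp h'))]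

theorem chain {n : ℕ} (p' lab : ℕ → ℕ) (Q Y : Finset ℕ) (τ : ℕ) (ρ : ℕ → ℝ)
    (Kv : ℕ → ℕ → ℕ → ℝ) (B : ℝ) (hτ : τ ∈ Q) (hp : ∀ v ∈ Q, v ≠ τ → p' v ∈ Q ∧ p' v < v)
    (hρ0 : ∀ x, 0 ≤ ρ x) (hρ1 : ∑ x ∈ Y, ρ x = 1) (hρB : ∀ x, ρ x ≤ B / n)
    (hK0 : ∀ v x y, 0 ≤ Kv v x y) (hK1 : ∀ v ∈ Q, v ≠ τ → ∀ x ∈ Y, ∑ y ∈ Y, Kv v x y = 1)
    (hKB : ∀ v ∈ Q, ∀ x ∈ Y, ∀ y, Kv v x y ≤ B / n) :
    ∃ L : FL, (∀ ω, 0 ≤ L.wt ω) ∧ L.Ex (fun _ => 1) = 1 ∧
      (∀ ω, ∀ v, v ∉ Q → L.Φ ω v = lab v) ∧
      (∀ ω, L.wt ω ≠ 0 → (∀ v ∈ Q, L.Φ ω v ∈ Y) ∧ ρ (L.Φ ω τ) ≠ 0 ∧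
        ∀ v ∈ Q, v ≠ τ → Kv v (L.Φ ω (p' v)) (L.Φ ω v) ≠ 0) ∧
      (∀ G : ℕ → ℝ, L.Ex (fun φ => G (φ τ)) = ∑ y ∈ Y, ρ y * G y) ∧
      (∀ v ∈ Q, v ≠ τ → ∀ G : ℕ → ℕ → ℝ, L.Ex (fun φ => G (φ (p' v)) (φ v)) =
        L.Ex (fun φ => ∑ y ∈ Y, Kv v (φ (p' v)) y * G (φ (p' v)) y)) ∧
      ∀ A ⊆ Q, ∀ x : ℕ → ℕ, L.Pr (fun φ => ∀ v ∈ A, φ v = x v) ≤ (B / n) ^ A.card := by
  obtain ⟨L, hL⟩ := chain97 p' lab Y τ ρ Kv B hρ0 hρ1 hρB hK0 Q hτ hp hK1 hKB
  exact ⟨L, hL.nn, hL.one, hL.off, hL.val, hL.top, hL.mkv, hL.joint⟩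

end Pool.Agent.SQ
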