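import Pool.Agent.Helper73.SQ.Defs

/-!
# SQ-AB1: switches

Let `g = d + 1`.  A unit whose legs have the labels `c` (`d = 1`), resp. `c, 2c` (`d = 2`, in any order), with `c = (b - m)/g > 0` (`m < b`, `m ≡ b mod g`)
covers either `{m, m+c, ..., m+dc}` (label `y = m`) or `{m+c, ..., m+gc = b}` (label `y = m+c`): it is a SWITCH between `m` and `b`, the `d` values strictly
between are covered in both states.

`greedy`: `I` a set of parameters, `r` functions, each injective on `I`, two different ones agree at most once on `I`: if `|I| > r |Z| + r²`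
there is `ξ ∈ I` at which all functions have different values outside `Z`.  (Each function excludes at most `|Z|` parameters, each pair at most one.)

`step_a`: parameter `a' ≡ a mod g`, in `[5n/4, 3n/2]` if `8 a ≤ 7 n` and in `(n/8, n/4]` otherwise; then `|a - a'| ≥ 3n/8 ≥ g n / 8`; restrict the window
slightly (a subinterval of length `n/16` away from the ends) to have the leg labels `> n/8`.  Unit `v` is the switch between `a` and `a'`.  New values: `a'`,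
`a' + c l` (`l < d`), the `d` middle values `m + i C` (`m = min a a'`, `C = |a-a'|/g`), the leg labels `C, (2C)` and the leg labels plus offsets `q ∈ Q w`.
They are affine functions of `a'` (nonzero slope, so injective); two of them are never identical: slopes `1` for `a'`, `a' + c l`; if `a' > a` slopes `i/g` for
middle values `a + i(a'-a)/g` and for the leg label `i(a'-a)/g + q` (`q = 0` or an offset): constants differ since `q ≤ n/16 < a`; if `a' < a` the slopes of the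
middle values are positive and the slopes of the legs negative.  So two agree at most once.  At most `1 + d + d + d (D+2)` functions.

`link`: parameter `β ≡ m ≡ b mod g` with `|β - m|, |β - b| > 3n/8`, `n/8 < β ≤ 15n/8` (there is an interval of length `≥ n/50` of such `β`), `β`
on a fixed side of `m` and of `b`.  Unit `v` is a switch between `m` and `β`, `v'` a switch between `β` and `b`; `Mid` = `β` and the `2d` middle values.
Functions: `β`, middle values `m + i(β-m)/g` and `b + i(β-b)/g`, leg labels `i|β-m|/g + q`, `i|β-b|/g + q'`.  Not identical: middle values for `m` and `b`: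
`m ≠ b`; middle and leg: as before (`q ≤ n/16 < m, b`; if the slopes have the same sign); legs of `v` and `v'`: if the slopes agree, identity means
`i (b - m)/g = ± (q - q')`, impossible since `|b-m| > 3n/16 ≥ g n/16`.
-/

set_option autoImplicit false

namespace Pool.Agent.SQ

open Finset Pool.Agent.SEM

private theorem h24_greedy {κ : Type} [DecidableEq κ] (J : Finset κ) (F : κ → ℕ → ℕ)
    (I Z : Finset ℕ) (hinj : ∀ i ∈ J, Set.InjOn (F i) I)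
    (hag : ∀ i ∈ J, ∀ j ∈ J, i ≠ j → ∀ ξ ∈ I, ∀ ξ' ∈ I, F i ξ = F j ξ → F i ξ' = F j ξ' → ξ = ξ')
    (hI : J.card * Z.card + J.card * J.card < I.card) :
    ∃ ξ ∈ I, (∀ i ∈ J, F i ξ ∉ Z) ∧ Set.InjOn (fun i => F i ξ) J := by
  classical
  obtain ⟨B1, hB1⟩ : ∃ B : Finset ℕ, B = J.biUnion fun i => I.filter fun ξ => F i ξ ∈ Z := ⟨_, rfl⟩
  obtain ⟨B2, hB2⟩ : ∃ B : Finset ℕ, B = J.offDiag.biUnion fun q =>
      I.filter fun ξ => F q.1 ξ = F q.2 ξ := ⟨_, rfl⟩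
  have c1 : B1.card ≤ J.card * Z.card := by
    rw [hB1]
    refine card_biUnion_le_card_mul _ _ _ fun i hi => ?_
    refine card_le_card_of_injOn (F i) ?_ ?_
    · intro ξ hξ
      exact (mem_filter.mp (mem_coe.mp hξ)).2
    · intro ξ hξ ξ' hξ' h
      exact hinj i hi (mem_coe.mpr (mem_filter.mp (mem_coe.mp hξ)).1)
        (mem_coe.mpr (mem_filter.mp (mem_coe.mp hξ')).1) h
  have c2 : B2.card ≤ J.card * J.card := by
    rw [hB2]
    have h1 : (J.offDiag.biUnion fun q => I.filter fun ξ => F q.1 ξ = F q.2 ξ).card ≤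
        J.offDiag.card * 1 := by
      refine card_biUnion_le_card_mul _ _ _ fun q hq => ?_
      rw [mem_offDiag] at hq
      rw [card_le_one]
      intro ξ hξ ξ' hξ'
      rw [mem_filter] at hξ hξ'
      exact hag q.1 hq.1 q.2 hq.2.1 hq.2.2 ξ hξ.1 ξ' hξ'.1 hξ.2 hξ'.2
    refine h1.trans ?_
    rw [mul_one, offDiag_card]
    omega
  have h3 : ¬ I ⊆ B1 ∪ B2 := by
    intro h
    have := (card_le_card h).trans (card_union_le _ _)
    omega
  rw [not_subset] at h3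
  obtain ⟨ξ, hξ, hn⟩ := h3
  rw [mem_union, not_or] at hn
  refine ⟨ξ, hξ, fun i hi hZ => hn.1 ?_, fun i hi j hj hij => ?_⟩
  · rw [hB1]
    exact mem_biUnion.mpr ⟨i, hi, mem_filter.mpr ⟨hξ, hZ⟩⟩
  · by_contra hne
    apply hn.2
    rw [hB2]
    exact mem_biUnion.mpr ⟨(i, j), mem_offDiag.mpr ⟨hi, hj, hne⟩, mem_filter.mpr ⟨hξ, hij⟩⟩

/-- indices of the functions -/
private inductive Ix24 where
  | b : Ix24
  | s : ℕ → Ix24
  | m : ℕ → ℕ → Ix24
  | l : ℕ → ℕ → Ix24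
  deriving DecidableEq

private def F24 (ρ g : ℕ) (μ ι ow : ℕ → ℕ) : Ix24 → ℕ → ℕ
  | .b, ξ => ρ + g * ξ
  | .s c, ξ => ρ + g * ξ + c
  | .m u k, ξ => ρ + (g - k) * μ u + k * ξ
  | .l w q, ξ => ι w * ((ξ - μ (ow w)) + (μ (ow w) - ξ)) + q

private def J24 (d : ℕ) (Cs U : Finset ℕ) (Lg Q : ℕ → Finset ℕ) : Finset Ix24 :=
  insert Ix24.b (Cs.image Ix24.s ∪ ((U ×ˢ Icc 1 d).image (fun q => Ix24.m q.1 q.2) ∪
    (U.biUnion Lg).biUnion fun w => (insert 0 (Q w)).image (Ix24.l w)))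

private theorem h24_memJ {d : ℕ} {Cs U : Finset ℕ} {Lg Q : ℕ → Finset ℕ} {j : Ix24} :
    j ∈ J24 d Cs U Lg Q ↔ j = Ix24.b ∨ (∃ c ∈ Cs, j = Ix24.s c) ∨
      (∃ u ∈ U, ∃ k, 1 ≤ k ∧ k ≤ d ∧ j = Ix24.m u k) ∨
      ∃ u ∈ U, ∃ w ∈ Lg u, ∃ q, (q = 0 ∨ q ∈ Q w) ∧ j = Ix24.l w q := by
  unfold J24
  simp only [mem_insert, mem_union, mem_image, mem_product, mem_Icc, mem_biUnion, Prod.exists]
  constructor
  · rintro (h | ⟨c, hc, rfl⟩ | ⟨u, k, ⟨hu, h1, h2⟩, rfl⟩ | ⟨w, ⟨u, hu, hw⟩, q, hq, rfl⟩)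
    · exact Or.inl h
    · exact Or.inr (Or.inl ⟨c, hc, rfl⟩)
    · exact Or.inr (Or.inr (Or.inl ⟨u, hu, k, h1, h2, rfl⟩))
    · exact Or.inr (Or.inr (Or.inr ⟨u, hu, w, hw, q, hq, rfl⟩))
  · rintro (h | ⟨c, hc, rfl⟩ | ⟨u, hu, k, h1, h2, rfl⟩ | ⟨u, hu, w, hw, q, hq, rfl⟩)
    · exact Or.inl h
    · exact Or.inr (Or.inl ⟨c, hc, rfl⟩)
    · exact Or.inr (Or.inr (Or.inl ⟨u, k, ⟨hu, h1, h2⟩, rfl⟩))
    · exact Or.inr (Or.inr (Or.inr ⟨w, ⟨u, hu, hw⟩, q, hq, rfl⟩))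

private theorem h24_cardJ {n d D : ℕ} {Cs U : Finset ℕ} {Lg Q : ℕ → Finset ℕ}
    (hU : Unit n d D U Lg Q) :
    (J24 d Cs U Lg Q).card ≤ 1 + (Cs.card + (U.card * d + U.card * d * (D + 2))) := by
  unfold J24
  refine (card_insert_le _ _).trans ?_
  rw [add_comm 1]
  gcongr
  refine (card_union_le _ _).trans ?_
  gcongr
  · exact card_image_le
  refine (card_union_le _ _).trans ?_
  gcongr
  · refine card_image_le.trans ?_
    rw [card_product, Nat.card_Icc]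
    simp
  · refine (card_biUnion_le_card_mul _ _ (D + 2) ?_).trans ?_
    · intro w hw
      rw [mem_biUnion] at hw
      obtain ⟨u, hu, hw⟩ := hw
      refine card_image_le.trans ((card_insert_le _ _).trans ?_)
      have := hU.Qc u hu w hw
      omega
    · gcongr
      exact card_biUnion_le_card_mul _ _ _ fun u hu => (hU.card u hu).le

private theorem h24_data {n d D : ℕ} {U : Finset ℕ} {Lg Q : ℕ → Finset ℕ} (hd : d = 1 ∨ d = 2)
    (hU : Unit n d D U Lg Q) : ∃ ow ι : ℕ → ℕ, (∀ u ∈ U, ∀ w ∈ Lg u, ow w = u) ∧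
      ∀ u ∈ U, Set.InjOn ι (Lg u) ∧ (Lg u).image ι = Icc 1 d := by
  classical
  have h1 : ∀ s : Finset ℕ, s.card = d → ∃ ι : ℕ → ℕ, Set.InjOn ι s ∧ s.image ι = Icc 1 d := by
    intro s hs
    rcases hd with rfl | rfl
    · obtain ⟨w, rfl⟩ := card_eq_one.mp hs
      refine ⟨fun _ => 1, ?_, ?_⟩
      · intro a ha b hb _
        rw [mem_coe, mem_singleton] at ha hb
        rw [ha, hb]
      · rw [image_singleton]
        rfl
    · obtain ⟨w, w', hne, rfl⟩ := card_eq_two.mp hs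
      refine ⟨fun a => if a = w then 1 else 2, ?_, ?_⟩
      · intro a ha b hb hab
        rw [mem_coe, mem_insert, mem_singleton] at ha hb
        simp only at hab
        rcases ha with rfl | rfl <;> rcases hb with rfl | rfl
        · rfl
        · rw [if_pos rfl, if_neg hne.symm] at hab
          omega
        · rw [if_pos rfl, if_neg hne.symm] at hab
          omega
        · rfl
      · rw [image_insert, image_singleton, if_pos rfl, if_neg hne.symm]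
        rfl
  choose! iota hi1 hi2 using h1
  obtain ⟨ow, how⟩ : ∃ ow : ℕ → ℕ, ∀ u ∈ U, ∀ w ∈ Lg u, ow w = u := by
    refine ⟨fun w => if h : ∃ u ∈ U, w ∈ Lg u then Classical.choose h else 0, fun u hu w hw => ?_⟩
    have h : ∃ u ∈ U, w ∈ Lg u := ⟨u, hu, hw⟩
    simp only [dif_pos h]
    have h2 := Classical.choose_spec h
    by_contra hne
    exact disjoint_left.mp (hU.dj _ h2.1 u hu hne) h2.2 hw
  refine ⟨ow, fun w => iota (Lg (ow w)) w, how, fun u hu => ⟨?_, ?_⟩⟩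
  · intro w hw w' hw' h
    simp only at h
    rw [how u hu w hw, how u hu w' hw'] at h
    exact hi1 _ (hU.card u hu) hw hw' h
  · rw [← hi2 _ (hU.card u hu)]
    refine image_congr fun w hw => ?_
    show iota (Lg (ow w)) w = iota (Lg u) w
    rw [how u hu w hw]

private theorem h24_core {n d D : ℕ} (hd : d = 1 ∨ d = 2) {Cs U I Z : Finset ℕ}
    {Lg Q : ℕ → Finset ℕ} (hU : Unit n d D U Lg Q) {ρ : ℕ} {μ ι ow : ℕ → ℕ}
    (how : ∀ u ∈ U, ∀ w ∈ Lg u, ow w = u)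
    (hι : ∀ u ∈ U, Set.InjOn ι (Lg u) ∧ (Lg u).image ι = Icc 1 d)
    (hCs : ∀ c ∈ Cs, 0 < c) (hbig : ∀ u ∈ U, n < 8 * (ρ + (d + 1) * μ u))
    (hgap : ∀ u ∈ U, ∀ u' ∈ U, u ≠ u' → n < 16 * (μ u - μ u' + (μ u' - μ u)))
    (hside : ∀ u ∈ U, (∀ ξ ∈ I, μ u < ξ) ∨ (∀ ξ ∈ I, ξ < μ u))
    (hI : (J24 d Cs U Lg Q).card * Z.card + (J24 d Cs U Lg Q).card * (J24 d Cs U Lg Q).card <
      I.card) :
    ∃ ξ ∈ I, (∀ j ∈ J24 d Cs U Lg Q, F24 ρ (d + 1) μ ι ow j ξ ∉ Z) ∧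
      Set.InjOn (fun j => F24 ρ (d + 1) μ ι ow j ξ) (J24 d Cs U Lg Q) := by
  classical
  -- signs
  have hsg : ∀ u, ∃ σ : ℤ, (σ = 1 ∨ σ = -1) ∧ (u ∈ U → ∀ ξ ∈ I,
      (((ξ - μ u) + (μ u - ξ) : ℕ) : ℤ) = σ * (ξ - μ u)) := by
    intro u
    by_cases hu : u ∈ U
    · rcases hside u hu with h | h
      · refine ⟨1, Or.inl rfl, fun _ ξ hξ => ?_⟩
        have := h ξ hξ
        push_cast [Nat.cast_sub this.le]
        have e : μ u - ξ = 0 := by omega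
        rw [e]
        push_cast
        ring
      · refine ⟨-1, Or.inr rfl, fun _ ξ hξ => ?_⟩
        have := h ξ hξ
        push_cast [Nat.cast_sub this.le]
        have e : ξ - μ u = 0 := by omega
        rw [e]
        push_cast
        ring
    · exact ⟨1, Or.inl rfl, fun h => absurd h hu⟩
  choose σ hσ1 hσ2 using hsg
  obtain ⟨S, hS⟩ : ∃ S : Ix24 → ℤ, S = fun j => match j with
    | .b => ((d : ℤ) + 1)
    | .s _ => ((d : ℤ) + 1)
    | .m _ k => (k : ℤ)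
    | .l w _ => σ (ow w) * ι w := ⟨_, rfl⟩
  obtain ⟨T, hT⟩ : ∃ T : Ix24 → ℤ, T = fun j => match j with
    | .b => (ρ : ℤ)
    | .s c => (ρ : ℤ) + c
    | .m u k => (ρ : ℤ) + (d + 1 - k) * μ u
    | .l w q => (q : ℤ) - σ (ow w) * ι w * μ (ow w) := ⟨_, rfl⟩
  have hιr : ∀ u ∈ U, ∀ w ∈ Lg u, 1 ≤ ι w ∧ ι w ≤ d := by
    intro u hu w hw
    have : ι w ∈ Icc 1 d := by
      rw [← (hι u hu).2]
      exact mem_image_of_mem _ hw
    exact mem_Icc.mp this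
  have hF : ∀ j ∈ J24 d Cs U Lg Q, ∀ ξ ∈ I,
      ((F24 ρ (d + 1) μ ι ow j ξ : ℕ) : ℤ) = S j * ξ + T j := by
    intro j hj ξ hξ
    rw [h24_memJ] at hj
    rcases hj with rfl | ⟨c, hc, rfl⟩ | ⟨u, hu, k, h1, h2, rfl⟩ | ⟨u, hu, w, hw, q, hq, rfl⟩
    · rw [hS, hT]
      simp only [F24]
      push_cast
      ring
    · rw [hS, hT]
      simp only [F24]
      push_cast
      ring
    · rw [hS, hT]
      simp only [F24]
      have : k ≤ d + 1 := by omega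
      push_cast [Nat.cast_sub this]
      ring
    · rw [hS, hT]
      simp only [F24]
      have e := hσ2 u hu ξ hξ
      rw [how u hu w hw]
      push_cast at e ⊢
      rw [e]
      ring
  have hS0 : ∀ j ∈ J24 d Cs U Lg Q, S j ≠ 0 := by
    intro j hj
    rw [h24_memJ] at hj
    rcases hj with rfl | ⟨c, hc, rfl⟩ | ⟨u, hu, k, h1, h2, rfl⟩ | ⟨u, hu, w, hw, q, hq, rfl⟩
    · rw [hS]
      simp only
      omega
    · rw [hS]
      simp only
      omega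
    · rw [hS]
      simp only
      omega
    · rw [hS]
      simp only
      have := hιr u hu w hw
      rcases hσ1 (ow w) with h | h <;> rw [h] <;> omega
  -- the different functions are not identical
  have hne : ∀ i ∈ J24 d Cs U Lg Q, ∀ j ∈ J24 d Cs U Lg Q, S i = S j → T i = T j → i = j := by
    have hml : ∀ u ∈ U, ∀ k, 1 ≤ k → k ≤ d → ∀ u' ∈ U, ∀ w ∈ Lg u', ∀ q, (q = 0 ∨ q ∈ Q w) →
        (k : ℤ) = σ (ow w) * ι w →
        (ρ : ℤ) + (d + 1 - k) * μ u = (q : ℤ) - σ (ow w) * ι w * μ (ow w) → False := by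
      intro u hu k h1 h2 u' hu' w hw q hq e1 e2
      have hr := hιr u' hu' w hw
      have hb := hbig u hu
      have hb' := hbig u' hu'
      have hq' : 16 * q ≤ n := by
        rcases hq with rfl | hq
        · omega
        · exact (hU.Qs u' hu' w hw q hq).2
      rw [how u' hu' w hw] at e1 e2
      rcases hσ1 u' with h | h
      · rw [h, one_mul] at e1
        rw [h, one_mul, ← e1] at e2
        have hk : k = 1 ∨ k = 2 := by omega
        rcases hd with rfl | rfl <;> rcases hk with rfl | rfl <;> push_cast at e2 <;> omega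
      · rw [h] at e1
        omega
    intro i hi j hj e1 e2
    rw [h24_memJ] at hi hj
    rcases hi with rfl | ⟨c, hc, rfl⟩ | ⟨u, hu, k, h1, h2, rfl⟩ | ⟨u, hu, w, hw, q, hq, rfl⟩ <;>
    rcases hj with rfl | ⟨c', hc', rfl⟩ | ⟨u', hu', k', h1', h2', rfl⟩ |
      ⟨u', hu', w', hw', q', hq', rfl⟩ <;> rw [hS] at e1 <;> rw [hT] at e2 <;> simp only at e1 e2
    · have := hCs c' hc'
      omega
    · omega
    · have := hιr u' hu' w' hw'
      rcases hσ1 (ow w') with h | h <;> rw [h] at e1 <;> omega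
    · have := hCs c hc
      omega
    · congr 1
      omega
    · omega
    · have := hιr u' hu' w' hw'
      rcases hσ1 (ow w') with h | h <;> rw [h] at e1 <;> omega
    · omega
    · omega
    · have hk : k = k' := by exact_mod_cast e1
      subst hk
      by_cases huu : u = u'
      · rw [huu]
      · exfalso
        have hg := hgap u hu u' hu' huu
        have hk : k = 1 ∨ k = 2 := by omega
        rcases hd with rfl | rfl <;> rcases hk with rfl | rfl <;> push_cast at e2 <;> omega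
    · exact (hml u hu k h1 h2 u' hu' w' hw' q' hq' e1 e2).elim
    · have := hιr u hu w hw
      rcases hσ1 (ow w) with h | h <;> rw [h] at e1 <;> omega
    · have := hιr u hu w hw
      rcases hσ1 (ow w) with h | h <;> rw [h] at e1 <;> omega
    · exact (hml u' hu' k' h1' h2' u hu w hw q hq e1.symm e2.symm).elim
    · have hr := hιr u hu w hw
      have hr' := hιr u' hu' w' hw'
      rw [how u hu w hw, how u' hu' w' hw'] at e1 e2
      have hqb : 16 * q ≤ n := by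
        rcases hq with rfl | hq
        · omega
        · exact (hU.Qs u hu w hw q hq).2
      have hqb' : 16 * q' ≤ n := by
        rcases hq' with rfl | hq'
        · omega
        · exact (hU.Qs u' hu' w' hw' q' hq').2
      by_cases huu : u = u'
      · subst huu
        have hιι : ι w = ι w' := by
          rcases hσ1 u with h | h <;> rw [h] at e1 <;> omega
        have hww : w = w' := (hι u hu).1 hw hw' hιι
        subst hww
        congr 1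
        omega
      · exfalso
        have hg := hgap u hu u' hu' huu
        have h1 : ι w = 1 ∨ ι w = 2 := by omega
        have h1' : ι w' = 1 ∨ ι w' = 2 := by omega
        rcases hσ1 u with h | h <;> rcases hσ1 u' with h' | h' <;> rw [h, h'] at e1 e2 <;>
          rcases h1 with h1 | h1 <;> rcases h1' with h1' | h1' <;> rw [h1, h1'] at e1 e2 <;>
          push_cast at e1 e2 <;> omega
  refine h24_greedy (J24 d Cs U Lg Q) (F24 ρ (d + 1) μ ι ow) I Z ?_ ?_ hI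
  · intro j hj ξ hξ ξ' hξ' h
    have h1 := hF j hj ξ hξ
    have h2 := hF j hj ξ' hξ'
    rw [h, h2] at h1
    have h3 : S j * ((ξ : ℤ) - ξ') = 0 := by linarith
    rcases mul_eq_zero.mp h3 with h4 | h4
    · exact absurd h4 (hS0 j hj)
    · omega
  · intro i hi j hj hij ξ hξ ξ' hξ' h h'
    by_contra hx
    have a1 := hF i hi ξ hξ
    have a2 := hF i hi ξ' hξ'
    have b1 := hF j hj ξ hξ
    have b2 := hF j hj ξ' hξ'
    rw [h, b1] at a1
    rw [h', b2] at a2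
    have h3 : (S i - S j) * ((ξ : ℤ) - ξ') = 0 := by linarith
    have h4 : S i = S j := by
      rcases mul_eq_zero.mp h3 with h4 | h4
      · linarith
      · exact absurd (by omega) hx
    have h5 : T i = T j := by
      rw [h4] at a1
      linarith
    exact hij (hne i hi j hj h4 h5)

/-- the middle values of the switch between `ρ + g α` and `ρ + g ξ` -/
private def M24 (d ρ α ξ : ℕ) : Finset ℕ := (Icc 1 d).image fun k => ρ + (d + 1 - k) * α + k * ξ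

private theorem h24_switch {d : ℕ} (hd : d = 1 ∨ d = 2) (ρ α ξ v : ℕ) (Lg : ℕ → Finset ℕ)
    (ι x : ℕ → ℕ) (hι : (Lg v).image ι = Icc 1 d)
    (hx : ∀ w ∈ Lg v, x w = ι w * ((ξ - α) + (α - ξ))) :
    (∃ y, un Lg x v y = insert (ρ + (d + 1) * α) (M24 d ρ α ξ)) ∧
      ∃ y, un Lg x v y = insert (ρ + (d + 1) * ξ) (M24 d ρ α ξ) := by
  have h1 : ∀ y, un Lg x v y =
      insert y ((Icc 1 d).image fun i => y + i * ((ξ - α) + (α - ξ))) := by
    intro y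
    unfold un
    rw [← hι, image_image]
    congr 1
    refine image_congr fun w hw => ?_
    simp only [Function.comp]
    rw [hx w hw]
  rcases hd with rfl | rfl
  · have e1 : (Icc 1 1 : Finset ℕ) = {1} := rfl
    have h2 : ∀ y, un Lg x v y = {y, y + ((ξ - α) + (α - ξ))} := by
      intro y
      rw [h1, e1, image_singleton, one_mul]
    have h3 : M24 1 ρ α ξ = {ρ + α + ξ} := by
      unfold M24
      rw [e1, image_singleton]
      congr 1
      simp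
    rw [h3]
    rcases le_total α ξ with h | h
    · refine ⟨⟨ρ + 2 * α, ?_⟩, ⟨ρ + α + ξ, ?_⟩⟩ <;> rw [h2] <;> ext t <;>
        simp only [mem_insert, mem_singleton] <;> omega
    · refine ⟨⟨ρ + α + ξ, ?_⟩, ⟨ρ + 2 * ξ, ?_⟩⟩ <;> rw [h2] <;> ext t <;>
        simp only [mem_insert, mem_singleton] <;> omega
  · have e1 : (Icc 1 2 : Finset ℕ) = {1, 2} := rfl
    have h2 : ∀ y, un Lg x v y =
        {y, y + ((ξ - α) + (α - ξ)), y + 2 * ((ξ - α) + (α - ξ))} := by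
      intro y
      rw [h1, e1, image_insert, image_singleton, one_mul]
    have h3 : M24 2 ρ α ξ = {ρ + 2 * α + ξ, ρ + α + 2 * ξ} := by
      unfold M24
      rw [e1, image_insert, image_singleton]
      have e2 : ρ + (2 + 1 - 1) * α + 1 * ξ = ρ + 2 * α + ξ := by omega
      have e3 : ρ + (2 + 1 - 2) * α + 2 * ξ = ρ + α + 2 * ξ := by omega
      rw [e2, e3]
    rw [h3]
    rcases le_total α ξ with h | h
    · refine ⟨⟨ρ + 3 * α, ?_⟩, ⟨ρ + 2 * α + ξ, ?_⟩⟩ <;> rw [h2] <;> ext t <;>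
        simp only [mem_insert, mem_singleton] <;> omega
    · refine ⟨⟨ρ + α + 2 * ξ, ?_⟩, ⟨ρ + 3 * ξ, ?_⟩⟩ <;> rw [h2] <;> ext t <;>
        simp only [mem_insert, mem_singleton] <;> omega

private theorem h24_mem_cst {Q : ℕ → Finset ℕ} {x : ℕ → ℕ} {w t : ℕ} :
    t ∈ cst Q x w ↔ ∃ q, (q = 0 ∨ q ∈ Q w) ∧ t = x w + q := by
  unfold cst
  rw [mem_insert, mem_image]
  constructor
  · rintro (h | ⟨q, hq, rfl⟩)
    · exact ⟨0, Or.inl rfl, by rw [h, add_zero]⟩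
    · exact ⟨q, Or.inr hq, rfl⟩
  · rintro ⟨q, rfl | hq, rfl⟩
    · exact Or.inl (add_zero _)
    · exact Or.inr ⟨q, hq, rfl⟩

private theorem h24_cov {Lg : ℕ → Finset ℕ} {x : ℕ → ℕ} {v v' y1 y2 : ℕ} {A B : Finset ℕ}
    (hvv : v ≠ v') (h1 : un Lg x v y1 = A) (h2 : un Lg x v' y2 = B) (hAB : Disjoint A B) :
    ∃ y, Cov Lg x y {v, v'} (A ∪ B) := by
  refine ⟨fun u => if u = v then y1 else y2, ?_, ?_⟩
  · intro u hu u' hu' hne
    rw [mem_insert, mem_singleton] at hu hu'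
    rcases hu with rfl | rfl <;> rcases hu' with rfl | rfl
    · exact absurd rfl hne
    · simp only [if_true, if_neg hvv.symm]
      rw [h1, h2]
      exact hAB
    · simp only [if_true, if_neg hvv.symm]
      rw [h1, h2]
      exact hAB.symm
    · exact absurd rfl hne
  · rw [biUnion_insert, singleton_biUnion]
    simp only [if_true, if_neg hvv.symm]
    rw [h1, h2]

private theorem h24_win {g ρ n X Y : ℕ} (hg : g = 2 ∨ g = 3) (hρ : ρ < g) (hXY : X + n / 16 ≤ Y)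
    (hn : 1000 ≤ n) : ∃ A B : ℕ, (∀ ξ ∈ Icc A B, X < ρ + g * ξ ∧ ρ + g * ξ ≤ Y) ∧
      n ≤ 60 * (Icc A B).card := by
  refine ⟨X / g + 1, Y / g - 1, fun ξ hξ => ?_, ?_⟩
  · rw [mem_Icc] at hξ
    rcases hg with rfl | rfl <;> omega
  · rw [Nat.card_Icc]
    rcases hg with rfl | rfl <;> omega

private theorem h24_size {R j z n N : ℕ} (hj : j ≤ R) (hn : 120 * (R + 1) * (R + 1) * (z + 1) ≤ n)
    (hN : n ≤ 60 * N) : j * z + j * j < N := by
  have h1 : j * z + j * j ≤ R * z + R * R := by gcongr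
  have h2 : 60 * (2 * ((R + 1) * (R + 1) * (z + 1))) ≤ 60 * N := by
    calc 60 * (2 * ((R + 1) * (R + 1) * (z + 1))) = 120 * (R + 1) * (R + 1) * (z + 1) := by ring
      _ ≤ n := hn
      _ ≤ 60 * N := hN
  have h3 : 2 * ((R + 1) * (R + 1) * (z + 1)) ≤ N := Nat.le_of_mul_le_mul_left h2 (by norm_num)
  nlinarith

private theorem h24_set1 (m x : ℕ) (A B : Finset ℕ) :
    insert m A ∪ insert x B = insert m (insert x (A ∪ B)) := by
  ext t
  simp only [mem_union, mem_insert]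
  tauto

private theorem h24_set2 (x b : ℕ) (A B : Finset ℕ) :
    insert x A ∪ insert b B = insert b (insert x (A ∪ B)) := by
  ext t
  simp only [mem_union, mem_insert]
  tauto

private theorem h24_mid {d k ρ α ξ n : ℕ} (hd : d = 1 ∨ d = 2) (h1 : 1 ≤ k) (h2 : k ≤ d)
    (hρ : ρ < d + 1) (ha : n < 8 * (ρ + (d + 1) * α)) (ha2 : ρ + (d + 1) * α ≤ 2 * n - 1)
    (hx : n < 8 * (ρ + (d + 1) * ξ)) (hx2 : ρ + (d + 1) * ξ ≤ 2 * n - 1) :
    n < 8 * (ρ + (d + 1 - k) * α + k * ξ) ∧ ρ + (d + 1 - k) * α + k * ξ ≤ 2 * n - 1 := by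
  have hk : k = 1 ∨ k = 2 := by omega
  rcases hd with rfl | rfl <;> rcases hk with rfl | rfl <;> omega

private theorem h24_leg {d i ρ α ξ n q a : ℕ} (hd : d = 1 ∨ d = 2) (h1 : 1 ≤ i) (h2 : i ≤ d)
    (hρ : ρ < d + 1) (hq : 16 * q ≤ n) (ha2 : a ≤ 2 * n - 1) (ha : a = ρ + (d + 1) * α)
    (hx2 : 2 * (ρ + (d + 1) * ξ) ≤ 3 * n)
    (hx : 16 * a + 6 * n < 16 * (ρ + (d + 1) * ξ) ∨ 16 * (ρ + (d + 1) * ξ) + 6 * n < 16 * a) :
    n < 8 * (i * ((ξ - α) + (α - ξ)) + q) ∧ i * ((ξ - α) + (α - ξ)) + q ≤ 2 * n - 1 := by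
  have hk : i = 1 ∨ i = 2 := by omega
  rcases hd with rfl | rfl <;> rcases hk with rfl | rfl <;> omega

private theorem h24_leg2 {d i ρ α ξ n q a : ℕ} (hd : d = 1 ∨ d = 2) (h1 : 1 ≤ i) (h2 : i ≤ d)
    (hρ : ρ < d + 1) (hq : 16 * q ≤ n) (ha2 : a ≤ 2 * n - 1) (ha : a = ρ + (d + 1) * α)
    (hx2 : ρ + (d + 1) * ξ ≤ 2 * n - 1)
    (hx : 16 * a + 6 * n < 16 * (ρ + (d + 1) * ξ) ∨ 16 * (ρ + (d + 1) * ξ) + 6 * n < 16 * a) :
    n < 8 * (i * ((ξ - α) + (α - ξ)) + q) ∧ i * ((ξ - α) + (α - ξ)) + q ≤ 2 * n - 1 := by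
  have hk : i = 1 ∨ i = 2 := by omega
  rcases hd with rfl | rfl <;> rcases hk with rfl | rfl <;> omega

private theorem h24_gap {d m b ρ α α' n : ℕ} (hd : d = 1 ∨ d = 2) (hm : m = ρ + (d + 1) * α)
    (hb : b = ρ + (d + 1) * α') (hf : 16 * b + 3 * n < 16 * m ∨ 16 * m + 3 * n < 16 * b) :
    n < 16 * (α - α' + (α' - α)) := by
  rcases hd with rfl | rfl <;> omega

private theorem h24_side {d a ρ α ξ n : ℕ} (hd : d = 1 ∨ d = 2) (hρ : ρ < d + 1)
    (ha : a = ρ + (d + 1) * α) (hx : 16 * a + 6 * n < 16 * (ρ + (d + 1) * ξ)) : α < ξ := by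
  rcases hd with rfl | rfl <;> omega

private theorem h24_side' {d a ρ α ξ n : ℕ} (hd : d = 1 ∨ d = 2) (hρ : ρ < d + 1)
    (ha : a = ρ + (d + 1) * α) (hx : 16 * (ρ + (d + 1) * ξ) + 6 * n < 16 * a) : ξ < α := by
  rcases hd with rfl | rfl <;> omega

private theorem h24_wexI {m b n t : ℕ} (hn : 1000 ≤ n) (c1 : 9 * n < 16 * m ∧ 9 * n < 16 * b)
    (h : n / 8 < t ∧ t ≤ 3 * n / 16) : n < 8 * t ∧ 8 * t ≤ 15 * n ∧
      16 * t + 6 * n < 16 * m ∧ 16 * t + 6 * n < 16 * b := by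
  omega

private theorem h24_wexII {m b n t : ℕ} (hn : 1000 ≤ n) (c1 : 16 * m < 23 * n ∧ 16 * b < 23 * n)
    (h : 29 * n / 16 < t ∧ t ≤ 15 * n / 8) : n < 8 * t ∧ 8 * t ≤ 15 * n ∧
      16 * m + 6 * n < 16 * t ∧ 16 * b + 6 * n < 16 * t := by
  omega

private theorem h24_wexIII {m b n t : ℕ} (hn : 1000 ≤ n) (hm1 : n < 8 * m)
    (hb2 : b ≤ 2 * n - 1) (c1 : 16 * m ≤ 9 * n) (c2 : 23 * n ≤ 16 * b)
    (h : m + 6 * n / 16 < t ∧ t ≤ m + 7 * n / 16) : n < 8 * t ∧ 8 * t ≤ 15 * n ∧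
      16 * m + 6 * n < 16 * t ∧ 16 * t + 6 * n < 16 * b := by
  omega

private theorem h24_linkwin {d n m b ρ α α' : ℕ} (hd : d = 1 ∨ d = 2) (hρ : ρ < d + 1)
    (hmα : m = ρ + (d + 1) * α) (hbα : b = ρ + (d + 1) * α') (hn1 : 1000 ≤ n)
    (hm1 : n < 8 * m) (hm2 : m ≤ 2 * n - 1) (hb1 : n < 8 * b) (hb2 : b ≤ 2 * n - 1) :
    ∃ A B : ℕ, (∀ ξ ∈ Icc A B,
      n < 8 * (ρ + (d + 1) * ξ) ∧ 8 * (ρ + (d + 1) * ξ) ≤ 15 * n ∧
      (16 * m + 6 * n < 16 * (ρ + (d + 1) * ξ) ∨ 16 * (ρ + (d + 1) * ξ) + 6 * n < 16 * m) ∧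
      (16 * b + 6 * n < 16 * (ρ + (d + 1) * ξ) ∨ 16 * (ρ + (d + 1) * ξ) + 6 * n < 16 * b)) ∧
      n ≤ 60 * (Icc A B).card ∧ ((∀ ξ ∈ Icc A B, α < ξ) ∨ (∀ ξ ∈ Icc A B, ξ < α)) ∧
      ((∀ ξ ∈ Icc A B, α' < ξ) ∨ (∀ ξ ∈ Icc A B, ξ < α')) := by
  have hg : d + 1 = 2 ∨ d + 1 = 3 := by omega
  by_cases c1 : 9 * n < 16 * m ∧ 9 * n < 16 * b
  · obtain ⟨A, B, h1, h2⟩ := h24_win (X := n / 8) (Y := 3 * n / 16) hg hρ (by omega) hn1
    have h3 := fun ξ hξ => h24_wexI hn1 c1 (h1 ξ hξ)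
    exact ⟨A, B, fun ξ hξ => ⟨(h3 ξ hξ).1, (h3 ξ hξ).2.1, Or.inr (h3 ξ hξ).2.2.1,
      Or.inr (h3 ξ hξ).2.2.2⟩, h2, Or.inr fun ξ hξ => h24_side' hd hρ hmα (h3 ξ hξ).2.2.1,
      Or.inr fun ξ hξ => h24_side' hd hρ hbα (h3 ξ hξ).2.2.2⟩
  by_cases c2 : 16 * m < 23 * n ∧ 16 * b < 23 * n
  · obtain ⟨A, B, h1, h2⟩ := h24_win (X := 29 * n / 16) (Y := 15 * n / 8) hg hρ (by omega) hn1
    have h3 := fun ξ hξ => h24_wexII hn1 c2 (h1 ξ hξ)
    exact ⟨A, B, fun ξ hξ => ⟨(h3 ξ hξ).1, (h3 ξ hξ).2.1, Or.inl (h3 ξ hξ).2.2.1,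
      Or.inl (h3 ξ hξ).2.2.2⟩, h2, Or.inl fun ξ hξ => h24_side hd hρ hmα (h3 ξ hξ).2.2.1,
      Or.inl fun ξ hξ => h24_side hd hρ hbα (h3 ξ hξ).2.2.2⟩
  by_cases c3 : 16 * m ≤ 9 * n
  · obtain ⟨A, B, h1, h2⟩ := h24_win (X := m + 6 * n / 16) (Y := m + 7 * n / 16) hg hρ
      (by omega) hn1
    have c4 : 23 * n ≤ 16 * b := by omega
    have h3 := fun ξ hξ => h24_wexIII hn1 hm1 hb2 c3 c4 (h1 ξ hξ)
    exact ⟨A, B, fun ξ hξ => ⟨(h3 ξ hξ).1, (h3 ξ hξ).2.1, Or.inl (h3 ξ hξ).2.2.1,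
      Or.inr (h3 ξ hξ).2.2.2⟩, h2, Or.inl fun ξ hξ => h24_side hd hρ hmα (h3 ξ hξ).2.2.1,
      Or.inr fun ξ hξ => h24_side' hd hρ hbα (h3 ξ hξ).2.2.2⟩
  · obtain ⟨A, B, h1, h2⟩ := h24_win (X := b + 6 * n / 16) (Y := b + 7 * n / 16) hg hρ
      (by omega) hn1
    have c4 : 23 * n ≤ 16 * m := by omega
    have c5 : 16 * b ≤ 9 * n := by omega
    have h3 := fun ξ hξ => h24_wexIII hn1 hb1 hm2 c5 c4 (h1 ξ hξ)
    exact ⟨A, B, fun ξ hξ => ⟨(h3 ξ hξ).1, (h3 ξ hξ).2.1, Or.inr (h3 ξ hξ).2.2.2,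
      Or.inl (h3 ξ hξ).2.2.1⟩, h2, Or.inr fun ξ hξ => h24_side' hd hρ hmα (h3 ξ hξ).2.2.2,
      Or.inl fun ξ hξ => h24_side hd hρ hbα (h3 ξ hξ).2.2.1⟩

theorem greedy (r : ℕ) (F : Fin r → ℕ → ℕ) (I Z : Finset ℕ)
    (hinj : ∀ i, Set.InjOn (F i) I)
    (hag : ∀ i j, i ≠ j → ∀ ξ ∈ I, ∀ ξ' ∈ I, F i ξ = F j ξ → F i ξ' = F j ξ' → ξ = ξ')
    (hI : r * Z.card + r * r < I.card) :
    ∃ ξ ∈ I, (∀ i, F i ξ ∉ Z) ∧ Function.Injective fun i => F i ξ := by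
  obtain ⟨ξ, h1, h2, h3⟩ := h24_greedy (univ : Finset (Fin r)) F I Z (fun i _ => hinj i)
    (fun i _ j _ => hag i j) (by rw [card_univ, Fintype.card_fin]; exact hI)
  refine ⟨ξ, h1, fun i => h2 i (mem_univ _), fun i j hij => ?_⟩
  exact h3 (mem_coe.mpr (mem_univ _)) (mem_coe.mpr (mem_univ _)) hij

theorem step_a (d D : ℕ) (hd : d = 1 ∨ d = 2) : ∃ C : ℕ, ∀ (n v : ℕ) (Z : Finset ℕ)
    (Lg Q : ℕ → Finset ℕ) (c : ℕ → ℕ) (a : ℕ), C * (Z.card + 1) ≤ n → Unit n d D {v} Lg Q →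
    (∀ l < d, n < 8 * c l ∧ 4 * c l ≤ n) → (∀ l < d, ∀ l' < d, l ≠ l' → c l ≠ c l') →
    n < 8 * a → a ≤ 2 * n - 1 → a ∈ Z → (∀ l < d, c l ∈ Z) →
    ∃ (Mid : Finset ℕ) (x : ℕ → ℕ) (a' : ℕ), a' % (d + 1) = a % (d + 1) ∧
      ((n < 8 * a' ∧ 4 * a' ≤ n) ∨ (5 * n ≤ 4 * a' ∧ 2 * a' ≤ 3 * n)) ∧
      Mid.card = d ∧ a' ∉ Mid ∧ (∀ l < d, a' + c l ∉ Mid) ∧
      (∀ t ∈ insert a' (Mid ∪ (range d).image fun l => a' + c l),
        t ∉ Z ∧ n < 8 * t ∧ t ≤ 2 * n - 1) ∧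
      Lgd n {v} (Z ∪ insert a' (Mid ∪ (range d).image fun l => a' + c l)) Lg Q x ∧
      (∃ y, un Lg x v y = insert a' Mid) ∧ (∃ y, un Lg x v y = insert a Mid) := by
  classical
  obtain ⟨R, hR⟩ : ∃ R : ℕ, R = 1 + (d + (1 * d + 1 * d * (D + 2))) := ⟨_, rfl⟩
  refine ⟨120 * (R + 1) * (R + 1), ?_⟩
  intro n v Z Lg Q c a hn hU hc hcc ha1 ha2 haZ hcZ
  have hR4 : 4 ≤ R := by
    rw [hR]
    rcases hd with rfl | rfl <;> omega
  have hn1 : 1000 ≤ n := by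
    calc 1000 ≤ 120 * (4 + 1) * (4 + 1) * (0 + 1) := by norm_num
      _ ≤ 120 * (R + 1) * (R + 1) * (Z.card + 1) := by gcongr; omega
      _ ≤ n := hn
  obtain ⟨ow, ι, how, hι⟩ := h24_data hd hU
  obtain ⟨ρ, hρd⟩ : ∃ ρ, ρ = a % (d + 1) := ⟨_, rfl⟩
  obtain ⟨α, hαd⟩ : ∃ α, α = a / (d + 1) := ⟨_, rfl⟩
  have haα : a = ρ + (d + 1) * α := by
    rw [hρd, hαd]
    exact (Nat.mod_add_div a (d + 1)).symm
  have hρ : ρ < d + 1 := by
    rw [hρd]
    exact Nat.mod_lt _ (by omega)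
  obtain ⟨Cs, hCsd⟩ : ∃ Cs : Finset ℕ, Cs = (range d).image c := ⟨_, rfl⟩
  have hCs0 : ∀ x ∈ Cs, 0 < x := by
    intro x hx
    rw [hCsd, mem_image] at hx
    obtain ⟨l, hl, rfl⟩ := hx
    have := hc l (mem_range.mp hl)
    omega
  have hg : d + 1 = 2 ∨ d + 1 = 3 := by omega
  obtain ⟨A, B, hAB, hcard, hside⟩ : ∃ A B : ℕ, (∀ ξ ∈ Icc A B,
      (8 * a ≤ 7 * n ∧ 21 * n < 16 * (ρ + (d + 1) * ξ) ∧ 2 * (ρ + (d + 1) * ξ) ≤ 3 * n) ∨
      (7 * n < 8 * a ∧ n < 8 * (ρ + (d + 1) * ξ) ∧ 4 * (ρ + (d + 1) * ξ) ≤ n)) ∧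
      n ≤ 60 * (Icc A B).card ∧ ((∀ ξ ∈ Icc A B, α < ξ) ∨ (∀ ξ ∈ Icc A B, ξ < α)) := by
    by_cases h8 : 8 * a ≤ 7 * n
    · obtain ⟨A, B, h1, h2⟩ := h24_win (X := 21 * n / 16) (Y := 3 * n / 2) hg hρ (by omega) hn1
      have h3 : ∀ ξ ∈ Icc A B, 21 * n < 16 * (ρ + (d + 1) * ξ) ∧
          2 * (ρ + (d + 1) * ξ) ≤ 3 * n := by
        intro ξ hξ
        have := h1 ξ hξ
        omega
      refine ⟨A, B, fun ξ hξ => Or.inl ⟨h8, h3 ξ hξ⟩, h2, Or.inl fun ξ hξ => ?_⟩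
      have h4 := h3 ξ hξ
      rcases hd with rfl | rfl <;> omega
    · obtain ⟨A, B, h1, h2⟩ := h24_win (X := n / 8) (Y := n / 4) hg hρ (by omega) hn1
      have h3 : ∀ ξ ∈ Icc A B, n < 8 * (ρ + (d + 1) * ξ) ∧ 4 * (ρ + (d + 1) * ξ) ≤ n := by
        intro ξ hξ
        have := h1 ξ hξ
        omega
      refine ⟨A, B, fun ξ hξ => Or.inr ⟨by omega, h3 ξ hξ⟩, h2, Or.inr fun ξ hξ => ?_⟩
      have h4 := h3 ξ hξ
      rcases hd with rfl | rfl <;> omega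
  have hJ : (J24 d Cs {v} Lg Q).card ≤ R := by
    refine (h24_cardJ hU).trans ?_
    rw [hR, card_singleton]
    gcongr
    rw [hCsd]
    exact card_image_le.trans (card_range d).le
  obtain ⟨ξ, hξ, hZ, hinj⟩ := h24_core hd (Cs := Cs) (I := Icc A B) (Z := Z) hU
    (μ := fun _ => α) (ρ := ρ) how hι hCs0 (fun u _ => show n < 8 * (ρ + (d + 1) * α) by rw [← haα]; exact ha1)
    (by
      intro u hu u' hu' h
      rw [mem_singleton] at hu hu'
      exact absurd (hu.trans hu'.symm) h)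
    (fun _ _ => hside) (h24_size hJ hn hcard)
  have hw := hAB ξ hξ
  have mb : Ix24.b ∈ J24 d Cs {v} Lg Q := h24_memJ.mpr (Or.inl rfl)
  have ms : ∀ l < d, Ix24.s (c l) ∈ J24 d Cs {v} Lg Q := by
    intro l hl
    refine h24_memJ.mpr (Or.inr (Or.inl ⟨c l, ?_, rfl⟩))
    rw [hCsd]
    exact mem_image_of_mem _ (mem_range.mpr hl)
  have mm : ∀ k, 1 ≤ k → k ≤ d → Ix24.m v k ∈ J24 d Cs {v} Lg Q := fun k h1 h2 =>
    h24_memJ.mpr (Or.inr (Or.inr (Or.inl ⟨v, mem_singleton_self v, k, h1, h2, rfl⟩)))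
  have ml : ∀ w ∈ Lg v, ∀ q, (q = 0 ∨ q ∈ Q w) → Ix24.l w q ∈ J24 d Cs {v} Lg Q :=
    fun w hw q hq =>
    h24_memJ.mpr (Or.inr (Or.inr (Or.inr ⟨v, mem_singleton_self v, w, hw, q, hq, rfl⟩)))
  have memM : ∀ t, t ∈ M24 d ρ α ξ ↔ ∃ k, 1 ≤ k ∧ k ≤ d ∧ t = ρ + (d + 1 - k) * α + k * ξ := by
    intro t
    unfold M24
    rw [mem_image]
    constructor
    · rintro ⟨k, hk, rfl⟩
      exact ⟨k, (mem_Icc.mp hk).1, (mem_Icc.mp hk).2, rfl⟩
    · rintro ⟨k, h1, h2, rfl⟩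
      exact ⟨k, mem_Icc.mpr ⟨h1, h2⟩, rfl⟩
  have inj : ∀ i ∈ J24 d Cs {v} Lg Q, ∀ j ∈ J24 d Cs {v} Lg Q,
      F24 ρ (d + 1) (fun _ => α) ι ow i ξ = F24 ρ (d + 1) (fun _ => α) ι ow j ξ → i = j :=
    fun i hi j hj h => hinj (mem_coe.mpr hi) (mem_coe.mpr hj) h
  have hιr : ∀ w ∈ Lg v, 1 ≤ ι w ∧ ι w ≤ d := by
    intro w hw
    have : ι w ∈ Icc 1 d := by
      rw [← (hι v (mem_singleton_self v)).2]
      exact mem_image_of_mem _ hw
    exact mem_Icc.mp this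
  obtain ⟨sw1, sw2⟩ := h24_switch hd ρ α ξ v Lg ι (fun w => ι w * ((ξ - α) + (α - ξ)))
    (hι v (mem_singleton_self v)).2 (fun _ _ => rfl)
  rw [← haα] at sw1
  have nb : ρ + (d + 1) * ξ ∉ M24 d ρ α ξ := by
    intro h
    obtain ⟨k, h1, h2, h3⟩ := (memM _).mp h
    exact Ix24.noConfusion (inj _ mb _ (mm k h1 h2) h3)
  have ns : ∀ l < d, ρ + (d + 1) * ξ + c l ∉ M24 d ρ α ξ := by
    intro l hl h
    obtain ⟨k, h1, h2, h3⟩ := (memM _).mp h
    exact Ix24.noConfusion (inj _ (ms l hl) _ (mm k h1 h2) h3)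
  refine ⟨M24 d ρ α ξ, fun w => ι w * ((ξ - α) + (α - ξ)), ρ + (d + 1) * ξ, ?_, ?_, ?_, nb, ns,
    ?_, ?_, sw2, sw1⟩
  · rw [Nat.add_mul_mod_self_left, hρd, Nat.mod_mod]
  · omega
  · unfold M24
    rw [card_image_of_injOn, Nat.card_Icc]
    · omega
    · intro k hk k' hk' h
      rw [mem_coe, mem_Icc] at hk hk'
      have := inj _ (mm k hk.1 hk.2) _ (mm k' hk'.1 hk'.2) h
      injection this
  · intro t ht
    simp only [mem_insert, mem_union, mem_image, mem_range] at ht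
    rcases ht with rfl | ht | ⟨l, hl, rfl⟩
    · refine ⟨hZ _ mb, ?_⟩
      omega
    · obtain ⟨k, h1, h2, rfl⟩ := (memM _).mp ht
      refine ⟨hZ _ (mm k h1 h2), ?_⟩
      exact h24_mid hd h1 h2 hρ (haα ▸ ha1) (haα ▸ ha2) (by omega) (by omega)
    · refine ⟨hZ _ (ms l hl), ?_⟩
      have := hc l hl
      omega
  · refine ⟨?_, ?_, ?_⟩
    · intro u hu w hw' t ht
      rw [mem_singleton] at hu
      subst hu
      obtain ⟨q, hq, rfl⟩ := h24_mem_cst.mp ht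
      have hqb : 16 * q ≤ n := by
        rcases hq with rfl | hq
        · omega
        · exact (hU.Qs _ (mem_singleton_self _) w hw' q hq).2
      have hr := hιr w hw'
      exact h24_leg hd hr.1 hr.2 hρ hqb ha2 haα (by omega) (by omega)
    · intro u hu w hw'
      rw [mem_singleton] at hu
      subst hu
      rw [disjoint_left]
      intro t ht ht2
      obtain ⟨q, hq, rfl⟩ := h24_mem_cst.mp ht
      simp only [mem_insert, mem_union, mem_image, mem_range] at ht2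
      have hl := ml w hw' q hq
      rcases ht2 with ht2 | ht2 | ht2 | ⟨l, hl', ht2⟩
      · exact hZ _ hl ht2
      · exact Ix24.noConfusion (inj _ hl _ mb ht2)
      · obtain ⟨k, h1, h2, h3⟩ := (memM _).mp ht2
        exact Ix24.noConfusion (inj _ hl _ (mm k h1 h2) h3)
      · exact Ix24.noConfusion (inj _ hl _ (ms l hl') ht2.symm)
    · intro w hw1 w' hw2 hne
      rw [singleton_biUnion] at hw1 hw2
      rw [disjoint_left]
      intro t ht ht2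
      obtain ⟨q, hq, rfl⟩ := h24_mem_cst.mp ht
      obtain ⟨q', hq', h3⟩ := h24_mem_cst.mp ht2
      have := inj _ (ml w hw1 q hq) _ (ml w' hw2 q' hq') h3
      injection this with h4 h5
      exact hne h4

theorem link (d D : ℕ) (hd : d = 1 ∨ d = 2) : ∃ C : ℕ, ∀ (n v v' : ℕ) (Z : Finset ℕ)
    (Lg Q : ℕ → Finset ℕ) (m b : ℕ), C * (Z.card + 1) ≤ n → Unit n d D {v, v'} Lg Q → v ≠ v' →
    m ∈ Z → b ∈ Z → m % (d + 1) = b % (d + 1) → n < 8 * m → m ≤ 2 * n - 1 → n < 8 * b →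
    b ≤ 2 * n - 1 → (16 * b + 3 * n < 16 * m ∨ 16 * m + 3 * n < 16 * b) →
    ∃ (Mid : Finset ℕ) (x : ℕ → ℕ), Mid.card = 2 * d + 1 ∧
      (∀ t ∈ Mid, t ∉ Z ∧ n < 8 * t ∧ t ≤ 2 * n - 1) ∧ Lgd n {v, v'} (Z ∪ Mid) Lg Q x ∧
      (∃ y, Cov Lg x y {v, v'} (insert m Mid)) ∧ (∃ y, Cov Lg x y {v, v'} (insert b Mid)) := by
  classical
  obtain ⟨R, hR⟩ : ∃ R : ℕ, R = 1 + (0 + (2 * d + 2 * d * (D + 2))) := ⟨_, rfl⟩
  refine ⟨120 * (R + 1) * (R + 1), ?_⟩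
  intro n v v' Z Lg Q m b hn hU hvv hmZ hbZ hmb hm1 hm2 hb1 hb2 hfar
  have hR4 : 4 ≤ R := by
    rw [hR]
    rcases hd with rfl | rfl <;> omega
  have hn1 : 1000 ≤ n := by
    calc 1000 ≤ 120 * (4 + 1) * (4 + 1) * (0 + 1) := by norm_num
      _ ≤ 120 * (R + 1) * (R + 1) * (Z.card + 1) := by gcongr; omega
      _ ≤ n := hn
  obtain ⟨ow, ι, how, hι⟩ := h24_data hd hU
  obtain ⟨ρ, hρd⟩ : ∃ ρ, ρ = m % (d + 1) := ⟨_, rfl⟩
  obtain ⟨α, hαd⟩ : ∃ α, α = m / (d + 1) := ⟨_, rfl⟩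
  obtain ⟨α', hαd'⟩ : ∃ α', α' = b / (d + 1) := ⟨_, rfl⟩
  have hmα : m = ρ + (d + 1) * α := by
    rw [hρd, hαd]
    exact (Nat.mod_add_div m (d + 1)).symm
  have hbα : b = ρ + (d + 1) * α' := by
    rw [hρd, hαd', hmb]
    exact (Nat.mod_add_div b (d + 1)).symm
  have hρ : ρ < d + 1 := by
    rw [hρd]
    exact Nat.mod_lt _ (by omega)
  have hg : d + 1 = 2 ∨ d + 1 = 3 := by omega
  obtain ⟨A, B, hAB, hcard, hs1, hs2⟩ : ∃ A B : ℕ, (∀ ξ ∈ Icc A B,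
      n < 8 * (ρ + (d + 1) * ξ) ∧ 8 * (ρ + (d + 1) * ξ) ≤ 15 * n ∧
      (16 * m + 6 * n < 16 * (ρ + (d + 1) * ξ) ∨ 16 * (ρ + (d + 1) * ξ) + 6 * n < 16 * m) ∧
      (16 * b + 6 * n < 16 * (ρ + (d + 1) * ξ) ∨ 16 * (ρ + (d + 1) * ξ) + 6 * n < 16 * b)) ∧
      n ≤ 60 * (Icc A B).card ∧ ((∀ ξ ∈ Icc A B, α < ξ) ∨ (∀ ξ ∈ Icc A B, ξ < α)) ∧
      ((∀ ξ ∈ Icc A B, α' < ξ) ∨ (∀ ξ ∈ Icc A B, ξ < α')) := by
    exact h24_linkwin hd hρ hmα hbα hn1 hm1 hm2 hb1 hb2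
  have hJ : (J24 d ∅ {v, v'} Lg Q).card ≤ R := by
    refine (h24_cardJ hU).trans ?_
    rw [hR, card_pair hvv, card_empty]
  obtain ⟨μ, hμ⟩ : ∃ μ : ℕ → ℕ, μ = fun u => if u = v then α else α' := ⟨_, rfl⟩
  have hμv : μ v = α := by rw [hμ]; simp
  have hμv' : μ v' = α' := by rw [hμ]; simp [hvv.symm]
  have hU2 : ∀ P : ℕ → Prop, P v → P v' → ∀ u ∈ ({v, v'} : Finset ℕ), P u := by
    intro P h1 h2 u hu
    rw [mem_insert, mem_singleton] at hu
    rcases hu with rfl | rfl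
    · exact h1
    · exact h2
  have vU : v ∈ ({v, v'} : Finset ℕ) := by simp
  have vU' : v' ∈ ({v, v'} : Finset ℕ) := by simp
  obtain ⟨ξ, hξ, hZ, hinj⟩ := h24_core hd (Cs := ∅) (I := Icc A B) (Z := Z) hU
    (μ := μ) (ρ := ρ) how hι (by simp)
    (hU2 (fun u => n < 8 * (ρ + (d + 1) * μ u)) (by simp only [hμv, ← hmα]; exact hm1)
      (by simp only [hμv', ← hbα]; exact hb1))
    (by
      have hg1 := h24_gap hd hmα hbα hfar
      refine hU2 (fun u => ∀ u' ∈ ({v, v'} : Finset ℕ), u ≠ u' →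
        n < 16 * (μ u - μ u' + (μ u' - μ u)))
        (hU2 (fun u' => v ≠ u' → n < 16 * (μ v - μ u' + (μ u' - μ v)))
          (fun h => absurd rfl h) (fun _ => ?_))
        (hU2 (fun u' => v' ≠ u' → n < 16 * (μ v' - μ u' + (μ u' - μ v')))
          (fun _ => ?_) (fun h => absurd rfl h))
      · rw [hμv, hμv']
        exact hg1
      · rw [hμv, hμv', add_comm]
        exact hg1)
    (hU2 (fun u => (∀ ξ ∈ Icc A B, μ u < ξ) ∨ (∀ ξ ∈ Icc A B, ξ < μ u))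
      (by simp only [hμv]; exact hs1) (by simp only [hμv']; exact hs2)) (h24_size hJ hn hcard)
  have hw := hAB ξ hξ
  have hwξ : n < 8 * (ρ + (d + 1) * ξ) ∧ ρ + (d + 1) * ξ ≤ 2 * n - 1 := by
    refine ⟨hw.1, ?_⟩
    clear hAB hcard hs1 hs2 hmα hbα hinj hZ
    omega
  have mb : Ix24.b ∈ J24 d ∅ {v, v'} Lg Q := h24_memJ.mpr (Or.inl rfl)
  have mm : ∀ u ∈ ({v, v'} : Finset ℕ), ∀ k, 1 ≤ k → k ≤ d →
      Ix24.m u k ∈ J24 d ∅ {v, v'} Lg Q := fun u hu k h1 h2 =>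
    h24_memJ.mpr (Or.inr (Or.inr (Or.inl ⟨u, hu, k, h1, h2, rfl⟩)))
  have ml : ∀ u ∈ ({v, v'} : Finset ℕ), ∀ w ∈ Lg u, ∀ q, (q = 0 ∨ q ∈ Q w) →
      Ix24.l w q ∈ J24 d ∅ {v, v'} Lg Q := fun u hu w hw q hq =>
    h24_memJ.mpr (Or.inr (Or.inr (Or.inr ⟨u, hu, w, hw, q, hq, rfl⟩)))
  have memM : ∀ α t, t ∈ M24 d ρ α ξ ↔ ∃ k, 1 ≤ k ∧ k ≤ d ∧ t = ρ + (d + 1 - k) * α + k * ξ := by
    intro α t
    unfold M24
    rw [mem_image]
    constructor
    · rintro ⟨k, hk, rfl⟩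
      exact ⟨k, (mem_Icc.mp hk).1, (mem_Icc.mp hk).2, rfl⟩
    · rintro ⟨k, h1, h2, rfl⟩
      exact ⟨k, mem_Icc.mpr ⟨h1, h2⟩, rfl⟩
  have inj : ∀ i ∈ J24 d ∅ {v, v'} Lg Q, ∀ j ∈ J24 d ∅ {v, v'} Lg Q,
      F24 ρ (d + 1) μ ι ow i ξ = F24 ρ (d + 1) μ ι ow j ξ → i = j :=
    fun i hi j hj h => hinj (mem_coe.mpr hi) (mem_coe.mpr hj) h
  have Fm : ∀ u k, F24 ρ (d + 1) μ ι ow (Ix24.m u k) ξ = ρ + (d + 1 - k) * μ u + k * ξ :=
    fun _ _ => rfl
  have Fb : F24 ρ (d + 1) μ ι ow Ix24.b ξ = ρ + (d + 1) * ξ := rfl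
  have Fl : ∀ w q, F24 ρ (d + 1) μ ι ow (Ix24.l w q) ξ =
      ι w * ((ξ - μ (ow w)) + (μ (ow w) - ξ)) + q := fun _ _ => rfl
  have hιr : ∀ u ∈ ({v, v'} : Finset ℕ), ∀ w ∈ Lg u, 1 ≤ ι w ∧ ι w ≤ d := by
    intro u hu w hw
    have : ι w ∈ Icc 1 d := by
      rw [← (hι u hu).2]
      exact mem_image_of_mem _ hw
    exact mem_Icc.mp this
  obtain ⟨x, hx⟩ : ∃ x : ℕ → ℕ, x = fun w => ι w * ((ξ - μ (ow w)) + (μ (ow w) - ξ)) := ⟨_, rfl⟩
  obtain ⟨⟨y1, sw1⟩, y2, sw2⟩ := h24_switch hd ρ α ξ v Lg ι x (hι v vU).2 (by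
    intro w hw
    rw [hx]
    simp only
    rw [how v vU w hw, hμv])
  obtain ⟨⟨z1, tw1⟩, z2, tw2⟩ := h24_switch hd ρ α' ξ v' Lg ι x (hι v' vU').2 (by
    intro w hw
    rw [hx]
    simp only
    rw [how v' vU' w hw, hμv'])
  rw [← hmα] at sw1
  rw [← hbα] at tw1
  -- memberships
  have bZ : ρ + (d + 1) * ξ ∉ Z := hZ _ mb
  have M1Z : ∀ t ∈ M24 d ρ α ξ, t ∉ Z := by
    intro t ht
    obtain ⟨k, h1, h2, rfl⟩ := (memM _ _).mp ht
    have := hZ _ (mm v vU k h1 h2)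
    rw [Fm, hμv] at this
    exact this
  have M2Z : ∀ t ∈ M24 d ρ α' ξ, t ∉ Z := by
    intro t ht
    obtain ⟨k, h1, h2, rfl⟩ := (memM _ _).mp ht
    have := hZ _ (mm v' vU' k h1 h2)
    rw [Fm, hμv'] at this
    exact this
  have nb1 : ρ + (d + 1) * ξ ∉ M24 d ρ α ξ := by
    intro h
    obtain ⟨k, h1, h2, h3⟩ := (memM _ _).mp h
    refine Ix24.noConfusion (inj _ mb _ (mm v vU k h1 h2) ?_)
    rw [Fm, Fb, hμv]
    exact h3
  have nb2 : ρ + (d + 1) * ξ ∉ M24 d ρ α' ξ := by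
    intro h
    obtain ⟨k, h1, h2, h3⟩ := (memM _ _).mp h
    refine Ix24.noConfusion (inj _ mb _ (mm v' vU' k h1 h2) ?_)
    rw [Fm, Fb, hμv']
    exact h3
  have dMM : Disjoint (M24 d ρ α ξ) (M24 d ρ α' ξ) := by
    rw [disjoint_left]
    intro t h1 h2
    obtain ⟨k, a1, a2, rfl⟩ := (memM _ _).mp h1
    obtain ⟨k', b1, b2, h3⟩ := (memM _ _).mp h2
    have := inj _ (mm v vU k a1 a2) _ (mm v' vU' k' b1 b2) (by rw [Fm, Fm, hμv, hμv']; exact h3)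
    injection this with h4 h5
    exact hvv h4
  have cM : ∀ u ∈ ({v, v'} : Finset ℕ), (M24 d ρ (μ u) ξ).card = d := by
    intro u hu
    unfold M24
    rw [card_image_of_injOn, Nat.card_Icc]
    · omega
    · intro k hk k' hk' h
      rw [mem_coe, mem_Icc] at hk hk'
      have := inj _ (mm u hu k hk.1 hk.2) _ (mm u hu k' hk'.1 hk'.2) h
      injection this
  have cM1 := cM v vU
  have cM2 := cM v' vU'
  rw [hμv] at cM1
  rw [hμv'] at cM2
  refine ⟨insert (ρ + (d + 1) * ξ) (M24 d ρ α ξ ∪ M24 d ρ α' ξ), x, ?_, ?_, ?_, ?_, ?_⟩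
  · rw [card_insert_of_notMem, card_union_of_disjoint dMM, cM1, cM2]
    · omega
    · rw [mem_union, not_or]
      exact ⟨nb1, nb2⟩
  · intro t ht
    rw [mem_insert, mem_union] at ht
    rcases ht with rfl | ht | ht
    · exact ⟨bZ, hwξ⟩
    · refine ⟨M1Z t ht, ?_⟩
      obtain ⟨k, h1, h2, rfl⟩ := (memM _ _).mp ht
      exact h24_mid hd h1 h2 hρ (hmα ▸ hm1) (hmα ▸ hm2) hwξ.1 hwξ.2
    · refine ⟨M2Z t ht, ?_⟩
      obtain ⟨k, h1, h2, rfl⟩ := (memM _ _).mp ht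
      exact h24_mid hd h1 h2 hρ (hbα ▸ hb1) (hbα ▸ hb2) hwξ.1 hwξ.2
  · refine ⟨?_, ?_, ?_⟩
    · intro u hu w hw' t ht
      obtain ⟨q, hq, rfl⟩ := h24_mem_cst.mp ht
      have hqb : 16 * q ≤ n := by
        rcases hq with rfl | hq
        · omega
        · exact (hU.Qs u hu w hw' q hq).2
      have hr := hιr u hu w hw'
      have hxw : x w = ι w * ((ξ - μ u) + (μ u - ξ)) := by
        rw [hx]
        show ι w * ((ξ - μ (ow w)) + (μ (ow w) - ξ)) = _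
        rw [how u hu w hw']
      rw [hxw]
      rw [mem_insert, mem_singleton] at hu
      rcases hu with rfl | rfl
      · rw [hμv]
        exact h24_leg2 hd hr.1 hr.2 hρ hqb hm2 hmα hwξ.2 hw.2.2.1
      · rw [hμv']
        exact h24_leg2 hd hr.1 hr.2 hρ hqb hb2 hbα hwξ.2 hw.2.2.2
    · intro u hu w hw'
      rw [disjoint_left]
      intro t ht ht2
      obtain ⟨q, hq, rfl⟩ := h24_mem_cst.mp ht
      have hl := ml u hu w hw' q hq
      have hxl : x w + q = F24 ρ (d + 1) μ ι ow (Ix24.l w q) ξ := by rw [Fl, hx]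
      rw [hxl, mem_union, mem_insert, mem_union] at ht2
      rcases ht2 with ht2 | ht2 | ht2 | ht2
      · exact hZ _ hl ht2
      · exact Ix24.noConfusion (inj _ hl _ mb ht2)
      · obtain ⟨k, h1, h2, h3⟩ := (memM _ _).mp ht2
        exact Ix24.noConfusion (inj _ hl _ (mm v vU k h1 h2) (by rw [h3, Fm, hμv]))
      · obtain ⟨k, h1, h2, h3⟩ := (memM _ _).mp ht2
        exact Ix24.noConfusion (inj _ hl _ (mm v' vU' k h1 h2) (by rw [h3, Fm, hμv']))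
    · intro w hw1 w' hw2 hne
      rw [mem_biUnion] at hw1 hw2
      obtain ⟨u, hu, hw1⟩ := hw1
      obtain ⟨u', hu', hw2⟩ := hw2
      rw [disjoint_left]
      intro t ht ht2
      obtain ⟨q, hq, rfl⟩ := h24_mem_cst.mp ht
      obtain ⟨q', hq', h3⟩ := h24_mem_cst.mp ht2
      have := inj _ (ml u hu w hw1 q hq) _ (ml u' hu' w' hw2 q' hq') (by
        rw [Fl, Fl]
        rw [hx] at h3
        exact h3)
      injection this with h4 h5
      exact hne h4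
  · have h1 := h24_cov hvv sw1 tw2 (by
      rw [disjoint_left]
      intro t h1 h2
      rw [mem_insert] at h1 h2
      rcases h1 with rfl | h1
      · rcases h2 with h2 | h2
        · rw [h2] at hmZ
          exact bZ hmZ
        · exact M2Z _ h2 hmZ
      · rcases h2 with rfl | h2
        · exact nb1 h1
        · exact disjoint_left.mp dMM h1 h2)
    have e : insert m (M24 d ρ α ξ) ∪ insert (ρ + (d + 1) * ξ) (M24 d ρ α' ξ) =
        insert m (insert (ρ + (d + 1) * ξ) (M24 d ρ α ξ ∪ M24 d ρ α' ξ)) := h24_set1 _ _ _ _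
    rw [← e]
    exact h1
  · have h1 := h24_cov hvv sw2 tw1 (by
      rw [disjoint_left]
      intro t h1 h2
      rw [mem_insert] at h1 h2
      rcases h1 with rfl | h1
      · rcases h2 with h2 | h2
        · rw [← h2] at hbZ
          exact bZ hbZ
        · exact nb2 h2
      · rcases h2 with rfl | h2
        · exact M1Z _ h1 hbZ
        · exact disjoint_left.mp dMM h1 h2)
    have e : insert (ρ + (d + 1) * ξ) (M24 d ρ α ξ) ∪ insert b (M24 d ρ α' ξ) =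
        insert b (insert (ρ + (d + 1) * ξ) (M24 d ρ α ξ ∪ M24 d ρ α' ξ)) := h24_set2 _ _ _ _
    rw [← e]
    exact h1

end Pool.Agent.SQ
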