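import Pool.Agent.Helper73.SQ.AB1

/-!
# SQ-AB2: node gadget

Proof in words (`g = d + 1`).  Enumerate `N`.  Choose a unit `v0` (primary) and labels `c l ∈ (n/8, n/4]` (`l < d`) for its legs, one after the other, such that
the costs `cst` are new (each is a greedy choice); then `b l ∈ (7n/8, n]` new and different with `b l ≡ a + c l mod g` (`a ∈ N`, the class does not depend on
`a`); if `d = 2` the `b l` are different.  For each `a ∈ N` (one after the other, with new units, `Z` enlarged by all values chosen so far): `step_a` gives `a'`,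
and for each `l < d` `link` gives a super-switch between `m_l = a' + c l` and `b l` (`|m_l - b l| ≥ 3n/8`).  So for each `a` the group of `1 + 2 d` units has two
states: INACTIVE: covers `Mid ∪ {a'} ∪ {a' + c l}`, ACTIVE: covers `Mid ∪ {a} ∪ {b l}` (`Mid` = all middle values of the group).  `Pv` = union of all
`Mid`, `a'`, `a' + c l`, and the `b l`.  To cover `Pv ∪ {a}`: group of `a` active, the other groups inactive, and `v0` with label `y = a'` covers
`{a'} ∪ {a' + c l}`.  (`N = ∅`: everything empty.)  At most `1 + 70 * 5 = 351` units; `|Pv|` is bounded by a constant.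
-/

set_option autoImplicit false

namespace Pool.Agent.SQ

open Finset Pool.Agent.SEM

/-! ### General lemmas -/

/-- a new element of a residue class in an interval -/
theorem pick84 (g lo L r : ℕ) (hg : 0 < g) (F : Finset ℕ) (hF : F.card < L) :
    ∃ t, lo < t ∧ t ≤ lo + g * L ∧ t % g = r % g ∧ t ∉ F := by
  obtain ⟨s, hs1, hs2⟩ : ∃ s, s < g ∧ (lo + 1 + s) % g = r % g := by
    refine ⟨(r + g * (lo + 1) - (lo + 1)) % g, Nat.mod_lt _ hg, ?_⟩
    have h1 : lo + 1 ≤ g * (lo + 1) := Nat.le_mul_of_pos_left _ hg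
    rw [Nat.add_mod_mod, Nat.add_sub_cancel' (by omega), Nat.add_mul_mod_self_left]
  obtain ⟨i, hi, hi'⟩ : ∃ i ∈ range L, lo + 1 + s + g * i ∉ F := by
    by_contra h
    push Not at h
    have h1 : (range L).image (fun i => lo + 1 + s + g * i) ⊆ F := by
      intro t ht
      obtain ⟨i, hi, rfl⟩ := mem_image.1 ht
      exact h i hi
    have h2 := card_le_card h1
    rw [card_image_of_injective _ (fun i j hij => by
      have : g * i = g * j := by simpa using hij
      exact Nat.eq_of_mul_eq_mul_left hg this), card_range] at h2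
    omega
  rw [mem_range] at hi
  refine ⟨lo + 1 + s + g * i, by omega, ?_, ?_, hi'⟩
  · have h1 : g * (i + 1) ≤ g * L := Nat.mul_le_mul_left _ hi
    rw [Nat.mul_add] at h1
    omega
  · rw [Nat.add_mul_mod_self_left, hs2]

/-- values used by the legs of the units in `S` -/
def cs84 (Lg Q : ℕ → Finset ℕ) (x : ℕ → ℕ) (S : Finset ℕ) : Finset ℕ := (S.biUnion Lg).biUnion (cst Q x)

theorem mem_cs84 {Lg Q : ℕ → Finset ℕ} {x : ℕ → ℕ} {S : Finset ℕ} {t : ℕ} :
    t ∈ cs84 Lg Q x S ↔ ∃ v ∈ S, ∃ w ∈ Lg v, t ∈ cst Q x w := by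
  unfold cs84
  simp only [mem_biUnion]
  constructor
  · rintro ⟨w, ⟨v, hv, hw⟩, ht⟩
    exact ⟨v, hv, w, hw, ht⟩
  · rintro ⟨v, hv, w, hw, ht⟩
    exact ⟨w, ⟨v, hv, hw⟩, ht⟩

theorem Unit.mono84 {n d D : ℕ} {S S' : Finset ℕ} {Lg Q : ℕ → Finset ℕ} (h : Unit n d D S Lg Q) (hS : S' ⊆ S) :
    Unit n d D S' Lg Q where
  card v hv := h.card v (hS hv)
  dj v hv v' hv' := h.dj v (hS hv) v' (hS hv')
  Qc v hv := h.Qc v (hS hv)
  Qs v hv := h.Qs v (hS hv)

theorem card_cs84 {n d D : ℕ} {S : Finset ℕ} {Lg Q : ℕ → Finset ℕ} (h : Unit n d D S Lg Q) (x : ℕ → ℕ) :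
    (cs84 Lg Q x S).card ≤ S.card * (d * (D + 2)) := by
  have h1 : cs84 Lg Q x S = S.biUnion fun v => (Lg v).biUnion (cst Q x) := by
    ext t
    rw [mem_cs84]
    simp only [mem_biUnion]
  rw [h1]
  refine card_biUnion_le_card_mul _ _ _ fun v hv => ?_
  rw [← h.card v hv]
  refine card_biUnion_le_card_mul _ _ _ fun w hw => ?_
  refine (card_insert_le _ _).trans ?_
  have h2 := h.Qc v hv w hw
  have h3 : ((Q w).image fun q => x w + q).card ≤ (Q w).card := card_image_le
  omega

theorem un_congr84 {Lg : ℕ → Finset ℕ} {x x' : ℕ → ℕ} {v y : ℕ} (h : ∀ w ∈ Lg v, x w = x' w) :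
    un Lg x v y = un Lg x' v y := by
  unfold un
  congr 1
  exact image_congr fun w hw => by rw [h w (mem_coe.1 hw)]

theorem cst_congr84 {Q : ℕ → Finset ℕ} {x x' : ℕ → ℕ} {w : ℕ} (h : x w = x' w) :
    cst Q x w = cst Q x' w := by
  unfold cst
  rw [h]

theorem Cov.congr84 {Lg : ℕ → Finset ℕ} {x x' y y' : ℕ → ℕ} {S T : Finset ℕ} (h : Cov Lg x y S T)
    (hx : ∀ v ∈ S, ∀ w ∈ Lg v, x w = x' w) (hy : ∀ v ∈ S, y v = y' v) : Cov Lg x' y' S T := by
  have h1 : ∀ v ∈ S, un Lg x v (y v) = un Lg x' v (y' v) := fun v hv => by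
    rw [← hy v hv]
    exact un_congr84 (hx v hv)
  refine ⟨fun v hv v' hv' hne => ?_, ?_⟩
  · rw [← h1 v hv, ← h1 v' hv']
    exact h.1 v hv v' hv' hne
  · rw [← h.2]
    exact (biUnion_congr rfl h1).symm

theorem Cov.union84 {Lg : ℕ → Finset ℕ} {x y : ℕ → ℕ} {S S' T T' : Finset ℕ} (h : Cov Lg x y S T)
    (h' : Cov Lg x y S' T') (hT : Disjoint T T') : Cov Lg x y (S ∪ S') (T ∪ T') := by
  have h1 : ∀ v ∈ S, un Lg x v (y v) ⊆ T := fun v hv => by
    rw [← h.2]
    exact subset_biUnion_of_mem (fun v => un Lg x v (y v)) hv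
  have h2 : ∀ v ∈ S', un Lg x v (y v) ⊆ T' := fun v hv => by
    rw [← h'.2]
    exact subset_biUnion_of_mem (fun v => un Lg x v (y v)) hv
  refine ⟨fun v hv v' hv' hne => ?_, ?_⟩
  · rcases mem_union.1 hv with hv | hv <;> rcases mem_union.1 hv' with hv' | hv'
    · exact h.1 v hv v' hv' hne
    · exact Disjoint.mono (h1 v hv) (h2 v' hv') hT
    · exact (Disjoint.mono (h1 v' hv') (h2 v hv) hT).symm
    · exact h'.1 v hv v' hv' hne
  · rw [union_biUnion, h.2, h'.2]

/-- a single unit -/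
theorem cov_single84 (Lg : ℕ → Finset ℕ) (x : ℕ → ℕ) (v y : ℕ) : Cov Lg x (fun _ => y) {v} (un Lg x v y) := by
  refine ⟨fun u hu u' hu' hne => ?_, by simp⟩
  rw [mem_singleton] at hu hu'
  exact absurd (hu.trans hu'.symm) hne

/-- joining two labelled systems of units -/
theorem join84 {n d D : ℕ} {S S1 S2 Z Z1 Z2 : Finset ℕ} {Lg Q : ℕ → Finset ℕ} {x1 x2 : ℕ → ℕ}
    (hU : Unit n d D S Lg Q) (h1 : S1 ⊆ S) (h2 : S2 ⊆ S) (hd : Disjoint S1 S2)
    (hL1 : Lgd n S1 Z1 Lg Q x1) (hL2 : Lgd n S2 Z2 Lg Q x2)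
    (hZ1 : ∀ t ∈ Z, t ∈ Z1 ∨ t ∉ cs84 Lg Q x1 S1) (hZ2 : Z ⊆ Z2) (hc : cs84 Lg Q x1 S1 ⊆ Z2) :
    ∃ x, Lgd n (S1 ∪ S2) Z Lg Q x ∧ ∀ y1 y2 T1 T2, Cov Lg x1 y1 S1 T1 → Cov Lg x2 y2 S2 T2 →
      Disjoint T1 T2 → ∃ y, Cov Lg x y (S1 ∪ S2) (T1 ∪ T2) := by
  classical
  have hx1 : ∀ v ∈ S1, ∀ w ∈ Lg v, x1 w = (fun w => if w ∈ S1.biUnion Lg then x1 w else x2 w) w := by
    intro v hv w hw
    have : w ∈ S1.biUnion Lg := mem_biUnion.2 ⟨v, hv, hw⟩
    simp only [if_pos this]
  have hx2 : ∀ v ∈ S2, ∀ w ∈ Lg v, x2 w = (fun w => if w ∈ S1.biUnion Lg then x1 w else x2 w) w := by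
    intro v hv w hw
    have : w ∉ S1.biUnion Lg := by
      intro hw'
      obtain ⟨v', hv', hw'⟩ := mem_biUnion.1 hw'
      have hne : v ≠ v' := by
        rintro rfl
        exact disjoint_left.1 hd hv' hv
      exact disjoint_left.1 (hU.dj v (h2 hv) v' (h1 hv') hne) hw hw'
    simp only [if_neg this]
  generalize hx : (fun w => if w ∈ S1.biUnion Lg then x1 w else x2 w) = x at hx1 hx2
  refine ⟨x, ⟨fun v hv w hw t ht => ?_, fun v hv w hw => ?_, ?_⟩, fun y1 y2 T1 T2 hc1 hc2 hT => ?_⟩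
  · rcases mem_union.1 hv with hv | hv
    · rw [← cst_congr84 (hx1 v hv w hw)] at ht
      exact hL1.hi v hv w hw t ht
    · rw [← cst_congr84 (hx2 v hv w hw)] at ht
      exact hL2.hi v hv w hw t ht
  · rcases mem_union.1 hv with hv | hv
    · rw [← cst_congr84 (hx1 v hv w hw), disjoint_left]
      intro t ht htZ
      rcases hZ1 t htZ with h | h
      · exact disjoint_left.1 (hL1.av v hv w hw) ht h
      · exact h (mem_cs84.2 ⟨v, hv, w, hw, ht⟩)
    · rw [← cst_congr84 (hx2 v hv w hw)]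
      exact (hL2.av v hv w hw).mono_right hZ2
  · intro w hw w' hw' hne
    rw [mem_biUnion] at hw hw'
    obtain ⟨v, hv, hw⟩ := hw
    obtain ⟨v', hv', hw'⟩ := hw'
    rcases mem_union.1 hv with hv | hv <;> rcases mem_union.1 hv' with hv' | hv'
    · rw [← cst_congr84 (hx1 v hv w hw), ← cst_congr84 (hx1 v' hv' w' hw')]
      exact hL1.dj w (mem_biUnion.2 ⟨v, hv, hw⟩) w' (mem_biUnion.2 ⟨v', hv', hw'⟩) hne
    · rw [← cst_congr84 (hx1 v hv w hw), ← cst_congr84 (hx2 v' hv' w' hw'), disjoint_left]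
      intro t ht ht'
      exact disjoint_left.1 (hL2.av v' hv' w' hw') ht' (hc (mem_cs84.2 ⟨v, hv, w, hw, ht⟩))
    · rw [← cst_congr84 (hx2 v hv w hw), ← cst_congr84 (hx1 v' hv' w' hw'), disjoint_left]
      intro t ht ht'
      exact disjoint_left.1 (hL2.av v hv w hw) ht (hc (mem_cs84.2 ⟨v', hv', w', hw', ht'⟩))
    · rw [← cst_congr84 (hx2 v hv w hw), ← cst_congr84 (hx2 v' hv' w' hw')]
      exact hL2.dj w (mem_biUnion.2 ⟨v, hv, hw⟩) w' (mem_biUnion.2 ⟨v', hv', hw'⟩) hne
  · refine ⟨fun v => if v ∈ S1 then y1 v else y2 v, ?_⟩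
    refine Cov.union84 (hc1.congr84 hx1 fun v hv => ?_) (hc2.congr84 hx2 fun v hv => ?_) hT
    · simp only [if_pos hv]
    · have : v ∉ S1 := fun h => disjoint_left.1 hd h hv
      simp only [if_neg this]

/-! ### The super-switches of one group -/

theorem links84 (d D : ℕ) (hd : d = 1 ∨ d = 2) (k : ℕ) : ∃ C : ℕ, ∀ (n : ℕ) (S Z : Finset ℕ)
    (Lg Q : ℕ → Finset ℕ) (m b : ℕ → ℕ), C * (Z.card + 1) ≤ n → Unit n d D S Lg Q → 2 * k ≤ S.card →
    (∀ l < k, m l ∈ Z ∧ b l ∈ Z ∧ m l % (d + 1) = b l % (d + 1) ∧ n < 8 * m l ∧ m l ≤ 2 * n - 1 ∧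
      n < 8 * b l ∧ b l ≤ 2 * n - 1 ∧ (16 * b l + 3 * n < 16 * m l ∨ 16 * m l + 3 * n < 16 * b l)) →
    (∀ l < k, ∀ l' < k, l ≠ l' → m l ≠ m l') → (∀ l < k, ∀ l' < k, l ≠ l' → b l ≠ b l') →
    ∃ (T M : Finset ℕ) (x : ℕ → ℕ), T ⊆ S ∧ T.card = 2 * k ∧ M.card = k * (2 * d + 1) ∧
      (∀ t ∈ M, t ∉ Z ∧ n < 8 * t ∧ t ≤ 2 * n - 1) ∧ Lgd n T (Z ∪ M) Lg Q x ∧
      (∃ y, Cov Lg x y T (M ∪ (range k).image m)) ∧ (∃ y, Cov Lg x y T (M ∪ (range k).image b)) := by
  induction k with
  | zero =>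
    refine ⟨0, fun n S Z Lg Q m b _ _ _ _ _ _ => ⟨∅, ∅, fun _ => 0, by simp, by simp, by simp, by simp, ?_, ?_, ?_⟩⟩
    · exact ⟨by simp, by simp, by simp⟩
    · exact ⟨fun _ => 0, by simp [Cov]⟩
    · exact ⟨fun _ => 0, by simp [Cov]⟩
  | succ k ih =>
    obtain ⟨C1, ih⟩ := ih
    obtain ⟨C2, hlink⟩ := link d D hd
    refine ⟨C1 + C2 * (k * (2 * d + 1) + 2 * k * (d * (D + 2)) + 1), ?_⟩
    intro n S Z Lg Q m b hn hU hS hmb hm hb
    have hn1 : C1 * (Z.card + 1) ≤ n := by
      rw [Nat.add_mul] at hn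
      omega
    obtain ⟨T, M, x, hTS, hTc, hMc, hM, hL, ⟨y1, hy1⟩, ⟨y2, hy2⟩⟩ :=
      ih n S Z Lg Q m b hn1 hU (by omega) (fun l hl => hmb l (by omega))
        (fun l hl l' hl' => hm l (by omega) l' (by omega)) (fun l hl l' hl' => hb l (by omega) l' (by omega))
    have hcard : 1 < (S \ T).card := by
      rw [card_sdiff_of_subset hTS]
      omega
    obtain ⟨v, v', hv, hv', hvv⟩ := one_lt_card_iff.1 hcard
    rw [mem_sdiff] at hv hv'
    have hsub : ({v, v'} : Finset ℕ) ⊆ S := by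
      intro u hu
      simp only [mem_insert, mem_singleton] at hu
      rcases hu with rfl | rfl
      · exact hv.1
      · exact hv'.1
    have hcs := card_cs84 (hU.mono84 hTS) x
    have hZc : (Z ∪ M ∪ cs84 Lg Q x T).card ≤ Z.card + (k * (2 * d + 1) + 2 * k * (d * (D + 2))) := by
      refine (card_union_le _ _).trans ?_
      have := card_union_le Z M
      rw [hTc] at hcs
      omega
    have hn2 : C2 * ((Z ∪ M ∪ cs84 Lg Q x T).card + 1) ≤ n := by
      refine le_trans ?_ hn
      rw [Nat.add_mul]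
      refine le_trans ?_ (Nat.le_add_left _ _)
      rw [Nat.mul_assoc]
      refine Nat.mul_le_mul_left _ ?_
      generalize k * (2 * d + 1) + 2 * k * (d * (D + 2)) = q at *
      nlinarith [Nat.zero_le (q * Z.card)]
    obtain ⟨h1, h2, h3, h4, h5, h6, h7, h8⟩ := hmb k (by omega)
    obtain ⟨Mid, x', hMid, hMid2, hL', ⟨y1', hy1'⟩, ⟨y2', hy2'⟩⟩ :=
      hlink n v v' (Z ∪ M ∪ cs84 Lg Q x T) Lg Q (m k) (b k) hn2 (hU.mono84 hsub) hvv
        (by simp [h1]) (by simp [h2]) h3 h4 h5 h6 h7 h8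
    have hdis : Disjoint T ({v, v'} : Finset ℕ) := by
      rw [disjoint_right]
      intro u hu
      simp only [mem_insert, mem_singleton] at hu
      rcases hu with rfl | rfl
      · exact hv.2
      · exact hv'.2
    obtain ⟨xx, hLL, hCC⟩ := join84 (Z := Z ∪ (M ∪ Mid)) hU hTS hsub hdis hL hL'
      (by
        intro t ht
        simp only [mem_union] at ht
        rcases ht with ht | ht | ht
        · exact Or.inl (mem_union_left _ ht)
        · exact Or.inl (mem_union_right _ ht)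
        · right
          intro h
          exact (hMid2 t ht).1 (mem_union_right _ h))
      (by
        intro t ht
        simp only [mem_union] at ht ⊢
        tauto)
      (by
        intro t ht
        simp only [mem_union]
        tauto)
    have hMM : Disjoint M Mid := by
      rw [disjoint_right]
      intro t ht h
      exact (hMid2 t ht).1 (mem_union_left _ (mem_union_right _ h))
    refine ⟨T ∪ {v, v'}, M ∪ Mid, xx, union_subset hTS hsub, ?_, ?_, ?_, hLL, ?_, ?_⟩
    · rw [card_union_of_disjoint hdis, hTc, card_pair hvv]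
      ring
    · rw [card_union_of_disjoint hMM, hMc, hMid]
      ring
    · intro t ht
      rcases mem_union.1 ht with ht | ht
      · exact hM t ht
      · refine ⟨fun h => (hMid2 t ht).1 (mem_union_left _ (mem_union_left _ h)), (hMid2 t ht).2⟩
    · obtain ⟨y, hy⟩ := hCC y1 y1' _ _ hy1 hy1' (by
        rw [disjoint_left]
        intro t ht ht'
        rw [mem_insert] at ht'
        rcases ht' with rfl | ht'
        · rcases mem_union.1 ht with ht | ht
          · exact (hM _ ht).1 h1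
          · obtain ⟨l, hl, hl'⟩ := mem_image.1 ht
            rw [mem_range] at hl
            exact hm l (by omega) k (by omega) (by omega) hl'
        · rcases mem_union.1 ht with ht | ht
          · exact disjoint_left.1 hMM ht ht'
          · obtain ⟨l, hl, rfl⟩ := mem_image.1 ht
            rw [mem_range] at hl
            exact (hMid2 _ ht').1 (mem_union_left _ (mem_union_left _ (hmb l (by omega)).1)))
      have he : (M ∪ Mid) ∪ (range (k + 1)).image m = (M ∪ (range k).image m) ∪ insert (m k) Mid := by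
        rw [range_add_one, image_insert]
        ext t
        simp only [mem_union, mem_insert]
        tauto
      rw [he]
      exact ⟨y, hy⟩
    · obtain ⟨y, hy⟩ := hCC y2 y2' _ _ hy2 hy2' (by
        rw [disjoint_left]
        intro t ht ht'
        rw [mem_insert] at ht'
        rcases ht' with rfl | ht'
        · rcases mem_union.1 ht with ht | ht
          · exact (hM _ ht).1 h2
          · obtain ⟨l, hl, hl'⟩ := mem_image.1 ht
            rw [mem_range] at hl
            exact hb l (by omega) k (by omega) (by omega) hl'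
        · rcases mem_union.1 ht with ht | ht
          · exact disjoint_left.1 hMM ht ht'
          · obtain ⟨l, hl, rfl⟩ := mem_image.1 ht
            rw [mem_range] at hl
            exact (hMid2 _ ht').1 (mem_union_left _ (mem_union_left _ (hmb l (by omega)).2.1)))
      have he : (M ∪ Mid) ∪ (range (k + 1)).image b = (M ∪ (range k).image b) ∪ insert (b k) Mid := by
        rw [range_add_one, image_insert]
        ext t
        simp only [mem_union, mem_insert]
        tauto
      rw [he]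
      exact ⟨y, hy⟩

/-! ### One group -/

/-- the values of the primary unit with label `a` -/
def vl84 (d : ℕ) (c : ℕ → ℕ) (a : ℕ) : Finset ℕ := insert a ((range d).image fun l => a + c l)

theorem card_vl84 (d : ℕ) (c : ℕ → ℕ) (a : ℕ) : (vl84 d c a).card ≤ d + 1 := by
  refine (card_insert_le _ _).trans ?_
  have h3 : ((range d).image fun l => a + c l).card ≤ (range d).card := card_image_le
  rw [card_range] at h3
  omega

theorem group84 (d D : ℕ) (hd : d = 1 ∨ d = 2) : ∃ C : ℕ, ∀ (n : ℕ) (S Z : Finset ℕ)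
    (Lg Q : ℕ → Finset ℕ) (c b : ℕ → ℕ) (a : ℕ), C * (Z.card + 1) ≤ n → Unit n d D S Lg Q →
    2 * d + 1 ≤ S.card → (∀ l < d, n < 8 * c l ∧ 4 * c l ≤ n) → (∀ l < d, ∀ l' < d, l ≠ l' → c l ≠ c l') →
    (∀ l < d, 7 * n < 8 * b l ∧ b l ≤ n) → (∀ l < d, ∀ l' < d, l ≠ l' → b l ≠ b l') →
    (∀ l < d, b l % (d + 1) = (a + c l) % (d + 1)) → n < 8 * a → a ≤ 2 * n - 1 → a ∈ Z →
    (∀ l < d, c l ∈ Z) → (∀ l < d, b l ∈ Z) → (∀ l < d, a ≠ b l) →
    ∃ (T M : Finset ℕ) (x : ℕ → ℕ) (a' : ℕ), T ⊆ S ∧ T.card = 2 * d + 1 ∧ M.card ≤ 12 ∧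
      Disjoint M (vl84 d c a') ∧ (∀ t ∈ M ∪ vl84 d c a', t ∉ Z ∧ n < 8 * t ∧ t ≤ 2 * n - 1) ∧
      Lgd n T (Z ∪ (M ∪ vl84 d c a')) Lg Q x ∧ (∃ y, Cov Lg x y T (M ∪ vl84 d c a')) ∧
      (∃ y, Cov Lg x y T (M ∪ insert a ((range d).image b))) := by
  obtain ⟨C1, hstep⟩ := step_a d D hd
  obtain ⟨C2, hlinks⟩ := links84 d D hd d
  refine ⟨C1 + C2 * (2 * d + 1 + d * (D + 2) + 1), ?_⟩
  intro n S Z Lg Q c b a hn hU hS hc hcc hb hbb hbm ha1 ha2 haZ hcZ hbZ hab
  have hn1 : C1 * (Z.card + 1) ≤ n := by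
    rw [Nat.add_mul] at hn
    omega
  obtain ⟨v, hv⟩ : S.Nonempty := by
    rw [← card_pos]
    omega
  have hvS : ({v} : Finset ℕ) ⊆ S := singleton_subset_iff.2 hv
  obtain ⟨Mid, x1, a', hmod, hrange, hMid, haMid, hcMid, hnew, hL1, ⟨y1, hy1⟩, ⟨y2, hy2⟩⟩ :=
    hstep n v Z Lg Q c a hn1 (hU.mono84 hvS) hc hcc ha1 ha2 haZ hcZ
  set V := (range d).image fun l => a' + c l with hV
  have hVc : V.card ≤ d := by
    have h3 : V.card ≤ (range d).card := card_image_le
    rwa [card_range] at h3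
  have hmemV : ∀ l < d, a' + c l ∈ V := fun l hl => mem_image.2 ⟨l, mem_range.2 hl, rfl⟩
  set W := insert a' (Mid ∪ V) with hW
  have hWc : W.card ≤ 2 * d + 1 := by
    refine (card_insert_le _ _).trans ?_
    have := card_union_le Mid V
    omega
  have hcs := card_cs84 (hU.mono84 hvS) x1
  rw [card_singleton, Nat.one_mul] at hcs
  have hZc : (Z ∪ W ∪ cs84 Lg Q x1 {v}).card ≤ Z.card + (2 * d + 1 + d * (D + 2)) := by
    refine (card_union_le _ _).trans ?_
    have := card_union_le Z W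
    omega
  have hn2 : C2 * ((Z ∪ W ∪ cs84 Lg Q x1 {v}).card + 1) ≤ n := by
    refine le_trans ?_ hn
    rw [Nat.add_mul]
    refine le_trans ?_ (Nat.le_add_left _ _)
    rw [Nat.mul_assoc]
    refine Nat.mul_le_mul_left _ ?_
    generalize 2 * d + 1 + d * (D + 2) = q at *
    have h0 := Nat.zero_le (q * Z.card)
    have h1 : (q + 1) * (Z.card + 1) = q * Z.card + q + Z.card + 1 := by ring
    omega
  have hmW : ∀ l < d, a' + c l ∈ W := fun l hl =>
    mem_insert_of_mem (mem_union_right _ (hmemV l hl))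
  have hSc : 2 * d ≤ (S \ {v}).card := by
    rw [card_sdiff_of_subset hvS, card_singleton]
    omega
  obtain ⟨T, M, x2, hTS, hTc, hMc, hM, hL2, ⟨z1, hz1⟩, ⟨z2, hz2⟩⟩ :=
    hlinks n (S \ {v}) (Z ∪ W ∪ cs84 Lg Q x1 {v}) Lg Q (fun l => a' + c l) b hn2
      (hU.mono84 sdiff_subset) hSc
      (by
        intro l hl
        have h1 := hnew _ (hmW l hl)
        have h2 := hb l hl
        have h3 := hc l hl
        refine ⟨mem_union_left _ (mem_union_right _ (hmW l hl)), mem_union_left _ (mem_union_left _ (hbZ l hl)),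
          ?_, h1.2.1, h1.2.2, by omega, by omega, by omega⟩
        rw [hbm l hl, Nat.add_mod, hmod, ← Nat.add_mod])
      (by
        intro l hl l' hl' hne h
        exact hcc l hl l' hl' hne (by simpa using h)) hbb
  have hTS' : T ⊆ S := hTS.trans sdiff_subset
  have hdis : Disjoint ({v} : Finset ℕ) T := by
    rw [disjoint_singleton_left]
    intro h
    exact (mem_sdiff.1 (hTS h)).2 (mem_singleton_self v)
  have hMW : ∀ t ∈ M, t ∉ W := fun t ht h => (hM t ht).1 (mem_union_left _ (mem_union_right _ h))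
  have hMZ : ∀ t ∈ M, t ∉ Z := fun t ht h => (hM t ht).1 (mem_union_left _ (mem_union_left _ h))
  have hMcs : ∀ t ∈ M, t ∉ cs84 Lg Q x1 {v} := fun t ht h => (hM t ht).1 (mem_union_right _ h)
  have hc0 : ∀ l < d, 0 < c l := fun l hl => by
    have := hc l hl
    omega
  have haV : a' ∉ V := by
    intro h
    obtain ⟨l, hl, hl'⟩ := mem_image.1 h
    have h1 := hc0 l (mem_range.1 hl)
    have h2 : a' + c l = a' := hl'
    omega
  have hVMid : ∀ t ∈ V, t ∉ Mid := by
    intro t ht
    obtain ⟨l, hl, rfl⟩ := mem_image.1 ht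
    exact hcMid l (mem_range.1 hl)
  obtain ⟨x, hLL, hCC⟩ := join84 (Z := Z ∪ ((Mid ∪ M) ∪ insert a' V)) hU hvS hTS' hdis hL1 hL2
    (by
      intro t ht
      simp only [mem_union, mem_insert] at ht
      rcases ht with ht | (ht | ht) | ht | ht
      · exact Or.inl (mem_union_left _ ht)
      · exact Or.inl (mem_union_right _ (mem_insert_of_mem (mem_union_left _ ht)))
      · exact Or.inr (hMcs t ht)
      · exact Or.inl (mem_union_right _ (by rw [ht]; exact mem_insert_self _ _))
      · exact Or.inl (mem_union_right _ (mem_insert_of_mem (mem_union_right _ ht))))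
    (by
      intro t ht
      simp only [hW, mem_union, mem_insert] at ht ⊢
      tauto)
    (by
      intro t ht
      simp only [mem_union]
      tauto)
  refine ⟨{v} ∪ T, Mid ∪ M, x, a', union_subset hvS hTS', ?_, ?_, ?_, ?_, hLL, ?_, ?_⟩
  · rw [card_union_of_disjoint hdis, hTc, card_singleton]
    omega
  · refine (card_union_le _ _).trans ?_
    rw [hMid, hMc]
    rcases hd with rfl | rfl <;> norm_num
  · rw [disjoint_left]
    intro t ht ht'
    unfold vl84 at ht'
    rcases mem_union.1 ht with ht | ht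
    · rcases mem_insert.1 ht' with rfl | ht'
      · exact haMid ht
      · exact hVMid t ht' ht
    · rcases mem_insert.1 ht' with rfl | ht'
      · exact hMW _ ht (mem_insert_self _ _)
      · exact hMW _ ht (mem_insert_of_mem (mem_union_right _ ht'))
  · intro t ht
    unfold vl84 at ht
    rcases mem_union.1 ht with ht | ht
    · rcases mem_union.1 ht with ht | ht
      · exact hnew t (mem_insert_of_mem (mem_union_left _ ht))
      · exact ⟨hMZ t ht, (hM t ht).2⟩
    · rcases mem_insert.1 ht with rfl | ht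
      · exact hnew _ (mem_insert_self _ _)
      · exact hnew t (mem_insert_of_mem (mem_union_right _ ht))
  · obtain ⟨y, hy⟩ := hCC (fun _ => y1) z1 _ _ (cov_single84 Lg x1 v y1) hz1 (by
      rw [hy1, disjoint_left]
      intro t ht ht'
      rcases mem_union.1 ht' with h' | h'
      · rcases mem_insert.1 ht with h | h
        · exact hMW t h' (by rw [h]; exact mem_insert_self _ _)
        · exact hMW t h' (mem_insert_of_mem (mem_union_left _ h))
      · rcases mem_insert.1 ht with h | h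
        · exact haV (by rw [← h]; exact h')
        · exact hVMid t h' h)
    have he : (Mid ∪ M) ∪ vl84 d c a' = un Lg x1 v y1 ∪ (M ∪ V) := by
      rw [hy1]
      unfold vl84
      ext t
      simp only [mem_union, mem_insert, ← hV]
      tauto
    rw [he]
    exact ⟨y, hy⟩
  · have hbB : ∀ t ∈ (range d).image b, t ∈ Z := by
      intro t ht
      obtain ⟨l, hl, rfl⟩ := mem_image.1 ht
      exact hbZ l (mem_range.1 hl)
    obtain ⟨y, hy⟩ := hCC (fun _ => y2) z2 _ _ (cov_single84 Lg x1 v y2) hz2 (by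
      rw [hy2, disjoint_left]
      intro t ht ht'
      rcases mem_union.1 ht' with h' | h'
      · rcases mem_insert.1 ht with h | h
        · exact hMZ t h' (by rw [h]; exact haZ)
        · exact hMW t h' (mem_insert_of_mem (mem_union_left _ h))
      · rcases mem_insert.1 ht with h | h
        · obtain ⟨l, hl, hl'⟩ := mem_image.1 h'
          exact hab l (mem_range.1 hl) (by rw [hl', h])
        · exact (hnew t (mem_insert_of_mem (mem_union_left _ h))).1 (hbB t h'))
    have he : (Mid ∪ M) ∪ insert a ((range d).image b) = un Lg x1 v y2 ∪ (M ∪ (range d).image b) := by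
      rw [hy2]
      ext t
      simp only [mem_union, mem_insert]
      tauto
    rw [he]
    exact ⟨y, hy⟩

/-! ### All groups -/

theorem loop84 (d D : ℕ) (hd : d = 1 ∨ d = 2) (k : ℕ) : ∃ C : ℕ, ∀ (n : ℕ) (S Z : Finset ℕ)
    (Lg Q : ℕ → Finset ℕ) (c b : ℕ → ℕ) (N : Finset ℕ), C * (Z.card + 1) ≤ n → Unit n d D S Lg Q →
    (2 * d + 1) * k ≤ S.card → (∀ l < d, n < 8 * c l ∧ 4 * c l ≤ n) →
    (∀ l < d, ∀ l' < d, l ≠ l' → c l ≠ c l') →
    (∀ l < d, 7 * n < 8 * b l ∧ b l ≤ n) → (∀ l < d, ∀ l' < d, l ≠ l' → b l ≠ b l') →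
    (∀ a ∈ N, ∀ l < d, b l % (d + 1) = (a + c l) % (d + 1)) → (∀ a ∈ N, n < 8 * a ∧ a ≤ 2 * n - 1) → N ⊆ Z →
    (∀ l < d, c l ∈ Z) → (∀ l < d, b l ∈ Z) → (∀ a ∈ N, ∀ l < d, a ≠ b l) → N.card = k →
    ∃ (T P : Finset ℕ) (x : ℕ → ℕ), T ⊆ S ∧ T.card = (2 * d + 1) * k ∧ P.card ≤ 15 * k ∧
      (∀ t ∈ P, t ∉ Z ∧ n < 8 * t ∧ t ≤ 2 * n - 1) ∧ Lgd n T (Z ∪ P) Lg Q x ∧
      (∃ y, Cov Lg x y T P) ∧
      ∀ a ∈ N, ∃ a', vl84 d c a' ⊆ P ∧ ∃ y, Cov Lg x y T ((P \ vl84 d c a') ∪ insert a ((range d).image b)) := by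
  induction k with
  | zero =>
    refine ⟨0, fun n S Z Lg Q c b N _ _ _ _ _ _ _ _ _ _ _ _ _ hN => ⟨∅, ∅, fun _ => 0, by simp, by simp, by simp,
      by simp, ?_, ?_, ?_⟩⟩
    · exact ⟨by simp, by simp, by simp⟩
    · exact ⟨fun _ => 0, by simp [Cov]⟩
    · rw [card_eq_zero] at hN
      subst hN
      intro a ha
      exact absurd ha (notMem_empty a)
  | succ k ih =>
    obtain ⟨C1, ih⟩ := ih
    obtain ⟨C2, hgroup⟩ := group84 d D hd
    refine ⟨C1 + C2 * (15 * k + (2 * d + 1) * k * (d * (D + 2)) + 1), ?_⟩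
    intro n S Z Lg Q c b N hn hU hS hc hcc hb hbb hbm hNr hNZ hcZ hbZ hab hNk
    have hn1 : C1 * (Z.card + 1) ≤ n := by
      rw [Nat.add_mul] at hn
      omega
    obtain ⟨a, N', haN', rfl, hN'⟩ := card_eq_succ.1 hNk
    have hkS : (2 * d + 1) * (k + 1) = (2 * d + 1) * k + (2 * d + 1) := by ring
    obtain ⟨T, P, x, hTS, hTc, hPc, hP, hL, ⟨y0, hy0⟩, hact⟩ :=
      ih n S Z Lg Q c b N' hn1 hU (by omega) hc hcc hb hbb
        (fun a' ha' => hbm a' (mem_insert_of_mem ha')) (fun a' ha' => hNr a' (mem_insert_of_mem ha'))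
        ((subset_insert _ _).trans hNZ) hcZ hbZ (fun a' ha' => hab a' (mem_insert_of_mem ha')) hN'
    have hcs := card_cs84 (hU.mono84 hTS) x
    rw [hTc] at hcs
    have hZc : (Z ∪ P ∪ cs84 Lg Q x T).card ≤ Z.card + (15 * k + (2 * d + 1) * k * (d * (D + 2))) := by
      refine (card_union_le _ _).trans ?_
      have := card_union_le Z P
      omega
    have hn2 : C2 * ((Z ∪ P ∪ cs84 Lg Q x T).card + 1) ≤ n := by
      refine le_trans ?_ hn
      rw [Nat.add_mul]
      refine le_trans ?_ (Nat.le_add_left _ _)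
      rw [Nat.mul_assoc]
      refine Nat.mul_le_mul_left _ ?_
      generalize 15 * k + (2 * d + 1) * k * (d * (D + 2)) = q at *
      have h0 := Nat.zero_le (q * Z.card)
      have h1 : (q + 1) * (Z.card + 1) = q * Z.card + q + Z.card + 1 := by ring
      omega
    have haN := mem_insert_self a N'
    have hSc : 2 * d + 1 ≤ (S \ T).card := by
      rw [card_sdiff_of_subset hTS, hTc]
      omega
    have hZZ : ∀ t ∈ Z, t ∈ Z ∪ P ∪ cs84 Lg Q x T := fun t ht => mem_union_left _ (mem_union_left _ ht)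
    obtain ⟨T', M, x', a', hT'S, hT'c, hMc, hMv, hMn, hL', ⟨z1, hz1⟩, ⟨z2, hz2⟩⟩ :=
      hgroup n (S \ T) (Z ∪ P ∪ cs84 Lg Q x T) Lg Q c b a hn2 (hU.mono84 sdiff_subset) hSc hc hcc hb hbb
        (hbm a haN) (hNr a haN).1 (hNr a haN).2 (hZZ a (hNZ haN)) (fun l hl => hZZ _ (hcZ l hl))
        (fun l hl => hZZ _ (hbZ l hl)) (hab a haN)
    set V := vl84 d c a' with hV
    have hT'S' : T' ⊆ S := hT'S.trans sdiff_subset
    have hdis : Disjoint T T' := by
      rw [disjoint_right]
      intro u hu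
      exact (mem_sdiff.1 (hT'S hu)).2
    have hMZ : ∀ t ∈ M ∪ V, t ∉ Z := fun t ht h => (hMn t ht).1 (hZZ t h)
    have hMP : ∀ t ∈ M ∪ V, t ∉ P := fun t ht h => (hMn t ht).1 (mem_union_left _ (mem_union_right _ h))
    have hMcs : ∀ t ∈ M ∪ V, t ∉ cs84 Lg Q x T := fun t ht h => (hMn t ht).1 (mem_union_right _ h)
    have hPZ : ∀ t ∈ P, t ∉ Z := fun t ht => (hP t ht).1
    have hB : ∀ a₁ ∈ insert a N', ∀ t ∈ insert a₁ ((range d).image b), t ∈ Z := by
      intro a₁ ha₁ t ht
      rcases mem_insert.1 ht with h | h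
      · rw [h]
        exact hNZ ha₁
      · obtain ⟨l, hl, rfl⟩ := mem_image.1 h
        exact hbZ l (mem_range.1 hl)
    obtain ⟨xx, hLL, hCC⟩ := join84 (Z := Z ∪ (P ∪ (M ∪ V))) hU hTS hT'S' hdis hL hL'
      (by
        intro t ht
        rcases mem_union.1 ht with h | h
        · exact Or.inl (mem_union_left _ h)
        · rcases mem_union.1 h with h | h
          · exact Or.inl (mem_union_right _ h)
          · exact Or.inr (hMcs t h))
      (by
        intro t ht
        simp only [mem_union] at ht ⊢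
        tauto)
      (by
        intro t ht
        simp only [mem_union]
        tauto)
    refine ⟨T ∪ T', P ∪ (M ∪ V), xx, union_subset hTS hT'S', ?_, ?_, ?_, hLL, ?_, ?_⟩
    · rw [card_union_of_disjoint hdis, hTc, hT'c]
      ring
    · have h1 := card_union_le P (M ∪ V)
      have h2 := card_union_le M V
      have h3 : V.card ≤ d + 1 := card_vl84 d c a'
      omega
    · intro t ht
      rcases mem_union.1 ht with h | h
      · exact hP t h
      · exact ⟨hMZ t h, (hMn t h).2⟩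
    · exact hCC y0 z1 _ _ hy0 hz1 (by
        rw [disjoint_right]
        exact hMP)
    · intro a₁ ha₁
      rcases mem_insert.1 ha₁ with h₁ | h₁
      · subst h₁
        refine ⟨a', ?_, ?_⟩
        · intro t ht
          exact mem_union_right _ (mem_union_right _ ht)
        · obtain ⟨y, hy⟩ := hCC y0 z2 _ _ hy0 hz2 (by
            rw [disjoint_left]
            intro t ht ht'
            rcases mem_union.1 ht' with h | h
            · exact hMP t (mem_union_left _ h) ht
            · exact hPZ t ht (hB _ ha₁ t h))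
          have he : (P ∪ (M ∪ V)) \ vl84 d c a' ∪ insert a₁ ((range d).image b) =
              P ∪ (M ∪ insert a₁ ((range d).image b)) := by
            rw [← hV]
            ext t
            have h1 : t ∈ P → t ∉ V := fun h h' => hMP t (mem_union_right _ h') h
            have h2 : t ∈ M → t ∉ V := fun h h' => disjoint_left.1 hMv h h'
            generalize insert a₁ ((range d).image b) = X
            simp only [mem_union, mem_sdiff]
            tauto
          rw [he]
          exact ⟨y, hy⟩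
      · obtain ⟨a'', hsub, y, hy⟩ := hact a₁ h₁
        refine ⟨a'', hsub.trans subset_union_left, ?_⟩
        obtain ⟨y', hy'⟩ := hCC y z1 _ _ hy hz1 (by
          rw [disjoint_left]
          intro t ht ht'
          rcases mem_union.1 ht with h | h
          · exact hMP t ht' (mem_sdiff.1 h).1
          · exact hMZ t ht' (hB _ ha₁ t h))
        have he : (P ∪ (M ∪ V)) \ vl84 d c a'' ∪ insert a₁ ((range d).image b) =
            P \ vl84 d c a'' ∪ insert a₁ ((range d).image b) ∪ (M ∪ V) := by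
          ext t
          have h1 : t ∈ vl84 d c a'' → t ∈ P := fun h => hsub h
          have h2 : t ∈ M → t ∉ P := fun h => hMP t (mem_union_left _ h)
          have h3 : t ∈ V → t ∉ P := fun h => hMP t (mem_union_right _ h)
          generalize insert a₁ ((range d).image b) = X
          simp only [mem_union, mem_sdiff]
          tauto
        rw [he]
        exact ⟨y', hy'⟩

/-! ### The primary unit -/

theorem legs84 (n D : ℕ) (Q : ℕ → Finset ℕ) (Z L : Finset ℕ)
    (hQc : ∀ w ∈ L, (Q w).card ≤ D + 1) (hQs : ∀ w ∈ L, ∀ q ∈ Q w, 1 ≤ q ∧ 16 * q ≤ n)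
    (hn : 8 * ((D + 2) * (Z.card + (D + 2) * L.card) + 1) ≤ n) :
    ∃ x : ℕ → ℕ, (∀ w ∈ L, n < 8 * x w ∧ 4 * x w ≤ n) ∧ (∀ w ∈ L, Disjoint (cst Q x w) Z) ∧
      ∀ w ∈ L, ∀ w' ∈ L, w ≠ w' → Disjoint (cst Q x w) (cst Q x w') := by
  classical
  induction L using Finset.induction_on with
  | empty => exact ⟨fun _ => 0, by simp, by simp, by simp⟩
  | insert w L hw ih =>
    have hLc : (insert w L).card = L.card + 1 := card_insert_of_notMem hw
    rw [hLc] at hn
    obtain ⟨x, h1, h2, h3⟩ := ih (fun w' hw' => hQc w' (mem_insert_of_mem hw'))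
      (fun w' hw' => hQs w' (mem_insert_of_mem hw')) (by
        refine le_trans ?_ hn
        gcongr
        omega)
    set E := Z ∪ L.biUnion (cst Q x) with hE
    have hEc : E.card ≤ Z.card + (D + 2) * L.card := by
      refine (card_union_le _ _).trans ?_
      refine Nat.add_le_add_left ?_ _
      rw [Nat.mul_comm]
      refine card_biUnion_le_card_mul _ _ _ fun w' hw' => ?_
      refine (card_insert_le _ _).trans ?_
      have h2 := hQc w' (mem_insert_of_mem hw')
      have h3 : ((Q w').image fun q => x w' + q).card ≤ (Q w').card := card_image_le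
      omega
    set F := E ∪ (E ×ˢ Q w).image (fun p => p.1 - p.2) with hF
    have hFc : F.card ≤ (D + 2) * (Z.card + (D + 2) * L.card) := by
      refine (card_union_le _ _).trans ?_
      have h4 : ((E ×ˢ Q w).image (fun p => p.1 - p.2)).card ≤ E.card * (D + 1) := by
        refine card_image_le.trans ?_
        rw [card_product]
        exact Nat.mul_le_mul_left _ (hQc w (mem_insert_self _ _))
      have h5 : E.card + E.card * (D + 1) = (D + 2) * E.card := by ring
      have h6 := Nat.mul_le_mul_left (D + 2) hEc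
      omega
    obtain ⟨t, ht1, ht2, -, ht4⟩ := pick84 1 (n / 8) (n / 8) 0 one_pos F (by
      have h7 : (D + 2) * (Z.card + (D + 2) * L.card) ≤ (D + 2) * (Z.card + (D + 2) * (L.card + 1)) := by
        gcongr
        omega
      omega)
    have hnew : ∀ s ∈ cst Q (Function.update x w t) w, s ∉ E := by
      intro s hs hsE
      unfold cst at hs
      rw [Function.update_self] at hs
      rcases mem_insert.1 hs with h | h
      · rw [h] at hsE
        exact ht4 (mem_union_left _ hsE)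
      · obtain ⟨q, hq, hq'⟩ := mem_image.1 h
        refine ht4 (mem_union_right _ (mem_image.2 ⟨(s, q), mem_product.2 ⟨hsE, hq⟩, ?_⟩))
        change s - q = t
        omega
    have hne : ∀ w' ∈ L, w' ≠ w := fun w' hw' h => hw (h ▸ hw')
    have hold : ∀ w' ∈ L, cst Q (Function.update x w t) w' = cst Q x w' := fun w' hw' =>
      cst_congr84 (Function.update_of_ne (hne w' hw') _ _)
    have hcross : ∀ w' ∈ L, Disjoint (cst Q (Function.update x w t) w) (cst Q x w') := by
      intro w' hw'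
      rw [disjoint_left]
      intro s hs hs'
      exact hnew s hs (mem_union_right _ (mem_biUnion.2 ⟨w', hw', hs'⟩))
    refine ⟨Function.update x w t, fun w' hw' => ?_, fun w' hw' => ?_, fun w' hw' w'' hw'' hne' => ?_⟩
    · rcases mem_insert.1 hw' with h | h
      · rw [h, Function.update_self]
        omega
      · rw [Function.update_of_ne (hne w' h)]
        exact h1 w' h
    · rcases mem_insert.1 hw' with h | h
      · rw [h, disjoint_left]
        intro s hs hs'
        exact hnew s hs (mem_union_left _ hs')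
      · rw [hold w' h]
        exact h2 w' h
    · rcases mem_insert.1 hw' with h | h <;> rcases mem_insert.1 hw'' with h' | h'
      · exact absurd (h.trans h'.symm) hne'
      · rw [h, hold w'' h']
        exact hcross w'' h'
      · rw [h', hold w' h]
        exact (hcross w' h).symm
      · rw [hold w' h, hold w'' h']
        exact h3 w' h w'' h' hne'

/-- the labels `b l` -/
theorem bs84 (n g : ℕ) (r : ℕ → ℕ) (Z : Finset ℕ) (hg : 0 < g) (k : ℕ) (hn : 8 * g * (Z.card + k + 1) ≤ n) :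
    ∃ b : ℕ → ℕ, (∀ l < k, 7 * n < 8 * b l ∧ b l ≤ n) ∧ (∀ l < k, ∀ l' < k, l ≠ l' → b l ≠ b l') ∧
      (∀ l < k, b l % g = r l % g) ∧ ∀ l < k, b l ∉ Z := by
  induction k with
  | zero => exact ⟨fun _ => 0, by simp, by simp, by simp, by simp⟩
  | succ k ih =>
    obtain ⟨b, h1, h2, h3, h4⟩ := ih (le_trans (by gcongr; omega) hn)
    have hc : (Z ∪ (range k).image b).card ≤ Z.card + k := by
      refine (card_union_le _ _).trans ?_
      have h5 : ((range k).image b).card ≤ (range k).card := card_image_le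
      rw [card_range] at h5
      omega
    obtain ⟨t, ht1, ht2, ht3, ht4⟩ := pick84 g (7 * n / 8) (n / (8 * g)) (r k) hg (Z ∪ (range k).image b) (by
      have h6 : Z.card + (k + 1) + 1 ≤ n / (8 * g) := by
        rw [Nat.le_div_iff_mul_le (by omega), Nat.mul_comm]
        exact hn
      omega)
    have h7 : g * (n / (8 * g)) ≤ n / 8 := by
      rw [Nat.le_div_iff_mul_le (by norm_num)]
      have := Nat.mul_div_le n (8 * g)
      nlinarith
    rw [mem_union, not_or] at ht4
    have hne : ∀ l < k, l ≠ k := fun l hl => by omega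
    have hnb : ∀ l < k, b l ≠ t := fun l hl h => ht4.2 (mem_image.2 ⟨l, mem_range.2 hl, h⟩)
    refine ⟨Function.update b k t, fun l hl => ?_, fun l hl l' hl' hll => ?_, fun l hl => ?_, fun l hl => ?_⟩
    · rcases Nat.lt_succ_iff_lt_or_eq.1 hl with h | h
      · rw [Function.update_of_ne (hne l h)]
        exact h1 l h
      · rw [h, Function.update_self]
        omega
    · rcases Nat.lt_succ_iff_lt_or_eq.1 hl with h | h <;> rcases Nat.lt_succ_iff_lt_or_eq.1 hl' with h' | h'
      · rw [Function.update_of_ne (hne l h), Function.update_of_ne (hne l' h')]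
        exact h2 l h l' h' hll
      · rw [Function.update_of_ne (hne l h), h', Function.update_self]
        exact hnb l h
      · rw [h, Function.update_self, Function.update_of_ne (hne l' h')]
        exact (hnb l' h').symm
      · exact absurd (h.trans h'.symm) hll
    · rcases Nat.lt_succ_iff_lt_or_eq.1 hl with h | h
      · rw [Function.update_of_ne (hne l h)]
        exact h3 l h
      · rw [h, Function.update_self]
        exact ht3
    · rcases Nat.lt_succ_iff_lt_or_eq.1 hl with h | h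
      · rw [Function.update_of_ne (hne l h)]
        exact h4 l h
      · rw [h, Function.update_self]
        exact ht4.1

/-- an enumeration of a finite set -/
theorem enum84 (L : Finset ℕ) (d : ℕ) (hL : L.card = d) :
    ∃ e : ℕ → ℕ, (range d).image e = L ∧ ∀ l < d, ∀ l' < d, l ≠ l' → e l ≠ e l' := by
  have e0 : (range d) ≃ L := Finset.equivOfCardEq (by rw [card_range, hL])
  refine ⟨fun l => if h : l ∈ range d then (e0 ⟨l, h⟩ : ℕ) else 0, ?_, ?_⟩
  · ext w
    rw [mem_image]
    constructor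
    · rintro ⟨l, hl, rfl⟩
      simp only [dif_pos hl]
      exact (e0 ⟨l, hl⟩).2
    · intro hw
      refine ⟨e0.symm ⟨w, hw⟩, (e0.symm ⟨w, hw⟩).2, ?_⟩
      simp
  · intro l hl l' hl' hne h
    simp only [mem_range, hl, hl', dif_pos] at h
    exact hne (by simpa using e0.injective (Subtype.ext h))

/-! ### The node gadget -/

theorem node (d D : ℕ) (hd : d = 1 ∨ d = 2) : ∃ C : ℕ, ∀ (n : ℕ) (S Z : Finset ℕ)
    (Lg Q : ℕ → Finset ℕ) (N : Finset ℕ), C * (Z.card + 1) ≤ n → Unit n d D S Lg Q →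
    351 ≤ S.card → N.card ≤ 70 → N ⊆ Z → (∀ a ∈ N, n < 8 * a ∧ a ≤ 2 * n - 1) →
    (∀ a ∈ N, ∀ b ∈ N, a % (d + 1) = b % (d + 1)) →
    ∃ (Sa Pv : Finset ℕ) (x : ℕ → ℕ), Sa ⊆ S ∧ Sa.card ≤ 351 ∧ Pv.card ≤ C ∧ Disjoint Pv Z ∧
      (∀ t ∈ Pv, n < 8 * t ∧ t ≤ 2 * n - 1) ∧ Lgd n Sa (Z ∪ Pv) Lg Q x ∧
      ∀ a ∈ N, ∃ y, Cov Lg x y Sa (insert a Pv) := by
  choose Cf hCf using loop84 d D hd
  obtain ⟨c1, hc1⟩ : ∃ c1, ∀ k ≤ 70, Cf k ≤ c1 :=
    ⟨∑ k ∈ range 71, Cf k, fun k hk => single_le_sum (f := Cf) (fun _ _ => Nat.zero_le _)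
      (mem_range.2 (Nat.lt_succ_of_le hk))⟩
  obtain ⟨A1, hA1⟩ : ∃ A, A = 8 * ((D + 2) * (1 + (D + 2) * d) + 1) := ⟨_, rfl⟩
  obtain ⟨A2, hA2⟩ : ∃ A, A = 8 * (d + 1) * (d * (D + 2) + d + 1) := ⟨_, rfl⟩
  obtain ⟨A3, hA3⟩ : ∃ A, A = c1 * (d * (D + 2) + d + 1) := ⟨_, rfl⟩
  refine ⟨A1 + A2 + A3 + 1100, ?_⟩
  intro n S Z Lg Q N hn hU hS hN hNZ hNr hNm
  rcases N.eq_empty_or_nonempty with rfl | ⟨a0, ha0⟩
  · refine ⟨∅, ∅, fun _ => 0, by simp, by simp, by simp, by simp, by simp, ⟨by simp, by simp, by simp⟩, ?_⟩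
    intro a ha
    exact absurd ha (notMem_empty a)
  have hd0 : 1 ≤ d ∧ d ≤ 2 := by omega
  -- the numerical conditions
  rw [Nat.add_mul, Nat.add_mul, Nat.add_mul] at hn
  have hn0 : 1 ≤ n := by omega
  have hq : ∀ q, Z.card + (q + 1) ≤ (q + 1) * (Z.card + 1) := fun q => by
    have h1 : (q + 1) * (Z.card + 1) = q * Z.card + q + Z.card + 1 := by ring
    have h2 := Nat.zero_le (q * Z.card)
    omega
  have hi : 8 * ((D + 2) * (Z.card + (D + 2) * d) + 1) ≤ n := by
    have h0 : A1 * (Z.card + 1) ≤ n := by omega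
    refine le_trans ?_ h0
    rw [hA1]
    generalize (D + 2) * d = p
    generalize D + 2 = q
    have h1 : 8 * (q * (1 + p) + 1) * (Z.card + 1) =
      8 * (q * (Z.card + p) + 1) + 8 * (q * p * Z.card + Z.card + q) := by ring
    rw [h1]
    exact Nat.le_add_right _ _
  have hii : 8 * (d + 1) * (Z.card + (d * (D + 2) + d + 1)) ≤ n := by
    have h0 : A2 * (Z.card + 1) ≤ n := by omega
    refine le_trans ?_ h0
    rw [hA2, Nat.mul_assoc (8 * (d + 1))]
    exact Nat.mul_le_mul_left _ (hq _)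
  have hiii : c1 * (Z.card + (d * (D + 2) + d + 1)) ≤ n := by
    have h0 : A3 * (Z.card + 1) ≤ n := by omega
    refine le_trans ?_ h0
    rw [hA3, Nat.mul_assoc]
    exact Nat.mul_le_mul_left _ (hq _)
  -- the primary unit
  obtain ⟨v0, hv0⟩ : S.Nonempty := by
    rw [← card_pos]
    omega
  have hvS : ({v0} : Finset ℕ) ⊆ S := singleton_subset_iff.2 hv0
  have hLc := hU.card v0 hv0
  obtain ⟨x0, hx1, hx2, hx3⟩ := legs84 n D Q Z (Lg v0) (hU.Qc v0 hv0) (hU.Qs v0 hv0) (by rw [hLc]; exact hi)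
  obtain ⟨e, he1, he2⟩ := enum84 (Lg v0) d hLc
  have heL : ∀ l < d, e l ∈ Lg v0 := fun l hl => by
    rw [← he1]
    exact mem_image.2 ⟨l, mem_range.2 hl, rfl⟩
  have hxc : ∀ w, x0 w ∈ cst Q x0 w := fun w => mem_insert_self _ _
  set c : ℕ → ℕ := fun l => x0 (e l) with hc
  have hcr : ∀ l < d, n < 8 * c l ∧ 4 * c l ≤ n := fun l hl => hx1 _ (heL l hl)
  have hcd : ∀ l < d, ∀ l' < d, l ≠ l' → c l ≠ c l' := fun l hl l' hl' hne h => by
    have h1 := hx3 (e l) (heL l hl) (e l') (heL l' hl') (he2 l hl l' hl' hne)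
    refine disjoint_left.1 h1 (hxc (e l)) ?_
    have h2 : x0 (e l) = x0 (e l') := h
    rw [h2]
    exact hxc (e l')
  have hcs := card_cs84 (hU.mono84 hvS) x0
  rw [card_singleton, Nat.one_mul] at hcs
  have hccs : ∀ l < d, c l ∈ cs84 Lg Q x0 {v0} := fun l hl =>
    mem_cs84.2 ⟨v0, mem_singleton_self v0, e l, heL l hl, hxc (e l)⟩
  have hZ1c := card_union_le Z (cs84 Lg Q x0 {v0})
  obtain ⟨b, hb1, hb2, hb3, hb4⟩ := bs84 n (d + 1) (fun l => a0 + c l) (Z ∪ cs84 Lg Q x0 {v0}) (by omega) d (by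
    refine le_trans ?_ hii
    refine Nat.mul_le_mul_left _ ?_
    omega)
  set B := (range d).image b with hB
  have hBc : B.card ≤ d := by
    have h3 : B.card ≤ (range d).card := card_image_le
    rwa [card_range] at h3
  have hbB : ∀ l < d, b l ∈ B := fun l hl => mem_image.2 ⟨l, mem_range.2 hl, rfl⟩
  have hBZ : ∀ t ∈ B, t ∉ Z := by
    intro t ht
    obtain ⟨l, hl, rfl⟩ := mem_image.1 ht
    exact fun h => hb4 l (mem_range.1 hl) (mem_union_left _ h)
  have hBcs : ∀ t ∈ B, t ∉ cs84 Lg Q x0 {v0} := by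
    intro t ht
    obtain ⟨l, hl, rfl⟩ := mem_image.1 ht
    exact fun h => hb4 l (mem_range.1 hl) (mem_union_right _ h)
  have hZ2c := card_union_le (Z ∪ cs84 Lg Q x0 {v0}) B
  have hSc : (S \ {v0}).card = S.card - 1 := by
    rw [card_sdiff_of_subset hvS, card_singleton]
  have hCk : Cf N.card ≤ c1 := hc1 _ hN
  obtain ⟨T, P, x, hTS, hTc, hPc, hP, hL2, -, hact⟩ :=
    hCf N.card n (S \ {v0}) (Z ∪ cs84 Lg Q x0 {v0} ∪ B) Lg Q c b N
      (by
        refine le_trans (Nat.mul_le_mul hCk ?_) hiii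
        omega)
      (hU.mono84 sdiff_subset)
      (by
        rw [hSc]
        have h5 : (2 * d + 1) * N.card ≤ 5 * 70 := Nat.mul_le_mul (by omega) hN
        omega)
      hcr hcd hb1 hb2
      (fun a ha l hl => by
        rw [hb3 l hl]
        rw [Nat.add_mod, hNm a0 ha0 a ha, ← Nat.add_mod])
      hNr (fun a ha => mem_union_left _ (mem_union_left _ (hNZ ha)))
      (fun l hl => mem_union_left _ (mem_union_right _ (hccs l hl)))
      (fun l hl => mem_union_right _ (hbB l hl))
      (fun a ha l hl h => hBZ (b l) (hbB l hl) (h ▸ hNZ ha)) rfl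
  have hTS' : T ⊆ S := hTS.trans sdiff_subset
  have hdis : Disjoint ({v0} : Finset ℕ) T := by
    rw [disjoint_singleton_left]
    intro h
    exact (mem_sdiff.1 (hTS h)).2 (mem_singleton_self v0)
  have hPZ : ∀ t ∈ P, t ∉ Z := fun t ht h => (hP t ht).1 (mem_union_left _ (mem_union_left _ h))
  have hPcs : ∀ t ∈ P, t ∉ cs84 Lg Q x0 {v0} := fun t ht h =>
    (hP t ht).1 (mem_union_left _ (mem_union_right _ h))
  have hPB : ∀ t ∈ P, t ∉ B := fun t ht h => (hP t ht).1 (mem_union_right _ h)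
  have hL1 : Lgd n {v0} Z Lg Q x0 := by
    refine ⟨fun v hv w hw t ht => ?_, fun v hv w hw => ?_, ?_⟩
    · rw [mem_singleton] at hv
      rw [hv] at hw
      have h1 := hx1 w hw
      rcases mem_insert.1 ht with h | h
      · rw [h]
        omega
      · obtain ⟨q, hq, hq'⟩ := mem_image.1 h
        have h2 := hU.Qs v0 hv0 w hw q hq
        change x0 w + q = t at hq'
        omega
    · rw [mem_singleton] at hv
      rw [hv] at hw
      exact hx2 w hw
    · rw [singleton_biUnion]
      exact hx3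
  obtain ⟨xx, hLL, hCC⟩ := join84 (Z := Z ∪ (P ∪ B)) hU hvS hTS' hdis hL1 hL2
    (by
      intro t ht
      rcases mem_union.1 ht with h | h
      · exact Or.inl h
      · rcases mem_union.1 h with h | h
        · exact Or.inr (hPcs t h)
        · exact Or.inr (hBcs t h))
    (by
      intro t ht
      simp only [mem_union] at ht ⊢
      tauto)
    (by
      intro t ht
      simp only [mem_union]
      tauto)
  refine ⟨{v0} ∪ T, P ∪ B, xx, union_subset hvS hTS', ?_, ?_, ?_, ?_, hLL, ?_⟩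
  · rw [card_union_of_disjoint hdis, hTc, card_singleton]
    have h5 : (2 * d + 1) * N.card ≤ 5 * 70 := Nat.mul_le_mul (by omega) hN
    omega
  · have h1 := card_union_le P B
    have h2 : 15 * N.card ≤ 15 * 70 := Nat.mul_le_mul_left _ hN
    omega
  · rw [disjoint_left]
    intro t ht
    rcases mem_union.1 ht with h | h
    · exact hPZ t h
    · exact hBZ t h
  · intro t ht
    rcases mem_union.1 ht with h | h
    · exact (hP t h).2
    · obtain ⟨l, hl, rfl⟩ := mem_image.1 h
      have := hb1 l (mem_range.1 hl)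
      omega
  · intro a ha
    obtain ⟨a', hsub, y, hy⟩ := hact a ha
    have hun : un Lg x0 v0 a' = vl84 d c a' := by
      unfold un vl84
      rw [← he1, image_image]
      rfl
    obtain ⟨y', hy'⟩ := hCC (fun _ => a') y _ _ (cov_single84 Lg x0 v0 a') hy (by
      rw [hun, disjoint_left]
      intro t ht ht'
      rcases mem_union.1 ht' with h | h
      · exact (mem_sdiff.1 h).2 ht
      · rcases mem_insert.1 h with h | h
        · exact hPZ t (hsub ht) (by rw [h]; exact hNZ ha)
        · exact hPB t (hsub ht) h)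
    have he : insert a (P ∪ B) = un Lg x0 v0 a' ∪ (P \ vl84 d c a' ∪ insert a B) := by
      rw [hun]
      ext t
      have h1 : t ∈ vl84 d c a' → t ∈ P := fun h => hsub h
      simp only [mem_union, mem_sdiff, mem_insert]
      tauto
    rw [he]
    exact ⟨y', hy'⟩

end Pool.Agent.SQ
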