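import Pool.Agent.Helper73.SQ.AB2

/-!
# SQ-AB3: absorber for a family of nodes

Proof in words.  Induction on `M`: apply `node` to `N i`, with the units not yet used (`351` per node) and with `Z` enlarged by all private values `Pv` and all
costs `cst` of the legs labelled so far (at most `C'` per node, `C'` depends on `d`, `D`).  The labels `x` of different nodes are put together (the legs of
different units are disjoint).  `Pv` = union.  Given `a`, put together the labels `y` of the nodes.  The sets covered by different nodes,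
`Pv_i ∪ {a i}`, are disjoint since `a` is injective, `a i ∈ Z` and `Pv_i` is disjoint from `Z`.
-/

set_option autoImplicit false

namespace Pool.Agent.SQ

open Finset Pool.Agent.SEM

private theorem h99_unit_mono {n d D : ℕ} {S S' : Finset ℕ} {Lg Q : ℕ → Finset ℕ}
    (h : Unit n d D S Lg Q) (hS : S' ⊆ S) : Unit n d D S' Lg Q where
  card v hv := h.card v (hS hv)
  dj v hv v' hv' := h.dj v (hS hv) v' (hS hv')
  Qc v hv := h.Qc v (hS hv)
  Qs v hv := h.Qs v (hS hv)

private theorem h99_cst_congr {Q : ℕ → Finset ℕ} {x x' : ℕ → ℕ} {w : ℕ} (h : x w = x' w) :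
    cst Q x w = cst Q x' w := by
  unfold cst
  rw [h]

private theorem h99_cst_card {n d D : ℕ} {S : Finset ℕ} {Lg Q : ℕ → Finset ℕ}
    (h : Unit n d D S Lg Q) (x : ℕ → ℕ) :
    ((S.biUnion Lg).biUnion (cst Q x)).card ≤ S.card * d * (D + 2) := by
  have h1 : (S.biUnion Lg).card ≤ S.card * d := card_biUnion_le_card_mul _ _ _ fun v hv => (h.card v hv).le
  refine (card_biUnion_le_card_mul _ _ (D + 2) ?_).trans (Nat.mul_le_mul_right _ h1)
  intro w hw
  obtain ⟨v, hv, hw⟩ := mem_biUnion.1 hw
  unfold cst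
  refine (card_insert_le _ _).trans ?_
  have := card_image_le (s := Q w) (f := fun q => x w + q)
  have h2 := h.Qc v hv w hw
  omega

/-- the inductive statement (with the bound `C0` per node for the private values) -/
private theorem h99_absorber_aux (d D C0 C' : ℕ) (hC' : C0 + 351 * d * (D + 2) ≤ C')
    (hnode : ∀ (n : ℕ) (S Z : Finset ℕ)
    (Lg Q : ℕ → Finset ℕ) (N : Finset ℕ), C0 * (Z.card + 1) ≤ n → Unit n d D S Lg Q →
    351 ≤ S.card → N.card ≤ 70 → N ⊆ Z → (∀ a ∈ N, n < 8 * a ∧ a ≤ 2 * n - 1) →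
    (∀ a ∈ N, ∀ b ∈ N, a % (d + 1) = b % (d + 1)) →
    ∃ (Sa Pv : Finset ℕ) (x : ℕ → ℕ), Sa ⊆ S ∧ Sa.card ≤ 351 ∧ Pv.card ≤ C0 ∧ Disjoint Pv Z ∧
      (∀ t ∈ Pv, n < 8 * t ∧ t ≤ 2 * n - 1) ∧ Lgd n Sa (Z ∪ Pv) Lg Q x ∧
      ∀ a ∈ N, ∃ y, Cov Lg x y Sa (insert a Pv))
    (n : ℕ) (S Z : Finset ℕ) (Lg Q : ℕ → Finset ℕ) (N : ℕ → Finset ℕ) (hU : Unit n d D S Lg Q) :
    ∀ M : ℕ, C0 * (Z.card + C' * M + 1) ≤ n →
    351 * M ≤ S.card → (∀ i < M, (N i).card ≤ 70) → (∀ i < M, N i ⊆ Z) →
    (∀ i < M, ∀ a ∈ N i, n < 8 * a ∧ a ≤ 2 * n - 1) →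
    (∀ i < M, ∀ a ∈ N i, ∀ b ∈ N i, a % (d + 1) = b % (d + 1)) →
    ∃ (Sa Pv : Finset ℕ) (x : ℕ → ℕ), Sa ⊆ S ∧ Sa.card ≤ 351 * M ∧ Pv.card ≤ C0 * M ∧
      Disjoint Pv Z ∧ (∀ t ∈ Pv, n < 8 * t ∧ t ≤ 2 * n - 1) ∧ Lgd n Sa (Z ∪ Pv) Lg Q x ∧
      ∀ a : ℕ → ℕ, Set.InjOn a (range M) → (∀ i < M, a i ∈ N i) →
        ∃ y, Cov Lg x y Sa (Pv ∪ (range M).image a) := by
  intro M
  induction M with
  | zero =>
    intro _ _ _ _ _ _
    refine ⟨∅, ∅, fun _ => 0, empty_subset _, by simp, by simp, disjoint_empty_left _,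
      fun t ht => absurd ht (notMem_empty t), ?_, ?_⟩
    · exact ⟨fun v hv => absurd hv (notMem_empty v), fun v hv => absurd hv (notMem_empty v),
        fun w hw => absurd hw (by simp)⟩
    · intro a _ _
      exact ⟨fun _ => 0, fun v hv => absurd hv (notMem_empty v), by simp⟩
  | succ M ih =>
    intro hn hS hN1 hN2 hN3 hN4
    obtain ⟨Sa, Pv, x, hSa, hSac, hPvc, hPvZ, hPvr, hL, hcov⟩ := ih
      (le_trans (Nat.mul_le_mul_left _ (by
        have : C' * M ≤ C' * (M + 1) := Nat.mul_le_mul_left _ (by omega)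
        omega)) hn) (by omega)
      (fun i hi => hN1 i (by omega)) (fun i hi => hN2 i (by omega)) (fun i hi => hN3 i (by omega))
      (fun i hi => hN4 i (by omega))
    set W : Finset ℕ := (Sa.biUnion Lg).biUnion (cst Q x) with hW
    have hWc : W.card ≤ 351 * d * (D + 2) * M := by
      refine (h99_cst_card (h99_unit_mono hU hSa) x).trans ?_
      calc Sa.card * d * (D + 2) ≤ 351 * M * d * (D + 2) :=
          Nat.mul_le_mul_right _ (Nat.mul_le_mul_right _ hSac)
        _ = 351 * d * (D + 2) * M := by ring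
    have hWm : ∀ v ∈ Sa, ∀ w ∈ Lg v, cst Q x w ⊆ W := by
      intro v hv w hw t ht
      exact mem_biUnion.2 ⟨w, mem_biUnion.2 ⟨v, hv, hw⟩, ht⟩
    have hZc : (Z ∪ Pv ∪ W).card ≤ Z.card + C' * M := by
      have h1 := card_union_le (Z ∪ Pv) W
      have h2 := card_union_le Z Pv
      have h3 : (C0 + 351 * d * (D + 2)) * M ≤ C' * M := Nat.mul_le_mul_right _ hC'
      rw [add_mul] at h3
      omega
    have hS' : 351 ≤ (S \ Sa).card := by
      have := card_sdiff_add_card_inter S Sa
      have h2 : (S ∩ Sa).card ≤ Sa.card := card_le_card inter_subset_right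
      omega
    obtain ⟨Sa', Pv', x', hSa', hSac', hPvc', hPvZ', hPvr', hL', hcov'⟩ :=
      hnode n (S \ Sa) (Z ∪ Pv ∪ W) Lg Q (N M)
        (le_trans (Nat.mul_le_mul_left _ (by
          have : C' * M ≤ C' * (M + 1) := Nat.mul_le_mul_left _ (by omega)
          omega)) hn) (h99_unit_mono hU sdiff_subset) hS'
        (hN1 M (by omega))
        ((hN2 M (by omega)).trans ((subset_union_left).trans subset_union_left)) (hN3 M (by omega))
        (hN4 M (by omega))
    have hZ1 : Z ⊆ Z ∪ Pv ∪ W := (subset_union_left).trans subset_union_left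
    have hZ2 : Pv ⊆ Z ∪ Pv ∪ W := (subset_union_right).trans subset_union_left
    have hZ3 : W ⊆ Z ∪ Pv ∪ W := subset_union_right
    have hdS : ∀ v ∈ Sa, v ∉ Sa' := fun v hv hv' => (mem_sdiff.1 (hSa' hv')).2 hv
    have hSa'S : Sa' ⊆ S := hSa'.trans sdiff_subset
    set x'' : ℕ → ℕ := fun w => if w ∈ Sa'.biUnion Lg then x' w else x w with hx''
    have hx1 : ∀ v ∈ Sa, ∀ w ∈ Lg v, x'' w = x w := by
      intro v hv w hw
      simp only [hx'']
      rw [if_neg]
      intro h
      obtain ⟨v', hv', hw'⟩ := mem_biUnion.1 h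
      have hne : v ≠ v' := fun h => hdS v hv (h ▸ hv')
      exact (disjoint_left.1 (hU.dj v (hSa hv) v' (hSa'S hv') hne)) hw hw'
    have hx2 : ∀ v ∈ Sa', ∀ w ∈ Lg v, x'' w = x' w := by
      intro v hv w hw
      simp only [hx'']
      rw [if_pos (mem_biUnion.2 ⟨v, hv, hw⟩)]
    have hc1 : ∀ v ∈ Sa, ∀ w ∈ Lg v, cst Q x'' w = cst Q x w := fun v hv w hw =>
      h99_cst_congr (hx1 v hv w hw)
    have hc2 : ∀ v ∈ Sa', ∀ w ∈ Lg v, cst Q x'' w = cst Q x' w := fun v hv w hw =>
      h99_cst_congr (hx2 v hv w hw)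
    have hPvZ'' : ∀ t ∈ Pv', t ∉ Z ∪ Pv ∪ W := fun t ht => disjoint_left.1 hPvZ' ht
    refine ⟨Sa ∪ Sa', Pv ∪ Pv', x'', union_subset hSa hSa'S, ?_, ?_, ?_, ?_, ?_, ?_⟩
    · have := card_union_le Sa Sa'
      omega
    · have := card_union_le Pv Pv'
      rw [mul_add, mul_one]
      omega
    · exact disjoint_union_left.2 ⟨hPvZ, disjoint_of_subset_right hZ1 hPvZ'⟩
    · intro t ht
      rcases mem_union.1 ht with h | h
      · exact hPvr t h
      · exact hPvr' t h
    · refine ⟨?_, ?_, ?_⟩
      · intro v hv w hw t ht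
        rcases mem_union.1 hv with h | h
        · rw [hc1 v h w hw] at ht
          exact hL.hi v h w hw t ht
        · rw [hc2 v h w hw] at ht
          exact hL'.hi v h w hw t ht
      · intro v hv w hw
        rw [disjoint_left]
        intro t ht ht'
        rcases mem_union.1 hv with h | h
        · rw [hc1 v h w hw] at ht
          have h1 := disjoint_left.1 (hL.av v h w hw) ht
          rcases mem_union.1 ht' with h2 | h2
          · exact h1 (mem_union_left _ h2)
          · rcases mem_union.1 h2 with h3 | h3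
            · exact h1 (mem_union_right _ h3)
            · exact hPvZ'' t h3 (hZ3 (hWm v h w hw ht))
        · rw [hc2 v h w hw] at ht
          have h1 := disjoint_left.1 (hL'.av v h w hw) ht
          rcases mem_union.1 ht' with h2 | h2
          · exact h1 (mem_union_left _ (hZ1 h2))
          · rcases mem_union.1 h2 with h3 | h3
            · exact h1 (mem_union_left _ (hZ2 h3))
            · exact h1 (mem_union_right _ h3)
      · intro w hw w' hw' hne
        obtain ⟨v, hv, hvw⟩ := mem_biUnion.1 hw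
        obtain ⟨v', hv', hvw'⟩ := mem_biUnion.1 hw'
        rcases mem_union.1 hv with h | h
        · rw [hc1 v h w hvw]
          rcases mem_union.1 hv' with h' | h'
          · rw [hc1 v' h' w' hvw']
            exact hL.dj w (mem_biUnion.2 ⟨v, h, hvw⟩) w' (mem_biUnion.2 ⟨v', h', hvw'⟩) hne
          · rw [hc2 v' h' w' hvw']
            exact (disjoint_of_subset_right ((hWm v h w hvw).trans (hZ3.trans subset_union_left))
              (hL'.av v' h' w' hvw')).symm
        · rw [hc2 v h w hvw]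
          rcases mem_union.1 hv' with h' | h'
          · rw [hc1 v' h' w' hvw']
            exact disjoint_of_subset_right ((hWm v' h' w' hvw').trans (hZ3.trans subset_union_left))
              (hL'.av v h w hvw)
          · rw [hc2 v' h' w' hvw']
            exact hL'.dj w (mem_biUnion.2 ⟨v, h, hvw⟩) w' (mem_biUnion.2 ⟨v', h', hvw'⟩) hne
    · intro a hinj ha
      obtain ⟨y, hy1, hy2⟩ := hcov a
        (hinj.mono (by
          intro i hi
          have := mem_range.1 (mem_coe.1 hi)
          exact mem_coe.2 (mem_range.2 (by omega))))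
        (fun i hi => ha i (by omega))
      obtain ⟨y', hy1', hy2'⟩ := hcov' (a M) (ha M (by omega))
      have hun1 : ∀ v ∈ Sa, un Lg x'' v ((fun v => if v ∈ Sa' then y' v else y v) v) =
          un Lg x v (y v) := by
        intro v hv
        unfold un
        simp only [if_neg (hdS v hv)]
        congr 1
        refine image_congr fun w hw => ?_
        rw [hx1 v hv w (mem_coe.1 hw)]
      have hun2 : ∀ v ∈ Sa', un Lg x'' v ((fun v => if v ∈ Sa' then y' v else y v) v) =
          un Lg x' v (y' v) := by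
        intro v hv
        unfold un
        simp only [if_pos hv]
        congr 1
        refine image_congr fun w hw => ?_
        rw [hx2 v hv w (mem_coe.1 hw)]
      have hdis : Disjoint (Pv ∪ (range M).image a) (insert (a M) Pv') := by
        rw [disjoint_left]
        intro t ht ht'
        have haMZ : a M ∈ Z := hN2 M (by omega) (ha M (by omega))
        rcases mem_union.1 ht with h | h
        · rcases mem_insert.1 ht' with h' | h'
          · exact (disjoint_left.1 hPvZ h) (h' ▸ haMZ)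
          · exact hPvZ'' t h' (hZ2 h)
        · obtain ⟨i, hi, hit⟩ := mem_image.1 h
          have hi' := mem_range.1 hi
          rcases mem_insert.1 ht' with h' | h'
          · have h3 : a i = a M := hit.trans h'
            have := hinj (mem_coe.2 (mem_range.2 (by omega : i < M + 1)))
              (mem_coe.2 (mem_range.2 (by omega : M < M + 1))) h3
            omega
          · exact hPvZ'' t h' (hZ1 (hit ▸ hN2 i (by omega) (ha i (by omega))))
      refine ⟨fun v => if v ∈ Sa' then y' v else y v, ?_, ?_⟩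
      · have hcross : ∀ v ∈ Sa, ∀ v' ∈ Sa', Disjoint (un Lg x v (y v)) (un Lg x' v' (y' v')) := by
          intro v hv v' hv'
          have h1 : un Lg x v (y v) ⊆ Pv ∪ (range M).image a := by
            rw [← hy2]
            exact subset_biUnion_of_mem (fun v => un Lg x v (y v)) hv
          have h2 : un Lg x' v' (y' v') ⊆ insert (a M) Pv' := by
            rw [← hy2']
            exact subset_biUnion_of_mem (fun v => un Lg x' v (y' v)) hv'
          exact disjoint_of_subset_left h1 (disjoint_of_subset_right h2 hdis)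
        intro v hv v' hv' hne
        rcases mem_union.1 hv with h | h
        · rw [hun1 v h]
          rcases mem_union.1 hv' with h' | h'
          · rw [hun1 v' h']
            exact hy1 v h v' h' hne
          · rw [hun2 v' h']
            exact hcross v h v' h'
        · rw [hun2 v h]
          rcases mem_union.1 hv' with h' | h'
          · rw [hun1 v' h']
            exact (hcross v' h' v h).symm
          · rw [hun2 v' h']
            exact hy1' v h v' h' hne
      · rw [union_biUnion]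
        have h1 : (Sa.biUnion fun v => un Lg x'' v ((fun v => if v ∈ Sa' then y' v else y v) v)) =
            Pv ∪ (range M).image a := by
          rw [← hy2]
          exact biUnion_congr rfl hun1
        have h2 : (Sa'.biUnion fun v => un Lg x'' v ((fun v => if v ∈ Sa' then y' v else y v) v)) =
            insert (a M) Pv' := by
          rw [← hy2']
          exact biUnion_congr rfl hun2
        rw [h1, h2, range_add_one, image_insert]
        ext t
        simp only [mem_union, mem_insert]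
        tauto

theorem absorber (d D : ℕ) (hd : d = 1 ∨ d = 2) : ∃ C : ℕ, ∀ (n M : ℕ) (S Z : Finset ℕ)
    (Lg Q : ℕ → Finset ℕ) (N : ℕ → Finset ℕ), C * (Z.card + M + 1) ≤ n → Unit n d D S Lg Q →
    351 * M ≤ S.card → (∀ i < M, (N i).card ≤ 70) → (∀ i < M, N i ⊆ Z) →
    (∀ i < M, ∀ a ∈ N i, n < 8 * a ∧ a ≤ 2 * n - 1) →
    (∀ i < M, ∀ a ∈ N i, ∀ b ∈ N i, a % (d + 1) = b % (d + 1)) →
    ∃ (Sa Pv : Finset ℕ) (x : ℕ → ℕ), Sa ⊆ S ∧ Sa.card ≤ 351 * M ∧ Pv.card ≤ C * M ∧
      Disjoint Pv Z ∧ (∀ t ∈ Pv, n < 8 * t ∧ t ≤ 2 * n - 1) ∧ Lgd n Sa (Z ∪ Pv) Lg Q x ∧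
      ∀ a : ℕ → ℕ, Set.InjOn a (range M) → (∀ i < M, a i ∈ N i) →
        ∃ y, Cov Lg x y Sa (Pv ∪ (range M).image a) := by
  obtain ⟨C0, hnode⟩ := node d D hd
  set C' : ℕ := C0 + 351 * d * (D + 2) with hC'
  refine ⟨C0 * (C' + 1), ?_⟩
  intro n M S Z Lg Q N hn hU hS hN1 hN2 hN3 hN4
  have h1 : C0 * (Z.card + C' * M + 1) ≤ n := by
    refine le_trans ?_ hn
    rw [mul_assoc]
    refine Nat.mul_le_mul_left _ ?_
    nlinarith
  obtain ⟨Sa, Pv, x, e1, e2, e3, e4, e5, e6, e7⟩ :=
    h99_absorber_aux d D C0 C' le_rfl hnode n S Z Lg Q N hU M h1 hS hN1 hN2 hN3 hN4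
  refine ⟨Sa, Pv, x, e1, e2, e3.trans ?_, e4, e5, e6, e7⟩
  refine Nat.mul_le_mul_right _ ?_
  nlinarith

end Pool.Agent.SQ
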