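import Pool.Agent.Helper73.SQ.AB3
import Pool.Agent.Helper73.SEM.RB3

/-!
# SQ-ABT: the absorber for the reservoir

Proof in words (`g = d + 1`).  For each class `κ < g` let `z = |F_κ|`, `m = m κ`, `z ≤ 2 m`; `SEM.rmbg m z` gives a template with `3 m` nodes, neighbourhoods of size at most `70` in
`Fin (2m) ⊕ Fin z`; identify `Fin z` with `F_κ` and `Fin (2m)` with a set `B_κ` of `2 m` NEW values `≡ κ mod g` in `(n/8, 2n-1]`, outside `Z`.  All the nodes of all classes:
`M = 3 ∑ m κ ≤ 9 |F|` sets `N i ⊆ F ∪ B`; apply `absorber` with `Z ∪ B` in the place of `Z`.  `Pv` = the private set of `absorber` together with all `B_κ`.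
For `L' ⊆ F` with `|L' ∩ κ| = m κ` the matchings of the templates give `a` injective with image exactly `L' ∪ B` (`3m` nodes of the class, `2m + m` values).
-/

set_option autoImplicit false

namespace Pool.Agent.SQ

open Finset Pool.Agent.SEM

namespace ABT56

/-- new values in a given class -/
theorem exists_new (n g κ k : ℕ) (Z : Finset ℕ) (hg : 1 ≤ g) (hg3 : g ≤ 3) (hκ : κ < g)
    (hk : 8 * (k + Z.card + 2) ≤ 3 * n) :
    ∃ B : Finset ℕ, B.card = k ∧ Disjoint B Z ∧
      ∀ t ∈ B, (n < 8 * t ∧ t ≤ 2 * n - 1) ∧ t % g = κ := by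
  set I : Finset ℕ := (Ico (n / 8 + 1) (n / 2)).image fun t => κ + g * t with hI
  have hIc : I.card = n / 2 - (n / 8 + 1) := by
    rw [hI, card_image_of_injective, Nat.card_Ico]
    intro a b hab
    have h1 : g * a = g * b := by simpa using hab
    exact Nat.eq_of_mul_eq_mul_left (by omega) h1
  have h2 : k ≤ (I \ Z).card := by
    have h3 := card_sdiff_add_card_inter I Z
    have h4 : (I ∩ Z).card ≤ Z.card := card_le_card inter_subset_right
    omega
  obtain ⟨B, hB, hBc⟩ := exists_subset_card_eq h2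
  refine ⟨B, hBc, ?_, ?_⟩
  · rw [disjoint_left]
    intro t ht
    exact (mem_sdiff.1 (hB ht)).2
  · intro t ht
    obtain ⟨u, hu, rfl⟩ := mem_image.1 (mem_sdiff.1 (hB ht)).1
    rw [mem_Ico] at hu
    have h5 : u ≤ g * u := Nat.le_mul_of_pos_left u (by omega)
    have h6 : g * u ≤ 3 * u := Nat.mul_le_mul_right u hg3
    refine ⟨⟨by omega, by omega⟩, ?_⟩
    rw [Nat.add_mul_mod_self_left]
    exact Nat.mod_eq_of_lt hκ

theorem card_classes (g : ℕ) (hg : 0 < g) (F : Finset ℕ) :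
    ∑ κ : Fin g, (F.filter fun a => a % g = κ).card = F.card := by
  rw [← Finset.sum_range fun κ => (F.filter fun a => a % g = κ).card]
  exact (card_eq_sum_card_fiberwise fun a _ => mem_coe.2 (mem_range.2 (Nat.mod_lt a hg))).symm

end ABT56

open ABT56

theorem abs_classes (d D : ℕ) (hd : d = 1 ∨ d = 2) : ∃ C : ℕ, ∀ (n : ℕ) (S Z F : Finset ℕ)
    (Lg Q : ℕ → Finset ℕ) (m : ℕ → ℕ), C * (Z.card + 1) ≤ n → Unit n d D S Lg Q → F ⊆ Z →
    C * F.card ≤ S.card → (∀ a ∈ F, n < 8 * a ∧ a ≤ 2 * n - 1) →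
    (∀ κ < d + 1, 1 ≤ m κ ∧ m κ ≤ (F.filter fun a => a % (d + 1) = κ).card ∧
      (F.filter fun a => a % (d + 1) = κ).card ≤ 2 * m κ) →
    ∃ (Sa Pv : Finset ℕ) (x : ℕ → ℕ), Sa ⊆ S ∧ Sa.card ≤ C * F.card ∧ Pv.card ≤ C * F.card ∧
      Disjoint Pv Z ∧ (∀ t ∈ Pv, n < 8 * t ∧ t ≤ 2 * n - 1) ∧ Lgd n Sa (Z ∪ Pv) Lg Q x ∧
      ∀ L' ⊆ F, (∀ κ < d + 1, (L'.filter fun a => a % (d + 1) = κ).card = m κ) →
        ∃ y, Cov Lg x y Sa (Pv ∪ L') := by
  classical
  obtain ⟨C0, hab⟩ := absorber d D hd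
  refine ⟨6 * C0 + 1100, ?_⟩
  intro n S Z F Lg Q m hn hU hFZ hFS hFr hm
  have hFZc : F.card ≤ Z.card := card_le_card hFZ
  have hn1 : 6 * C0 * (Z.card + 1) + 1100 * (Z.card + 1) ≤ n := by
    rw [← add_mul]; exact hn
  have hn2 : 1100 * (Z.card + 1) ≤ n := le_trans (Nat.le_add_left _ _) hn1
  have hmκ : ∀ κ : Fin (d + 1), 1 ≤ m κ ∧ m κ ≤ (F.filter fun a => a % (d + 1) = κ).card ∧
      (F.filter fun a => a % (d + 1) = κ).card ≤ 2 * m κ := fun κ => hm κ κ.2
  have hmF : ∀ κ : Fin (d + 1), m κ ≤ F.card := fun κ =>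
    (hmκ κ).2.1.trans (card_le_card (filter_subset _ _))
  -- the new values
  have hB : ∀ κ : Fin (d + 1), ∃ B : Finset ℕ, B.card = 2 * m κ ∧ Disjoint B Z ∧
      ∀ t ∈ B, (n < 8 * t ∧ t ≤ 2 * n - 1) ∧ t % (d + 1) = κ := by
    intro κ
    refine exists_new n (d + 1) κ (2 * m κ) Z (by omega) (by omega) κ.2 ?_
    have := hmF κ
    omega
  choose B hBc hBZ hBr using hB
  set Fc : Fin (d + 1) → Finset ℕ := fun κ => F.filter fun a => a % (d + 1) = κ with hFc
  choose H hH1 hH2 using fun κ : Fin (d + 1) => rmbg (m κ) (Fc κ).card (hmκ κ).1 (hmκ κ).2.2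
  set ψ : (κ : Fin (d + 1)) → Fin (2 * m κ) ⊕ Fin (Fc κ).card → ℕ := fun κ =>
    Sum.elim (fun k => (B κ).orderEmbOfFin (hBc κ) k) (fun k => (Fc κ).orderEmbOfFin rfl k) with hψ
  have hψl : ∀ κ k, ψ κ (Sum.inl k) ∈ B κ := fun κ k => orderEmbOfFin_mem _ _ _
  have hψr : ∀ κ k, ψ κ (Sum.inr k) ∈ Fc κ := fun κ k => orderEmbOfFin_mem _ _ _
  have hFcF : ∀ κ, ∀ a ∈ Fc κ, a ∈ F ∧ a % (d + 1) = κ := fun κ a ha => mem_filter.1 ha
  have hψr1 : ∀ κ s, n < 8 * ψ κ s ∧ ψ κ s ≤ 2 * n - 1 := by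
    intro κ s
    rcases s with k | k
    · exact (hBr κ _ (hψl κ k)).1
    · exact hFr _ (hFcF κ _ (hψr κ k)).1
  have hψm : ∀ κ s, ψ κ s % (d + 1) = κ := by
    intro κ s
    rcases s with k | k
    · exact (hBr κ _ (hψl κ k)).2
    · exact (hFcF κ _ (hψr κ k)).2
  have hψi : ∀ κ, Function.Injective (ψ κ) := by
    intro κ s t hst
    rcases s with k | k <;> rcases t with l | l
    · exact congrArg Sum.inl (((B κ).orderEmbOfFin (hBc κ)).injective hst)
    · exact absurd (hFZ (hFcF κ _ (hψr κ l)).1) (disjoint_left.1 (hBZ κ) (hst ▸ hψl κ k))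
    · exact absurd (hFZ (hFcF κ _ (hψr κ k)).1) (disjoint_left.1 (hBZ κ) (hst ▸ hψl κ l))
    · exact congrArg Sum.inr (((Fc κ).orderEmbOfFin rfl).injective hst)
  set BB : Finset ℕ := univ.biUnion B with hBB
  have hBBmem : ∀ κ, B κ ⊆ BB := fun κ => subset_biUnion_of_mem B (mem_univ κ)
  have hBBc : BB.card = ∑ κ : Fin (d + 1), 2 * m κ := by
    rw [hBB, card_biUnion]
    · exact sum_congr rfl fun κ _ => hBc κ
    · intro κ _ κ' _ hne
      rw [Function.onFun, disjoint_left]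
      intro t ht ht'
      apply hne
      apply Fin.ext
      rw [← (hBr κ t ht).2, ← (hBr κ' t ht').2]
  have hBBZ : Disjoint BB Z := by
    rw [hBB, disjoint_biUnion_left]
    exact fun κ _ => hBZ κ
  have hBBr : ∀ t ∈ BB, n < 8 * t ∧ t ≤ 2 * n - 1 := by
    intro t ht
    obtain ⟨κ, -, ht⟩ := mem_biUnion.1 ht
    exact (hBr κ t ht).1
  -- the nodes
  set M : ℕ := ∑ κ : Fin (d + 1), 3 * m κ with hM
  set e : (κ : Fin (d + 1)) × Fin (3 * m κ) ≃ Fin M := finSigmaFinEquiv with he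
  have hsum : ∑ κ : Fin (d + 1), m κ ≤ F.card := by
    rw [← card_classes (d + 1) (by omega) F]
    exact sum_le_sum fun κ _ => (hmκ κ).2.1
  have hM3 : M = 3 * ∑ κ : Fin (d + 1), m κ := by rw [hM, mul_sum]
  have hBB2 : BB.card = 2 * ∑ κ : Fin (d + 1), m κ := by rw [hBBc, mul_sum]
  set N : ℕ → Finset ℕ := fun i => if h : i < M then
    (H (e.symm ⟨i, h⟩).1 (e.symm ⟨i, h⟩).2).image (ψ (e.symm ⟨i, h⟩).1) else ∅ with hN
  have hNi : ∀ i (h : i < M), N i =
      (H (e.symm ⟨i, h⟩).1 (e.symm ⟨i, h⟩).2).image (ψ (e.symm ⟨i, h⟩).1) := by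
    intro i h
    simp only [hN, dif_pos h]
  have hZ1 : (Z ∪ BB).card ≤ Z.card + BB.card := card_union_le _ _
  obtain ⟨Sa, Pv, x, e1, e2, e3, e4, e5, e6, e7⟩ := hab n M S (Z ∪ BB) Lg Q N
    (by
      refine le_trans ?_ (le_trans (Nat.le_add_right _ _) hn1)
      rw [mul_comm 6 C0, mul_assoc]
      refine Nat.mul_le_mul_left _ ?_
      omega) hU
    (by
      refine le_trans ?_ hFS
      rw [add_mul]
      have : 0 ≤ 6 * C0 * F.card := Nat.zero_le _
      omega)
    (by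
      intro i hi
      rw [hNi i hi]
      exact card_image_le.trans (hH1 _ _))
    (by
      intro i hi
      rw [hNi i hi]
      intro a ha
      obtain ⟨s, -, rfl⟩ := mem_image.1 ha
      rcases s with k | k
      · exact mem_union_right _ (hBBmem _ (hψl _ k))
      · exact mem_union_left _ (hFZ (hFcF _ _ (hψr _ k)).1))
    (by
      intro i hi a ha
      rw [hNi i hi] at ha
      obtain ⟨s, -, rfl⟩ := mem_image.1 ha
      exact hψr1 _ s)
    (by
      intro i hi a ha b hb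
      rw [hNi i hi] at ha hb
      obtain ⟨s, -, rfl⟩ := mem_image.1 ha
      obtain ⟨t, -, rfl⟩ := mem_image.1 hb
      rw [hψm, hψm])
  rw [disjoint_union_right] at e4
  refine ⟨Sa, Pv ∪ BB, x, e1, ?_, ?_, disjoint_union_left.2 ⟨e4.1, hBBZ⟩, ?_, ?_, ?_⟩
  · refine e2.trans ?_
    rw [add_mul]
    have : 0 ≤ 6 * C0 * F.card := Nat.zero_le _
    omega
  · refine (card_union_le _ _).trans ?_
    have h1 : C0 * M ≤ 6 * C0 * F.card := by
      rw [mul_comm 6 C0, mul_assoc]
      refine Nat.mul_le_mul_left _ ?_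
      omega
    rw [add_mul]
    omega
  · intro t ht
    rcases mem_union.1 ht with h | h
    · exact e5 t h
    · exact hBBr t h
  · have h1 : Z ∪ (Pv ∪ BB) = Z ∪ BB ∪ Pv := by
      rw [union_comm Pv BB, union_assoc]
    rw [h1]
    exact e6
  · intro L' hL' hLm
    have hZ' : ∀ κ : Fin (d + 1), ((univ : Finset (Fin (Fc κ).card)).filter
        fun k => ψ κ (Sum.inr k) ∈ L').card = m κ := by
      intro κ
      refine Eq.trans ?_ (hLm κ κ.2)
      refine card_bij (fun k _ => ψ κ (Sum.inr k)) ?_ ?_ ?_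
      · intro k hk
        rw [mem_filter] at hk ⊢
        exact ⟨hk.2, hψm κ _⟩
      · intro k _ l _ hkl
        exact Sum.inr_injective (hψi κ hkl)
      · intro a ha
        rw [mem_filter] at ha
        have ha' : a ∈ Fc κ := mem_filter.2 ⟨hL' ha.1, ha.2⟩
        have h1 : a ∈ Set.range ((Fc κ).orderEmbOfFin rfl) := by
          rw [range_orderEmbOfFin]; exact mem_coe.2 ha'
        obtain ⟨k, hk⟩ := h1
        have hk' : ψ κ (Sum.inr k) = a := hk
        refine ⟨k, ?_, hk'⟩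
        rw [mem_filter]
        exact ⟨mem_univ k, hk' ▸ ha.1⟩
    choose f hfi hfm using fun κ : Fin (d + 1) => hH2 κ _ (hZ' κ)
    set a : ℕ → ℕ := fun i => if h : i < M then
      ψ (e.symm ⟨i, h⟩).1 (f (e.symm ⟨i, h⟩).1 (e.symm ⟨i, h⟩).2) else 0 with ha
    have hai : ∀ i (h : i < M), a i =
        ψ (e.symm ⟨i, h⟩).1 (f (e.symm ⟨i, h⟩).1 (e.symm ⟨i, h⟩).2) := by
      intro i h
      simp only [ha, dif_pos h]
    have key : ∀ p q : (κ : Fin (d + 1)) × Fin (3 * m κ),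
        ψ p.1 (f p.1 p.2) = ψ q.1 (f q.1 q.2) → p = q := by
      rintro ⟨κ, j⟩ ⟨κ', j'⟩ h
      simp only at h
      have h1 : κ = κ' := by
        apply Fin.ext
        rw [← hψm κ (f κ j), ← hψm κ' (f κ' j'), h]
      subst h1
      have h2 := hfi κ (hψi κ h)
      rw [h2]
    have hainj : Set.InjOn a (range M) := by
      intro i hi j hj hij
      have hi' : i < M := mem_range.1 (mem_coe.1 hi)
      have hj' : j < M := mem_range.1 (mem_coe.1 hj)
      rw [hai i hi', hai j hj'] at hij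
      have h1 := e.symm.injective (key _ _ hij)
      exact Fin.mk.inj_iff.1 h1
    have haN : ∀ i < M, a i ∈ N i := by
      intro i hi
      rw [hai i hi, hNi i hi]
      exact mem_image_of_mem _ (hfm _ _).1
    have himg : (range M).image a = BB ∪ L' := by
      refine eq_of_subset_of_card_le ?_ ?_
      · intro t ht
        obtain ⟨i, hi, rfl⟩ := mem_image.1 ht
        have hi' : i < M := mem_range.1 hi
        rw [hai i hi']
        set p := e.symm ⟨i, hi'⟩ with hp
        rcases hs : f p.1 p.2 with k | k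
        · exact mem_union_left _ (hBBmem _ (hψl _ k))
        · refine mem_union_right _ ?_
          have := (hfm p.1 p.2).2 k hs
          exact (mem_filter.1 this).2
      · rw [card_image_of_injOn hainj, card_range]
        refine (card_union_le _ _).trans ?_
        have h1 : L'.card = ∑ κ : Fin (d + 1), m κ := by
          rw [← card_classes (d + 1) (by omega) L']
          exact sum_congr rfl fun κ _ => hLm κ κ.2
        rw [h1, hBB2, hM3]
        omega
    obtain ⟨y, hy⟩ := e7 a hainj haN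
    refine ⟨y, ?_⟩
    rw [himg] at hy
    rw [union_assoc]
    exact hy

end Pool.Agent.SQ
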