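import Pool.Agent.Helper73.SQ.Defs
import Pool.Agent.Helper73.SEM.NB0

/-!
# SQ-CH: random choice of a set hitting many families

Proof in words.  Choose `F ⊆ G` at random, each element with probability `φ / 4` (say), independently (`SEM.Ber`, or helper96's `NB/Exp.lean`, or functions
`G → Fin q`; choose the rational probability `1/q ≤ φ/8`).  For a family `i` take a subfamily of pairwise disjoint sets of size at least
`c n / (r² + 1)` (greedy: every set meets at most `r * r` others by the multiplicity bound `hm`).  The numbers of sets of the subfamily contained in `F` is a sum of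
`L ≥ c n / (r²+1)` independent indicators of probability `≥ q^(-r)`, so it is `< L q^(-r) / 2` with probability `≤ exp (- c' n)` (use
`E (1/2)^N ≤ (1 - q^(-r)/2)^L`, `(1/2)^(L q^(-r)/2)` and `exp`).  There are at most `n^4` families; `n^4 exp (-c' n) < 1/4` for `n ≥ n₀`.  And
`|F| > φ n` has probability `< 1/2` (Markov: `E |F| ≤ 2 n / q ≤ φ n / 4`).
-/

set_option autoImplicit false

namespace Pool.Agent.SQ

open Finset Pool.Agent.SEM

theorem disj_sub31 (r : ℕ) (J : Finset ℕ) (S : ℕ → Finset ℕ) (hS : ∀ j ∈ J, (S j).card ≤ r)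
    (hm : ∀ t, (J.filter fun j => t ∈ S j).card ≤ r) :
    ∃ J' ⊆ J, (∀ i ∈ J', ∀ j ∈ J', i ≠ j → Disjoint (S i) (S j)) ∧
      J.card ≤ (r * r + 1) * J'.card := by
  obtain ⟨P, hP⟩ : ∃ P : Finset ℕ → Prop, P = fun K => ∀ i ∈ K, ∀ j ∈ K, i ≠ j → Disjoint (S i) (S j) :=
    ⟨_, rfl⟩
  have hdec : DecidablePred P := Classical.decPred P
  obtain ⟨J', hJ', hmax⟩ := Finset.exists_max_image (J.powerset.filter P) Finset.card
    ⟨∅, by simp [hP]⟩
  rw [Finset.mem_filter, Finset.mem_powerset, hP] at hJ'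
  obtain ⟨hsub, hdis⟩ := hJ'
  refine ⟨J', hsub, hdis, ?_⟩
  have hcov : J \ J' ⊆ (J'.biUnion S).biUnion (fun t => J.filter fun j => t ∈ S j) := by
    intro j hj
    rw [Finset.mem_sdiff] at hj
    by_contra hcon
    have hd : ∀ i ∈ J', Disjoint (S i) (S j) := by
      intro i hi
      rw [Finset.disjoint_left]
      intro t hti htj
      apply hcon
      rw [Finset.mem_biUnion]
      exact ⟨t, Finset.mem_biUnion.2 ⟨i, hi, hti⟩, Finset.mem_filter.2 ⟨hj.1, htj⟩⟩
    have h1 : insert j J' ∈ J.powerset.filter P := by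
      rw [Finset.mem_filter, Finset.mem_powerset, hP]
      refine ⟨Finset.insert_subset hj.1 hsub, ?_⟩
      intro a ha b hb hab
      rcases Finset.mem_insert.1 ha with ha' | ha'
      · rcases Finset.mem_insert.1 hb with hb' | hb'
        · exact absurd (ha'.trans hb'.symm) hab
        · rw [ha']; exact (hd b hb').symm
      · rcases Finset.mem_insert.1 hb with hb' | hb'
        · rw [hb']; exact hd a ha'
        · exact hdis a ha' b hb' hab
    have h2 := hmax _ h1
    rw [Finset.card_insert_of_notMem hj.2] at h2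
    omega
  have h1 : (J \ J').card ≤ J'.card * r * r := by
    refine (Finset.card_le_card hcov).trans ?_
    refine (Finset.card_biUnion_le_card_mul _ _ r fun t _ => hm t).trans ?_
    exact Nat.mul_le_mul_right r (Finset.card_biUnion_le_card_mul _ _ r fun i hi => hS i (hsub hi))
  have h2 : J.card ≤ (J \ J').card + J'.card := by
    have := Finset.card_sdiff_add_card_eq_card hsub
    omega
  calc J.card ≤ J'.card * r * r + J'.card := by omega
    _ = (r * r + 1) * J'.card := by ring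

theorem ber_half31 {E : Type} [Fintype E] [DecidableEq E] {p : ℝ} (hp : 0 ≤ p) (hp1 : p ≤ 1)
    (J : Finset ℕ) (T : ℕ → Finset E) (r : ℕ)
    (hd : ∀ i ∈ J, ∀ j ∈ J, i ≠ j → Disjoint (T i) (T j)) (hr : ∀ j ∈ J, (T j).card ≤ r) :
    Ber (fun _ : E => p) (fun A => (1 / 2 : ℝ) ^ (J.filter fun j => T j ⊆ A).card)
      ≤ (1 - p ^ r / 2) ^ J.card := by
  classical
  have h1 : ∀ A : Finset E, (1 / 2 : ℝ) ^ (J.filter fun j => T j ⊆ A).card
      = ∑ K ∈ J.powerset, (-1 / 2 : ℝ) ^ K.card * (if K.biUnion T ⊆ A ∧ Disjoint A ∅ then 1 else 0) := by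
    intro A
    have e1 : (1 / 2 : ℝ) ^ (J.filter fun j => T j ⊆ A).card
        = ∏ j ∈ J, ((if T j ⊆ A then (-1 / 2 : ℝ) else 0) + 1) := by
      rw [← Finset.prod_const, Finset.prod_filter]
      refine Finset.prod_congr rfl fun j _ => ?_
      split_ifs <;> norm_num
    rw [e1, Finset.prod_add]
    refine Finset.sum_congr rfl fun K _ => ?_
    rw [Finset.prod_const_one, mul_one]
    by_cases hK : K.biUnion T ⊆ A
    · rw [if_pos ⟨hK, Finset.disjoint_empty_right A⟩, mul_one, ← Finset.prod_const]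
      refine Finset.prod_congr rfl fun j hj => ?_
      rw [if_pos ((Finset.subset_biUnion_of_mem T hj).trans hK)]
    · rw [if_neg (fun h => hK h.1), mul_zero]
      rw [Finset.biUnion_subset] at hK
      push Not at hK
      obtain ⟨j, hj, hjA⟩ := hK
      exact Finset.prod_eq_zero hj (if_neg hjA)
  have h2 : Ber (fun _ : E => p) (fun A => (1 / 2 : ℝ) ^ (J.filter fun j => T j ⊆ A).card)
      = ∏ j ∈ J, (1 - p ^ (T j).card / 2) := by
    simp only [h1]
    rw [ber_sum]
    simp only [ber_mul]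
    have e2 : ∀ j ∈ J, (1 : ℝ) - p ^ (T j).card / 2 = (-1 / 2 * p ^ (T j).card) + 1 := by
      intro j _; ring
    rw [Finset.prod_congr rfl e2, Finset.prod_add]
    refine Finset.sum_congr rfl fun K hK => ?_
    rw [Finset.mem_powerset] at hK
    have e3 := ber_disj_mem (fun _ : E => p) (K.biUnion T) ∅ (Finset.disjoint_empty_right _)
    rw [Finset.prod_const_one, mul_one, Finset.prod_mul_distrib, Finset.prod_const]
    congr 1
    rw [Finset.prod_empty, mul_one, Finset.prod_const, Finset.card_biUnion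
      (fun i hi j hj hij => hd i (hK hi) j (hK hj) hij), ← Finset.prod_pow_eq_pow_sum] at e3
    exact e3
  rw [h2]
  rw [← Finset.prod_const]
  refine Finset.prod_le_prod (fun j _ => ?_) (fun j hj => ?_)
  · have := pow_le_one₀ hp hp1 (n := (T j).card)
    linarith
  · have := pow_le_pow_of_le_one hp hp1 (hr j hj)
    linarith

theorem ber_card31 {E : Type} [Fintype E] [DecidableEq E] (p : ℝ) :
    Ber (fun _ : E => p) (fun A => (A.card : ℝ)) = p * Fintype.card E := by
  classical
  have h1 : ∀ A : Finset E, (A.card : ℝ)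
      = ∑ e ∈ (univ : Finset E), (if {e} ⊆ A ∧ Disjoint A ∅ then (1 : ℝ) else 0) := by
    intro A
    rw [Finset.sum_boole]
    congr 2
    ext e
    simp
  simp only [h1]
  rw [ber_sum]
  have h2 : ∀ e ∈ (univ : Finset E),
      Ber (fun _ : E => p) (fun A => if {e} ⊆ A ∧ Disjoint A ∅ then (1 : ℝ) else 0) = p := by
    intro e _
    have := ber_disj_mem (fun _ : E => p) {e} ∅ (Finset.disjoint_empty_right _)
    rw [Finset.prod_singleton, Finset.prod_empty, mul_one] at this
    exact this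
  rw [Finset.sum_congr rfl h2, Finset.sum_const, nsmul_eq_mul, mul_comm]
  rfl

theorem small31 (β : ℝ) (hβ : 0 < β) : ∃ n₁ : ℕ, ∀ n : ℕ, n₁ ≤ n →
    (n : ℝ) ^ 4 * Real.exp (-(β * n)) < 1 / 2 := by
  have h1 := Real.tendsto_pow_mul_exp_neg_atTop_nhds_zero 4
  have h2 : Filter.Tendsto (fun n : ℕ => β * (n : ℝ)) Filter.atTop Filter.atTop :=
    tendsto_natCast_atTop_atTop.const_mul_atTop hβ
  have h3 := h1.comp h2
  have h4 : 0 < β ^ 4 / 2 := by positivity
  have h5 := h3.eventually (gt_mem_nhds h4)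
  obtain ⟨n₁, hn₁⟩ := Filter.eventually_atTop.1 h5
  refine ⟨n₁, fun n hn => ?_⟩
  have h6 := hn₁ n hn
  simp only [Function.comp_apply] at h6
  have h7 : (β * (n : ℝ)) ^ 4 * Real.exp (-(β * n)) = β ^ 4 * ((n : ℝ) ^ 4 * Real.exp (-(β * n))) := by
    ring
  rw [h7] at h6
  have h8 : β ^ 4 / 2 = β ^ 4 * (1 / 2) := by ring
  rw [h8] at h6
  exact lt_of_mul_lt_mul_left h6 (by positivity)

theorem choose_set (r : ℕ) (c φ : ℝ) (hc : 0 < c) (hφ : 0 < φ) :
    ∃ ρ : ℝ, 0 < ρ ∧ ∃ n₀ : ℕ, ∀ (n : ℕ) (G : Finset ℕ) (ι : Type) [Fintype ι]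
      (J : ι → Finset ℕ) (S : ι → ℕ → Finset ℕ), n₀ ≤ n → G.card ≤ 2 * n →
      (Fintype.card ι : ℝ) ≤ (n : ℝ) ^ 4 → (∀ i, c * n ≤ ((J i).card : ℝ)) →
      (∀ i, ∀ j ∈ J i, S i j ⊆ G ∧ (S i j).card ≤ r) →
      (∀ i, ∀ t, ((J i).filter fun j => t ∈ S i j).card ≤ r) →
      ∃ F ⊆ G, (F.card : ℝ) ≤ φ * n ∧ ∀ i, ρ * n ≤ (((J i).filter fun j => S i j ⊆ F).card : ℝ) := by
  classical
  set p : ℝ := min 1 (φ / 8) with hpdef
  have hp0 : 0 < p := lt_min one_pos (by positivity)
  have hp1 : p ≤ 1 := min_le_left _ _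
  have hp8 : p ≤ φ / 8 := min_le_right _ _
  set β : ℝ := p ^ r * c / (2 * ((r : ℝ) * r + 1)) with hβdef
  have hr0 : (0 : ℝ) < (r : ℝ) * r + 1 := by positivity
  have hβ : 0 < β := by positivity
  obtain ⟨n₁, hn₁⟩ := small31 (β / 2) (by positivity)
  refine ⟨β / 2, by positivity, max n₁ 1, ?_⟩
  intro n G ι _ J S hn hG hι hJ hS hm
  have hnn : n₁ ≤ n := (le_max_left _ _).trans hn
  have hn1 : 1 ≤ n := (le_max_right _ _).trans hn
  have hn0 : (0 : ℝ) < n := by exact_mod_cast hn1
  have hJ' : ∀ i, ∃ J' ⊆ J i, (∀ a ∈ J', ∀ b ∈ J', a ≠ b → Disjoint (S i a) (S i b)) ∧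
      (J i).card ≤ (r * r + 1) * J'.card :=
    fun i => disj_sub31 r (J i) (S i) (fun j hj => (hS i j hj).2) (hm i)
  choose J' hJs hJd hJc using hJ'
  set T : ι → ℕ → Finset {x // x ∈ G} := fun i j => (univ : Finset {x // x ∈ G}).filter fun e => e.1 ∈ S i j
    with hT
  have hTc : ∀ i, ∀ j ∈ J i, (T i j).card ≤ r := by
    intro i j hj
    refine le_trans ?_ (hS i j hj).2
    have : ((T i j).map (Function.Embedding.subtype _)) ⊆ S i j := by
      intro x hx
      rw [Finset.mem_map] at hx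
      obtain ⟨e, he, rfl⟩ := hx
      simp only [hT, Finset.mem_filter, Finset.mem_univ, true_and] at he
      exact he
    have := Finset.card_le_card this
    rwa [Finset.card_map] at this
  have hTd : ∀ i, ∀ a ∈ J' i, ∀ b ∈ J' i, a ≠ b → Disjoint (T i a) (T i b) := by
    intro i a ha b hb hab
    rw [Finset.disjoint_left]
    intro e h1 h2
    simp only [hT, Finset.mem_filter, Finset.mem_univ, true_and] at h1 h2
    exact Finset.disjoint_left.1 (hJd i a ha b hb hab) h1 h2
  set N : ι → Finset {x // x ∈ G} → ℕ := fun i A => ((J' i).filter fun j => T i j ⊆ A).card with hN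
  set B : Finset {x // x ∈ G} → ℝ := fun A => (1 / (φ * n)) * (A.card : ℝ)
    + ∑ i ∈ (univ : Finset ι), Real.exp (β / 2 * n) * (1 / 2 : ℝ) ^ N i A with hB
  have hEB : Ber (fun _ : {x // x ∈ G} => p) B < 1 := by
    have e1 : Ber (fun _ : {x // x ∈ G} => p) B = (1 / (φ * n)) * (p * Fintype.card {x // x ∈ G})
        + ∑ i ∈ (univ : Finset ι), Real.exp (β / 2 * n) *
          Ber (fun _ : {x // x ∈ G} => p) (fun A => (1 / 2 : ℝ) ^ N i A) := by
      rw [hB, ber_add, ber_mul, ber_sum, ber_card31]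
      simp only [ber_mul]
    rw [e1]
    have e2 : (1 / (φ * n)) * (p * Fintype.card {x // x ∈ G}) ≤ 1 / 4 := by
      rw [Fintype.card_coe]
      have h1 : (G.card : ℝ) ≤ 2 * n := by exact_mod_cast hG
      have h2 : p * (G.card : ℝ) ≤ φ / 8 * (2 * n) :=
        mul_le_mul hp8 h1 (Nat.cast_nonneg _) (by positivity)
      rw [one_div, inv_mul_le_iff₀ (by positivity)]
      linarith
    have e3 : ∀ i ∈ (univ : Finset ι), Real.exp (β / 2 * n) *
          Ber (fun _ : {x // x ∈ G} => p) (fun A => (1 / 2 : ℝ) ^ N i A)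
        ≤ Real.exp (-(β / 2 * n)) := by
      intro i _
      have h1 := ber_half31 hp0.le hp1 (J' i) (T i) r (hTd i) (fun j hj => hTc i j (hJs i hj))
      have h2 : (1 - p ^ r / 2) ^ (J' i).card ≤ Real.exp (-(β * n)) := by
        have hpr : p ^ r ≤ 1 := pow_le_one₀ hp0.le hp1
        have hpr0 : 0 < p ^ r := pow_pos hp0 r
        have h3 : 1 - p ^ r / 2 ≤ Real.exp (-(p ^ r / 2)) := by
          have := Real.add_one_le_exp (-(p ^ r / 2))
          linarith
        refine (pow_le_pow_left₀ (by linarith) h3 _).trans ?_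
        rw [← Real.exp_nat_mul]
        refine Real.exp_le_exp.2 ?_
        have h4 : c * n ≤ ((r : ℝ) * r + 1) * (J' i).card := by
          refine (hJ i).trans ?_
          exact_mod_cast hJc i
        have h5 : β * n ≤ ((J' i).card : ℝ) * (p ^ r / 2) := by
          rw [hβdef, div_mul_eq_mul_div, div_le_iff₀ (by positivity)]
          nlinarith
        linarith
      calc Real.exp (β / 2 * n) * Ber (fun _ : {x // x ∈ G} => p) (fun A => (1 / 2 : ℝ) ^ N i A)
          ≤ Real.exp (β / 2 * n) * Real.exp (-(β * n)) :=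
            mul_le_mul_of_nonneg_left (h1.trans h2) (Real.exp_pos _).le
        _ = Real.exp (-(β / 2 * n)) := by
            rw [← Real.exp_add]
            congr 1
            ring
    have e4 := Finset.sum_le_sum e3
    rw [Finset.sum_const, nsmul_eq_mul, Finset.card_univ] at e4
    have e5 : (Fintype.card ι : ℝ) * Real.exp (-(β / 2 * n)) ≤ (n : ℝ) ^ 4 * Real.exp (-(β / 2 * n)) :=
      mul_le_mul_of_nonneg_right hι (Real.exp_pos _).le
    have e6 := hn₁ n hnn
    linarith
  obtain ⟨A, hA⟩ := ber_exists (fun _ : {x // x ∈ G} => p) (fun _ => ⟨hp0.le, hp1⟩) (fun A => (-1) * B A)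
  rw [ber_mul] at hA
  have hBA : B A < 1 := by linarith
  have hsum0 : 0 ≤ ∑ i ∈ (univ : Finset ι), Real.exp (β / 2 * n) * (1 / 2 : ℝ) ^ N i A :=
    Finset.sum_nonneg fun i _ => by positivity
  refine ⟨A.map (Function.Embedding.subtype _), ?_, ?_, ?_⟩
  · intro x hx
    rw [Finset.mem_map] at hx
    obtain ⟨e, _, rfl⟩ := hx
    exact e.2
  · rw [Finset.card_map]
    have h1 : (1 / (φ * n)) * (A.card : ℝ) < 1 := by
      have : B A = (1 / (φ * n)) * (A.card : ℝ)
        + ∑ i ∈ (univ : Finset ι), Real.exp (β / 2 * n) * (1 / 2 : ℝ) ^ N i A := rfl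
      linarith
    rw [one_div, inv_mul_lt_iff₀ (by positivity)] at h1
    linarith
  · intro i
    have h1 : Real.exp (β / 2 * n) * (1 / 2 : ℝ) ^ N i A < 1 := by
      have h2 : B A = (1 / (φ * n)) * (A.card : ℝ)
        + ∑ i ∈ (univ : Finset ι), Real.exp (β / 2 * n) * (1 / 2 : ℝ) ^ N i A := rfl
      have h3 : 0 ≤ (1 / (φ * n)) * (A.card : ℝ) := by positivity
      have h4 : Real.exp (β / 2 * n) * (1 / 2 : ℝ) ^ N i A
          ≤ ∑ i ∈ (univ : Finset ι), Real.exp (β / 2 * n) * (1 / 2 : ℝ) ^ N i A :=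
        Finset.single_le_sum (f := fun i => Real.exp (β / 2 * n) * (1 / 2 : ℝ) ^ N i A)
          (fun i _ => by positivity) (Finset.mem_univ i)
      linarith
    have h2 : Real.exp (-(N i A : ℝ)) ≤ (1 / 2 : ℝ) ^ N i A := by
      have h3 : Real.exp (-1) ≤ 1 / 2 := by
        rw [Real.exp_neg, inv_eq_one_div]
        refine one_div_le_one_div_of_le two_pos ?_
        have := Real.add_one_le_exp 1
        linarith
      calc Real.exp (-(N i A : ℝ)) = Real.exp (-1) ^ N i A := by
            rw [← Real.exp_nat_mul]; congr 1; ring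
        _ ≤ (1 / 2 : ℝ) ^ N i A := pow_le_pow_left₀ (Real.exp_pos _).le h3 _
    have h3 : Real.exp (β / 2 * n) * Real.exp (-(N i A : ℝ)) < Real.exp 0 := by
      rw [Real.exp_zero]
      exact lt_of_le_of_lt (mul_le_mul_of_nonneg_left h2 (Real.exp_pos _).le) h1
    rw [← Real.exp_add] at h3
    have h4 := Real.exp_lt_exp.1 h3
    have h5 : N i A ≤ ((J i).filter fun j => S i j ⊆ A.map (Function.Embedding.subtype _)).card := by
      refine Finset.card_le_card ?_
      intro j hj
      rw [Finset.mem_filter] at hj ⊢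
      refine ⟨hJs i hj.1, ?_⟩
      intro x hx
      have hxG : x ∈ G := (hS i j (hJs i hj.1)).1 hx
      rw [Finset.mem_map]
      refine ⟨⟨x, hxG⟩, hj.2 ?_, rfl⟩
      simp only [hT, Finset.mem_filter, Finset.mem_univ, true_and]
      exact hx
    have h6 : (N i A : ℝ) ≤ (((J i).filter fun j => S i j ⊆ A.map (Function.Embedding.subtype _)).card : ℝ) := by
      exact_mod_cast h5
    linarith

end Pool.Agent.SQ
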