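import Pool.Agent.Helper73.SEM.LWD

/-!
# Project SQ (MP_b2273a_co): 1-sequentially additive trees, definitions

The tree is a parent function `p` on `0..n-1` (`Par`), the edge `(i, p i)` has index `i`.  All vertex labels and all sums must be different and
lie in `[1, 2n-1]`.
-/

set_option autoImplicit false

namespace Pool.Agent.SQ

open Finset Pool.Agent.SEM

/-- edges inside `L` -/
def Ed (p : ℕ → ℕ) (L : Finset ℕ) : Finset ℕ := L.filter fun i => 0 < i ∧ p i ∈ L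

/-- the values used: labels of `A` and sums of the edges `B` -/
def vs (p f : ℕ → ℕ) (A B : Finset ℕ) : Finset ℕ := A.image f ∪ B.image fun i => f i + f (p i)

/-- all labels of `A` and all sums of the edges `B` are different -/
structure Emb (p f : ℕ → ℕ) (A B : Finset ℕ) : Prop where
  lab : Set.InjOn f A
  sum : Set.InjOn (fun i => f i + f (p i)) B
  ne : ∀ a ∈ A, ∀ b ∈ B, f a ≠ f b + f (p b)

/-- `1`-sequentially additive numbering of the tree `p` -/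
def IsSQ (n : ℕ) (p : ℕ → ℕ) : Prop :=
  ∃ f : ℕ → ℕ, Emb p f (range n) (Ico 1 n) ∧ vs p f (range n) (Ico 1 n) ⊆ Icc 1 (2 * n - 1)

/-- neighbours of `v` (used for `0 < v`) -/
def nb (n : ℕ) (p : ℕ → ℕ) (v : ℕ) : Finset ℕ := insert (p v) (chl n p v)

/-- the neighbours of `w` in `A` -/
def Ad (p : ℕ → ℕ) (A : Finset ℕ) (w : ℕ) : Finset ℕ :=
  A.filter fun u => (0 < w ∧ u = p w) ∨ (0 < u ∧ p u = w)

/-- degree of `v` -/
def dg (n : ℕ) (p : ℕ → ℕ) (v : ℕ) : ℕ := (chl n p v).card + if v = 0 then 0 else 1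

/-- decomposition of the tree.  `R`: separating set with pieces of size `≤ K` (`Dec`); `Sp ⊆ R`: special vertices (`e` children, `e = 0` or `1`) whose neighbours
(called legs) are in `R`, of degree at most `D + 1`, private, and adjacent (except for the special vertex) only to
`A = R \ (Sp ∪ legs ∪ X)`; `X`: at most one adjusting vertex, all neighbours in `A`; the pieces are adjacent only to `A`. -/
structure TDec (n : ℕ) (p : ℕ → ℕ) (e D K : ℕ) (R Sp X A : Finset ℕ) (top : ℕ → ℕ) : Prop where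
  dec : Dec n p K R top
  spR : Sp ⊆ R
  XR : X ⊆ R
  Aeq : A = R \ (Sp ∪ Sp.biUnion (nb n p) ∪ X)
  sp_pos : ∀ v ∈ Sp, 0 < v
  sp_chl : ∀ v ∈ Sp, (chl n p v).card = e
  leg_in : ∀ v ∈ Sp, ∀ w ∈ nb n p v, w ∈ R ∧ w ∉ Sp ∧ w ∉ X ∧ (chl n p w).card ≤ D
  leg_dj : ∀ v ∈ Sp, ∀ v' ∈ Sp, v ≠ v' → Disjoint (nb n p v) (nb n p v')
  leg_par : ∀ v ∈ Sp, ∀ w ∈ nb n p v, 0 < w → p w = v ∨ p w ∈ A
  leg_chl : ∀ v ∈ Sp, ∀ w ∈ nb n p v, ∀ u ∈ chl n p w, u = v ∨ u ∈ A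
  XSp : Disjoint X Sp
  X_one : X.card ≤ 1
  X_deg : ∀ x ∈ X, (chl n p x).card ≤ D
  X_par : ∀ x ∈ X, 0 < x → p x ∈ A
  X_chl : ∀ x ∈ X, chl n p x ⊆ A
  pc_par : ∀ v, v < n → v ∉ R → p v ∈ R → p v ∈ A
  pc_ex : ∀ r ∈ R, 0 < r → p r ∉ R → r ∈ A

/-- flexible vertices: `e` children, no neighbour in `R` or in `Fl` -/
structure Flx (n : ℕ) (p : ℕ → ℕ) (e : ℕ) (R Fl : Finset ℕ) : Prop where
  lt : ∀ v ∈ Fl, v < n
  nR : ∀ v ∈ Fl, v ∉ R
  ch : ∀ v ∈ Fl, (chl n p v).card = e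
  pR : ∀ v ∈ Fl, p v ∉ R
  pF : ∀ v ∈ Fl, p v ∉ Fl
  cR : ∀ v ∈ Fl, ∀ w ∈ chl n p v, w ∉ R ∧ w ∉ Fl

/-- values used when the leg `w` gets the label `x w` (`Q w` = labels of the fixed neighbours of `w`) -/
def cst (Q : ℕ → Finset ℕ) (x : ℕ → ℕ) (w : ℕ) : Finset ℕ := insert (x w) ((Q w).image fun q => x w + q)

/-- values used by the unit `v` with legs `Lg v` when `v` gets the label `y` -/
def un (Lg : ℕ → Finset ℕ) (x : ℕ → ℕ) (v y : ℕ) : Finset ℕ := insert y ((Lg v).image fun w => y + x w)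

/-- the units `S` with the labels `y` cover exactly the set `T` -/
def Cov (Lg : ℕ → Finset ℕ) (x y : ℕ → ℕ) (S T : Finset ℕ) : Prop :=
  (∀ v ∈ S, ∀ v' ∈ S, v ≠ v' → Disjoint (un Lg x v (y v)) (un Lg x v' (y v'))) ∧
    (S.biUnion fun v => un Lg x v (y v)) = T

/-- system of units: pairwise disjoint sets of legs with `d` elements, at most `D + 1` small offsets per leg -/
structure Unit (n d D : ℕ) (S : Finset ℕ) (Lg Q : ℕ → Finset ℕ) : Prop where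
  card : ∀ v ∈ S, (Lg v).card = d
  dj : ∀ v ∈ S, ∀ v' ∈ S, v ≠ v' → Disjoint (Lg v) (Lg v')
  Qc : ∀ v ∈ S, ∀ w ∈ Lg v, (Q w).card ≤ D + 1
  Qs : ∀ v ∈ S, ∀ w ∈ Lg v, ∀ q ∈ Q w, 1 ≤ q ∧ 16 * q ≤ n

/-- the legs of the units in `S` are labelled, with pairwise disjoint costs in `(n/8, 2n-1]`, outside `Z` -/
structure Lgd (n : ℕ) (S Z : Finset ℕ) (Lg Q : ℕ → Finset ℕ) (x : ℕ → ℕ) : Prop where
  hi : ∀ v ∈ S, ∀ w ∈ Lg v, ∀ t ∈ cst Q x w, n < 8 * t ∧ t ≤ 2 * n - 1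
  av : ∀ v ∈ S, ∀ w ∈ Lg v, Disjoint (cst Q x w) Z
  dj : ∀ w ∈ S.biUnion Lg, ∀ w' ∈ S.biUnion Lg, w ≠ w' → Disjoint (cst Q x w) (cst Q x w')

end Pool.Agent.SQ
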