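import Pool.Agent.Helper73.SQ.LED

/-!
# SQ-FA: adding the flexible vertices to a random labelling

Proof in words.  Induction on `F` (see SEM.LW2 `flex_law`): add one flexible vertex `v`: `Ω' = Ω × {y // y ∈ Y}`, `wt' (ω,y) = wt ω * q (Φ ω (p v)) (cw e u (Φ ω) v) y`,
`Φ'` = update at `v`.  The neighbours `p v`, `u v` of `v` are in `P \ F`, where the labels do not change any more, so all the factors can be treated
independently.  Sums: `(i, p i)` with `p i ∉ F`, `i ∉ F`: by `hsm`; `i = v ∈ F`: `x + y ∈ U`; `p i = v ∈ F` (then `e = 1`, `i = u v` by `chu`): `w + y ∈ U` (`hqs`).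
Joint bound: `A = A1 ∪ A2`, `A2 = A ∩ F`: given the labels on `P \ F`, each label on `A2` has probability at most `M / n`.
-/

set_option autoImplicit false

namespace Pool.Agent.SQ

open Finset Pool.Agent.SEM

/-- random labelling of the piece `P` (labels `lab` elsewhere) with labels in `Y`, sums in `U` on the edges `(i, p i)`, `i ∈ P ∪ ex` -/
structure PLs (n : ℕ) (p lab : ℕ → ℕ) (Y U P ex : Finset ℕ) (B : ℝ) (L : FL) : Prop where
  nn : ∀ ω, 0 ≤ L.wt ω
  one : L.Ex (fun _ => 1) = 1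
  off : ∀ ω, ∀ v, v ∉ P → L.Φ ω v = lab v
  lbl : ∀ ω, L.wt ω ≠ 0 → ∀ v ∈ P, L.Φ ω v ∈ Y
  sm : ∀ ω, L.wt ω ≠ 0 → ∀ i ∈ P ∪ ex, L.Φ ω i + L.Φ ω (p i) ∈ U
  joint : ∀ A ⊆ P, ∀ x : ℕ → ℕ, L.Pr (fun φ => ∀ v ∈ A, φ v = x v) ≤ (B / n) ^ A.card

/-- one more flexible vertex -/
theorem flex_step71 {n : ℕ} {Y : Finset ℕ} (v a : ℕ) (c : (ℕ → ℕ) → ℕ) (hav : a ≠ v)
    (hc : ∀ (φ : ℕ → ℕ) (y : ℕ), c (Function.update φ v y) = c φ) (M : ℝ) (hM : 0 ≤ M)
    (L1 : FL) (hnn : ∀ ω, 0 ≤ L1.wt ω) (q : ℕ → ℕ → ℕ → ℝ) (hq0 : ∀ x w y, 0 ≤ q x w y)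
    (hq1 : ∀ ω, L1.wt ω ≠ 0 → ∑ y ∈ Y, q (L1.Φ ω a) (c (L1.Φ ω)) y = 1)
    (hqM : ∀ ω, L1.wt ω ≠ 0 → ∀ y, q (L1.Φ ω a) (c (L1.Φ ω)) y ≤ M / n) :
    ∃ L : FL, (∀ ω, 0 ≤ L.wt ω) ∧
      (∀ ω, ∃ ω0, (L.wt ω ≠ 0 → L1.wt ω0 ≠ 0) ∧ (∀ i, i ≠ v → L.Φ ω i = L1.Φ ω0 i) ∧
        (L.wt ω ≠ 0 → q (L.Φ ω a) (c (L.Φ ω)) (L.Φ ω v) ≠ 0)) ∧
      (∀ f : (ℕ → ℕ) → ℝ, (∀ (φ : ℕ → ℕ) (y : ℕ), f (Function.update φ v y) = f φ) →
        L.Ex f = L1.Ex f) ∧
      (∀ f : ℕ → ℕ → ℕ → ℝ, L.Ex (fun φ => f (φ a) (c φ) (φ v)) =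
          L1.Ex (fun φ => ∑ y ∈ Y, q (φ a) (c φ) y * f (φ a) (c φ) y)) ∧
      (∀ A : Finset ℕ, v ∈ A → ∀ x : ℕ → ℕ, L.Pr (fun φ => ∀ i ∈ A, φ i = x i) ≤
        L1.Pr (fun φ => ∀ i ∈ A.erase v, φ i = x i) * (M / n)) := by
  let _ := L1.fin
  let L' : FL :=
    { Ω := L1.Ω × {y // y ∈ Y}
      fin := inferInstance
      wt := fun z => L1.wt z.1 * q (L1.Φ z.1 a) (c (L1.Φ z.1)) z.2
      Φ := fun z => Function.update (L1.Φ z.1) v z.2 }
  have key : ∀ g : (ℕ → ℕ) → ℝ, L'.Ex g = ∑ ω : L1.Ω, L1.wt ω * ∑ y ∈ Y,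
      q (L1.Φ ω a) (c (L1.Φ ω)) y * g (Function.update (L1.Φ ω) v y) := by
    intro g
    change ∑ z : L1.Ω × {y // y ∈ Y}, L1.wt z.1 * q (L1.Φ z.1 a) (c (L1.Φ z.1)) z.2 *
      g (Function.update (L1.Φ z.1) v z.2) = _
    rw [Fintype.sum_prod_type]
    apply Finset.sum_congr rfl
    intro ω _
    rw [← Finset.sum_coe_sort Y, Finset.mul_sum]
    apply Finset.sum_congr rfl
    intro y _
    ring
  refine ⟨L', ?_, ?_, ?_, ?_, ?_⟩
  · rintro ⟨ω, y⟩
    exact mul_nonneg (hnn ω) (hq0 _ _ _)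
  · rintro ⟨ω, y⟩
    refine ⟨ω, fun h => left_ne_zero_of_mul h, fun i hi => ?_, fun h => ?_⟩
    · change Function.update (L1.Φ ω) v y i = _
      rw [Function.update_of_ne hi]
    · change q (Function.update (L1.Φ ω) v y a) (c (Function.update (L1.Φ ω) v y))
        (Function.update (L1.Φ ω) v y v) ≠ 0
      rw [Function.update_of_ne hav, hc, Function.update_self]
      exact right_ne_zero_of_mul h
  · intro f hf
    rw [key]
    unfold FL.Ex
    apply Finset.sum_congr rfl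
    intro ω _
    by_cases hω : L1.wt ω = 0
    · rw [hω, zero_mul, zero_mul]
    · congr 1
      simp only [hf]
      rw [← Finset.sum_mul, hq1 ω hω, one_mul]
  · intro f
    rw [key]
    unfold FL.Ex
    apply Finset.sum_congr rfl
    intro ω _
    congr 1
    apply Finset.sum_congr rfl
    intro y _
    rw [Function.update_of_ne hav, hc, Function.update_self]
  · intro A hvA x
    have hcond : ∀ (φ : ℕ → ℕ) (y : ℕ), (∀ i ∈ A, Function.update φ v y i = x i) ↔
        ((∀ i ∈ A.erase v, φ i = x i) ∧ y = x v) := by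
      intro φ y
      constructor
      · intro h
        refine ⟨fun i hi => ?_, ?_⟩
        · rw [Finset.mem_erase] at hi
          rw [← h i hi.2, Function.update_of_ne hi.1]
        · rw [← h v hvA, Function.update_self]
      · rintro ⟨h1, h2⟩ i hi
        by_cases hiv : i = v
        · rw [hiv, Function.update_self, h2]
        · rw [Function.update_of_ne hiv]
          exact h1 i (Finset.mem_erase.2 ⟨hiv, hi⟩)
    unfold FL.Pr
    rw [key]
    unfold FL.Ex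
    rw [Finset.sum_mul]
    apply Finset.sum_le_sum
    intro ω _
    by_cases hω : L1.wt ω = 0
    · rw [hω]
      simp
    · rw [mul_assoc]
      apply mul_le_mul_of_nonneg_left _ (hnn ω)
      beta_reduce
      by_cases h9 : ∀ i ∈ A.erase v, L1.Φ ω i = x i
      · rw [if_pos h9, one_mul]
        calc _ ≤ ∑ y ∈ Y, (if y = x v then M / (n : ℝ) else 0) := by
              apply Finset.sum_le_sum
              intro y _
              by_cases h10 : y = x v
              · rw [if_pos ((hcond _ _).2 ⟨h9, h10⟩), if_pos h10, mul_one]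
                exact hqM ω hω y
              · rw [if_neg (fun h => h10 ((hcond _ _).1 h).2), if_neg h10, mul_zero]
          _ ≤ M / n := by
              rw [Finset.sum_ite_eq']
              split_ifs
              · exact le_rfl
              · positivity
      · rw [if_neg h9, zero_mul]
        apply le_of_eq
        apply Finset.sum_eq_zero
        intro y _
        rw [if_neg (fun h => h9 ((hcond _ _).1 h).1), mul_zero]

theorem flex_add {n : ℕ} {U Y : Finset ℕ} (p lab u : ℕ → ℕ) (e : ℕ) (R P ex F : Finset ℕ)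
    (τ : ℕ) (hn : 1 ≤ n) (hG : Geo p R P ex τ) (hF : FlP p u e P ex F τ) (B M : ℝ) (hB : 0 ≤ B)
    (hM : B ≤ M) (L0 : FL) (hnn : ∀ ω, 0 ≤ L0.wt ω) (hone : L0.Ex (fun _ => 1) = 1)
    (hoff : ∀ ω, ∀ v, v ∉ P \ F → L0.Φ ω v = lab v)
    (hlbl : ∀ ω, L0.wt ω ≠ 0 → ∀ v ∈ P \ F, L0.Φ ω v ∈ Y)
    (hsm : ∀ ω, L0.wt ω ≠ 0 → ∀ i ∈ (P \ F) ∪ ex, p i ∉ F → L0.Φ ω i + L0.Φ ω (p i) ∈ U)
    (hjoint : ∀ A ⊆ P \ F, ∀ x : ℕ → ℕ, L0.Pr (fun φ => ∀ v ∈ A, φ v = x v) ≤ (B / n) ^ A.card)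
    (q : ℕ → ℕ → ℕ → ℝ) (hq0 : ∀ x w y, 0 ≤ q x w y)
    (hq1 : ∀ ω, L0.wt ω ≠ 0 → ∀ v ∈ F,
      ∑ y ∈ Y, q (L0.Φ ω (p v)) (cw e u (L0.Φ ω) v) y = 1)
    (hqs : ∀ x w y, q x w y ≠ 0 → y ∈ Y ∧ x + y ∈ U ∧ (e = 1 → w + y ∈ U))
    (hqM : ∀ ω, L0.wt ω ≠ 0 → ∀ v ∈ F, ∀ y, q (L0.Φ ω (p v)) (cw e u (L0.Φ ω) v) y ≤ M / n) :
    ∃ L : FL, PLs n p lab Y U P ex M L ∧
      (∀ f : (ℕ → ℕ) → ℝ, (∀ φ ψ : ℕ → ℕ, (∀ i, i ∉ F → φ i = ψ i) → f φ = f ψ) →
        L.Ex f = L0.Ex f) ∧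
      (∀ v ∈ F, ∀ f : ℕ → ℕ → ℕ → ℝ,
        L.Ex (fun φ => f (φ (p v)) (cw e u φ v) (φ v)) =
          L0.Ex (fun φ => ∑ y ∈ Y, q (φ (p v)) (cw e u φ v) y * f (φ (p v)) (cw e u φ v) y)) := by
  have hM0 : 0 ≤ M := hB.trans hM
  have hn0 : (0 : ℝ) < n := by exact_mod_cast hn
  have hFP : F ⊆ P := hF.sub
  have hpF : ∀ v ∈ F, p v ∉ F := hF.par
  have huF : ∀ v ∈ F, e ≠ 0 → u v ∉ F := by
    intro v hv he
    have he1 : e = 1 := by have := hF.e1; omega
    exact (hF.ch1 he1 v hv).2.1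
  have hcw : ∀ v ∈ F, ∀ φ ψ : ℕ → ℕ, (∀ i, i ∉ F → φ i = ψ i) → cw e u φ v = cw e u ψ v := by
    intro v hv φ ψ h
    unfold cw
    split_ifs with he
    · rfl
    · exact h _ (huF v hv he)
  have main : ∀ F' : Finset ℕ, F' ⊆ F → ∃ L : FL, (∀ ω, 0 ≤ L.wt ω) ∧
      (∀ ω, ∃ ω0, (L.wt ω ≠ 0 → L0.wt ω0 ≠ 0) ∧ (∀ i, i ∉ F' → L.Φ ω i = L0.Φ ω0 i)) ∧
      (∀ ω, L.wt ω ≠ 0 → ∀ v ∈ F', q (L.Φ ω (p v)) (cw e u (L.Φ ω) v) (L.Φ ω v) ≠ 0) ∧
      (∀ f : (ℕ → ℕ) → ℝ, (∀ φ ψ : ℕ → ℕ, (∀ i, i ∉ F' → φ i = ψ i) → f φ = f ψ) →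
        L.Ex f = L0.Ex f) ∧
      (∀ v ∈ F', ∀ f : ℕ → ℕ → ℕ → ℝ,
        L.Ex (fun φ => f (φ (p v)) (cw e u φ v) (φ v)) =
          L0.Ex (fun φ => ∑ y ∈ Y, q (φ (p v)) (cw e u φ v) y * f (φ (p v)) (cw e u φ v) y)) ∧
      (∀ A ⊆ (P \ F) ∪ F', ∀ x : ℕ → ℕ,
        L.Pr (fun φ => ∀ v ∈ A, φ v = x v) ≤ (M / n) ^ A.card) := by
    intro F'
    induction F' using Finset.induction_on with
    | empty =>
      intro _
      refine ⟨L0, hnn, fun ω => ⟨ω, fun h => h, fun i _ => rfl⟩, fun ω _ v hv => ?_,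
        fun f _ => rfl, fun v hv => ?_, fun A hA x => ?_⟩
      · exact absurd hv (Finset.notMem_empty v)
      · exact absurd hv (Finset.notMem_empty v)
      · rw [Finset.union_empty] at hA
        refine (hjoint A hA x).trans ?_
        gcongr
    | insert v F' hvF' ih =>
      intro hsub
      have hvF : v ∈ F := hsub (Finset.mem_insert_self v F')
      have hF'F : F' ⊆ F := fun i hi => hsub (Finset.mem_insert_of_mem hi)
      obtain ⟨L1, a1, a2, a3, a4, a5, a6⟩ := ih hF'F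
      have hpv : p v ≠ v := fun h => hpF v hvF (h.symm ▸ hvF)
      have hc : ∀ (w : ℕ), w ∈ F → ∀ (φ : ℕ → ℕ) (y : ℕ),
          cw e u (Function.update φ v y) w = cw e u φ w := by
        intro w hw φ y
        apply hcw w hw
        intro i hi
        have h1 : i ≠ v := fun h => hi (h ▸ hvF)
        exact Function.update_of_ne h1 _ _
      have hL0 : ∀ ω, ∃ ω0, (L1.wt ω ≠ 0 → L0.wt ω0 ≠ 0) ∧ L1.Φ ω (p v) = L0.Φ ω0 (p v) ∧
          cw e u (L1.Φ ω) v = cw e u (L0.Φ ω0) v := by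
        intro ω
        obtain ⟨ω0, b1, b2⟩ := a2 ω
        exact ⟨ω0, b1, b2 _ (fun h => hpF v hvF (hF'F h)),
          hcw v hvF _ _ fun i hi => b2 i (fun h => hi (hF'F h))⟩
      obtain ⟨L, c1, c2, c3, c4, c5⟩ := flex_step71 (n := n) (Y := Y) v (p v)
        (fun φ => cw e u φ v) hpv (hc v hvF) M hM0 L1 a1 q hq0
        (by
          intro ω hω
          obtain ⟨ω0, b1, b2, b3⟩ := hL0 ω
          rw [b2, b3]
          exact hq1 ω0 (b1 hω) v hvF)
        (by
          intro ω hω y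
          obtain ⟨ω0, b1, b2, b3⟩ := hL0 ω
          rw [b2, b3]
          exact hqM ω0 (b1 hω) v hvF y)
      refine ⟨L, c1, ?_, ?_, ?_, ?_, ?_⟩
      · intro ω
        obtain ⟨ω1, d1, d2, -⟩ := c2 ω
        obtain ⟨ω0, b1, b2⟩ := a2 ω1
        refine ⟨ω0, fun h => b1 (d1 h), fun i hi => ?_⟩
        rw [Finset.mem_insert, not_or] at hi
        rw [d2 i hi.1, b2 i hi.2]
      · intro ω hω w hw
        obtain ⟨ω1, d1, d2, d3⟩ := c2 ω
        rcases Finset.mem_insert.1 hw with rfl | hw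
        · exact d3 hω
        · have hwv : w ≠ v := fun h => hvF' (h ▸ hw)
          have hpw : p w ≠ v := fun h => hpF w (hF'F hw) (h ▸ hvF)
          have h1 : cw e u (L.Φ ω) w = cw e u (L1.Φ ω1) w :=
            hcw w (hF'F hw) _ _ fun i hi => d2 i (fun h => hi (h ▸ hvF))
          rw [d2 w hwv, d2 _ hpw, h1]
          exact a3 ω1 (d1 hω) w hw
      · intro f hf
        rw [c3 f (fun φ y => hf _ _ fun i hi => ?_)]
        · apply a4
          intro φ ψ h
          apply hf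
          intro i hi
          exact h i (fun h' => hi (Finset.mem_insert_of_mem h'))
        · have h1 : i ≠ v := fun h => hi (h ▸ Finset.mem_insert_self v F')
          exact Function.update_of_ne h1 _ _
      · intro w hw f
        rcases Finset.mem_insert.1 hw with rfl | hw
        · rw [c4 f]
          apply a4
          intro φ ψ h
          have h1 : φ (p w) = ψ (p w) := h _ (fun h' => hpF w hvF (hF'F h'))
          have h2 : cw e u φ w = cw e u ψ w :=
            hcw w hvF _ _ fun i hi => h i (fun h' => hi (hF'F h'))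
          rw [h1, h2]
        · rw [c3 _ (fun φ y => ?_)]
          · exact a5 w hw f
          · have hwv : w ≠ v := fun h => hvF' (h ▸ hw)
            have hpw : p w ≠ v := fun h => hpF w (hF'F hw) (h ▸ hvF)
            rw [Function.update_of_ne hwv, Function.update_of_ne hpw, hc w (hF'F hw)]
      · intro A hA x
        by_cases hvA : v ∈ A
        · refine (c5 A hvA x).trans ?_
          have h1 : A.erase v ⊆ (P \ F) ∪ F' := by
            intro i hi
            rw [Finset.mem_erase] at hi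
            rcases Finset.mem_union.1 (hA hi.2) with h | h
            · exact Finset.mem_union_left _ h
            · rcases Finset.mem_insert.1 h with h | h
              · exact absurd h hi.1
              · exact Finset.mem_union_right _ h
          have h2 := a6 _ h1 x
          rw [← Finset.card_erase_add_one hvA, pow_succ]
          exact mul_le_mul_of_nonneg_right h2 (by positivity)
        · have h1 : A ⊆ (P \ F) ∪ F' := by
            intro i hi
            rcases Finset.mem_union.1 (hA hi) with h | h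
            · exact Finset.mem_union_left _ h
            · rcases Finset.mem_insert.1 h with h | h
              · exact absurd (h ▸ hi) hvA
              · exact Finset.mem_union_right _ h
          refine le_trans (le_of_eq ?_) (a6 A h1 x)
          unfold FL.Pr
          apply c3
          intro φ y
          have h2 : (∀ i ∈ A, Function.update φ v y i = x i) ↔ ∀ i ∈ A, φ i = x i := by
            constructor
            · intro h i hi
              have h4 : i ≠ v := fun h' => hvA (h' ▸ hi)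
              rw [← h i hi, Function.update_of_ne h4]
            · intro h i hi
              have h4 : i ≠ v := fun h' => hvA (h' ▸ hi)
              rw [← h i hi, Function.update_of_ne h4]
          by_cases h3 : ∀ i ∈ A, φ i = x i
          · rw [if_pos h3, if_pos (h2.2 h3)]
          · rw [if_neg h3, if_neg (fun h => h3 (h2.1 h))]
  obtain ⟨L, a1, a2, a3, a4, a5, a6⟩ := main F (Finset.Subset.refl F)
  refine ⟨L, ⟨a1, ?_, ?_, ?_, ?_, ?_⟩, a4, a5⟩
  · rw [a4 _ (fun _ _ _ => rfl)]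
    exact hone
  · intro ω v hv
    obtain ⟨ω0, b1, b2⟩ := a2 ω
    rw [b2 v (fun h => hv (hFP h))]
    exact hoff ω0 v (fun h => hv (Finset.mem_sdiff.1 h).1)
  · intro ω hω v hv
    by_cases hvF : v ∈ F
    · exact (hqs _ _ _ (a3 ω hω v hvF)).1
    · obtain ⟨ω0, b1, b2⟩ := a2 ω
      rw [b2 v hvF]
      exact hlbl ω0 (b1 hω) v (Finset.mem_sdiff.2 ⟨hv, hvF⟩)
  · intro ω hω i hi
    by_cases hiF : i ∈ F
    · have := (hqs _ _ _ (a3 ω hω i hiF)).2.1
      rwa [add_comm] at this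
    by_cases hpi : p i ∈ F
    · have hiP : i ∈ P := by
        rcases Finset.mem_union.1 hi with h | h
        · exact h
        · exact absurd hpi (hF.exF i h)
      have he : e ≠ 0 := fun h => hF.ch0 h i hiP hpi
      have he1 : e = 1 := by have := hF.e1; omega
      have h1 := (hqs _ _ _ (a3 ω hω (p i) hpi)).2.2 he1
      unfold cw at h1
      rw [if_neg he, ← hF.chu i hiP hpi] at h1
      exact h1
    · obtain ⟨ω0, b1, b2⟩ := a2 ω
      rw [b2 i hiF, b2 _ hpi]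
      apply hsm ω0 (b1 hω) i _ hpi
      rcases Finset.mem_union.1 hi with h | h
      · exact Finset.mem_union_left _ (Finset.mem_sdiff.2 ⟨h, hiF⟩)
      · exact Finset.mem_union_right _ h
  · intro A hA x
    apply a6
    intro i hi
    by_cases hiF : i ∈ F
    · exact Finset.mem_union_right _ hiF
    · exact Finset.mem_union_left _ (Finset.mem_sdiff.2 ⟨hA hi, hiF⟩)

end Pool.Agent.SQ
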