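import Pool.Agent.Helper73.SQ.FED

/-!
# SQ-FE1: embedding the leftover pieces into the reservoir

Proof in words (adapt SEM.CD `embed_left`).  Label the vertices of `MV n R top Tl` in increasing order.  For `v`, the label `f (p v) ≤ n` is known (`p v ∈ A` or `p v` in the same
piece, with a label in `F`, `≤ 3n/4`); let `r` be the exit with `p r = v`, if there is one (`lab r ≤ n/16`).  Choose `c ∈ F`, `n/2 < c ≤ 3n/4`, with `c + f (p v) ∈ F`,
`c + lab r ∈ F` (`hF` with `j = f (p v)`, `j' = lab r` or `0`) such that `c`, `c + f (p v)`, `c + lab r` are different from all values used so far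
(each used value forbids at most three `c`, at most `3 * (|MV| + |EM|)` used values...; `hC` gives enough candidates).  The three values are different: labels are positive and
`f (p v) ≠ lab r` because `p v ∉ R` (`exit_deep`), so `f (p v) > n/2 > lab r`.  Every edge of `EM` is `i = v ∈ MV` or `i = r ∈ R` with `p r ∈ MV`.
-/

set_option autoImplicit false

namespace Pool.Agent.SQ

open Finset Pool.Agent.SEM

/-- the edges which are complete when the vertices `< m` are labelled -/
private def h32E (n : ℕ) (p : ℕ → ℕ) (R : Finset ℕ) (top : ℕ → ℕ) (T : Finset ℕ) (m : ℕ) :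
    Finset ℕ :=
  (EM n p R top T).filter fun i => (i ∉ R ∧ i < m) ∨ (i ∈ R ∧ p i < m)

/-- at most `3 |U|` candidates are forbidden -/
private theorem h32_pick (C U : Finset ℕ) (a b : ℕ) (h : 3 * U.card < C.card) :
    ∃ x ∈ C, x ∉ U ∧ x + a ∉ U ∧ x + b ∉ U := by
  by_contra hcon
  push Not at hcon
  have h1 : C ⊆ U ∪ ((C.filter fun x => x + a ∈ U) ∪ (C.filter fun x => x + b ∈ U)) := by
    intro x hx
    rw [mem_union, mem_union, mem_filter, mem_filter]
    by_cases h1 : x ∈ U
    · exact Or.inl h1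
    · by_cases h2 : x + a ∈ U
      · exact Or.inr (Or.inl ⟨hx, h2⟩)
      · exact Or.inr (Or.inr ⟨hx, hcon x hx h1 h2⟩)
  have h2 : ∀ c : ℕ, (C.filter fun x => x + c ∈ U).card ≤ U.card := by
    intro c
    refine card_le_card_of_injOn (fun x => x + c) (fun x hx => ?_)
      (fun x _ y _ hxy => Nat.add_right_cancel hxy)
    exact (mem_filter.1 hx).2
  have h3 := (card_le_card h1).trans (card_union_le _ _)
  have h4 := card_union_le (C.filter fun x => x + a ∈ U) (C.filter fun x => x + b ∈ U)
  have h5 := h2 a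
  have h6 := h2 b
  omega

private theorem h32_mem_lab {p f : ℕ → ℕ} {A B : Finset ℕ} {v : ℕ} (h : v ∈ A) :
    f v ∈ vs p f A B := mem_union_left _ (mem_image_of_mem f h)

private theorem h32_mem_sum {p f : ℕ → ℕ} {A B : Finset ℕ} {i : ℕ} (h : i ∈ B) :
    f i + f (p i) ∈ vs p f A B :=
  mem_union_right _ (mem_image_of_mem (fun i => f i + f (p i)) h)

private theorem h32_aux {n : ℕ} {p top lab : ℕ → ℕ} {K : ℕ} {R A Tl F : Finset ℕ} {ρ : ℝ}
    (hp : Par n p) (hD : Dec n p K R top)
    (hA1 : ∀ v, v < n → v ∉ R → p v ∈ R → p v ∈ A) (hA2 : ∀ r ∈ R, 0 < r → p r ∉ R → r ∈ A)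
    (hlab : ∀ r ∈ A, 1 ≤ lab r ∧ 16 * lab r ≤ n)
    (hF : ∀ j ≤ n, ∀ j' ≤ n, ρ * n ≤ ((F.filter fun c => n < 2 * c ∧ 4 * c ≤ 3 * n ∧
      c + j ∈ F ∧ c + j' ∈ F).card : ℝ))
    (hC : (12 * ((MV n R top Tl).card + (EM n p R top Tl).card + 1) : ℝ) ≤ ρ * n) (m : ℕ) :
    ∃ f : ℕ → ℕ, (∀ v, v ∉ MV n R top Tl → f v = lab v) ∧
      (∀ v ∈ (MV n R top Tl).filter (· < m), n < 2 * f v ∧ 4 * f v ≤ 3 * n) ∧
      Emb p f ((MV n R top Tl).filter (· < m)) (h32E n p R top Tl m) ∧
      vs p f ((MV n R top Tl).filter (· < m)) (h32E n p R top Tl m) ⊆ F := by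
  classical
  have hpos : ∀ {v}, v ∉ R → 0 < v := fun {v} hv =>
    Nat.pos_of_ne_zero fun h => hv (h ▸ hD.zero)
  induction m with
  | zero =>
    have e1 : (MV n R top Tl).filter (· < 0) = ∅ :=
      filter_false_of_mem fun v _ => Nat.not_lt_zero v
    have e2 : h32E n p R top Tl 0 = ∅ := by
      refine filter_false_of_mem fun i _ => ?_
      rintro (h | h)
      · exact Nat.not_lt_zero _ h.2
      · exact Nat.not_lt_zero _ h.2
    rw [e1, e2]
    refine ⟨lab, fun _ _ => rfl, fun v hv => absurd hv (notMem_empty v), ⟨?_, ?_, ?_⟩, ?_⟩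
    · simp
    · simp
    · intro a ha
      exact absurd ha (notMem_empty a)
    · simp [vs]
  | succ m ih =>
    obtain ⟨f, hO, hM, hE, hV⟩ := ih
    by_cases hm : m ∈ MV n R top Tl
    · -- the new vertex
      obtain ⟨hmn, hmR, hmT⟩ := mem_filter.1 hm
      have hmn : m < n := mem_range.1 hmn
      have hm0 : 0 < m := hpos hmR
      have hpm : p m < m := hp m hm0 hmn
      have hRO : ∀ r ∈ R, f r = lab r := fun r hr => hO r fun h => (mem_filter.1 h).2.1 hr
      have hdeep : p m ∉ R → n < 2 * f (p m) ∧ 4 * f (p m) ≤ 3 * n := by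
        intro hpR
        refine hM _ (mem_filter.2 ⟨mem_filter.2 ⟨mem_range.2 (hpm.trans hmn), hpR, ?_⟩, hpm⟩)
        rw [← hD.top_step m hmn hmR hpR]
        exact hmT
      have ha : 1 ≤ f (p m) ∧ f (p m) ≤ n := by
        by_cases hpR : p m ∈ R
        · rw [hRO _ hpR]
          have := hlab _ (hA1 m hmn hmR hpR)
          omega
        · have := hdeep hpR
          omega
      -- the exit
      have hr : ∃ a' : ℕ, a' ≤ n ∧ ∀ r ∈ R, 0 < r → p r = m → lab r = a' ∧ 1 ≤ a' ∧
          a' < f (p m) := by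
        by_cases hex : ∃ r ∈ R, 0 < r ∧ p r = m
        · obtain ⟨r, hrR, hr0, hrm⟩ := hex
          have hprR : p r ∉ R := by rw [hrm]; exact hmR
          have hl := hlab r (hA2 r hrR hr0 hprR)
          refine ⟨lab r, by omega, fun r' hr'R hr'0 hr'm => ?_⟩
          have h1 : r' = r := by
            refine hD.exit_unique r' hr'R r hrR hr'0 hr0 ?_ hprR ?_
            · rw [hr'm]; exact hmR
            · rw [hr'm, hrm]
          refine ⟨by rw [h1], hl.1, ?_⟩
          have h2 : p m ∉ R := by
            have h3 := hD.exit_deep r hrR hr0 hprR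
            rwa [hrm] at h3
          have h4 := hdeep h2
          omega
        · refine ⟨0, Nat.zero_le _, fun r hrR hr0 hrm => ?_⟩
          exact absurd ⟨r, hrR, hr0, hrm⟩ hex
      obtain ⟨a', ha', hexit⟩ := hr
      set U := vs p f ((MV n R top Tl).filter (· < m)) (h32E n p R top Tl m) with hU
      have hUc : U.card ≤ (MV n R top Tl).card + (EM n p R top Tl).card := by
        rw [hU]
        refine (card_union_le _ _).trans (add_le_add ?_ ?_)
        · exact card_image_le.trans (card_filter_le _ _)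
        · exact card_image_le.trans (card_filter_le _ _)
      have hcard : 3 * U.card < (F.filter fun c => n < 2 * c ∧ 4 * c ≤ 3 * n ∧
          c + f (p m) ∈ F ∧ c + a' ∈ F).card := by
        have h1 := hC.trans (hF (f (p m)) ha.2 a' ha')
        have h2 : 12 * ((MV n R top Tl).card + (EM n p R top Tl).card + 1) ≤
            (F.filter fun c => n < 2 * c ∧ 4 * c ≤ 3 * n ∧ c + f (p m) ∈ F ∧ c + a' ∈ F).card := by
          exact_mod_cast h1
        omega
      obtain ⟨x, hx, hxU, hxa, hxb⟩ := h32_pick _ U (f (p m)) a' hcard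
      obtain ⟨hxF, hx1, hx2, hxS, hxS'⟩ := mem_filter.1 hx
      let g := Function.update f m x
      have gm : g m = x := Function.update_self _ _ _
      have gne : ∀ v, v ≠ m → g v = f v := fun v hv => Function.update_of_ne hv _ _
      -- classification of the edges
      have hcl : ∀ i ∈ h32E n p R top Tl (m + 1),
          (i ∈ h32E n p R top Tl m ∧ g i + g (p i) = f i + f (p i)) ∨
          (i = m ∧ g i + g (p i) = x + f (p m)) ∨
          (i ∈ R ∧ 0 < i ∧ p i = m ∧ g i + g (p i) = x + a') := by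
        intro i hi
        obtain ⟨hiE, hi2⟩ := mem_filter.1 hi
        obtain ⟨hin, hi0, hi3⟩ := mem_filter.1 hiE
        have hin : i < n := mem_range.1 hin
        have hpi : p i < i := hp i hi0 hin
        rcases hi2 with ⟨hiR, him⟩ | ⟨hiR, him⟩
        · rcases Nat.lt_succ_iff_lt_or_eq.1 him with him | him
          · left
            refine ⟨mem_filter.2 ⟨hiE, Or.inl ⟨hiR, him⟩⟩, ?_⟩
            rw [gne i (Nat.ne_of_lt him), gne (p i) (Nat.ne_of_lt (hpi.trans him))]
          · right; left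
            subst him
            refine ⟨rfl, ?_⟩
            rw [gm, gne (p i) (Nat.ne_of_lt hpi)]
        · have hine : i ≠ m := fun h => hmR (h ▸ hiR)
          rcases Nat.lt_succ_iff_lt_or_eq.1 him with him | him
          · left
            refine ⟨mem_filter.2 ⟨hiE, Or.inr ⟨hiR, him⟩⟩, ?_⟩
            rw [gne i hine, gne (p i) (Nat.ne_of_lt him)]
          · right; right
            refine ⟨hiR, hi0, him, ?_⟩
            rw [him, gm, gne i hine, hRO i hiR, (hexit i hiR hi0 him).1, Nat.add_comm]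
      have hMV : ∀ v ∈ (MV n R top Tl).filter (· < m + 1),
          v = m ∨ (v ∈ (MV n R top Tl).filter (· < m) ∧ g v = f v) := by
        intro v hv
        obtain ⟨hv1, hv2⟩ := mem_filter.1 hv
        rcases Nat.lt_succ_iff_lt_or_eq.1 hv2 with h | h
        · exact Or.inr ⟨mem_filter.2 ⟨hv1, h⟩, gne v (Nat.ne_of_lt h)⟩
        · exact Or.inl h
      have uL : ∀ v ∈ (MV n R top Tl).filter (· < m), f v ∈ U := fun v hv => h32_mem_lab hv
      have uS : ∀ i ∈ h32E n p R top Tl m, f i + f (p i) ∈ U := fun i hi => h32_mem_sum hi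
      refine ⟨g, fun v hv => ?_, fun v hv => ?_, ⟨?_, ?_, ?_⟩, ?_⟩
      · rw [gne v fun h => hv (h ▸ hm)]
        exact hO v hv
      · rcases hMV v hv with rfl | ⟨h1, h2⟩
        · rw [gm]; exact ⟨hx1, hx2⟩
        · rw [h2]; exact hM v h1
      · intro v hv w hw hvw
        rcases hMV v hv with rfl | ⟨h1, h2⟩
        · rcases hMV w hw with rfl | ⟨h3, h4⟩
          · rfl
          · rw [gm, h4] at hvw
            exact absurd (hvw ▸ uL w h3) hxU
        · rcases hMV w hw with rfl | ⟨h3, h4⟩
          · rw [gm, h2] at hvw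
            exact absurd (hvw ▸ uL v h1) hxU
          · rw [h2, h4] at hvw
            exact hE.lab h1 h3 hvw
      · intro i hi j hj hij
        change g i + g (p i) = g j + g (p j) at hij
        rcases hcl i hi with ⟨h1, h2⟩ | ⟨h1, h2⟩ | ⟨h1, h2, h3, h4⟩
        · rcases hcl j hj with ⟨k1, k2⟩ | ⟨k1, k2⟩ | ⟨k1, k2, k3, k4⟩
          · rw [h2, k2] at hij
            exact hE.sum h1 k1 hij
          · rw [h2, k2] at hij
            exact absurd (hij ▸ uS i h1) hxa
          · rw [h2, k4] at hij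
            exact absurd (hij ▸ uS i h1) hxb
        · rcases hcl j hj with ⟨k1, k2⟩ | ⟨k1, k2⟩ | ⟨k1, k2, k3, k4⟩
          · rw [h2, k2] at hij
            exact absurd (hij ▸ uS j k1) hxa
          · rw [h1, k1]
          · rw [h2, k4] at hij
            have := hexit j k1 k2 k3
            omega
        · rcases hcl j hj with ⟨k1, k2⟩ | ⟨k1, k2⟩ | ⟨k1, k2, k3, k4⟩
          · rw [h4, k2] at hij
            exact absurd (hij ▸ uS j k1) hxb
          · rw [h4, k2] at hij
            have := hexit i h1 h2 h3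
            omega
          · refine hD.exit_unique i h1 j k1 h2 k2 ?_ ?_ ?_
            · rw [h3]; exact hmR
            · rw [k3]; exact hmR
            · rw [h3, k3]
      · intro v hv i hi hvi
        rcases hMV v hv with rfl | ⟨h1, h2⟩
        · rw [gm] at hvi
          rcases hcl i hi with ⟨k1, k2⟩ | ⟨k1, k2⟩ | ⟨k1, k2, k3, k4⟩
          · rw [k2] at hvi
            exact absurd (hvi ▸ uS i k1) hxU
          · rw [k2] at hvi
            omega
          · rw [k4] at hvi
            have := hexit i k1 k2 k3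
            omega
        · rw [h2] at hvi
          rcases hcl i hi with ⟨k1, k2⟩ | ⟨k1, k2⟩ | ⟨k1, k2, k3, k4⟩
          · rw [k2] at hvi
            exact hE.ne v h1 i k1 hvi
          · rw [k2] at hvi
            exact absurd (hvi ▸ uL v h1) hxa
          · rw [k4] at hvi
            exact absurd (hvi ▸ uL v h1) hxb
      · intro t ht
        rcases mem_union.1 ht with ht | ht
        · obtain ⟨v, hv, rfl⟩ := mem_image.1 ht
          rcases hMV v hv with rfl | ⟨h1, h2⟩
          · rw [gm]; exact hxF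
          · rw [h2]; exact hV (uL v h1)
        · obtain ⟨i, hi, hi'⟩ := mem_image.1 ht
          rw [← hi']
          rcases hcl i hi with ⟨k1, k2⟩ | ⟨k1, k2⟩ | ⟨k1, k2, k3, k4⟩
          · rw [k2]; exact hV (uS i k1)
          · rw [k2]; exact hxS
          · rw [k4]; exact hxS'
    · -- nothing new
      have h1 : (MV n R top Tl).filter (· < m + 1) = (MV n R top Tl).filter (· < m) := by
        refine filter_congr fun v hv => ?_
        rw [Nat.lt_succ_iff_lt_or_eq]
        constructor
        · rintro (h | h)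
          · exact h
          · exact absurd (h ▸ hv) hm
        · exact Or.inl
      have h2 : h32E n p R top Tl (m + 1) = h32E n p R top Tl m := by
        refine filter_congr fun i hi => ?_
        obtain ⟨hin, hi0, hi3⟩ := mem_filter.1 hi
        have hin : i < n := mem_range.1 hin
        have hpi : p i < i := hp i hi0 hin
        rw [Nat.lt_succ_iff_lt_or_eq, Nat.lt_succ_iff_lt_or_eq]
        constructor
        · rintro (⟨h1, h2 | h2⟩ | ⟨h1, h2 | h2⟩)
          · exact Or.inl ⟨h1, h2⟩
          · exfalso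
            rcases hi3 with h3 | h3
            · exact hm (h2 ▸ mem_filter.2 ⟨mem_range.2 hin, h3⟩)
            · exact h1 h3.1
          · exact Or.inr ⟨h1, h2⟩
          · exfalso
            rcases hi3 with h3 | h3
            · exact h3.1 h1
            · exact hm (h2 ▸ mem_filter.2 ⟨mem_range.2 (hpi.trans hin), h3.2⟩)
        · rintro (⟨h1, h2⟩ | ⟨h1, h2⟩)
          · exact Or.inl ⟨h1, Or.inl h2⟩
          · exact Or.inr ⟨h1, Or.inl h2⟩
      rw [h1, h2]
      exact ⟨f, hO, hM, hE, hV⟩

theorem embed_left (n : ℕ) (p top lab : ℕ → ℕ) (K : ℕ) (R A Tl F : Finset ℕ) (ρ : ℝ)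
    (hp : Par n p) (hD : Dec n p K R top) (hTl : Tl ⊆ (range n).filter fun τ => τ ∉ R ∧ p τ ∈ R)
    (hA1 : ∀ v, v < n → v ∉ R → p v ∈ R → p v ∈ A) (hA2 : ∀ r ∈ R, 0 < r → p r ∉ R → r ∈ A)
    (hlab : ∀ r ∈ A, 1 ≤ lab r ∧ 16 * lab r ≤ n)
    (hF : ∀ j ≤ n, ∀ j' ≤ n, ρ * n ≤ ((F.filter fun c => n < 2 * c ∧ 4 * c ≤ 3 * n ∧
      c + j ∈ F ∧ c + j' ∈ F).card : ℝ))
    (hC : (12 * ((MV n R top Tl).card + (EM n p R top Tl).card + 1) : ℝ) ≤ ρ * n) :
    ∃ f : ℕ → ℕ, (∀ v, v ∉ MV n R top Tl → f v = lab v) ∧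
      Emb p f (MV n R top Tl) (EM n p R top Tl) ∧
      vs p f (MV n R top Tl) (EM n p R top Tl) ⊆ F := by
  obtain ⟨f, h1, -, h3, h4⟩ := h32_aux hp hD hA1 hA2 hlab hF hC n
  have e1 : (MV n R top Tl).filter (· < n) = MV n R top Tl := by
    refine filter_true_of_mem fun v hv => ?_
    exact mem_range.1 (mem_filter.1 hv).1
  have e2 : h32E n p R top Tl n = EM n p R top Tl := by
    refine filter_true_of_mem fun i hi => ?_
    obtain ⟨hin, hi0, -⟩ := mem_filter.1 hi
    have hin : i < n := mem_range.1 hin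
    by_cases hiR : i ∈ R
    · exact Or.inr ⟨hiR, (hp i hi0 hin).trans hin⟩
    · exact Or.inl ⟨hiR, hin⟩
  rw [e1, e2] at h3 h4
  exact ⟨f, h1, h3, h4⟩

end Pool.Agent.SQ
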