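import Pool.Agent.Helper73.SQ.FED

/-!
# SQ-FE2: covering leftover values by reserved units

Proof in words.  One value `j ∈ J` after the other, with a new unit `v ∈ S`; all other values used are new elements of `L`.
`j ≤ n`: `y v = j`; for each leg `w ∈ Lg v` choose `x w = c` by `Rich.a` (`O = Q w`, `κ = 0`, this `j`, `j' = 0`): `c, c + q, c + j ∈ F`; `un v = {j} ∪ {j + x w}`.
`j > n`: take a leg `w1 ∈ Lg v`; by `Rich.b` (`O = Q w1`) choose `x w1 = c` with `c, c + q ∈ F` and `y = j - c ∈ F`; put `y v = j - c` (so `y + x w1 = j`).  If there is a second leg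
`w2`: `n < 2 y`, `4 y ≤ 7 n`, so `Rich.c` (`O = Q w2`, `j := y`) gives `x w2 = c2` with `c2, c2 + q, c2 + y ∈ F`.
In each choice the number of candidates is `≥ ρ n` and every forbidden value (elements of `F \ L`, values used before, `J`-values are not in `F`) excludes at most
`D + 4` candidates; also the values of the same choice must be different from each other where required (each such coincidence excludes at most a few candidates: `c + q = c + j` means
`j = q`: then choose ... NOTE: if `j ∈ Q w` the values `j + x w` (in `un`) and `x w + j` (in `cst`) coincide: excluded by the hypothesis `hJQ`).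
The total number of used values is at most `C (|J| + 1)`.
-/

set_option autoImplicit false

namespace Pool.Agent.SQ

open Finset Pool.Agent.SEM

/-- choice of a candidate avoiding a small set of forbidden values -/
private lemma pick10 {K O B E : Finset ℕ} {D : ℕ} {h : ℕ → ℕ}
    (hinj : ∀ c ∈ K, ∀ c' ∈ K, h c = h c' → c = c') (hO : O.card ≤ D + 1) (hE : E.card ≤ D + 4)
    (hK : (D + 4) * (B.card + 1) < K.card) :
    ∃ c ∈ K, c ∉ E ∧ c ∉ B ∧ (∀ q ∈ O, c + q ∉ B) ∧ h c ∉ B := by
  by_contra hcon
  have hsub : K ⊆ ((E ∪ B) ∪ (B.biUnion fun b => O.image fun q => b - q)) ∪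
      K.filter (fun c => h c ∈ B) := by
    intro c hc
    by_contra hn
    apply hcon
    simp only [mem_union, mem_biUnion, mem_image, mem_filter, not_or, not_exists, not_and] at hn
    obtain ⟨⟨⟨h1, h2⟩, h3⟩, h4⟩ := hn
    refine ⟨c, hc, h1, h2, fun q hq hb => ?_, h4 hc⟩
    exact h3 (c + q) hb q hq (by omega)
  have h1 : (K.filter (fun c => h c ∈ B)).card ≤ B.card := by
    apply card_le_card_of_injOn h
    · intro c hc
      exact mem_coe.mpr (mem_filter.mp (mem_coe.mp hc)).2
    · intro c hc c' hc' heq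
      exact hinj c (mem_filter.mp (mem_coe.mp hc)).1 c' (mem_filter.mp (mem_coe.mp hc')).1 heq
  have h2 : (B.biUnion fun b => O.image fun q => b - q).card ≤ B.card * (D + 1) := by
    apply card_biUnion_le_card_mul
    intro b _
    exact card_image_le.trans hO
  have h3 := card_le_card hsub
  have h4 := card_union_le ((E ∪ B) ∪ (B.biUnion fun b => O.image fun q => b - q))
    (K.filter (fun c => h c ∈ B))
  have h5 := card_union_le (E ∪ B) (B.biUnion fun b => O.image fun q => b - q)
  have h6 := card_union_le E B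
  nlinarith

/-- the values of one leg -/
private def T10 (O : Finset ℕ) (c z : ℕ) : Finset ℕ := insert z (insert c (O.image fun q => c + q))

private lemma T10_card {O : Finset ℕ} {D : ℕ} (hO : O.card ≤ D + 1) (c z : ℕ) :
    (T10 O c z).card ≤ D + 3 := by
  unfold T10
  have h1 := card_insert_le z (insert c (O.image fun q => c + q))
  have h2 := card_insert_le c (O.image fun q => c + q)
  have h3 := card_image_le (s := O) (f := fun q => c + q)
  omega

/-- first leg -/
private lemma first10 {e D n : ℕ} {ρ : ℝ} {F B : Finset ℕ} {Qs : Finset (Finset ℕ)}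
    (hR : Rich n (e + 2) ρ F Qs) {O : Finset ℕ} (hO : O ∈ Qs) (hOc : O.card ≤ D + 1)
    (hOs : ∀ q ∈ O, 1 ≤ q ∧ 16 * q ≤ n) {j : ℕ} (hj1 : 1 ≤ j) (hj2 : j ≤ 2 * n - 1)
    (hjF : j ∉ F) (hjO : j ∉ O)
    (hB : ((D : ℝ) + 4) * (B.card + 1) < ρ * n) :
    ∃ c y z : ℕ, 1 ≤ c ∧ (insert y {y + c} : Finset ℕ) = {j, z} ∧ T10 O c z ⊆ F ∧
      Disjoint (T10 O c z) B ∧ z ∉ insert c (O.image fun q => c + q) ∧ z ≠ j ∧
      1 ≤ y ∧ (y = j ∨ n < 2 * y) ∧
      ∀ P ∈ Qs, ρ * n ≤ ((F.filter fun c => (∀ q ∈ P, c + q ∈ F) ∧ c + y ∈ F).card : ℝ) := by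
  by_cases hjn : j ≤ n
  · -- `y = j`
    have hK0 := hR.a O hO 0 (by omega) j hjn 0 (Nat.zero_le _)
    set K := F.filter fun c => n < 2 * c ∧ 4 * c ≤ 3 * n ∧ c % (e + 2) = 0 ∧
      (∀ q ∈ O, c + q ∈ F) ∧ c + j ∈ F ∧ c + 0 ∈ F with hK
    have hlt : (D + 4) * (B.card + 1) < K.card := by
      have := hB.trans_le hK0
      exact_mod_cast this
    obtain ⟨c, hc, _, hcB, hqB, hzB⟩ := pick10 (h := fun c => c + j) (E := ∅)
      (fun c _ c' _ h => by omega) hOc (by simp) hlt
    rw [hK, mem_filter] at hc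
    obtain ⟨hcF, hc1, hc2, _, hc4, hc5, _⟩ := hc
    refine ⟨c, j, c + j, by omega, by rw [add_comm j c], ?_, ?_, ?_, ?_, hj1, Or.inl rfl, ?_⟩
    · intro t ht
      unfold T10 at ht
      rw [mem_insert, mem_insert, mem_image] at ht
      rcases ht with rfl | rfl | ⟨q, hq, rfl⟩
      · exact hc5
      · exact hcF
      · exact hc4 q hq
    · rw [disjoint_left]
      intro t ht
      unfold T10 at ht
      rw [mem_insert, mem_insert, mem_image] at ht
      rcases ht with rfl | rfl | ⟨q, hq, rfl⟩
      · exact hzB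
      · exact hcB
      · exact hqB q hq
    · rw [mem_insert, mem_image]
      rintro (h | ⟨q, hq, h⟩)
      · omega
      · have : q = j := by omega
        exact hjO (this ▸ hq)
    · intro h
      exact hjF (h ▸ hc5)
    · intro P hP
      refine (hR.a P hP 0 (by omega) j hjn 0 (Nat.zero_le _)).trans ?_
      have : (F.filter fun c => n < 2 * c ∧ 4 * c ≤ 3 * n ∧ c % (e + 2) = 0 ∧
          (∀ q ∈ P, c + q ∈ F) ∧ c + j ∈ F ∧ c + 0 ∈ F) ⊆
          F.filter fun c => (∀ q ∈ P, c + q ∈ F) ∧ c + j ∈ F := by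
        intro c hc
        rw [mem_filter] at hc ⊢
        exact ⟨hc.1, hc.2.2.2.2.1, hc.2.2.2.2.2.1⟩
      exact_mod_cast card_le_card this
  · -- `y = j - c`
    have hjn' : n < j := not_le.mp hjn
    have hK0 := hR.b O hO j hjn' hj2
    set K := F.filter fun c => n < 4 * c ∧ 2 * c ≤ n ∧ (∀ q ∈ O, c + q ∈ F) ∧ j - c ∈ F with hK
    have hlt : (D + 4) * (B.card + 1) < K.card := by
      have := hB.trans_le hK0
      exact_mod_cast this
    have hKm : ∀ c ∈ K, 2 * c ≤ n := fun c hc => (mem_filter.mp hc).2.2.1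
    obtain ⟨c, hc, hcE, hcB, hqB, hzB⟩ := pick10 (h := fun c => j - c)
      (E := O.image fun q => (j - q) / 2)
      (fun c hc c' hc' h => by
        have := hKm c hc
        have := hKm c' hc'
        omega) hOc (card_image_le.trans (by omega)) hlt
    rw [hK, mem_filter] at hc
    obtain ⟨hcF, hc1, hc2, hc4, hc5⟩ := hc
    refine ⟨c, j - c, j - c, by omega, ?_, ?_, ?_, ?_, ?_, by omega, Or.inr (by omega), ?_⟩
    · have : j - c + c = j := by omega
      rw [this]
      exact pair_comm _ _
    · intro t ht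
      unfold T10 at ht
      rw [mem_insert, mem_insert, mem_image] at ht
      rcases ht with rfl | rfl | ⟨q, hq, rfl⟩
      · exact hc5
      · exact hcF
      · exact hc4 q hq
    · rw [disjoint_left]
      intro t ht
      unfold T10 at ht
      rw [mem_insert, mem_insert, mem_image] at ht
      rcases ht with rfl | rfl | ⟨q, hq, rfl⟩
      · exact hzB
      · exact hcB
      · exact hqB q hq
    · rw [mem_insert, mem_image]
      rintro (h | ⟨q, hq, h⟩)
      · omega
      · apply hcE
        rw [mem_image]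
        exact ⟨q, hq, by omega⟩
    · intro h
      exact hjF (h ▸ hc5)
    · intro P hP
      refine (hR.c P hP (j - c) (by omega) (by omega)).trans ?_
      have : (F.filter fun c' => n < 8 * c' ∧ 4 * c' ≤ n ∧ (∀ q ∈ P, c' + q ∈ F) ∧
          c' + (j - c) ∈ F) ⊆ F.filter fun c' => (∀ q ∈ P, c' + q ∈ F) ∧ c' + (j - c) ∈ F := by
        intro c' hc
        rw [mem_filter] at hc ⊢
        exact ⟨hc.1, hc.2.2.2.1, hc.2.2.2.2⟩
      exact_mod_cast card_le_card this

/-- second leg -/
private lemma second10 {D n : ℕ} {ρ : ℝ} {F B : Finset ℕ} (hFn : ∀ t ∈ F, n < 8 * t)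
    {O : Finset ℕ} (hOc : O.card ≤ D + 1) {y : ℕ} (hy : 1 ≤ y) (hyO : y ∉ O)
    (hF : ρ * n ≤ ((F.filter fun c => (∀ q ∈ O, c + q ∈ F) ∧ c + y ∈ F).card : ℝ))
    (hB : ((D : ℝ) + 4) * (B.card + 1) < ρ * n) :
    ∃ c : ℕ, 1 ≤ c ∧ T10 O c (y + c) ⊆ F ∧ Disjoint (T10 O c (y + c)) B ∧
      y + c ∉ insert c (O.image fun q => c + q) := by
  set K := F.filter fun c => (∀ q ∈ O, c + q ∈ F) ∧ c + y ∈ F with hK
  have hlt : (D + 4) * (B.card + 1) < K.card := by
    have := hB.trans_le hF
    exact_mod_cast this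
  obtain ⟨c, hc, _, hcB, hqB, hzB⟩ := pick10 (h := fun c => c + y) (E := ∅)
    (fun c _ c' _ h => by omega) hOc (by simp) hlt
  rw [hK, mem_filter] at hc
  obtain ⟨hcF, hc4, hc5⟩ := hc
  have hcn := hFn c hcF
  have hcomm : y + c = c + y := add_comm _ _
  refine ⟨c, by omega, ?_, ?_, ?_⟩
  · intro t ht
    unfold T10 at ht
    rw [mem_insert, mem_insert, mem_image] at ht
    rcases ht with rfl | rfl | ⟨q, hq, rfl⟩
    · rw [hcomm]; exact hc5
    · exact hcF
    · exact hc4 q hq
  · rw [disjoint_left]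
    intro t ht
    unfold T10 at ht
    rw [mem_insert, mem_insert, mem_image] at ht
    rcases ht with rfl | rfl | ⟨q, hq, rfl⟩
    · rw [hcomm]; exact hzB
    · exact hcB
    · exact hqB q hq
  · rw [mem_insert, mem_image]
    rintro (h | ⟨q, hq, h⟩)
    · omega
    · have : q = y := by omega
      exact hyO (this ▸ hq)

/-- one unit covers one value -/
private lemma unit10 {e D n : ℕ} (he : e ≤ 1) {ρ : ℝ} {F B : Finset ℕ} {Qs : Finset (Finset ℕ)}
    (hR : Rich n (e + 2) ρ F Qs) (hFn : ∀ t ∈ F, n < 8 * t) {G : Finset ℕ} {Q : ℕ → Finset ℕ}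
    (hG : G.card = e + 1) (hQc : ∀ w ∈ G, (Q w).card ≤ D + 1)
    (hQs : ∀ w ∈ G, ∀ q ∈ Q w, 1 ≤ q ∧ 16 * q ≤ n) (hQ : ∀ w ∈ G, Q w ∈ Qs)
    {j : ℕ} (hj1 : 1 ≤ j) (hj2 : j ≤ 2 * n - 1) (hjF : j ∉ F) (hjQ : ∀ w ∈ G, j ∉ Q w)
    (hB : ((D : ℝ) + 4) * (B.card + (D + 4)) < ρ * n) :
    ∃ (x : ℕ → ℕ) (y : ℕ) (T : Finset ℕ),
      (insert y (G.image fun w => y + x w)).card = G.card + 1 ∧
      (∀ w ∈ G, Disjoint (insert y (G.image fun w => y + x w)) (cst Q x w)) ∧
      (∀ w ∈ G, ∀ w' ∈ G, w ≠ w' → Disjoint (cst Q x w) (cst Q x w')) ∧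
      (insert y (G.image fun w => y + x w)) ∪ G.biUnion (cst Q x) = insert j T ∧
      T ⊆ F ∧ Disjoint T B ∧ T.card ≤ 2 * (D + 3) := by
  have hD0 : (0 : ℝ) ≤ D := Nat.cast_nonneg _
  have hB1 : ((D : ℝ) + 4) * (B.card + 1) < ρ * n := by
    refine lt_of_le_of_lt ?_ hB
    apply mul_le_mul_of_nonneg_left _ (by positivity)
    linarith
  have he' : e = 0 ∨ e = 1 := by omega
  rcases he' with rfl | rfl
  · -- one leg
    obtain ⟨w, rfl⟩ := card_eq_one.mp hG
    have hw : w ∈ ({w} : Finset ℕ) := mem_singleton_self w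
    obtain ⟨c, y, z, hc, hyz, hT, hTB, hz, hzj, hy1, _, _⟩ := first10 (B := B) hR (hQ w hw)
      (hQc w hw) (hQs w hw) hj1 hj2 hjF (hjQ w hw) hB1
    refine ⟨fun _ => c, y, T10 (Q w) c z, ?_, ?_, ?_, ?_, hT, hTB, ?_⟩
    · rw [image_singleton, hyz, card_pair hzj.symm]
      simp
    · intro w' hw'
      rw [mem_singleton] at hw'
      subst hw'
      rw [image_singleton, hyz]
      unfold cst
      rw [disjoint_left]
      intro t ht ht'
      rw [mem_insert, mem_singleton] at ht
      rcases ht with rfl | rfl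
      · apply hjF
        apply hT
        unfold T10
        exact mem_insert_of_mem ht'
      · exact hz ht'
    · intro w1 h1 w2 h2 hne
      rw [mem_singleton] at h1 h2
      exact absurd (h1.trans h2.symm) hne
    · rw [image_singleton, hyz, singleton_biUnion]
      unfold cst T10
      ext t
      simp only [mem_union, mem_insert, mem_singleton, mem_image]
      tauto
    · exact (T10_card (hQc w hw) c z).trans (by omega)
  · -- two legs
    obtain ⟨w1, w2, hne, rfl⟩ := card_eq_two.mp hG
    have hw1 : w1 ∈ ({w1, w2} : Finset ℕ) := by simp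
    have hw2 : w2 ∈ ({w1, w2} : Finset ℕ) := by simp
    obtain ⟨c, y, z, hc, hyz, hT, hTB, hz, hzj, hy1, hyn, hgood⟩ := first10 (B := B) hR
      (hQ w1 hw1) (hQc w1 hw1) (hQs w1 hw1) hj1 hj2 hjF (hjQ w1 hw1) hB1
    have hT1c := T10_card (hQc w1 hw1) c z
    have hyO : y ∉ Q w2 := by
      intro h
      rcases hyn with h1 | h1
      · exact hjQ w2 hw2 (h1 ▸ h)
      · have := (hQs w2 hw2 y h).2
        omega
    have hB2 : ((D : ℝ) + 4) * ((B ∪ T10 (Q w1) c z).card + 1) < ρ * n := by
      refine lt_of_le_of_lt ?_ hB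
      apply mul_le_mul_of_nonneg_left _ (by positivity)
      have h1 := card_union_le B (T10 (Q w1) c z)
      have h2 : (B ∪ T10 (Q w1) c z).card + 1 ≤ B.card + (D + 4) := by omega
      exact_mod_cast h2
    obtain ⟨c2, hc2, hT2, hTB2, hz2⟩ := second10 hFn (hQc w2 hw2) hy1 hyO
      (hgood (Q w2) (hQ w2 hw2)) hB2
    rw [disjoint_union_right] at hTB2
    obtain ⟨hTB2, hT12⟩ := hTB2
    have hjz : ({j, z} : Finset ℕ) = {y, y + c} := hyz.symm
    have hzT : z ∈ T10 (Q w1) c z := by unfold T10; simp
    have hyc2T : y + c2 ∈ T10 (Q w2) c2 (y + c2) := by unfold T10; simp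
    have hyc2j : y + c2 ≠ j := fun h => hjF (h ▸ hT2 hyc2T)
    have hyc2z : y + c2 ≠ z := fun h => disjoint_left.mp hT12 hyc2T (h ▸ hzT)
    set x : ℕ → ℕ := fun w => if w = w1 then c else c2 with hx
    have hx1 : x w1 = c := by simp [hx]
    have hx2 : x w2 = c2 := by simp [hx, hne.symm]
    have himg : (insert y (({w1, w2} : Finset ℕ).image fun w => y + x w)) = {j, z, y + c2} := by
      rw [image_insert, image_singleton, hx1, hx2]
      have h1 : (insert y (insert (y + c) {y + c2}) : Finset ℕ) =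
          ({y, y + c} : Finset ℕ) ∪ {y + c2} := by
        ext t; simp only [mem_insert, mem_singleton, mem_union]; tauto
      rw [h1, ← hjz]
      ext t; simp only [mem_insert, mem_singleton, mem_union]; tauto
    have hcst1 : cst Q x w1 = insert c ((Q w1).image fun q => c + q) := by
      unfold cst; rw [hx1]
    have hcst2 : cst Q x w2 = insert c2 ((Q w2).image fun q => c2 + q) := by
      unfold cst; rw [hx2]
    have hsub1 : cst Q x w1 ⊆ T10 (Q w1) c z := by
      rw [hcst1]; unfold T10; exact subset_insert _ _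
    have hsub2 : cst Q x w2 ⊆ T10 (Q w2) c2 (y + c2) := by
      rw [hcst2]; unfold T10; exact subset_insert _ _
    have hd12 : Disjoint (cst Q x w1) (cst Q x w2) :=
      (disjoint_of_subset_left hsub2 (disjoint_of_subset_right hsub1 hT12)).symm
    refine ⟨x, y, T10 (Q w1) c z ∪ T10 (Q w2) c2 (y + c2), ?_, ?_, ?_, ?_, union_subset hT hT2,
      ?_, ?_⟩
    · rw [himg, card_eq_three.mpr ⟨j, z, y + c2, hzj.symm, hyc2j.symm, hyc2z.symm, rfl⟩, hG]
    · intro w hw
      rw [himg, disjoint_left]
      intro t ht ht'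
      rw [mem_insert, mem_singleton] at hw
      rw [mem_insert, mem_insert, mem_singleton] at ht
      rcases hw with rfl | rfl
      · rcases ht with rfl | rfl | rfl
        · exact hjF (hT (hsub1 ht'))
        · rw [hcst1] at ht'
          exact hz ht'
        · exact disjoint_left.mp hT12 hyc2T (hsub1 ht')
      · rcases ht with rfl | rfl | rfl
        · exact hjF (hT2 (hsub2 ht'))
        · exact disjoint_left.mp hT12 (hsub2 ht') hzT
        · rw [hcst2] at ht'
          exact hz2 ht'
    · intro a ha b hb hab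
      rw [mem_insert, mem_singleton] at ha hb
      rcases ha with rfl | rfl <;> rcases hb with rfl | rfl
      · exact absurd rfl hab
      · exact hd12
      · exact hd12.symm
      · exact absurd rfl hab
    · rw [himg, biUnion_insert, singleton_biUnion, hcst1, hcst2]
      unfold T10
      ext t
      simp only [mem_union, mem_insert, mem_singleton]
      tauto
    · exact disjoint_union_left.mpr ⟨hTB, hTB2⟩
    · have h1 := card_union_le (T10 (Q w1) c z) (T10 (Q w2) c2 (y + c2))
      have h2 := T10_card (hQc w2 hw2) c2 (y + c2)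
      omega

theorem cover_J (e D : ℕ) (he : e ≤ 1) : ∃ C : ℕ, ∀ (n : ℕ) (ρ : ℝ) (F L J S : Finset ℕ)
    (Lg Q : ℕ → Finset ℕ) (Qs : Finset (Finset ℕ)), Rich n (e + 2) ρ F Qs →
    (∀ t ∈ F, n < 8 * t ∧ t ≤ 2 * n - 1) → L ⊆ F → Unit n (e + 1) D S Lg Q →
    (∀ v ∈ S, ∀ w ∈ Lg v, Q w ∈ Qs) → J ⊆ Icc 1 (2 * n - 1) → Disjoint J F →
    (∀ v ∈ S, ∀ w ∈ Lg v, Disjoint J (Q w)) → J.card ≤ S.card →
    (C * ((F \ L).card + J.card + 1) : ℝ) ≤ ρ * n →
    ∃ (S' Lu : Finset ℕ) (x y : ℕ → ℕ), S' ⊆ S ∧ S'.card = J.card ∧ Lu ⊆ L ∧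
      Tot S' Lg Q x y (J ∪ Lu) ∧ Lu.card ≤ C * J.card := by
  refine ⟨2 * (D + 4) ^ 2, ?_⟩
  intro n ρ F L J S Lg Q Qs hR hF hLF hU hQs hJ hJF hJQ hJS hC
  have hD0 : (0 : ℝ) ≤ D := Nat.cast_nonneg _
  -- induction on a subset of `J`
  have main : ∀ J' : Finset ℕ, J' ⊆ J → ∃ (S' Lu : Finset ℕ) (x y : ℕ → ℕ), S' ⊆ S ∧
      S'.card = J'.card ∧ Lu ⊆ L ∧ Tot S' Lg Q x y (J' ∪ Lu) ∧
      Lu.card ≤ 2 * (D + 3) * J'.card := by
    intro J'
    induction J' using Finset.induction_on with
    | empty =>
      intro _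
      refine ⟨∅, ∅, fun _ => 0, fun _ => 0, empty_subset _, rfl, empty_subset _, ?_, by simp⟩
      refine ⟨?_, ?_, ?_, ?_, ?_⟩ <;> simp
    | insert j J' hj ih =>
      intro hsub
      obtain ⟨S', Lu, x, y, hS', hcard, hLu, hT, hLuc⟩ :=
        ih ((subset_insert _ _).trans hsub)
      have hjJ : j ∈ J := hsub (mem_insert_self _ _)
      have hJ'J : J' ⊆ J := (subset_insert _ _).trans hsub
      have hJ'c : J'.card + 1 ≤ J.card := by
        have := card_le_card hsub
        rwa [card_insert_of_notMem hj] at this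
      obtain ⟨v, hvS, hvS'⟩ : ∃ v ∈ S, v ∉ S' := by
        by_contra hcon
        push Not at hcon
        have := card_le_card (show S ⊆ S' from fun v hv => hcon v hv)
        omega
      have hjI := mem_Icc.mp (hJ hjJ)
      have hjF : j ∉ F := disjoint_left.mp hJF hjJ
      have hjL : j ∉ Lu := fun h => hjF (hLF (hLu h))
      set B := (F \ L) ∪ Lu with hB
      have hBc : B.card ≤ (F \ L).card + 2 * (D + 3) * J'.card :=
        (card_union_le _ _).trans (by omega)
      have hBR : ((D : ℝ) + 4) * (B.card + (D + 4)) < ρ * n := by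
        refine lt_of_lt_of_le ?_ hC
        have h1 : (B.card : ℝ) ≤ (F \ L).card + 2 * (D + 3) * J'.card := by exact_mod_cast hBc
        have h2 : (J'.card : ℝ) + 1 ≤ J.card := by exact_mod_cast hJ'c
        have h3 : (0 : ℝ) ≤ ((F \ L).card : ℝ) := Nat.cast_nonneg _
        have h4 : (0 : ℝ) ≤ (J'.card : ℝ) := Nat.cast_nonneg _
        have h5 : ((D : ℝ) + 4) * (B.card + (D + 4)) ≤
            ((D : ℝ) + 4) * ((F \ L).card + 2 * (D + 3) * J'.card + (D + 4)) :=
          mul_le_mul_of_nonneg_left (by linarith) (by linarith)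
        refine lt_of_le_of_lt h5 ?_
        push_cast
        have h6 : ((D : ℝ) + 4) * ((F \ L).card + 2 * (D + 3) * J'.card + (D + 4)) <
            2 * ((D : ℝ) + 4) ^ 2 * ((F \ L).card + J'.card + 1) := by
          have k1 : ((D : ℝ) + 4) * (F \ L).card ≤ 2 * ((D : ℝ) + 4) ^ 2 * (F \ L).card := by
            apply mul_le_mul_of_nonneg_right _ h3
            nlinarith
          have k2 : ((D : ℝ) + 4) * (2 * (D + 3) * J'.card) ≤
              2 * ((D : ℝ) + 4) ^ 2 * J'.card := by
            have : ((D : ℝ) + 4) * (2 * (D + 3) * J'.card) =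
              (((D : ℝ) + 4) * (2 * (D + 3))) * J'.card := by ring
            rw [this]
            apply mul_le_mul_of_nonneg_right _ h4
            nlinarith
          have k3 : ((D : ℝ) + 4) * (D + 4) < 2 * ((D : ℝ) + 4) ^ 2 := by nlinarith
          nlinarith
        refine h6.trans_le ?_
        apply mul_le_mul_of_nonneg_left _ (by positivity)
        linarith
      obtain ⟨xn, yn, T, g1, g2, g3, g4, g5, g6, g7⟩ := unit10 he hR (fun t ht => (hF t ht).1)
        (hU.card v hvS) (hU.Qc v hvS) (hU.Qs v hvS) (hQs v hvS) hjI.1 hjI.2 hjF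
        (fun w hw => disjoint_left.mp (hJQ v hvS w hw) hjJ) hBR
      rw [hB, disjoint_union_right] at g6
      obtain ⟨g6a, g6b⟩ := g6
      have hTL : T ⊆ L := by
        intro t ht
        by_contra h
        exact disjoint_left.mp g6a ht (mem_sdiff.mpr ⟨g5 ht, h⟩)
      set x' : ℕ → ℕ := fun w => if w ∈ Lg v then xn w else x w with hx'
      set y' : ℕ → ℕ := fun u => if u = v then yn else y u with hy'
      have hy'v : y' v = yn := by simp [hy']
      have hx'v : ∀ w ∈ Lg v, x' w = xn w := fun w hw => by simp only [hx']; rw [if_pos hw]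
      have hy'u : ∀ u ∈ S', y' u = y u := fun u hu => by
        simp only [hy']
        rw [if_neg]
        rintro rfl
        exact hvS' hu
      have hx'u : ∀ u ∈ S', ∀ w ∈ Lg u, x' w = x w := fun u hu w hw => by
        simp only [hx']
        rw [if_neg]
        intro h
        refine disjoint_left.mp (hU.dj u (hS' hu) v hvS ?_) hw h
        rintro rfl
        exact hvS' hu
      have hcstv : ∀ w ∈ Lg v, cst Q x' w = cst Q xn w := fun w hw => by
        unfold cst; rw [hx'v w hw]
      have hcstu : ∀ u ∈ S', ∀ w ∈ Lg u, cst Q x' w = cst Q x w := fun u hu w hw => by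
        unfold cst; rw [hx'u u hu w hw]
      have hunv : un Lg x' v (y' v) = insert yn ((Lg v).image fun w => yn + xn w) := by
        unfold un
        rw [hy'v]
        congr 1
        apply image_congr
        intro w hw
        simp only
        rw [hx'v w hw]
      have hunu : ∀ u ∈ S', un Lg x' u (y' u) = un Lg x u (y u) := fun u hu => by
        unfold un
        rw [hy'u u hu]
        congr 1
        apply image_congr
        intro w hw
        simp only
        rw [hx'u u hu w hw]
      have htotv : tot Lg Q x' y' v = insert j T := by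
        unfold tot
        rw [hunv, ← g4]
        congr 1
        exact biUnion_congr rfl hcstv
      have htotu : ∀ u ∈ S', tot Lg Q x' y' u = tot Lg Q x y u := fun u hu => by
        unfold tot
        rw [hunu u hu]
        congr 1
        exact biUnion_congr rfl (hcstu u hu)
      have htsub : ∀ u ∈ S', tot Lg Q x y u ⊆ J' ∪ Lu := fun u hu => by
        rw [← hT.un_eq]
        exact subset_biUnion_of_mem (tot Lg Q x y) hu
      have hdisj : Disjoint (insert j T) (J' ∪ Lu) := by
        rw [disjoint_left]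
        intro t ht ht'
        rw [mem_insert] at ht
        rw [mem_union] at ht'
        rcases ht with rfl | ht
        · rcases ht' with h | h
          · exact hj h
          · exact hjL h
        · rcases ht' with h | h
          · exact disjoint_left.mp hJF (hJ'J h) (g5 ht)
          · exact disjoint_left.mp g6b ht h
      refine ⟨insert v S', Lu ∪ T, x', y', insert_subset hvS hS', ?_, union_subset hLu hTL, ?_, ?_⟩
      · rw [card_insert_of_notMem hvS', card_insert_of_notMem hj, hcard]
      · refine ⟨?_, ?_, ?_, ?_, ?_⟩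
        · intro u hu
          rcases mem_insert.mp hu with rfl | hu
          · rw [hunv]; exact g1
          · rw [hunu u hu]; exact hT.unc u hu
        · intro u hu w hw
          rcases mem_insert.mp hu with rfl | hu
          · rw [hunv, hcstv w hw]; exact g2 w hw
          · rw [hunu u hu, hcstu u hu w hw]; exact hT.unw u hu w hw
        · intro u hu w hw w' hw' hne
          rcases mem_insert.mp hu with rfl | hu
          · rw [hcstv w hw, hcstv w' hw']; exact g3 w hw w' hw' hne
          · rw [hcstu u hu w hw, hcstu u hu w' hw']; exact hT.ww u hu w hw w' hw' hne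
        · intro u hu u' hu' hne
          rcases mem_insert.mp hu with h1 | h1
          · rcases mem_insert.mp hu' with h2 | h2
            · exact absurd (h1.trans h2.symm) hne
            · rw [h1, htotv, htotu u' h2]
              exact disjoint_of_subset_right (htsub u' h2) hdisj
          · rcases mem_insert.mp hu' with h2 | h2
            · rw [h2, htotv, htotu u h1]
              exact (disjoint_of_subset_right (htsub u h1) hdisj).symm
            · rw [htotu u h1, htotu u' h2]
              exact hT.dj u h1 u' h2 hne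
        · rw [biUnion_insert, htotv, biUnion_congr rfl htotu, hT.un_eq]
          ext t
          simp only [mem_union, mem_insert]
          tauto
      · rw [card_insert_of_notMem hj]
        have := card_union_le Lu T
        nlinarith
  obtain ⟨S', Lu, x, y, h1, h2, h3, h4, h5⟩ := main J subset_rfl
  refine ⟨S', Lu, x, y, h1, h2, h3, h4, h5.trans ?_⟩
  apply Nat.mul_le_mul_right
  nlinarith

end Pool.Agent.SQ
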