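import Pool.Agent.Helper73.SQ.FED

/-!
# SQ-FE3: filling units from the reservoir with prescribed classes

Proof in words.  One unit `v` after the other.  Choose `y v = c ∈ L`, `n/2 < c ≤ 3n/4`, `c % g = κf v`, new (`Rich.a` with `O = ∅`, `j = j' = 0`).  Then for each leg `w`
choose `x w = c` with `c % g = rl w`, `c, c + q (q ∈ Q w), c + y v ∈ F` (`Rich.a` with `O = Q w`, `j = y v ≤ n`, `j' = 0`), all values new.  Every forbidden value excludes at
most `D + 4` candidates (`y v ∉ Q w` since `y v > n/2`).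
-/

set_option autoImplicit false

namespace Pool.Agent.SQ

open Finset Pool.Agent.SEM

private theorem fe3_pick {n g D M : ℕ} {ρ : ℝ} {F : Finset ℕ} {Qs : Finset (Finset ℕ)}
    (hR : Rich n g ρ F Qs) (hM : (M : ℝ) < ρ * n) {O : Finset ℕ} (hO : O ∈ Qs)
    (hOc : O.card ≤ D + 1) {κ : ℕ} (hκ : κ < g) {y : ℕ} (hy : y ≤ n) {W : Finset ℕ}
    (hW : (D + 4) * W.card ≤ M) :
    ∃ c, c ∈ F ∧ n < 2 * c ∧ 4 * c ≤ 3 * n ∧ c % g = κ ∧ (∀ q ∈ O, c + q ∈ F) ∧ y + c ∈ F ∧
      c ∉ W ∧ (∀ q ∈ O, c + q ∉ W) ∧ y + c ∉ W := by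
  classical
  by_contra hcon
  have h1 := hR.a O hO κ hκ y hy 0 (Nat.zero_le _)
  set P := F.filter fun c => n < 2 * c ∧ 4 * c ≤ 3 * n ∧
    c % g = κ ∧ (∀ q ∈ O, c + q ∈ F) ∧ c + y ∈ F ∧ c + 0 ∈ F with hP
  have hsub : P ⊆ W ∪ ((O.biUnion fun q => W.image fun t => t - q) ∪ W.image fun t => t - y) := by
    intro c hc
    rw [hP, mem_filter] at hc
    obtain ⟨hcF, h2, h3, h4, h5, h6, -⟩ := hc
    rw [mem_union, mem_union, mem_biUnion, mem_image]
    by_contra hno
    push Not at hno
    obtain ⟨k1, k2, k3⟩ := hno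
    apply hcon
    refine ⟨c, hcF, h2, h3, h4, h5, by rw [add_comm]; exact h6, k1, fun q hq hqW => ?_, fun hyW => ?_⟩
    · exact k2 q hq (mem_image.mpr ⟨c + q, hqW, by omega⟩)
    · exact k3 (y + c) hyW (by omega)
  have hc1 := card_le_card hsub
  have hc2 := card_union_le W ((O.biUnion fun q => W.image fun t => t - q) ∪ W.image fun t => t - y)
  have hc3 := card_union_le (O.biUnion fun q => W.image fun t => t - q) (W.image fun t => t - y)
  have hc4 : (W.image fun t => t - y).card ≤ W.card := card_image_le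
  have hc5 : (O.biUnion fun q => W.image fun t => t - q).card ≤ O.card * W.card :=
    card_biUnion_le_card_mul _ _ _ fun q _ => card_image_le
  have hc6 : O.card * W.card ≤ (D + 1) * W.card := Nat.mul_le_mul_right _ hOc
  have hc7 : P.card ≤ M := by
    have e1 : (D + 4) * W.card = (D + 1) * W.card + 3 * W.card := by ring
    omega
  have hc8 : (P.card : ℝ) ≤ M := by exact_mod_cast hc7
  linarith

/-- all values of the leg `w` of a unit labelled `y` -/
private def fe3V (Q : ℕ → Finset ℕ) (x : ℕ → ℕ) (y w : ℕ) : Finset ℕ := insert (y + x w) (cst Q x w)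

private theorem fe3V_card {D : ℕ} {Q : ℕ → Finset ℕ} {x : ℕ → ℕ} {y w : ℕ}
    (h : (Q w).card ≤ D + 1) : (fe3V Q x y w).card ≤ D + 4 := by
  unfold fe3V cst
  have h1 := card_insert_le (y + x w) (insert (x w) ((Q w).image fun q => x w + q))
  have h2 := card_insert_le (x w) ((Q w).image fun q => x w + q)
  have h3 : ((Q w).image fun q => x w + q).card ≤ (Q w).card := card_image_le
  omega

private theorem fe3_cst_congr {Q : ℕ → Finset ℕ} {x x' : ℕ → ℕ} {w : ℕ} (h : x w = x' w) :
    cst Q x w = cst Q x' w := by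
  unfold cst
  rw [h]

private theorem fe3V_congr {Q : ℕ → Finset ℕ} {x x' : ℕ → ℕ} {y w : ℕ} (h : x w = x' w) :
    fe3V Q x y w = fe3V Q x' y w := by
  unfold fe3V
  rw [fe3_cst_congr h, h]

private theorem fe3_legs {n g D M : ℕ} {ρ : ℝ} {F : Finset ℕ} {Qs : Finset (Finset ℕ)}
    {Q : ℕ → Finset ℕ} {rl : ℕ → ℕ}
    (hR : Rich n g ρ F Qs) (hM : (M : ℝ) < ρ * n) (hrl : ∀ w, rl w < g) {y : ℕ} (hy : y ≤ n)
    (hy2 : n < 2 * y) (W : Finset ℕ) (A : Finset ℕ) :
    (∀ w ∈ A, Q w ∈ Qs) → (∀ w ∈ A, (Q w).card ≤ D + 1) →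
    (∀ w ∈ A, ∀ q ∈ Q w, 1 ≤ q ∧ 16 * q ≤ n) →
    (D + 4) * (W.card + A.card * (D + 4)) ≤ M →
    ∃ x : ℕ → ℕ, (∀ w ∈ A, x w % g = rl w) ∧ (∀ w ∈ A, fe3V Q x y w ⊆ F) ∧
      (∀ w ∈ A, Disjoint (fe3V Q x y w) W) ∧
      (∀ w ∈ A, ∀ w' ∈ A, w ≠ w' → Disjoint (fe3V Q x y w) (fe3V Q x y w')) ∧
      (∀ w ∈ A, y + x w ∉ cst Q x w) := by
  classical
  induction A using Finset.induction_on with
  | empty =>
    intro _ _ _ _
    exact ⟨fun _ => 0, by simp, by simp, by simp, by simp, by simp⟩
  | insert a A ha ih =>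
    intro hQ hQc hQq hbd
    have hcA : (insert a A).card = A.card + 1 := card_insert_of_notMem ha
    rw [hcA] at hbd
    obtain ⟨x, h1, h2, h3, h4, h5⟩ := ih (fun w hw => hQ w (mem_insert_of_mem hw))
      (fun w hw => hQc w (mem_insert_of_mem hw)) (fun w hw => hQq w (mem_insert_of_mem hw))
      (le_trans (Nat.mul_le_mul_left _ (by
        have : A.card * (D + 4) ≤ (A.card + 1) * (D + 4) := Nat.mul_le_mul_right _ (by omega)
        omega)) hbd)
    have hW' : (D + 4) * (W ∪ A.biUnion (fe3V Q x y)).card ≤ M := by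
      refine le_trans (Nat.mul_le_mul_left _ ?_) hbd
      have e1 := card_union_le W (A.biUnion (fe3V Q x y))
      have e2 : (A.biUnion (fe3V Q x y)).card ≤ A.card * (D + 4) :=
        card_biUnion_le_card_mul _ _ _ fun w hw => fe3V_card (hQc w (mem_insert_of_mem hw))
      have e3 : A.card * (D + 4) ≤ (A.card + 1) * (D + 4) := Nat.mul_le_mul_right _ (by omega)
      omega
    obtain ⟨c, hcF, hc1, hc2, hc3, hc4, hc5, hc6, hc7, hc8⟩ := fe3_pick hR hM
      (hQ a (mem_insert_self _ _)) (hQc a (mem_insert_self _ _)) (hrl a) hy hW'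
    have hxa : Function.update x a c a = c := Function.update_self _ _ _
    have hxo : ∀ w ∈ A, Function.update x a c w = x w := fun w hw =>
      Function.update_of_ne (by rintro rfl; exact ha hw) _ _
    have hVa : ∀ t ∈ fe3V Q (Function.update x a c) y a, t = y + c ∨ t = c ∨
        ∃ q ∈ Q a, t = c + q := by
      intro t ht
      unfold fe3V cst at ht
      rw [hxa, mem_insert, mem_insert, mem_image] at ht
      rcases ht with h | h | ⟨q, hq, h⟩
      · exact Or.inl h
      · exact Or.inr (Or.inl h)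
      · exact Or.inr (Or.inr ⟨q, hq, h.symm⟩)
    have hVaF : fe3V Q (Function.update x a c) y a ⊆ F := by
      intro t ht
      rcases hVa t ht with h | h | ⟨q, hq, h⟩
      · rw [h]; exact hc5
      · rw [h]; exact hcF
      · rw [h]; exact hc4 q hq
    have hVaW : Disjoint (fe3V Q (Function.update x a c) y a) (W ∪ A.biUnion (fe3V Q x y)) := by
      rw [disjoint_left]
      intro t ht
      rcases hVa t ht with h | h | ⟨q, hq, h⟩
      · rw [h]; exact hc8
      · rw [h]; exact hc6
      · rw [h]; exact hc7 q hq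
    have hVo : ∀ w ∈ A, fe3V Q (Function.update x a c) y w = fe3V Q x y w := fun w hw =>
      fe3V_congr (hxo w hw)
    have hVaA : ∀ w ∈ A, Disjoint (fe3V Q (Function.update x a c) y a) (fe3V Q x y w) := by
      intro w hw
      refine disjoint_of_subset_right ?_ hVaW
      intro t ht
      exact mem_union_right _ (mem_biUnion.mpr ⟨w, hw, ht⟩)
    refine ⟨Function.update x a c, ?_, ?_, ?_, ?_, ?_⟩
    · intro w hw
      rcases mem_insert.mp hw with rfl | hw
      · rw [hxa]; exact hc3
      · rw [hxo w hw]; exact h1 w hw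
    · intro w hw
      rcases mem_insert.mp hw with rfl | hw
      · exact hVaF
      · rw [hVo w hw]; exact h2 w hw
    · intro w hw
      rcases mem_insert.mp hw with rfl | hw
      · exact disjoint_of_subset_right subset_union_left hVaW
      · rw [hVo w hw]; exact h3 w hw
    · intro w hw w' hw' hne
      rcases mem_insert.mp hw with rfl | hw1
      · rcases mem_insert.mp hw' with rfl | hw'1
        · exact absurd rfl hne
        · rw [hVo w' hw'1]
          exact hVaA w' hw'1
      · rcases mem_insert.mp hw' with rfl | hw'1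
        · rw [hVo w hw1]
          exact (hVaA w hw1).symm
        · rw [hVo w hw1, hVo w' hw'1]
          exact h4 w hw1 w' hw'1 hne
    · intro w hw
      rcases mem_insert.mp hw with rfl | hw
      · intro hmem
        unfold cst at hmem
        rw [hxa, mem_insert, mem_image] at hmem
        rcases hmem with h | ⟨q, hq, h⟩
        · omega
        · have := hQq w (mem_insert_self _ _) q hq
          omega
      · rw [fe3_cst_congr (hxo w hw), hxo w hw]
        exact h5 w hw

private theorem fe3_fill {e D M n : ℕ} {ρ : ℝ} {F L : Finset ℕ}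
    {Lg Q : ℕ → Finset ℕ} {Qs : Finset (Finset ℕ)} {κf rl : ℕ → ℕ} (hR : Rich n (e + 2) ρ F Qs)
    (hM : (M : ℝ) < ρ * n) (hLF : L ⊆ F) (h0 : ∅ ∈ Qs)
    (hκ : ∀ v, κf v < e + 2) (hrl : ∀ w, rl w < e + 2) (S : Finset ℕ) :
    Unit n (e + 1) D S Lg Q → (∀ v ∈ S, ∀ w ∈ Lg v, Q w ∈ Qs) →
    (D + 4) * ((F \ L).card + (S.card + 1) * (1 + (e + 1) * (D + 4))) ≤ M →
    ∃ (x y : ℕ → ℕ) (T : Finset ℕ), Tot S Lg Q x y T ∧ T ⊆ L ∧
      T.card ≤ S.card * (1 + (e + 1) * (D + 4)) ∧
      (∀ v ∈ S, y v % (e + 2) = κf v) ∧ ∀ v ∈ S, ∀ w ∈ Lg v, x w % (e + 2) = rl w := by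
  classical
  induction S using Finset.induction_on with
  | empty =>
    intro _ _ _
    exact ⟨fun _ => 0, fun _ => 0, ∅, ⟨by simp, by simp, by simp, by simp, by simp⟩, by simp, by simp,
      by simp, by simp⟩
  | insert a S ha ih =>
    intro hU hQs hbd
    have hcA : (insert a S).card = S.card + 1 := card_insert_of_notMem ha
    rw [hcA] at hbd
    set K := 1 + (e + 1) * (D + 4) with hK
    have hU' : Unit n (e + 1) D S Lg Q :=
      ⟨fun v hv => hU.card v (mem_insert_of_mem hv),
        fun v hv v' hv' => hU.dj v (mem_insert_of_mem hv) v' (mem_insert_of_mem hv'),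
        fun v hv => hU.Qc v (mem_insert_of_mem hv), fun v hv => hU.Qs v (mem_insert_of_mem hv)⟩
    obtain ⟨x, y, T, hT, hTL, hTc, hy, hx⟩ := ih hU' (fun v hv => hQs v (mem_insert_of_mem hv))
      (le_trans (Nat.mul_le_mul_left _ (by
        have : (S.card + 1) * K ≤ (S.card + 1 + 1) * K := Nat.mul_le_mul_right _ (by omega)
        omega)) hbd)
    have haS : a ∈ insert a S := mem_insert_self _ _
    have hWc : ((F \ L) ∪ T).card ≤ (F \ L).card + S.card * K :=
      (card_union_le _ _).trans (by omega)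
    have hsK : (S.card + 1 + 1) * K = S.card * K + K + K := by ring
    have hsK1 : (S.card + 1) * K = S.card * K + K := by ring
    have hK1 : 1 ≤ K := by omega
    obtain ⟨c, hcF, hc1, hc2, hc3, -, -, hc6, -, -⟩ := fe3_pick (D := D) (W := (F \ L) ∪ T)
      (y := 0) hR hM h0
      (by rw [card_empty]; omega) (hκ a) (Nat.zero_le _)
      (le_trans (Nat.mul_le_mul_left _ (by omega)) hbd)
    have hW1 : (insert c ((F \ L) ∪ T)).card ≤ (F \ L).card + S.card * K + 1 :=
      (card_insert_le _ _).trans (by omega)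
    obtain ⟨z, z1, z2, z3, z4, z5⟩ := fe3_legs (D := D) (Q := Q) (rl := rl) (y := c) hR hM hrl
      (by omega) hc1 (insert c ((F \ L) ∪ T)) (Lg a) (hQs a haS) (hU.Qc a haS) (hU.Qs a haS)
      (le_trans (Nat.mul_le_mul_left _ (by
        rw [hU.card a haS]
        omega)) hbd)
    have hLgo : ∀ v ∈ S, ∀ w ∈ Lg v, w ∉ Lg a := by
      intro v hv w hw hwa
      exact disjoint_left.mp (hU.dj v (mem_insert_of_mem hv) a haS (fun h => ha (h ▸ hv))) hw hwa
    set x' : ℕ → ℕ := fun w => if w ∈ Lg a then z w else x w with hx'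
    set y' : ℕ → ℕ := Function.update y a c with hy'
    have hxa : ∀ w ∈ Lg a, x' w = z w := fun w hw => by rw [hx']; exact if_pos hw
    have hxo : ∀ v ∈ S, ∀ w ∈ Lg v, x' w = x w := fun v hv w hw => by
      rw [hx']; exact if_neg (hLgo v hv w hw)
    have hya : y' a = c := Function.update_self _ _ _
    have hyo : ∀ v ∈ S, y' v = y v := fun v hv =>
      Function.update_of_ne (by rintro rfl; exact ha hv) _ _
    have hcsto : ∀ v ∈ S, ∀ w ∈ Lg v, cst Q x' w = cst Q x w := fun v hv w hw =>
      fe3_cst_congr (hxo v hv w hw)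
    have hcsta : ∀ w ∈ Lg a, cst Q x' w = cst Q z w := fun w hw => fe3_cst_congr (hxa w hw)
    have huno : ∀ v ∈ S, un Lg x' v (y' v) = un Lg x v (y v) := by
      intro v hv
      unfold un
      rw [hyo v hv]
      congr 1
      exact image_congr fun w hw => by
        show y v + x' w = y v + x w
        rw [hxo v hv w (mem_coe.mp hw)]
    have huna : un Lg x' a (y' a) = un Lg z a c := by
      unfold un
      rw [hya]
      congr 1
      exact image_congr fun w hw => by
        show c + x' w = c + z w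
        rw [hxa w (mem_coe.mp hw)]
    have htoto : ∀ v ∈ S, tot Lg Q x' y' v = tot Lg Q x y v := by
      intro v hv
      unfold tot
      rw [huno v hv]
      congr 1
      exact biUnion_congr rfl fun w hw => hcsto v hv w hw
    have hmemun : ∀ t, t ∈ un Lg z a c ↔ t = c ∨ ∃ w ∈ Lg a, c + z w = t := by
      intro t
      unfold un
      rw [mem_insert, mem_image]
    have hVz : ∀ w ∈ Lg a, c + z w ∈ fe3V Q z c w := fun w _ => mem_insert_self _ _
    have hVc : ∀ w ∈ Lg a, cst Q z w ⊆ fe3V Q z c w := fun w _ => subset_insert _ _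
    have hmemtot : ∀ t ∈ tot Lg Q x' y' a, t = c ∨ ∃ w ∈ Lg a, t ∈ fe3V Q z c w := by
      intro t ht
      unfold tot at ht
      rw [huna, mem_union, hmemun, mem_biUnion] at ht
      rcases ht with (h | ⟨w, hw, h⟩) | ⟨w, hw, h⟩
      · exact Or.inl h
      · exact Or.inr ⟨w, hw, h ▸ hVz w hw⟩
      · rw [hcsta w hw] at h
        exact Or.inr ⟨w, hw, hVc w hw h⟩
    have htotF : tot Lg Q x' y' a ⊆ F := by
      intro t ht
      rcases hmemtot t ht with h | ⟨w, hw, h⟩
      · rw [h]; exact hcF
      · exact z2 w hw h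
    have htotW : Disjoint (tot Lg Q x' y' a) ((F \ L) ∪ T) := by
      rw [disjoint_left]
      intro t ht
      rcases hmemtot t ht with h | ⟨w, hw, h⟩
      · rw [h]; exact hc6
      · intro htW
        exact disjoint_left.mp (z3 w hw) h (mem_insert_of_mem htW)
    have htotL : tot Lg Q x' y' a ⊆ L := by
      intro t ht
      by_contra hno
      exact disjoint_left.mp htotW ht (mem_union_left _ (mem_sdiff.mpr ⟨htotF ht, hno⟩))
    have htotT : Disjoint (tot Lg Q x' y' a) T := disjoint_of_subset_right subset_union_right htotW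
    have hcn : ∀ w ∈ Lg a, c ∉ fe3V Q z c w := fun w hw hmem =>
      disjoint_left.mp (z3 w hw) hmem (mem_insert_self _ _)
    have htotc : (tot Lg Q x' y' a).card ≤ K := by
      have e1 : tot Lg Q x' y' a ⊆ insert c ((Lg a).biUnion (fe3V Q z c)) := by
        intro t ht
        rcases hmemtot t ht with h | h
        · rw [h]; exact mem_insert_self _ _
        · exact mem_insert_of_mem (mem_biUnion.mpr h)
      have e2 := card_le_card e1
      have e3 := card_insert_le c ((Lg a).biUnion (fe3V Q z c))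
      have e4 : ((Lg a).biUnion (fe3V Q z c)).card ≤ (Lg a).card * (D + 4) :=
        card_biUnion_le_card_mul _ _ _ fun w hw => fe3V_card (hU.Qc a haS w hw)
      rw [hU.card a haS] at e4
      omega
    refine ⟨x', y', tot Lg Q x' y' a ∪ T, ⟨?_, ?_, ?_, ?_, ?_⟩, ?_, ?_, ?_, ?_⟩
    · intro v hv
      rcases mem_insert.mp hv with rfl | hv
      · rw [huna]
        unfold un
        rw [card_insert_of_notMem, card_image_of_injOn]
        · intro w hw w' hw' hww
          by_contra hne
          have hd := z4 w (mem_coe.mp hw) w' (mem_coe.mp hw') hne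
          have hww' : c + z w = c + z w' := hww
          exact disjoint_left.mp hd (hVz w hw) (hww' ▸ hVz w' hw')
        · intro hmem
          rw [mem_image] at hmem
          obtain ⟨w, hw, h⟩ := hmem
          have := hVz w hw
          rw [h] at this
          exact hcn w hw this
      · rw [huno v hv]
        exact hT.unc v hv
    · intro v hv w hw
      rcases mem_insert.mp hv with rfl | hv
      · rw [huna, hcsta w hw, disjoint_left]
        intro t ht htc
        rw [hmemun] at ht
        rcases ht with h | ⟨w', hw', h⟩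
        · rw [h] at htc
          exact hcn w hw (hVc w hw htc)
        · by_cases hww : w' = w
          · subst hww
            rw [← h] at htc
            exact z5 w' hw' htc
          · rw [← h] at htc
            exact disjoint_left.mp (z4 w' hw' w hw hww) (hVz w' hw') (hVc w hw htc)
      · rw [huno v hv, hcsto v hv w hw]
        exact hT.unw v hv w hw
    · intro v hv w hw w' hw' hne
      rcases mem_insert.mp hv with rfl | hv
      · rw [hcsta w hw, hcsta w' hw']
        exact disjoint_of_subset_left (hVc w hw) (disjoint_of_subset_right (hVc w' hw')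
          (z4 w hw w' hw' hne))
      · rw [hcsto v hv w hw, hcsto v hv w' hw']
        exact hT.ww v hv w hw w' hw' hne
    · intro v hv v' hv' hne
      have hsubT : ∀ v ∈ S, tot Lg Q x y v ⊆ T := by
        intro v hv t ht
        rw [← hT.un_eq]
        exact mem_biUnion.mpr ⟨v, hv, ht⟩
      rcases mem_insert.mp hv with rfl | hv1
      · rcases mem_insert.mp hv' with rfl | hv'1
        · exact absurd rfl hne
        · rw [htoto v' hv'1]
          exact disjoint_of_subset_right (hsubT v' hv'1) htotT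
      · rcases mem_insert.mp hv' with rfl | hv'1
        · rw [htoto v hv1]
          exact (disjoint_of_subset_right (hsubT v hv1) htotT).symm
        · rw [htoto v hv1, htoto v' hv'1]
          exact hT.dj v hv1 v' hv'1 hne
    · rw [biUnion_insert]
      congr 1
      rw [← hT.un_eq]
      exact biUnion_congr rfl fun v hv => htoto v hv
    · exact union_subset htotL hTL
    · rw [hcA]
      have e1 := card_union_le (tot Lg Q x' y' a) T
      omega
    · intro v hv
      rcases mem_insert.mp hv with rfl | hv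
      · rw [hya]; exact hc3
      · rw [hyo v hv]; exact hy v hv
    · intro v hv w hw
      rcases mem_insert.mp hv with rfl | hv
      · rw [hxa w hw]; exact z1 w hw
      · rw [hxo v hv w hw]; exact hx v hv w hw

theorem fill (e D : ℕ) (he : e ≤ 1) : ∃ C : ℕ, ∀ (n : ℕ) (ρ : ℝ) (F L S : Finset ℕ)
    (Lg Q : ℕ → Finset ℕ) (Qs : Finset (Finset ℕ)) (κf rl : ℕ → ℕ), Rich n (e + 2) ρ F Qs →
    L ⊆ F → Unit n (e + 1) D S Lg Q → ∅ ∈ Qs → (∀ v ∈ S, ∀ w ∈ Lg v, Q w ∈ Qs) →
    (∀ v, κf v < e + 2) → (∀ w, rl w < e + 2) →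
    (C * ((F \ L).card + S.card + 1) : ℝ) ≤ ρ * n →
    ∃ (x y : ℕ → ℕ) (T : Finset ℕ), Tot S Lg Q x y T ∧ T ⊆ L ∧
      (∀ v ∈ S, y v % (e + 2) = κf v) ∧ ∀ v ∈ S, ∀ w ∈ Lg v, x w % (e + 2) = rl w := by
  refine ⟨(D + 4) * (1 + (e + 1) * (D + 4)) + 1, ?_⟩
  intro n ρ F L S Lg Q Qs κf rl hR hLF hU h0 hQs hκ hrl hbd
  set K := 1 + (e + 1) * (D + 4) with hK
  have hM : (((D + 4) * ((F \ L).card + (S.card + 1) * K) : ℕ) : ℝ) < ρ * n := by
    refine lt_of_lt_of_le ?_ hbd
    have h1 : (D + 4) * ((F \ L).card + (S.card + 1) * K) <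
        ((D + 4) * K + 1) * ((F \ L).card + S.card + 1) := by
      have e1 : (F \ L).card ≤ K * (F \ L).card := Nat.le_mul_of_pos_left _ (by omega)
      have e2 : (D + 4) * ((F \ L).card + (S.card + 1) * K) ≤
          (D + 4) * (K * (F \ L).card + (S.card + 1) * K) :=
        Nat.mul_le_mul_left _ (by omega)
      have e3 : (D + 4) * (K * (F \ L).card + (S.card + 1) * K) =
          ((D + 4) * K) * ((F \ L).card + S.card + 1) := by ring
      have e4 : ((D + 4) * K + 1) * ((F \ L).card + S.card + 1) =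
          ((D + 4) * K) * ((F \ L).card + S.card + 1) + ((F \ L).card + S.card + 1) := by ring
      omega
    exact_mod_cast h1
  obtain ⟨x, y, T, h1, h2, -, h3, h4⟩ := fe3_fill (D := D) hR hM hLF h0 hκ hrl S hU hQs le_rfl
  exact ⟨x, y, T, h1, h2, h3, h4⟩

end Pool.Agent.SQ
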