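import Pool.Agent.Helper73.SQ.FE3

/-!
# SQ-FE4: the end game before the absorber

`S` = remaining reserved units, `X` = adjusting vertices (`≤ 1`) with offsets `O x` (labels of the neighbours), `g = e + 2`.
We must use up exactly all but `m κ` elements of `L` in each class `κ`.

Proof in words.  All offsets are `≡ 0 mod g`.  A unit `v` with legs `≡ 0` and `y ≡ κ` uses `g` elements of the class `κ` and `gam Lg Q v` elements of the class `0`.
(A) `e = 0` (`g = 2`), `X = {x}`: `|O x|` is even, so a label `z ≡ r` for `x` uses the odd number `1 + |O x|` of elements of the class `r`.  Choose `r` such that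
afterwards the number of elements of `L` of the class `1` is `≡ m 1 mod 2`.  `X = ∅`: this holds by `hpar`.  Then also the class `0` is right modulo `2` (total number).
(B) `e = 1` (`g = 3`): `X = {x}`, `|O x| = 1`: `z ≡ r` uses two elements of the class `r`.  One unit `v1 ∈ S` is labelled with legs `≡ 0` and `≡ 1` and `y ≡ s`: it uses (apart
from fixed numbers of elements of the classes `0`, `1` for the legs) two elements of the class `s` and one of the class `s + 1`.  The vectors `2 e_r + 2 e_s + e_{s+1}` mod `3` are exactly all the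
vectors with coordinate sum `2` mod `3` (`9` of them), so `r, s` can be chosen such that all classes are right modulo `3`.
(C) Now for the remaining units `S'` the numbers `q κ = (#L_κ - m κ - [κ = 0] ∑_{S'} gam) / g` are nonnegative integers (`hslack`: `#L_κ ≥ #F_κ - |F \ L| - const`) with sum
`|S'|` (`htot`): choose a class function `κf` on `S'` with these multiplicities and apply `fill` (and before that choose `z`, `v1` by `Rich.a` resp. `fill` for one unit).
-/

set_option autoImplicit false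

namespace Pool.Agent.SQ

open Finset Pool.Agent.SEM

/-- number of elements of the class `κ` -/
private def cn68 (g κ : ℕ) (A : Finset ℕ) : ℕ := (A.filter fun t => t % g = κ).card

private theorem card_cls68 {g : ℕ} (hg : 0 < g) (L : Finset ℕ) :
    L.card = ∑ κ ∈ range g, cn68 g κ L := by
  refine Finset.card_eq_sum_card_fiberwise (f := fun t => t % g) fun t _ => ?_
  rw [coe_range, Set.mem_Iio]
  exact Nat.mod_lt _ hg

private theorem cn_union68 {g κ : ℕ} {A B : Finset ℕ} (h : Disjoint A B) :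
    cn68 g κ (A ∪ B) = cn68 g κ A + cn68 g κ B := by
  unfold cn68
  rw [filter_union, card_union_of_disjoint]
  exact disjoint_filter_filter h

private theorem cn_biUnion68 {g κ : ℕ} {S : Finset ℕ} {f : ℕ → Finset ℕ}
    (h : ∀ v ∈ S, ∀ v' ∈ S, v ≠ v' → Disjoint (f v) (f v')) :
    cn68 g κ (S.biUnion f) = ∑ v ∈ S, cn68 g κ (f v) := by
  unfold cn68
  rw [filter_biUnion, card_biUnion]
  intro v hv v' hv' hne
  exact disjoint_filter_filter (h v hv v' hv' hne)

private theorem cn_sdiff68 {g κ : ℕ} {A B : Finset ℕ} (h : B ⊆ A) :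
    cn68 g κ (A \ B) + cn68 g κ B = cn68 g κ A := by
  rw [← cn_union68 (disjoint_sdiff_self_left), sdiff_union_of_subset h]

private theorem cn_cst68 {g κ : ℕ} {a : ℕ} {O : Finset ℕ}
    (hO : ∀ q ∈ O, q % g = 0 ∧ 1 ≤ q) :
    cn68 g κ (insert a (O.image fun q => a + q)) = if a % g = κ then 1 + O.card else 0 := by
  have hcl : ∀ t ∈ insert a (O.image fun q => a + q), t % g = a % g := by
    intro t ht
    rw [mem_insert, mem_image] at ht
    rcases ht with rfl | ⟨q, hq, rfl⟩
    · rfl
    · rw [Nat.add_mod, (hO q hq).1, add_zero, Nat.mod_mod]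
  unfold cn68
  split_ifs with h
  · rw [filter_true_of_mem fun t ht => (hcl t ht).trans h, card_insert_of_notMem, card_image_of_injective,
      add_comm]
    · intro p q hpq
      exact Nat.add_left_cancel hpq
    · rw [mem_image]
      rintro ⟨q, hq, h1⟩
      have := (hO q hq).2
      omega
  · rw [filter_false_of_mem, card_empty]
    intro t ht h1
    exact h ((hcl t ht).symm.trans h1)

private theorem cn_un68 {g κ : ℕ} {Lg : ℕ → Finset ℕ} {x : ℕ → ℕ} {v y : ℕ}
    (h : (un Lg x v y).card = (Lg v).card + 1) :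
    cn68 g κ (un Lg x v y) = (if y % g = κ then 1 else 0) +
      ((Lg v).filter fun w => (y + x w) % g = κ).card := by
  have h1 : y ∉ (Lg v).image fun w => y + x w := by
    intro hy
    unfold un at h
    rw [insert_eq_of_mem hy] at h
    have := card_image_le (s := Lg v) (f := fun w => y + x w)
    omega
  have h2 : ((Lg v).image fun w => y + x w).card = (Lg v).card := by
    unfold un at h
    rw [card_insert_of_notMem h1] at h
    omega
  have h3 : Set.InjOn (fun w => y + x w) (Lg v : Set ℕ) := card_image_iff.mp h2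
  unfold cn68 un
  rw [filter_insert]
  have h4 : (((Lg v).image fun w => y + x w).filter fun t => t % g = κ).card =
      ((Lg v).filter fun w => (y + x w) % g = κ).card := by
    rw [filter_image, card_image_of_injOn (h3.mono (coe_subset.mpr (filter_subset _ _)))]
  split_ifs with h5
  · rw [card_insert_of_notMem fun h6 => h1 (mem_of_mem_filter _ h6), h4, add_comm]
  · rw [h4, zero_add]

private theorem adj68 {n g D r : ℕ} {ρ : ℝ} {F L : Finset ℕ} {Qs : Finset (Finset ℕ)}
    (hR : Rich n g ρ F Qs) {O : Finset ℕ} (hO : O ∈ Qs) (hOc : O.card ≤ D + 1)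
    (hr : r < g) (h : (((D + 2) * (F \ L).card : ℕ) : ℝ) < ρ * n) :
    ∃ z, z % g = r ∧ insert z (O.image fun q => z + q) ⊆ L := by
  have h1 := hR.a O hO r hr 0 (Nat.zero_le _) 0 (Nat.zero_le _)
  set A := F.filter fun c => n < 2 * c ∧ 4 * c ≤ 3 * n ∧
    c % g = r ∧ (∀ q ∈ O, c + q ∈ F) ∧ c + 0 ∈ F ∧ c + 0 ∈ F with hA
  by_contra hcon
  push Not at hcon
  have hsub : A ⊆ (F \ L) ∪ O.biUnion fun q => (F \ L).image fun t => t - q := by
    intro c hc
    rw [hA, mem_filter] at hc
    obtain ⟨hcF, -, -, hcr, hcO, -, -⟩ := hc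
    have h2 := hcon c hcr
    rw [mem_union, mem_biUnion]
    by_cases hcL : c ∈ L
    · right
      by_contra h3
      push Not at h3
      apply h2
      intro t ht
      rw [mem_insert, mem_image] at ht
      rcases ht with rfl | ⟨q, hq, rfl⟩
      · exact hcL
      · by_contra h4
        apply h3 q hq
        rw [mem_image]
        exact ⟨c + q, mem_sdiff.mpr ⟨hcO q hq, h4⟩, by omega⟩
    · left
      exact mem_sdiff.mpr ⟨hcF, hcL⟩
  have h2 : A.card ≤ (D + 2) * (F \ L).card := by
    refine (card_le_card hsub).trans ((card_union_le _ _).trans ?_)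
    have h3 : (O.biUnion fun q => (F \ L).image fun t => t - q).card ≤ O.card * (F \ L).card :=
      card_biUnion_le_card_mul _ _ _ fun q _ => card_image_le
    have h4 : O.card * (F \ L).card ≤ (D + 1) * (F \ L).card := Nat.mul_le_mul_right _ hOc
    nlinarith
  have h3 : (A.card : ℝ) ≤ (((D + 2) * (F \ L).card : ℕ) : ℝ) := by exact_mod_cast h2
  linarith

/-- the values used by unit `v` in the class `κ` -/
private def ct68 (g κ : ℕ) (Lg Q : ℕ → Finset ℕ) (κf rl : ℕ → ℕ) (v : ℕ) : ℕ :=
  ((if κf v = κ then 1 else 0) + ((Lg v).filter fun w => (κf v + rl w) % g = κ).card) +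
    ∑ w ∈ Lg v, if rl w = κ then 1 + (Q w).card else 0

private theorem core68 (e D : ℕ) (he : e ≤ 1) : ∃ C : ℕ, ∀ (n : ℕ) (ρ : ℝ) (F L S X : Finset ℕ)
    (Lg Q O : ℕ → Finset ℕ) (Qs : Finset (Finset ℕ)) (κf rl : ℕ → ℕ) (r : ℕ), Rich n (e + 2) ρ F Qs →
    L ⊆ F → Unit n (e + 1) D S Lg Q → ∅ ∈ Qs → (∀ v ∈ S, ∀ w ∈ Lg v, Q w ∈ Qs) →
    (∀ v ∈ S, ∀ w ∈ Lg v, ∀ q ∈ Q w, q % (e + 2) = 0) →
    X.card ≤ 1 → (∀ x ∈ X, O x ∈ Qs ∧ (O x).card ≤ D + 1 ∧ ∀ q ∈ O x, q % (e + 2) = 0 ∧ 1 ≤ q) →
    (∀ v, κf v < e + 2) → (∀ w, rl w < e + 2) → r < e + 2 →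
    (C * ((F \ L).card + S.card + 1) : ℝ) ≤ ρ * n →
    ∃ (x y z : ℕ → ℕ) (T L' : Finset ℕ), Tot S Lg Q x y T ∧ T ⊆ L ∧
      (∀ v ∈ X, insert (z v) ((O v).image fun q => z v + q) ⊆ L ∧
        Disjoint (insert (z v) ((O v).image fun q => z v + q)) T) ∧
      L' = L \ (T ∪ X.biUnion fun v => insert (z v) ((O v).image fun q => z v + q)) ∧
      ∀ κ, (L'.filter fun t => t % (e + 2) = κ).card +
        (∑ v ∈ S, ct68 (e + 2) κ Lg Q κf rl v + ∑ v ∈ X, if r = κ then 1 + (O v).card else 0) =
        (L.filter fun t => t % (e + 2) = κ).card := by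
  obtain ⟨Cf, hfill⟩ := fill e D he
  refine ⟨(Cf + 1) * (D + 3), fun n ρ F L S X Lg Q O Qs κf rl r hR hLF hU hem hQ hQ0 hX1 hX hκf hrl
    hr hρ => ?_⟩
  -- the adjusting vertex
  have hρ' : ((((Cf + 1) * (D + 3)) * ((F \ L).card + S.card + 1) : ℕ) : ℝ) ≤ ρ * n := by
    refine le_trans (le_of_eq ?_) hρ
    push_cast
    ring
  have hz : ∃ z : ℕ → ℕ, ∀ v ∈ X, z v % (e + 2) = r ∧
      insert (z v) ((O v).image fun q => z v + q) ⊆ L := by
    have h1 : ∀ v : ℕ, ∃ z : ℕ, v ∈ X → z % (e + 2) = r ∧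
        insert z ((O v).image fun q => z + q) ⊆ L := by
      intro v
      by_cases hv : v ∈ X
      · obtain ⟨z, hz⟩ := adj68 (L := L) hR (hX v hv).1 (hX v hv).2.1 hr (by
          refine lt_of_lt_of_le ?_ hρ'
          have : (D + 2) * (F \ L).card < (Cf + 1) * (D + 3) * ((F \ L).card + S.card + 1) := by
            have h2 : (D + 3) * ((F \ L).card + S.card + 1) ≤
                (Cf + 1) * ((D + 3) * ((F \ L).card + S.card + 1)) :=
              Nat.le_mul_of_pos_left _ (Nat.succ_pos _)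
            have h3 : (D + 2) * (F \ L).card < (D + 3) * ((F \ L).card + S.card + 1) := by
              nlinarith
            rw [mul_assoc]
            omega
          exact_mod_cast this)
        exact ⟨z, fun _ => hz⟩
      · exact ⟨0, fun h => absurd h hv⟩
    choose z hz using h1
    exact ⟨z, hz⟩
  obtain ⟨z, hz⟩ := hz
  set Z : ℕ → Finset ℕ := fun v => insert (z v) ((O v).image fun q => z v + q) with hZ
  have hZL : X.biUnion Z ⊆ L := biUnion_subset.mpr fun v hv => (hz v hv).2
  have hZc : (X.biUnion Z).card ≤ D + 2 := by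
    have h1 : (X.biUnion Z).card ≤ X.card * (D + 2) := by
      refine card_biUnion_le_card_mul _ _ _ fun v hv => ?_
      refine (card_insert_le _ _).trans ?_
      have h2 := card_image_le (s := O v) (f := fun q => z v + q)
      have h3 := (hX v hv).2.1
      omega
    have h2 : X.card * (D + 2) ≤ 1 * (D + 2) := Nat.mul_le_mul_right _ hX1
    omega
  have hZd : ∀ v ∈ X, ∀ v' ∈ X, v ≠ v' → Disjoint (Z v) (Z v') := fun v hv v' hv' hne =>
    absurd (card_le_one.mp hX1 v hv v' hv') hne
  set L1 := L \ X.biUnion Z with hL1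
  have hFL1 : (F \ L1).card ≤ (F \ L).card + (D + 2) := by
    have h1 : F \ L1 ⊆ (F \ L) ∪ X.biUnion Z := by
      intro t ht
      rw [mem_sdiff, hL1, mem_sdiff] at ht
      rw [mem_union, mem_sdiff]
      by_contra h2
      push Not at h2
      exact ht.2 ⟨by
        by_contra h3
        exact h3 (h2.1 ht.1), h2.2⟩
    exact (card_le_card h1).trans ((card_union_le _ _).trans (by omega))
  obtain ⟨x, y, T, hT, hTL1, hy, hx⟩ := hfill n ρ F L1 S Lg Q Qs κf rl hR
    (sdiff_subset.trans hLF) hU hem hQ hκf hrl (by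
      refine le_trans ?_ hρ'
      have h2 : Cf * ((F \ L1).card + S.card + 1) ≤
          (Cf + 1) * (D + 3) * ((F \ L).card + S.card + 1) := by
        have h3 : (F \ L1).card + S.card + 1 ≤ (D + 3) * ((F \ L).card + S.card + 1) := by
          nlinarith
        calc Cf * ((F \ L1).card + S.card + 1)
            ≤ (Cf + 1) * ((D + 3) * ((F \ L).card + S.card + 1)) :=
              Nat.mul_le_mul (Nat.le_succ _) h3
          _ = _ := by ring
      have h3 : ((Cf * ((F \ L1).card + S.card + 1) : ℕ) : ℝ) ≤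
          (((Cf + 1) * (D + 3) * ((F \ L).card + S.card + 1) : ℕ) : ℝ) := by exact_mod_cast h2
      refine le_trans (le_of_eq ?_) h3
      push_cast
      ring)
  have hTZ : Disjoint T (X.biUnion Z) := by
    refine disjoint_left.mpr fun t ht ht' => ?_
    have := hTL1 ht
    rw [hL1, mem_sdiff] at this
    exact this.2 ht'
  have hTL : T ⊆ L := hTL1.trans sdiff_subset
  refine ⟨x, y, z, T, L \ (T ∪ X.biUnion Z), hT, hTL, fun v hv => ⟨(hz v hv).2, ?_⟩, rfl, ?_⟩
  · exact (disjoint_of_subset_right (subset_biUnion_of_mem Z hv) hTZ).symm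
  · intro κ
    have h1 : cn68 (e + 2) κ (L \ (T ∪ X.biUnion Z)) + cn68 (e + 2) κ (T ∪ X.biUnion Z) =
        cn68 (e + 2) κ L := cn_sdiff68 (union_subset hTL hZL)
    have h2 : cn68 (e + 2) κ (T ∪ X.biUnion Z) = ∑ v ∈ S, ct68 (e + 2) κ Lg Q κf rl v +
        ∑ v ∈ X, if r = κ then 1 + (O v).card else 0 := by
      rw [cn_union68 hTZ, cn_biUnion68 hZd, ← hT.un_eq, cn_biUnion68 hT.dj]
      congr 1
      · refine Finset.sum_congr rfl fun v hv => ?_
        have h3 : Disjoint (un Lg x v (y v)) ((Lg v).biUnion (cst Q x)) := by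
          rw [disjoint_biUnion_right]
          exact fun w hw => hT.unw v hv w hw
        unfold tot ct68
        rw [cn_union68 h3, cn_un68 (hT.unc v hv), hy v hv, cn_biUnion68 (hT.ww v hv)]
        congr 1
        · congr 1
          congr 1
          refine filter_congr fun w hw => ?_
          rw [Nat.add_mod, hy v hv, hx v hv w hw]
        · refine Finset.sum_congr rfl fun w hw => ?_
          unfold cst
          rw [cn_cst68 fun q hq => ⟨hQ0 v hv w hw q hq, (hU.Qs v hv w hw q hq).1⟩, hx v hv w hw]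
      · refine Finset.sum_congr rfl fun v hv => ?_
        rw [hZ]
        rw [cn_cst68 (hX v hv).2.2, (hz v hv).1]
    rw [h2] at h1
    exact h1

private theorem classf68 : ∀ (g : ℕ), 0 < g → ∀ (S : Finset ℕ) (q : ℕ → ℕ),
    ∑ κ ∈ range g, q κ = S.card →
    ∃ f : ℕ → ℕ, (∀ v, f v < g) ∧ ∀ κ < g, (S.filter fun v => f v = κ).card = q κ := by
  intro g hg
  induction g, hg using Nat.le_induction with
  | base =>
    intro S q hq
    refine ⟨fun _ => 0, fun _ => Nat.one_pos, fun κ hκ => ?_⟩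
    have h0 : κ = 0 := by omega
    subst h0
    rw [filter_true_of_mem fun _ _ => rfl, ← hq]
    simp
  | succ g hg ih =>
    intro S q hq
    rw [sum_range_succ] at hq
    obtain ⟨A, hA, hAc⟩ := exists_subset_card_eq (s := S) (n := q g) (by omega)
    obtain ⟨f, hf, hf'⟩ := ih (S \ A) q (by
      rw [card_sdiff_of_subset hA]
      omega)
    refine ⟨fun v => if v ∈ A then g else f v, fun v => ?_, fun κ hκ => ?_⟩
    · simp only
      split_ifs
      · omega
      · have := hf v
        omega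
    · by_cases h : κ = g
      · subst h
        rw [← hAc]
        congr 1
        ext v
        rw [mem_filter]
        constructor
        · rintro ⟨h1, h2⟩
          by_contra h3
          simp only [h3, if_false] at h2
          have := hf v
          omega
        · intro h1
          exact ⟨hA h1, by simp only [h1, if_true]⟩
      · rw [← hf' κ (by omega)]
        congr 1
        ext v
        rw [mem_filter, mem_filter, mem_sdiff]
        constructor
        · rintro ⟨h1, h2⟩
          by_cases h3 : v ∈ A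
          · simp only [h3, if_true] at h2
            omega
          · simp only [h3, if_false] at h2
            exact ⟨⟨h1, h3⟩, h2⟩
        · rintro ⟨⟨h1, h3⟩, h2⟩
          refine ⟨h1, ?_⟩
          simp only [h3, if_false]
          exact h2

private theorem ct_zero68 {g κ : ℕ} {Lg Q : ℕ → Finset ℕ} {κf rl : ℕ → ℕ} {v : ℕ}
    (h : ∀ w ∈ Lg v, rl w = 0) (hκ : κf v < g) :
    ct68 g κ Lg Q κf rl v = (if κf v = κ then (Lg v).card + 1 else 0) +
      if κ = 0 then gam Lg Q v else 0 := by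
  unfold ct68
  have h1 : ((Lg v).filter fun w => (κf v + rl w) % g = κ).card =
      if κf v = κ then (Lg v).card else 0 := by
    split_ifs with h2
    · rw [filter_true_of_mem]
      intro w hw
      rw [h w hw, add_zero, Nat.mod_eq_of_lt hκ, h2]
    · rw [filter_false_of_mem, card_empty]
      intro w hw
      rw [h w hw, add_zero, Nat.mod_eq_of_lt hκ]
      exact h2
  have h2 : (∑ w ∈ Lg v, if rl w = κ then 1 + (Q w).card else 0) =
      if κ = 0 then gam Lg Q v else 0 := by
    split_ifs with h3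
    · unfold gam
      refine Finset.sum_congr rfl fun w hw => ?_
      rw [h w hw, if_pos h3.symm]
    · refine Finset.sum_eq_zero fun w hw => ?_
      rw [h w hw, if_neg (Ne.symm h3)]
  rw [h1, h2]
  congr 1
  split_ifs <;> omega

private def u68 (r s κ : ℕ) : ℕ :=
  (if r = κ then 2 else 0) + ((if s = κ then 2 else 0) + if (s + 1) % 3 = κ then 1 else 0)

private theorem res68' : ∀ a b c : Fin 3, ((a : ℕ) + b + c) % 3 = 2 → ∃ r s : Fin 3,
    u68 r s 0 % 3 = a ∧ u68 r s 1 % 3 = b ∧ u68 r s 2 % 3 = c := by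
  decide

private theorem res68 {t0 t1 t2 : ℕ} (h : (t0 + t1 + t2) % 3 = 2) : ∃ r < 3, ∃ s < 3,
    u68 r s 0 % 3 = t0 % 3 ∧ u68 r s 1 % 3 = t1 % 3 ∧ u68 r s 2 % 3 = t2 % 3 := by
  obtain ⟨r, s, h1, h2, h3⟩ := res68' ⟨t0 % 3, Nat.mod_lt _ (by norm_num)⟩
    ⟨t1 % 3, Nat.mod_lt _ (by norm_num)⟩ ⟨t2 % 3, Nat.mod_lt _ (by norm_num)⟩ (by
      simp only
      omega)
  exact ⟨r, r.2, s, s.2, h1, h2, h3⟩

private theorem u_sum68' : ∀ r s : Fin 3, u68 r s 0 + u68 r s 1 + u68 r s 2 = 5 := by
  decide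

private theorem u_sum68 {r s : ℕ} (hr : r < 3) (hs : s < 3) :
    u68 r s 0 + u68 r s 1 + u68 r s 2 = 5 :=
  u_sum68' ⟨r, hr⟩ ⟨s, hs⟩

private theorem sum_ct68 {g κ d : ℕ} {S : Finset ℕ} {Lg Q : ℕ → Finset ℕ} {κf rl : ℕ → ℕ}
    (h : ∀ v ∈ S, ∀ w ∈ Lg v, rl w = 0) (hκ : ∀ v, κf v < g) (hc : ∀ v ∈ S, (Lg v).card = d) :
    ∑ v ∈ S, ct68 g κ Lg Q κf rl v = (d + 1) * (S.filter fun v => κf v = κ).card +
      if κ = 0 then ∑ v ∈ S, gam Lg Q v else 0 := by
  have h1 : ∀ v ∈ S, ct68 g κ Lg Q κf rl v = (if κf v = κ then d + 1 else 0) +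
      if κ = 0 then gam Lg Q v else 0 := fun v hv => by
    rw [ct_zero68 (h v hv) (hκ v), hc v hv]
  rw [Finset.sum_congr rfl h1, sum_add_distrib]
  congr 1
  · rw [← sum_filter, sum_const, smul_eq_mul, mul_comm]
  · split_ifs
    · rfl
    · exact sum_const_zero

private theorem sum_X68 {X : Finset ℕ} {O : ℕ → Finset ℕ} (r κ : ℕ) :
    (∑ v ∈ X, if r = κ then 1 + (O v).card else 0) =
      if r = κ then ∑ v ∈ X, (1 + (O v).card) else 0 := by
  split_ifs
  · rfl
  · exact sum_const_zero

theorem end_fill (e D : ℕ) (he : e ≤ 1) : ∃ C : ℕ, ∀ (n : ℕ) (ρ : ℝ) (F L S X : Finset ℕ)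
    (Lg Q O : ℕ → Finset ℕ) (Qs : Finset (Finset ℕ)) (m : ℕ → ℕ), Rich n (e + 2) ρ F Qs →
    L ⊆ F → Unit n (e + 1) D S Lg Q → ∅ ∈ Qs → (∀ v ∈ S, ∀ w ∈ Lg v, Q w ∈ Qs) →
    (∀ v ∈ S, ∀ w ∈ Lg v, ∀ q ∈ Q w, q % (e + 2) = 0) →
    X.card ≤ 1 → (∀ x ∈ X, O x ∈ Qs ∧ (O x).card ≤ D + 1 ∧ ∀ q ∈ O x, q % (e + 2) = 0 ∧ 1 ≤ q) →
    (∀ x ∈ X, (e = 0 → Even (O x).card) ∧ (e = 1 → (O x).card = 1)) → (e = 1 → X.Nonempty) →
    (X = ∅ → (L.filter fun t => t % 2 = 1).card % 2 = m 1 % 2) →
    (C * ((F \ L).card + S.card + 1) : ℝ) ≤ ρ * n → C * ((F \ L).card + 1) ≤ S.card →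
    (∀ κ < e + 2, m κ + S.card + (if κ = 0 then ∑ v ∈ S, gam Lg Q v else 0) ≤
      (F.filter fun t => t % (e + 2) = κ).card + (F \ L).card) →
    (L.card = ∑ κ ∈ range (e + 2), m κ + ∑ v ∈ S, (e + 2 + gam Lg Q v) + ∑ x ∈ X, (1 + (O x).card)) →
    ∃ (x y z : ℕ → ℕ) (T L' : Finset ℕ), Tot S Lg Q x y T ∧ T ⊆ L ∧
      (∀ v ∈ X, insert (z v) ((O v).image fun q => z v + q) ⊆ L ∧
        Disjoint (insert (z v) ((O v).image fun q => z v + q)) T) ∧
      L' = L \ (T ∪ X.biUnion fun v => insert (z v) ((O v).image fun q => z v + q)) ∧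
      ∀ κ < e + 2, (L'.filter fun t => t % (e + 2) = κ).card = m κ := by
  obtain ⟨C1, hcore⟩ := core68 e D he
  refine ⟨C1 + 2 * D + 20, fun n ρ F L S X Lg Q O Qs m hR hLF hU hem hQ hQ0 hX1 hX hXe hXn hpar hρ
    hS hslack htot => ?_⟩
  have hρ1 : (C1 * ((F \ L).card + S.card + 1) : ℝ) ≤ ρ * n := by
    refine le_trans ?_ hρ
    have h1 : (C1 : ℝ) ≤ ((C1 + 2 * D + 20 : ℕ) : ℝ) := by
      have : C1 ≤ C1 + 2 * D + 20 := by omega
      exact_mod_cast this
    exact mul_le_mul_of_nonneg_right h1 (by positivity)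
  have hS1 : 2 * (F \ L).card + (2 * D + 20) ≤ S.card := by
    refine le_trans ?_ hS
    have h1 : 2 * (F \ L).card ≤ (C1 + 2 * D + 20) * (F \ L).card :=
      Nat.mul_le_mul_right _ (by omega)
    rw [mul_add, mul_one]
    omega
  have hsl : ∀ κ < e + 2, m κ + (if κ = 0 then ∑ v ∈ S, gam Lg Q v else 0) + (2 * D + 20) ≤
      cn68 (e + 2) κ L := by
    intro κ hκ
    have h1 := hslack κ hκ
    have h2 : cn68 (e + 2) κ (F \ L) + cn68 (e + 2) κ L = cn68 (e + 2) κ F := cn_sdiff68 hLF
    have h3 : cn68 (e + 2) κ (F \ L) ≤ (F \ L).card := card_filter_le _ _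
    have h4 : (F.filter fun t => t % (e + 2) = κ).card = cn68 (e + 2) κ F := rfl
    omega
  have hlt : L.card = ∑ κ ∈ range (e + 2), cn68 (e + 2) κ L := card_cls68 (by omega) L
  have hsum : ∑ v ∈ S, (e + 2 + gam Lg Q v) = S.card * (e + 2) + ∑ v ∈ S, gam Lg Q v := by
    rw [sum_add_distrib, sum_const, smul_eq_mul]
  rw [hsum, hlt] at htot
  clear hlt hsum hslack hρ hS
  have hX2 : ∀ r κ : ℕ, (∑ v ∈ X, if r = κ then 1 + (O v).card else 0) =
      if r = κ then ∑ v ∈ X, (1 + (O v).card) else 0 := fun r κ => sum_X68 r κ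
  set A := ∑ x ∈ X, (1 + (O x).card) with hA
  have hAD : A ≤ D + 2 := by
    have h1 : A ≤ X.card * (D + 2) := by
      rw [hA, ← smul_eq_mul]
      refine sum_le_card_nsmul _ _ _ fun x hx => ?_
      have := (hX x hx).2.1
      omega
    have h2 : X.card * (D + 2) ≤ 1 * (D + 2) := Nat.mul_le_mul_right _ hX1
    omega
  have hA1 : X.Nonempty → ∃ x ∈ X, A = 1 + (O x).card := by
    rintro ⟨x, hx⟩
    refine ⟨x, hx, ?_⟩
    have : X = {x} := by
      refine eq_singleton_iff_unique_mem.mpr ⟨hx, fun y hy => ?_⟩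
      exact card_le_one.mp hX1 y hy x hx
    rw [hA, this, sum_singleton]
  obtain rfl | rfl : e = 0 ∨ e = 1 := by omega
  · -- `e = 0`
    rw [sum_range_succ, sum_range_one, sum_range_succ, sum_range_one] at htot
    have hl0 := hsl 0 (by norm_num)
    have hl1 := hsl 1 (by norm_num)
    rw [if_pos rfl] at hl0
    rw [if_neg (by norm_num)] at hl1
    have hr : ∃ r < 2, (cn68 (0 + 2) 1 L) % 2 = (m 1 + if r = 1 then A else 0) % 2 := by
      rcases X.eq_empty_or_nonempty with h0 | h0
      · refine ⟨0, by norm_num, ?_⟩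
        rw [if_neg (by norm_num), add_zero]
        exact hpar h0
      · obtain ⟨x, hx, hAx⟩ := hA1 h0
        have h1 : (O x).card % 2 = 0 := Nat.even_iff.mp ((hXe x hx).1 rfl)
        by_cases h2 : (cn68 (0 + 2) 1 L) % 2 = m 1 % 2
        · refine ⟨0, by norm_num, ?_⟩
          rw [if_neg (by norm_num), add_zero]
          exact h2
        · refine ⟨1, by norm_num, ?_⟩
          rw [if_pos rfl]
          omega
    obtain ⟨r, hr, hrp⟩ := hr
    set G := ∑ v ∈ S, gam Lg Q v with hG
    set N : ℕ → ℕ := fun κ => m κ + (if κ = 0 then G else 0) + if r = κ then A else 0 with hN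
    have hN0 : N 0 = m 0 + G + if r = 0 then A else 0 := by
      rw [hN]
      simp
    have hN1 : N 1 = m 1 + if r = 1 then A else 0 := by
      rw [hN]
      simp
    have hq : ∃ q : ℕ → ℕ, (∀ κ < 2, cn68 (0 + 2) κ L = N κ + 2 * q κ) ∧
        ∑ κ ∈ range 2, q κ = S.card := by
      refine ⟨fun κ => (cn68 (0 + 2) κ L - N κ) / 2, fun κ hκ => ?_, ?_⟩
      · obtain rfl | rfl : κ = 0 ∨ κ = 1 := by omega
        · simp only
          rw [hN0]
          obtain rfl | rfl : r = 0 ∨ r = 1 := by omega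
          · rw [if_pos rfl]
            rw [if_neg (by norm_num)] at hrp
            omega
          · rw [if_neg (by norm_num)]
            rw [if_pos rfl] at hrp
            omega
        · simp only
          rw [hN1]
          obtain rfl | rfl : r = 0 ∨ r = 1 := by omega
          · rw [if_neg (by norm_num)]
            rw [if_neg (by norm_num)] at hrp
            omega
          · rw [if_pos rfl]
            rw [if_pos rfl] at hrp
            omega
      · rw [sum_range_succ, sum_range_one, hN0, hN1]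
        obtain rfl | rfl : r = 0 ∨ r = 1 := by omega
        · rw [if_pos rfl, if_neg (by norm_num)]
          rw [if_neg (by norm_num)] at hrp
          omega
        · rw [if_neg (by norm_num), if_pos rfl]
          rw [if_pos rfl] at hrp
          omega
    obtain ⟨q, hq1, hq2⟩ := hq
    obtain ⟨f, hf, hf'⟩ := classf68 2 (by norm_num) S q hq2
    obtain ⟨x, y, z, T, L', hT, hTL, hZ, hL', hcount⟩ := hcore n ρ F L S X Lg Q O Qs f
      (fun _ => 0) r hR hLF hU hem hQ hQ0 hX1 hX hf (fun _ => by norm_num) hr hρ1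
    refine ⟨x, y, z, T, L', hT, hTL, hZ, hL', fun κ hκ => ?_⟩
    have h1 := hcount κ
    have h0 : (L.filter fun t => t % (0 + 2) = κ).card = cn68 (0 + 2) κ L := rfl
    rw [sum_ct68 (g := 0 + 2) (κ := κ) (Q := Q) (fun _ _ _ _ => rfl) hf (fun v hv => hU.card v hv),
      hf' κ hκ, hX2, h0, hq1 κ hκ, hN] at h1
    simp only at h1
    rw [← hG] at h1
    omega
  · -- `e = 1`
    have hr3 : ∀ f : ℕ → ℕ, ∑ κ ∈ range (1 + 2), f κ = f 0 + f 1 + f 2 := fun f => by
      rw [show (1 + 2 : ℕ) = 3 from rfl, sum_range_succ, sum_range_succ, sum_range_one]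
    rw [hr3, hr3] at htot
    have hl0 := hsl 0 (by norm_num)
    have hl1 := hsl 1 (by norm_num)
    have hl2 := hsl 2 (by norm_num)
    rw [if_pos rfl] at hl0
    rw [if_neg (by norm_num)] at hl1 hl2
    obtain ⟨x0, hx0, hAx⟩ := hA1 (hXn rfl)
    rw [(hXe x0 hx0).2 rfl] at hAx
    obtain ⟨v1, hv1⟩ : S.Nonempty := card_pos.mp (by omega)
    obtain ⟨w0, w1, hw, hLg⟩ := card_eq_two.mp (hU.card v1 hv1)
    have hw1 : w1 ∈ Lg v1 := by
      rw [hLg]
      simp
    have hQw1 := hU.Qc v1 hv1 w1 hw1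
    set a := 1 + (Q w0).card with ha
    set b := 1 + (Q w1).card with hb
    set G := ∑ v ∈ S.erase v1, gam Lg Q v with hG
    have hgv : gam Lg Q v1 = a + b := by
      unfold gam
      rw [hLg, sum_pair hw]
    have hGs : ∑ v ∈ S, gam Lg Q v = a + b + G := by
      rw [← add_sum_erase S _ hv1, hgv]
    have hSc : (S.erase v1).card = S.card - 1 := card_erase_of_mem hv1
    rw [hGs] at hl0 htot
    set t0 := cn68 (1 + 2) 0 L - (m 0 + (G + a)) with ht0
    set t1 := cn68 (1 + 2) 1 L - (m 1 + b) with ht1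
    set t2 := cn68 (1 + 2) 2 L - m 2 with ht2
    obtain ⟨r, hr, s, hs, h0, h1, h2⟩ := res68 (t0 := t0) (t1 := t1) (t2 := t2) (by omega)
    have hus := u_sum68 hr hs
    set N : ℕ → ℕ := fun κ => m κ + (if κ = 0 then G + a else 0) + (if κ = 1 then b else 0) +
      u68 r s κ with hN
    have hN0 : N 0 = m 0 + (G + a) + u68 r s 0 := by
      rw [hN]
      simp
    have hN1 : N 1 = m 1 + b + u68 r s 1 := by
      rw [hN]
      simp
    have hN2 : N 2 = m 2 + u68 r s 2 := by
      rw [hN]
      simp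
    have hq : ∃ q : ℕ → ℕ, (∀ κ < 3, cn68 (1 + 2) κ L = N κ + 3 * q κ) ∧
        ∑ κ ∈ range 3, q κ = (S.erase v1).card := by
      refine ⟨fun κ => (cn68 (1 + 2) κ L - N κ) / 3, fun κ hκ => ?_, ?_⟩
      · obtain rfl | rfl | rfl : κ = 0 ∨ κ = 1 ∨ κ = 2 := by omega
        · simp only
          rw [hN0]
          omega
        · simp only
          rw [hN1]
          omega
        · simp only
          rw [hN2]
          omega
      · rw [show (3 : ℕ) = 1 + 2 from rfl, hr3, hN0, hN1, hN2]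
        omega
    obtain ⟨q, hq1, hq2⟩ := hq
    obtain ⟨f, hf, hf'⟩ := classf68 3 (by norm_num) (S.erase v1) q hq2
    obtain ⟨x, y, z, T, L', hT, hTL, hZ, hL', hcount⟩ := hcore n ρ F L S X Lg Q O Qs
      (fun v => if v = v1 then s else f v) (fun w => if w = w1 then 1 else 0) r hR hLF hU hem hQ hQ0
      hX1 hX (fun v => by
        split_ifs
        · exact hs
        · exact hf v) (fun w => by
        split_ifs <;> norm_num) hr hρ1
    refine ⟨x, y, z, T, L', hT, hTL, hZ, hL', fun κ hκ => ?_⟩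
    have h3 := hcount κ
    have h4 : (L.filter fun t => t % (1 + 2) = κ).card = cn68 (1 + 2) κ L := rfl
    have h5 : ∑ v ∈ S.erase v1, ct68 (1 + 2) κ Lg Q (fun v => if v = v1 then s else f v)
        (fun w => if w = w1 then 1 else 0) v = 3 * q κ + if κ = 0 then G else 0 := by
      rw [sum_ct68 (g := 1 + 2) (κ := κ) (Q := Q) (d := 2) (fun v hv w hw2 => ?_) (fun v => ?_)
        (fun v hv => hU.card v (mem_of_mem_erase hv))]
      · have h6 : ((S.erase v1).filter fun v => (if v = v1 then s else f v) = κ) =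
            (S.erase v1).filter fun v => f v = κ := by
          refine filter_congr fun v hv => ?_
          rw [if_neg (ne_of_mem_erase hv)]
        rw [h6, hf' κ hκ]
      · rw [if_neg]
        rintro rfl
        exact disjoint_left.mp (hU.dj v (mem_of_mem_erase hv) v1 hv1 (ne_of_mem_erase hv)) hw2 hw1
      · split_ifs
        · exact hs
        · exact hf v
    have h6 : ct68 (1 + 2) κ Lg Q (fun v => if v = v1 then s else f v)
        (fun w => if w = w1 then 1 else 0) v1 =
        ((if s = κ then 2 else 0) + if (s + 1) % 3 = κ then 1 else 0) +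
        ((if κ = 0 then a else 0) + if κ = 1 then b else 0) := by
      unfold ct68
      have hs3 : s % (1 + 2) = s := Nat.mod_eq_of_lt hs
      rw [hLg, sum_pair hw, card_filter, sum_pair hw]
      simp only [if_true, if_neg hw, add_zero, hs3]
      rw [show (1 + 2 : ℕ) = 3 from rfl]
      split_ifs <;> omega
    rw [← add_sum_erase S _ hv1, h5, h6, hX2, h4, hq1 κ hκ, hN] at h3
    simp only [u68] at h3
    clear hcount hf' hq1 h5 h6 hN0 hN1 hN2 hN
    split_ifs at h3 ⊢ <;> omega

end Pool.Agent.SQ
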