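import Pool.Agent.Helper73.SQ.RF

/-!
# SQ-FED: filling units completely (definitions)
-/

set_option autoImplicit false

namespace Pool.Agent.SQ

open Finset Pool.Agent.SEM

/-- all values used by the unit `v` and its legs -/
def tot (Lg Q : ℕ → Finset ℕ) (x y : ℕ → ℕ) (v : ℕ) : Finset ℕ :=
  un Lg x v (y v) ∪ (Lg v).biUnion (cst Q x)

/-- the units `S` with their legs are labelled, all values are different, and they form the set `T` -/
structure Tot (S : Finset ℕ) (Lg Q : ℕ → Finset ℕ) (x y : ℕ → ℕ) (T : Finset ℕ) : Prop where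
  unc : ∀ v ∈ S, (un Lg x v (y v)).card = (Lg v).card + 1
  unw : ∀ v ∈ S, ∀ w ∈ Lg v, Disjoint (un Lg x v (y v)) (cst Q x w)
  ww : ∀ v ∈ S, ∀ w ∈ Lg v, ∀ w' ∈ Lg v, w ≠ w' → Disjoint (cst Q x w) (cst Q x w')
  dj : ∀ v ∈ S, ∀ v' ∈ S, v ≠ v' → Disjoint (tot Lg Q x y v) (tot Lg Q x y v')
  un_eq : S.biUnion (tot Lg Q x y) = T

/-- number of values used by the legs of `v` -/
def gam (Lg Q : ℕ → Finset ℕ) (v : ℕ) : ℕ := ∑ w ∈ Lg v, (1 + (Q w).card)

end Pool.Agent.SQ
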