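import Pool.Agent.Helper73.SQ.FN1

/-!
# SQ-FN3: embedding of units and of the adjusting vertex

Proof in words.  For one `v ∈ S`: the edges of `EU n p v` are the edges `v - w` (`w` a leg) with sums `y v + x w` and the edges between a leg `w` and `u ∈ Ad p A w` with
sums `x w + lab u` (`leg_par`, `leg_chl`).  So `vs p f (VU n p v) (EU n p v) = tot (nb n p) Q x y v`, and by `unc`, `unw`, `ww`, `lab` injective on
`A`, `lab ≥ 1` all labels and sums are different.  Then `Emb.biUnion`, `vs_biUnion` with `dj`, `un_eq`.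
-/

set_option autoImplicit false

namespace Pool.Agent.SQ

open Finset Pool.Agent.SEM

namespace FN3aux

theorem mem_chl' {n : ℕ} {p : ℕ → ℕ} {v j : ℕ} : j ∈ chl n p v ↔ j < n ∧ 0 < j ∧ p j = v := by
  simp [chl]

theorem edge_unique {n : ℕ} {p : ℕ → ℕ} (hp : Par n p) {i j a b : ℕ} (hi : i ∈ Ico 1 n)
    (hj : j ∈ Ico 1 n) (h1 : (i = a ∧ p i = b) ∨ (i = b ∧ p i = a))
    (h2 : (j = a ∧ p j = b) ∨ (j = b ∧ p j = a)) : i = j := by
  rw [mem_Ico] at hi hj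
  have hpi := hp i (by omega) hi.2
  have hpj := hp j (by omega) hj.2
  rcases h1 with ⟨h1, h1'⟩ | ⟨h1, h1'⟩ <;> rcases h2 with ⟨h2, h2'⟩ | ⟨h2, h2'⟩
  · omega
  · omega
  · omega
  · omega

theorem mem_Ad {p : ℕ → ℕ} {A : Finset ℕ} {w u : ℕ} :
    u ∈ Ad p A w ↔ u ∈ A ∧ ((0 < w ∧ u = p w) ∨ (0 < u ∧ p u = w)) := by
  unfold Ad
  rw [mem_filter]

theorem mem_EU {n : ℕ} {p : ℕ → ℕ} {v i : ℕ} :
    i ∈ EU n p v ↔ i ∈ Ico 1 n ∧ (i ∈ nb n p v ∨ p i ∈ nb n p v) := by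
  unfold EU
  rw [mem_filter]

theorem mem_nb {n : ℕ} {p : ℕ → ℕ} {v w : ℕ} :
    w ∈ nb n p v ↔ w = p v ∨ (w < n ∧ 0 < w ∧ p w = v) := by
  unfold nb
  rw [mem_insert, mem_chl']

theorem A_lt {n : ℕ} {p : ℕ → ℕ} {e D K : ℕ} {R Sp X A : Finset ℕ} {top : ℕ → ℕ}
    (h : TDec n p e D K R Sp X A top) {u : ℕ} (hu : u ∈ A) : u < n := by
  rw [h.Aeq, mem_sdiff] at hu
  exact mem_range.1 (h.dec.sub hu.1)

theorem eu_cls {n : ℕ} {p : ℕ → ℕ} {e D K : ℕ} {R Sp X A : Finset ℕ} {top : ℕ → ℕ}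
    (h : TDec n p e D K R Sp X A top) {v i : ℕ} (hv : v ∈ Sp) (hi : i ∈ EU n p v) :
    ∃ w ∈ nb n p v, ((i = v ∧ p i = w) ∨ (i = w ∧ p i = v)) ∨
      ∃ u ∈ Ad p A w, (i = w ∧ p i = u) ∨ (i = u ∧ p i = w) := by
  rw [mem_EU, mem_Ico] at hi
  obtain ⟨⟨h1, h2⟩, h3 | h3⟩ := hi
  · refine ⟨i, h3, ?_⟩
    rcases h.leg_par v hv i h3 (by omega) with h4 | h4
    · exact Or.inl (Or.inr ⟨rfl, h4⟩)
    · exact Or.inr ⟨p i, mem_Ad.2 ⟨h4, Or.inl ⟨by omega, rfl⟩⟩, Or.inl ⟨rfl, rfl⟩⟩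
  · refine ⟨p i, h3, ?_⟩
    rcases h.leg_chl v hv (p i) h3 i (mem_chl'.2 ⟨h2, by omega, rfl⟩) with h4 | h4
    · exact Or.inl (Or.inl ⟨h4, rfl⟩)
    · exact Or.inr ⟨i, mem_Ad.2 ⟨h4, Or.inr ⟨by omega, rfl⟩⟩, Or.inr ⟨rfl, rfl⟩⟩

theorem eu_ex1 {n : ℕ} {p : ℕ → ℕ} {e D K : ℕ} {R Sp X A : Finset ℕ} {top : ℕ → ℕ}
    (h : TDec n p e D K R Sp X A top) {v w : ℕ} (hv : v ∈ Sp) (hw : w ∈ nb n p v) :
    ∃ i ∈ EU n p v, (i = v ∧ p i = w) ∨ (i = w ∧ p i = v) := by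
  have hv0 := h.sp_pos v hv
  have hvn : v < n := mem_range.1 (h.dec.sub (h.spR hv))
  rcases mem_nb.1 hw with h1 | ⟨h1, h2, h3⟩
  · refine ⟨v, mem_EU.2 ⟨mem_Ico.2 ⟨by omega, hvn⟩, Or.inr ?_⟩, Or.inl ⟨rfl, h1.symm⟩⟩
    rw [← h1]; exact hw
  · exact ⟨w, mem_EU.2 ⟨mem_Ico.2 ⟨by omega, h1⟩, Or.inl hw⟩, Or.inr ⟨rfl, h3⟩⟩

theorem eu_ex2 {n : ℕ} {p : ℕ → ℕ} {e D K : ℕ} {R Sp X A : Finset ℕ} {top : ℕ → ℕ}
    (h : TDec n p e D K R Sp X A top) {v w u : ℕ} (hv : v ∈ Sp) (hw : w ∈ nb n p v)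
    (hu : u ∈ Ad p A w) : ∃ i ∈ EU n p v, (i = w ∧ p i = u) ∨ (i = u ∧ p i = w) := by
  have hwn : w < n := mem_range.1 (h.dec.sub (h.leg_in v hv w hw).1)
  obtain ⟨huA, h1 | h1⟩ := mem_Ad.1 hu
  · exact ⟨w, mem_EU.2 ⟨mem_Ico.2 ⟨by omega, hwn⟩, Or.inl hw⟩, Or.inl ⟨rfl, h1.2.symm⟩⟩
  · refine ⟨u, mem_EU.2 ⟨mem_Ico.2 ⟨by omega, A_lt h huA⟩, Or.inr ?_⟩, Or.inr ⟨rfl, h1.2⟩⟩
    rw [h1.2]; exact hw

theorem unit_one {n : ℕ} {p : ℕ → ℕ} {e D K : ℕ} {R Sp X A : Finset ℕ} {top : ℕ → ℕ}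
    (hp : Par n p) (h : TDec n p e D K R Sp X A top) (lab x y f : ℕ → ℕ) {v : ℕ}
    (hv : v ∈ Sp) (hinj : Set.InjOn lab A) (hpos : ∀ a ∈ A, 1 ≤ lab a)
    (hfA : ∀ a ∈ A, f a = lab a)
    (hfx : ∀ w ∈ nb n p v, f w = x w) (hfy : f v = y v)
    (unc : (un (nb n p) x v (y v)).card = (nb n p v).card + 1)
    (unw : ∀ w ∈ nb n p v, Disjoint (un (nb n p) x v (y v))
      (cst (fun w => (Ad p A w).image lab) x w))
    (ww : ∀ w ∈ nb n p v, ∀ w' ∈ nb n p v, w ≠ w' →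
      Disjoint (cst (fun w => (Ad p A w).image lab) x w)
        (cst (fun w => (Ad p A w).image lab) x w')) :
    Emb p f (VU n p v) (EU n p v) ∧
      vs p f (VU n p v) (EU n p v) = tot (nb n p) (fun w => (Ad p A w).image lab) x y v := by
  have hun : ∀ w ∈ nb n p v, y v + x w ∈ un (nb n p) x v (y v) := fun w hw => by
    unfold un
    exact mem_insert_of_mem (mem_image_of_mem _ hw)
  have hy : y v ∈ un (nb n p) x v (y v) := by
    unfold un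
    exact mem_insert_self _ _
  have hcx : ∀ w, x w ∈ cst (fun w => (Ad p A w).image lab) x w := fun w => by
    unfold cst
    exact mem_insert_self _ _
  have hcu : ∀ w, ∀ u ∈ Ad p A w, x w + lab u ∈ cst (fun w => (Ad p A w).image lab) x w :=
    fun w u hu => by
      unfold cst
      exact mem_insert_of_mem (mem_image_of_mem _ (mem_image_of_mem _ hu))
  have hx0 : ∀ w ∈ nb n p v, x w ≠ 0 := by
    intro w hw hx
    have h1 : y v ∈ (nb n p v).image fun w => y v + x w :=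
      mem_image.2 ⟨w, hw, by rw [hx]; rfl⟩
    have h2 : (un (nb n p) x v (y v)).card ≤ (nb n p v).card := by
      unfold un
      rw [insert_eq_of_mem h1]
      exact card_image_le
    omega
  have hs1 : ∀ w ∈ nb n p v, ∀ i, ((i = v ∧ p i = w) ∨ (i = w ∧ p i = v)) →
      f i + f (p i) = y v + x w := by
    rintro w hw i (⟨h1, h2⟩ | ⟨h1, h2⟩)
    · rw [h2, h1, hfy, hfx w hw]
    · rw [h2, h1, hfy, hfx w hw, add_comm]
  have hs2 : ∀ w ∈ nb n p v, ∀ u ∈ Ad p A w, ∀ i, ((i = w ∧ p i = u) ∨ (i = u ∧ p i = w)) →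
      f i + f (p i) = x w + lab u := by
    rintro w hw u hu i (⟨h1, h2⟩ | ⟨h1, h2⟩)
    · rw [h2, h1, hfA u (mem_Ad.1 hu).1, hfx w hw]
    · rw [h2, h1, hfA u (mem_Ad.1 hu).1, hfx w hw, add_comm]
  have hdis : ∀ {s t : Finset ℕ}, Disjoint s t → ∀ {a b : ℕ}, a ∈ s → b ∈ t → a ≠ b := by
    intro s t hst a b ha hb hab
    rw [Finset.disjoint_left] at hst
    exact hst ha (hab ▸ hb)
  have hxinj : ∀ w ∈ nb n p v, ∀ w' ∈ nb n p v, x w = x w' → w = w' := by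
    intro w hw w' hw' hxx
    by_contra hne
    exact hdis (ww w hw w' hw' hne) (hcx w) (hcx w') hxx
  refine ⟨⟨?_, ?_, ?_⟩, ?_⟩
  · intro a ha b hb hab
    rw [mem_coe] at ha hb
    unfold VU at ha hb
    rw [mem_insert] at ha hb
    rcases ha with ha | ha <;> rcases hb with hb | hb
    · rw [ha, hb]
    · exfalso
      rw [ha, hfy, hfx b hb] at hab
      exact hdis (unw b hb) hy (hcx b) hab
    · exfalso
      rw [hb, hfy, hfx a ha] at hab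
      exact hdis (unw a ha) hy (hcx a) hab.symm
    · rw [hfx a ha, hfx b hb] at hab
      exact hxinj a ha b hb hab
  · intro i hi j hj hij
    rw [mem_coe] at hi hj
    simp only at hij
    obtain ⟨w, hw, h1⟩ := eu_cls h hv hi
    obtain ⟨w', hw', h1'⟩ := eu_cls h hv hj
    have hiI := (mem_EU.1 hi).1
    have hjI := (mem_EU.1 hj).1
    rcases h1 with h1 | ⟨u, hu, h1⟩ <;> rcases h1' with h1' | ⟨u', hu', h1'⟩
    · rw [hs1 w hw i h1, hs1 w' hw' j h1'] at hij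
      have : w = w' := hxinj w hw w' hw' (by omega)
      subst this
      exact edge_unique hp hiI hjI h1 h1'
    · exfalso
      rw [hs1 w hw i h1, hs2 w' hw' u' hu' j h1'] at hij
      exact hdis (unw w' hw') (hun w hw) (hcu w' u' hu') hij
    · exfalso
      rw [hs2 w hw u hu i h1, hs1 w' hw' j h1'] at hij
      exact hdis (unw w hw) (hun w' hw') (hcu w u hu) hij.symm
    · rw [hs2 w hw u hu i h1, hs2 w' hw' u' hu' j h1'] at hij
      have hww : w = w' := by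
        by_contra hne
        exact hdis (ww w hw w' hw' hne) (hcu w u hu) (hcu w' u' hu') hij
      subst hww
      have huu : u = u' := hinj (mem_Ad.1 hu).1 (mem_Ad.1 hu').1 (by omega)
      subst huu
      exact edge_unique hp hiI hjI h1 h1'
  · intro a ha b hb hab
    unfold VU at ha
    rw [mem_insert] at ha
    obtain ⟨w, hw, h1⟩ := eu_cls h hv hb
    rcases ha with ha | ha <;> rcases h1 with h1 | ⟨u, hu, h1⟩
    · rw [hs1 w hw b h1, ha, hfy] at hab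
      exact hx0 w hw (by omega)
    · rw [hs2 w hw u hu b h1, ha, hfy] at hab
      exact hdis (unw w hw) hy (hcu w u hu) hab
    · rw [hs1 w hw b h1, hfx a ha] at hab
      exact hdis (unw a ha) (hun w hw) (hcx a) hab.symm
    · rw [hs2 w hw u hu b h1, hfx a ha] at hab
      by_cases hwa : a = w
      · subst hwa
        have := hpos u (mem_Ad.1 hu).1
        omega
      · exact hdis (ww a ha w hw hwa) (hcx a) (hcu w u hu) hab
  · ext t
    rw [mem_vs]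
    unfold tot
    rw [mem_union, mem_biUnion]
    constructor
    · rintro (⟨a, ha, rfl⟩ | ⟨i, hi, rfl⟩)
      · unfold VU at ha
        rw [mem_insert] at ha
        rcases ha with ha | ha
        · left; rw [ha, hfy]; exact hy
        · right; exact ⟨a, ha, by rw [hfx a ha]; exact hcx a⟩
      · obtain ⟨w, hw, h1⟩ := eu_cls h hv hi
        rcases h1 with h1 | ⟨u, hu, h1⟩
        · left; rw [hs1 w hw i h1]; exact hun w hw
        · right; exact ⟨w, hw, by rw [hs2 w hw u hu i h1]; exact hcu w u hu⟩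
    · rintro (ht | ⟨w, hw, ht⟩)
      · unfold un at ht
        rw [mem_insert, mem_image] at ht
        rcases ht with rfl | ⟨w, hw, rfl⟩
        · exact Or.inl ⟨v, by unfold VU; exact mem_insert_self _ _, hfy⟩
        · obtain ⟨i, hi, h1⟩ := eu_ex1 h hv hw
          exact Or.inr ⟨i, hi, hs1 w hw i h1⟩
      · unfold cst at ht
        rw [mem_insert, mem_image] at ht
        rcases ht with rfl | ⟨q, hq, rfl⟩
        · exact Or.inl ⟨w, by unfold VU; exact mem_insert_of_mem hw, hfx w hw⟩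
        · obtain ⟨u, hu, rfl⟩ := mem_image.1 hq
          obtain ⟨i, hi, h1⟩ := eu_ex2 h hv hw hu
          exact Or.inr ⟨i, hi, hs2 w hw u hu i h1⟩

theorem mem_EX {n : ℕ} {p : ℕ → ℕ} {x i : ℕ} :
    i ∈ EX n p x ↔ i ∈ Ico 1 n ∧ (i = x ∨ p i = x) := by
  unfold EX
  rw [mem_filter]

theorem ex_cls {n : ℕ} {p : ℕ → ℕ} {e D K : ℕ} {R Sp X A : Finset ℕ} {top : ℕ → ℕ}
    (h : TDec n p e D K R Sp X A top) {x i : ℕ} (hx : x ∈ X) (hi : i ∈ EX n p x) :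
    ∃ u ∈ Ad p A x, (i = x ∧ p i = u) ∨ (i = u ∧ p i = x) := by
  rw [mem_EX, mem_Ico] at hi
  obtain ⟨⟨h1, h2⟩, h3 | h3⟩ := hi
  · subst h3
    exact ⟨p i, mem_Ad.2 ⟨h.X_par i hx (by omega), Or.inl ⟨by omega, rfl⟩⟩, Or.inl ⟨rfl, rfl⟩⟩
  · subst h3
    exact ⟨i, mem_Ad.2 ⟨h.X_chl (p i) hx (mem_chl'.2 ⟨h2, by omega, rfl⟩),
      Or.inr ⟨by omega, rfl⟩⟩, Or.inr ⟨rfl, rfl⟩⟩

theorem ex_ex {n : ℕ} {p : ℕ → ℕ} {e D K : ℕ} {R Sp X A : Finset ℕ} {top : ℕ → ℕ}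
    (h : TDec n p e D K R Sp X A top) {x u : ℕ} (hx : x ∈ X) (hu : u ∈ Ad p A x) :
    ∃ i ∈ EX n p x, (i = x ∧ p i = u) ∨ (i = u ∧ p i = x) := by
  have hxn : x < n := mem_range.1 (h.dec.sub (h.XR hx))
  obtain ⟨huA, h1 | h1⟩ := mem_Ad.1 hu
  · exact ⟨x, mem_EX.2 ⟨mem_Ico.2 ⟨by omega, hxn⟩, Or.inl rfl⟩, Or.inl ⟨rfl, h1.2.symm⟩⟩
  · exact ⟨u, mem_EX.2 ⟨mem_Ico.2 ⟨by omega, A_lt h huA⟩, Or.inr h1.2⟩, Or.inr ⟨rfl, h1.2⟩⟩

theorem x_one {n : ℕ} {p : ℕ → ℕ} {e D K : ℕ} {R Sp X A : Finset ℕ} {top : ℕ → ℕ}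
    (hp : Par n p) (h : TDec n p e D K R Sp X A top) (lab z f : ℕ → ℕ) {x : ℕ} (hx : x ∈ X)
    (hinj : Set.InjOn lab A) (hpos : ∀ a ∈ A, 1 ≤ lab a) (hfA : ∀ a ∈ A, f a = lab a)
    (hfz : f x = z x) :
    Emb p f {x} (EX n p x) ∧ vs p f {x} (EX n p x) =
      insert (z x) (((Ad p A x).image lab).image fun q => z x + q) := by
  have hs : ∀ u ∈ Ad p A x, ∀ i, ((i = x ∧ p i = u) ∨ (i = u ∧ p i = x)) →
      f i + f (p i) = z x + lab u := by
    rintro u hu i (⟨h1, h2⟩ | ⟨h1, h2⟩)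
    · rw [h2, h1, hfA u (mem_Ad.1 hu).1, hfz]
    · rw [h2, h1, hfA u (mem_Ad.1 hu).1, hfz, add_comm]
  refine ⟨⟨?_, ?_, ?_⟩, ?_⟩
  · simp
  · intro i hi j hj hij
    rw [mem_coe] at hi hj
    simp only at hij
    obtain ⟨u, hu, h1⟩ := ex_cls h hx hi
    obtain ⟨u', hu', h1'⟩ := ex_cls h hx hj
    rw [hs u hu i h1, hs u' hu' j h1'] at hij
    have huu : u = u' := hinj (mem_Ad.1 hu).1 (mem_Ad.1 hu').1 (by omega)
    subst huu
    exact edge_unique hp (mem_EX.1 hi).1 (mem_EX.1 hj).1 h1 h1'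
  · intro a ha b hb hab
    rw [mem_singleton] at ha
    subst ha
    obtain ⟨u, hu, h1⟩ := ex_cls h hx hb
    rw [hs u hu b h1, hfz] at hab
    have := hpos u (mem_Ad.1 hu).1
    omega
  · ext t
    rw [mem_vs, mem_insert, mem_image]
    constructor
    · rintro (⟨a, ha, rfl⟩ | ⟨i, hi, rfl⟩)
      · rw [mem_singleton] at ha
        left; rw [ha, hfz]
      · obtain ⟨u, hu, h1⟩ := ex_cls h hx hi
        exact Or.inr ⟨lab u, mem_image_of_mem _ hu, (hs u hu i h1).symm⟩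
    · rintro (rfl | ⟨q, hq, rfl⟩)
      · exact Or.inl ⟨x, mem_singleton_self _, hfz⟩
      · obtain ⟨u, hu, rfl⟩ := mem_image.1 hq
        obtain ⟨i, hi, h1⟩ := ex_ex h hx hu
        exact Or.inr ⟨i, hi, hs u hu i h1⟩

end FN3aux

open FN3aux

theorem unit_emb {n : ℕ} {p : ℕ → ℕ} {e D K : ℕ} {R Sp X A : Finset ℕ} {top : ℕ → ℕ}
    (hp : Par n p) (h : TDec n p e D K R Sp X A top) (S T : Finset ℕ) (lab x y f : ℕ → ℕ)
    (hS : S ⊆ Sp) (hinj : Set.InjOn lab A) (hpos : ∀ a ∈ A, 1 ≤ lab a) (hfA : ∀ a ∈ A, f a = lab a)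
    (hfx : ∀ v ∈ S, ∀ w ∈ nb n p v, f w = x w) (hfy : ∀ v ∈ S, f v = y v)
    (hT : Tot S (nb n p) (fun w => (Ad p A w).image lab) x y T) :
    Emb p f (S.biUnion (VU n p)) (S.biUnion (EU n p)) ∧
      vs p f (S.biUnion (VU n p)) (S.biUnion (EU n p)) = T := by
  have h1 : ∀ v ∈ S, Emb p f (VU n p v) (EU n p v) ∧
      vs p f (VU n p v) (EU n p v) = tot (nb n p) (fun w => (Ad p A w).image lab) x y v :=
    fun v hv => unit_one hp h lab x y f (hS hv) hinj hpos hfA (hfx v hv) (hfy v hv)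
      (hT.unc v hv) (hT.unw v hv) (hT.ww v hv)
  refine ⟨Emb.biUnion S (fun v hv => (h1 v hv).1) fun v hv v' hv' hne => ?_, ?_⟩
  · rw [(h1 v hv).2, (h1 v' hv').2]
    exact hT.dj v hv v' hv' hne
  · rw [vs_biUnion, ← hT.un_eq]
    exact biUnion_congr rfl fun v hv => (h1 v hv).2

theorem x_emb {n : ℕ} {p : ℕ → ℕ} {e D K : ℕ} {R Sp X A : Finset ℕ} {top : ℕ → ℕ}
    (hp : Par n p) (h : TDec n p e D K R Sp X A top) (lab z f : ℕ → ℕ)
    (hinj : Set.InjOn lab A) (hpos : ∀ a ∈ A, 1 ≤ lab a) (hfA : ∀ a ∈ A, f a = lab a)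
    (hfz : ∀ x ∈ X, f x = z x) :
    Emb p f X (X.biUnion (EX n p)) ∧ vs p f X (X.biUnion (EX n p)) =
      X.biUnion fun v => insert (z v) (((Ad p A v).image lab).image fun q => z v + q) := by
  have h1 : ∀ v ∈ X, Emb p f {v} (EX n p v) ∧ vs p f {v} (EX n p v) =
      insert (z v) (((Ad p A v).image lab).image fun q => z v + q) :=
    fun v hv => x_one hp h lab z f hv hinj hpos hfA (hfz v hv)
  have hX : X = X.biUnion fun v => {v} := by
    rw [biUnion_singleton_eq_self]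
  have h2 : Emb p f (X.biUnion fun v => {v}) (X.biUnion (EX n p)) := by
    refine Emb.biUnion X (fun v hv => (h1 v hv).1) fun v hv v' hv' hne => ?_
    exact absurd (card_le_one.1 h.X_one v hv v' hv') hne
  have h3 : vs p f (X.biUnion fun v => {v}) (X.biUnion (EX n p)) =
      X.biUnion fun v => insert (z v) (((Ad p A v).image lab).image fun q => z v + q) := by
    rw [vs_biUnion]
    exact biUnion_congr rfl fun v hv => (h1 v hv).2
  rw [← hX] at h2 h3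
  exact ⟨h2, h3⟩

end Pool.Agent.SQ
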