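import Pool.Agent.Helper73.SQ.FN1

/-!
# SQ-FN4: systems of completely labelled units

Proof in words.  `tot_of`: `unc` from `dj` (different legs have different labels) and `x w ≥ 1` (`hi`); legs of different `v` are different (`Unit.dj`).
`card_tot`: `tot v` has `(d + 1) + gam v` elements (`1 ≤ q`: `cst Q x w` has `1 + |Q w|` elements).  `card_cst`: the same for the legs only.
-/

set_option autoImplicit false

namespace Pool.Agent.SQ

open Finset Pool.Agent.SEM

private theorem card_cst1_fn4 {Q : ℕ → Finset ℕ} {x : ℕ → ℕ} {w : ℕ}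
    (hq : ∀ q ∈ Q w, 1 ≤ q) : (cst Q x w).card = 1 + (Q w).card := by
  unfold cst
  rw [card_insert_of_notMem, card_image_of_injective, add_comm]
  · exact add_right_injective (x w)
  · rw [mem_image]
    rintro ⟨q, hq', h⟩
    have := hq q hq'
    omega

private theorem mem_cst_fn4 (Q : ℕ → Finset ℕ) (x : ℕ → ℕ) (w : ℕ) : x w ∈ cst Q x w :=
  mem_insert_self _ _

theorem tot_of {n d D : ℕ} {S Z : Finset ℕ} {Lg Q : ℕ → Finset ℕ} {x y : ℕ → ℕ}
    (hU : Unit n d D S Lg Q) (hL : Lgd n S Z Lg Q x)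
    (h1 : ∀ v ∈ S, ∀ w ∈ S.biUnion Lg, Disjoint (un Lg x v (y v)) (cst Q x w))
    (h2 : ∀ v ∈ S, ∀ v' ∈ S, v ≠ v' → Disjoint (un Lg x v (y v)) (un Lg x v' (y v'))) :
    Tot S Lg Q x y (S.biUnion (tot Lg Q x y)) := by
  classical
  refine ⟨?_, ?_, ?_, ?_, rfl⟩
  · intro v hv
    unfold un
    rw [card_insert_of_notMem, card_image_of_injOn]
    · intro w hw w' hw' h
      by_contra hne
      have h3 : x w = x w' := by
        simp only at h
        omega
      have hd := hL.dj w (mem_biUnion.2 ⟨v, hv, hw⟩) w' (mem_biUnion.2 ⟨v, hv, hw'⟩) hne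
      rw [Finset.disjoint_left] at hd
      exact hd (mem_cst_fn4 Q x w) (h3 ▸ mem_cst_fn4 Q x w')
    · rw [mem_image]
      rintro ⟨w, hw, h⟩
      have := (hL.hi v hv w hw (x w) (mem_cst_fn4 Q x w)).1
      omega
  · intro v hv w hw
    exact h1 v hv w (mem_biUnion.2 ⟨v, hv, hw⟩)
  · intro v hv w hw w' hw' hne
    exact hL.dj w (mem_biUnion.2 ⟨v, hv, hw⟩) w' (mem_biUnion.2 ⟨v, hv, hw'⟩) hne
  · intro v hv v' hv' hne
    unfold tot
    rw [disjoint_union_left, disjoint_union_right, disjoint_union_right]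
    refine ⟨⟨h2 v hv v' hv' hne, ?_⟩, ?_, ?_⟩
    · rw [disjoint_biUnion_right]
      intro w hw
      exact h1 v hv w (mem_biUnion.2 ⟨v', hv', hw⟩)
    · rw [disjoint_biUnion_left]
      intro w hw
      exact (h1 v' hv' w (mem_biUnion.2 ⟨v, hv, hw⟩)).symm
    · rw [disjoint_biUnion_left]
      intro w hw
      rw [disjoint_biUnion_right]
      intro w' hw'
      refine hL.dj w (mem_biUnion.2 ⟨v, hv, hw⟩) w' (mem_biUnion.2 ⟨v', hv', hw'⟩) ?_
      rintro rfl
      exact (Finset.disjoint_left.1 (hU.dj v hv v' hv' hne)) hw hw'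

theorem card_tot {n d D : ℕ} {S T : Finset ℕ} {Lg Q : ℕ → Finset ℕ} {x y : ℕ → ℕ}
    (hU : Unit n d D S Lg Q) (hT : Tot S Lg Q x y T) :
    T.card = ∑ v ∈ S, (d + 1 + gam Lg Q v) := by
  classical
  rw [← hT.un_eq, card_biUnion hT.dj]
  refine sum_congr rfl fun v hv => ?_
  unfold tot
  rw [card_union_of_disjoint, hT.unc v hv, hU.card v hv, card_biUnion (hT.ww v hv)]
  · unfold gam
    congr 1
    exact sum_congr rfl fun w hw => card_cst1_fn4 fun q hq => (hU.Qs v hv w hw q hq).1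
  · rw [disjoint_biUnion_right]
    exact hT.unw v hv

theorem card_cst {n d D : ℕ} {S Z : Finset ℕ} {Lg Q : ℕ → Finset ℕ} {x : ℕ → ℕ}
    (hU : Unit n d D S Lg Q) (hL : Lgd n S Z Lg Q x) :
    ((S.biUnion Lg).biUnion (cst Q x)).card = ∑ v ∈ S, gam Lg Q v := by
  classical
  rw [card_biUnion hL.dj, sum_biUnion]
  · refine sum_congr rfl fun v hv => ?_
    unfold gam
    exact sum_congr rfl fun w hw => card_cst1_fn4 fun q hq => (hU.Qs v hv w hw q hq).1
  · intro v hv v' hv' hne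
    exact hU.dj v hv v' hv' hne

end Pool.Agent.SQ
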