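import Pool.Agent.Helper73.SQ.FN2
import Pool.Agent.Helper73.SQ.FN3
import Pool.Agent.Helper73.SQ.FN4

/-!
# SQ-FIN1: assembly of the partial embeddings
-/

set_option autoImplicit false

namespace Pool.Agent.SQ

open Finset Pool.Agent.SEM

/-- union of two systems of labelled units -/
theorem Tot.union {S S' T T' : Finset ℕ} {Lg Q : ℕ → Finset ℕ} {x y x' y' : ℕ → ℕ}
    (hS : Tot S Lg Q x y T) (hS' : Tot S' Lg Q x' y' T') (hd : Disjoint S S')
    (hL : ∀ v ∈ S, ∀ v' ∈ S', Disjoint (Lg v) (Lg v')) (hT : Disjoint T T') :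
    ∃ x2 y2 : ℕ → ℕ, Tot (S ∪ S') Lg Q x2 y2 (T ∪ T') := by
  classical
  refine ⟨fun w => if w ∈ S.biUnion Lg then x w else x' w, fun v => if v ∈ S then y v else y' v, ?_⟩
  set x2 : ℕ → ℕ := fun w => if w ∈ S.biUnion Lg then x w else x' w with hx2
  set y2 : ℕ → ℕ := fun v => if v ∈ S then y v else y' v with hy2
  have e1 : ∀ v ∈ S, ∀ w ∈ Lg v, x2 w = x w := by
    intro v hv w hw
    rw [hx2]
    simp only
    rw [if_pos (mem_biUnion.2 ⟨v, hv, hw⟩)]
  have e2 : ∀ v ∈ S', ∀ w ∈ Lg v, x2 w = x' w := by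
    intro v hv w hw
    rw [hx2]
    simp only
    rw [if_neg]
    intro h
    obtain ⟨u, hu, hw'⟩ := mem_biUnion.1 h
    exact (Finset.disjoint_left.1 (hL u hu v hv)) hw' hw
  have e3 : ∀ v ∈ S, y2 v = y v := fun v hv => if_pos hv
  have e4 : ∀ v ∈ S', y2 v = y' v := fun v hv =>
    if_neg fun h => (Finset.disjoint_left.1 hd) h hv
  have c1 : ∀ v ∈ S, ∀ w ∈ Lg v, cst Q x2 w = cst Q x w := by
    intro v hv w hw
    unfold cst
    rw [e1 v hv w hw]
  have c2 : ∀ v ∈ S', ∀ w ∈ Lg v, cst Q x2 w = cst Q x' w := by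
    intro v hv w hw
    unfold cst
    rw [e2 v hv w hw]
  have u1 : ∀ v ∈ S, un Lg x2 v (y2 v) = un Lg x v (y v) := by
    intro v hv
    unfold un
    rw [e3 v hv]
    congr 1
    exact image_congr fun w hw => by simp only [e1 v hv w hw]
  have u2 : ∀ v ∈ S', un Lg x2 v (y2 v) = un Lg x' v (y' v) := by
    intro v hv
    unfold un
    rw [e4 v hv]
    congr 1
    exact image_congr fun w hw => by simp only [e2 v hv w hw]
  have t1 : ∀ v ∈ S, tot Lg Q x2 y2 v = tot Lg Q x y v := by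
    intro v hv
    unfold tot
    rw [u1 v hv]
    congr 1
    exact biUnion_congr rfl fun w hw => c1 v hv w hw
  have t2 : ∀ v ∈ S', tot Lg Q x2 y2 v = tot Lg Q x' y' v := by
    intro v hv
    unfold tot
    rw [u2 v hv]
    congr 1
    exact biUnion_congr rfl fun w hw => c2 v hv w hw
  have s1 : ∀ v ∈ S, tot Lg Q x y v ⊆ T := fun v hv => by
    rw [← hS.un_eq]; exact subset_biUnion_of_mem _ hv
  have s2 : ∀ v ∈ S', tot Lg Q x' y' v ⊆ T' := fun v hv => by
    rw [← hS'.un_eq]; exact subset_biUnion_of_mem _ hv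
  refine ⟨?_, ?_, ?_, ?_, ?_⟩
  · intro v hv
    rcases mem_union.1 hv with hv | hv
    · rw [u1 v hv]; exact hS.unc v hv
    · rw [u2 v hv]; exact hS'.unc v hv
  · intro v hv w hw
    rcases mem_union.1 hv with hv | hv
    · rw [u1 v hv, c1 v hv w hw]; exact hS.unw v hv w hw
    · rw [u2 v hv, c2 v hv w hw]; exact hS'.unw v hv w hw
  · intro v hv w hw w' hw' hne
    rcases mem_union.1 hv with hv | hv
    · rw [c1 v hv w hw, c1 v hv w' hw']; exact hS.ww v hv w hw w' hw' hne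
    · rw [c2 v hv w hw, c2 v hv w' hw']; exact hS'.ww v hv w hw w' hw' hne
  · intro v hv v' hv' hne
    rcases mem_union.1 hv with hv | hv <;> rcases mem_union.1 hv' with hv' | hv'
    · rw [t1 v hv, t1 v' hv']; exact hS.dj v hv v' hv' hne
    · rw [t1 v hv, t2 v' hv']; exact disjoint_of_subset_left (s1 v hv) (disjoint_of_subset_right (s2 v' hv') hT)
    · rw [t2 v hv, t1 v' hv']
      exact disjoint_of_subset_left (s2 v hv) (disjoint_of_subset_right (s1 v' hv') hT.symm)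
    · rw [t2 v hv, t2 v' hv']; exact hS'.dj v hv v' hv' hne
  · rw [union_biUnion, ← hS.un_eq, ← hS'.un_eq]
    congr 1
    · exact biUnion_congr rfl fun v hv => t1 v hv
    · exact biUnion_congr rfl fun v hv => t2 v hv

theorem MV_union {n : ℕ} {R T T' : Finset ℕ} {top : ℕ → ℕ} :
    MV n R top (T ∪ T') = MV n R top T ∪ MV n R top T' := by
  ext v
  simp only [MV, mem_filter, mem_union]
  tauto

theorem EM_union {n : ℕ} {p : ℕ → ℕ} {R T T' : Finset ℕ} {top : ℕ → ℕ} :
    EM n p R top (T ∪ T') = EM n p R top T ∪ EM n p R top T' := by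
  ext v
  simp only [EM, mem_filter, mem_union]
  tauto

theorem MV_disj {n : ℕ} {R T T' : Finset ℕ} {top : ℕ → ℕ} (h : Disjoint T T') :
    Disjoint (MV n R top T) (MV n R top T') := by
  rw [Finset.disjoint_left] at h ⊢
  intro v hv hv'
  rw [MV, mem_filter] at hv hv'
  exact h hv.2.2 hv'.2.2

theorem EM_disj {n : ℕ} {p : ℕ → ℕ} {R T T' : Finset ℕ} {top : ℕ → ℕ} (h : Disjoint T T') :
    Disjoint (EM n p R top T) (EM n p R top T') := by
  rw [Finset.disjoint_left] at h ⊢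
  intro v hv hv'
  rw [EM, mem_filter] at hv hv'
  rcases hv.2.2 with h1 | h1 <;> rcases hv'.2.2 with h2 | h2
  · exact h h1.2 h2.2
  · exact h1.1 h2.1
  · exact h2.1 h1.1
  · exact h h1.2.2 h2.2.2

/-- labels of the pieces do not interfere -/
theorem piece_congr {n : ℕ} {p : ℕ → ℕ} {e D K : ℕ} {R Sp X A T' : Finset ℕ} {top : ℕ → ℕ}
    (hp : Par n p) (h : TDec n p e D K R Sp X A top) (lab f f1 : ℕ → ℕ)
    (h1 : ∀ r ∈ A, f1 r = lab r) (hfA : ∀ r ∈ A, f r = lab r)
    (hf : ∀ v ∈ MV n R top T', f v = f1 v) :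
    (∀ v ∈ MV n R top T', f v = f1 v) ∧
      ∀ i ∈ EM n p R top T', f i = f1 i ∧ f (p i) = f1 (p i) := by
  refine ⟨hf, ?_⟩
  intro i hi
  rw [EM, mem_filter, mem_range] at hi
  obtain ⟨hin, hi0, hi | hi⟩ := hi
  · have hiM : i ∈ MV n R top T' := by
      rw [MV, mem_filter, mem_range]; exact ⟨hin, hi⟩
    refine ⟨hf i hiM, ?_⟩
    by_cases hpR : p i ∈ R
    · have := h.pc_par i hin hi.1 hpR
      rw [hfA _ this, h1 _ this]
    · apply hf
      rw [MV, mem_filter, mem_range]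
      refine ⟨(hp i hi0 hin).trans hin, hpR, ?_⟩
      rw [← h.dec.top_step i hin hi.1 hpR]
      exact hi.2
  · have hiA : i ∈ A := h.pc_ex i hi.1 hi0 hi.2.1
    refine ⟨by rw [hfA _ hiA, h1 _ hiA], ?_⟩
    apply hf
    rw [MV, mem_filter, mem_range]
    exact ⟨(hp i hi0 hin).trans hin, hi.2⟩

theorem assemble {n : ℕ} {p : ℕ → ℕ} {e D K : ℕ} {R Sp X A T T' : Finset ℕ} {top : ℕ → ℕ}
    (hp : Par n p) (h : TDec n p e D K R Sp X A top)
    (hT : T = (range n).filter fun τ => τ ∉ R ∧ p τ ∈ R) (hT' : T' ⊆ T)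
    (lab f1 f2 x y z : ℕ → ℕ) (TS : Finset ℕ)
    (hlE : Emb p lab A (Ed p A)) (hpos : ∀ a ∈ A, 1 ≤ lab a)
    (h1 : ∀ r ∈ A, f1 r = lab r) (h1E : Emb p f1 (MV n R top T') (EM n p R top T'))
    (h2 : ∀ r ∈ A, f2 r = lab r) (h2E : Emb p f2 (MV n R top (T \ T')) (EM n p R top (T \ T')))
    (hS : Tot Sp (nb n p) (fun w => (Ad p A w).image lab) x y TS)
    (d1 : Disjoint (vs p lab A (Ed p A)) (vs p f1 (MV n R top T') (EM n p R top T')))
    (d2 : Disjoint (vs p lab A (Ed p A)) (vs p f2 (MV n R top (T \ T')) (EM n p R top (T \ T'))))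
    (d3 : Disjoint (vs p f1 (MV n R top T') (EM n p R top T'))
      (vs p f2 (MV n R top (T \ T')) (EM n p R top (T \ T'))))
    (d4 : Disjoint (vs p lab A (Ed p A)) TS)
    (d5 : Disjoint (vs p f1 (MV n R top T') (EM n p R top T')) TS)
    (d6 : Disjoint (vs p f2 (MV n R top (T \ T')) (EM n p R top (T \ T'))) TS)
    (d7 : Disjoint (vs p lab A (Ed p A))
      (X.biUnion fun v => insert (z v) (((Ad p A v).image lab).image fun q => z v + q)))
    (d8 : Disjoint (vs p f1 (MV n R top T') (EM n p R top T'))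
      (X.biUnion fun v => insert (z v) (((Ad p A v).image lab).image fun q => z v + q)))
    (d9 : Disjoint (vs p f2 (MV n R top (T \ T')) (EM n p R top (T \ T')))
      (X.biUnion fun v => insert (z v) (((Ad p A v).image lab).image fun q => z v + q)))
    (d10 : Disjoint TS
      (X.biUnion fun v => insert (z v) (((Ad p A v).image lab).image fun q => z v + q)))
    (i1 : vs p lab A (Ed p A) ⊆ Icc 1 (2 * n - 1))
    (i2 : vs p f1 (MV n R top T') (EM n p R top T') ⊆ Icc 1 (2 * n - 1))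
    (i3 : vs p f2 (MV n R top (T \ T')) (EM n p R top (T \ T')) ⊆ Icc 1 (2 * n - 1))
    (i4 : TS ⊆ Icc 1 (2 * n - 1))
    (i5 : (X.biUnion fun v => insert (z v) (((Ad p A v).image lab).image fun q => z v + q)) ⊆
      Icc 1 (2 * n - 1)) : IsSQ n p := by
  classical
  have hAR : A ⊆ R := by
    rw [h.Aeq]; exact sdiff_subset
  have hMV : ∀ T0, ∀ v ∈ MV n R top T0, v ∉ R := by
    intro T0 v hv
    rw [MV, mem_filter] at hv
    exact hv.2.1
  have hMVA : ∀ T0, ∀ v ∈ MV n R top T0, v ∉ A := fun T0 v hv h' => hMV T0 v hv (hAR h')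
  have hdT : Disjoint T' (T \ T') := disjoint_sdiff
  have hMM := Finset.disjoint_left.1 (MV_disj (n := n) (R := R) (top := top) hdT)
  have hSpA : ∀ v ∈ Sp, v ∉ A := by
    intro v hv hvA
    rw [h.Aeq, mem_sdiff] at hvA
    exact hvA.2 (mem_union_left _ (mem_union_left _ hv))
  have hXA : ∀ v ∈ X, v ∉ A := by
    intro v hv hvA
    rw [h.Aeq, mem_sdiff] at hvA
    exact hvA.2 (mem_union_right _ hv)
  have hLA : ∀ v ∈ Sp, ∀ w ∈ nb n p v, w ∉ A := by
    intro v hv w hw hwA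
    rw [h.Aeq, mem_sdiff] at hwA
    exact hwA.2 (mem_union_left _ (mem_union_right _ (mem_biUnion.2 ⟨v, hv, hw⟩)))
  set f : ℕ → ℕ := fun v => if v ∈ A then lab v else if v ∈ MV n R top T' then f1 v else
    if v ∈ MV n R top (T \ T') then f2 v else if v ∈ X then z v else if v ∈ Sp then y v else x v
    with hfdef
  have hfA : ∀ a ∈ A, f a = lab a := fun a ha => by
    rw [hfdef]; simp only; rw [if_pos ha]
  have hf1 : ∀ v ∈ MV n R top T', f v = f1 v := fun v hv => by
    rw [hfdef]; simp only; rw [if_neg (hMVA _ v hv), if_pos hv]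
  have hf2 : ∀ v ∈ MV n R top (T \ T'), f v = f2 v := fun v hv => by
    rw [hfdef]; simp only
    rw [if_neg (hMVA _ v hv), if_neg (fun h' => hMM h' hv), if_pos hv]
  have hfX : ∀ v ∈ X, f v = z v := fun v hv => by
    have hvR := h.XR hv
    rw [hfdef]; simp only
    rw [if_neg (hXA v hv), if_neg (fun h' => hMV _ v h' hvR), if_neg (fun h' => hMV _ v h' hvR),
      if_pos hv]
  have hfS : ∀ v ∈ Sp, f v = y v := fun v hv => by
    have hvR := h.spR hv
    rw [hfdef]; simp only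
    rw [if_neg (hSpA v hv), if_neg (fun h' => hMV _ v h' hvR), if_neg (fun h' => hMV _ v h' hvR),
      if_neg (fun h' => (Finset.disjoint_left.1 h.XSp) h' hv), if_pos hv]
  have hfL : ∀ v ∈ Sp, ∀ w ∈ nb n p v, f w = x w := fun v hv w hw => by
    obtain ⟨hwR, hwS, hwX, _⟩ := h.leg_in v hv w hw
    rw [hfdef]; simp only
    rw [if_neg (hLA v hv w hw), if_neg (fun h' => hMV _ w h' hwR),
      if_neg (fun h' => hMV _ w h' hwR), if_neg hwX, if_neg hwS]
  have c1 := piece_congr hp h lab f f1 h1 hfA hf1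
  have c2 := piece_congr hp h lab f f2 h2 hfA hf2
  have E1 : Emb p f (MV n R top T') (EM n p R top T') := h1E.congr c1.1 c1.2
  have E2 : Emb p f (MV n R top (T \ T')) (EM n p R top (T \ T')) := h2E.congr c2.1 c2.2
  have V1 := vs_congr c1.1 c1.2
  have V2 := vs_congr c2.1 c2.2
  have hEA : ∀ i ∈ Ed p A, f i = lab i ∧ f (p i) = lab (p i) := by
    intro i hi
    rw [Ed, mem_filter] at hi
    exact ⟨hfA i hi.1, hfA _ hi.2.2⟩
  have E0 : Emb p f A (Ed p A) := hlE.congr hfA hEA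
  have V0 : vs p f A (Ed p A) = vs p lab A (Ed p A) := vs_congr hfA hEA
  have E3 := unit_emb hp h Sp TS lab x y f (Subset.refl _) hlE.lab hpos hfA hfL hfS hS
  have E4 := x_emb hp h lab z f hlE.lab hpos hfA hfX
  have hTT : T' ∪ (T \ T') = T := union_sdiff_of_subset hT'
  obtain ⟨P1, P2⟩ := part hp h hT
  rw [← hTT, MV_union] at P1
  rw [← hTT, EM_union] at P2
  have F1 : Emb p f (A ∪ (MV n R top T' ∪ MV n R top (T \ T')))
      (Ed p A ∪ (EM n p R top T' ∪ EM n p R top (T \ T'))) := by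
    refine Emb.union E0 (Emb.union E1 E2 ?_) ?_
    · rw [V1, V2]; exact d3
    · rw [vs_union, V0, V1, V2, disjoint_union_right]
      exact ⟨d1, d2⟩
  have F2 := Emb.union F1 E3.1 (by
    rw [E3.2, vs_union, vs_union, V0, V1, V2, disjoint_union_left, disjoint_union_left]
    exact ⟨d4, d5, d6⟩)
  have F3 := Emb.union F2 E4.1 (by
    rw [E4.2, vs_union, vs_union, vs_union, V0, V1, V2, E3.2, disjoint_union_left,
      disjoint_union_left, disjoint_union_left]
    exact ⟨⟨d7, d8, d9⟩, d10⟩)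
  refine ⟨f, ?_, ?_⟩
  · rw [P1, P2]; exact F3
  · rw [P1, P2, vs_union, vs_union, vs_union, vs_union, V0, V1, V2, E3.2, E4.2]
    exact union_subset (union_subset (union_subset i1 (union_subset i2 i3)) i4) i5

end Pool.Agent.SQ
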