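import Pool.Agent.Helper73.SQ.FN1

/-!
# SQ-PAR1: parities of degrees (case `e = 0`, no adjusting vertex)

Proof in words.  `leg_even`: the neighbours of the leg `w` of `v` are `v` and `Ad p A w` (`leg_par`, `leg_chl`), so `dg n p w = 1 + |Ad p A w|`; `w ∉ A`, so `dg n p w` is odd.
`par_B`: `B = A ∪ MV` (`= range n \ (Sp ∪ legs)`), the edges are all the edges inside `B`; the sum is `∑_{v ∈ B} (1 + |Ad p B v|) f v`.  `v ∉ A`: all neighbours are in `B`
(`pc_par`, `pc_ex`: a vertex outside `R` is adjacent only to `A` and to vertices outside `R`), `dg` is odd, the term is even.  `v ∈ A`, `v ≠ h0`: `f v` is even.  `v = h0 ∈ A`: all neighbours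
in `B` (`hleg`; not adjacent to `Sp`, whose neighbours are legs), `dg` even, the term is `≡ f h0 ≡ n`.  If there is no vertex with even
degree, then `n` is even by the handshake lemma (`∑_v dg v = 2 (n - 1)`) and all terms are even.
-/

set_option autoImplicit false

namespace Pool.Agent.SQ

open Finset Pool.Agent.SEM

private theorem p4_mchl {n : ℕ} {p : ℕ → ℕ} {v u : ℕ} :
    u ∈ chl n p v ↔ u < n ∧ 0 < u ∧ p u = v := by
  unfold chl
  rw [mem_filter, mem_range]

private theorem p4_Amem {n : ℕ} {p : ℕ → ℕ} {e D K : ℕ} {R Sp X A : Finset ℕ} {top : ℕ → ℕ}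
    (h : TDec n p e D K R Sp X A top) {u : ℕ} :
    u ∈ A ↔ u ∈ R ∧ u ∉ Sp ∧ (∀ v ∈ Sp, u ∉ nb n p v) ∧ u ∉ X := by
  rw [h.Aeq, mem_sdiff, mem_union, mem_union, mem_biUnion]
  constructor
  · rintro ⟨h1, h2⟩
    exact ⟨h1, fun h3 => h2 (Or.inl (Or.inl h3)), fun v hv h3 => h2 (Or.inl (Or.inr ⟨v, hv, h3⟩)),
      fun h3 => h2 (Or.inr h3)⟩
  · rintro ⟨h1, h2, h3, h4⟩
    refine ⟨h1, ?_⟩
    rintro ((h5 | ⟨v, hv, h5⟩) | h5)
    · exact h2 h5
    · exact h3 v hv h5
    · exact h4 h5

theorem leg_even {n : ℕ} {p : ℕ → ℕ} {D K : ℕ} {R Sp X A : Finset ℕ} {top : ℕ → ℕ}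
    (hp : Par n p) (h : TDec n p 0 D K R Sp X A top)
    (hev : ∀ v, v < n → Even (dg n p v) → v ∈ A) (v w : ℕ) (hv : v ∈ Sp) (hw : w ∈ nb n p v) :
    Even (Ad p A w).card := by
  have hv0 := h.sp_pos v hv
  have hvn : v < n := mem_range.1 (h.dec.sub (h.spR hv))
  have hc : chl n p v = ∅ := card_eq_zero.1 (h.sp_chl v hv)
  have hw' : w = p v := by
    unfold nb at hw
    rw [hc, mem_insert] at hw
    rcases hw with hw | hw
    · exact hw
    · exact absurd hw (notMem_empty _)
  have hwv : w < v := by rw [hw']; exact hp v hv0 hvn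
  have hwn : w < n := hwv.trans hvn
  have hwA : w ∉ A := fun hA => ((p4_Amem h).1 hA).2.2.1 v hv hw
  have hvA : v ∉ A := fun hA => ((p4_Amem h).1 hA).2.1 hv
  have hodd : ¬ Even (dg n p w) := fun hE => hwA (hev w hwn hE)
  have hvc : v ∈ chl n p w := p4_mchl.2 ⟨hvn, hv0, hw'.symm⟩
  have hAn : ∀ u ∈ A, u < n := fun u hu => mem_range.1 (h.dec.sub ((p4_Amem h).1 hu).1)
  have hEq : Ad p A w = (chl n p w).erase v ∪ (if w = 0 then ∅ else {p w}) := by
    ext u
    unfold Ad
    rw [mem_filter, mem_union, mem_erase, p4_mchl]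
    constructor
    · rintro ⟨hu, ⟨h0, h1⟩ | ⟨h0, h1⟩⟩
      · right
        rw [if_neg (by omega), mem_singleton]
        exact h1
      · left
        refine ⟨?_, hAn u hu, h0, h1⟩
        rintro rfl
        exact hvA hu
    · rintro (⟨h1, h2, h3, h4⟩ | h1)
      · rcases h.leg_chl v hv w hw u (p4_mchl.2 ⟨h2, h3, h4⟩) with h5 | h5
        · exact absurd h5 h1
        · exact ⟨h5, Or.inr ⟨h3, h4⟩⟩
      · by_cases hw0 : w = 0
        · rw [if_pos hw0] at h1
          exact absurd h1 (notMem_empty _)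
        · rw [if_neg hw0, mem_singleton] at h1
          rcases h.leg_par v hv w hw (by omega) with h5 | h5
          · have := hp w (by omega) hwn
            omega
          · rw [← h1] at h5
            exact ⟨h5, Or.inl ⟨by omega, h1⟩⟩
  have hcard : (Ad p A w).card + 1 = dg n p w := by
    rw [hEq, card_union_of_disjoint, card_erase_of_mem hvc]
    · have hpos : 0 < (chl n p w).card := card_pos.2 ⟨v, hvc⟩
      unfold dg
      split_ifs
      · rw [card_empty]; omega
      · rw [card_singleton]; omega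
    · split_ifs with hw0
      · exact disjoint_empty_right _
      · rw [disjoint_singleton_right, mem_erase, p4_mchl]
        rintro ⟨-, h1, h2, h3⟩
        have h4 := hp (p w) h2 h1
        have h5 := hp w (by omega) hwn
        omega
  rw [← hcard] at hodd
  rw [Nat.even_add_one, not_not] at hodd
  exact hodd

private theorem p4_hand {n : ℕ} {p : ℕ → ℕ} (hp : Par n p) :
    ∑ v ∈ range n, dg n p v = 2 * (n - 1) := by
  unfold dg
  rw [sum_add_distrib]
  have h1 : ∑ v ∈ range n, (chl n p v).card = (Ico 1 n).card := by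
    rw [card_eq_sum_card_fiberwise (f := p) (t := range n)]
    · refine sum_congr rfl fun v _ => ?_
      congr 1
      ext u
      rw [p4_mchl, mem_filter, mem_Ico]
      constructor
      · rintro ⟨h1, h2, h3⟩
        exact ⟨⟨h2, h1⟩, h3⟩
      · rintro ⟨⟨h1, h2⟩, h3⟩
        exact ⟨h2, h1, h3⟩
    · intro u hu
      rw [mem_coe, mem_Ico] at hu
      rw [mem_coe, mem_range]
      exact (hp u hu.1 hu.2).trans hu.2
  have h2 : ∑ v ∈ range n, (if v = 0 then 0 else 1) = (Ico 1 n).card := by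
    rw [card_eq_sum_ones, ← sum_filter_not_add_sum_filter (range n) (fun v => v = 0)]
    have e1 : ∑ v ∈ (range n).filter (fun v => v = 0), (if v = 0 then 0 else 1) = 0 :=
      sum_eq_zero fun v hv => if_pos (mem_filter.1 hv).2
    have e2 : ∑ v ∈ (range n).filter (fun v => ¬ v = 0), (if v = 0 then 0 else 1) =
        ∑ v ∈ Ico 1 n, 1 := by
      refine sum_congr ?_ fun v hv => ?_
      · ext u
        rw [mem_filter, mem_range, mem_Ico]
        omega
      · rw [mem_Ico] at hv
        exact if_neg (by omega)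
    rw [e1, e2, add_zero]
  rw [h1, h2, Nat.card_Ico]
  omega

theorem par_B {n : ℕ} {p : ℕ → ℕ} {D K : ℕ} {R Sp A T : Finset ℕ} {top : ℕ → ℕ} (hn : 0 < n)
    (hp : Par n p) (h : TDec n p 0 D K R Sp ∅ A top)
    (hT : T = (range n).filter fun τ => τ ∉ R ∧ p τ ∈ R) (h0 : ℕ)
    (hev : ∀ v, v < n → Even (dg n p v) → v ∈ A)
    (hh0 : (∃ v, v < n ∧ Even (dg n p v)) → h0 < n ∧ Even (dg n p h0))
    (hleg : ∀ v ∈ Sp, ∀ w ∈ nb n p v, h0 ∉ Ad p A w) (f : ℕ → ℕ)
    (hf : ∀ v ∈ A, f v % 2 = if v = h0 then n % 2 else 0) :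
    (∑ v ∈ A ∪ MV n R top T, f v + ∑ i ∈ Ed p A ∪ EM n p R top T, (f i + f (p i))) % 2 = n % 2 := by
  have h0R := h.dec.zero
  have hAn : ∀ u ∈ A, u < n := fun u hu => mem_range.1 (h.dec.sub ((p4_Amem h).1 hu).1)
  have hAR : ∀ u ∈ A, u ∈ R := fun u hu => ((p4_Amem h).1 hu).1
  -- tops
  have htop : ∀ v, v < n → v ∉ R → top v ∈ T := by
    intro v
    induction v using Nat.strong_induction_on with
    | _ v ih =>
      intro hvn hvR
      have hv0 : 0 < v := by
        rcases Nat.eq_zero_or_pos v with h1 | h1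
        · rw [h1] at hvR
          exact absurd h0R hvR
        · exact h1
      by_cases hpv : p v ∈ R
      · rw [h.dec.top_root v hvn hvR hpv, hT, mem_filter, mem_range]
        exact ⟨hvn, hvR, hpv⟩
      · rw [h.dec.top_step v hvn hvR hpv]
        exact ih (p v) (hp v hv0 hvn) ((hp v hv0 hvn).trans hvn) hpv
  set B : Finset ℕ := A ∪ MV n R top T with hB
  have hBmem : ∀ u, u ∈ B ↔ u ∈ A ∨ (u < n ∧ u ∉ R) := by
    intro u
    rw [hB, mem_union, MV, mem_filter, mem_range]
    constructor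
    · rintro (h1 | ⟨h1, h2, -⟩)
      · exact Or.inl h1
      · exact Or.inr ⟨h1, h2⟩
    · rintro (h1 | ⟨h1, h2⟩)
      · exact Or.inl h1
      · exact Or.inr ⟨h1, h2, htop u h1 h2⟩
  have hBn : ∀ u ∈ B, u < n := by
    intro u hu
    rcases (hBmem u).1 hu with h1 | h1
    · exact hAn u h1
    · exact h1.1
  have hE : Ed p A ∪ EM n p R top T = B.filter fun i => 0 < i ∧ p i ∈ B := by
    ext i
    rw [mem_union, Ed, EM, mem_filter, mem_filter, mem_filter, mem_range]
    constructor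
    · rintro (⟨h1, h2, h3⟩ | ⟨h1, h2, (⟨h3, -⟩ | ⟨h3, h4, -⟩)⟩)
      · exact ⟨(hBmem i).2 (Or.inl h1), h2, (hBmem _).2 (Or.inl h3)⟩
      · refine ⟨(hBmem i).2 (Or.inr ⟨h1, h3⟩), h2, (hBmem _).2 ?_⟩
        by_cases h5 : p i ∈ R
        · exact Or.inl (h.pc_par i h1 h3 h5)
        · exact Or.inr ⟨(hp i h2 h1).trans h1, h5⟩
      · exact ⟨(hBmem i).2 (Or.inl (h.pc_ex i h3 h2 h4)), h2,
          (hBmem _).2 (Or.inr ⟨(hp i h2 h1).trans h1, h4⟩)⟩
    · rintro ⟨h1, h2, h3⟩
      rcases (hBmem i).1 h1 with h4 | ⟨h4, h5⟩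
      · rcases (hBmem _).1 h3 with h6 | ⟨h6, h7⟩
        · exact Or.inl ⟨h4, h2, h6⟩
        · exact Or.inr ⟨hAn i h4, h2, Or.inr ⟨hAR i h4, h7, htop _ h6 h7⟩⟩
      · exact Or.inr ⟨h4, h2, Or.inl ⟨h5, htop i h4 h5⟩⟩
  rw [hE]
  set E : Finset ℕ := B.filter fun i => 0 < i ∧ p i ∈ B with hEdef
  let g : ℕ → ℕ := fun v => f v + ((if 0 < v ∧ p v ∈ B then f v else 0) +
    (E.filter fun i => p i = v).card * f v)
  have hsum : ∑ v ∈ B, f v + ∑ i ∈ E, (f i + f (p i)) = ∑ v ∈ B, g v := by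
    simp only [g]
    rw [sum_add_distrib (f := f) (s := B), sum_add_distrib, sum_add_distrib]
    congr 1
    congr 1
    · rw [hEdef, sum_filter]
    · rw [← sum_fiberwise_of_maps_to (s := E) (t := B) (g := p)]
      · refine sum_congr rfl fun v _ => ?_
        rw [sum_congr rfl (g := fun _ => f v), sum_const, smul_eq_mul]
        intro i hi
        rw [(mem_filter.1 hi).2]
      · intro i hi
        exact (mem_filter.1 hi).2.2
  rw [hsum]
  have hgen : ∀ v ∈ B, (∀ c ∈ chl n p v, c ∈ B) → (0 < v → p v ∈ B) →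
      g v = f v * (1 + dg n p v) := by
    intro v hv hc hpv
    have h1 : E.filter (fun i => p i = v) = chl n p v := by
      ext i
      rw [mem_filter, hEdef, mem_filter, p4_mchl]
      constructor
      · rintro ⟨⟨h1, h2, -⟩, h4⟩
        exact ⟨hBn i h1, h2, h4⟩
      · rintro ⟨h1, h2, h3⟩
        exact ⟨⟨hc i (p4_mchl.2 ⟨h1, h2, h3⟩), h2, by rw [h3]; exact hv⟩, h3⟩
    simp only [g]
    rw [h1]
    unfold dg
    by_cases hv0 : v = 0
    · rw [if_neg (by omega), if_pos hv0]
      ring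
    · rw [if_pos ⟨by omega, hpv (by omega)⟩, if_neg hv0]
      ring
  have hout : ∀ v, v < n → v ∉ R → g v % 2 = 0 := by
    intro v hvn hvR
    have hvB : v ∈ B := (hBmem v).2 (Or.inr ⟨hvn, hvR⟩)
    have hvA : v ∉ A := fun h1 => hvR (hAR v h1)
    have hv0 : 0 < v := by
      rcases Nat.eq_zero_or_pos v with h1 | h1
      · rw [h1] at hvR
        exact absurd h0R hvR
      · exact h1
    rw [hgen v hvB]
    · have hodd : ¬ Even (dg n p v) := fun h1 => hvA (hev v hvn h1)
      have h2 : Even (1 + dg n p v) := by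
        rw [add_comm, Nat.even_add_one]
        exact hodd
      exact Nat.even_iff.1 (h2.mul_left _)
    · intro c hc
      obtain ⟨h1, h2, h3⟩ := p4_mchl.1 hc
      by_cases h4 : c ∈ R
      · exact (hBmem c).2 (Or.inl (h.pc_ex c h4 h2 (by rw [h3]; exact hvR)))
      · exact (hBmem c).2 (Or.inr ⟨h1, h4⟩)
    · intro _
      by_cases h4 : p v ∈ R
      · exact (hBmem _).2 (Or.inl (h.pc_par v hvn hvR h4))
      · exact (hBmem _).2 (Or.inr ⟨(hp v hv0 hvn).trans hvn, h4⟩)
  have heven : ∀ v, f v % 2 = 0 → g v % 2 = 0 := by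
    intro v hv
    have h1 : Even (f v) := Nat.even_iff.2 hv
    refine Nat.even_iff.1 ?_
    simp only [g]
    refine h1.add (Even.add ?_ (h1.mul_left _))
    split_ifs
    · exact h1
    · exact Even.zero
  rw [sum_nat_mod]
  by_cases hex : ∃ v, v < n ∧ Even (dg n p v)
  · obtain ⟨hh1, hh2⟩ := hh0 hex
    have hh3 : h0 ∈ A := hev h0 hh1 hh2
    have hh4 : h0 ∈ B := (hBmem h0).2 (Or.inl hh3)
    -- all neighbours of h0 are in B
    have hsp : ∀ u, u < n → u ∉ B → u ∈ Sp ∨ ∃ v ∈ Sp, u ∈ nb n p v := by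
      intro u hun huB
      by_contra hcon
      rw [not_or, not_exists] at hcon
      refine huB ((hBmem u).2 ?_)
      by_cases huR : u ∈ R
      · refine Or.inl ((p4_Amem h).2 ⟨huR, hcon.1, fun v hv h1 => hcon.2 v ⟨hv, h1⟩, notMem_empty _⟩)
      · exact Or.inr ⟨hun, huR⟩
    have hnb : ∀ v ∈ Sp, h0 ∉ nb n p v := ((p4_Amem h).1 hh3).2.2.1
    have hg0 : g h0 % 2 = n % 2 := by
      rw [hgen h0 hh4]
      · have h2 : (1 + dg n p h0) % 2 = 1 := by
          have := Nat.even_iff.1 hh2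
          omega
        rw [Nat.mul_mod, h2, mul_one, Nat.mod_mod, hf h0 hh3, if_pos rfl]
      · intro c hc
        by_contra hcB
        obtain ⟨h1, h2, h3⟩ := p4_mchl.1 hc
        rcases hsp c h1 hcB with h4 | ⟨v, hv, h4⟩
        · refine hnb c h4 ?_
          unfold nb
          rw [h3]
          exact mem_insert_self _ _
        · refine hleg v hv c h4 ?_
          unfold Ad
          rw [mem_filter]
          exact ⟨hh3, Or.inl ⟨h2, h3.symm⟩⟩
      · intro hpos
        by_contra hcB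
        have hpn : p h0 < n := (hp h0 hpos hh1).trans hh1
        rcases hsp (p h0) hpn hcB with h4 | ⟨v, hv, h4⟩
        · refine hnb (p h0) h4 ?_
          unfold nb
          exact mem_insert_of_mem (p4_mchl.2 ⟨hh1, hpos, rfl⟩)
        · refine hleg v hv (p h0) h4 ?_
          unfold Ad
          rw [mem_filter]
          exact ⟨hh3, Or.inr ⟨hpos, rfl⟩⟩
    have hall : ∀ v ∈ B, g v % 2 = if v = h0 then n % 2 else 0 := by
      intro v hv
      by_cases hvh : v = h0
      · rw [if_pos hvh, hvh]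
        exact hg0
      · rw [if_neg hvh]
        rcases (hBmem v).1 hv with h1 | ⟨h1, h2⟩
        · refine heven v ?_
          rw [hf v h1, if_neg hvh]
        · exact hout v h1 h2
    rw [sum_congr rfl hall, sum_ite_eq' B h0, if_pos hh4, Nat.mod_mod]
  · have hodd : ∀ v ∈ range n, dg n p v % 2 = 1 := by
      intro v hv
      by_contra hcon
      refine hex ⟨v, mem_range.1 hv, Nat.even_iff.2 ?_⟩
      omega
    have hn2 : n % 2 = 0 := by
      have h1 := p4_hand hp
      have h2 : (∑ v ∈ range n, dg n p v) % 2 = n % 2 := by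
        rw [sum_nat_mod, sum_congr rfl hodd, sum_const, card_range, smul_eq_mul, mul_one]
      rw [h1] at h2
      omega
    have hall : ∀ v ∈ B, g v % 2 = 0 := by
      intro v hv
      rcases (hBmem v).1 hv with h1 | ⟨h1, h2⟩
      · refine heven v ?_
        rw [hf v h1, hn2]
        split_ifs <;> rfl
      · exact hout v h1 h2
    rw [sum_congr rfl hall, sum_const_zero, hn2, Nat.zero_mod]

end Pool.Agent.SQ
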