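import Pool.Agent.Helper73.SQ.FN1

/-!
# SQ-PAR2: parities of sums of values (units with one leg, `|Q|` even, all `q ∈ Q` even)

Proof in words.  `tot_even`: the sum over `tot v` is `y + (y + x) + (1 + |Q|) x + ∑ Q`, even.
`cst_par`: the sum over `cst w` is `(1 + |Q|) x w + ∑ Q ≡ x w`.  `un_par`: the sum over `un v` is `y + (y + x w) ≡ x w` (`y ≠ y + x w` since `x w ≥ 1` by `Lgd.hi`).
-/

set_option autoImplicit false

namespace Pool.Agent.SQ

open Finset Pool.Agent.SEM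

theorem sum_cst63 {Q : ℕ → Finset ℕ} {x : ℕ → ℕ} {w : ℕ} (h1 : ∀ q ∈ Q w, 1 ≤ q)
    (he : Even (Q w).card) (hq : ∀ q ∈ Q w, q % 2 = 0) :
    (∑ t ∈ cst Q x w, t) % 2 = x w % 2 := by
  unfold cst
  rw [sum_insert, sum_image, sum_add_distrib, sum_const, smul_eq_mul]
  · have h2 : (∑ q ∈ Q w, q) % 2 = 0 := by
      rw [Finset.sum_nat_mod, Finset.sum_congr rfl hq]
      simp
    obtain ⟨k, hk⟩ := he
    rw [hk]
    have h3 : (k + k) * x w = 2 * (k * x w) := by ring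
    rw [h3]
    omega
  · intro a _ b _ hab
    simpa using hab
  · rw [mem_image]
    rintro ⟨q, hq', hqq⟩
    have := h1 q hq'
    omega

theorem sum_un63 {Lg : ℕ → Finset ℕ} {x y : ℕ → ℕ} {v w : ℕ} (hL : Lg v = {w}) (hx : 1 ≤ x w) :
    (∑ t ∈ un Lg x v (y v), t) % 2 = x w % 2 := by
  unfold un
  rw [hL, image_singleton, sum_pair (by omega)]
  omega

theorem tot_even {n D : ℕ} {S T : Finset ℕ} {Lg Q : ℕ → Finset ℕ} {x y : ℕ → ℕ}
    (hU : Unit n 1 D S Lg Q) (hT : Tot S Lg Q x y T)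
    (hQ : ∀ v ∈ S, ∀ w ∈ Lg v, Even (Q w).card ∧ ∀ q ∈ Q w, q % 2 = 0) :
    (∑ t ∈ T, t) % 2 = 0 := by
  rw [← hT.un_eq, sum_biUnion (fun v hv v' hv' h => hT.dj v hv v' hv' h), Finset.sum_nat_mod]
  have : ∀ v ∈ S, (∑ t ∈ tot Lg Q x y v, t) % 2 = 0 := by
    intro v hv
    obtain ⟨w, hw⟩ := card_eq_one.1 (hU.card v hv)
    have hwm : w ∈ Lg v := by rw [hw]; exact mem_singleton_self w
    obtain ⟨h1, h2⟩ := hQ v hv w hwm
    have hd := hT.unw v hv w hwm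
    unfold tot
    have e1 : (Lg v).biUnion (cst Q x) = cst Q x w := by rw [hw, singleton_biUnion]
    rw [e1, sum_union hd]
    have hx : 1 ≤ x w := by
      by_contra hx
      have hx0 : x w = 0 := by omega
      have hc := hT.unc v hv
      unfold un at hc
      rw [hw, image_singleton, hx0, add_zero, insert_eq_of_mem (mem_singleton_self _)] at hc
      simp at hc
    have e2 := sum_un63 (y := y) hw hx
    have e3 := sum_cst63 (x := x) (fun q hq => (hU.Qs v hv w hwm q hq).1) h1 h2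
    omega
  rw [Finset.sum_congr rfl this]
  simp

theorem cst_par {n D : ℕ} {S Z : Finset ℕ} {Lg Q : ℕ → Finset ℕ} {x : ℕ → ℕ}
    (hU : Unit n 1 D S Lg Q) (hL : Lgd n S Z Lg Q x)
    (hQ : ∀ v ∈ S, ∀ w ∈ Lg v, Even (Q w).card ∧ ∀ q ∈ Q w, q % 2 = 0) :
    (∑ t ∈ (S.biUnion Lg).biUnion (cst Q x), t) % 2 = (∑ w ∈ S.biUnion Lg, x w) % 2 := by
  rw [sum_biUnion (fun w hw w' hw' h => hL.dj w hw w' hw' h), Finset.sum_nat_mod,
    Finset.sum_nat_mod (S.biUnion Lg) 2 x]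
  congr 1
  apply Finset.sum_congr rfl
  intro w hw
  obtain ⟨v, hv, hwv⟩ := mem_biUnion.1 hw
  obtain ⟨h1, h2⟩ := hQ v hv w hwv
  exact sum_cst63 (fun q hq => (hU.Qs v hv w hwv q hq).1) h1 h2

theorem un_par {n D : ℕ} {S Z T : Finset ℕ} {Lg Q : ℕ → Finset ℕ} {x y : ℕ → ℕ}
    (hU : Unit n 1 D S Lg Q) (hL : Lgd n S Z Lg Q x) (hC : Cov Lg x y S T) :
    (∑ t ∈ T, t) % 2 = (∑ w ∈ S.biUnion Lg, x w) % 2 := by
  rw [← hC.2, sum_biUnion (fun v hv v' hv' h => hC.1 v hv v' hv' h),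
    sum_biUnion (fun v hv v' hv' h => hU.dj v hv v' hv' h), Finset.sum_nat_mod,
    Finset.sum_nat_mod S 2 (fun v => ∑ w ∈ Lg v, x w)]
  congr 1
  apply Finset.sum_congr rfl
  intro v hv
  obtain ⟨w, hw⟩ := card_eq_one.1 (hU.card v hv)
  have hwm : w ∈ Lg v := by rw [hw]; exact mem_singleton_self w
  have hx : 1 ≤ x w := by
    have := (hL.hi v hv w hwm (x w) (mem_insert_self _ _)).1
    omega
  rw [sum_un63 (y := y) hw hx, hw, sum_singleton]

end Pool.Agent.SQ
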