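import Pool.Agent.Helper73.SQ.FIN1
import Pool.Agent.Helper73.SQ.PAR1
import Pool.Agent.Helper73.SQ.PAR2

/-!
# SQ-FIN2: small lemmas for the assembly
-/

set_option autoImplicit false

namespace Pool.Agent.SQ

open Finset Pool.Agent.SEM

theorem Ad_sub {n : ℕ} {p : ℕ → ℕ} {A : Finset ℕ} (hA : A ⊆ range n) (w : ℕ) :
    Ad p A w ⊆ insert (p w) (chl n p w) := by
  intro u hu
  rw [Ad, mem_filter] at hu
  rw [mem_insert, chl, mem_filter]
  rcases hu.2 with h | h
  · exact Or.inl h.2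
  · exact Or.inr ⟨hA hu.1, h⟩

theorem Ad_card {n : ℕ} {p : ℕ → ℕ} {A : Finset ℕ} {D : ℕ} (hA : A ⊆ range n) (w : ℕ)
    (hw : (chl n p w).card ≤ D) : (Ad p A w).card ≤ D + 1 := by
  refine (card_le_card (Ad_sub hA w)).trans ((card_insert_le _ _).trans ?_)
  omega

theorem TDec.AR {n : ℕ} {p : ℕ → ℕ} {e D K : ℕ} {R Sp X A : Finset ℕ} {top : ℕ → ℕ}
    (h : TDec n p e D K R Sp X A top) : A ⊆ R := by
  rw [h.Aeq]; exact sdiff_subset

theorem TDec.Arange {n : ℕ} {p : ℕ → ℕ} {e D K : ℕ} {R Sp X A : Finset ℕ} {top : ℕ → ℕ}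
    (h : TDec n p e D K R Sp X A top) : A ⊆ range n := h.AR.trans h.dec.sub

theorem nb_card {n : ℕ} {p : ℕ → ℕ} {e D K : ℕ} {R Sp X A : Finset ℕ} {top : ℕ → ℕ}
    (hp : Par n p) (h : TDec n p e D K R Sp X A top) (v : ℕ) (hv : v ∈ Sp) :
    (nb n p v).card = e + 1 := by
  unfold nb
  rw [card_insert_of_notMem, h.sp_chl v hv]
  intro h'
  rw [chl, mem_filter, mem_range] at h'
  have h0 := h.sp_pos v hv
  have hvn : v < n := mem_range.1 (h.dec.sub (h.spR hv))
  have h1 := hp v h0 hvn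
  have h2 := hp (p v) h'.2.1 h'.1
  have h3 := h'.2.2
  omega

theorem unit_of {n : ℕ} {p : ℕ → ℕ} {e D K : ℕ} {R Sp X A : Finset ℕ} {top : ℕ → ℕ}
    (hp : Par n p) (h : TDec n p e D K R Sp X A top) (lab : ℕ → ℕ)
    (hlab : ∀ a ∈ A, 1 ≤ lab a ∧ 16 * lab a ≤ n) (S : Finset ℕ) (hS : S ⊆ Sp) :
    Unit n (e + 1) D S (nb n p) (fun w => (Ad p A w).image lab) := by
  refine ⟨fun v hv => nb_card hp h v (hS hv), fun v hv v' hv' hne =>
    h.leg_dj v (hS hv) v' (hS hv') hne, ?_, ?_⟩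
  · intro v hv w hw
    exact card_image_le.trans (Ad_card h.Arange w (h.leg_in v (hS hv) w hw).2.2.2)
  · intro v hv w hw q hq
    obtain ⟨a, ha, rfl⟩ := mem_image.1 hq
    rw [Ad, mem_filter] at ha
    exact hlab a ha.1

theorem Unit.mono {n d D : ℕ} {S S' : Finset ℕ} {Lg Q : ℕ → Finset ℕ} (h : Unit n d D S Lg Q)
    (hS : S' ⊆ S) : Unit n d D S' Lg Q :=
  ⟨fun v hv => h.card v (hS hv), fun v hv v' hv' => h.dj v (hS hv) v' (hS hv'),
    fun v hv => h.Qc v (hS hv), fun v hv => h.Qs v (hS hv)⟩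

theorem gam_le {n d D : ℕ} {S : Finset ℕ} {Lg Q : ℕ → Finset ℕ} (h : Unit n d D S Lg Q)
    (v : ℕ) (hv : v ∈ S) : gam Lg Q v ≤ d * (D + 2) := by
  unfold gam
  rw [← h.card v hv, ← smul_eq_mul, ← sum_const]
  refine sum_le_sum fun w hw => ?_
  have := h.Qc v hv w hw
  omega

theorem EM_le {n : ℕ} {p : ℕ → ℕ} {K : ℕ} {R T : Finset ℕ} {top : ℕ → ℕ} (hp : Par n p)
    (h : Dec n p K R top) : (EM n p R top T).card ≤ 2 * (MV n R top T).card := by
  classical
  have h1 : EM n p R top T ⊆ MV n R top T ∪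
      (EM n p R top T).filter (fun i => i ∈ R ∧ p i ∉ R ∧ top (p i) ∈ T) := by
    intro i hi
    have hi' := hi
    rw [EM, mem_filter, mem_range] at hi'
    rw [mem_union, MV, mem_filter, mem_filter, mem_range]
    rcases hi'.2.2 with h' | h'
    · exact Or.inl ⟨hi'.1, h'⟩
    · exact Or.inr ⟨hi, h'⟩
  have h2 : ((EM n p R top T).filter (fun i => i ∈ R ∧ p i ∉ R ∧ top (p i) ∈ T)).card ≤
      (MV n R top T).card := by
    apply card_le_card_of_injOn p
    · intro i hi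
      rw [mem_coe, mem_filter, EM, mem_filter, mem_range] at hi
      rw [mem_coe, MV, mem_filter, mem_range]
      exact ⟨(hp i hi.1.2.1 hi.1.1).trans hi.1.1, hi.2.2⟩
    · intro i hi j hj hij
      rw [mem_coe, mem_filter, EM, mem_filter, mem_range] at hi hj
      exact h.exit_unique i hi.2.1 j hj.2.1 hi.1.2.1 hj.1.2.1 hi.2.2.1 hj.2.2.1 (by rw [hij])
  have h3 := (card_le_card h1).trans (card_union_le _ _)
  omega

theorem exists_classes (g : ℕ) (F : Finset ℕ) (m : ℕ → ℕ)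
    (hm : ∀ κ < g, m κ ≤ (F.filter fun a => a % g = κ).card) :
    ∃ L' ⊆ F, ∀ κ < g, (L'.filter fun a => a % g = κ).card = m κ := by
  classical
  have h : ∀ κ, ∃ s : Finset ℕ, s ⊆ (F.filter fun a => a % g = κ) ∧ (κ < g → s.card = m κ) := by
    intro κ
    by_cases hκ : κ < g
    · obtain ⟨s, hs1, hs2⟩ := exists_subset_card_eq (hm κ hκ)
      exact ⟨s, hs1, fun _ => hs2⟩
    · exact ⟨∅, empty_subset _, fun h' => absurd h' hκ⟩
  choose s hs1 hs2 using h
  refine ⟨(range g).biUnion s, ?_, ?_⟩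
  · intro a ha
    obtain ⟨κ, _, hκ⟩ := mem_biUnion.1 ha
    exact (mem_filter.1 (hs1 κ hκ)).1
  · intro κ hκ
    rw [← hs2 κ hκ]
    congr 1
    ext a
    rw [mem_filter, mem_biUnion]
    constructor
    · rintro ⟨⟨κ', _, h'⟩, h2⟩
      have := (mem_filter.1 (hs1 κ' h')).2
      rw [h2] at this
      rw [this]
      exact h'
    · intro h'
      exact ⟨⟨κ, mem_range.2 hκ, h'⟩, (mem_filter.1 (hs1 κ h')).2⟩

theorem card_classes (g : ℕ) (hg : 0 < g) (F : Finset ℕ) :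
    F.card = ∑ κ ∈ range g, (F.filter fun a => a % g = κ).card :=
  card_eq_sum_card_fiberwise fun a _ => mem_coe.2 (mem_range.2 (Nat.mod_lt a hg))

theorem sum_odd (L : Finset ℕ) :
    (∑ t ∈ L, t) % 2 = (L.filter fun t => t % 2 = 1).card % 2 := by
  classical
  induction L using Finset.induction_on with
  | empty => simp
  | insert a s ha ih =>
    rw [sum_insert ha, filter_insert]
    by_cases h : a % 2 = 1
    · rw [if_pos h, card_insert_of_notMem (by simp [ha])]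
      omega
    · rw [if_neg h]
      omega

theorem sum_Icc_par (n : ℕ) (hn : 0 < n) : (∑ t ∈ Icc 1 (2 * n - 1), t) % 2 = n % 2 := by
  have h : ∀ m : ℕ, ∑ t ∈ Icc 1 (2 * m + 1), t = (m + 1) * (2 * m + 1) := by
    intro m
    induction m with
    | zero => simp
    | succ m ih =>
      rw [show 2 * (m + 1) + 1 = (2 * m + 1) + 1 + 1 by ring, sum_Icc_succ_top (by omega),
        sum_Icc_succ_top (by omega), ih]
      ring
  obtain ⟨m, rfl⟩ : ∃ m, n = m + 1 := ⟨n - 1, by omega⟩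
  rw [show 2 * (m + 1) - 1 = 2 * m + 1 by omega, h m, Nat.mul_mod]
  have h1 : (2 * m + 1) % 2 = 1 := by omega
  rw [h1, mul_one, Nat.mod_mod]

theorem Rich.class_le {n g : ℕ} {ρ : ℝ} {F : Finset ℕ} {Qs : Finset (Finset ℕ)}
    (h : Rich n g ρ F Qs) (hQ : ∅ ∈ Qs) (κ : ℕ) (hκ : κ < g) :
    ρ * n ≤ ((F.filter fun a => a % g = κ).card : ℝ) := by
  refine (h.a ∅ hQ κ hκ 0 (Nat.zero_le _) 0 (Nat.zero_le _)).trans ?_
  exact_mod_cast card_le_card (by
    intro a ha
    rw [mem_filter] at ha ⊢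
    exact ⟨ha.1, ha.2.2.2.1⟩)

theorem X_dg {n : ℕ} {p : ℕ → ℕ} {e D K : ℕ} {R Sp X A : Finset ℕ} {top : ℕ → ℕ}
    (hp : Par n p) (h : TDec n p e D K R Sp X A top) (x : ℕ) (hx : x ∈ X) :
    (Ad p A x).card = dg n p x := by
  classical
  have hxn : x < n := mem_range.1 (h.dec.sub (h.XR hx))
  by_cases h0 : x = 0
  · have : Ad p A x = chl n p x := by
      ext u
      rw [Ad, mem_filter, chl, mem_filter]
      constructor
      · rintro ⟨h1, h2 | h2⟩
        · omega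
        · exact ⟨h.Arange h1, h2⟩
      · rintro ⟨h1, h2⟩
        refine ⟨h.X_chl x hx ?_, Or.inr h2⟩
        rw [chl, mem_filter]
        exact ⟨h1, h2⟩
    rw [this, dg, if_pos h0, add_zero]
  · have hpos : 0 < x := Nat.pos_of_ne_zero h0
    have : Ad p A x = insert (p x) (chl n p x) := by
      refine (Ad_sub h.Arange x).antisymm ?_
      intro u hu
      rw [mem_insert] at hu
      rcases hu with rfl | hu
      · rw [Ad, mem_filter]
        exact ⟨h.X_par x hx hpos, Or.inl ⟨hpos, rfl⟩⟩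
      · rw [Ad, mem_filter]
        refine ⟨h.X_chl x hx hu, Or.inr ?_⟩
        rw [chl, mem_filter] at hu
        exact hu.2
    rw [this, dg, if_neg h0, card_insert_of_notMem]
    intro h'
    rw [chl, mem_filter, mem_range] at h'
    have h1 := hp x hpos hxn
    have h2 := hp (p x) h'.2.1 h'.1
    have h3 := h'.2.2
    omega

theorem base_emb {n : ℕ} {p : ℕ → ℕ} {e D K : ℕ} {R Sp X A T T' : Finset ℕ} {top : ℕ → ℕ}
    (hp : Par n p) (h : TDec n p e D K R Sp X A top) (hT' : T' ⊆ T)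
    (lab f1 f2 : ℕ → ℕ) (hlE : Emb p lab A (Ed p A))
    (h1 : ∀ r ∈ A, f1 r = lab r) (h1E : Emb p f1 (MV n R top T') (EM n p R top T'))
    (h2 : ∀ r ∈ A, f2 r = lab r) (h2E : Emb p f2 (MV n R top (T \ T')) (EM n p R top (T \ T')))
    (d1 : Disjoint (vs p lab A (Ed p A)) (vs p f1 (MV n R top T') (EM n p R top T')))
    (d2 : Disjoint (vs p lab A (Ed p A)) (vs p f2 (MV n R top (T \ T')) (EM n p R top (T \ T'))))
    (d3 : Disjoint (vs p f1 (MV n R top T') (EM n p R top T'))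
      (vs p f2 (MV n R top (T \ T')) (EM n p R top (T \ T')))) :
    ∃ f : ℕ → ℕ, (∀ a ∈ A, f a = lab a) ∧
      Emb p f (A ∪ MV n R top T) (Ed p A ∪ EM n p R top T) ∧
      vs p f (A ∪ MV n R top T) (Ed p A ∪ EM n p R top T) = vs p lab A (Ed p A) ∪
        (vs p f1 (MV n R top T') (EM n p R top T') ∪
          vs p f2 (MV n R top (T \ T')) (EM n p R top (T \ T'))) := by
  classical
  have hAR : A ⊆ R := h.AR
  have hMV : ∀ T0, ∀ v ∈ MV n R top T0, v ∉ R := by
    intro T0 v hv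
    rw [MV, mem_filter] at hv
    exact hv.2.1
  have hMVA : ∀ T0, ∀ v ∈ MV n R top T0, v ∉ A := fun T0 v hv h' => hMV T0 v hv (hAR h')
  have hdT : Disjoint T' (T \ T') := disjoint_sdiff
  have hMM := Finset.disjoint_left.1 (MV_disj (n := n) (R := R) (top := top) hdT)
  set f : ℕ → ℕ := fun v => if v ∈ A then lab v else if v ∈ MV n R top T' then f1 v else f2 v
    with hfdef
  have hfA : ∀ a ∈ A, f a = lab a := fun a ha => by
    rw [hfdef]; simp only; rw [if_pos ha]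
  have hf1 : ∀ v ∈ MV n R top T', f v = f1 v := fun v hv => by
    rw [hfdef]; simp only; rw [if_neg (hMVA _ v hv), if_pos hv]
  have hf2 : ∀ v ∈ MV n R top (T \ T'), f v = f2 v := fun v hv => by
    rw [hfdef]; simp only
    rw [if_neg (hMVA _ v hv), if_neg (fun h' => hMM h' hv)]
  have c1 := piece_congr hp h lab f f1 h1 hfA hf1
  have c2 := piece_congr hp h lab f f2 h2 hfA hf2
  have E1 : Emb p f (MV n R top T') (EM n p R top T') := h1E.congr c1.1 c1.2
  have E2 : Emb p f (MV n R top (T \ T')) (EM n p R top (T \ T')) := h2E.congr c2.1 c2.2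
  have V1 := vs_congr c1.1 c1.2
  have V2 := vs_congr c2.1 c2.2
  have hEA : ∀ i ∈ Ed p A, f i = lab i ∧ f (p i) = lab (p i) := by
    intro i hi
    rw [Ed, mem_filter] at hi
    exact ⟨hfA i hi.1, hfA _ hi.2.2⟩
  have E0 : Emb p f A (Ed p A) := hlE.congr hfA hEA
  have V0 : vs p f A (Ed p A) = vs p lab A (Ed p A) := vs_congr hfA hEA
  have hTT : T' ∪ (T \ T') = T := union_sdiff_of_subset hT'
  have F1 : Emb p f (A ∪ (MV n R top T' ∪ MV n R top (T \ T')))
      (Ed p A ∪ (EM n p R top T' ∪ EM n p R top (T \ T'))) := by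
    refine Emb.union E0 (Emb.union E1 E2 ?_) ?_
    · rw [V1, V2]; exact d3
    · rw [vs_union, V0, V1, V2, disjoint_union_right]
      exact ⟨d1, d2⟩
  refine ⟨f, hfA, ?_, ?_⟩
  · rw [← hTT, MV_union, EM_union]
    exact F1
  · conv_lhs => rw [← hTT, MV_union, EM_union]
    rw [vs_union, vs_union, V0, V1, V2]

end Pool.Agent.SQ
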