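import Pool.Agent.Helper73.SQ.FIN2
import Pool.Agent.Helper73.SQ.ABT
import Pool.Agent.Helper73.SQ.FE1
import Pool.Agent.Helper73.SQ.FE2
import Pool.Agent.Helper73.SQ.FE4

/-!
# SQ-FIN3: the end of the embedding, after the packing
-/

set_option autoImplicit false

namespace Pool.Agent.SQ

open Finset Pool.Agent.SEM

theorem finish (e D K : ℕ) (he : e ≤ 1) : ∃ C : ℕ, ∀ (n : ℕ) (ρ : ℝ) (p top lab : ℕ → ℕ) (h0 : ℕ)
    (R Sp X A T T' F Pv Sr Sa Sf Ca Vf U : Finset ℕ) (m : ℕ → ℕ) (Qs : Finset (Finset ℕ))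
    (Q : ℕ → Finset ℕ) (xa xf yf f1 : ℕ → ℕ), 0 < n →
    Par n p → TDec n p e D K R Sp X A top → (T = (range n).filter fun τ => τ ∉ R ∧ p τ ∈ R) →
    T' ⊆ T → Emb p lab A (Ed p A) → (∀ a ∈ A, 1 ≤ lab a ∧ 16 * lab a ≤ n) →
    (∀ a ∈ A, lab a % (e + 2) = if X = ∅ ∧ a = h0 then n % 2 else 0) →
    (e = 1 → X.Nonempty) → (∀ x ∈ X, (e = 0 → Even (dg n p x)) ∧ (e = 1 → dg n p x = 1)) →
    (X = ∅ → (∀ v, v < n → Even (dg n p v) → v ∈ A) ∧
      ((∃ v, v < n ∧ Even (dg n p v)) → h0 < n ∧ Even (dg n p h0)) ∧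
      ∀ v ∈ Sp, ∀ w ∈ nb n p v, h0 ∉ Ad p A w) →
    (Q = fun w => (Ad p A w).image lab) →
    Rich n (e + 2) ρ F Qs → (∀ t ∈ F, n < 8 * t ∧ t ≤ 2 * n - 1) → ∅ ∈ Qs →
    (∀ v ∈ Sp, ∀ w ∈ nb n p v, Q w ∈ Qs) → (∀ x ∈ X, Q x ∈ Qs) →
    Sp = Sr ∪ (Sa ∪ Sf) → Disjoint Sr (Sa ∪ Sf) → Disjoint Sa Sf →
    (∀ κ < e + 2, m κ + Sr.card + (if κ = 0 then ∑ v ∈ Sr, gam (nb n p) Q v +
      ∑ x ∈ X, (1 + (Q x).card) else 0) = (F.filter fun t => t % (e + 2) = κ).card) →
    Disjoint Pv F → (∀ t ∈ Pv, n < 8 * t ∧ t ≤ 2 * n - 1) → Lgd n Sa (F ∪ Pv) (nb n p) Q xa →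
    (∀ L' ⊆ F, (∀ κ < e + 2, (L'.filter fun a => a % (e + 2) = κ).card = m κ) →
      ∃ y, Cov (nb n p) xa y Sa (Pv ∪ L')) →
    (Ca = (Sa.biUnion (nb n p)).biUnion (cst Q xa)) → Tot Sf (nb n p) Q xf yf Vf →
    Disjoint Vf (F ∪ Pv ∪ Ca) → (∀ t ∈ Vf, n < 8 * t ∧ t ≤ 2 * n - 1) →
    (U = Icc 1 (2 * n - 1) \ (vs p lab A (Ed p A) ∪ (F ∪ Pv ∪ Ca ∪ Vf))) →
    (MV n R top T).card + (EM n p R top T).card = U.card →
    (∀ r ∈ A, f1 r = lab r) → Emb p f1 (MV n R top T') (EM n p R top T') →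
    vs p f1 (MV n R top T') (EM n p R top T') ⊆ U →
    C * ((MV n R top (T \ T')).card + 1) ≤ Sr.card → (C * (Sr.card + 1) : ℝ) ≤ ρ * n →
    IsSQ n p := by
  classical
  obtain ⟨C1, hC1⟩ := cover_J e D he
  obtain ⟨C2, hC2⟩ := end_fill e D he
  refine ⟨40 + 10 * C1 + 10 * C2 * (1 + C1), ?_⟩
  intro n ρ p top lab h0 R Sp X A T T' F Pv Sr Sa Sf Ca Vf U m Qs Q xa xf yf f1 hn hp h hT hT'
    hlE hlab hres hXe hX2 hX0 hQ hRich hF hQ0 hQs hQX hSp hSr hSaf hm hPvF hPv hLa habs hCa hTf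
    hVf1 hVf2 hU hUc hf1 h1E h1U hN1 hN2
  have hSrS : Sr ⊆ Sp := by rw [hSp]; exact subset_union_left
  have hSaS : Sa ⊆ Sp := by rw [hSp]; exact subset_union_left.trans subset_union_right
  have hSfS : Sf ⊆ Sp := by rw [hSp]; exact subset_union_right.trans subset_union_right
  have hUn : ∀ S ⊆ Sp, Unit n (e + 1) D S (nb n p) Q := by
    intro S hS
    rw [hQ]
    exact unit_of hp h lab hlab S hS
  set VA := vs p lab A (Ed p A) with hVA
  set V1 := vs p f1 (MV n R top T') (EM n p R top T') with hV1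
  have hVA8 : ∀ t ∈ VA, 1 ≤ t ∧ 8 * t ≤ n := by
    intro t ht
    rcases mem_vs.1 ht with ⟨a, ha, rfl⟩ | ⟨i, hi, rfl⟩
    · have := hlab a ha; omega
    · rw [Ed, mem_filter] at hi
      have h1 := hlab i hi.1
      have h2 := hlab _ hi.2.2
      omega
  have hCa8 : ∀ t ∈ Ca, n < 8 * t ∧ t ≤ 2 * n - 1 := by
    intro t ht
    rw [hCa, mem_biUnion] at ht
    obtain ⟨w, hw, ht⟩ := ht
    obtain ⟨v, hv, hw⟩ := mem_biUnion.1 hw
    exact hLa.hi v hv w hw t ht
  have hCaFP : ∀ t ∈ Ca, t ∉ F ∧ t ∉ Pv := by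
    intro t ht
    rw [hCa, mem_biUnion] at ht
    obtain ⟨w, hw, ht⟩ := ht
    obtain ⟨v, hv, hw⟩ := mem_biUnion.1 hw
    have := (Finset.disjoint_left.1 (hLa.av v hv w hw)) ht
    rw [mem_union, not_or] at this
    exact this
  have hPF : ∀ t ∈ Pv, t ∉ F := fun t ht => (Finset.disjoint_left.1 hPvF) ht
  have hVf3 : ∀ t ∈ Vf, t ∉ F ∧ t ∉ Pv ∧ t ∉ Ca := by
    intro t ht
    have := (Finset.disjoint_left.1 hVf1) ht
    rw [mem_union, mem_union, not_or, not_or] at this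
    exact ⟨this.1.1, this.1.2, this.2⟩
  have hUm : ∀ t, t ∈ U ↔ (1 ≤ t ∧ t ≤ 2 * n - 1) ∧ t ∉ VA ∧ t ∉ F ∧ t ∉ Pv ∧ t ∉ Ca ∧ t ∉ Vf := by
    intro t
    rw [hU, mem_sdiff, mem_Icc, mem_union, mem_union, mem_union, mem_union]
    tauto
  -- the leftover pieces
  have hEMl := EM_le (T := T \ T') hp h.dec
  set μ := (MV n R top (T \ T')).card with hμ
  have hμ1 : 40 * (μ + 1) ≤ Sr.card := by
    refine le_trans (Nat.mul_le_mul_right _ ?_) hN1
    omega
  have hρn : (0 : ℝ) ≤ Sr.card := Nat.cast_nonneg _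
  obtain ⟨f2, hf2off, h2E, h2F⟩ := embed_left n p top lab K R A (T \ T') F ρ hp h.dec
    (by rw [← hT]; exact sdiff_subset) h.pc_par h.pc_ex hlab
    (by
      intro j hj j' hj'
      refine (hRich.a ∅ hQ0 0 (by omega) j hj j' hj').trans ?_
      exact_mod_cast card_le_card (by
        intro a ha
        rw [mem_filter] at ha ⊢
        exact ⟨ha.1, ha.2.1, ha.2.2.1, ha.2.2.2.2.2⟩))
    (by
      refine le_trans ?_ hN2
      have h1 : (((EM n p R top (T \ T')).card : ℕ) : ℝ) ≤ 2 * μ := by exact_mod_cast hEMl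
      have h2 : (40 * (μ + 1) : ℝ) ≤ Sr.card := by exact_mod_cast hμ1
      have h3 : (0 : ℝ) ≤ μ := Nat.cast_nonneg _
      have h4 : (40 : ℝ) ≤ ((40 + 10 * C1 + 10 * C2 * (1 + C1) : ℕ) : ℝ) := by
        exact_mod_cast (by omega : 40 ≤ 40 + 10 * C1 + 10 * C2 * (1 + C1))
      nlinarith)
  set V2 := vs p f2 (MV n R top (T \ T')) (EM n p R top (T \ T')) with hV2
  have hV2c : V2.card = μ + (EM n p R top (T \ T')).card := h2E.card
  have hTT : T' ∪ (T \ T') = T := union_sdiff_of_subset hT'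
  have hcM : (MV n R top T).card = (MV n R top T').card + μ := by
    conv_lhs => rw [← hTT, MV_union]
    exact card_union_of_disjoint (MV_disj disjoint_sdiff)
  have hcE : (EM n p R top T).card = (EM n p R top T').card + (EM n p R top (T \ T')).card := by
    conv_lhs => rw [← hTT, EM_union]
    exact card_union_of_disjoint (EM_disj disjoint_sdiff)
  have hV1c : V1.card = (MV n R top T').card + (EM n p R top T').card := h1E.card
  set J := U \ V1 with hJ
  have hJc : J.card = V2.card := by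
    rw [hJ, card_sdiff_of_subset h1U, ← hUc, hcM, hcE, hV1c, hV2c]
    omega
  have hJ3 : J.card ≤ 3 * μ := by
    rw [hJc, hV2c]; omega
  have hFV : F \ (F \ V2) = V2 := by
    rw [Finset.sdiff_sdiff_eq_self h2F]
  have hJm : ∀ t ∈ J, t ∈ U ∧ t ∉ V1 := fun t ht => by rw [hJ, mem_sdiff] at ht; exact ht
  obtain ⟨S1, Lu, x1, y1, hS1, hS1c, hLu, hT1, hLuc⟩ := hC1 n ρ F (F \ V2) J Sr (nb n p) Q Qs hRich hF
    sdiff_subset (hUn Sr hSrS) (fun v hv => hQs v (hSrS hv))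
    (fun t ht => mem_Icc.2 ((hUm t).1 (hJm t ht).1).1)
    (by
      rw [Finset.disjoint_left]
      intro t ht ht'
      exact ((hUm t).1 (hJm t ht).1).2.2.1 ht')
    (by
      intro v hv w hw
      rw [Finset.disjoint_left]
      intro t ht ht'
      rw [hQ] at ht'
      obtain ⟨a, ha, rfl⟩ := mem_image.1 ht'
      rw [Ad, mem_filter] at ha
      exact ((hUm _).1 (hJm _ ht).1).2.1 (mem_vs.2 (Or.inl ⟨a, ha.1, rfl⟩)))
    (by omega)
    (by
      rw [hFV, ← hJc]
      refine le_trans ?_ hN2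
      have h1 : ((J.card : ℕ) : ℝ) ≤ 3 * μ := by exact_mod_cast hJ3
      have h2 : (40 * (μ + 1) : ℝ) ≤ Sr.card := by exact_mod_cast hμ1
      have h3 : (0 : ℝ) ≤ μ := Nat.cast_nonneg _
      have h4 : ((C1 : ℕ) : ℝ) ≤ ((40 + 10 * C1 + 10 * C2 * (1 + C1) : ℕ) : ℝ) := by
        exact_mod_cast (by nlinarith [Nat.zero_le (C2 * (1 + C1))] : C1 ≤ 40 + 10 * C1 + 10 * C2 * (1 + C1))
      have h5 : (0 : ℝ) ≤ C1 := Nat.cast_nonneg _
      refine mul_le_mul h4 (by linarith) (by positivity) (h5.trans h4))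
  have hLuF : Lu ⊆ F := hLu.trans sdiff_subset
  set L := (F \ V2) \ Lu with hL
  have hLF : L ⊆ F := sdiff_subset.trans sdiff_subset
  have hLc : L.card + (J.card + Lu.card) = F.card := by
    have h1 : (F \ V2).card + V2.card = F.card := card_sdiff_add_card_eq_card h2F
    have h2 : L.card + Lu.card = (F \ V2).card := card_sdiff_add_card_eq_card hLu
    omega
  have hFL : (F \ L).card = J.card + Lu.card := by
    have h1 : (F \ L).card + L.card = F.card := card_sdiff_add_card_eq_card hLF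
    omega
  have hJLu : Disjoint J Lu := by
    rw [Finset.disjoint_left]
    intro t ht ht'
    exact ((hUm t).1 (hJm t ht).1).2.2.1 (hLuF ht')
  have hS1Sp : S1 ⊆ Sp := hS1.trans hSrS
  have hSrr : Sr \ S1 ⊆ Sp := sdiff_subset.trans hSrS
  have hT1c : J.card + Lu.card = ∑ v ∈ S1, (e + 1 + 1 + gam (nb n p) Q v) := by
    rw [← card_union_of_disjoint hJLu]
    exact card_tot (hUn S1 hS1Sp) hT1
  have hSrc : (Sr \ S1).card + J.card = Sr.card := by
    have := card_sdiff_add_card_eq_card hS1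
    omega
  have hQc : ∀ w, (Q w).card = (Ad p A w).card := by
    intro w
    rw [hQ]
    refine card_image_of_injOn ?_
    intro a ha b hb hab
    rw [Ad, coe_filter] at ha hb
    exact hlE.lab ha.1 hb.1 hab
  have hXr : ∀ x ∈ X, ∀ q ∈ Q x, q % (e + 2) = 0 ∧ 1 ≤ q := by
    intro x hx q hq
    rw [hQ] at hq
    obtain ⟨a, ha, rfl⟩ := mem_image.1 hq
    rw [Ad, mem_filter] at ha
    refine ⟨?_, (hlab a ha.1).1⟩
    rw [hres a ha.1, if_neg]
    rintro ⟨h', _⟩
    rw [h'] at hx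
    exact absurd hx (notMem_empty _)
  have hSpr : ∀ v ∈ Sp, ∀ w ∈ nb n p v, ∀ q ∈ Q w, q % (e + 2) = 0 := by
    intro v hv w hw q hq
    rw [hQ] at hq
    obtain ⟨a, ha, rfl⟩ := mem_image.1 hq
    have ha' := ha
    rw [Ad, mem_filter] at ha
    rw [hres a ha.1, if_neg]
    rintro ⟨h', rfl⟩
    exact (hX0 h').2.2 v hv w hw ha'
  have hpar : X = ∅ → (L.filter fun t => t % 2 = 1).card % 2 = m 1 % 2 := by
    intro hXemp
    have he0 : e = 0 := by
      rcases Nat.eq_zero_or_pos e with h' | h'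
      · exact h'
      · exfalso
        have := hXe (by omega)
        rw [hXemp] at this
        exact Finset.not_nonempty_empty this
    subst he0
    have hX0' := hX0 hXemp
    subst hXemp
    have hf2A : ∀ r ∈ A, f2 r = lab r := by
      intro r hr
      refine hf2off r fun h' => ?_
      rw [MV, mem_filter] at h'
      exact h'.2.1 (h.AR hr)
    have d1 : Disjoint VA V1 := by
      rw [Finset.disjoint_left]
      intro t ht ht'
      exact ((hUm t).1 (h1U ht')).2.1 ht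
    have d2 : Disjoint VA V2 := by
      rw [Finset.disjoint_left]
      intro t ht ht'
      have h1 := hVA8 t ht
      have h2 := hF t (h2F ht')
      omega
    have d3 : Disjoint V1 V2 := by
      rw [Finset.disjoint_left]
      intro t ht ht'
      exact ((hUm t).1 (h1U ht)).2.2.1 (h2F ht')
    obtain ⟨fB, hfBA, hEB, hVB⟩ := base_emb hp h hT' lab f1 f2 hlE hf1 h1E hf2A h2E d1 d2 d3
    have P0 := par_B hn hp h hT h0 hX0'.1 hX0'.2.1 hX0'.2.2 fB (by
      intro v hv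
      rw [hfBA v hv]
      have := hres v hv
      simpa using this)
    rw [← hEB.sum_vs, hVB] at P0
    change (∑ t ∈ VA ∪ (V1 ∪ V2), t) % 2 = n % 2 at P0
    have s0 : ∑ t ∈ VA ∪ (V1 ∪ V2), t = ∑ t ∈ VA, t + (∑ t ∈ V1, t + ∑ t ∈ V2, t) := by
      rw [sum_union (by rw [disjoint_union_right]; exact ⟨d1, d2⟩), sum_union d3]
    rw [s0] at P0
    have hQe : ∀ S ⊆ Sp, ∀ v ∈ S, ∀ w ∈ nb n p v, Even (Q w).card ∧ ∀ q ∈ Q w, q % 2 = 0 := by
      intro S hS v hv w hw
      refine ⟨?_, hSpr v (hS hv) w hw⟩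
      rw [hQc]
      exact leg_even hp h hX0'.1 v w (hS hv) hw
    have P1 := tot_even (hUn S1 hS1Sp) hT1 (hQe S1 hS1Sp)
    rw [sum_union hJLu] at P1
    have P2 := tot_even (hUn Sf hSfS) hTf (hQe Sf hSfS)
    have P3 := cst_par (hUn Sa hSaS) hLa (hQe Sa hSaS)
    rw [← hCa] at P3
    obtain ⟨L0, hL0F, hL0⟩ := exists_classes 2 F m (fun κ hκ => by
      have := hm κ hκ
      change m κ ≤ (F.filter fun t => t % (0 + 2) = κ).card
      omega)
    obtain ⟨y0, hy0⟩ := habs L0 hL0F hL0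
    have P4 := un_par (hUn Sa hSaS) hLa hy0
    have hPL : Disjoint Pv L0 := by
      rw [Finset.disjoint_left]
      intro t ht ht'
      exact hPF t ht (hL0F ht')
    rw [sum_union hPL] at P4
    have P5 := sum_odd L0
    rw [hL0 1 (by omega)] at P5
    have P6 := sum_Icc_par n hn
    have P7 := sum_odd L
    have hW0 : VA ∪ (F ∪ Pv ∪ Ca ∪ Vf) ⊆ Icc 1 (2 * n - 1) := by
      intro t ht
      rw [mem_Icc]
      rw [mem_union, mem_union, mem_union, mem_union] at ht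
      rcases ht with ht | ((ht | ht) | ht) | ht
      · have := hVA8 t ht; omega
      · have := hF t ht; omega
      · have := hPv t ht; omega
      · have := hCa8 t ht; omega
      · have := hVf2 t ht; omega
    have q1 : ∑ t ∈ U, t + ∑ t ∈ VA ∪ (F ∪ Pv ∪ Ca ∪ Vf), t = ∑ t ∈ Icc 1 (2 * n - 1), t := by
      rw [hU]; exact sum_sdiff hW0
    have q2 : ∑ t ∈ VA ∪ (F ∪ Pv ∪ Ca ∪ Vf), t = ∑ t ∈ VA, t + (∑ t ∈ F, t + ∑ t ∈ Pv, t +
        ∑ t ∈ Ca, t + ∑ t ∈ Vf, t) := by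
      rw [sum_union, sum_union, sum_union, sum_union]
      · rw [Finset.disjoint_left]
        intro t ht ht'
        exact hPF t ht' ht
      · rw [Finset.disjoint_left]
        intro t ht ht'
        have := hCaFP t ht'
        rw [mem_union] at ht
        tauto
      · rw [Finset.disjoint_left]
        intro t ht ht'
        have := hVf3 t ht'
        rw [mem_union, mem_union] at ht
        tauto
      · rw [Finset.disjoint_left]
        intro t ht ht'
        have h1 := hVA8 t ht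
        rw [mem_union, mem_union, mem_union] at ht'
        rcases ht' with ((ht' | ht') | ht') | ht'
        · have := hF t ht'; omega
        · have := hPv t ht'; omega
        · have := hCa8 t ht'; omega
        · have := hVf2 t ht'; omega
    have q3 : ∑ t ∈ J, t + ∑ t ∈ V1, t = ∑ t ∈ U, t := sum_sdiff h1U
    have q4 : ∑ t ∈ F \ V2, t + ∑ t ∈ V2, t = ∑ t ∈ F, t := sum_sdiff h2F
    have q5 : ∑ t ∈ L, t + ∑ t ∈ Lu, t = ∑ t ∈ F \ V2, t := sum_sdiff hLu
    clear hLc hFL hT1c hSrc hJ3 hJc hV2c hcM hcE hV1c hLuc hS1c hN1 hμ1 hEMl hUc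
    rw [q2] at q1
    omega
  have hμS : 3 * μ + 1 ≤ Sr.card := by omega
  have hFLc : (F \ L).card ≤ 3 * μ * (1 + C1) := by
    rw [hFL]
    calc J.card + Lu.card ≤ J.card + C1 * J.card := by omega
      _ = J.card * (1 + C1) := by ring
      _ ≤ 3 * μ * (1 + C1) := Nat.mul_le_mul_right _ hJ3
  obtain ⟨x2, y2, z, T2, L', hT2, hT2L, hXz, hL', hL'c⟩ := hC2 n ρ F L (Sr \ S1) X (nb n p) Q Q Qs m
    hRich hLF (hUn _ hSrr) hQ0 (fun v hv => hQs v (hSrr hv)) (fun v hv => hSpr v (hSrr hv)) h.X_one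
    (fun x hx => ⟨hQX x hx, by rw [hQc]; exact Ad_card h.Arange x (h.X_deg x hx), hXr x hx⟩)
    (fun x hx => ⟨fun h' => by rw [hQc, X_dg hp h x hx]; exact (hX2 x hx).1 h',
      fun h' => by rw [hQc, X_dg hp h x hx]; exact (hX2 x hx).2 h'⟩) hXe hpar
    (by
      refine le_trans ?_ hN2
      have h1 : (((F \ L).card : ℕ) : ℝ) ≤ 3 * μ * (1 + C1) := by exact_mod_cast hFLc
      have h2 : (3 * μ + 1 : ℝ) ≤ Sr.card := by exact_mod_cast hμS
      have h3 : (0 : ℝ) ≤ μ := Nat.cast_nonneg _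
      have h4 : (((Sr \ S1).card : ℕ) : ℝ) ≤ Sr.card := by
        exact_mod_cast card_le_card sdiff_subset
      have h5 : (0 : ℝ) ≤ C1 := Nat.cast_nonneg _
      have h6 : (0 : ℝ) ≤ C2 := Nat.cast_nonneg _
      have h7 : ((F \ L).card + (Sr \ S1).card + 1 : ℝ) ≤ 2 * (1 + C1) * (Sr.card + 1) := by
        nlinarith
      have h8 : (C2 * ((F \ L).card + (Sr \ S1).card + 1) : ℝ) ≤
          C2 * (2 * (1 + C1) * (Sr.card + 1)) := mul_le_mul_of_nonneg_left h7 h6
      refine h8.trans ?_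
      push_cast
      have h9 : (0 : ℝ) ≤ C2 * (1 + C1) * (Sr.card + 1) := by positivity
      nlinarith)
    (by
      have h1 : C2 * ((F \ L).card + 1) ≤ C2 * (3 * μ * (1 + C1) + 1) :=
        Nat.mul_le_mul_left _ (by omega)
      have h2 : C2 * (3 * μ * (1 + C1) + 1) + 3 * μ ≤
          (40 + 10 * C1 + 10 * C2 * (1 + C1)) * (μ + 1) := by
        nlinarith [Nat.zero_le (C2 * (1 + C1) * μ), Nat.zero_le (C2 * C1), Nat.zero_le (C1 * μ)]
      omega)
    (by
      intro κ hκ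
      have h1 := hm κ hκ
      have h2 : ∑ v ∈ Sr \ S1, gam (nb n p) Q v ≤ ∑ v ∈ Sr, gam (nb n p) Q v :=
        sum_le_sum_of_subset sdiff_subset
      have h3 : (Sr \ S1).card ≤ Sr.card := card_le_card sdiff_subset
      by_cases hκ0 : κ = 0
      · rw [if_pos hκ0] at h1 ⊢
        omega
      · rw [if_neg hκ0] at h1 ⊢
        omega)
    (by
      have h1 := card_classes (e + 2) (by omega) F
      have h2 : ∑ κ ∈ range (e + 2), (F.filter fun a => a % (e + 2) = κ).card =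
          ∑ κ ∈ range (e + 2), m κ + (e + 2) * Sr.card + (∑ v ∈ Sr, gam (nb n p) Q v +
            ∑ x ∈ X, (1 + (Q x).card)) := by
        rw [← sum_congr rfl (fun κ hκ => hm κ (mem_range.1 hκ)), sum_add_distrib, sum_add_distrib,
          sum_const, card_range, smul_eq_mul, sum_ite_eq' (range (e + 2)) 0,
          if_pos (mem_range.2 (by omega))]
      have h3 : ∑ v ∈ Sr \ S1, (e + 2 + gam (nb n p) Q v) + ∑ v ∈ S1, (e + 2 + gam (nb n p) Q v) =
          ∑ v ∈ Sr, (e + 2 + gam (nb n p) Q v) := sum_sdiff hS1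
      have h4 : ∑ v ∈ Sr, (e + 2 + gam (nb n p) Q v) = (e + 2) * Sr.card +
          ∑ v ∈ Sr, gam (nb n p) Q v := by
        rw [sum_add_distrib, sum_const, smul_eq_mul, mul_comm]
      have h5 : ∑ v ∈ S1, (e + 1 + 1 + gam (nb n p) Q v) = ∑ v ∈ S1, (e + 2 + gam (nb n p) Q v) :=
        sum_congr rfl fun v _ => by ring
      omega)
  have hL'L : L' ⊆ L := by rw [hL']; exact sdiff_subset
  obtain ⟨ya, hCov⟩ := habs L' (hL'L.trans hLF) hL'c
  have hun : ∀ v ∈ Sa, un (nb n p) xa v (ya v) ⊆ Pv ∪ L' := by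
    intro v hv
    rw [← hCov.2]
    exact subset_biUnion_of_mem (fun v => un (nb n p) xa v (ya v)) hv
  have hTA := tot_of (y := ya) (hUn Sa hSaS) hLa (by
    intro v hv w hw
    obtain ⟨v', hv', hw'⟩ := mem_biUnion.1 hw
    have h1 := Finset.disjoint_left.1 (hLa.av v' hv' w hw')
    rw [Finset.disjoint_left]
    intro t ht ht'
    have h2 := h1 ht'
    rw [mem_union, not_or] at h2
    have h3 := hun v hv ht
    rw [mem_union] at h3
    rcases h3 with h3 | h3
    · exact h2.2 h3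
    · exact h2.1 (hLF (hL'L h3))) hCov.1
  set TA := Sa.biUnion (tot (nb n p) Q xa ya) with hTAd
  have kTA : ∀ t ∈ TA, t ∈ Pv ∨ t ∈ L' ∨ t ∈ Ca := by
    intro t ht
    rw [hTAd, mem_biUnion] at ht
    obtain ⟨v, hv, ht⟩ := ht
    rw [tot, mem_union] at ht
    rcases ht with ht | ht
    · have := hun v hv ht
      rw [mem_union] at this
      rcases this with this | this
      · exact Or.inl this
      · exact Or.inr (Or.inl this)
    · right; right
      rw [hCa]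
      obtain ⟨w, hw, ht⟩ := mem_biUnion.1 ht
      exact mem_biUnion.2 ⟨w, mem_biUnion.2 ⟨v, hv, hw⟩, ht⟩
  set XZ := X.biUnion fun v => insert (z v) ((Q v).image fun q => z v + q) with hXZ
  have kX : ∀ t ∈ XZ, t ∈ L ∧ t ∉ T2 := by
    intro t ht
    rw [hXZ, mem_biUnion] at ht
    obtain ⟨v, hv, ht⟩ := ht
    exact ⟨(hXz v hv).1 ht, (Finset.disjoint_left.1 (hXz v hv).2) ht⟩
  have kL' : ∀ t ∈ L', t ∈ L ∧ t ∉ T2 ∧ t ∉ XZ := by
    intro t ht
    rw [hL', mem_sdiff, mem_union, not_or] at ht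
    exact ht
  have kL : ∀ t ∈ L, t ∈ F ∧ t ∉ V2 ∧ t ∉ Lu := by
    intro t ht
    rw [hL, mem_sdiff, mem_sdiff] at ht
    exact ⟨ht.1.1, ht.1.2, ht.2⟩
  have kLu : ∀ t ∈ Lu, t ∈ F ∧ t ∉ V2 := by
    intro t ht
    have := hLu ht
    rw [mem_sdiff] at this
    exact this
  have hdl : ∀ S ⊆ Sp, ∀ S' ⊆ Sp, Disjoint S S' → ∀ v ∈ S, ∀ v' ∈ S', Disjoint (nb n p v) (nb n p v') := by
    intro S hS S' hS' hd v hv v' hv'
    refine h.leg_dj v (hS hv) v' (hS' hv') ?_
    rintro rfl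
    exact (Finset.disjoint_left.1 hd) hv hv'
  have D1 : Disjoint S1 (Sr \ S1) := disjoint_sdiff
  obtain ⟨xr, yr, hTr⟩ := hT1.union hT2 D1 (hdl _ hS1Sp _ hSrr D1) (by
    rw [Finset.disjoint_left]
    intro t ht ht'
    have h1 := kL t (hT2L ht')
    rw [mem_union] at ht
    rcases ht with ht | ht
    · exact ((hUm t).1 (hJm t ht).1).2.2.1 h1.1
    · exact h1.2.2 ht)
  rw [union_sdiff_of_subset hS1] at hTr
  obtain ⟨xb, yb, hTb⟩ := hTA.union hTf hSaf (hdl _ hSaS _ hSfS hSaf) (by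
    rw [Finset.disjoint_left]
    intro t ht ht'
    have h1 := hVf3 t ht'
    rcases kTA t ht with h2 | h2 | h2
    · exact h1.2.1 h2
    · exact h1.1 (hLF (hL'L h2))
    · exact h1.2.2 h2)
  have hSafS : Sa ∪ Sf ⊆ Sp := union_subset hSaS hSfS
  obtain ⟨x, y, hTot⟩ := hTr.union hTb hSr (hdl _ hSrS _ hSafS hSr) (by
    rw [Finset.disjoint_left]
    intro t ht ht'
    rw [mem_union, mem_union] at ht
    rw [mem_union] at ht'
    have hr : (t ∈ U) ∨ (t ∈ F ∧ t ∉ L') := by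
      rcases ht with (ht | ht) | ht
      · exact Or.inl (hJm t ht).1
      · exact Or.inr ⟨(kLu t ht).1, fun h' => (kL t (kL' t h').1).2.2 ht⟩
      · exact Or.inr ⟨(kL t (hT2L ht)).1, fun h' => (kL' t h').2.1 ht⟩
    have hb : t ∈ L' ∨ t ∈ Pv ∨ t ∈ Ca ∨ t ∈ Vf := by
      rcases ht' with ht' | ht'
      · rcases kTA t ht' with h' | h' | h'
        · exact Or.inr (Or.inl h')
        · exact Or.inl h'
        · exact Or.inr (Or.inr (Or.inl h'))
      · exact Or.inr (Or.inr (Or.inr ht'))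
    rcases hr with hr | hr
    · have h1 := ((hUm t).1 hr).2.2
      rcases hb with hb | hb | hb | hb
      · exact h1.1 (hLF (hL'L hb))
      · exact h1.2.1 hb
      · exact h1.2.2.1 hb
      · exact h1.2.2.2 hb
    · rcases hb with hb | hb | hb | hb
      · exact hr.2 hb
      · exact hPF t hb hr.1
      · exact (hCaFP t hb).1 hr.1
      · exact (hVf3 t hb).1 hr.1)
  rw [← hSp] at hTot
  set TS := J ∪ Lu ∪ T2 ∪ (TA ∪ Vf) with hTS
  have kTS : ∀ t ∈ TS, (t ∈ U ∧ t ∉ V1) ∨ (t ∈ F ∧ t ∉ V2 ∧ t ∉ XZ) ∨ t ∈ Pv ∨ t ∈ Ca ∨ t ∈ Vf := by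
    intro t ht
    rw [hTS, mem_union, mem_union, mem_union, mem_union] at ht
    rcases ht with ((ht | ht) | ht) | ht | ht
    · exact Or.inl (hJm t ht)
    · right; left
      have h1 := kLu t ht
      refine ⟨h1.1, h1.2, fun h' => ?_⟩
      exact (kL t (kX t h').1).2.2 ht
    · right; left
      have h1 := kL t (hT2L ht)
      exact ⟨h1.1, h1.2.1, fun h' => (kX t h').2 ht⟩
    · rcases kTA t ht with h' | h' | h'
      · exact Or.inr (Or.inr (Or.inl h'))
      · right; left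
        have h1 := kL' t h'
        have h2 := kL t h1.1
        exact ⟨h2.1, h2.2.1, h1.2.2⟩
      · exact Or.inr (Or.inr (Or.inr (Or.inl h')))
    · exact Or.inr (Or.inr (Or.inr (Or.inr ht)))
  have kXF : ∀ t ∈ XZ, t ∈ F ∧ t ∉ V2 := fun t ht => by
    have := kL t (kX t ht).1
    exact ⟨this.1, this.2.1⟩
  have hXZ2 : (X.biUnion fun v => insert (z v) (((Ad p A v).image lab).image fun q => z v + q)) = XZ := by
    rw [hXZ, hQ]
  have hTot' : Tot Sp (nb n p) (fun w => (Ad p A w).image lab) x y TS := by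
    rw [← hQ]; exact hTot
  have hf2A : ∀ r ∈ A, f2 r = lab r := by
    intro r hr
    refine hf2off r fun h' => ?_
    rw [MV, mem_filter] at h'
    exact h'.2.1 (h.AR hr)
  have big : ∀ t, n < 8 * t → 1 ≤ t := fun t ht => by omega
  refine assemble hp h hT hT' lab f1 f2 x y z TS hlE (fun a ha => (hlab a ha).1) hf1 h1E hf2A h2E
    hTot' ?_ ?_ ?_ ?_ ?_ ?_ ?_ ?_ ?_ ?_ ?_ ?_ ?_ ?_ ?_
  · rw [Finset.disjoint_left]
    intro t ht ht'
    exact ((hUm t).1 (h1U ht')).2.1 ht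
  · rw [Finset.disjoint_left]
    intro t ht ht'
    have h1 := hVA8 t ht
    have h2 := hF t (h2F ht')
    omega
  · rw [Finset.disjoint_left]
    intro t ht ht'
    exact ((hUm t).1 (h1U ht)).2.2.1 (h2F ht')
  · rw [Finset.disjoint_left]
    intro t ht ht'
    have h1 := hVA8 t ht
    rcases kTS t ht' with h' | h' | h' | h' | h'
    · exact ((hUm t).1 h'.1).2.1 ht
    · have := hF t h'.1; omega
    · have := hPv t h'; omega
    · have := hCa8 t h'; omega
    · have := hVf2 t h'; omega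
  · rw [Finset.disjoint_left]
    intro t ht ht'
    have h1 := ((hUm t).1 (h1U ht)).2.2
    rcases kTS t ht' with h' | h' | h' | h' | h'
    · exact h'.2 ht
    · exact h1.1 h'.1
    · exact h1.2.1 h'
    · exact h1.2.2.1 h'
    · exact h1.2.2.2 h'
  · rw [Finset.disjoint_left]
    intro t ht ht'
    have h1 := h2F ht
    rcases kTS t ht' with h' | h' | h' | h' | h'
    · exact ((hUm t).1 h'.1).2.2.1 h1
    · exact h'.2.1 ht
    · exact hPF t h' h1
    · exact (hCaFP t h').1 h1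
    · exact (hVf3 t h').1 h1
  · rw [hXZ2, Finset.disjoint_left]
    intro t ht ht'
    have h1 := hVA8 t ht
    have h2 := hF t (kXF t ht').1
    omega
  · rw [hXZ2, Finset.disjoint_left]
    intro t ht ht'
    exact ((hUm t).1 (h1U ht)).2.2.1 (kXF t ht').1
  · rw [hXZ2, Finset.disjoint_left]
    intro t ht ht'
    exact (kXF t ht').2 ht
  · rw [hXZ2, Finset.disjoint_left]
    intro t ht ht'
    have h1 := (kXF t ht').1
    rcases kTS t ht with h' | h' | h' | h' | h'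
    · exact ((hUm t).1 h'.1).2.2.1 h1
    · exact h'.2.2 ht'
    · exact hPF t h' h1
    · exact (hCaFP t h').1 h1
    · exact (hVf3 t h').1 h1
  · intro t ht
    have h1 := hVA8 t ht
    rw [mem_Icc]
    omega
  · intro t ht
    rw [mem_Icc]
    exact ((hUm t).1 (h1U ht)).1
  · intro t ht
    have h2 := hF t (h2F ht)
    rw [mem_Icc]
    omega
  · intro t ht
    rw [mem_Icc]
    rcases kTS t ht with h' | h' | h' | h' | h'
    · exact ((hUm t).1 h'.1).1
    · have := hF t h'.1; omega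
    · have := hPv t h'; omega
    · have := hCa8 t h'; omega
    · have := hVf2 t h'; omega
  · rw [hXZ2]
    intro t ht
    have h2 := hF t (kXF t ht).1
    rw [mem_Icc]
    omega

end Pool.Agent.SQ
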