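import Pool.Agent.Helper73.SQ.Defs

/-!
# SQ-FX: labelling the unused units

Proof in words.  Greedy, one unit after the other, `Z` enlarged by everything chosen so far (at most a constant per unit).  For a unit `v`: choose the labels
`x w ∈ (n/4, 3n/8]` of its legs one after the other: the costs `x w`, `x w + q` must be new; then `y ∈ (n/2, 3n/4]` such that `y`, `y + x w` (`w ∈ Lg v`) are
new.  At most `D + 2` values depend (injectively) on each choice.
-/

set_option autoImplicit false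

namespace Pool.Agent.SQ

open Finset Pool.Agent.SEM

/-- greedy choice of translates -/
private theorem greedy22 (m : ℕ) (I Z : Finset ℕ) (O : ℕ → Finset ℕ) (W : Finset ℕ) :
    (∀ w ∈ W, (O w).card ≤ m) → m * (Z.card + m * W.card) < I.card →
    ∃ x : ℕ → ℕ, (∀ w ∈ W, x w ∈ I ∧ ∀ o ∈ O w, x w + o ∉ Z) ∧
      ∀ w ∈ W, ∀ w' ∈ W, w ≠ w' → ∀ o ∈ O w, ∀ o' ∈ O w', x w + o ≠ x w' + o' := by
  induction W using Finset.induction_on with
  | empty =>
    intro _ _
    exact ⟨fun _ => 0, fun w hw => absurd hw (notMem_empty w), fun w hw => absurd hw (notMem_empty w)⟩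
  | insert a W ha ih =>
    intro hO hI
    have hO' : ∀ w ∈ W, (O w).card ≤ m := fun w hw => hO w (mem_insert_of_mem hw)
    rw [card_insert_of_notMem ha] at hI
    have hle : m * (Z.card + m * W.card) ≤ m * (Z.card + m * (W.card + 1)) :=
      Nat.mul_le_mul_left _ (Nat.add_le_add_left (Nat.mul_le_mul_left _ (Nat.le_succ _)) _)
    obtain ⟨x, hx1, hx2⟩ := ih hO' (lt_of_le_of_lt hle hI)
    obtain ⟨U, hU⟩ : ∃ U : Finset ℕ, U = Z ∪ W.biUnion fun w => (O w).image fun o => x w + o := ⟨_, rfl⟩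
    have cU : U.card ≤ Z.card + m * W.card := by
      rw [hU]
      refine (card_union_le _ _).trans (Nat.add_le_add_left ?_ _)
      rw [mul_comm]
      exact card_biUnion_le_card_mul _ _ _ fun w hw => card_image_le.trans (hO' w hw)
    obtain ⟨B, hB⟩ : ∃ B : Finset ℕ, B = (O a).biUnion fun o => U.image fun u => u - o := ⟨_, rfl⟩
    have cB : B.card < I.card := by
      refine lt_of_le_of_lt ?_ (lt_of_le_of_lt hle hI)
      rw [hB]
      refine (card_biUnion_le_card_mul _ _ U.card fun o _ => card_image_le).trans ?_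
      exact Nat.mul_le_mul (hO a (mem_insert_self a W)) cU
    obtain ⟨t, htI, htB⟩ := exists_mem_notMem_of_card_lt_card cB
    have htU : ∀ o ∈ O a, t + o ∉ U := by
      intro o ho hcon
      apply htB
      rw [hB, mem_biUnion]
      exact ⟨o, ho, mem_image.2 ⟨t + o, hcon, Nat.add_sub_cancel t o⟩⟩
    have hne : ∀ w ∈ W, w ≠ a := fun w hw h => ha (h ▸ hw)
    refine ⟨Function.update x a t, ?_, ?_⟩
    · intro w hw
      rcases mem_insert.1 hw with h | h
      · rw [h, Function.update_self]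
        refine ⟨htI, fun o ho hcon => htU o ho ?_⟩
        rw [hU]
        exact mem_union_left _ hcon
      · rw [Function.update_of_ne (hne w h)]
        exact hx1 w h
    · intro w hw w' hw' hww o ho o' ho'
      rcases mem_insert.1 hw with h | h
      · rcases mem_insert.1 hw' with h' | h'
        · exact absurd (h.trans h'.symm) hww
        · rw [h] at ho ⊢
          rw [Function.update_self, Function.update_of_ne (hne w' h')]
          intro hcon
          apply htU o ho
          rw [hcon, hU]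
          exact mem_union_right _ (mem_biUnion.2 ⟨w', h', mem_image.2 ⟨o', ho', rfl⟩⟩)
      · rcases mem_insert.1 hw' with h' | h'
        · rw [h'] at ho' ⊢
          rw [Function.update_self, Function.update_of_ne (hne w h)]
          intro hcon
          apply htU o' ho'
          rw [← hcon, hU]
          exact mem_union_right _ (mem_biUnion.2 ⟨w, h, mem_image.2 ⟨o, ho, rfl⟩⟩)
        · rw [Function.update_of_ne (hne w h), Function.update_of_ne (hne w' h')]
          exact hx2 w h w' h' hww o ho o' ho'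

theorem fixed_units (d D : ℕ) (hd : d = 1 ∨ d = 2) : ∃ C : ℕ, ∀ (n : ℕ) (S Z : Finset ℕ)
    (Lg Q : ℕ → Finset ℕ), C * (Z.card + S.card + 1) ≤ n → Unit n d D S Lg Q →
    ∃ x y : ℕ → ℕ, Lgd n S Z Lg Q x ∧
      (∀ v ∈ S, ∀ t ∈ un Lg x v (y v), t ∉ Z ∧ n < 8 * t ∧ t ≤ 2 * n - 1) ∧
      (∀ v ∈ S, ∀ w ∈ S.biUnion Lg, Disjoint (un Lg x v (y v)) (cst Q x w)) ∧
      (∀ v ∈ S, ∀ v' ∈ S, v ≠ v' → Disjoint (un Lg x v (y v)) (un Lg x v' (y v'))) := by
  refine ⟨16 * ((D + 2) * (2 * (D + 2)) + 9 + 16), fun n S Z Lg Q hn hU => ?_⟩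
  have hd2 : d ≤ 2 := by omega
  have hn16 : 16 * 16 ≤ n := by
    refine le_trans ?_ hn
    have h1 : 16 * 16 ≤ 16 * ((D + 2) * (2 * (D + 2)) + 9 + 16) := Nat.mul_le_mul_left _ (by omega)
    calc 16 * 16 ≤ 16 * ((D + 2) * (2 * (D + 2)) + 9 + 16) := h1
      _ = 16 * ((D + 2) * (2 * (D + 2)) + 9 + 16) * 1 := (Nat.mul_one _).symm
      _ ≤ _ := Nat.mul_le_mul_left _ (by omega)
  obtain ⟨W, hW⟩ : ∃ W : Finset ℕ, W = S.biUnion Lg := ⟨_, rfl⟩
  have cW : W.card ≤ 2 * S.card := by
    rw [hW, mul_comm]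
    exact card_biUnion_le_card_mul _ _ _ fun v hv => (hU.card v hv).le.trans hd2
  have hkey : (D + 2) * (Z.card + (D + 2) * W.card) + 16 * (Z.card + S.card + 1) +
      9 * (Z.card + S.card + 1) ≤ n / 16 := by
    rw [Nat.le_div_iff_mul_le (by norm_num)]
    refine le_trans ?_ hn
    have h1 : (D + 2) * (Z.card + (D + 2) * W.card) ≤ (D + 2) * (2 * (D + 2)) * (Z.card + S.card + 1) := by
      have h2 : Z.card + (D + 2) * W.card ≤ 2 * (D + 2) * (Z.card + S.card + 1) := by
        have h3 : (D + 2) * W.card ≤ (D + 2) * (2 * S.card) := Nat.mul_le_mul_left _ cW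
        nlinarith
      calc (D + 2) * (Z.card + (D + 2) * W.card) ≤ (D + 2) * (2 * (D + 2) * (Z.card + S.card + 1)) :=
            Nat.mul_le_mul_left _ h2
        _ = _ := by ring
    nlinarith
  have hc1 : (D + 2) * (Z.card + (D + 2) * W.card) < (Ioc (n / 4) (3 * n / 8)).card := by
    rw [Nat.card_Ioc]
    omega
  obtain ⟨x, hx1, hx2⟩ := greedy22 (D + 2) (Ioc (n / 4) (3 * n / 8)) Z (fun w => insert 0 (Q w)) W
    (fun w hw => by
      rw [hW, mem_biUnion] at hw
      obtain ⟨v, hv, hwv⟩ := hw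
      refine (card_insert_le _ _).trans ?_
      have := hU.Qc v hv w hwv
      omega) hc1
  have hc2 : 3 * (Z.card + 3 * S.card) < (Ioc (n / 2) (3 * n / 4)).card := by
    rw [Nat.card_Ioc]
    omega
  obtain ⟨y, hy1, hy2⟩ := greedy22 3 (Ioc (n / 2) (3 * n / 4)) Z (fun v => insert 0 ((Lg v).image x)) S
    (fun v hv => by
      refine (card_insert_le _ _).trans ?_
      have h1 : ((Lg v).image x).card ≤ (Lg v).card := card_image_le
      have h2 := hU.card v hv
      omega) hc2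
  have hxI : ∀ w ∈ W, n / 4 < x w ∧ x w ≤ 3 * n / 8 := fun w hw => mem_Ioc.1 (hx1 w hw).1
  have hyI : ∀ v ∈ S, n / 2 < y v ∧ y v ≤ 3 * n / 4 := fun v hv => mem_Ioc.1 (hy1 v hv).1
  have hLW : ∀ v ∈ S, ∀ w ∈ Lg v, w ∈ W := fun v hv w hw => by
    rw [hW, mem_biUnion]
    exact ⟨v, hv, hw⟩
  have hcst : ∀ w, ∀ t ∈ cst Q x w, ∃ q ∈ insert 0 (Q w), t = x w + q := by
    intro w t ht
    unfold cst at ht
    rcases mem_insert.1 ht with h | h
    · exact ⟨0, mem_insert_self _ _, h⟩
    · obtain ⟨q, hq, hqt⟩ := mem_image.1 h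
      exact ⟨q, mem_insert_of_mem hq, hqt.symm⟩
  have hun : ∀ v, ∀ t ∈ un Lg x v (y v), ∃ o ∈ insert 0 ((Lg v).image x), t = y v + o := by
    intro v t ht
    unfold un at ht
    rcases mem_insert.1 ht with h | h
    · exact ⟨0, mem_insert_self _ _, h⟩
    · obtain ⟨w, hw, hwt⟩ := mem_image.1 h
      exact ⟨x w, mem_insert_of_mem (mem_image_of_mem x hw), hwt.symm⟩
  have hcb : ∀ w ∈ W, ∀ t ∈ cst Q x w, n < 8 * t ∧ 16 * t ≤ 7 * n := by
    intro w hw t ht
    obtain ⟨q, hq, rfl⟩ := hcst w t ht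
    have h1 := hxI w hw
    rw [hW, mem_biUnion] at hw
    obtain ⟨v, hv, hwv⟩ := hw
    have h2 : 16 * q ≤ n := by
      rcases mem_insert.1 hq with h | h
      · rw [h]; omega
      · exact (hU.Qs v hv w hwv q h).2
    omega
  have hub : ∀ v ∈ S, ∀ t ∈ un Lg x v (y v), n / 2 < t ∧ t ≤ 3 * n / 4 + 3 * n / 8 := by
    intro v hv t ht
    obtain ⟨o, ho, rfl⟩ := hun v t ht
    have h1 := hyI v hv
    have h2 : o ≤ 3 * n / 8 := by
      rcases mem_insert.1 ho with h | h
      · rw [h]; omega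
      · obtain ⟨w, hw, rfl⟩ := mem_image.1 h
        exact (hxI w (hLW v hv w hw)).2
    omega
  refine ⟨x, y, ⟨?_, ?_, ?_⟩, ?_, ?_, ?_⟩
  · intro v hv w hw t ht
    have := hcb w (hLW v hv w hw) t ht
    omega
  · intro v hv w hw
    rw [disjoint_left]
    intro t ht hZ
    obtain ⟨q, hq, rfl⟩ := hcst w t ht
    exact (hx1 w (hLW v hv w hw)).2 q hq hZ
  · intro w hw w' hw' hne
    rw [← hW] at hw hw'
    rw [disjoint_left]
    intro t ht ht'
    obtain ⟨q, hq, hqt⟩ := hcst w t ht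
    obtain ⟨q', hq', hqt'⟩ := hcst w' t ht'
    exact hx2 w hw w' hw' hne q hq q' hq' (hqt.symm.trans hqt')
  · intro v hv t ht
    have h1 := hub v hv t ht
    obtain ⟨o, ho, rfl⟩ := hun v t ht
    refine ⟨(hy1 v hv).2 o ho, ?_, ?_⟩
    · omega
    · omega
  · intro v hv w hw
    rw [← hW] at hw
    rw [disjoint_left]
    intro t ht ht'
    have h1 := hub v hv t ht
    have h2 := hcb w hw t ht'
    omega
  · intro v hv v' hv' hne
    rw [disjoint_left]
    intro t ht ht'
    obtain ⟨o, ho, hot⟩ := hun v t ht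
    obtain ⟨o', ho', hot'⟩ := hun v' t ht'
    exact hy2 v hv v' hv' hne o ho o' ho' (hot.symm.trans hot')

end Pool.Agent.SQ
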