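import Pool.Agent.Helper73.SQ.Defs

/-!
# SQ-LA: labels of the fixed vertices

Proof in words.  Label the vertices of `A` in increasing order.  When `v` is labelled its only labelled neighbour is its parent (if `p v ∈ A`; children are
larger).  The label `x ∈ [1, h]`, `x ≡ ρ v mod g`, must be different from all labels and sums so far (at most `2 |A|` values) and `x + f (p v)` must be different
from all labels and sums so far (at most `2 |A|` values); `x ≠ x + f (p v)` as labels are positive.  There are at least `h / g - 1 ≥ 4 |A| + 1` numbers in the class.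
-/

set_option autoImplicit false

namespace Pool.Agent.SQ

open Finset Pool.Agent.SEM

private theorem la43_vs_card (p f : ℕ → ℕ) (s : Finset ℕ) :
    (vs p f s (Ed p s)).card ≤ 2 * s.card := by
  unfold vs
  have h1 := Finset.card_union_le (s.image f) ((Ed p s).image fun i => f i + f (p i))
  have h2 : (s.image f).card ≤ s.card := Finset.card_image_le
  have h3 : ((Ed p s).image fun i => f i + f (p i)).card ≤ (Ed p s).card := Finset.card_image_le
  have h4 : (Ed p s).card ≤ s.card := Finset.card_filter_le _ _
  omega

theorem labA (n : ℕ) (p : ℕ → ℕ) (A : Finset ℕ) (g h : ℕ) (ρ : ℕ → ℕ) (hp : Par n p)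
    (hA : A ⊆ range n) (hg : 0 < g) (hρ : ∀ v, ρ v < g) (hh : g * (4 * A.card + 4) ≤ h) :
    ∃ f : ℕ → ℕ, (∀ v ∈ A, f v % g = ρ v ∧ 1 ≤ f v ∧ f v ≤ h) ∧ Emb p f A (Ed p A) := by
  classical
  induction A using Finset.induction_on_max with
  | empty =>
    refine ⟨fun _ => 0, by simp, ⟨by simp, ?_, by simp⟩⟩
    have : Ed p ∅ = ∅ := by simp [Ed]
    rw [this]
    simp
  | insert a s hmax ih =>
    have hsn : s ⊆ range n := fun x hx => hA (mem_insert_of_mem hx)
    have han : a < n := mem_range.1 (hA (mem_insert_self a s))
    have has : a ∉ s := fun h => lt_irrefl a (hmax a h)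
    rw [card_insert_of_notMem has] at hh
    obtain ⟨f, hf, hE⟩ := ih hsn ((Nat.mul_le_mul_left g (by omega)).trans hh)
    set V := vs p f s (Ed p s) with hV
    have hVc : V.card ≤ 2 * s.card := la43_vs_card p f s
    set C := (range (4 * s.card + 3)).image (fun j => ρ a + g * (j + 1)) with hC
    have hCc : C.card = 4 * s.card + 3 := by
      rw [hC, card_image_of_injective, card_range]
      intro j k hjk
      have h1 : g * (j + 1) = g * (k + 1) := by
        have : ρ a + g * (j + 1) = ρ a + g * (k + 1) := hjk
        omega
      have := Nat.eq_of_mul_eq_mul_left hg h1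
      omega
    have hlt : (V ∪ V.image (fun t => t - f (p a))).card < C.card := by
      have h1 := card_union_le V (V.image (fun t => t - f (p a)))
      have h2 : (V.image (fun t => t - f (p a))).card ≤ V.card := card_image_le
      omega
    obtain ⟨x, hxC, hxV⟩ := exists_mem_notMem_of_card_lt_card hlt
    have hx1 : x ∉ V := fun h => hxV (mem_union_left _ h)
    have hx2 : x + f (p a) ∉ V := fun h => hxV (mem_union_right _ (mem_image.2 ⟨_, h, by omega⟩))
    obtain ⟨j, hj, rfl⟩ := mem_image.1 hxC
    rw [mem_range] at hj
    set x : ℕ := ρ a + g * (j + 1) with hx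
    have hVl : ∀ v ∈ s, f v ∈ V := fun v hv => mem_union_left _ (mem_image_of_mem f hv)
    have hVs : ∀ b ∈ Ed p s, f b + f (p b) ∈ V := fun b hb =>
      mem_union_right _ (mem_image.2 ⟨b, hb, rfl⟩)
    have hne : ∀ v ∈ s, v ≠ a := fun v hv h => has (h ▸ hv)
    have hup : ∀ v ∈ s, Function.update f a x v = f v := fun v hv =>
      Function.update_of_ne (hne v hv) _ _
    have hua : Function.update f a x a = x := Function.update_self _ _ _
    have hEd : ∀ b, b ∈ Ed p (insert a s) → b ∈ Ed p s ∨ (b = a ∧ 0 < a ∧ p a ∈ s) := by
      intro b hb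
      unfold Ed at hb
      rw [mem_filter, mem_insert, mem_insert] at hb
      obtain ⟨h1, h2, h3⟩ := hb
      rcases h1 with rfl | h1
      · right
        refine ⟨rfl, h2, ?_⟩
        rcases h3 with h3 | h3
        · have := hp b h2 han
          omega
        · exact h3
      · left
        unfold Ed
        rw [mem_filter]
        refine ⟨h1, h2, ?_⟩
        rcases h3 with h3 | h3
        · have := hp b h2 (mem_range.1 (hsn h1))
          have := hmax b h1
          omega
        · exact h3
    have hEs : ∀ b ∈ Ed p s, b ∈ s ∧ p b ∈ s := by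
      intro b hb
      unfold Ed at hb
      rw [mem_filter] at hb
      exact ⟨hb.1, hb.2.2⟩
    have hsumE : ∀ b ∈ Ed p s, Function.update f a x b + Function.update f a x (p b) = f b + f (p b) := by
      intro b hb
      rw [hup b (hEs b hb).1, hup (p b) (hEs b hb).2]
    have hsuma : p a ∈ s → Function.update f a x a + Function.update f a x (p a) = x + f (p a) := by
      intro h
      rw [hua, hup _ h]
    refine ⟨Function.update f a x, ?_, ?_, ?_, ?_⟩
    · intro v hv
      rcases mem_insert.1 hv with rfl | hv
      · rw [hua]
        refine ⟨?_, ?_, ?_⟩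
        · rw [hx, Nat.add_mul_mod_self_left, Nat.mod_eq_of_lt (hρ v)]
        · rw [hx]
          have : 0 < g * (j + 1) := by positivity
          omega
        · rw [hx]
          have h1 : g * (j + 1) ≤ g * (4 * s.card + 3) := Nat.mul_le_mul_left g (by omega)
          have h2 := hρ v
          have h3 : g * (4 * s.card + 3) + g ≤ g * (4 * (s.card + 1) + 4) := by
            calc g * (4 * s.card + 3) + g = g * (4 * s.card + 4) := by ring
              _ ≤ g * (4 * (s.card + 1) + 4) := Nat.mul_le_mul_left g (by omega)
          omega
      · rw [hup v hv]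
        exact hf v hv
    · intro u hu v hv huv
      rw [mem_coe, mem_insert] at hu hv
      rcases hu with rfl | hu <;> rcases hv with rfl | hv
      · rfl
      · rw [hua, hup v hv] at huv
        exact absurd (hVl v hv) (huv ▸ hx1)
      · rw [hua, hup u hu] at huv
        exact absurd (hVl u hu) (huv.symm ▸ hx1)
      · rw [hup u hu, hup v hv] at huv
        exact hE.lab hu hv huv
    · intro u hu v hv huv
      simp only at huv
      rw [mem_coe] at hu hv
      rcases hEd u hu with hu' | ⟨hu', hu0, hu1⟩ <;> rcases hEd v hv with hv' | ⟨hv', hv0, hv1⟩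
      · rw [hsumE u hu', hsumE v hv'] at huv
        exact hE.sum hu' hv' huv
      · rw [hv', hsumE u hu', hsuma hv1] at huv
        exact absurd (hVs u hu') (huv.symm ▸ hx2)
      · rw [hu', hsumE v hv', hsuma hu1] at huv
        exact absurd (hVs v hv') (huv ▸ hx2)
      · rw [hu', hv']
    · intro u hu b hb
      rcases hEd b hb with hb' | ⟨hb', hb0, hb1⟩
      · rw [hsumE b hb']
        rcases mem_insert.1 hu with hu' | hu'
        · rw [hu', hua]
          exact fun h => hx1 (h ▸ hVs b hb')
        · rw [hup u hu']
          exact hE.ne u hu' b hb'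
      · rw [hb', hsuma hb1]
        rcases mem_insert.1 hu with hu' | hu'
        · rw [hu', hua]
          have := (hf (p a) hb1).2.1
          omega
        · rw [hup u hu']
          exact fun h => hx2 (h ▸ hVl u hu')

end Pool.Agent.SQ
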