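import Pool.Agent.Helper73.SQ.LB
import Pool.Agent.Helper73.SEM.LW6

/-!
# SQ-PW: from random labellings of the pieces to an almost complete packing

Proof in words (adapt SEM.LW6).  `V = ℕ ⊕ ℕ` (piece / value), `VS = T ⊕ U` (at most `3n` elements), `E = {(τ, ω) : τ ∈ T, wt ω ≠ 0, Emb p (Φ ω) (P τ) (P τ ∪ ex τ)}`,
`S_e = {piece τ} ∪ {all labels of P τ and sums of P τ ∪ ex τ}` (size `≤ 2K + 2`), `w e = wt ω`.  Loads: piece `≤ 1`; value `s`:
`∑_τ Pr (us s) ≤ ∑_τ (∑_v Pr (φ v = s) + ∑_i Pr (sum = s)) ≤ 1` (`hload`).  Codegrees (`piece_bounds`): piece/value `C/n`; two values: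
`n * C/n² + (#{τ : lab (p τ) = |s-s'|}) B/n + (#{τ : ∃ r ∈ ex τ, lab r = |s - s'|}) B/n ≤ C/n + δ B + B/n` (`lab` injective on `A`, at most `δ n` tops with the same parent,
`ex` disjoint).  `g e = |P τ| / K ≤ 1`.  `SEM.nibble` with `ε = ε1/(8K)`: matching `M`; `T'` = pieces of `M`; `f` = `lab` off `⋃ P τ`, the chosen labelling
on `P τ`.  The lost mass: `Pr (not Emb) ≤ C/n` per piece.
-/

set_option autoImplicit false

namespace Pool.Agent.SQ

open Finset Pool.Agent.SEM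

/-- good outcomes -/
def good67 {T : Finset ℕ} {L : ℕ → FL} (p : ℕ → ℕ) (P ex : ℕ → Finset ℕ) (e : EE T L) : Prop :=
  (L e.1.1).wt e.2 ≠ 0 ∧ Emb p e.fn (P e.1.1) (P e.1.1 ∪ ex e.1.1)

open Classical in
/-- weights -/
noncomputable def w67 {T : Finset ℕ} {L : ℕ → FL} (p : ℕ → ℕ) (P ex : ℕ → Finset ℕ)
    (e : EE T L) : ℝ := if good67 p P ex e then (L e.1.1).wt e.2 else 0

open Classical in
/-- the vertices of an edge -/
noncomputable def S67 {T : Finset ℕ} {L : ℕ → FL} (p : ℕ → ℕ) (P ex : ℕ → Finset ℕ)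
    (e : EE T L) : Finset (ℕ ⊕ ℕ) :=
  Finset.disjSum {e.1.1} (if good67 p P ex e then vs p e.fn (P e.1.1) (P e.1.1 ∪ ex e.1.1) else ∅)

theorem mem_vs67 {p f : ℕ → ℕ} {P ex : Finset ℕ} {s : ℕ} : s ∈ vs p f P (P ∪ ex) ↔ us p P ex s f := by
  unfold vs us
  rw [mem_union, mem_image, mem_image]

theorem inl_mem67 {T : Finset ℕ} {L : ℕ → FL} {p : ℕ → ℕ} {P ex : ℕ → Finset ℕ} {e : EE T L}
    {τ : ℕ} : (Sum.inl τ : ℕ ⊕ ℕ) ∈ S67 p P ex e ↔ τ = e.1.1 := by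
  unfold S67
  rw [inl_mem_disjSum, mem_singleton]

theorem inr_mem67 {T : Finset ℕ} {L : ℕ → FL} {p : ℕ → ℕ} {P ex : ℕ → Finset ℕ} {e : EE T L}
    {s : ℕ} : (Sum.inr s : ℕ ⊕ ℕ) ∈ S67 p P ex e ↔
      good67 p P ex e ∧ us p (P e.1.1) (ex e.1.1) s e.fn := by
  unfold S67
  rw [inr_mem_disjSum]
  by_cases h : good67 p P ex e
  · rw [if_pos h, mem_vs67]
    exact ⟨fun h1 => ⟨h, h1⟩, fun h1 => h1.2⟩
  · rw [if_neg h]
    simp [h]

theorem w_nonneg67 {T : Finset ℕ} {L : ℕ → FL} {p : ℕ → ℕ} {P ex : ℕ → Finset ℕ}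
    (hnn : ∀ τ ∈ T, ∀ ω, 0 ≤ (L τ).wt ω) (e : EE T L) : 0 ≤ w67 p P ex e := by
  unfold w67
  split_ifs
  · exact hnn _ e.1.2 _
  · exact le_rfl

open Classical in
theorem sum_le67 {T : Finset ℕ} {L : ℕ → FL} {p : ℕ → ℕ} {P ex : ℕ → Finset ℕ}
    (hnn : ∀ τ ∈ T, ∀ ω, 0 ≤ (L τ).wt ω) (q : EE T L → Prop) [DecidablePred q]
    (Q : ℕ → (ℕ → ℕ) → Prop)
    (h : ∀ e : EE T L, good67 p P ex e → q e → Q e.1.1 e.fn) :
    ∑ e with q e, w67 p P ex e ≤ ∑ τ ∈ T, (L τ).Pr (Q τ) := by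
  rw [sum_filter, EE.sum_eq, ← Finset.sum_coe_sort T (fun τ => (L τ).Pr (Q τ))]
  refine sum_le_sum fun τ _ => ?_
  unfold FL.Pr FL.Ex
  refine sum_le_sum fun ω _ => ?_
  have h0 := hnn τ.1 τ.2 ω
  have h1 := h (EE.mk τ ω)
  show _ ≤ (L τ.1).wt ω * (if Q τ.1 ((L τ.1).Φ ω) then (1 : ℝ) else 0)
  by_cases hq : q (EE.mk τ ω)
  · by_cases hg : good67 p P ex (EE.mk τ ω : EE T L)
    · have h2 := h1 hg hq
      have h3 : Q τ.1 ((L τ.1).Φ ω) := h2
      rw [if_pos hq, if_pos h3, mul_one]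
      unfold w67
      rw [if_pos hg]
      exact le_rfl
    · rw [if_pos hq]
      unfold w67
      rw [if_neg hg]
      exact mul_nonneg h0 (by split_ifs <;> norm_num)
  · rw [if_neg hq]
    exact mul_nonneg h0 (by split_ifs <;> norm_num)

theorem sum_le_one67 {T : Finset ℕ} {L : ℕ → FL} {p : ℕ → ℕ} {P ex : ℕ → Finset ℕ}
    (hnn : ∀ τ ∈ T, ∀ ω, 0 ≤ (L τ).wt ω) (q : EE T L → Prop) [DecidablePred q]
    (τ0 : ℕ) (hτ : τ0 ∈ T) (Q : (ℕ → ℕ) → Prop)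
    (h : ∀ e : EE T L, good67 p P ex e → q e → e.1.1 = τ0 ∧ Q e.fn) :
    ∑ e with q e, w67 p P ex e ≤ (L τ0).Pr Q := by
  have h1 := sum_le67 hnn q (fun τ φ => τ = τ0 ∧ Q φ) (p := p) (P := P) (ex := ex) h
  refine h1.trans (le_of_eq ?_)
  rw [Finset.sum_eq_single τ0]
  · exact FL.Pr_congr (by simp)
  · intro b _ hb
    exact FL.Pr_false (by simp [hb])
  · intro h2
    exact absurd hτ h2

theorem pack_extract67 {n : ℕ} {p lab : ℕ → ℕ} {R Y U T : Finset ℕ} {P ex : ℕ → Finset ℕ}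
    {L : ℕ → FL} {B : ℝ} (hG : ∀ τ ∈ T, Geo p R (P τ) (ex τ) τ)
    (hdP : ∀ τ ∈ T, ∀ τ' ∈ T, τ ≠ τ' → Disjoint (P τ) (P τ'))
    (hYU : Y ⊆ U)
    (hL : ∀ τ ∈ T, PLs n p lab Y U (P τ) (ex τ) B (L τ))
    (M : Finset (EE T L)) (hM : ∀ e ∈ M, ∀ f ∈ M, e ≠ f → Disjoint (S67 p P ex e) (S67 p P ex f))
    (g : EE T L → ℝ) (c : ℝ)
    (hg : ∀ e : EE T L, good67 p P ex e → g e ≤ c * (P e.1.1).card)
    (hg0 : ∀ e : EE T L, ¬ good67 p P ex e → g e = 0) :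
    ∃ (T' : Finset ℕ) (f : ℕ → ℕ), T' ⊆ T ∧ (∀ v, v ∉ T.biUnion P → f v = lab v) ∧
        Emb p f (T'.biUnion P) (T'.biUnion fun τ => P τ ∪ ex τ) ∧
        vs p f (T'.biUnion P) (T'.biUnion fun τ => P τ ∪ ex τ) ⊆ U ∧
      ∑ e ∈ M, g e ≤ c * ∑ τ ∈ T', ((P τ).card : ℝ) := by
  classical
  set G : Finset (EE T L) := M.filter (fun e => good67 p P ex e) with hGdef
  have hGM : ∀ e ∈ G, e ∈ M := fun e he => (mem_filter.1 he).1
  have hGg : ∀ e ∈ G, good67 p P ex e := fun e he => (mem_filter.1 he).2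
  have hu1 : ∀ e ∈ G, ∀ e' ∈ G, e.1.1 = e'.1.1 → e = e' := by
    intro e he e' he' h
    by_contra hne
    have h1 := hM e (hGM e he) e' (hGM e' he') hne
    exact Finset.disjoint_left.1 h1 (inl_mem67.2 rfl) (inl_mem67.2 h)
  have hu2 : ∀ e ∈ G, ∀ e' ∈ G, ∀ v, v ∈ P e.1.1 → v ∈ P e'.1.1 → e = e' := by
    intro e he e' he' v hv hv'
    by_contra hne
    have h1 : e.1.1 ≠ e'.1.1 := fun h => hne (hu1 e he e' he' h)
    exact Finset.disjoint_left.1 (hdP _ e.1.2 _ e'.1.2 h1) hv hv'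
  have hRP : ∀ r ∈ R, ∀ τ ∈ T, r ∉ P τ := fun r hr τ hτ hv =>
    Finset.disjoint_left.1 (hG τ hτ).PR hv hr
  set f : ℕ → ℕ := fun v => if h : ∃ e ∈ G, v ∈ P e.1.1 then (Classical.choose h).fn v else lab v
    with hf
  have k1 : ∀ e ∈ G, ∀ v ∈ P e.1.1, f v = e.fn v := by
    intro e he v hv
    have h : ∃ e ∈ G, v ∈ P e.1.1 := ⟨e, he, hv⟩
    have h1 := Classical.choose_spec h
    have h2 : Classical.choose h = e := hu2 _ h1.1 _ he v h1.2 hv
    have h3 : f v = (Classical.choose h).fn v := by rw [hf]; exact dif_pos h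
    rw [h3, h2]
  have k2 : ∀ v, v ∉ T.biUnion P → f v = lab v := by
    intro r hr
    have h : ¬ ∃ e ∈ G, r ∈ P e.1.1 := by
      rintro ⟨e, _, hv⟩
      exact hr (mem_biUnion.2 ⟨e.1.1, e.1.2, hv⟩)
    rw [hf]; exact dif_neg h
  have k2' : ∀ e ∈ G, ∀ r ∈ R, f r = e.fn r := by
    intro e _ r hr
    rw [k2 r (fun h => by
      obtain ⟨τ, hτ, hv⟩ := mem_biUnion.1 h
      exact hRP r hr τ hτ hv)]
    exact ((hL _ e.1.2).off e.2 r (hRP r hr _ e.1.2)).symm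
  have k3 : ∀ e ∈ G, ∀ i ∈ P e.1.1 ∪ ex e.1.1, f i = e.fn i ∧ f (p i) = e.fn (p i) := by
    intro e he i hi
    have hg := hG _ e.1.2
    rcases mem_union.1 hi with h | h
    · refine ⟨k1 e he i h, ?_⟩
      by_cases hit : i = e.1.1
      · rw [hit]; exact k2' e he _ hg.tR
      · exact k1 e he _ (hg.st i h hit)
    · exact ⟨k2' e he i (hg.exR h), k1 e he _ (hg.exP i h).1⟩
  have k4 : ∀ e ∈ G, ∀ e' ∈ G, ∀ s, us p (P e.1.1) (ex e.1.1) s e.fn →
      us p (P e'.1.1) (ex e'.1.1) s e'.fn → e = e' := by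
    intro e he e' he' s h h'
    by_contra hne
    exact Finset.disjoint_left.1 (hM e (hGM e he) e' (hGM e' he') hne)
      (inr_mem67.2 ⟨hGg e he, h⟩) (inr_mem67.2 ⟨hGg e' he', h'⟩)
  have hT' : ∀ τ, τ ∈ G.image (fun e => e.1.1) ↔ ∃ e ∈ G, e.1.1 = τ := fun τ => mem_image
  have hlabm : ∀ v ∈ (G.image (fun e => e.1.1)).biUnion P, ∃ e ∈ G, v ∈ P e.1.1 ∧ f v = e.fn v := by
    intro v hv
    obtain ⟨τ, hτ, hv⟩ := mem_biUnion.1 hv
    obtain ⟨e, he, rfl⟩ := (hT' τ).1 hτ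
    exact ⟨e, he, hv, k1 e he v hv⟩
  have hsumm : ∀ i ∈ (G.image (fun e => e.1.1)).biUnion (fun τ => P τ ∪ ex τ), ∃ e ∈ G,
      i ∈ P e.1.1 ∪ ex e.1.1 ∧ f i + f (p i) = e.fn i + e.fn (p i) := by
    intro i hi
    obtain ⟨τ, hτ, hi⟩ := mem_biUnion.1 hi
    obtain ⟨e, he, rfl⟩ := (hT' τ).1 hτ
    exact ⟨e, he, hi, by rw [(k3 e he i hi).1, (k3 e he i hi).2]⟩
  refine ⟨G.image (fun e => e.1.1), f, ?_, k2, ⟨?_, ?_, ?_⟩, ?_, ?_⟩
  · intro τ hτ
    obtain ⟨e, _, rfl⟩ := (hT' τ).1 hτ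
    exact e.1.2
  · intro v hv v' hv' hvv
    obtain ⟨e, he, hv, h1⟩ := hlabm v (mem_coe.1 hv)
    obtain ⟨e', he', hv', h1'⟩ := hlabm v' (mem_coe.1 hv')
    rw [h1, h1'] at hvv
    have h2 := k4 e he e' he' (e.fn v) (Or.inl ⟨v, hv, rfl⟩) (Or.inl ⟨v', hv', hvv.symm⟩)
    subst h2
    exact (hGg e he).2.lab (mem_coe.2 hv) (mem_coe.2 hv') hvv
  · intro i hi i' hi' hii
    obtain ⟨e, he, hi, h1⟩ := hsumm i (mem_coe.1 hi)
    obtain ⟨e', he', hi', h1'⟩ := hsumm i' (mem_coe.1 hi')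
    have hii' : e.fn i + e.fn (p i) = e'.fn i' + e'.fn (p i') := by
      have := hii
      simp only at this
      rw [h1, h1'] at this
      exact this
    have h2 := k4 e he e' he' _ (Or.inr ⟨i, hi, rfl⟩) (Or.inr ⟨i', hi', hii'.symm⟩)
    subst h2
    exact (hGg e he).2.sum (mem_coe.2 hi) (mem_coe.2 hi') hii'
  · intro v hv i hi hvi
    obtain ⟨e, he, hv, h1⟩ := hlabm v hv
    obtain ⟨e', he', hi, h1'⟩ := hsumm i hi
    rw [h1, h1'] at hvi
    have h2 := k4 e he e' he' (e.fn v) (Or.inl ⟨v, hv, rfl⟩) (Or.inr ⟨i, hi, hvi.symm⟩)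
    subst h2
    exact (hGg e he).2.ne v hv i hi hvi
  · intro s hs
    unfold vs at hs
    rw [mem_union, mem_image, mem_image] at hs
    rcases hs with ⟨v, hv, rfl⟩ | ⟨i, hi, rfl⟩
    · obtain ⟨e, he, hv, h1⟩ := hlabm v hv
      rw [h1]
      exact hYU ((hL _ e.1.2).lbl e.2 (hGg e he).1 v hv)
    · obtain ⟨e, he, hi, h1⟩ := hsumm i hi
      rw [h1]
      exact (hL _ e.1.2).sm e.2 (hGg e he).1 i hi
  · rw [Finset.sum_image (f := fun τ => ((P τ).card : ℝ)) (fun e he e' he' h => hu1 e he e' he' h),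
      mul_sum]
    rw [← sum_filter_add_sum_filter_not M (fun e => good67 p P ex e)]
    have z : ∑ e ∈ M with ¬ good67 p P ex e, g e = 0 :=
      sum_eq_zero fun e he => hg0 e (mem_filter.1 he).2
    rw [z, add_zero]
    exact sum_le_sum fun e he => hg e (mem_filter.1 he).2

open Classical in
theorem pack_mass67 {n : ℕ} {p lab : ℕ → ℕ} {Y U T : Finset ℕ} {P ex : ℕ → Finset ℕ}
    {L : ℕ → FL} {B b c : ℝ} (hc : 0 ≤ c)
    (hL : ∀ τ ∈ T, PLs n p lab Y U (P τ) (ex τ) B (L τ))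
    (hb : ∀ τ ∈ T, (L τ).Pr (fun φ => ¬ Emb p φ (P τ) (P τ ∪ ex τ)) ≤ b) :
    c * ∑ τ ∈ T, ((P τ).card : ℝ) * (1 - b) ≤
      ∑ e : EE T L, w67 p P ex e * (if good67 p P ex e then c * (P e.1.1).card else 0) := by
  rw [EE.sum_eq, mul_sum, ← Finset.sum_coe_sort T (fun τ => c * (((P τ).card : ℝ) * (1 - b)))]
  refine sum_le_sum fun τ _ => ?_
  let _ := (L τ.1).fin
  have h1 : 1 - b ≤ ∑ ω : (L τ.1).Ω, w67 p P ex (EE.mk τ ω : EE T L) := by
    have h2 := hb τ.1 τ.2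
    have h3 := (hL τ.1 τ.2).one
    unfold FL.Pr at h2
    unfold FL.Ex at h2 h3
    have h4 : ∑ ω : (L τ.1).Ω, (L τ.1).wt ω * 1 ≤ ∑ ω : (L τ.1).Ω, (w67 p P ex (EE.mk τ ω : EE T L) +
        (L τ.1).wt ω * (if ¬ Emb p ((L τ.1).Φ ω) (P τ.1) (P τ.1 ∪ ex τ.1) then (1 : ℝ) else 0)) := by
      refine sum_le_sum fun ω _ => ?_
      have h0 := (hL τ.1 τ.2).nn ω
      have h00 := w_nonneg67 (p := p) (P := P) (ex := ex) (fun τ hτ => (hL τ hτ).nn)
        (EE.mk τ ω : EE T L)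
      by_cases hi : Emb p ((L τ.1).Φ ω) (P τ.1) (P τ.1 ∪ ex τ.1)
      · by_cases hw : (L τ.1).wt ω = 0
        · rw [hw]
          linarith
        · have hgd : good67 p P ex (EE.mk τ ω : EE T L) := ⟨hw, hi⟩
          unfold w67
          rw [if_pos hgd, if_neg (not_not.2 hi)]
          show (L τ.1).wt ω * 1 ≤ (L τ.1).wt ω + _
          linarith
      · rw [if_pos hi]
        linarith
    rw [sum_add_distrib] at h4
    have h5 : ∑ ω : (L τ.1).Ω, (L τ.1).wt ω * 1 = 1 := h3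
    have h6 : ∑ ω : (L τ.1).Ω, (L τ.1).wt ω * (if ¬ Emb p ((L τ.1).Φ ω) (P τ.1) (P τ.1 ∪ ex τ.1)
        then (1 : ℝ) else 0) ≤ b := by
      refine le_trans (le_of_eq (sum_congr rfl fun ω _ => ?_)) h2
      by_cases hh : Emb p ((L τ.1).Φ ω) (P τ.1) (P τ.1 ∪ ex τ.1)
      · rw [if_neg (not_not.2 hh)]
        dsimp only
        rw [if_neg (not_not.2 hh)]
      · rw [if_pos hh]
        dsimp only
        rw [if_pos hh]
    linarith
  have h2 : ∑ ω : (L τ.1).Ω, w67 p P ex (EE.mk τ ω : EE T L) *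
      (if good67 p P ex (EE.mk τ ω : EE T L) then c * (P (EE.mk τ ω : EE T L).1.1).card else 0) =
      (c * (P τ.1).card) * ∑ ω : (L τ.1).Ω, w67 p P ex (EE.mk τ ω : EE T L) := by
    rw [mul_sum]
    refine sum_congr rfl fun ω _ => ?_
    by_cases hgd : good67 p P ex (EE.mk τ ω : EE T L)
    · rw [if_pos hgd]
      show _ * (c * ((P τ.1).card : ℝ)) = _
      ring
    · unfold w67
      rw [if_neg hgd, if_neg hgd]
      ring
  refine le_trans ?_ (le_of_eq h2.symm)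
  have h3 : 0 ≤ c * ((P τ.1).card : ℝ) := by positivity
  calc c * (((P τ.1).card : ℝ) * (1 - b)) = (c * (P τ.1).card) * (1 - b) := by ring
    _ ≤ _ := mul_le_mul_of_nonneg_left h1 h3

open Classical in
theorem pack_inst67 {K n : ℕ} {B c δ δN : ℝ} {p lab : ℕ → ℕ} {R A Y U T : Finset ℕ}
    {P ex : ℕ → Finset ℕ} {L : ℕ → FL} (hn : 1 ≤ n) (hB : 1 ≤ B) (hc0 : 0 ≤ c)
    (hcU : c / n + δ * B + B / n ≤ δN)
    (hTn : (T.card : ℝ) ≤ n)
    (hG : ∀ τ ∈ T, Geo p R (P τ) (ex τ) τ) (hPK : ∀ τ ∈ T, (P τ).card ≤ K)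
    (hdE : ∀ τ ∈ T, ∀ τ' ∈ T, τ ≠ τ' → Disjoint (ex τ) (ex τ'))
    (hA : ∀ τ ∈ T, p τ ∈ A ∧ ex τ ⊆ A) (hYU : Y ⊆ U)
    (hlab : Set.InjOn lab A) (hlab1 : ∀ r ∈ A, 1 ≤ lab r)
    (hδ : ∀ r ∈ A, ((T.filter fun τ => p τ = r).card : ℝ) ≤ δ * n)
    (hδ0 : 0 ≤ δ)
    (hL : ∀ τ ∈ T, PLs n p lab Y U (P τ) (ex τ) B (L τ))
    (hload : ∀ s ∈ U, ∑ τ ∈ T, (∑ v ∈ P τ, (L τ).Pr (fun φ => φ v = s) +
        ∑ i ∈ P τ ∪ ex τ, (L τ).Pr (fun φ => φ i + φ (p i) = s)) ≤ 1)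
    (b1 : ∀ τ ∈ T, ∀ s, (L τ).Pr (us p (P τ) (ex τ) s) ≤ c / n)
    (b2 : ∀ τ ∈ T, ∀ s s', s ≠ s' → (L τ).Pr (fun φ => us p (P τ) (ex τ) s φ ∧
      us p (P τ) (ex τ) s' φ) ≤ c / (n : ℝ) ^ 2 +
      (if s' = s + lab (p τ) ∨ s = s' + lab (p τ) then B / n else 0) +
        ∑ r ∈ ex τ, if s' = s + lab r ∨ s = s' + lab r then B / n else 0) :
    Inst (2 * K + 2) δN (T.disjSum U) (fun e : EE T L => S67 p P ex e)
      (fun e => w67 p P ex e) := by
  have hnpos : (0 : ℝ) < n := by exact_mod_cast hn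
  have hnn : ∀ τ ∈ T, ∀ ω, 0 ≤ (L τ).wt ω := fun τ hτ => (hL τ hτ).nn
  have hBn : 0 ≤ B / n := by positivity
  have hcn : c / n ≤ δN := by
    have : 0 ≤ δ * B := by positivity
    linarith
  have hδN : 0 ≤ δN := le_trans (by positivity) hcn
  have hcnn : (T.card : ℝ) * (c / n ^ 2) ≤ c / n := by
    calc (T.card : ℝ) * (c / n ^ 2) ≤ n * (c / n ^ 2) := mul_le_mul_of_nonneg_right hTn (by positivity)
      _ = c / n := by field_simp
  have hsym : ∀ u v : ℕ ⊕ ℕ, ∑ e : EE T L with (u ∈ S67 p P ex e ∧ v ∈ S67 p P ex e), w67 p P ex e =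
      ∑ e : EE T L with (v ∈ S67 p P ex e ∧ u ∈ S67 p P ex e), w67 p P ex e := by
    intro u v
    refine sum_congr ?_ fun _ _ => rfl
    ext e
    simp only [mem_filter, and_comm]
  have cP : ∀ τ ∈ T, ∀ s, ∑ e : EE T L with ((Sum.inl τ : ℕ ⊕ ℕ) ∈ S67 p P ex e ∧
      (Sum.inr s : ℕ ⊕ ℕ) ∈ S67 p P ex e), w67 p P ex e ≤ δN := by
    intro τ hτ s
    refine (sum_le_one67 hnn _ τ hτ (us p (P τ) (ex τ) s) ?_).trans ((b1 τ hτ s).trans hcn)
    intro e _ hq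
    have h1 := inl_mem67.1 hq.1
    have h2 := (inr_mem67.1 hq.2).2
    subst h1
    exact ⟨rfl, h2⟩
  have cV : ∀ s s', s ≠ s' → ∑ e : EE T L with ((Sum.inr s : ℕ ⊕ ℕ) ∈ S67 p P ex e ∧
      (Sum.inr s' : ℕ ⊕ ℕ) ∈ S67 p P ex e), w67 p P ex e ≤ δN := by
    intro s s' hne
    refine (sum_le67 hnn _ (fun τ φ => us p (P τ) (ex τ) s φ ∧ us p (P τ) (ex τ) s' φ) ?_).trans ?_
    · intro e _ hq
      exact ⟨(inr_mem67.1 hq.1).2, (inr_mem67.1 hq.2).2⟩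
    · refine (sum_le_sum fun τ hτ => b2 τ hτ s s' hne).trans ?_
      rw [sum_add_distrib, sum_add_distrib]
      have a1 : ∑ _τ ∈ T, c / (n : ℝ) ^ 2 ≤ c / n := by
        rw [sum_const, nsmul_eq_mul]; exact hcnn
      have huniq : ∀ r ∈ A, ∀ r' ∈ A, (s' = s + lab r ∨ s = s' + lab r) →
          (s' = s + lab r' ∨ s = s' + lab r') → r = r' := by
        intro r hr r' hr' h1 h2
        apply hlab hr hr'
        have := hlab1 r hr
        have := hlab1 r' hr'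
        omega
      have a2 : ∑ τ ∈ T, (if s' = s + lab (p τ) ∨ s = s' + lab (p τ) then B / (n : ℝ) else 0) ≤
          δ * B := by
        rw [← sum_filter, sum_const, nsmul_eq_mul]
        by_cases hex : ∃ τ0 ∈ T, s' = s + lab (p τ0) ∨ s = s' + lab (p τ0)
        · obtain ⟨τ0, hτ0, h0⟩ := hex
          have h1 : (T.filter fun τ => s' = s + lab (p τ) ∨ s = s' + lab (p τ)) ⊆
              T.filter fun τ => p τ = p τ0 := by
            intro τ hτ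
            rw [mem_filter] at hτ ⊢
            exact ⟨hτ.1, huniq _ (hA τ hτ.1).1 _ (hA τ0 hτ0).1 hτ.2 h0⟩
          have h2 : ((T.filter fun τ => s' = s + lab (p τ) ∨ s = s' + lab (p τ)).card : ℝ) ≤ δ * n :=
            le_trans (by exact_mod_cast card_le_card h1) (hδ _ (hA τ0 hτ0).1)
          calc ((T.filter fun τ => s' = s + lab (p τ) ∨ s = s' + lab (p τ)).card : ℝ) * (B / n) ≤
                (δ * n) * (B / n) := mul_le_mul_of_nonneg_right h2 hBn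
            _ = δ * B := by field_simp
        · have : (T.filter fun τ => s' = s + lab (p τ) ∨ s = s' + lab (p τ)) = ∅ := by
            rw [filter_eq_empty_iff]
            intro τ hτ h
            exact hex ⟨τ, hτ, h⟩
          rw [this]
          simp only [card_empty, Nat.cast_zero, zero_mul]
          positivity
      have a3 : ∑ τ ∈ T, ∑ r ∈ ex τ, (if s' = s + lab r ∨ s = s' + lab r then B / (n : ℝ) else 0) ≤
          B / n := by
        rw [sum_sigma' T ex (fun _ r => if s' = s + lab r ∨ s = s' + lab r then B / (n : ℝ) else 0),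
          ← sum_filter, sum_const, nsmul_eq_mul]
        have h1 : ((T.sigma ex).filter fun q => s' = s + lab q.2 ∨ s = s' + lab q.2).card ≤ 1 := by
          rw [card_le_one]
          rintro ⟨τ, r⟩ hq ⟨τ', r'⟩ hq'
          rw [mem_filter, mem_sigma] at hq hq'
          obtain ⟨⟨ha, hb⟩, hc⟩ := hq
          obtain ⟨⟨ha', hb'⟩, hc'⟩ := hq'
          simp only at ha hb hc ha' hb' hc'
          have hr : r = r' := huniq r ((hA τ ha).2 hb) r' ((hA τ' ha').2 hb') hc hc'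
          subst hr
          by_cases hττ : τ = τ'
          · subst hττ; rfl
          · exact absurd hb' (Finset.disjoint_left.1 (hdE τ ha τ' ha' hττ) hb)
        have h2 : (((T.sigma ex).filter fun q => s' = s + lab q.2 ∨ s = s' + lab q.2).card : ℝ) ≤ 1 := by
          exact_mod_cast h1
        calc _ ≤ (1 : ℝ) * (B / n) := mul_le_mul_of_nonneg_right h2 hBn
          _ = B / n := one_mul _
      linarith
  refine ⟨?_, ?_, ?_, ?_, ?_, ?_, ?_⟩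
  · -- sub
    intro e u hu
    rcases u with τ | s
    · rw [inl_mem67] at hu
      rw [inl_mem_disjSum, hu]; exact e.1.2
    · obtain ⟨hg, hs⟩ := inr_mem67.1 hu
      rw [inr_mem_disjSum]
      rcases hs with ⟨v, hv, rfl⟩ | ⟨i, hi, rfl⟩
      · exact hYU ((hL _ e.1.2).lbl e.2 hg.1 v hv)
      · exact (hL _ e.1.2).sm e.2 hg.1 i hi
  · intro e
    exact ⟨Sum.inl e.1.1, inl_mem67.2 rfl⟩
  · -- card
    intro e
    have h1 := hPK _ e.1.2
    have h2 := (hG _ e.1.2).ex1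
    have h3 : (P e.1.1 ∪ ex e.1.1).card ≤ K + 1 := (card_union_le _ _).trans (by omega)
    show (S67 p P ex e).card ≤ _
    unfold S67
    rw [card_disjSum, card_singleton]
    split_ifs
    · unfold vs
      have h4 : ((P e.1.1).image e.fn).card ≤ K := card_image_le.trans h1
      have h5 : ((P e.1.1 ∪ ex e.1.1).image (fun i => e.fn i + e.fn (p i))).card ≤ K + 1 :=
        card_image_le.trans h3
      have h6 := card_union_le ((P e.1.1).image e.fn)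
        ((P e.1.1 ∪ ex e.1.1).image (fun i => e.fn i + e.fn (p i)))
      omega
    · simp only [card_empty]; omega
  · exact fun e => w_nonneg67 hnn e
  · -- single weights
    intro e
    show w67 p P ex e ≤ δN
    by_cases hg : good67 p P ex e
    · have h1 : e ∈ (univ : Finset (EE T L)).filter (fun e' => (Sum.inl e.1.1 : ℕ ⊕ ℕ) ∈ S67 p P ex e' ∧
          (Sum.inr (e.fn e.1.1) : ℕ ⊕ ℕ) ∈ S67 p P ex e') :=
        mem_filter.2 ⟨mem_univ _, inl_mem67.2 rfl,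
          inr_mem67.2 ⟨hg, Or.inl ⟨e.1.1, (hG _ e.1.2).tP, rfl⟩⟩⟩
      have h2 := single_le_sum (f := fun e' : EE T L => w67 p P ex e')
        (fun e' _ => w_nonneg67 hnn e') h1
      exact h2.trans (cP _ e.1.2 _)
    · unfold w67
      rw [if_neg hg]
      exact hδN
  · -- loads
    intro u hu
    rcases u with τ | s
    · rw [inl_mem_disjSum] at hu
      refine (sum_le_one67 hnn _ τ hu (fun _ => True) ?_).trans ?_
      · intro e _ hq
        exact ⟨(inl_mem67.1 hq).symm, trivial⟩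
      · have := (hL τ hu).one
        unfold FL.Pr
        simpa using this.le
    · rw [inr_mem_disjSum] at hu
      refine (sum_le67 hnn _ (fun τ φ => us p (P τ) (ex τ) s φ) ?_).trans
        ((sum_le_sum ?_).trans (hload s hu))
      · intro e _ hq
        exact (inr_mem67.1 hq).2
      · intro τ hτ
        have h1 := FL.Pr_exists_le (hnn τ hτ) (P τ) (fun v φ => φ v = s)
        have h2 := FL.Pr_exists_le (hnn τ hτ) (P τ ∪ ex τ) (fun i φ => φ i + φ (p i) = s)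
        have h3 : (L τ).Pr (fun φ => us p (P τ) (ex τ) s φ) ≤
            (L τ).Pr (fun φ => ∃ v ∈ P τ, φ v = s) +
              (L τ).Pr (fun φ => ∃ i ∈ P τ ∪ ex τ, φ i + φ (p i) = s) := by
          unfold FL.Pr FL.Ex
          rw [← sum_add_distrib]
          refine sum_le_sum fun ω _ => ?_
          rw [← mul_add]
          refine mul_le_mul_of_nonneg_left ?_ (hnn τ hτ ω)
          beta_reduce
          unfold us
          by_cases g1 : ∃ v ∈ P τ, (L τ).Φ ω v = s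
          · rw [if_pos (Or.inl g1), if_pos g1]
            split_ifs <;> norm_num
          · by_cases g2 : ∃ i ∈ P τ ∪ ex τ, (L τ).Φ ω i + (L τ).Φ ω (p i) = s
            · rw [if_pos (Or.inr g2), if_neg g1, if_pos g2]
              norm_num
            · rw [if_neg (not_or.2 ⟨g1, g2⟩), if_neg g1, if_neg g2]
              norm_num
        linarith
  · -- codegrees
    intro u hu v hv huv
    rcases u with τ | s <;> rcases v with τ' | s'
    · have : ((univ : Finset (EE T L)).filter fun e => (Sum.inl τ : ℕ ⊕ ℕ) ∈ S67 p P ex e ∧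
          (Sum.inl τ' : ℕ ⊕ ℕ) ∈ S67 p P ex e) = ∅ := by
        rw [filter_eq_empty_iff]
        rintro e _ ⟨h1, h2⟩
        exact huv (by rw [inl_mem67.1 h1, inl_mem67.1 h2])
      rw [this, sum_empty]; exact hδN
    · exact cP τ (inl_mem_disjSum.1 hu) s'
    · rw [hsym]; exact cP τ' (inl_mem_disjSum.1 hv) s
    · exact cV s s' (fun h => huv (by rw [h]))

theorem pack_laws (K : ℕ) (B ε1 : ℝ) (hK : 1 ≤ K) (hB : 1 ≤ B) (hε : 0 < ε1) :
    ∃ δ : ℝ, 0 < δ ∧ ∃ n0 : ℕ, ∀ (n : ℕ) (p lab : ℕ → ℕ) (R A Y U T : Finset ℕ)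
      (P ex : ℕ → Finset ℕ) (L : ℕ → FL), n0 ≤ n → Y ⊆ U →
      U ⊆ Icc 1 (2 * n - 1) → (∀ τ ∈ T, Geo p R (P τ) (ex τ) τ) → (∀ τ ∈ T, (P τ).card ≤ K) →
      (∀ τ ∈ T, P τ ⊆ range n) →
      (∀ τ ∈ T, ∀ τ' ∈ T, τ ≠ τ' → Disjoint (P τ) (P τ')) →
      (∀ τ ∈ T, ∀ τ' ∈ T, τ ≠ τ' → Disjoint (ex τ) (ex τ')) →
      (∀ τ ∈ T, p τ ∈ A ∧ ex τ ⊆ A) → Set.InjOn lab A → (∀ r ∈ A, 1 ≤ lab r) → A ⊆ R →
      (∀ r ∈ A, ((T.filter fun τ => p τ = r).card : ℝ) ≤ δ * n) →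
      (∀ τ ∈ T, PLs n p lab Y U (P τ) (ex τ) B (L τ)) →
      (∀ s ∈ U, ∑ τ ∈ T, (∑ v ∈ P τ, (L τ).Pr (fun φ => φ v = s) +
        ∑ i ∈ P τ ∪ ex τ, (L τ).Pr (fun φ => φ i + φ (p i) = s)) ≤ 1) →
      ∃ (T' : Finset ℕ) (f : ℕ → ℕ), T' ⊆ T ∧ (∀ v, v ∉ T.biUnion P → f v = lab v) ∧
        Emb p f (T'.biUnion P) (T'.biUnion fun τ => P τ ∪ ex τ) ∧
        vs p f (T'.biUnion P) (T'.biUnion fun τ => P τ ∪ ex τ) ⊆ U ∧
        ((∑ τ ∈ T \ T', (P τ).card : ℕ) : ℝ) ≤ ε1 * n := by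
  classical
  obtain ⟨δN, hδN, hnib⟩ := nibble (2 * K + 2) (ε1 / (8 * K)) (by positivity)
  obtain ⟨c, hcpos, hbound⟩ := piece_bounds K B hB
  have hc0 : 0 ≤ c := hcpos.le
  have hB0 : 0 < B := by linarith
  obtain ⟨n0, hn0⟩ := exists_nat_gt (max (2 * (c + B) / δN) (4 * c / ε1))
  refine ⟨δN / (2 * B), by positivity, max n0 1, ?_⟩
  intro n p lab R A Y U T P ex L hn hYU hU hG hPK hPn hdP hdE hA hlab hlab1 hAR hδ hL hload
  have hn1 : 1 ≤ n := le_trans (le_max_right _ _) hn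
  have hnpos : (0 : ℝ) < n := by exact_mod_cast hn1
  have hn0n : (n0 : ℝ) ≤ n := by exact_mod_cast le_trans (le_max_left _ _) hn
  have e1 : 2 * (c + B) / δN < n := lt_of_lt_of_le (lt_of_le_of_lt (le_max_left _ _) hn0) hn0n
  have e2 : 4 * c / ε1 < n := lt_of_lt_of_le (lt_of_le_of_lt (le_max_right _ _) hn0) hn0n
  rw [div_lt_iff₀ hδN] at e1
  rw [div_lt_iff₀ hε] at e2
  have hTn : T.card ≤ n := by
    have : T ⊆ range n := fun τ hτ => hPn τ hτ (hG τ hτ).tP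
    simpa using card_le_card this
  have hcU : c / n + δN / (2 * B) * B + B / n ≤ δN := by
    have h1 : δN / (2 * B) * B = δN / 2 := by field_simp
    have h2 : c / n + B / n ≤ δN / 2 := by
      rw [← add_div, div_le_iff₀ hnpos]; linarith
    linarith
  have hb := fun τ (hτ : τ ∈ T) => hbound n p lab R Y U (P τ) (ex τ) τ (L τ) hn1 (hYU.trans hU) hU
    (hPK τ hτ) (hG τ hτ) (hL τ hτ) (hlab1 _ (hA τ hτ).1) (fun r hr => hlab1 r ((hA τ hτ).2 hr))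
  have hI := pack_inst67 (K := K) (δN := δN) (c := c) (R := R) (A := A) hn1 hB hc0 hcU
    (by exact_mod_cast hTn) hG hPK hdE hA hYU hlab hlab1 hδ (by positivity) hL hload
    (fun τ hτ => (hb τ hτ).1) (fun τ hτ => (hb τ hτ).2.1)
  have hK0 : (0 : ℝ) < K := by exact_mod_cast hK
  set g : EE T L → ℝ := fun e => if good67 p P ex e then (1 / (K : ℝ)) * (P e.1.1).card else 0 with hg
  have hg01 : ∀ e, 0 ≤ g e ∧ g e ≤ 1 := by
    intro e
    show 0 ≤ (if good67 p P ex e then (1 / (K : ℝ)) * (P e.1.1).card else 0) ∧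
      (if good67 p P ex e then (1 / (K : ℝ)) * (P e.1.1).card else 0) ≤ 1
    split_ifs
    · refine ⟨by positivity, ?_⟩
      have : ((P e.1.1).card : ℝ) ≤ K := by exact_mod_cast hPK _ e.1.2
      rw [one_div, inv_mul_le_iff₀ hK0, mul_one]
      exact this
    · exact ⟨le_rfl, zero_le_one⟩
  obtain ⟨M, hM, hMg⟩ := hnib (EE T L) (ℕ ⊕ ℕ) _ _ _ g hI hg01
  obtain ⟨T', f, h1, h2, h3, h4, h5⟩ := pack_extract67 (c := 1 / (K : ℝ)) hG hdP hYU hL M hM g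
    (fun e he => by rw [hg]; dsimp only; rw [if_pos he]) (fun e he => by rw [hg]; dsimp only; rw [if_neg he])
  refine ⟨T', f, h1, h2, h3, h4, ?_⟩
  have hmass := pack_mass67 (p := p) (lab := lab) (Y := Y) (U := U) (P := P) (ex := ex) (B := B) (n := n)
    (b := c / n) (c := 1 / (K : ℝ)) (by positivity) hL (fun τ hτ => (hb τ hτ).2.2)
  have hVS : ((T.disjSum U).card : ℝ) ≤ 3 * n := by
    rw [card_disjSum]
    have a1 : U.card ≤ 2 * n := by
      have := card_le_card hU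
      rw [Nat.card_Icc] at this
      omega
    push_cast
    have a3 : (U.card : ℝ) ≤ 2 * n := by exact_mod_cast a1
    have a5 : (T.card : ℝ) ≤ n := by exact_mod_cast hTn
    linarith
  have hPsum : ∑ τ ∈ T, ((P τ).card : ℝ) ≤ n := by
    have b1 : (T.biUnion P).card = ∑ τ ∈ T, (P τ).card := card_biUnion fun τ hτ τ' hτ' h => hdP τ hτ τ' hτ' h
    have b2 : (T.biUnion P).card ≤ n := by
      have : T.biUnion P ⊆ range n := biUnion_subset.2 hPn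
      simpa using card_le_card this
    rw [b1] at b2
    exact_mod_cast b2
  have hsplit : ((∑ τ ∈ T \ T', (P τ).card : ℕ) : ℝ) + ∑ τ ∈ T', ((P τ).card : ℝ) = ∑ τ ∈ T, ((P τ).card : ℝ) := by
    push_cast
    exact sum_sdiff h1
  have hε8 : ε1 / (8 * K) * ((T.disjSum U).card : ℝ) ≤ (1 / K) * (3 / 8 * ε1 * n) := by
    calc ε1 / (8 * K) * ((T.disjSum U).card : ℝ) ≤ ε1 / (8 * K) * (3 * n) :=
          mul_le_mul_of_nonneg_left hVS (by positivity)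
      _ = (1 / K) * (3 / 8 * ε1 * n) := by field_simp
  have hm2 : (1 / (K : ℝ)) * (∑ τ ∈ T, ((P τ).card : ℝ) - c) ≤
      1 / (K : ℝ) * ∑ τ ∈ T, ((P τ).card : ℝ) * (1 - c / n) := by
    refine mul_le_mul_of_nonneg_left ?_ (by positivity)
    rw [← sum_mul]
    have : (∑ τ ∈ T, ((P τ).card : ℝ)) * (c / n) ≤ n * (c / n) :=
      mul_le_mul_of_nonneg_right hPsum (by positivity)
    have h' : (n : ℝ) * (c / n) = c := by field_simp
    linarith
  have hfin : (1 / (K : ℝ)) * (∑ τ ∈ T, ((P τ).card : ℝ) - c) - (1 / K) * (3 / 8 * ε1 * n) ≤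
      (1 / (K : ℝ)) * ∑ τ ∈ T', ((P τ).card : ℝ) := by
    have hMg' : ∑ e : EE T L, w67 p P ex e * (if good67 p P ex e then (1 / (K : ℝ)) * (P e.1.1).card else 0) -
        ε1 / (8 * K) * ((T.disjSum U).card : ℝ) ≤ ∑ e ∈ M, g e := hMg
    linarith
  rw [← mul_sub, mul_le_mul_iff_of_pos_left (by positivity)] at hfin
  have : c ≤ 5 / 8 * ε1 * n := by nlinarith
  linarith

end Pool.Agent.SQ
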