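import Pool.Agent.Helper73.SQ.LL3
import Pool.Agent.Helper73.SQ.PW

/-!
# SQ-PK: the packing theorem (almost all pieces are embedded)

Proof in words (adapt SEM.PK).  Combine `laws` and `pack_laws`.  `T` = tops, `P τ = pc n R top τ`, `ex τ = exs p R top τ`, `u = uc n p`, `F τ = Fl ∩ P τ`.
From `Dec`: `Geo p R (P τ) (ex τ) τ`; from `Flx`: `FlP p u e (P τ) (ex τ) (F τ) τ` (children of `v ∈ P τ` outside `R` are in `P τ`: `top_step`).
`MV n R top T = ⋃ P τ = range n \ R`, `EM n p R top T = ⋃ (P τ ∪ ex τ)`, the unions are disjoint.  `∑ |P τ| = n - |R|`,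
`∑ |P τ ∪ ex τ| = n - 1 - |Ed p R| ∈ [n - 1 - |R|, n]`.
-/

set_option autoImplicit false

namespace Pool.Agent.SQ

open Finset Pool.Agent.SEM

section h80aux

variable {n K : ℕ} {p top : ℕ → ℕ} {R : Finset ℕ}

theorem h80_mem_pc {v τ : ℕ} : v ∈ pc n R top τ ↔ v < n ∧ v ∉ R ∧ top v = τ := by
  rw [pc, mem_filter, mem_range]

theorem h80_mem_exs {r τ : ℕ} :
    r ∈ exs p R top τ ↔ r ∈ R ∧ 0 < r ∧ p r ∉ R ∧ top (p r) = τ := by
  rw [exs, mem_filter]

theorem h80_pos (hD : Dec n p K R top) {v : ℕ} (hv : v ∉ R) : 0 < v :=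
  Nat.pos_of_ne_zero fun h => hv (h ▸ hD.zero)

theorem h80_ltR (hD : Dec n p K R top) {r : ℕ} (hr : r ∈ R) : r < n := mem_range.1 (hD.sub hr)

theorem h80_par_pc (hp : Par n p) (hD : Dec n p K R top) {v τ : ℕ} (hv : v ∈ pc n R top τ)
    (h : p v ∉ R) : p v ∈ pc n R top τ := by
  obtain ⟨h1, h2, h3⟩ := h80_mem_pc.1 hv
  have h4 := hp v (h80_pos hD h2) h1
  exact h80_mem_pc.2 ⟨h4.trans h1, h, by rw [← hD.top_step v h1 h2 h, h3]⟩

theorem h80_par_ex (hp : Par n p) (hD : Dec n p K R top) {r τ : ℕ} (hr : r ∈ exs p R top τ) :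
    p r ∈ pc n R top τ := by
  obtain ⟨h1, h2, h3, h4⟩ := h80_mem_exs.1 hr
  have h5 := h80_ltR hD h1
  exact h80_mem_pc.2 ⟨(hp r h2 h5).trans h5, h3, h4⟩

theorem h80_MV (T : Finset ℕ) : MV n R top T = T.biUnion (pc n R top) := by
  ext v
  rw [MV, mem_filter, mem_biUnion, mem_range]
  constructor
  · rintro ⟨h1, h2, h3⟩
    exact ⟨top v, h3, h80_mem_pc.2 ⟨h1, h2, rfl⟩⟩
  · rintro ⟨τ, hτ, h⟩
    obtain ⟨h1, h2, h3⟩ := h80_mem_pc.1 h
    exact ⟨h1, h2, h3 ▸ hτ⟩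

theorem h80_EM (hD : Dec n p K R top) (T : Finset ℕ) :
    EM n p R top T = T.biUnion fun τ => pc n R top τ ∪ exs p R top τ := by
  ext i
  rw [EM, mem_filter, mem_biUnion, mem_range]
  constructor
  · rintro ⟨h1, h2, h3 | h3⟩
    · exact ⟨top i, h3.2, mem_union_left _ (h80_mem_pc.2 ⟨h1, h3.1, rfl⟩)⟩
    · exact ⟨top (p i), h3.2.2, mem_union_right _ (h80_mem_exs.2 ⟨h3.1, h2, h3.2.1, rfl⟩)⟩
  · rintro ⟨τ, hτ, h⟩
    rcases mem_union.1 h with h | h
    · obtain ⟨h1, h2, h3⟩ := h80_mem_pc.1 h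
      exact ⟨h1, h80_pos hD h2, Or.inl ⟨h2, h3 ▸ hτ⟩⟩
    · obtain ⟨h1, h2, h3, h4⟩ := h80_mem_exs.1 h
      exact ⟨h80_ltR hD h1, h2, Or.inr ⟨h1, h3, h4 ▸ hτ⟩⟩

theorem h80_pc_disj {τ τ' : ℕ} (h : τ ≠ τ') : Disjoint (pc n R top τ) (pc n R top τ') := by
  rw [disjoint_left]
  intro v hv hv'
  exact h ((h80_mem_pc.1 hv).2.2.symm.trans (h80_mem_pc.1 hv').2.2)

theorem h80_ex_disj {τ τ' : ℕ} (h : τ ≠ τ') : Disjoint (exs p R top τ) (exs p R top τ') := by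
  rw [disjoint_left]
  intro v hv hv'
  exact h ((h80_mem_exs.1 hv).2.2.2.symm.trans (h80_mem_exs.1 hv').2.2.2)

theorem h80_pc_ex_disj (τ τ' : ℕ) : Disjoint (pc n R top τ) (exs p R top τ') := by
  rw [disjoint_left]
  intro v hv hv'
  exact (h80_mem_pc.1 hv).2.1 (h80_mem_exs.1 hv').1

theorem h80_MV_card (T : Finset ℕ) :
    (MV n R top T).card = ∑ τ ∈ T, (pc n R top τ).card := by
  rw [h80_MV, card_biUnion]
  intro τ _ τ' _ h
  exact h80_pc_disj h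

theorem h80_EM_card (hD : Dec n p K R top) (T : Finset ℕ) :
    (EM n p R top T).card = ∑ τ ∈ T, (pc n R top τ ∪ exs p R top τ).card := by
  rw [h80_EM hD, card_biUnion]
  intro τ _ τ' _ h
  change Disjoint (pc n R top τ ∪ exs p R top τ) (pc n R top τ' ∪ exs p R top τ')
  rw [disjoint_union_left, disjoint_union_right, disjoint_union_right]
  exact ⟨⟨h80_pc_disj h, h80_pc_ex_disj _ _⟩, (h80_pc_ex_disj _ _).symm, h80_ex_disj h⟩

theorem h80_ex1 (hD : Dec n p K R top) (τ : ℕ) : (exs p R top τ).card ≤ 1 := by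
  rw [card_le_one]
  intro a ha b hb
  obtain ⟨h1, h2, h3, h4⟩ := h80_mem_exs.1 ha
  obtain ⟨k1, k2, k3, k4⟩ := h80_mem_exs.1 hb
  exact hD.exit_unique a h1 b k1 h2 k2 h3 k3 (h4.trans k4.symm)

theorem h80_geo (hp : Par n p) (hD : Dec n p K R top) {τ : ℕ} (hτn : τ < n) (hτ : τ ∉ R)
    (hτR : p τ ∈ R) : Geo p R (pc n R top τ) (exs p R top τ) τ where
  tP := h80_mem_pc.2 ⟨hτn, hτ, hD.top_root τ hτn hτ hτR⟩
  tR := hτR
  st v hv hne := by
    refine h80_par_pc hp hD hv fun h => hne ?_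
    obtain ⟨h1, h2, h3⟩ := h80_mem_pc.1 hv
    rw [← hD.top_root v h1 h2 h, h3]
  lt v hv := by
    obtain ⟨h1, h2, h3⟩ := h80_mem_pc.1 hv
    exact hp v (h80_pos hD h2) h1
  PR := by
    rw [disjoint_left]
    intro v hv
    exact (h80_mem_pc.1 hv).2.1
  exR r hr := (h80_mem_exs.1 hr).1
  ex1 := h80_ex1 hD τ
  exP r hr := by
    refine ⟨h80_par_ex hp hD hr, fun h => ?_⟩
    obtain ⟨h1, h2, h3, h4⟩ := h80_mem_exs.1 hr
    have h5 := hD.exit_deep r h1 h2 h3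
    rw [h] at h5
    exact h5 hτR

/-- the top of a vertex outside `R` is a top -/
theorem h80_top_mem (hp : Par n p) (hD : Dec n p K R top) :
    ∀ v, v < n → v ∉ R → top v ∈ (range n).filter (fun τ => τ ∉ R ∧ p τ ∈ R) := by
  intro v
  induction v using Nat.strong_induction_on with
  | _ v ih =>
    intro hv hvR
    by_cases h : p v ∈ R
    · rw [hD.top_root v hv hvR h]
      exact mem_filter.2 ⟨mem_range.2 hv, hvR, h⟩
    · have h4 := hp v (h80_pos hD hvR) hv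
      rw [hD.top_step v hv hvR h]
      exact ih (p v) h4 (h4.trans hv) h

theorem h80_MV_full (hp : Par n p) (hD : Dec n p K R top) :
    MV n R top ((range n).filter (fun τ => τ ∉ R ∧ p τ ∈ R)) = range n \ R := by
  ext v
  rw [MV, mem_filter, mem_sdiff, mem_range]
  exact ⟨fun h => ⟨h.1, h.2.1⟩, fun h => ⟨h.1, h.2, h80_top_mem hp hD v h.1 h.2⟩⟩

theorem h80_uc_eq {v w : ℕ} (h : (chl n p v).card ≤ 1) (hw : w ∈ chl n p v) : uc n p v = w := by
  have h1 : chl n p v = {w} := by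
    refine eq_singleton_iff_unique_mem.2 ⟨hw, fun x hx => ?_⟩
    exact card_le_one.1 h x hx w hw
  rw [uc, h1, sup_singleton]
  rfl

theorem h80_mem_chl {v : ℕ} (h0 : 0 < v) (hv : v < n) : v ∈ chl n p (p v) :=
  mem_filter.2 ⟨mem_range.2 hv, h0, rfl⟩

theorem h80_flp {e : ℕ} {Fl : Finset ℕ} (hD : Dec n p K R top) (he : e ≤ 1)
    (hF : Flx n p e R Fl) {τ : ℕ} (hτR : p τ ∈ R) :
    FlP p (uc n p) e (pc n R top τ) (exs p R top τ) (Fl ∩ pc n R top τ) τ where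
  e1 := he
  sub := inter_subset_right
  top h := hF.pR τ (mem_inter.1 h).1 hτR
  par v hv h := hF.pF v (mem_inter.1 hv).1 (mem_inter.1 h).1
  ch0 he0 v hv h := by
    obtain ⟨h1, h2, h3⟩ := h80_mem_pc.1 hv
    have h4 := hF.ch (p v) (mem_inter.1 h).1
    have h5 := h80_mem_chl (p := p) (h80_pos hD h2) h1
    rw [he0, card_eq_zero] at h4
    rw [h4] at h5
    exact absurd h5 (notMem_empty _)
  ch1 he1 v hv := by
    obtain ⟨hv1, hv2⟩ := mem_inter.1 hv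
    obtain ⟨h1, h2, h3⟩ := h80_mem_pc.1 hv2
    have h4 := hF.ch v hv1
    rw [he1, card_eq_one] at h4
    obtain ⟨w, hw⟩ := h4
    have h5 : w ∈ chl n p v := by rw [hw]; exact mem_singleton_self w
    have h6 : uc n p v = w := h80_uc_eq (by rw [hw, card_singleton]) h5
    rw [h6]
    obtain ⟨h7, h8⟩ := hF.cR v hv1 w h5
    obtain ⟨h9, h10, h11⟩ := mem_filter.1 h5
    refine ⟨h80_mem_pc.2 ⟨mem_range.1 h9, h7, ?_⟩, fun h => h8 (mem_inter.1 h).1, h11⟩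
    rw [hD.top_step w (mem_range.1 h9) h7 (by rw [h11]; exact h2), h11, h3]
  chu v hv h := by
    obtain ⟨h1, h2, h3⟩ := h80_mem_pc.1 hv
    have h4 := hF.ch (p v) (mem_inter.1 h).1
    exact (h80_uc_eq (by rw [h4]; exact he) (h80_mem_chl (h80_pos hD h2) h1)).symm
  exF r hr h := by
    obtain ⟨h1, h2, h3, h4⟩ := h80_mem_exs.1 hr
    have h5 := h80_mem_chl (p := p) h2 (h80_ltR hD h1)
    exact (hF.cR (p r) (mem_inter.1 h).1 r h5).1 h1

end h80aux

theorem pack : ∃ τ0 : ℝ, 0 < τ0 ∧ ∀ (K : ℕ) (ε1 : ℝ), 1 ≤ K → 0 < ε1 → ∃ δ : ℝ, 0 < δ ∧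
    ∃ n0 : ℕ, ∀ (n : ℕ) (p top lab : ℕ → ℕ) (e : ℕ) (R A Fl T U : Finset ℕ), n0 ≤ n →
    Par n p → e ≤ 1 → Dec n p K R top → (∀ v, v < n → ((chl n p v).card : ℝ) ≤ δ * n) →
    T = (range n).filter (fun τ => τ ∉ R ∧ p τ ∈ R) → A ⊆ R →
    (∀ v, v < n → v ∉ R → p v ∈ R → p v ∈ A) → (∀ r ∈ R, 0 < r → p r ∉ R → r ∈ A) →
    Set.InjOn lab A → (∀ r ∈ A, 1 ≤ lab r ∧ (lab r : ℝ) ≤ τ0 * n) →
    U ⊆ Icc 1 (2 * n - 1) → ((Icc 1 (2 * n - 1) \ U).card : ℝ) ≤ τ0 * n →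
    ((R.card : ℝ) ≤ τ0 * n) → ((T.card : ℝ) ≤ τ0 * n) →
    (MV n R top T).card + (EM n p R top T).card = U.card →
    Flx n p e R Fl → (n : ℝ) / 16 ≤ Fl.card →
    ∃ (T' : Finset ℕ) (f : ℕ → ℕ), T' ⊆ T ∧ (∀ r ∈ R, f r = lab r) ∧
      Emb p f (MV n R top T') (EM n p R top T') ∧
      vs p f (MV n R top T') (EM n p R top T') ⊆ U ∧
      ((MV n R top (T \ T')).card : ℝ) ≤ ε1 * n := by
  obtain ⟨τ0, hτ0, B, hB, n1, hlaws⟩ := laws
  refine ⟨τ0, hτ0, fun K ε1 hK hε1 => ?_⟩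
  obtain ⟨δ, hδ, n2, hpack⟩ := pack_laws K B ε1 hK hB hε1
  refine ⟨δ, hδ, max n1 n2, fun n p top lab e R A Fl T U hn hp he hD hdeg hT hAR hpA hrA hinj hlab
    hU hUc hRc hTc hcard hF hFc => ?_⟩
  have hn1 : n1 ≤ n := (le_max_left _ _).trans hn
  have hn2 : n2 ≤ n := (le_max_right _ _).trans hn
  have hTm : ∀ τ ∈ T, τ < n ∧ τ ∉ R ∧ p τ ∈ R := by
    intro τ hτ
    rw [hT] at hτ
    obtain ⟨h1, h2, h3⟩ := mem_filter.1 hτ
    exact ⟨mem_range.1 h1, h2, h3⟩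
  have hGeo : ∀ τ ∈ T, Geo p R (pc n R top τ) (exs p R top τ) τ := by
    intro τ hτ
    obtain ⟨h1, h2, h3⟩ := hTm τ hτ
    exact h80_geo hp hD h1 h2 h3
  have hA : ∀ τ ∈ T, p τ ∈ A ∧ exs p R top τ ⊆ A := by
    intro τ hτ
    obtain ⟨h1, h2, h3⟩ := hTm τ hτ
    refine ⟨hpA τ h1 h2 h3, fun r hr => ?_⟩
    obtain ⟨k1, k2, k3, k4⟩ := h80_mem_exs.1 hr
    exact hrA r k1 k2 k3
  have hMVf : MV n R top T = range n \ R := by rw [hT]; exact h80_MV_full hp hD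
  have hMc : (MV n R top T).card + R.card = n := by
    rw [hMVf, card_sdiff_of_subset hD.sub, card_range]
    have := card_le_card hD.sub
    rw [card_range] at this
    omega
  have hMcR : ((MV n R top T).card : ℝ) + R.card = n := by exact_mod_cast hMc
  have hPsum : ∑ τ ∈ T, ((pc n R top τ).card : ℝ) = ((MV n R top T).card : ℝ) := by
    rw [h80_MV_card]; push_cast; rfl
  have hEsum : ∑ τ ∈ T, ((pc n R top τ ∪ exs p R top τ).card : ℝ) = ((EM n p R top T).card : ℝ) := by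
    rw [h80_EM_card hD]; push_cast; rfl
  have hEn : (EM n p R top T).card ≤ n := by
    have h := card_le_card (filter_subset (fun i => 0 < i ∧
      ((i ∉ R ∧ top i ∈ T) ∨ (i ∈ R ∧ p i ∉ R ∧ top (p i) ∈ T))) (range n))
    rw [card_range] at h
    exact h
  have hME : (MV n R top T).card ≤ (EM n p R top T).card := by
    rw [h80_MV_card, h80_EM_card hD]
    exact sum_le_sum fun τ _ => card_le_card subset_union_left
  have hexs : ∑ τ ∈ T, ((exs p R top τ).card : ℝ) ≤ R.card := by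
    have h1 : (T.biUnion (exs p R top)).card = ∑ τ ∈ T, (exs p R top τ).card := by
      rw [card_biUnion]
      intro τ _ τ' _ h
      exact h80_ex_disj h
    have h2 : (T.biUnion (exs p R top)).card ≤ R.card := by
      refine card_le_card fun r hr => ?_
      obtain ⟨τ, _, h⟩ := mem_biUnion.1 hr
      exact (h80_mem_exs.1 h).1
    rw [h1] at h2
    exact_mod_cast h2
  have hFsum : ∑ τ ∈ T, ((Fl ∩ pc n R top τ).card : ℝ) = (Fl.card : ℝ) := by
    have h1 : T.biUnion (fun τ => Fl ∩ pc n R top τ) = Fl := by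
      ext v
      rw [mem_biUnion]
      constructor
      · rintro ⟨τ, _, h⟩
        exact (mem_inter.1 h).1
      · intro hv
        refine ⟨top v, ?_, mem_inter.2 ⟨hv, h80_mem_pc.2 ⟨hF.lt v hv, hF.nR v hv, rfl⟩⟩⟩
        rw [hT]
        exact h80_top_mem hp hD v (hF.lt v hv) (hF.nR v hv)
    have h2 : (T.biUnion (fun τ => Fl ∩ pc n R top τ)).card =
        ∑ τ ∈ T, (Fl ∩ pc n R top τ).card := by
      rw [card_biUnion]
      intro τ _ τ' _ h
      exact (h80_pc_disj h).mono inter_subset_right inter_subset_right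
    rw [h1] at h2
    rw [h2]
    push_cast
    rfl
  obtain ⟨Y, L, hYU, hL, hload⟩ := hlaws n p lab (uc n p) e R A U T (pc n R top) (exs p R top)
    (fun τ => Fl ∩ pc n R top τ) hn1 he hU hUc hGeo
    (fun τ hτ => h80_flp hD he hF (hTm τ hτ).2.2) hA hlab
    (by rw [hPsum]; linarith) (by rw [hPsum]; have : (0:ℝ) ≤ R.card := Nat.cast_nonneg _; linarith)
    (by
      rw [hEsum]
      have : ((MV n R top T).card : ℝ) ≤ (EM n p R top T).card := by exact_mod_cast hME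
      linarith)
    (by rw [hEsum]; exact_mod_cast hEn)
    (by rw [← h80_MV_card, ← h80_EM_card hD]; exact hcard)
    hTc (hexs.trans hRc) (by rw [hFsum]; exact hFc)
  obtain ⟨T', f, h1, h2, h3, h4, h5⟩ := hpack n p lab R A Y U T (pc n R top) (exs p R top) L hn2
    hYU hU hGeo (fun τ _ => hD.size τ) (fun τ _ => filter_subset _ _)
    (fun τ _ τ' _ h => h80_pc_disj h) (fun τ _ τ' _ h => h80_ex_disj h) hA hinj
    (fun r hr => (hlab r hr).1) hAR
    (fun r hr => by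
      refine le_trans ?_ (hdeg r (h80_ltR hD (hAR hr)))
      have h8 : (T.filter fun τ => p τ = r).card ≤ (chl n p r).card := by
        refine card_le_card fun τ hτ => ?_
        obtain ⟨k1, k2⟩ := mem_filter.1 hτ
        obtain ⟨k3, k4, k5⟩ := hTm τ k1
        exact mem_filter.2 ⟨mem_range.2 k3, h80_pos hD k4, k2⟩
      exact_mod_cast h8)
    hL hload
  refine ⟨T', f, h1, ?_, ?_, ?_, ?_⟩
  · intro r hr
    refine h2 r fun h => ?_
    obtain ⟨τ, _, h⟩ := mem_biUnion.1 h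
    exact (h80_mem_pc.1 h).2.1 hr
  · rw [h80_MV, h80_EM hD]
    exact h3
  · rw [h80_MV, h80_EM hD]
    exact h4
  · rw [h80_MV_card]
    exact h5

end Pool.Agent.SQ
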