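import Pool.Agent.Helper73.SQ.FIN3
import Pool.Agent.Helper73.SQ.PK
import Pool.Agent.Helper73.SQ.FX
import Pool.Agent.Helper73.SQ.LA

/-!
# SQ-FIN4: from the decomposition to the numbering
-/

set_option autoImplicit false

namespace Pool.Agent.SQ

open Finset Pool.Agent.SEM

/-- the conclusion of the packing theorem for the constant `τ0` -/
def Pack (τ0 : ℝ) : Prop := ∀ (K : ℕ) (ε1 : ℝ), 1 ≤ K → 0 < ε1 → ∃ δ : ℝ, 0 < δ ∧
    ∃ n0 : ℕ, ∀ (n : ℕ) (p top lab : ℕ → ℕ) (e : ℕ) (R A Fl T U : Finset ℕ), n0 ≤ n →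
    Par n p → e ≤ 1 → Dec n p K R top → (∀ v, v < n → ((chl n p v).card : ℝ) ≤ δ * n) →
    T = (range n).filter (fun τ => τ ∉ R ∧ p τ ∈ R) → A ⊆ R →
    (∀ v, v < n → v ∉ R → p v ∈ R → p v ∈ A) → (∀ r ∈ R, 0 < r → p r ∉ R → r ∈ A) →
    Set.InjOn lab A → (∀ r ∈ A, 1 ≤ lab r ∧ (lab r : ℝ) ≤ τ0 * n) →
    U ⊆ Icc 1 (2 * n - 1) → ((Icc 1 (2 * n - 1) \ U).card : ℝ) ≤ τ0 * n →
    ((R.card : ℝ) ≤ τ0 * n) → ((T.card : ℝ) ≤ τ0 * n) →
    (MV n R top T).card + (EM n p R top T).card = U.card →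
    Flx n p e R Fl → (n : ℝ) / 16 ≤ Fl.card →
    ∃ (T' : Finset ℕ) (f : ℕ → ℕ), T' ⊆ T ∧ (∀ r ∈ R, f r = lab r) ∧
      Emb p f (MV n R top T') (EM n p R top T') ∧
      vs p f (MV n R top T') (EM n p R top T') ⊆ U ∧
      ((MV n R top (T \ T')).card : ℝ) ≤ ε1 * n

theorem pack' : ∃ τ0 : ℝ, 0 < τ0 ∧ Pack τ0 := pack

theorem card_un {n d D : ℕ} {S Z : Finset ℕ} {Lg Q : ℕ → Finset ℕ} {x : ℕ → ℕ}
    (hU : Unit n d D S Lg Q) (hL : Lgd n S Z Lg Q x) (v y : ℕ) (hv : v ∈ S) :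
    (un Lg x v y).card = d + 1 := by
  have hx : ∀ w ∈ Lg v, 1 ≤ x w := by
    intro w hw
    have := (hL.hi v hv w hw (x w) (mem_insert_self _ _)).1
    omega
  unfold un
  rw [card_insert_of_notMem, card_image_of_injOn, hU.card v hv]
  · intro w hw w' hw' hww
    by_contra hne
    have h1 := hL.dj w (mem_biUnion.2 ⟨v, hv, hw⟩) w' (mem_biUnion.2 ⟨v, hv, hw'⟩) hne
    rw [Finset.disjoint_left] at h1
    refine h1 (a := x w) (mem_insert_self _ _) ?_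
    have : x w = x w' := by simp only at hww; omega
    rw [this]
    exact mem_insert_self _ _
  · intro h
    obtain ⟨w, hw, h'⟩ := mem_image.1 h
    have := hx w hw
    omega

theorem card_cov {n d D : ℕ} {S Z T : Finset ℕ} {Lg Q : ℕ → Finset ℕ} {x y : ℕ → ℕ}
    (hU : Unit n d D S Lg Q) (hL : Lgd n S Z Lg Q x) (hC : Cov Lg x y S T) :
    T.card = S.card * (d + 1) := by
  rw [← hC.2, card_biUnion hC.1, sum_congr rfl (fun v hv => card_un hU hL v (y v) hv), sum_const,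
    smul_eq_mul]

end Pool.Agent.SQ
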