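import Pool.Agent.Helper73.SQ.FIN4

/-!
# SQ-FIN5: choice of the constants
-/

set_option autoImplicit false

namespace Pool.Agent.SQ

open Finset Pool.Agent.SEM

theorem U_card {n : ℕ} {p top : ℕ → ℕ} {e D K : ℕ} {R Sp X A T : Finset ℕ} (hn : 0 < n)
    (hp : Par n p) (h : TDec n p e D K R Sp X A top)
    (hT : T = (range n).filter fun τ => τ ∉ R ∧ p τ ∈ R) (Q : ℕ → Finset ℕ)
    (hQc : ∀ w, (Q w).card = (Ad p A w).card) (Sr Sa Sf : Finset ℕ)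
    (hSp : Sp = Sr ∪ (Sa ∪ Sf)) (hd1 : Disjoint Sr (Sa ∪ Sf)) (hd2 : Disjoint Sa Sf)
    (W : Finset ℕ) (hW : W ⊆ Icc 1 (2 * n - 1))
    (hWc : W.card = (A.card + (Ed p A).card) + (((e + 2) * Sr.card + (∑ v ∈ Sr, gam (nb n p) Q v +
      ∑ x ∈ X, (1 + (Q x).card))) + Sa.card * (e + 1 + 1)) + ∑ v ∈ Sa, gam (nb n p) Q v +
      ∑ v ∈ Sf, (e + 1 + 1 + gam (nb n p) Q v)) :
    (MV n R top T).card + (EM n p R top T).card = (Icc 1 (2 * n - 1) \ W).card := by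
  have h1 := count hn hp h hT
  have h2 : ∀ v, ∑ w ∈ nb n p v, (1 + (Ad p A w).card) = gam (nb n p) Q v := by
    intro v
    unfold gam
    exact sum_congr rfl fun w _ => by rw [hQc]
  have h3 : ∑ x ∈ X, (1 + (Ad p A x).card) = ∑ x ∈ X, (1 + (Q x).card) :=
    sum_congr rfl fun x _ => by rw [hQc]
  simp only [h2] at h1
  rw [h3, hSp, sum_union hd1, sum_union hd2] at h1
  have h4 : ∀ S : Finset ℕ, ∑ v ∈ S, (e + 2 + gam (nb n p) Q v) = S.card * (e + 2) +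
      ∑ v ∈ S, gam (nb n p) Q v := by
    intro S
    rw [sum_add_distrib, sum_const, smul_eq_mul]
  have h5 : ∑ v ∈ Sf, (e + 1 + 1 + gam (nb n p) Q v) = ∑ v ∈ Sf, (e + 2 + gam (nb n p) Q v) :=
    sum_congr rfl fun v _ => by ring
  rw [h5, h4] at hWc
  rw [h4, h4, h4] at h1
  have h6 : (Icc 1 (2 * n - 1)).card = 2 * n - 1 := by simp
  rw [card_sdiff_of_subset hW, h6, hWc]
  have h7 : (e + 2) * Sr.card = Sr.card * (e + 2) := mul_comm _ _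
  have h8 : Sa.card * (e + 1 + 1) = Sa.card * (e + 2) := rfl
  rw [h7, h8]
  omega

/-- numerical facts -/
theorem num1 {M c1 ρ ρ1 φ N : ℝ} (hM : 40 ≤ M) (hc1 : 16 * M ^ 2 * c1 ≤ 1) (hφ : 8 * M ^ 2 * φ = c1)
    (hρ2 : 8 * M ^ 2 * ρ1 ≤ c1) (hρ1 : 0 < ρ1) (hN : 8 * M ≤ ρ1 * N) :
    320 ≤ N ∧ 8 * M ≤ c1 * N ∧ M * (φ * N + 1) ≤ N ∧
      M * (M * (φ * N) + φ * N + M * (c1 * N) + c1 * N + 1) ≤ N ∧
      M * (φ * N) ≤ c1 * N - 1 - ρ1 * N := by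
  have hNpos : 0 < N := by
    by_contra h'
    have : ρ1 * N ≤ 0 := mul_nonpos_of_nonneg_of_nonpos hρ1.le (not_lt.1 h')
    linarith
  have hMM : 1600 ≤ M ^ 2 := by nlinarith
  have hc : ρ1 ≤ c1 := (le_mul_of_one_le_left hρ1.le (by linarith)).trans hρ2
  have hc1' : c1 ≤ 1 :=
    (le_mul_of_one_le_left (hρ1.le.trans hc) (by linarith : (1 : ℝ) ≤ 16 * M ^ 2)).trans hc1
  have h1 : ρ1 * N ≤ c1 * N := mul_le_mul_of_nonneg_right hc hNpos.le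
  have h2 : c1 * N ≤ N := by nlinarith
  have hc1pos : 0 < c1 := hρ1.trans_le hc
  have hφ0 : 0 < φ := by
    by_contra h'
    have : 8 * M ^ 2 * φ ≤ 0 := mul_nonpos_of_nonneg_of_nonpos (by positivity) (not_lt.1 h')
    linarith
  have e1 : 8 * M ^ 2 * (φ * N) = c1 * N := by rw [← hφ]; ring
  have e2 : 8 * M ^ 2 * (ρ1 * N) ≤ c1 * N := by
    calc 8 * M ^ 2 * (ρ1 * N) = (8 * M ^ 2 * ρ1) * N := by ring
      _ ≤ c1 * N := mul_le_mul_of_nonneg_right hρ2 hNpos.le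
  have e3 : 16 * M ^ 2 * (c1 * N) ≤ N := by
    calc 16 * M ^ 2 * (c1 * N) = (16 * M ^ 2 * c1) * N := by ring
      _ ≤ 1 * N := mul_le_mul_of_nonneg_right hc1 hNpos.le
      _ = N := one_mul N
  have p1 : 0 < φ * N := by positivity
  have p2 : 0 < ρ1 * N := by positivity
  have p3 : 0 < c1 * N := by positivity
  have k1 : 8 * M * (M * (φ * N)) = c1 * N := by rw [← e1]; ring
  have k2 : 8 * M ≤ c1 * N := hN.trans h1
  have k3 : 320 * (M * (φ * N)) ≤ c1 * N := by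
    rw [← k1]
    have : 0 ≤ M * (φ * N) := by positivity
    nlinarith
  refine ⟨by linarith, k2, ?_, ?_, ?_⟩
  · nlinarith
  · have k4 : M * (M * (c1 * N)) ≤ N / 16 := by nlinarith
    have k5 : M * (c1 * N) ≤ N / 16 := by nlinarith
    have k6 : M * (M * (φ * N)) ≤ N / 8 := by nlinarith
    have k7 : M * (φ * N) ≤ N / 8 := by nlinarith
    have k8 : M * (M * (φ * N) + φ * N + M * (c1 * N) + c1 * N + 1) = M * (M * (φ * N)) + M * (φ * N) +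
      M * (M * (c1 * N)) + M * (c1 * N) + M := by ring
    rw [k8]
    linarith
  · have k9 : 320 * (ρ1 * N) ≤ c1 * N := by
      have : 320 * (ρ1 * N) ≤ 8 * M ^ 2 * (ρ1 * N) :=
        mul_le_mul_of_nonneg_right (by nlinarith) p2.le
      linarith
    linarith

theorem num2 {M ρ ρ1 N r : ℝ} (hM : 40 ≤ M) (h1 : 8 * M ^ 2 * (ρ1 * N) ≤ ρ * N)
    (hN : 8 * M ≤ ρ1 * N) (hr : r ≤ ρ1 * N) :
    2 * (M * r + M) ≤ ρ * N ∧ M * (r + 1) ≤ ρ * N := by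
  have hMp : 0 < M := by linarith
  have hp : 0 < ρ1 * N := by linarith
  have h5 : M * r ≤ M * (ρ1 * N) := mul_le_mul_of_nonneg_left hr hMp.le
  have h8 : 0 ≤ M * (ρ1 * N) := by positivity
  have h6 : 40 * (M * (ρ1 * N)) ≤ M ^ 2 * (ρ1 * N) := by nlinarith
  have h7 : M ≤ M * (ρ1 * N) := le_mul_of_one_le_right hMp.le (by linarith)
  constructor
  · linarith
  · rw [mul_add, mul_one]
    linarith

theorem num3 {M τ0 τ1 c1 φ N w va ac f pv cv vf sa sf : ℝ} (hM : 40 ≤ M)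
    (a1 : 16 * M ^ 2 * c1 ≤ τ0) (hφ : 8 * M ^ 2 * φ = c1) (hN : 0 < N) (hc1 : 0 < c1)
    (hφp : 0 < φ) (hτ : 1000 * (τ1 * N) ≤ τ0 * N) (hτ1 : 0 < τ1)
    (h1 : w = va + (f + pv + cv + vf)) (h3 : va ≤ 2 * ac) (hac : ac ≤ 20 * τ1 * N)
    (hf : f ≤ φ * N) (hpv : pv ≤ M * (φ * N)) (hcv : cv ≤ M * sa) (h4 : vf ≤ sf * M)
    (hs : sa + sf ≤ c1 * N) : w ≤ τ0 * N := by
  have hMp : 0 < M := by linarith
  have h5 : M * sa + sf * M ≤ M * (c1 * N) := by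
    have := mul_le_mul_of_nonneg_left hs hMp.le
    linarith
  have h6 : 16 * M ^ 2 * (c1 * N) ≤ τ0 * N := by
    have := mul_le_mul_of_nonneg_right a1 hN.le
    linarith
  have h7 : 0 ≤ c1 * N := by positivity
  have h8 : 640 * (M * (c1 * N)) ≤ τ0 * N := by
    have : 0 ≤ M * (c1 * N) := by positivity
    nlinarith
  have h9 : 8 * M ^ 2 * (φ * N) = c1 * N := by rw [← hφ]; ring
  have h10 : 320 * (M * (φ * N)) ≤ c1 * N := by
    have : 0 ≤ M * (φ * N) := by positivity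
    nlinarith
  have h12 : 0 ≤ φ * N := by positivity
  have h11 : φ * N ≤ M * (φ * N) := by nlinarith
  have h13 : 0 < τ1 * N := by positivity
  have h14 : c1 * N ≤ M * (c1 * N) := le_mul_of_one_le_left h7 (by linarith)
  have h15 : 0 ≤ M * (c1 * N) := by positivity
  rw [h1]
  linarith

theorem num4 {M ε1 ρ1 N μ : ℝ} (hM : 40 ≤ M) (hμ : μ ≤ ε1 * N) (hε : 4 * M * ε1 = ρ1)
    (hN : 8 * M ≤ ρ1 * N) : M * (μ + 1) ≤ ρ1 * N := by
  have hMp : 0 < M := by linarith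
  have h2 : M * μ ≤ M * (ε1 * N) := mul_le_mul_of_nonneg_left hμ hMp.le
  have h3 : 4 * (M * (ε1 * N)) = ρ1 * N := by rw [← hε]; ring
  linarith

theorem num5 {M φ c1 N z pv f sa sf cv : ℝ} (hM : 40 ≤ M)
    (u4 : M * (M * (φ * N) + φ * N + M * (c1 * N) + c1 * N + 1) ≤ N)
    (hz : z ≤ f + pv + cv) (hf : f ≤ φ * N) (hpv : pv ≤ M * (φ * N)) (hcv : cv ≤ M * sa)
    (hsa : 0 ≤ sa) (hsf : 0 ≤ sf) (hs : sa + sf ≤ c1 * N) : M * (z + sf + 1) ≤ N := by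
  have hMp : 0 < M := by linarith
  refine le_trans (mul_le_mul_of_nonneg_left ?_ hMp.le) u4
  have h2 : M * sa ≤ M * (c1 * N) := mul_le_mul_of_nonneg_left (by linarith) hMp.le
  linarith

end Pool.Agent.SQ
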