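import Pool.Agent.Helper73.SQ.FIN5

/-!
# SQ-FIN6: the core theorem
-/

set_option autoImplicit false

namespace Pool.Agent.SQ

open Finset Pool.Agent.SEM

theorem core (τ0 τ1 : ℝ) (hτ0 : 0 < τ0) (hτ1 : 0 < τ1) (hτ2 : 1000 * τ1 ≤ τ0)
    (hτ3 : 20000 * τ1 ≤ 1) (hP : Pack τ0) (e D K : ℕ) (he : e ≤ 1) (hK : 2 ≤ K) :
    ∃ c0 : ℝ, 0 < c0 ∧ ∀ c1 : ℝ, 0 < c1 → c1 ≤ c0 → ∃ δ : ℝ, 0 < δ ∧ ∃ n₀ : ℕ,
      ∀ (n : ℕ) (p top : ℕ → ℕ) (h0 : ℕ) (R Sp X A Fl : Finset ℕ), n₀ ≤ n → Par n p →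
      (∀ v, v < n → ((chl n p v).card : ℝ) ≤ δ * n) →
      TDec n p e D K R Sp X A top → Sp.card = ⌊c1 * n⌋₊ → (R.card : ℝ) ≤ 20 * τ1 * n →
      (((range n).filter fun v => v ∉ R ∧ p v ∈ R).card : ℝ) ≤ 20 * τ1 * n →
      Flx n p e R Fl → (n : ℝ) / 16 ≤ Fl.card → (e = 1 → X.Nonempty) →
      (∀ x ∈ X, (e = 0 → Even (dg n p x)) ∧ (e = 1 → dg n p x = 1)) →
      (X = ∅ → (∀ v, v < n → Even (dg n p v) → v ∈ A) ∧
          ((∃ v, v < n ∧ Even (dg n p v)) → h0 < n ∧ Even (dg n p h0)) ∧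
          ∀ v ∈ Sp, ∀ w ∈ nb n p v, h0 ∉ Ad p A w) → IsSQ n p := by
  classical
  have hd : e + 1 = 1 ∨ e + 1 = 2 := by omega
  have hg : e + 2 = 2 ∨ e + 2 = 3 := by omega
  obtain ⟨Ca, hCa⟩ := abs_classes (e + 1) D hd
  obtain ⟨Cf, hCf⟩ := fixed_units (e + 1) D hd
  obtain ⟨Cn, hCn⟩ := finish e D K he
  set M : ℕ := Ca + Cf + Cn + 2 * D + 40 with hM
  have hM1 : (40 : ℝ) ≤ M := by
    have : 40 ≤ M := by omega
    exact_mod_cast this
  have hMCa : (Ca : ℝ) ≤ M := by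
    have : Ca ≤ M := by omega
    exact_mod_cast this
  have hMCf : (Cf : ℝ) ≤ M := by
    have : Cf ≤ M := by omega
    exact_mod_cast this
  have hMCn : (Cn : ℝ) ≤ M := by
    have : Cn ≤ M := by omega
    exact_mod_cast this
  have hMp : (0 : ℝ) < M := by linarith
  refine ⟨min τ0 1 / (16 * M ^ 2), by positivity, ?_⟩
  intro c1 hc1 hc1'
  rw [le_div_iff₀ (by positivity), mul_comm] at hc1'
  have a1 : 16 * (M : ℝ) ^ 2 * c1 ≤ τ0 := hc1'.trans (min_le_left _ _)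
  have a2 : 16 * (M : ℝ) ^ 2 * c1 ≤ 1 := hc1'.trans (min_le_right _ _)
  obtain ⟨φ, hφ, hφ'⟩ : ∃ φ : ℝ, 0 < φ ∧ 8 * (M : ℝ) ^ 2 * φ = c1 :=
    ⟨c1 / (8 * (M : ℝ) ^ 2), by positivity, by field_simp⟩
  obtain ⟨ρ, hρ, n1, hres⟩ := reservoir D (e + 2) hg φ hφ
  obtain ⟨ρ1, hρ1, hρ1'⟩ : ∃ ρ1 : ℝ, 0 < ρ1 ∧ 8 * (M : ℝ) ^ 2 * ρ1 = min ρ c1 :=
    ⟨min ρ c1 / (8 * (M : ℝ) ^ 2), by positivity, by field_simp⟩
  have b1 : 8 * (M : ℝ) ^ 2 * ρ1 ≤ ρ := hρ1'.le.trans (min_le_left _ _)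
  have b2 : 8 * (M : ℝ) ^ 2 * ρ1 ≤ c1 := hρ1'.le.trans (min_le_right _ _)
  obtain ⟨ε1, hε1, hε1'⟩ : ∃ ε1 : ℝ, 0 < ε1 ∧ 4 * (M : ℝ) * ε1 = ρ1 :=
    ⟨ρ1 / (4 * (M : ℝ)), by positivity, by field_simp⟩
  obtain ⟨δ, hδ, n2, hpk⟩ := hP K ε1 (by omega) hε1
  refine ⟨δ, hδ, max n1 (max n2 ⌈8 * (M : ℝ) / ρ1⌉₊), ?_⟩
  intro n p top h0 R Sp X A Fl hn hp hdeg h hSpc hRc hTc hFlx hFlc hXe hX2 hX0
  have hnn1 : n1 ≤ n := (le_max_left _ _).trans hn
  have hnn2 : n2 ≤ n := (le_max_left _ _).trans ((le_max_right _ _).trans hn)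
  have hN : 8 * (M : ℝ) ≤ ρ1 * n := by
    have h1 : ⌈8 * (M : ℝ) / ρ1⌉₊ ≤ n := (le_max_right _ _).trans ((le_max_right _ _).trans hn)
    have h2 : 8 * (M : ℝ) / ρ1 ≤ n := (Nat.le_ceil _).trans (by exact_mod_cast h1)
    rw [div_le_iff₀ hρ1] at h2
    linarith
  obtain ⟨u1, u2, u3, u4, u5⟩ := num1 (N := (n : ℝ)) (ρ := ρ) hM1 a2 hφ' b2 hρ1 hN
  have hn0 : 0 < n := by
    have : (0 : ℝ) < n := by linarith
    exact_mod_cast this
  have hnR : (0 : ℝ) < n := by exact_mod_cast hn0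
  -- labels of `A`
  obtain ⟨lab, hlab0, hlE⟩ := labA n p A (e + 2) ((e + 2) * (4 * A.card + 4))
    (fun v => if X = ∅ ∧ v = h0 then n % 2 else 0) hp h.Arange (by omega)
    (by intro v; split_ifs <;> omega) le_rfl
  have hAc : (A.card : ℝ) ≤ 20 * τ1 * n :=
    le_trans (by exact_mod_cast card_le_card h.AR) hRc
  have hhR : (((e + 2) * (4 * A.card + 4) : ℕ) : ℝ) ≤ 240 * τ1 * n + 12 := by
    have h1 : (e + 2) * (4 * A.card + 4) ≤ 3 * (4 * A.card + 4) := Nat.mul_le_mul_right _ (by omega)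
    have h2 : (((e + 2) * (4 * A.card + 4) : ℕ) : ℝ) ≤ ((3 * (4 * A.card + 4) : ℕ) : ℝ) := by
      exact_mod_cast h1
    refine h2.trans ?_
    push_cast
    linarith
  have hτn : τ1 * n ≤ n / 20000 := by
    have := mul_le_mul_of_nonneg_right hτ3 hnR.le
    linarith
  have hτn2 : 1000 * (τ1 * n) ≤ τ0 * n := by
    have := mul_le_mul_of_nonneg_right hτ2 hnR.le
    linarith
  have hM2 : (1600 : ℝ) ≤ M ^ 2 := by nlinarith
  have hc1τ : c1 * n ≤ τ0 * n := by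
    refine mul_le_mul_of_nonneg_right ?_ hnR.le
    exact (le_mul_of_one_le_left hc1.le (by linarith)).trans a1
  have hlab : ∀ a ∈ A, 1 ≤ lab a ∧ 16 * lab a ≤ n := by
    intro a ha
    refine ⟨(hlab0 a ha).2.1, ?_⟩
    have h1 : (lab a : ℝ) ≤ 240 * τ1 * n + 12 :=
      le_trans (by exact_mod_cast (hlab0 a ha).2.2) hhR
    have h2 : (16 * lab a : ℝ) ≤ n := by linarith
    exact_mod_cast h2
  have hlabτ : ∀ a ∈ A, 1 ≤ lab a ∧ (lab a : ℝ) ≤ τ0 * n := by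
    intro a ha
    refine ⟨(hlab0 a ha).2.1, ?_⟩
    have h1 : (lab a : ℝ) ≤ 240 * τ1 * n + 12 :=
      le_trans (by exact_mod_cast (hlab0 a ha).2.2) hhR
    linarith
  obtain ⟨Q, hQ⟩ : ∃ Q : ℕ → Finset ℕ, Q = fun w => (Ad p A w).image lab := ⟨_, rfl⟩
  have hQc : ∀ w, (Q w).card = (Ad p A w).card := by
    intro w
    rw [hQ]
    refine card_image_of_injOn ?_
    intro a ha b hb hab
    rw [Ad, coe_filter] at ha hb
    exact hlE.lab ha.1 hb.1 hab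
  obtain ⟨Qs, hQs⟩ : ∃ Qs : Finset (Finset ℕ), Qs =
      insert ∅ (((range n).filter fun w => (Ad p A w).card ≤ D + 1).image Q) := ⟨_, rfl⟩
  have hQ0 : ∅ ∈ Qs := by rw [hQs]; exact mem_insert_self _ _
  have hQin : ∀ w, w < n → (chl n p w).card ≤ D → Q w ∈ Qs := by
    intro w hw hw'
    rw [hQs]
    refine mem_insert_of_mem (mem_image_of_mem _ (mem_filter.2 ⟨mem_range.2 hw, ?_⟩))
    exact Ad_card h.Arange w hw'
  obtain ⟨F, hF, hFc, hRich⟩ := hres n Qs hnn1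
    (by
      rw [hQs]
      refine (card_insert_le _ _).trans ?_
      have := (card_image_le (s := (range n).filter fun w => (Ad p A w).card ≤ D + 1) (f := Q)).trans
        (card_filter_le _ _)
      rw [card_range] at this
      omega)
    (by
      intro O hO
      rw [hQs, mem_insert] at hO
      rcases hO with rfl | hO
      · exact ⟨by simp, by simp⟩
      · obtain ⟨w, hw, rfl⟩ := mem_image.1 hO
        refine ⟨by rw [hQc]; exact (mem_filter.1 hw).2, ?_⟩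
        intro q hq
        rw [hQ] at hq
        obtain ⟨a, ha, rfl⟩ := mem_image.1 hq
        rw [Ad, mem_filter] at ha
        exact hlab a ha.1)
  have hUn : ∀ S ⊆ Sp, Unit n (e + 1) D S (nb n p) Q := by
    intro S hS
    rw [hQ]
    exact unit_of hp h lab hlab S hS
  have hs1 : (Sp.card : ℝ) ≤ c1 * n := by
    rw [hSpc]; exact Nat.floor_le (by positivity)
  have hs2 : c1 * n < Sp.card + 1 := by
    rw [hSpc]; exact Nat.lt_floor_add_one _
  have hρc : ρ1 ≤ c1 := (le_mul_of_one_le_left hρ1.le (by linarith)).trans b2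
  obtain ⟨Sr, hSr, hSrc⟩ := exists_subset_card_eq (s := Sp) (n := ⌊ρ1 * n⌋₊) (by
    rw [hSpc]
    exact Nat.floor_mono (mul_le_mul_of_nonneg_right hρc hnR.le))
  have hr1 : (Sr.card : ℝ) ≤ ρ1 * n := by
    rw [hSrc]; exact Nat.floor_le (by positivity)
  have hr2 : ρ1 * n < Sr.card + 1 := by
    rw [hSrc]; exact Nat.lt_floor_add_one _
  have hρn : 8 * (M : ℝ) ^ 2 * (ρ1 * n) ≤ ρ * n := by
    have := mul_le_mul_of_nonneg_right b1 hnR.le
    linarith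
  -- the numbers `m κ`
  obtain ⟨Γ, hΓ⟩ : ∃ Γ : ℕ, Γ = ∑ v ∈ Sr, gam (nb n p) Q v + ∑ x ∈ X, (1 + (Q x).card) := ⟨_, rfl⟩
  have hΓ1 : Γ ≤ Sr.card * (2 * (D + 2)) + (D + 2) := by
    rw [hΓ]
    have h1 : ∑ v ∈ Sr, gam (nb n p) Q v ≤ Sr.card * (2 * (D + 2)) := by
      rw [← smul_eq_mul, ← sum_const]
      refine sum_le_sum fun v hv => ?_
      refine (gam_le (hUn Sr hSr) v hv).trans (Nat.mul_le_mul_right _ (by omega))
    have h2 : ∑ x ∈ X, (1 + (Q x).card) ≤ X.card * (D + 2) := by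
      rw [← smul_eq_mul, ← sum_const]
      refine sum_le_sum fun x hx => ?_
      rw [hQc]
      have := Ad_card h.Arange x (h.X_deg x hx)
      omega
    have h3 : X.card * (D + 2) ≤ 1 * (D + 2) := Nat.mul_le_mul_right _ h.X_one
    omega
  have hcl : ∀ κ < e + 2, 2 * (Sr.card + Γ) ≤ (F.filter fun t => t % (e + 2) = κ).card := by
    intro κ hκ
    have h1 := hRich.class_le hQ0 κ hκ
    have h2 : ((2 * (Sr.card + Γ) : ℕ) : ℝ) ≤ ρ * n := by
      have h3 : 2 * (Sr.card + Γ) ≤ 2 * (M * Sr.card + M) := by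
        have : Sr.card * (2 * (D + 2)) + Sr.card ≤ M * Sr.card := by
          calc Sr.card * (2 * (D + 2)) + Sr.card = (2 * D + 5) * Sr.card := by ring
            _ ≤ M * Sr.card := Nat.mul_le_mul_right _ (by omega)
        omega
      have h4 : ((2 * (Sr.card + Γ) : ℕ) : ℝ) ≤ 2 * (M * Sr.card + M) := by exact_mod_cast h3
      exact h4.trans (num2 hM1 hρn hN hr1).1
    exact_mod_cast h2.trans h1
  obtain ⟨m, hm⟩ : ∃ m : ℕ → ℕ, m = fun κ => (F.filter fun t => t % (e + 2) = κ).card -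
      (Sr.card + if κ = 0 then Γ else 0) := ⟨_, rfl⟩
  have hm1 : ∀ κ < e + 2, m κ + Sr.card + (if κ = 0 then Γ else 0) =
      (F.filter fun t => t % (e + 2) = κ).card := by
    intro κ hκ
    have h1 := hcl κ hκ
    have h2 : (if κ = 0 then Γ else 0) ≤ Γ := by split_ifs <;> omega
    rw [hm]
    simp only
    omega
  have hFpos : ∀ κ < e + 2, 1 ≤ (F.filter fun t => t % (e + 2) = κ).card := by
    intro κ hκ
    have h1 := hRich.class_le hQ0 κ hκ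
    have h2 : (0 : ℝ) < ρ * n := by positivity
    have h3 : (0 : ℝ) < (F.filter fun t => t % (e + 2) = κ).card := h2.trans_le h1
    exact_mod_cast h3
  have hm2 : ∀ κ < e + 2, 1 ≤ m κ ∧ m κ ≤ (F.filter fun t => t % (e + 2) = κ).card ∧
      (F.filter fun t => t % (e + 2) = κ).card ≤ 2 * m κ := by
    intro κ hκ
    have h1 := hcl κ hκ
    have h2 : (if κ = 0 then Γ else 0) ≤ Γ := by split_ifs <;> omega
    have h3 := hm1 κ hκ
    have h4 := hFpos κ hκ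
    omega
  have hSq : Sp \ Sr ⊆ Sp := sdiff_subset
  have hSqc : (Sp \ Sr).card + Sr.card = Sp.card := card_sdiff_add_card_eq_card hSr
  have hSqR : ((Sp \ Sr).card : ℝ) + Sr.card = Sp.card := by exact_mod_cast hSqc
  have hφn : 0 ≤ φ * n := by positivity
  obtain ⟨Sa, Pv, xa, hSa, hSac, hPvc, hPvF, hPv, hLa, habs⟩ := hCa n (Sp \ Sr) F F (nb n p) Q m
    (by
      have h1 : (Ca * (F.card + 1) : ℝ) ≤ n := by
        refine le_trans (mul_le_mul hMCa (by linarith) (by positivity) hMp.le) u3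
      exact_mod_cast h1) (hUn _ hSq) (Subset.refl _)
    (by
      have h1 : (Ca * F.card : ℝ) ≤ (Sp \ Sr).card := by
        refine le_trans (mul_le_mul hMCa hFc (by positivity) hMp.le) ?_
        linarith
      exact_mod_cast h1) hF hm2
  have hSaS : Sa ⊆ Sp := hSa.trans hSq
  obtain ⟨Cv, hCv⟩ : ∃ Cv : Finset ℕ, Cv = (Sa.biUnion (nb n p)).biUnion (cst Q xa) := ⟨_, rfl⟩
  have hSf : (Sp \ Sr) \ Sa ⊆ Sp := sdiff_subset.trans hSq
  have hgamM : ∀ S ⊆ Sp, ∑ v ∈ S, (e + 1 + 1 + gam (nb n p) Q v) ≤ S.card * M := by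
    intro S hS
    rw [← smul_eq_mul, ← sum_const]
    refine sum_le_sum fun v hv => ?_
    have h1 := gam_le (hUn S hS) v hv
    have h2 : (e + 1) * (D + 2) ≤ 2 * (D + 2) := Nat.mul_le_mul_right _ (by omega)
    omega
  have hCvc : Cv.card = ∑ v ∈ Sa, gam (nb n p) Q v := by
    rw [hCv]; exact card_cst (hUn Sa hSaS) hLa
  have hCvM : Cv.card ≤ Sa.card * M := by
    rw [hCvc]
    refine le_trans (sum_le_sum fun v _ => ?_) (hgamM Sa hSaS)
    omega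
  have hFcM : ((F.card : ℕ) : ℝ) ≤ φ * n := hFc
  have hPvM : ((Pv.card : ℕ) : ℝ) ≤ M * (φ * n) := by
    have h1 : ((Pv.card : ℕ) : ℝ) ≤ Ca * F.card := by exact_mod_cast hPvc
    exact h1.trans (mul_le_mul hMCa hFc (by positivity) hMp.le)
  have hSaSf : Sa.card + ((Sp \ Sr) \ Sa).card ≤ Sp.card := by
    have := card_sdiff_add_card_eq_card hSa
    omega
  have hSaSfR : (Sa.card : ℝ) + ((Sp \ Sr) \ Sa).card ≤ c1 * n := by
    refine le_trans ?_ hs1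
    exact_mod_cast hSaSf
  have hSa0 : (0 : ℝ) ≤ Sa.card := Nat.cast_nonneg _
  have hSf0 : (0 : ℝ) ≤ ((Sp \ Sr) \ Sa).card := Nat.cast_nonneg _
  have hCvR : ((Cv.card : ℕ) : ℝ) ≤ M * Sa.card := by
    have : ((Cv.card : ℕ) : ℝ) ≤ Sa.card * M := by exact_mod_cast hCvM
    linarith
  have hZ1 : (((F ∪ Pv ∪ Cv).card : ℕ) : ℝ) ≤ F.card + Pv.card + Cv.card := by
    have h1 : (F ∪ Pv ∪ Cv).card ≤ F.card + Pv.card + Cv.card :=
      (card_union_le _ _).trans (Nat.add_le_add_right (card_union_le _ _) _)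
    exact_mod_cast h1
  obtain ⟨xf, yf, hLf, hf1, hf2, hf3⟩ := hCf n ((Sp \ Sr) \ Sa) (F ∪ Pv ∪ Cv) (nb n p) Q
    (by
      have h1 : (Cf * ((F ∪ Pv ∪ Cv).card + ((Sp \ Sr) \ Sa).card + 1) : ℝ) ≤ n := by
        refine le_trans (mul_le_mul_of_nonneg_right hMCf (by positivity)) ?_
        exact num5 hM1 u4 hZ1 hFcM hPvM hCvR hSa0 hSf0 hSaSfR
      exact_mod_cast h1) (hUn _ hSf)
  obtain ⟨Sf, hSfd⟩ : ∃ Sf : Finset ℕ, Sf = (Sp \ Sr) \ Sa := ⟨_, rfl⟩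
  rw [← hSfd] at hSf hSaSf hSaSfR hSf0 hLf hf1 hf2 hf3
  have hTf := tot_of (hUn Sf hSf) hLf hf2 hf3
  obtain ⟨Vf, hVf⟩ : ∃ Vf : Finset ℕ, Vf = Sf.biUnion (tot (nb n p) Q xf yf) := ⟨_, rfl⟩
  rw [← hVf] at hTf
  have hVfm : ∀ t ∈ Vf, t ∉ F ∪ Pv ∪ Cv ∧ n < 8 * t ∧ t ≤ 2 * n - 1 := by
    intro t ht
    rw [hVf, mem_biUnion] at ht
    obtain ⟨v, hv, ht⟩ := ht
    rw [tot, mem_union] at ht
    rcases ht with ht | ht
    · exact hf1 v hv t ht
    · obtain ⟨w, hw, ht⟩ := mem_biUnion.1 ht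
      exact ⟨(Finset.disjoint_left.1 (hLf.av v hv w hw)) ht, hLf.hi v hv w hw t ht⟩
  have hVfc : Vf.card = ∑ v ∈ Sf, (e + 1 + 1 + gam (nb n p) Q v) := card_tot (hUn Sf hSf) hTf
  have hVfM : Vf.card ≤ Sf.card * M := by rw [hVfc]; exact hgamM Sf hSf
  obtain ⟨VA, hVA⟩ : ∃ VA : Finset ℕ, VA = vs p lab A (Ed p A) := ⟨_, rfl⟩
  have hVAc : VA.card = A.card + (Ed p A).card := by rw [hVA]; exact hlE.card
  have hVA8 : ∀ t ∈ VA, 1 ≤ t ∧ 8 * t ≤ n := by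
    intro t ht
    rw [hVA] at ht
    rcases mem_vs.1 ht with ⟨a, ha, rfl⟩ | ⟨i, hi, rfl⟩
    · have := hlab a ha; omega
    · rw [Ed, mem_filter] at hi
      have h1 := hlab i hi.1
      have h2 := hlab _ hi.2.2
      omega
  have hCv8 : ∀ t ∈ Cv, n < 8 * t ∧ t ≤ 2 * n - 1 := by
    intro t ht
    rw [hCv, mem_biUnion] at ht
    obtain ⟨w, hw, ht⟩ := ht
    obtain ⟨v, hv, hw⟩ := mem_biUnion.1 hw
    exact hLa.hi v hv w hw t ht
  have hCvFP : ∀ t ∈ Cv, t ∉ F ∪ Pv := by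
    intro t ht
    rw [hCv, mem_biUnion] at ht
    obtain ⟨w, hw, ht⟩ := ht
    obtain ⟨v, hv, hw⟩ := mem_biUnion.1 hw
    exact (Finset.disjoint_left.1 (hLa.av v hv w hw)) ht
  obtain ⟨W, hW⟩ : ∃ W : Finset ℕ, W = VA ∪ (F ∪ Pv ∪ Cv ∪ Vf) := ⟨_, rfl⟩
  have hWsub : W ⊆ Icc 1 (2 * n - 1) := by
    intro t ht
    rw [mem_Icc]
    rw [hW, mem_union, mem_union, mem_union, mem_union] at ht
    rcases ht with ht | ((ht | ht) | ht) | ht
    · have := hVA8 t ht; omega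
    · have := hF t ht; omega
    · have := hPv t ht; omega
    · have := hCv8 t ht; omega
    · have := (hVfm t ht).2; omega
  have hWc : W.card = VA.card + (F.card + Pv.card + Cv.card + Vf.card) := by
    rw [hW, card_union_of_disjoint, card_union_of_disjoint, card_union_of_disjoint,
      card_union_of_disjoint]
    · exact hPvF.symm
    · rw [Finset.disjoint_left]
      intro t ht ht'
      exact hCvFP t ht' ht
    · rw [Finset.disjoint_left]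
      intro t ht ht'
      exact (hVfm t ht').1 ht
    · rw [Finset.disjoint_left]
      intro t ht ht'
      have h1 := hVA8 t ht
      rw [mem_union, mem_union, mem_union] at ht'
      rcases ht' with ((ht' | ht') | ht') | ht'
      · have := hF t ht'; omega
      · have := hPv t ht'; omega
      · have := hCv8 t ht'; omega
      · have := (hVfm t ht').2; omega
  have hPvc2 : Pv.card + ∑ κ ∈ range (e + 2), m κ = Sa.card * (e + 1 + 1) := by
    obtain ⟨L0, hL0F, hL0⟩ := exists_classes (e + 2) F m (fun κ hκ => (hm2 κ hκ).2.1)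
    obtain ⟨y0, hy0⟩ := habs L0 hL0F hL0
    rw [← card_cov (hUn Sa hSaS) hLa hy0, card_union_of_disjoint]
    · congr 1
      rw [card_classes (e + 2) (by omega) L0]
      exact (sum_congr rfl fun κ hκ => hL0 κ (mem_range.1 hκ)).symm
    · rw [Finset.disjoint_left]
      intro t ht ht'
      exact (Finset.disjoint_left.1 hPvF) ht (hL0F ht')
  have hFc2 : F.card = ∑ κ ∈ range (e + 2), m κ + (e + 2) * Sr.card + Γ := by
    rw [card_classes (e + 2) (by omega) F, ← sum_congr rfl (fun κ hκ => hm1 κ (mem_range.1 hκ)),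
      sum_add_distrib, sum_add_distrib, sum_const, card_range, smul_eq_mul,
      sum_ite_eq' (range (e + 2)) 0, if_pos (mem_range.2 (by omega))]
  have hSpU : Sp = Sr ∪ (Sa ∪ Sf) := by
    rw [hSfd, union_sdiff_of_subset hSa, union_sdiff_of_subset hSr]
  have hdj1 : Disjoint Sr (Sa ∪ Sf) := by
    rw [hSfd, union_sdiff_of_subset hSa]
    exact disjoint_sdiff
  have hdj2 : Disjoint Sa Sf := by
    rw [hSfd]
    exact disjoint_sdiff
  obtain ⟨T, hT⟩ : ∃ T : Finset ℕ, T = (range n).filter fun τ => τ ∉ R ∧ p τ ∈ R := ⟨_, rfl⟩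
  obtain ⟨U, hU⟩ : ∃ U : Finset ℕ, U = Icc 1 (2 * n - 1) \ W := ⟨_, rfl⟩
  have hUc : (MV n R top T).card + (EM n p R top T).card = U.card := by
    rw [hU]
    refine U_card hn0 hp h hT Q hQc Sr Sa Sf hSpU hdj1 hdj2 W hWsub ?_
    rw [hWc, hVAc, hCvc, hVfc, ← hΓ]
    omega
  have hWτ : ((W.card : ℕ) : ℝ) ≤ τ0 * n := by
    have h1 : ((W.card : ℕ) : ℝ) = VA.card + (F.card + Pv.card + Cv.card + Vf.card) := by
      exact_mod_cast hWc
    have h2 : VA.card ≤ 2 * A.card := by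
      have : (Ed p A).card ≤ A.card := card_filter_le _ _
      omega
    have h3 : ((VA.card : ℕ) : ℝ) ≤ 2 * A.card := by exact_mod_cast h2
    have h4 : ((Vf.card : ℕ) : ℝ) ≤ Sf.card * M := by exact_mod_cast hVfM
    exact num3 hM1 a1 hφ' hnR hc1 hφ hτn2 hτ1 h1 h3 hAc hFcM hPvM hCvR h4 hSaSfR
  have hIU : ((Icc 1 (2 * n - 1) \ U).card : ℝ) ≤ τ0 * n := by
    refine le_trans ?_ hWτ
    rw [hU, Finset.sdiff_sdiff_eq_self hWsub]
  obtain ⟨T', f1, hT', hf1R, h1E, h1U, hμ⟩ := hpk n p top lab e R A Fl T U hnn2 hp he h.dec hdeg hT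
    h.AR h.pc_par h.pc_ex hlE.lab hlabτ (by rw [hU]; exact sdiff_subset) hIU
    (by linarith) (by rw [hT]; linarith) hUc hFlx hFlc
  refine hCn n ρ p top lab h0 R Sp X A T T' F Pv Sr Sa Sf Cv Vf U m Qs Q xa xf yf f1 hn0 hp h hT hT'
    hlE hlab (fun a ha => (hlab0 a ha).1) hXe hX2 hX0 hQ hRich hF hQ0 ?_ ?_ hSpU hdj1 hdj2 ?_ hPvF hPv
    hLa habs hCv hTf ?_ (fun t ht => (hVfm t ht).2) ?_ hUc (fun r hr => hf1R r (h.AR hr)) h1E h1U ?_ ?_
  · intro v hv w hw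
    have h1 := h.leg_in v hv w hw
    exact hQin w (mem_range.1 (h.dec.sub h1.1)) h1.2.2.2
  · intro x hx
    exact hQin x (mem_range.1 (h.dec.sub (h.XR hx))) (h.X_deg x hx)
  · intro κ hκ
    rw [← hΓ]
    exact hm1 κ hκ
  · rw [Finset.disjoint_left]
    intro t ht
    exact (hVfm t ht).1
  · rw [hU, hW, hVA]
  · have h1 : (Cn * ((MV n R top (T \ T')).card + 1) : ℝ) < Sr.card + 1 := by
      refine lt_of_le_of_lt ?_ hr2
      exact le_trans (mul_le_mul_of_nonneg_right hMCn (add_nonneg (Nat.cast_nonneg _) zero_le_one))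
        (num4 hM1 hμ hε1' hN)
    have h2 : Cn * ((MV n R top (T \ T')).card + 1) < Sr.card + 1 := by exact_mod_cast h1
    omega
  · exact le_trans (mul_le_mul_of_nonneg_right hMCn (add_nonneg (Nat.cast_nonneg _) zero_le_one))
      (num2 hM1 hρn hN hr1).2

end Pool.Agent.SQ
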