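import Pool.Agent.Helper73.SQ.Defs

/-!
# SQ-TD2: choice of the special vertices

Notation: `cc v = (chl n p v).card`, heavy: `D < cc v`, `dg` = degree.

Proof in words.  `∑ cc v = n - 1`, so `#{cc = 0} ≥ n/4` (then `e = 0`) or `#{cc = 1} ≥ n/2` (then `e = 1`).  `Fl0`: for `e = 0` all `v > 0` with `cc v = 0`; for `e = 1` the `v > 0`
with `cc v = 1` whose depth has the more frequent parity (neighbours have depths of different parity).
`X`: `e = 1`: `X = {n-1}` (a leaf: `Par`).  `e = 0`: `X = {x}` for a vertex `x` with `cc x ≤ D` and even degree, if there is one; otherwise `X = ∅`, and `h0` = a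
vertex of even degree (then heavy), if there is one (`h0 = 0` otherwise).
Candidates for `Sp`: `v > 0`, `cc v = e`, no heavy neighbour (`∑_{heavy} (cc + 1) ≤ 2 n/1000` vertices are excluded), not too near to `X`: `v`, the legs
of `v` are not in `X` and not neighbours of an element of `X` (excludes a constant number, because legs are not heavy), no leg adjacent to `h0` (excludes at most
`(c n + 1)(D + 1)` vertices).  So at least `n/8` candidates.  Two candidates `v ≠ v'` conflict if a leg of `v` is equal or adjacent to a leg of `v'`, or `v` is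
a leg of `v'` or conversely: each candidate conflicts with at most `4 (D+2)²` others.  Greedy choice of `s ≤ c n` candidates without conflicts.
-/

set_option autoImplicit false

namespace Pool.Agent.SQ

open Finset Pool.Agent.SEM

private theorem sp16_mem_nb {n : ℕ} {p : ℕ → ℕ} {v w : ℕ} :
    w ∈ nb n p v ↔ w = p v ∨ (w < n ∧ 0 < w ∧ p w = v) := by
  simp [nb, chl]

private theorem sp16_nb_symm {n : ℕ} {p : ℕ → ℕ} {v w : ℕ} (hv : 0 < v) (hvn : v < n)
    (hw : w ∈ nb n p v) : v ∈ nb n p w := by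
  rcases sp16_mem_nb.1 hw with rfl | ⟨_, _, h3⟩
  · exact sp16_mem_nb.2 (Or.inr ⟨hvn, hv, rfl⟩)
  · exact sp16_mem_nb.2 (Or.inl h3.symm)

private theorem sp16_nb_lt {n : ℕ} {p : ℕ → ℕ} (h : Par n p) {v w : ℕ} (hv : 0 < v) (hvn : v < n)
    (hw : w ∈ nb n p v) : w < n := by
  rcases sp16_mem_nb.1 hw with rfl | ⟨h1, _, _⟩
  · exact (h v hv hvn).trans hvn
  · exact h1

private theorem sp16_nb_card (n : ℕ) (p : ℕ → ℕ) (v : ℕ) : (nb n p v).card ≤ (chl n p v).card + 1 :=
  card_insert_le _ _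

private theorem sp16_sum {n : ℕ} {p : ℕ → ℕ} (h : Par n p) :
    ∑ v ∈ range n, (chl n p v).card = n - 1 := by
  have h1 : ((range n).filter (fun j => 0 < j)).card
      = ∑ v ∈ range n, (((range n).filter (fun j => 0 < j)).filter (fun j => p j = v)).card := by
    apply card_eq_sum_card_fiberwise
    intro j hj
    simp only [coe_filter, mem_range, Set.mem_ofPred_eq] at hj
    simp only [coe_range, Set.mem_Iio]
    exact (h j hj.2 hj.1).trans hj.1
  have h2 : ((range n).filter (fun j => 0 < j)) = Ico 1 n := by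
    ext j
    simp only [mem_filter, mem_range, mem_Ico]
    omega
  rw [h2, Nat.card_Ico] at h1
  rw [h1]
  apply sum_congr rfl
  intro v _
  congr 1
  ext j
  simp only [chl, mem_filter, mem_range, mem_Ico]
  constructor
  · rintro ⟨a, b, c⟩
    exact ⟨⟨b, a⟩, c⟩
  · rintro ⟨⟨a, b⟩, c⟩
    exact ⟨b, a, c⟩

private theorem sp16_counts {n : ℕ} {p : ℕ → ℕ} (h : Par n p) (hn : 0 < n) :
    n + 1 ≤ 2 * ((range n).filter fun v => (chl n p v).card = 0).card
      + ((range n).filter fun v => (chl n p v).card = 1).card := by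
  have h1 := sp16_sum h
  have h2 : ∀ v ∈ range n, 2 ≤ (chl n p v).card + (2 * (if (chl n p v).card = 0 then 1 else 0)
      + (if (chl n p v).card = 1 then 1 else 0)) := by
    intro v _
    split_ifs <;> omega
  have h3 := sum_le_sum h2
  rw [sum_add_distrib, sum_add_distrib, ← mul_sum, sum_boole, sum_boole, h1] at h3
  simp only [sum_const, card_range, smul_eq_mul, Nat.cast_id] at h3
  omega

private theorem sp16_col {n : ℕ} {p : ℕ → ℕ} (h : Par n p) :
    ∃ col : ℕ → Bool, ∀ v, v < n → 0 < v → col v ≠ col (p v) := by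
  have key : ∀ m : ℕ, m ≤ n → ∃ col : ℕ → Bool, ∀ v, v < m → 0 < v → col v ≠ col (p v) := by
    intro m
    induction m with
    | zero => intro _; exact ⟨fun _ => true, fun v hv => absurd hv (Nat.not_lt_zero v)⟩
    | succ m ih =>
      intro hm
      obtain ⟨col, hcol⟩ := ih (by omega)
      refine ⟨fun x => if x = m then !(col (p m)) else col x, ?_⟩
      intro v hv hv0
      have hpv : p v < v := h v hv0 (by omega)
      rcases Nat.lt_succ_iff_lt_or_eq.1 hv with h1 | h1
      · have e1 : v ≠ m := by omega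
        have e2 : p v ≠ m := by omega
        simp only [e1, e2, if_false]
        exact hcol v h1 hv0
      · subst h1
        have e2 : p v ≠ v := by omega
        simp only [e2, if_false, if_true]
        cases col (p v) <;> simp
  exact key n le_rfl

private theorem sp16_greedy (C : Finset ℕ) (F : ℕ → Finset ℕ) (K : ℕ)
    (hF : ∀ v ∈ C, (F v).card ≤ K) :
    ∀ s : ℕ, s * (K + 1) ≤ C.card → ∃ S : Finset ℕ, S ⊆ C ∧ S.card = s ∧
      ∀ v ∈ S, ∀ v' ∈ S, v ≠ v' → v' ∉ F v ∨ v ∉ F v' := by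
  intro s
  induction s with
  | zero => intro _; exact ⟨∅, empty_subset _, rfl, by simp⟩
  | succ s ih =>
    intro hs
    have hs' : s * (K + 1) + (K + 1) ≤ C.card := by
      have : (s + 1) * (K + 1) = s * (K + 1) + (K + 1) := by ring
      omega
    obtain ⟨S, hSC, hSc, hS⟩ := ih (by omega)
    have h1 : (S.biUnion fun u => insert u (F u)).card ≤ S.card * (K + 1) := by
      apply card_biUnion_le_card_mul
      intro u hu
      have h2 := hF u (hSC hu)
      have h3 := card_insert_le u (F u)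
      omega
    rw [hSc] at h1
    have h4 : (S.biUnion fun u => insert u (F u)).card < C.card := by omega
    obtain ⟨v, hvC, hv⟩ := exists_mem_notMem_of_card_lt_card h4
    simp only [mem_biUnion, mem_insert, not_exists, not_and, not_or] at hv
    refine ⟨insert v S, insert_subset hvC hSC, ?_, ?_⟩
    · rw [card_insert_of_notMem, hSc]
      intro hvS
      exact (hv v hvS).1 rfl
    · intro a ha b hb hab
      rcases mem_insert.1 ha with ha' | ha'
      · rcases mem_insert.1 hb with hb' | hb'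
        · exact absurd (ha'.trans hb'.symm) hab
        · exact Or.inr (ha' ▸ (hv b hb').2)
      · rcases mem_insert.1 hb with hb' | hb'
        · exact Or.inl (hb' ▸ (hv a ha').2)
        · exact hS a ha' b hb' hab

/-- candidates -/
private def sp16_C (n : ℕ) (p : ℕ → ℕ) (D e : ℕ) (Z : Finset ℕ) : Finset ℕ :=
  (range n).filter fun v => (0 < v ∧ (chl n p v).card = e) ∧ v ∉ Z ∧
    ∀ w ∈ nb n p v, (chl n p w).card ≤ D ∧ w ∉ Z

/-- neighbourhood of a light vertex -/
private def sp16_nl (n : ℕ) (p : ℕ → ℕ) (D : ℕ) (w : ℕ) : Finset ℕ :=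
  if (chl n p w).card ≤ D then nb n p w else ∅

private theorem sp16_nl_card (n : ℕ) (p : ℕ → ℕ) (D : ℕ) (w : ℕ) :
    (sp16_nl n p D w).card ≤ D + 1 := by
  unfold sp16_nl
  split_ifs with h
  · have := sp16_nb_card n p w
    omega
  · simp

private theorem sp16_C_card {n : ℕ} {p : ℕ → ℕ} (h : Par n p) (D e : ℕ) (Z : Finset ℕ) :
    ((range n).filter fun v => 0 < v ∧ (chl n p v).card = e).card ≤
      (sp16_C n p D e Z).card + (D + 2) * Z.card +
        2 * ∑ v ∈ (range n).filter (fun v => D < (chl n p v).card), (chl n p v).card := by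
  set H := (range n).filter (fun v => D < (chl n p v).card) with hH
  have hsub : ((range n).filter fun v => 0 < v ∧ (chl n p v).card = e) ⊆
      sp16_C n p D e Z ∪ (Z ∪ Z.biUnion (sp16_nl n p D)) ∪ (H.biUnion (chl n p) ∪ H.image p) := by
    intro v hv
    rw [mem_filter, mem_range] at hv
    obtain ⟨hvn, hv0, hve⟩ := hv
    by_contra hcon
    simp only [mem_union, not_or] at hcon
    obtain ⟨⟨hc1, hc2, hc3⟩, hc4, hc5⟩ := hcon
    apply hc1
    rw [sp16_C, mem_filter, mem_range]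
    refine ⟨hvn, ⟨hv0, hve⟩, hc2, ?_⟩
    intro w hw
    have hwn : w < n := sp16_nb_lt h hv0 hvn hw
    have hl : (chl n p w).card ≤ D := by
      by_contra hD
      push Not at hD
      have hwH : w ∈ H := by
        rw [hH, mem_filter, mem_range]
        exact ⟨hwn, hD⟩
      rcases sp16_mem_nb.1 hw with h1 | ⟨_, h2, h3⟩
      · apply hc4
        rw [mem_biUnion]
        refine ⟨w, hwH, ?_⟩
        rw [chl, mem_filter, mem_range]
        exact ⟨hvn, hv0, h1.symm⟩
      · apply hc5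
        rw [mem_image]
        exact ⟨w, hwH, h3⟩
    refine ⟨hl, ?_⟩
    intro hwZ
    apply hc3
    rw [mem_biUnion]
    refine ⟨w, hwZ, ?_⟩
    unfold sp16_nl
    rw [if_pos hl]
    exact sp16_nb_symm hv0 hvn hw
  have h1 := card_le_card hsub
  have h2 := card_union_le (sp16_C n p D e Z ∪ (Z ∪ Z.biUnion (sp16_nl n p D)))
    (H.biUnion (chl n p) ∪ H.image p)
  have h3 := card_union_le (sp16_C n p D e Z) (Z ∪ Z.biUnion (sp16_nl n p D))
  have h4 := card_union_le Z (Z.biUnion (sp16_nl n p D))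
  have h5 : (Z.biUnion (sp16_nl n p D)).card ≤ Z.card * (D + 1) :=
    card_biUnion_le_card_mul _ _ _ fun w _ => sp16_nl_card n p D w
  have h6 := card_union_le (H.biUnion (chl n p)) (H.image p)
  have h7 : (H.biUnion (chl n p)).card ≤ ∑ v ∈ H, (chl n p v).card := card_biUnion_le
  have h8 : (H.image p).card ≤ ∑ v ∈ H, (chl n p v).card := by
    refine card_image_le.trans ?_
    rw [card_eq_sum_ones]
    apply sum_le_sum
    intro v hv
    rw [hH, mem_filter] at hv
    omega
  have h9 : (D + 2) * Z.card = Z.card + Z.card * (D + 1) := by ring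
  omega

/-- vertices in conflict with `v` -/
private def sp16_F (n : ℕ) (p : ℕ → ℕ) (D : ℕ) (v : ℕ) : Finset ℕ :=
  nb n p v ∪ ((nb n p v).biUnion (sp16_nl n p D) ∪
    (nb n p v).biUnion fun w => (sp16_nl n p D w).biUnion (sp16_nl n p D))

private theorem sp16_F_card {n : ℕ} {p : ℕ → ℕ} {D e : ℕ} (he : e ≤ 1) {Z : Finset ℕ} :
    ∀ v ∈ sp16_C n p D e Z, (sp16_F n p D v).card ≤ 2 + 2 * (D + 1) + 2 * ((D + 1) * (D + 1)) := by
  intro v hv
  rw [sp16_C, mem_filter] at hv
  have h1 : (nb n p v).card ≤ 2 := by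
    have := sp16_nb_card n p v
    have := hv.2.1.2
    omega
  unfold sp16_F
  have h2 := card_union_le (nb n p v) ((nb n p v).biUnion (sp16_nl n p D) ∪
    (nb n p v).biUnion fun w => (sp16_nl n p D w).biUnion (sp16_nl n p D))
  have h3 := card_union_le ((nb n p v).biUnion (sp16_nl n p D))
    ((nb n p v).biUnion fun w => (sp16_nl n p D w).biUnion (sp16_nl n p D))
  have h4 : ((nb n p v).biUnion (sp16_nl n p D)).card ≤ (nb n p v).card * (D + 1) :=
    card_biUnion_le_card_mul _ _ _ fun w _ => sp16_nl_card n p D w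
  have h5 : ((nb n p v).biUnion fun w => (sp16_nl n p D w).biUnion (sp16_nl n p D)).card
      ≤ (nb n p v).card * ((D + 1) * (D + 1)) := by
    apply card_biUnion_le_card_mul
    intro w _
    refine (card_biUnion_le_card_mul _ _ _ fun w' _ => sp16_nl_card n p D w').trans ?_
    exact Nat.mul_le_mul_right _ (sp16_nl_card n p D w)
  have h6 : (nb n p v).card * (D + 1) ≤ 2 * (D + 1) := Nat.mul_le_mul_right _ h1
  have h7 : (nb n p v).card * ((D + 1) * (D + 1)) ≤ 2 * ((D + 1) * (D + 1)) :=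
    Nat.mul_le_mul_right _ h1
  omega

/-- the conflict relation -/
private def sp16_R (n : ℕ) (p : ℕ → ℕ) (v v' : ℕ) : Prop :=
  v' ∈ nb n p v ∨ ∃ w ∈ nb n p v, ∃ w' ∈ nb n p v',
    w = w' ∨ (0 < w ∧ p w = w') ∨ (0 < w' ∧ p w' = w)

private theorem sp16_R_symm {n : ℕ} {p : ℕ → ℕ} {v v' : ℕ} (hv : 0 < v) (hvn : v < n)
    (h : sp16_R n p v v') : sp16_R n p v' v := by
  rcases h with h | ⟨w, hw, w', hw', h⟩
  · exact Or.inl (sp16_nb_symm hv hvn h)
  · refine Or.inr ⟨w', hw', w, hw, ?_⟩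
    rcases h with h | h | h
    · exact Or.inl h.symm
    · exact Or.inr (Or.inr h)
    · exact Or.inr (Or.inl h)

private theorem sp16_R_F {n : ℕ} {p : ℕ → ℕ} (hp : Par n p) {D e : ℕ} {Z : Finset ℕ} {v v' : ℕ}
    (hv : v ∈ sp16_C n p D e Z) (hv' : v' ∈ sp16_C n p D e Z)
    (h : sp16_R n p v v') : v' ∈ sp16_F n p D v := by
  rw [sp16_C, mem_filter, mem_range] at hv hv'
  unfold sp16_F
  rw [mem_union, mem_union]
  rcases h with h | ⟨w, hw, w', hw', h⟩
  · exact Or.inl h
  · have hlw : (chl n p w).card ≤ D := (hv.2.2.2 w hw).1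
    have hlw' : (chl n p w').card ≤ D := (hv'.2.2.2 w' hw').1
    have hv'w' : v' ∈ nb n p w' := sp16_nb_symm hv'.2.1.1 hv'.1 hw'
    have hv'w'' : v' ∈ sp16_nl n p D w' := by
      unfold sp16_nl
      rw [if_pos hlw']
      exact hv'w'
    rcases h with h | h | h
    · right
      left
      rw [mem_biUnion]
      subst h
      exact ⟨w, hw, hv'w''⟩
    · right
      right
      rw [mem_biUnion]
      refine ⟨w, hw, ?_⟩
      rw [mem_biUnion]
      refine ⟨w', ?_, hv'w''⟩
      unfold sp16_nl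
      rw [if_pos hlw]
      exact sp16_mem_nb.2 (Or.inl h.2.symm)
    · right
      right
      rw [mem_biUnion]
      refine ⟨w, hw, ?_⟩
      rw [mem_biUnion]
      refine ⟨w', ?_, hv'w''⟩
      unfold sp16_nl
      rw [if_pos hlw]
      exact sp16_mem_nb.2 (Or.inr ⟨sp16_nb_lt hp hv'.2.1.1 hv'.1 hw', h.1, h.2⟩)

private theorem sp16_core {n : ℕ} {p : ℕ → ℕ} (hp : Par n p) {D e : ℕ} (he : e ≤ 1) {Z : Finset ℕ}
    {s : ℕ} (hs : s * (2 + 2 * (D + 1) + 2 * ((D + 1) * (D + 1)) + 1) ≤ (sp16_C n p D e Z).card) :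
    ∃ Sp : Finset ℕ, Sp ⊆ range n ∧ Sp.card = s ∧ (∀ v ∈ Sp, 0 < v ∧ (chl n p v).card = e) ∧
      (∀ v ∈ Sp, ∀ w ∈ nb n p v, w ∉ Sp ∧ (chl n p w).card ≤ D) ∧
      (∀ v ∈ Sp, ∀ v' ∈ Sp, v ≠ v' → Disjoint (nb n p v) (nb n p v')) ∧
      (∀ v ∈ Sp, ∀ v' ∈ Sp, v ≠ v' → ∀ w ∈ nb n p v, ∀ w' ∈ nb n p v', ¬ (0 < w ∧ p w = w')) ∧
      (∀ v ∈ Sp, ∀ w ∈ insert v (nb n p v), w < n ∧ w ∉ Z) := by
  obtain ⟨Sp, hSC, hSc, hS⟩ := sp16_greedy (sp16_C n p D e Z) (sp16_F n p D) _ (sp16_F_card he) s hs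
  have hR : ∀ v ∈ Sp, ∀ v' ∈ Sp, v ≠ v' → ¬ sp16_R n p v v' := by
    intro v hv v' hv' hne hr
    have hvC := hSC hv
    rw [sp16_C, mem_filter, mem_range] at hvC
    rcases hS v hv v' hv' hne with h | h
    · exact h (sp16_R_F hp (hSC hv) (hSC hv') hr)
    · exact h (sp16_R_F hp (hSC hv') (hSC hv) (sp16_R_symm hvC.2.1.1 hvC.1 hr))
  have hC : ∀ v ∈ Sp, v < n ∧ (0 < v ∧ (chl n p v).card = e) ∧ v ∉ Z ∧
      ∀ w ∈ nb n p v, (chl n p w).card ≤ D ∧ w ∉ Z := by
    intro v hv
    have hvC := hSC hv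
    rw [sp16_C, mem_filter, mem_range] at hvC
    exact hvC
  have hirr : ∀ v ∈ Sp, v ∉ nb n p v := by
    intro v hv hc
    obtain ⟨h1, ⟨h2, _⟩, _⟩ := hC v hv
    rcases sp16_mem_nb.1 hc with h | h
    · have := hp v h2 h1
      omega
    · have := hp v h2 h1
      omega
  refine ⟨Sp, ?_, hSc, fun v hv => (hC v hv).2.1, ?_, ?_, ?_, ?_⟩
  · intro v hv
    exact mem_range.2 (hC v hv).1
  · intro v hv w hw
    refine ⟨?_, ((hC v hv).2.2.2 w hw).1⟩
    intro hwS
    have hne : v ≠ w := by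
      rintro rfl
      exact hirr v hv hw
    exact hR v hv w hwS hne (Or.inl hw)
  · intro v hv v' hv' hne
    rw [disjoint_left]
    intro w hw hw'
    exact hR v hv v' hv' hne (Or.inr ⟨w, hw, w, hw', Or.inl rfl⟩)
  · intro v hv v' hv' hne w hw w' hw' hc
    exact hR v hv v' hv' hne (Or.inr ⟨w, hw, w', hw', Or.inr (Or.inl hc)⟩)
  · intro v hv w hw
    obtain ⟨h1, ⟨h2, _⟩, h3, h4⟩ := hC v hv
    rcases mem_insert.1 hw with rfl | hw
    · exact ⟨h1, h3⟩
    · exact ⟨sp16_nb_lt hp h2 h1 hw, (h4 w hw).2⟩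

private theorem sp16_size {n : ℕ} {p : ℕ → ℕ} (hp : Par n p) {D e : ℕ} {Z : Finset ℕ} {s : ℕ}
    (hA : (n : ℝ) / 4 - 1 ≤ ((range n).filter fun v => 0 < v ∧ (chl n p v).card = e).card)
    (hZ : (Z.card : ℝ) ≤ 1 / (100 * ((D : ℝ) + 2) ^ 2) * n + D + 3)
    (hn : 100 * (D + 3) ^ 2 ≤ n)
    (hH : ((∑ v ∈ (range n).filter (fun v => D < (chl n p v).card), (chl n p v).card : ℕ) : ℝ) ≤ n / 1000)
    (hs : (s : ℝ) ≤ 1 / (100 * ((D : ℝ) + 2) ^ 2) * n) :
    s * (2 + 2 * (D + 1) + 2 * ((D + 1) * (D + 1)) + 1) ≤ (sp16_C n p D e Z).card := by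
  have h1 := sp16_C_card hp D e Z
  have h2 : (((range n).filter fun v => 0 < v ∧ (chl n p v).card = e).card : ℝ) ≤
      (sp16_C n p D e Z).card + ((D : ℝ) + 2) * Z.card +
        2 * ((∑ v ∈ (range n).filter (fun v => D < (chl n p v).card), (chl n p v).card : ℕ) : ℝ) := by
    exact_mod_cast h1
  have hn' : (100 : ℝ) * ((D : ℝ) + 3) ^ 2 ≤ n := by exact_mod_cast hn
  have hD0 : (0 : ℝ) ≤ D := Nat.cast_nonneg D
  set t : ℝ := (n : ℝ) / (100 * ((D : ℝ) + 2) ^ 2) with ht
  have htn : 100 * ((D : ℝ) + 2) ^ 2 * t = n := by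
    rw [ht]
    field_simp
  have hte : 1 / (100 * ((D : ℝ) + 2) ^ 2) * n = t := by
    rw [ht]
    ring
  rw [hte] at hZ hs
  have ht0 : 0 ≤ t := by
    rw [ht]
    positivity
  have h3 : ((D : ℝ) + 2) * Z.card ≤ (D + 2) * (t + D + 3) :=
    mul_le_mul_of_nonneg_left hZ (by linarith)
  have h4 : (s : ℝ) * (2 + 2 * (D + 1) + 2 * ((D + 1) * (D + 1)) + 1) ≤
      t * (2 + 2 * (D + 1) + 2 * ((D + 1) * (D + 1)) + 1) :=
    mul_le_mul_of_nonneg_right hs (by positivity)
  have h5 : t * (2 + 2 * ((D : ℝ) + 1) + 2 * ((D + 1) * (D + 1)) + 1) ≤ n / 25 := by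
    rw [← htn]
    have : 0 ≤ t * D := mul_nonneg ht0 hD0
    have : 0 ≤ t * D ^ 2 := mul_nonneg ht0 (by positivity)
    nlinarith
  have h6 : ((D : ℝ) + 2) * t ≤ n / 100 := by
    rw [← htn]
    have : 0 ≤ t * D := mul_nonneg ht0 hD0
    have : 0 ≤ t * D ^ 2 := mul_nonneg ht0 (by positivity)
    nlinarith
  have h7 : ((D : ℝ) + 2) * (D + 3) + 1 ≤ n / 100 + 1 := by nlinarith
  have h8 : (900 : ℝ) ≤ n := by nlinarith
  have h9 : (s : ℝ) * (2 + 2 * (D + 1) + 2 * ((D + 1) * (D + 1)) + 1) ≤ (sp16_C n p D e Z).card := by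
    have h10 : ((D : ℝ) + 2) * (t + D + 3) = (D + 2) * t + (D + 2) * (D + 3) := by ring
    linarith
  exact_mod_cast h9

theorem choose_special (D : ℕ) (hD : 1 ≤ D) : ∃ c : ℝ, 0 < c ∧ ∃ n₀ : ℕ, ∀ (n : ℕ) (p : ℕ → ℕ),
    n₀ ≤ n → Par n p → (∀ v, v < n → ((chl n p v).card : ℝ) ≤ c * n) →
    ((∑ v ∈ (range n).filter (fun v => D < (chl n p v).card), (chl n p v).card : ℕ) : ℝ) ≤ n / 1000 →
    ∀ s : ℕ, (s : ℝ) ≤ c * n → ∃ (e h0 : ℕ) (X Sp Fl0 : Finset ℕ), e ≤ 1 ∧
      X ⊆ range n ∧ X.card ≤ 1 ∧ (e = 1 → X.Nonempty) ∧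
      (∀ x ∈ X, 0 < n ∧ (chl n p x).card ≤ D ∧ (e = 0 → Even (dg n p x)) ∧ (e = 1 → dg n p x = 1)) ∧
      (X = ∅ → (∀ v, v < n → Even (dg n p v) → D < (chl n p v).card) ∧
        ((∃ v, v < n ∧ Even (dg n p v)) → h0 < n ∧ Even (dg n p h0)) ∧
        ∀ v ∈ Sp, ∀ w ∈ nb n p v, ¬ (0 < w ∧ p w = h0) ∧ ¬ (0 < h0 ∧ p h0 = w)) ∧
      Sp ⊆ range n ∧ Sp.card = s ∧ (∀ v ∈ Sp, 0 < v ∧ (chl n p v).card = e) ∧
      (∀ v ∈ Sp, ∀ w ∈ nb n p v, w ∉ Sp ∧ (chl n p w).card ≤ D) ∧
      (∀ v ∈ Sp, ∀ v' ∈ Sp, v ≠ v' → Disjoint (nb n p v) (nb n p v')) ∧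
      (∀ v ∈ Sp, ∀ v' ∈ Sp, v ≠ v' → ∀ w ∈ nb n p v, ∀ w' ∈ nb n p v', ¬ (0 < w ∧ p w = w')) ∧
      (∀ v ∈ Sp, ∀ x ∈ X, ∀ w ∈ insert v (nb n p v), w ≠ x ∧ ¬ (0 < w ∧ p w = x) ∧ ¬ (0 < x ∧ p x = w)) ∧
      Fl0 ⊆ range n ∧ (n : ℝ) / 4 - 2 ≤ Fl0.card ∧
      ∀ v ∈ Fl0, 0 < v ∧ (chl n p v).card = e ∧ p v ∉ Fl0 ∧ ∀ w ∈ chl n p v, w ∉ Fl0 := by
  have hD0 : (0 : ℝ) ≤ D := Nat.cast_nonneg D
  refine ⟨1 / (100 * ((D : ℝ) + 2) ^ 2), by positivity, 100 * (D + 3) ^ 2, ?_⟩
  intro n p hn hp hmax hH s hs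
  have hn900 : 900 ≤ n := by nlinarith
  have hcnt := sp16_counts hp (by omega)
  by_cases h0 : n ≤ 4 * ((range n).filter fun v => (chl n p v).card = 0).card
  · -- many leaves: e = 0
    set Fl := (range n).filter fun v => 0 < v ∧ (chl n p v).card = 0 with hFl
    have hFlc : ((range n).filter fun v => (chl n p v).card = 0).card ≤ Fl.card + 1 := by
      have hsub : ((range n).filter fun v => (chl n p v).card = 0) ⊆ insert 0 Fl := by
        intro v hv
        rw [mem_filter] at hv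
        rw [mem_insert, hFl, mem_filter]
        rcases Nat.eq_zero_or_pos v with h | h
        · exact Or.inl h
        · exact Or.inr ⟨hv.1, h, hv.2⟩
      exact (card_le_card hsub).trans (card_insert_le _ _)
    have hFlr : (n : ℝ) / 4 - 1 ≤ Fl.card := by
      have h1 : n ≤ 4 * (Fl.card + 1) := h0.trans (Nat.mul_le_mul_left 4 hFlc)
      have h2 : (n : ℝ) ≤ 4 * (Fl.card + 1) := by exact_mod_cast h1
      linarith
    have hFlp : ∀ v ∈ Fl, 0 < v ∧ (chl n p v).card = 0 ∧ p v ∉ Fl ∧ ∀ w ∈ chl n p v, w ∉ Fl := by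
      intro v hv
      rw [hFl, mem_filter, mem_range] at hv
      refine ⟨hv.2.1, hv.2.2, ?_, ?_⟩
      · intro hc
        rw [hFl, mem_filter, mem_range] at hc
        have h1 := hc.2.2
        rw [card_eq_zero] at h1
        have h2 : v ∈ chl n p (p v) := by
          rw [chl, mem_filter, mem_range]
          exact ⟨hv.1, hv.2.1, rfl⟩
        rw [h1] at h2
        exact absurd h2 (notMem_empty v)
      · have h1 := hv.2.2
        rw [card_eq_zero] at h1
        intro w hw
        rw [h1] at hw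
        exact absurd hw (notMem_empty w)
    have hFls : Fl ⊆ range n := filter_subset _ _
    by_cases hx : ∃ x, x < n ∧ (chl n p x).card ≤ D ∧ Even (dg n p x)
    · obtain ⟨x, hxn, hxD, hxe⟩ := hx
      have hZ : ((insert x (nb n p x)).card : ℝ) ≤ 1 / (100 * ((D : ℝ) + 2) ^ 2) * n + D + 3 := by
        have h1 : (insert x (nb n p x)).card ≤ D + 3 := by
          have := card_insert_le x (nb n p x)
          have := sp16_nb_card n p x
          omega
        have h2 : ((insert x (nb n p x)).card : ℝ) ≤ D + 3 := by exact_mod_cast h1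
        have h3 : 0 ≤ 1 / (100 * ((D : ℝ) + 2) ^ 2) * n := by positivity
        linarith
      obtain ⟨Sp, hS1, hS2, hS3, hS4, hS5, hS6, hS7⟩ := sp16_core hp (e := 0) (by norm_num)
        (sp16_size hp hFlr hZ hn hH hs)
      refine ⟨0, 0, {x}, Sp, Fl, by norm_num, ?_, ?_, ?_, ?_, ?_, hS1, hS2, hS3, hS4, hS5, hS6, ?_,
        hFls, by linarith, hFlp⟩
      · rw [singleton_subset_iff]
        exact mem_range.2 hxn
      · simp
      · intro h; omega
      · intro x' hx'
        rw [mem_singleton] at hx'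
        subst hx'
        exact ⟨by omega, hxD, fun _ => hxe, fun h => by omega⟩
      · intro h
        exact absurd h (singleton_ne_empty x)
      · intro v hv x' hx' w hw
        rw [mem_singleton] at hx'
        subst hx'
        obtain ⟨h1, h2⟩ := hS7 v hv w hw
        rw [mem_insert, not_or] at h2
        refine ⟨h2.1, ?_, ?_⟩
        · intro h3
          exact h2.2 (sp16_mem_nb.2 (Or.inr ⟨h1, h3.1, h3.2⟩))
        · intro h3
          exact h2.2 (sp16_mem_nb.2 (Or.inl h3.2.symm))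
    · push Not at hx
      have hh0 : ∃ h0 : ℕ, h0 < n ∧ ((∃ v, v < n ∧ Even (dg n p v)) → Even (dg n p h0)) := by
        by_cases hv : ∃ v, v < n ∧ Even (dg n p v)
        · obtain ⟨v, h1, h2⟩ := hv
          exact ⟨v, h1, fun _ => h2⟩
        · exact ⟨0, by omega, fun h => absurd h hv⟩
      obtain ⟨h0', hh1, hh2⟩ := hh0
      have hZ : ((nb n p h0').card : ℝ) ≤ 1 / (100 * ((D : ℝ) + 2) ^ 2) * n + D + 3 := by
        have h1 : ((nb n p h0').card : ℝ) ≤ (chl n p h0').card + 1 := by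
          exact_mod_cast sp16_nb_card n p h0'
        have h2 := hmax h0' hh1
        linarith
      obtain ⟨Sp, hS1, hS2, hS3, hS4, hS5, hS6, hS7⟩ := sp16_core hp (e := 0) (by norm_num)
        (sp16_size hp hFlr hZ hn hH hs)
      refine ⟨0, h0', ∅, Sp, Fl, by norm_num, by simp, by simp, by simp, by simp, ?_, hS1, hS2, hS3,
        hS4, hS5, hS6, by simp, hFls, by linarith, hFlp⟩
      intro _
      refine ⟨?_, fun h => ⟨hh1, hh2 h⟩, ?_⟩
      · intro v hv hev
        by_contra hc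
        push Not at hc
        have := hx v hv hc
        exact this hev
      · intro v hv w hw
        obtain ⟨h1, h2⟩ := hS7 v hv w (mem_insert_of_mem hw)
        refine ⟨?_, ?_⟩
        · intro h3
          exact h2 (sp16_mem_nb.2 (Or.inr ⟨h1, h3.1, h3.2⟩))
        · intro h3
          exact h2 (sp16_mem_nb.2 (Or.inl h3.2.symm))
  · -- many vertices with one child: e = 1
    set A := (range n).filter fun v => 0 < v ∧ (chl n p v).card = 1 with hA
    have hAc : ((range n).filter fun v => (chl n p v).card = 1).card ≤ A.card + 1 := by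
      have hsub : ((range n).filter fun v => (chl n p v).card = 1) ⊆ insert 0 A := by
        intro v hv
        rw [mem_filter] at hv
        rw [mem_insert, hA, mem_filter]
        rcases Nat.eq_zero_or_pos v with h | h
        · exact Or.inl h
        · exact Or.inr ⟨hv.1, h, hv.2⟩
      exact (card_le_card hsub).trans (card_insert_le _ _)
    have hA2 : n ≤ 2 * (A.card + 1) := by omega
    have hAr : (n : ℝ) / 4 - 1 ≤ A.card := by
      have h2 : (n : ℝ) ≤ 2 * (A.card + 1) := by exact_mod_cast hA2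
      have h3 : (0 : ℝ) ≤ n := Nat.cast_nonneg n
      linarith
    obtain ⟨col, hcol⟩ := sp16_col hp
    have hsplit := card_filter_add_card_filter_not (s := A) (fun v => col v = true)
    have hex : ∃ b : Bool, A.card ≤ 2 * (A.filter fun v => col v = b).card := by
      by_cases hb : A.card ≤ 2 * (A.filter fun v => col v = true).card
      · exact ⟨true, hb⟩
      · refine ⟨false, ?_⟩
        have : (A.filter fun v => ¬ (col v = true)) = A.filter fun v => col v = false := by
          apply filter_congr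
          intro v _
          simp
        rw [this] at hsplit
        omega
    obtain ⟨b, hb⟩ := hex
    set Fl := A.filter fun v => col v = b with hFl
    have hFlr : (n : ℝ) / 4 - 2 ≤ Fl.card := by
      have h1 : n ≤ 2 * (2 * Fl.card + 1) := by omega
      have h2 : (n : ℝ) ≤ 2 * (2 * Fl.card + 1) := by exact_mod_cast h1
      linarith
    have hchl : chl n p (n - 1) = ∅ := by
      rw [chl, filter_eq_empty_iff]
      intro j hj hc
      rw [mem_range] at hj
      have := hp j hc.1 hj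
      omega
    have hZ : ((insert (n - 1) (nb n p (n - 1))).card : ℝ) ≤
        1 / (100 * ((D : ℝ) + 2) ^ 2) * n + D + 3 := by
      have h1 : (insert (n - 1) (nb n p (n - 1))).card ≤ D + 3 := by
        have h2 := card_insert_le (n - 1) (nb n p (n - 1))
        have h3 := sp16_nb_card n p (n - 1)
        rw [hchl, card_empty] at h3
        omega
      have h2 : ((insert (n - 1) (nb n p (n - 1))).card : ℝ) ≤ D + 3 := by exact_mod_cast h1
      have h3 : 0 ≤ 1 / (100 * ((D : ℝ) + 2) ^ 2) * n := by positivity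
      linarith
    obtain ⟨Sp, hS1, hS2, hS3, hS4, hS5, hS6, hS7⟩ := sp16_core hp (e := 1) (by norm_num)
      (sp16_size hp hAr hZ hn hH hs)
    refine ⟨1, 0, {n - 1}, Sp, Fl, by norm_num, ?_, ?_, ?_, ?_, ?_, hS1, hS2, hS3, hS4, hS5, hS6, ?_,
      ?_, hFlr, ?_⟩
    · rw [singleton_subset_iff]
      exact mem_range.2 (by omega)
    · simp
    · intro _; exact singleton_nonempty _
    · intro x' hx'
      rw [mem_singleton] at hx'
      subst hx'
      refine ⟨by omega, by rw [hchl]; simp, fun h => by omega, fun _ => ?_⟩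
      rw [dg, hchl, card_empty, if_neg (by omega)]
    · intro h
      exact absurd h (singleton_ne_empty _)
    · intro v hv x' hx' w hw
      rw [mem_singleton] at hx'
      subst hx'
      obtain ⟨h1, h2⟩ := hS7 v hv w hw
      rw [mem_insert, not_or] at h2
      refine ⟨h2.1, ?_, ?_⟩
      · intro h3
        exact h2.2 (sp16_mem_nb.2 (Or.inr ⟨h1, h3.1, h3.2⟩))
      · intro h3
        exact h2.2 (sp16_mem_nb.2 (Or.inl h3.2.symm))
    · exact (filter_subset _ _).trans (filter_subset _ _)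
    · intro v hv
      rw [hFl, mem_filter, hA, mem_filter, mem_range] at hv
      obtain ⟨⟨hvn, hv0, hv1⟩, hvb⟩ := hv
      refine ⟨hv0, hv1, ?_, ?_⟩
      · intro hc
        rw [hFl, mem_filter] at hc
        exact hcol v hvn hv0 (hvb.trans hc.2.symm)
      · intro w hw hc
        rw [hFl, mem_filter] at hc
        rw [chl, mem_filter, mem_range] at hw
        apply hcol w hw.1 hw.2.1
        rw [hw.2.2, hvb]
        exact hc.2

end Pool.Agent.SQ
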