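import Pool.Agent.Helper73.SQ.TD1
import Pool.Agent.Helper73.SQ.TD2

/-!
# SQ-TD3: the decomposition of the tree

Proof in words.  `choose_special` gives `e, h0, X, Sp, Fl0`.  `W = Sp.biUnion (nb n p)`.  `cutS` with `S0` = heavy vertices ∪ `Sp` ∪ `W` ∪ `X` ∪ neighbours of `X`
(at most `D + 1`), gives `R1`, `top`.  `R` = `R1` together with all vertices of the pieces (w.r.t. `R1`) that are adjacent to `W` (`top v` with `p (top v) ∈ W`, or with an exit in `W`).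
`Dec n p K R top` with the same `top`: whole pieces are added, so a vertex `r ∈ R` with `p r ∉ R` is in `R1`, and a vertex `v ∉ R` with `p v ∈ R` has `p v ∈ R1`.
`A = R \ (Sp ∪ W ∪ X)`.  A neighbour of a leg `w` of `v ∈ Sp` is `v`, or in `R` (its piece was added), not in `Sp` (else `w` is a leg of two
vertices), not in `W` (no adjacent legs of different `v`; the two legs of the same `v` are not adjacent), not in `X`.  `pc_par`, `pc_ex`: pieces outside `R` are not adjacent to `W`, to `Sp`, to `X`.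
Counting: heavy set `H`: `|H| D ≤ ∑_H cc ≤ τ n`; `|R1| ≤ 8 n / K + 8 (|H| + 3 s + D + 4)`; `|R \ R1| ≤ 2 s (D+1) K`; tops: `#{v ∉ R : p v ∈ R} ≤ ∑_{r ∈ R1} cc r ≤ τ n + D |R1|`.
Take `K ≥ 8 D / τ`, `c ≤ τ / (1000 (D+1) K)` and `n₀` large.  `Fl` = the `v ∈ Fl0` with `v ∉ R`, `p v ∉ R`, no child in `R`: at least
`n/4 - 2 - 3 * 20 τ n ≥ n/16`.
-/

set_option autoImplicit false

namespace Pool.Agent.SQ

open Finset Pool.Agent.SEM

private theorem mchl41 {n : ℕ} {p : ℕ → ℕ} {v u : ℕ} :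
    u ∈ chl n p v ↔ u < n ∧ 0 < u ∧ p u = v := by
  simp only [chl, mem_filter, mem_range]

private theorem mnb41 {n : ℕ} {p : ℕ → ℕ} {v u : ℕ} :
    u ∈ nb n p v ↔ u = p v ∨ u ∈ chl n p v := by
  simp only [nb, mem_insert]

/-- neighbours of `v` are not adjacent -/
private theorem noadj41 {n : ℕ} {p : ℕ → ℕ} {v u w : ℕ} (hp : Par n p) (hv0 : 0 < v) (hv : v < n)
    (hu : u ∈ nb n p v) (hw : w ∈ nb n p v) (hu0 : 0 < u) : p u ≠ w := by
  intro h
  have hpv := hp v hv0 hv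
  rw [mnb41, mchl41] at hu hw
  rcases hu with hu | ⟨hu1, _, hu3⟩
  · subst hu
    have := hp (p v) hu0 (by omega)
    rcases hw with hw | ⟨hw1, hw2, hw3⟩
    · omega
    · have := hp w hw2 hw1
      omega
  · rcases hw with hw | ⟨hw1, hw2, hw3⟩
    · omega
    · have := hp w hw2 hw1
      omega

/-- adding whole pieces to the separating set -/
private theorem addT41 {n : ℕ} {p : ℕ → ℕ} {K : ℕ} {R1 R2 T : Finset ℕ} {top : ℕ → ℕ}
    (hp : Par n p) (hd : Dec n p K R1 top)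
    (hR2 : ∀ v, v ∈ R2 ↔ v ∈ R1 ∨ (v < n ∧ v ∉ R1 ∧ top v ∈ T)) :
    Dec n p K R2 top ∧ (∀ v, v < n → v ∉ R2 → p v ∈ R2 → p v ∈ R1) ∧
      (∀ r ∈ R2, 0 < r → p r ∉ R2 → r ∈ R1) := by
  have h12 : ∀ v, v ∈ R1 → v ∈ R2 := fun v h => (hR2 v).2 (Or.inl h)
  have hlt2 : ∀ v ∈ R2, v < n := by
    intro v hv
    rcases (hR2 v).1 hv with h | h
    · exact mem_range.1 (hd.sub h)
    · exact h.1
  have h0 : ∀ v, v ∉ R1 → 0 < v := by
    intro v hv
    rcases Nat.eq_zero_or_pos v with h | h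
    · subst h; exact absurd hd.zero hv
    · exact h
  have key : ∀ v, v < n → v ∉ R1 → p v ∉ R1 → (v ∈ R2 ↔ p v ∈ R2) := by
    intro v hv h1 h2
    have hpv := hp v (h0 v h1) hv
    rw [hR2, hR2, ← hd.top_step v hv h1 h2]
    constructor
    · rintro (h | h)
      · exact absurd h h1
      · exact Or.inr ⟨by omega, h2, h.2.2⟩
    · rintro (h | h)
      · exact absurd h h2
      · exact Or.inr ⟨hv, h1, h.2.2⟩
  have hA : ∀ v, v < n → v ∉ R2 → p v ∈ R2 → p v ∈ R1 := by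
    intro v hv h1 h2
    by_contra h3
    have h1' : v ∉ R1 := fun h => h1 (h12 v h)
    exact h1 ((key v hv h1' h3).2 h2)
  have hB : ∀ r ∈ R2, 0 < r → p r ∉ R2 → r ∈ R1 := by
    intro r hr hr0 h2
    by_contra h3
    have h2' : p r ∉ R1 := fun h => h2 (h12 _ h)
    exact h2 ((key r (hlt2 r hr) h3 h2').1 hr)
  refine ⟨⟨?_, h12 0 hd.zero, ?_, ?_, ?_, ?_, ?_⟩, hA, hB⟩
  · intro v hv; exact mem_range.2 (hlt2 v hv)
  · intro v hv h1 h2
    exact hd.top_root v hv (fun h => h1 (h12 v h)) (hA v hv h1 h2)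
  · intro v hv h1 h2
    exact hd.top_step v hv (fun h => h1 (h12 v h)) (fun h => h2 (h12 _ h))
  · intro t
    refine le_trans (card_le_card ?_) (hd.size t)
    intro v hv
    rw [mem_filter] at hv ⊢
    exact ⟨hv.1, fun h => hv.2.1 (h12 v h), hv.2.2⟩
  · intro r hr r' hr' h1 h2 h3 h4 h5
    exact hd.exit_unique r (hB r hr h1 h3) r' (hB r' hr' h2 h4) h1 h2 (fun h => h3 (h12 _ h))
      (fun h => h4 (h12 _ h)) h5
  · intro r hr h1 h2 h3
    have hr1 := hB r hr h1 h2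
    have h2' : p r ∉ R1 := fun h => h2 (h12 _ h)
    have h4 := hd.exit_deep r hr1 h1 h2'
    have hrn := hlt2 r hr
    have := hp r h1 hrn
    exact h2 ((key (p r) (by omega) h2' h4).2 h3)

private theorem tdec41 {n : ℕ} {p : ℕ → ℕ} {e D K : ℕ} {R1 R2 T X Sp : Finset ℕ} {top : ℕ → ℕ}
    (hp : Par n p) (hd : Dec n p K R1 top)
    (hR2 : ∀ v, v ∈ R2 ↔ v ∈ R1 ∨ (v < n ∧ v ∉ R1 ∧ top v ∈ T))
    (hT1 : ∀ w ∈ Sp.biUnion (nb n p), ∀ u ∈ chl n p w, u ∈ T)
    (hT2 : ∀ w ∈ Sp.biUnion (nb n p), top (p w) ∈ T)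
    (hSR : Sp ⊆ R1) (hWR : Sp.biUnion (nb n p) ⊆ R1) (hXR : X ⊆ R1)
    (hXp : ∀ x ∈ X, 0 < x → p x ∈ R1) (hXc : ∀ x ∈ X, chl n p x ⊆ R1)
    (hX1 : X.card ≤ 1) (hXd : ∀ x ∈ X, (chl n p x).card ≤ D)
    (h1 : ∀ v ∈ Sp, 0 < v ∧ (chl n p v).card = e)
    (h2 : ∀ v ∈ Sp, ∀ w ∈ nb n p v, w ∉ Sp ∧ (chl n p w).card ≤ D)
    (h3 : ∀ v ∈ Sp, ∀ v' ∈ Sp, v ≠ v' → Disjoint (nb n p v) (nb n p v'))
    (h4 : ∀ v ∈ Sp, ∀ v' ∈ Sp, v ≠ v' → ∀ w ∈ nb n p v, ∀ w' ∈ nb n p v',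
      ¬ (0 < w ∧ p w = w'))
    (h5 : ∀ v ∈ Sp, ∀ x ∈ X, ∀ w ∈ insert v (nb n p v), w ≠ x ∧ ¬ (0 < w ∧ p w = x) ∧
      ¬ (0 < x ∧ p x = w)) :
    TDec n p e D K R2 Sp X (R2 \ (Sp ∪ Sp.biUnion (nb n p) ∪ X)) top := by
  obtain ⟨hd2, hA2, hB2⟩ := addT41 hp hd hR2
  have h12 : ∀ v, v ∈ R1 → v ∈ R2 := fun v h => (hR2 v).2 (Or.inl h)
  have hW : ∀ v ∈ Sp, ∀ w ∈ nb n p v, w ∈ Sp.biUnion (nb n p) :=
    fun v hv w hw => mem_biUnion.2 ⟨v, hv, hw⟩
  have hA : ∀ u, u ∈ R2 → u ∉ Sp → (∀ v ∈ Sp, u ∉ nb n p v) → u ∉ X →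
      u ∈ R2 \ (Sp ∪ Sp.biUnion (nb n p) ∪ X) := by
    intro u a b c d
    rw [mem_sdiff, mem_union, mem_union, mem_biUnion]
    refine ⟨a, ?_⟩
    rintro ((h | ⟨v, hv, h⟩) | h)
    · exact b h
    · exact c v hv h
    · exact d h
  have hlt : ∀ v ∈ R1, v < n := fun v hv => mem_range.1 (hd.sub hv)
  have hpos : ∀ v, v ∉ R1 → 0 < v := by
    intro v hv
    rcases Nat.eq_zero_or_pos v with h | h
    · subst h; exact absurd hd.zero hv
    · exact h
  constructor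
  · exact hd2
  · exact fun v hv => h12 v (hSR hv)
  · exact fun v hv => h12 v (hXR hv)
  · rfl
  · exact fun v hv => (h1 v hv).1
  · exact fun v hv => (h1 v hv).2
  · intro v hv w hw
    exact ⟨h12 w (hWR (hW v hv w hw)), (h2 v hv w hw).1,
      fun hx => (h5 v hv w hx w (mem_insert_of_mem hw)).1 rfl, (h2 v hv w hw).2⟩
  · exact h3
  · intro v hv w hw hw0
    by_cases hwv : p w = v
    · exact Or.inl hwv
    right
    have hwn := hlt w (hWR (hW v hv w hw))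
    have hpw := hp w hw0 hwn
    refine hA (p w) ?_ ?_ ?_ ?_
    · by_cases h : p w ∈ R1
      · exact h12 _ h
      · exact (hR2 _).2 (Or.inr ⟨by omega, h, hT2 w (hW v hv w hw)⟩)
    · intro h
      have hw' : w ∈ nb n p (p w) := mnb41.2 (Or.inr (mchl41.2 ⟨hwn, hw0, rfl⟩))
      exact Finset.disjoint_left.1 (h3 (p w) h v hv hwv) hw' hw
    · intro v' hv' h
      by_cases hvv : v = v'
      · subst hvv
        exact noadj41 hp (h1 v hv).1 (hlt v (hSR hv)) hw h hw0 rfl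
      · exact h4 v hv v' hv' hvv w hw (p w) h ⟨hw0, rfl⟩
    · intro h
      exact (h5 v hv (p w) h w (mem_insert_of_mem hw)).2.1 ⟨hw0, rfl⟩
  · intro v hv w hw u hu
    by_cases huv : u = v
    · exact Or.inl huv
    right
    obtain ⟨hu1, hu2, hu3⟩ := mchl41.1 hu
    refine hA u ?_ ?_ ?_ ?_
    · by_cases h : u ∈ R1
      · exact h12 _ h
      · refine (hR2 _).2 (Or.inr ⟨hu1, h, ?_⟩)
        rw [hd.top_root u hu1 h (by rw [hu3]; exact hWR (hW v hv w hw))]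
        exact hT1 w (hW v hv w hw) u hu
    · intro h
      have hw' : w ∈ nb n p u := mnb41.2 (Or.inl hu3.symm)
      exact Finset.disjoint_left.1 (h3 u h v hv huv) hw' hw
    · intro v' hv' h
      by_cases hvv : v' = v
      · subst hvv
        exact noadj41 hp (h1 v' hv').1 (hlt v' (hSR hv')) h hw hu2 hu3
      · exact h4 v' hv' v hv hvv u h w hw ⟨hu2, hu3⟩
    · intro h
      have hx := (h5 v hv u h w (mem_insert_of_mem hw)).2.2
      exact hx ⟨hu2, hu3⟩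
  · rw [Finset.disjoint_left]
    intro x hx hs
    exact (h5 x hs x hx x (mem_insert_self _ _)).1 rfl
  · exact hX1
  · exact hXd
  · intro x hx hx0
    have hxn := hlt x (hXR hx)
    refine hA (p x) (h12 _ (hXp x hx hx0)) ?_ ?_ ?_
    · intro h
      exact (h5 (p x) h x hx (p x) (mem_insert_self _ _)).2.2 ⟨hx0, rfl⟩
    · intro v hv h
      exact (h5 v hv x hx (p x) (mem_insert_of_mem h)).2.2 ⟨hx0, rfl⟩
    · intro h
      have := Finset.card_le_one.1 hX1 (p x) h x hx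
      have := hp x hx0 hxn
      omega
  · intro x hx u hu
    obtain ⟨hu1, hu2, hu3⟩ := mchl41.1 hu
    refine hA u (h12 _ (hXc x hx hu)) ?_ ?_ ?_
    · intro h
      exact (h5 u h x hx u (mem_insert_self _ _)).2.1 ⟨hu2, hu3⟩
    · intro v hv h
      exact (h5 v hv x hx u (mem_insert_of_mem h)).2.1 ⟨hu2, hu3⟩
    · intro h
      have := Finset.card_le_one.1 hX1 u h x hx
      have := hp u hu2 hu1
      omega
  · intro v hv hv1 hv2
    have hpR := hA2 v hv hv1 hv2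
    have hv1' : v ∉ R1 := fun h => hv1 (h12 v h)
    have hv0 := hpos v hv1'
    have hch : v ∈ chl n p (p v) := mchl41.2 ⟨hv, hv0, rfl⟩
    refine hA (p v) hv2 ?_ ?_ ?_
    · intro h
      exact hv1' (hWR (hW (p v) h v (mnb41.2 (Or.inr hch))))
    · intro v' hv' h
      apply hv1
      refine (hR2 _).2 (Or.inr ⟨hv, hv1', ?_⟩)
      rw [hd.top_root v hv hv1' hpR]
      exact hT1 (p v) (hW v' hv' _ h) v hch
    · intro h
      exact hv1' (hXc (p v) h hch)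
  · intro r hr hr0 hr1
    have hrR := hB2 r hr hr0 hr1
    have hrn := hlt r hrR
    have hpr := hp r hr0 hrn
    refine hA r hr ?_ ?_ ?_
    · intro h
      exact hr1 (h12 _ (hWR (hW r h (p r) (mnb41.2 (Or.inl rfl)))))
    · intro v hv h
      exact hr1 ((hR2 _).2 (Or.inr ⟨by omega, fun hh => hr1 (h12 _ hh), hT2 r (hW v hv r h)⟩))
    · intro h
      exact hr1 (h12 _ (hXp r h hr0))

private theorem cR41 {n : ℕ} {p : ℕ → ℕ} {K : ℕ} {R1 R2 T : Finset ℕ} {top : ℕ → ℕ}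
    (hd : Dec n p K R1 top)
    (hR2 : ∀ v, v ∈ R2 ↔ v ∈ R1 ∨ (v < n ∧ v ∉ R1 ∧ top v ∈ T)) :
    R2.card ≤ R1.card + T.card * K := by
  have hsub : R2 ⊆ R1 ∪ T.biUnion fun t => (range n).filter fun v => v ∉ R1 ∧ top v = t := by
    intro v hv
    rw [mem_union, mem_biUnion]
    rcases (hR2 v).1 hv with h | h
    · exact Or.inl h
    · refine Or.inr ⟨top v, h.2.2, ?_⟩
      rw [mem_filter, mem_range]
      exact ⟨h.1, h.2.1, rfl⟩
  refine (card_le_card hsub).trans ((card_union_le _ _).trans (Nat.add_le_add_left ?_ _))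
  exact card_biUnion_le_card_mul _ _ _ fun t _ => hd.size t

private theorem cT41 {n : ℕ} {p : ℕ → ℕ} {D : ℕ} {W : Finset ℕ} (top : ℕ → ℕ)
    (h : ∀ w ∈ W, (chl n p w).card ≤ D) :
    (W.biUnion (chl n p) ∪ W.image fun r => top (p r)).card ≤ W.card * (D + 1) := by
  refine (card_union_le _ _).trans ?_
  have h1 := card_biUnion_le_card_mul W (chl n p) D h
  have h2 : (W.image fun r => top (p r)).card ≤ W.card := card_image_le
  calc _ ≤ W.card * D + W.card := Nat.add_le_add h1 h2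
    _ = W.card * (D + 1) := by ring

private theorem cW41 {n : ℕ} {p : ℕ → ℕ} {e : ℕ} {Sp : Finset ℕ} (he : e ≤ 1)
    (h : ∀ v ∈ Sp, (chl n p v).card = e) : (Sp.biUnion (nb n p)).card ≤ Sp.card * 2 := by
  refine card_biUnion_le_card_mul _ _ _ fun v hv => ?_
  have := card_insert_le (p v) (chl n p v)
  rw [h v hv] at this
  unfold nb
  omega

private theorem ctop41 {n : ℕ} {p : ℕ → ℕ} {D : ℕ} {R1 R2 : Finset ℕ} (h1 : R1 ⊆ range n)
    (h0 : 0 ∈ R2)
    (hA : ∀ v, v < n → v ∉ R2 → p v ∈ R2 → p v ∈ R1) :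
    ((range n).filter fun v => v ∉ R2 ∧ p v ∈ R2).card ≤
      (∑ v ∈ (range n).filter (fun v => D < (chl n p v).card), (chl n p v).card) +
        R1.card * D := by
  have hsub : ((range n).filter fun v => v ∉ R2 ∧ p v ∈ R2) ⊆ R1.biUnion (chl n p) := by
    intro v hv
    rw [mem_filter, mem_range] at hv
    rw [mem_biUnion]
    refine ⟨p v, hA v hv.1 hv.2.1 hv.2.2, mchl41.2 ⟨hv.1, ?_, rfl⟩⟩
    rcases Nat.eq_zero_or_pos v with h | h
    · subst h; exact absurd h0 hv.2.1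
    · exact h
  refine (card_le_card hsub).trans (card_biUnion_le.trans ?_)
  rw [← Finset.sum_filter_add_sum_filter_not R1 (fun v => D < (chl n p v).card)]
  refine Nat.add_le_add ?_ ?_
  · exact Finset.sum_le_sum_of_subset (Finset.filter_subset_filter _ h1)
  · calc ∑ x ∈ R1.filter (fun x => ¬ D < (chl n p x).card), (chl n p x).card
        ≤ ∑ _x ∈ R1.filter (fun x => ¬ D < (chl n p x).card), D := by
          refine Finset.sum_le_sum fun x hx => ?_
          exact not_lt.1 (mem_filter.1 hx).2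
      _ = (R1.filter (fun x => ¬ D < (chl n p x).card)).card * D := by
          rw [Finset.sum_const, smul_eq_mul]
      _ ≤ R1.card * D := Nat.mul_le_mul_right _ (card_filter_le _ _)

private theorem cF41 {n : ℕ} {p : ℕ → ℕ} {R Fl0 : Finset ℕ} (hF : Fl0 ⊆ range n) :
    Fl0.card ≤ (Fl0.filter fun v => v ∉ R ∧ p v ∉ R ∧ ∀ w ∈ chl n p v, w ∉ R).card +
      (R.card + ((range n).filter fun v => v ∉ R ∧ p v ∈ R).card + R.card) := by
  have hsub : Fl0 ⊆ (Fl0.filter fun v => v ∉ R ∧ p v ∉ R ∧ ∀ w ∈ chl n p v, w ∉ R) ∪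
      ((R ∪ ((range n).filter fun v => v ∉ R ∧ p v ∈ R)) ∪ R.image p) := by
    intro v hv
    rw [mem_union, mem_union, mem_union, mem_filter, mem_filter, mem_image]
    by_cases h1 : v ∈ R
    · exact Or.inr (Or.inl (Or.inl h1))
    by_cases h2 : p v ∈ R
    · exact Or.inr (Or.inl (Or.inr ⟨hF hv, h1, h2⟩))
    by_cases h3 : ∃ w ∈ chl n p v, w ∈ R
    · obtain ⟨w, hw, hwR⟩ := h3
      exact Or.inr (Or.inr ⟨w, hwR, (mchl41.1 hw).2.2⟩)
    · refine Or.inl ⟨hv, h1, h2, fun w hw hwR => h3 ⟨w, hw, hwR⟩⟩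
  refine (card_le_card hsub).trans ((card_union_le _ _).trans (Nat.add_le_add_left ?_ _))
  refine (card_union_le _ _).trans (Nat.add_le_add (card_union_le _ _) card_image_le)

private theorem cN41 {n : ℕ} {p : ℕ → ℕ} {D : ℕ} {X : Finset ℕ} (hX : X.card ≤ 1)
    (hD : ∀ x ∈ X, (chl n p x).card ≤ D) :
    (X.biUnion (chl n p) ∪ (X.filter (0 < ·)).image p).card ≤ D + 1 := by
  refine (card_union_le _ _).trans ?_
  have h1 := card_biUnion_le_card_mul X (chl n p) D hD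
  have h2 : ((X.filter (0 < ·)).image p).card ≤ X.card := card_image_le.trans (card_filter_le _ _)
  have h3 : X.card * D ≤ 1 * D := Nat.mul_le_mul_right _ hX
  omega

/-- the final arithmetic -/
private theorem ar41 {D : ℕ} (hD : 1 ≤ D) {τ : ℝ} (hτ : 0 < τ) (K : ℕ) (hK : 8 * D / τ ≤ K)
    (hK2 : 2 ≤ K) {c : ℝ} (hc : c ≤ τ / (24 * (D + 1) * K)) {n s a r1 r2 t σ S0 : ℕ}
    (hn : 8 * D * (D + 3) / τ ≤ n) (hs : (s : ℝ) ≤ c * n) (hσ : (σ : ℝ) ≤ τ * n)
    (ha : a * D ≤ σ) (hS0 : S0 ≤ a + 3 * s + D + 2) (hr1 : r1 * K ≤ 8 * n + 8 * K * (S0 + 1))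
    (hr2 : r2 ≤ r1 + s * 2 * (D + 1) * K) (ht : t ≤ σ + r1 * D) :
    (r2 : ℝ) ≤ 12 * τ * n ∧ (t : ℝ) ≤ 12 * τ * n := by
  have hDr : (1 : ℝ) ≤ D := by exact_mod_cast hD
  have hKr : (2 : ℝ) ≤ K := by exact_mod_cast hK2
  have hn0 : (0 : ℝ) ≤ n := Nat.cast_nonneg n
  have hKp : (0 : ℝ) < K := by linarith
  have ha' : (a : ℝ) * D ≤ σ := by exact_mod_cast ha
  have hS0' : (S0 : ℝ) ≤ a + 3 * s + D + 2 := by exact_mod_cast hS0
  have hr1' : (r1 : ℝ) * K ≤ 8 * n + 8 * K * (S0 + 1) := by exact_mod_cast hr1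
  have hr2' : (r2 : ℝ) ≤ r1 + s * 2 * (D + 1) * K := by exact_mod_cast hr2
  have ht' : (t : ℝ) ≤ σ + r1 * D := by exact_mod_cast ht
  have h8 : 8 * (D : ℝ) ≤ τ * K := by
    rw [div_le_iff₀ hτ] at hK
    linarith
  have hn8 : 8 * (D : ℝ) * (D + 3) ≤ τ * n := by
    rw [div_le_iff₀ hτ] at hn
    linarith
  have hs' : 24 * ((D : ℝ) + 1) * K * s ≤ τ * n := by
    have h1 : (s : ℝ) ≤ τ / (24 * (D + 1) * K) * n :=
      hs.trans (mul_le_mul_of_nonneg_right hc hn0)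
    have h2 : (0 : ℝ) < 24 * (D + 1) * K := by positivity
    rw [div_mul_eq_mul_div, le_div_iff₀ h2] at h1
    linarith
  have hs0 : (0 : ℝ) ≤ s := Nat.cast_nonneg s
  -- r1 * D
  have h1 : (r1 : ℝ) * D ≤ 11 * τ * n := by
    have h2 : (r1 : ℝ) * K * D ≤ (8 * n + 8 * K * (a + 3 * s + D + 3)) * D := by
      apply mul_le_mul_of_nonneg_right _ (by linarith)
      have : 8 * (K : ℝ) * (S0 + 1) ≤ 8 * K * (a + 3 * s + D + 3) := by
        apply mul_le_mul_of_nonneg_left _ (by linarith)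
        linarith
      linarith
    have h3 : 24 * (D : ℝ) * s ≤ τ * n := by
      have : 24 * (D : ℝ) * s ≤ 24 * (D + 1) * K * s := by
        apply mul_le_mul_of_nonneg_right _ hs0
        nlinarith
      linarith
    have h4 : (r1 : ℝ) * D * K ≤ 11 * τ * n * K := by
      have h5 : 8 * (n : ℝ) * D ≤ τ * K * n := by nlinarith
      have h6 : 8 * (K : ℝ) * (a * D) ≤ 8 * K * (τ * n) := by
        apply mul_le_mul_of_nonneg_left _ (by linarith)
        linarith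
      have h7 : (K : ℝ) * (24 * D * s) ≤ K * (τ * n) := mul_le_mul_of_nonneg_left h3 hKp.le
      have h8 : (K : ℝ) * (8 * D * (D + 3)) ≤ K * (τ * n) :=
        mul_le_mul_of_nonneg_left hn8 hKp.le
      calc (r1 : ℝ) * D * K = r1 * K * D := by ring
        _ ≤ _ := h2
        _ = 8 * n * D + 8 * K * (a * D) + K * (24 * D * s) + K * (8 * D * (D + 3)) := by ring
        _ ≤ τ * K * n + 8 * K * (τ * n) + K * (τ * n) + K * (τ * n) := by linarith
        _ = 11 * τ * n * K := by ring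
    exact le_of_mul_le_mul_right h4 hKp
  have hr1D : (r1 : ℝ) ≤ r1 * D := by
    have : (0 : ℝ) ≤ r1 := Nat.cast_nonneg r1
    nlinarith
  have hτn : 0 ≤ τ * n := by positivity
  constructor
  · have : (s : ℝ) * 2 * (D + 1) * K ≤ τ * n := by nlinarith [mul_nonneg (mul_nonneg hs0 (by linarith : (0 : ℝ) ≤ D + 1)) hKp.le]
    linarith
  · linarith

theorem tdecomp (D : ℕ) (hD : 1 ≤ D) (τ : ℝ) (hτ : 0 < τ) (hτ1 : τ ≤ 1 / 1000) :
    ∃ K : ℕ, 2 ≤ K ∧ ∃ c : ℝ, 0 < c ∧ ∃ n₀ : ℕ, ∀ (n : ℕ) (p : ℕ → ℕ), n₀ ≤ n → Par n p →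
      (∀ v, v < n → ((chl n p v).card : ℝ) ≤ c * n) →
      ((∑ v ∈ (range n).filter (fun v => D < (chl n p v).card), (chl n p v).card : ℕ) : ℝ) ≤ τ * n →
      ∀ s : ℕ, (s : ℝ) ≤ c * n → ∃ (e h0 : ℕ) (R Sp X A Fl : Finset ℕ) (top : ℕ → ℕ), e ≤ 1 ∧
        TDec n p e D K R Sp X A top ∧ Sp.card = s ∧ (R.card : ℝ) ≤ 20 * τ * n ∧
        (((range n).filter fun v => v ∉ R ∧ p v ∈ R).card : ℝ) ≤ 20 * τ * n ∧
        Flx n p e R Fl ∧ (n : ℝ) / 16 ≤ Fl.card ∧ (e = 1 → X.Nonempty) ∧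
        (∀ x ∈ X, (e = 0 → Even (dg n p x)) ∧ (e = 1 → dg n p x = 1)) ∧
        (X = ∅ → (∀ v, v < n → Even (dg n p v) → v ∈ A) ∧
          ((∃ v, v < n ∧ Even (dg n p v)) → h0 < n ∧ Even (dg n p h0)) ∧
          ∀ v ∈ Sp, ∀ w ∈ nb n p v, h0 ∉ Ad p A w) := by
  obtain ⟨c2, hc2, n2, hch⟩ := choose_special D hD
  have hDr : (1 : ℝ) ≤ D := by exact_mod_cast hD
  set K : ℕ := ⌈8 * (D : ℝ) / τ⌉₊ + 2 with hKdef
  have hK8 : 8 * (D : ℝ) / τ ≤ K := by
    refine (Nat.le_ceil _).trans (Nat.cast_le.2 ?_)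
    rw [hKdef]
    exact Nat.le_add_right _ 2
  have hK2 : 2 ≤ K := by omega
  have hKp : (0 : ℝ) < K := by
    have : (2 : ℝ) ≤ K := by exact_mod_cast hK2
    linarith
  refine ⟨K, hK2, min c2 (τ / (24 * (D + 1) * K)), lt_min hc2 (by positivity),
    max n2 (⌈8 * (D : ℝ) * (D + 3) / τ⌉₊ + 100), ?_⟩
  intro n p hn hp hdeg hsum s hs
  have hn2 : n2 ≤ n := (le_max_left _ _).trans hn
  have hn3 : ⌈8 * (D : ℝ) * (D + 3) / τ⌉₊ + 100 ≤ n := (le_max_right _ _).trans hn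
  have hn4 : 8 * (D : ℝ) * (D + 3) / τ ≤ n := by
    refine (Nat.le_ceil _).trans ?_
    exact_mod_cast (Nat.le_add_right _ 100).trans hn3
  have hn100 : 100 ≤ n := le_trans (Nat.le_add_left _ _) hn3
  have hnr : (0 : ℝ) ≤ n := Nat.cast_nonneg n
  have hdeg2 : ∀ v, v < n → ((chl n p v).card : ℝ) ≤ c2 * n := fun v hv =>
    (hdeg v hv).trans (mul_le_mul_of_nonneg_right (min_le_left _ _) hnr)
  have hsum2 : ((∑ v ∈ (range n).filter (fun v => D < (chl n p v).card),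
      (chl n p v).card : ℕ) : ℝ) ≤ n / 1000 := by
    refine hsum.trans ?_
    have := mul_le_mul_of_nonneg_right hτ1 hnr
    linarith
  have hs2 : (s : ℝ) ≤ c2 * n := hs.trans (mul_le_mul_of_nonneg_right (min_le_left _ _) hnr)
  obtain ⟨e, h0, X, Sp, Fl0, he, hXn, hX1, hXe, hXx, hXemp, hSpn, hSpc, hSp, hleg, hdj, hna, hXsp,
    hFn, hFc, hF⟩ := hch n p hn2 hp hdeg2 hsum2 s hs2
  set H := (range n).filter (fun v => D < (chl n p v).card) with hH
  set W := Sp.biUnion (nb n p) with hW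
  set NX := X.biUnion (chl n p) ∪ (X.filter (0 < ·)).image p with hNX
  have hWn : W ⊆ range n := by
    intro w hw
    obtain ⟨v, hv, hwv⟩ := mem_biUnion.1 hw
    have hvn := mem_range.1 (hSpn hv)
    rcases mnb41.1 hwv with h | h
    · have := hp v (hSp v hv).1 hvn
      rw [h]; exact mem_range.2 (by omega)
    · exact mem_range.2 (mchl41.1 h).1
  have hNXn : NX ⊆ range n := by
    intro u hu
    rcases mem_union.1 hu with h | h
    · obtain ⟨x, hx, hux⟩ := mem_biUnion.1 h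
      exact mem_range.2 (mchl41.1 hux).1
    · obtain ⟨x, hx, hux⟩ := mem_image.1 h
      obtain ⟨hx1, hx2⟩ := mem_filter.1 hx
      have hxn := mem_range.1 (hXn hx1)
      have := hp x hx2 hxn
      rw [← hux]; exact mem_range.2 (by omega)
  have hS0n : H ∪ Sp ∪ W ∪ X ∪ NX ⊆ range n := by
    refine union_subset (union_subset (union_subset (union_subset ?_ hSpn) hWn) hXn) hNXn
    exact filter_subset _ _
  obtain ⟨R1, top, hdec, hS0R, hR1c⟩ := cutS n p K (H ∪ Sp ∪ W ∪ X ∪ NX) hp (by omega) hK2 hS0n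
  have hHR : H ⊆ R1 := fun v hv => hS0R (by simp only [mem_union]; tauto)
  have hSpR : Sp ⊆ R1 := fun v hv => hS0R (by simp only [mem_union]; tauto)
  have hWR : W ⊆ R1 := fun v hv => hS0R (by simp only [mem_union]; tauto)
  have hXR : X ⊆ R1 := fun v hv => hS0R (by simp only [mem_union]; tauto)
  have hNXR : NX ⊆ R1 := fun v hv => hS0R (by simp only [mem_union]; tauto)
  set T := W.biUnion (chl n p) ∪ W.image (fun r => top (p r)) with hT
  set R := R1 ∪ (range n).filter (fun v => v ∉ R1 ∧ top v ∈ T) with hR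
  have hR2 : ∀ v, v ∈ R ↔ v ∈ R1 ∨ (v < n ∧ v ∉ R1 ∧ top v ∈ T) := by
    intro v
    rw [hR, mem_union, mem_filter, mem_range]
  have hXd : ∀ x ∈ X, (chl n p x).card ≤ D := fun x hx => (hXx x hx).2.1
  have hTD : TDec n p e D K R Sp X (R \ (Sp ∪ W ∪ X)) top := by
    refine tdec41 hp hdec hR2 ?_ ?_ hSpR hWR hXR ?_ ?_ hX1 hXd hSp hleg hdj hna hXsp
    · intro w hw u hu
      exact mem_union_left _ (mem_biUnion.2 ⟨w, hw, hu⟩)
    · intro w hw
      exact mem_union_right _ (mem_image_of_mem (fun r => top (p r)) hw)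
    · intro x hx hx0
      exact hNXR (mem_union_right _ (mem_image_of_mem p (mem_filter.2 ⟨hx, hx0⟩)))
    · intro x hx u hu
      exact hNXR (mem_union_left _ (mem_biUnion.2 ⟨x, hx, hu⟩))
  obtain ⟨_, hA2, _⟩ := addT41 hp hdec hR2
  have hWc : W.card ≤ s * 2 := by
    rw [← hSpc]; exact cW41 he fun v hv => (hSp v hv).2
  have hTc : T.card ≤ s * 2 * (D + 1) := by
    refine (cT41 top ?_).trans (Nat.mul_le_mul_right _ hWc)
    intro w hw
    obtain ⟨v, hv, hwv⟩ := mem_biUnion.1 hw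
    exact (hleg v hv w hwv).2
  have hHc : H.card * D ≤ ∑ v ∈ H, (chl n p v).card := by
    have := Finset.card_nsmul_le_sum H (fun v => (chl n p v).card) D
      fun v hv => (mem_filter.1 hv).2.le
    simpa using this
  have hS0c : (H ∪ Sp ∪ W ∪ X ∪ NX).card ≤ H.card + 3 * s + D + 2 := by
    have a1 := card_union_le (H ∪ Sp ∪ W ∪ X) NX
    have a2 := card_union_le (H ∪ Sp ∪ W) X
    have a3 := card_union_le (H ∪ Sp) W
    have a4 := card_union_le H Sp
    have a5 : NX.card ≤ D + 1 := cN41 hX1 hXd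
    omega
  have hRc : R.card ≤ R1.card + s * 2 * (D + 1) * K :=
    (cR41 hdec hR2).trans (Nat.add_le_add_left (Nat.mul_le_mul_right _ hTc) _)
  have htc : ((range n).filter fun v => v ∉ R ∧ p v ∈ R).card ≤
      (∑ v ∈ H, (chl n p v).card) + R1.card * D :=
    ctop41 hdec.sub ((hR2 0).2 (Or.inl hdec.zero)) hA2
  obtain ⟨hr, ht⟩ := ar41 hD hτ K hK8 hK2 (min_le_right c2 _) hn4 hs hsum hHc hS0c hR1c hRc htc
  have hτn : 0 ≤ τ * n := by positivity
  have hτn1 : τ * n ≤ n / 1000 := by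
    have := mul_le_mul_of_nonneg_right hτ1 hnr
    linarith
  refine ⟨e, h0, R, Sp, X, R \ (Sp ∪ W ∪ X),
    Fl0.filter (fun v => v ∉ R ∧ p v ∉ R ∧ ∀ w ∈ chl n p v, w ∉ R), top, he, hTD, hSpc,
    by linarith, by linarith, ?_, ?_, hXe, ?_, ?_⟩
  · constructor
    · intro v hv; exact mem_range.1 (hFn (mem_filter.1 hv).1)
    · intro v hv; exact (mem_filter.1 hv).2.1
    · intro v hv; exact (hF v (mem_filter.1 hv).1).2.1
    · intro v hv; exact (mem_filter.1 hv).2.2.1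
    · intro v hv h; exact (hF v (mem_filter.1 hv).1).2.2.1 (mem_filter.1 h).1
    · intro v hv w hw
      exact ⟨(mem_filter.1 hv).2.2.2 w hw,
        fun h => (hF v (mem_filter.1 hv).1).2.2.2 w hw (mem_filter.1 h).1⟩
  · have h1 := cF41 (p := p) (R := R) hFn
    have h2 : (Fl0.card : ℝ) ≤
        (Fl0.filter fun v => v ∉ R ∧ p v ∉ R ∧ ∀ w ∈ chl n p v, w ∉ R).card +
        (R.card + ((range n).filter fun v => v ∉ R ∧ p v ∈ R).card + R.card) := by
      exact_mod_cast h1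
    have h3 : (100 : ℝ) ≤ n := by exact_mod_cast hn100
    linarith
  · intro x hx
    exact ⟨(hXx x hx).2.2.1, (hXx x hx).2.2.2⟩
  · intro hX0
    obtain ⟨g1, g2, g3⟩ := hXemp hX0
    refine ⟨?_, g2, ?_⟩
    · intro v hv hev
      have hvD := g1 v hv hev
      have hvR : v ∈ R := (hR2 v).2 (Or.inl (hHR (mem_filter.2 ⟨mem_range.2 hv, hvD⟩)))
      rw [mem_sdiff]
      refine ⟨hvR, ?_⟩
      intro h
      rcases mem_union.1 h with h | h
      · rcases mem_union.1 h with h | h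
        · have := (hSp v h).2
          omega
        · obtain ⟨u, hu, hvu⟩ := mem_biUnion.1 h
          have := (hleg u hu v hvu).2
          omega
      · rw [hX0] at h
        exact absurd h (Finset.notMem_empty v)
    · intro v hv w hw h
      have h' := (mem_filter.1 h).2
      rcases h' with h' | h'
      · exact (g3 v hv w hw).1 ⟨h'.1, h'.2.symm⟩
      · exact (g3 v hv w hw).2 h'

end Pool.Agent.SQ
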