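import Pool.Agent.Helper73.SQ.FIN6
import Pool.Agent.Helper73.SQ.TD3

/-!
# SQ-FIN7: the main theorem for parent functions
-/

set_option autoImplicit false

namespace Pool.Agent.SQ

open Finset Pool.Agent.SEM

theorem main : ∃ τ : ℝ, 0 < τ ∧ ∀ D : ℕ, 1 ≤ D → ∃ δ : ℝ, 0 < δ ∧ ∃ n₀ : ℕ,
    ∀ (n : ℕ) (p : ℕ → ℕ), n₀ ≤ n → Par n p → (∀ v, v < n → ((chl n p v).card : ℝ) ≤ δ * n) →
      ((∑ v ∈ (range n).filter (fun v => D < (chl n p v).card), (chl n p v).card : ℕ) : ℝ) ≤ τ * n →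
      IsSQ n p := by
  obtain ⟨τ0, hτ0, hP⟩ := pack'
  refine ⟨min (τ0 / 1000) (1 / 20000), by positivity, ?_⟩
  set τ1 := min (τ0 / 1000) (1 / 20000) with hτ1
  have h1 : 0 < τ1 := by positivity
  have h2 : 1000 * τ1 ≤ τ0 := by
    have : τ1 ≤ τ0 / 1000 := min_le_left _ _
    linarith
  have h3 : 20000 * τ1 ≤ 1 := by
    have : τ1 ≤ 1 / 20000 := min_le_right _ _
    linarith
  intro D hD
  obtain ⟨K, hK, c, hc, n1, htd⟩ := tdecomp D hD τ1 h1 (by linarith)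
  obtain ⟨c00, hc00, hcore0⟩ := core τ0 τ1 hτ0 h1 h2 h3 hP 0 D K (by omega) hK
  obtain ⟨c01, hc01, hcore1⟩ := core τ0 τ1 hτ0 h1 h2 h3 hP 1 D K (by omega) hK
  set c1 := min c (min c00 c01) with hc1
  have hc1p : 0 < c1 := by positivity
  have hc1c : c1 ≤ c := min_le_left _ _
  obtain ⟨δ0, hδ0, n2, H0⟩ := hcore0 c1 hc1p ((min_le_right _ _).trans (min_le_left _ _))
  obtain ⟨δ1, hδ1, n3, H1⟩ := hcore1 c1 hc1p ((min_le_right _ _).trans (min_le_right _ _))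
  refine ⟨min c (min δ0 δ1), by positivity, max n1 (max n2 n3), ?_⟩
  intro n p hn hp hdeg hsum
  have hnn : (0 : ℝ) ≤ n := Nat.cast_nonneg _
  have e1 : ∀ v, v < n → ((chl n p v).card : ℝ) ≤ c * n := fun v hv =>
    (hdeg v hv).trans (mul_le_mul_of_nonneg_right (min_le_left _ _) hnn)
  have e2 : ∀ v, v < n → ((chl n p v).card : ℝ) ≤ δ0 * n := fun v hv =>
    (hdeg v hv).trans (mul_le_mul_of_nonneg_right ((min_le_right _ _).trans (min_le_left _ _)) hnn)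
  have e3 : ∀ v, v < n → ((chl n p v).card : ℝ) ≤ δ1 * n := fun v hv =>
    (hdeg v hv).trans (mul_le_mul_of_nonneg_right ((min_le_right _ _).trans (min_le_right _ _)) hnn)
  obtain ⟨e, h0, R, Sp, X, A, Fl, top, he, hTD, hSp, hR, hT, hFlx, hFl, hXe, hX2, hX0⟩ :=
    htd n p ((le_max_left _ _).trans hn) hp e1 hsum ⌊c1 * n⌋₊
      ((Nat.floor_le (by positivity)).trans (mul_le_mul_of_nonneg_right hc1c hnn))
  have he' : e = 0 ∨ e = 1 := by omega
  rcases he' with rfl | rfl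
  · exact H0 n p top h0 R Sp X A Fl ((le_max_left _ _).trans ((le_max_right _ _).trans hn)) hp e2 hTD
      hSp hR hT hFlx hFl hXe hX2 hX0
  · exact H1 n p top h0 R Sp X A Fl ((le_max_right _ _).trans ((le_max_right _ _).trans hn)) hp e3 hTD
      hSp hR hT hFlx hFl hXe hX2 hX0

end Pool.Agent.SQ
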