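import Pool.Agent.Helper73.SQ.FED

/-!
# SQ-FN1: partial embeddings (basic lemmas)
-/

set_option autoImplicit false

namespace Pool.Agent.SQ

open Finset Pool.Agent.SEM

/-- vertices of the unit `v` -/
def VU (n : ℕ) (p : ℕ → ℕ) (v : ℕ) : Finset ℕ := insert v (nb n p v)

/-- edges incident with a leg of `v` -/
def EU (n : ℕ) (p : ℕ → ℕ) (v : ℕ) : Finset ℕ :=
  (Ico 1 n).filter fun i => i ∈ nb n p v ∨ p i ∈ nb n p v

/-- edges incident with `x` -/
def EX (n : ℕ) (p : ℕ → ℕ) (x : ℕ) : Finset ℕ := (Ico 1 n).filter fun i => i = x ∨ p i = x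

theorem mem_vs {p f : ℕ → ℕ} {A B : Finset ℕ} {t : ℕ} :
    t ∈ vs p f A B ↔ (∃ a ∈ A, f a = t) ∨ ∃ b ∈ B, f b + f (p b) = t := by
  unfold vs
  rw [mem_union, mem_image, mem_image]

theorem vs_congr {p f f' : ℕ → ℕ} {A B : Finset ℕ} (hA : ∀ v ∈ A, f' v = f v)
    (hB : ∀ i ∈ B, f' i = f i ∧ f' (p i) = f (p i)) : vs p f' A B = vs p f A B := by
  unfold vs
  congr 1
  · exact image_congr fun v hv => hA v hv
  · refine image_congr fun i hi => ?_
    have := hB i hi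
    rw [this.1, this.2]

theorem Emb.congr {p f f' : ℕ → ℕ} {A B : Finset ℕ} (h : Emb p f A B)
    (hA : ∀ v ∈ A, f' v = f v) (hB : ∀ i ∈ B, f' i = f i ∧ f' (p i) = f (p i)) :
    Emb p f' A B := by
  refine ⟨?_, ?_, ?_⟩
  · intro a ha b hb hab
    rw [hA a ha, hA b hb] at hab
    exact h.lab ha hb hab
  · intro a ha b hb hab
    simp only at hab
    rw [(hB a ha).1, (hB a ha).2, (hB b hb).1, (hB b hb).2] at hab
    exact h.sum ha hb hab
  · intro a ha b hb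
    rw [hA a ha, (hB b hb).1, (hB b hb).2]
    exact h.ne a ha b hb

theorem Emb.empty {p f : ℕ → ℕ} : Emb p f ∅ ∅ :=
  ⟨by simp, by simp, by simp⟩

theorem vs_union {p f : ℕ → ℕ} {A B A' B' : Finset ℕ} :
    vs p f (A ∪ A') (B ∪ B') = vs p f A B ∪ vs p f A' B' := by
  ext t
  simp only [mem_union, mem_vs]
  constructor
  · rintro (⟨a, ha, h⟩ | ⟨b, hb, h⟩)
    · rcases ha with ha | ha
      · exact Or.inl (Or.inl ⟨a, ha, h⟩)
      · exact Or.inr (Or.inl ⟨a, ha, h⟩)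
    · rcases hb with hb | hb
      · exact Or.inl (Or.inr ⟨b, hb, h⟩)
      · exact Or.inr (Or.inr ⟨b, hb, h⟩)
  · rintro ((⟨a, ha, h⟩ | ⟨b, hb, h⟩) | (⟨a, ha, h⟩ | ⟨b, hb, h⟩))
    · exact Or.inl ⟨a, Or.inl ha, h⟩
    · exact Or.inr ⟨b, Or.inl hb, h⟩
    · exact Or.inl ⟨a, Or.inr ha, h⟩
    · exact Or.inr ⟨b, Or.inr hb, h⟩

theorem Emb.union {p f : ℕ → ℕ} {A B A' B' : Finset ℕ} (h : Emb p f A B) (h' : Emb p f A' B')
    (hd : Disjoint (vs p f A B) (vs p f A' B')) : Emb p f (A ∪ A') (B ∪ B') := by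
  rw [Finset.disjoint_left] at hd
  have hA : ∀ a ∈ A, f a ∈ vs p f A B := fun a ha => mem_vs.2 (Or.inl ⟨a, ha, rfl⟩)
  have hB : ∀ b ∈ B, f b + f (p b) ∈ vs p f A B := fun b hb => mem_vs.2 (Or.inr ⟨b, hb, rfl⟩)
  have hA' : ∀ a ∈ A', f a ∈ vs p f A' B' := fun a ha => mem_vs.2 (Or.inl ⟨a, ha, rfl⟩)
  have hB' : ∀ b ∈ B', f b + f (p b) ∈ vs p f A' B' := fun b hb => mem_vs.2 (Or.inr ⟨b, hb, rfl⟩)
  refine ⟨?_, ?_, ?_⟩
  · intro a ha b hb hab
    rw [mem_coe, mem_union] at ha hb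
    rcases ha with ha | ha <;> rcases hb with hb | hb
    · exact h.lab ha hb hab
    · exact absurd (by rw [hab]; exact hA' b hb) (hd (hA a ha))
    · exact absurd (by rw [← hab]; exact hA' a ha) (hd (hA b hb))
    · exact h'.lab ha hb hab
  · intro a ha b hb hab
    rw [mem_coe, mem_union] at ha hb
    simp only at hab
    rcases ha with ha | ha <;> rcases hb with hb | hb
    · exact h.sum ha hb hab
    · exact absurd (by rw [hab]; exact hB' b hb) (hd (hB a ha))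
    · exact absurd (by rw [← hab]; exact hB' a ha) (hd (hB b hb))
    · exact h'.sum ha hb hab
  · intro a ha b hb hab
    rw [mem_union] at ha hb
    rcases ha with ha | ha <;> rcases hb with hb | hb
    · exact h.ne a ha b hb hab
    · exact absurd (by rw [hab]; exact hB' b hb) (hd (hA a ha))
    · exact absurd (by rw [← hab]; exact hA' a ha) (hd (hB b hb))
    · exact h'.ne a ha b hb hab

theorem vs_biUnion {p f : ℕ → ℕ} {A B : ℕ → Finset ℕ} (S : Finset ℕ) :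
    vs p f (S.biUnion A) (S.biUnion B) = S.biUnion fun v => vs p f (A v) (B v) := by
  ext t
  simp only [mem_vs, mem_biUnion]
  constructor
  · rintro (⟨a, ⟨v, hv, ha⟩, h⟩ | ⟨b, ⟨v, hv, hb⟩, h⟩)
    · exact ⟨v, hv, Or.inl ⟨a, ha, h⟩⟩
    · exact ⟨v, hv, Or.inr ⟨b, hb, h⟩⟩
  · rintro ⟨v, hv, (⟨a, ha, h⟩ | ⟨b, hb, h⟩)⟩
    · exact Or.inl ⟨a, ⟨v, hv, ha⟩, h⟩
    · exact Or.inr ⟨b, ⟨v, hv, hb⟩, h⟩

theorem Emb.biUnion {p f : ℕ → ℕ} {A B : ℕ → Finset ℕ} (S : Finset ℕ)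
    (h : ∀ v ∈ S, Emb p f (A v) (B v))
    (hd : ∀ v ∈ S, ∀ v' ∈ S, v ≠ v' → Disjoint (vs p f (A v) (B v)) (vs p f (A v') (B v'))) :
    Emb p f (S.biUnion A) (S.biUnion B) := by
  classical
  induction S using Finset.induction_on with
  | empty => simpa using Emb.empty
  | insert a s ha ih =>
    rw [biUnion_insert, biUnion_insert]
    refine Emb.union (h a (mem_insert_self _ _)) (ih (fun v hv => h v (mem_insert_of_mem hv))
      (fun v hv v' hv' => hd v (mem_insert_of_mem hv) v' (mem_insert_of_mem hv'))) ?_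
    rw [vs_biUnion, disjoint_biUnion_right]
    intro v hv
    refine hd a (mem_insert_self _ _) v (mem_insert_of_mem hv) ?_
    rintro rfl
    exact ha hv

theorem Emb.card {p f : ℕ → ℕ} {A B : Finset ℕ} (h : Emb p f A B) :
    (vs p f A B).card = A.card + B.card := by
  unfold vs
  rw [card_union_of_disjoint, card_image_of_injOn h.lab, card_image_of_injOn h.sum]
  rw [Finset.disjoint_left]
  intro t ht ht'
  rw [mem_image] at ht ht'
  obtain ⟨a, ha, rfl⟩ := ht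
  obtain ⟨b, hb, hb'⟩ := ht'
  exact h.ne a ha b hb hb'.symm

theorem Emb.sum_vs {p f : ℕ → ℕ} {A B : Finset ℕ} (h : Emb p f A B) :
    ∑ t ∈ vs p f A B, t = ∑ v ∈ A, f v + ∑ i ∈ B, (f i + f (p i)) := by
  unfold vs
  rw [sum_union, sum_image h.lab, sum_image h.sum]
  rw [Finset.disjoint_left]
  intro t ht ht'
  rw [mem_image] at ht ht'
  obtain ⟨a, ha, rfl⟩ := ht
  obtain ⟨b, hb, hb'⟩ := ht'
  exact h.ne a ha b hb hb'.symm

end Pool.Agent.SQ
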