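import Pool.Agent.Helper73.SQ.FN1

/-!
# SQ-FN2: vertices and edges of the decomposed tree (partition and count)

Proof in words.  Let `W = Sp.biUnion (nb n p)` (the legs).  Vertices: `v ∉ R` is in `MV` (`top v` is a top: walk up with `top_step`, `top_root` while `p v ∉ R`; strong induction);
`v ∈ R` is in `Sp`, `W`, `X` or `A`.  These are disjoint.  Edges `i` (`0 < i < n`): `i ∉ R`: `EM`.  `i ∈ R`, `p i ∉ R`: `EM`.  `i, p i ∈ R`: if `i ∈ W` or `p i ∈ W`:
`EU`; `i ∈ Sp` gives `p i ∈ W`; `p i ∈ Sp` gives `i ∈ W`; if `i ∈ X` or `p i ∈ X`: `EX`; otherwise both are in `A`.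
Count: the unit `v` has `e + 2` vertices (`|nb v| = e + 1`: `p v < v < ` children), and the edges of `EU v` are: the `e + 1` edges between `v` and its legs
(`v` itself and its children), and for each leg `w` the edges between `w` and `Ad p A w` (`leg_par`, `leg_chl`: a neighbour of `w` is `v` or in `A`).  The sets `EU v`, `v ∈ Sp`, are pairwise
disjoint (legs of different `v` are different and not adjacent) and disjoint from `EM`, `EX x`, `Ed p A`; `|EX x| = |Ad p A x|`.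
-/

set_option autoImplicit false

namespace Pool.Agent.SQ

open Finset Pool.Agent.SEM

private theorem h24_top {n : ℕ} {p : ℕ → ℕ} {K : ℕ} {R T : Finset ℕ} {top : ℕ → ℕ} (hp : Par n p)
    (hD : Dec n p K R top) (hT : T = (range n).filter fun τ => τ ∉ R ∧ p τ ∈ R) :
    ∀ v, v < n → v ∉ R → top v ∈ T := by
  intro v
  induction v using Nat.strong_induction_on with
  | _ v ih =>
    intro hv hR
    by_cases hpR : p v ∈ R
    · rw [hD.top_root v hv hR hpR, hT]
      exact mem_filter.mpr ⟨mem_range.mpr hv, hR, hpR⟩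
    · have h0 : 0 < v := by
        rcases Nat.eq_zero_or_pos v with h | h
        · rw [h] at hR
          exact absurd hD.zero hR
        · exact h
      rw [hD.top_step v hv hR hpR]
      exact ih (p v) (hp v h0 hv) ((hp v h0 hv).trans hv) hpR

private theorem h24_lt {n : ℕ} {p : ℕ → ℕ} {e D K : ℕ} {R Sp X A : Finset ℕ} {top : ℕ → ℕ}
    (h : TDec n p e D K R Sp X A top) {v : ℕ} (hv : v ∈ R) : v < n :=
  mem_range.mp (h.dec.sub hv)

private theorem h24_AR {n : ℕ} {p : ℕ → ℕ} {e D K : ℕ} {R Sp X A : Finset ℕ} {top : ℕ → ℕ}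
    (h : TDec n p e D K R Sp X A top) {v : ℕ} : v ∈ A ↔
      v ∈ R ∧ v ∉ Sp ∧ (∀ u ∈ Sp, v ∉ nb n p u) ∧ v ∉ X := by
  rw [h.Aeq, mem_sdiff, mem_union, mem_union, mem_biUnion]
  constructor
  · rintro ⟨h1, h2⟩
    rw [not_or, not_or] at h2
    exact ⟨h1, h2.1.1, fun u hu h3 => h2.1.2 ⟨u, hu, h3⟩, h2.2⟩
  · rintro ⟨h1, h2, h3, h4⟩
    refine ⟨h1, ?_⟩
    rintro ((h5 | ⟨u, hu, h5⟩) | h5)
    · exact h2 h5
    · exact h3 u hu h5
    · exact h4 h5

private theorem h24_chl {n : ℕ} {p : ℕ → ℕ} {v i : ℕ} : i ∈ chl n p v ↔ i < n ∧ 0 < i ∧ p i = v := by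
  unfold chl
  rw [mem_filter, mem_range]

private theorem h24_nb {n : ℕ} {p : ℕ → ℕ} {v i : ℕ} :
    i ∈ nb n p v ↔ i = p v ∨ (i < n ∧ 0 < i ∧ p i = v) := by
  unfold nb
  rw [mem_insert, h24_chl]

private theorem h24_EX {n : ℕ} {p : ℕ → ℕ} {x i : ℕ} :
    i ∈ EX n p x ↔ (1 ≤ i ∧ i < n) ∧ (i = x ∨ p i = x) := by
  unfold EX
  rw [mem_filter, mem_Ico]

theorem part {n : ℕ} {p : ℕ → ℕ} {e D K : ℕ} {R Sp X A T : Finset ℕ} {top : ℕ → ℕ} (hp : Par n p)
    (h : TDec n p e D K R Sp X A top) (hT : T = (range n).filter fun τ => τ ∉ R ∧ p τ ∈ R) :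
    range n = A ∪ MV n R top T ∪ Sp.biUnion (VU n p) ∪ X ∧
    Ico 1 n = Ed p A ∪ EM n p R top T ∪ Sp.biUnion (EU n p) ∪ X.biUnion (EX n p) := by
  have htop := h24_top hp h.dec hT
  constructor
  · ext v
    rw [mem_range, mem_union, mem_union, mem_union, mem_biUnion]
    constructor
    · intro hv
      by_cases hR : v ∈ R
      · by_cases hX : v ∈ X
        · exact Or.inr hX
        · refine Or.inl ?_
          by_cases hS : v ∈ Sp
          · exact Or.inr ⟨v, hS, mem_insert_self _ _⟩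
          · by_cases hW : ∃ u ∈ Sp, v ∈ nb n p u
            · obtain ⟨u, hu, hW⟩ := hW
              exact Or.inr ⟨u, hu, mem_insert_of_mem hW⟩
            · refine Or.inl (Or.inl ((h24_AR h).mpr ⟨hR, hS, fun u hu h3 => hW ⟨u, hu, h3⟩, hX⟩))
      · refine Or.inl (Or.inl (Or.inr ?_))
        exact mem_filter.mpr ⟨mem_range.mpr hv, hR, htop v hv hR⟩
    · rintro (((h1 | h1) | ⟨u, hu, h1⟩) | h1)
      · exact h24_lt h ((h24_AR h).mp h1).1
      · exact mem_range.mp (mem_filter.mp h1).1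
      · rcases mem_insert.mp h1 with rfl | h1
        · exact h24_lt h (h.spR hu)
        · exact h24_lt h (h.leg_in u hu v h1).1
      · exact h24_lt h (h.XR h1)
  · ext i
    rw [mem_Ico, mem_union, mem_union, mem_union, mem_biUnion, mem_biUnion]
    constructor
    · rintro ⟨h1, h2⟩
      have hpi : p i < i := hp i h1 h2
      by_cases hR : i ∈ R
      · by_cases hR' : p i ∈ R
        · by_cases hX : i ∈ X
          · exact Or.inr ⟨i, hX, h24_EX.mpr ⟨⟨h1, h2⟩, Or.inl rfl⟩⟩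
          by_cases hX' : p i ∈ X
          · exact Or.inr ⟨p i, hX', h24_EX.mpr ⟨⟨h1, h2⟩, Or.inr rfl⟩⟩
          refine Or.inl ?_
          by_cases hW : ∃ u ∈ Sp, i ∈ nb n p u ∨ p i ∈ nb n p u
          · obtain ⟨u, hu, hW⟩ := hW
            exact Or.inr ⟨u, hu, mem_filter.mpr ⟨mem_Ico.mpr ⟨h1, h2⟩, hW⟩⟩
          by_cases hS : i ∈ Sp
          · exact absurd ⟨i, hS, Or.inr (h24_nb.mpr (Or.inl rfl))⟩ hW
          by_cases hS' : p i ∈ Sp
          · exact absurd ⟨p i, hS', Or.inl (h24_nb.mpr (Or.inr ⟨h2, h1, rfl⟩))⟩ hW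
          refine Or.inl (Or.inl (mem_filter.mpr ⟨(h24_AR h).mpr ⟨hR, hS, ?_, hX⟩, h1,
            (h24_AR h).mpr ⟨hR', hS', ?_, hX'⟩⟩))
          · exact fun u hu h3 => hW ⟨u, hu, Or.inl h3⟩
          · exact fun u hu h3 => hW ⟨u, hu, Or.inr h3⟩
        · exact Or.inl (Or.inl (Or.inr (mem_filter.mpr ⟨mem_range.mpr h2, h1,
            Or.inr ⟨hR, hR', htop (p i) (hpi.trans h2) hR'⟩⟩)))
      · exact Or.inl (Or.inl (Or.inr (mem_filter.mpr ⟨mem_range.mpr h2, h1,
          Or.inl ⟨hR, htop i h2 hR⟩⟩)))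
    · rintro (((h1 | h1) | ⟨u, hu, h1⟩) | ⟨u, hu, h1⟩)
      · have h2 := mem_filter.mp h1
        exact ⟨h2.2.1, h24_lt h ((h24_AR h).mp h2.1).1⟩
      · have h2 := mem_filter.mp h1
        exact ⟨h2.2.1, mem_range.mp h2.1⟩
      · exact mem_Ico.mp (mem_filter.mp h1).1
      · exact (h24_EX.mp h1).1

private theorem h24_cardEX {n : ℕ} {p : ℕ → ℕ} (hp : Par n p) {w : ℕ} (hw : w < n) :
    (EX n p w).card = (Ad p (range n) w).card := by
  have hwc : w ∉ chl n p w := by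
    rw [h24_chl]
    rintro ⟨h1, h2, h3⟩
    have := hp w h2 h1
    omega
  have hpc : 0 < w → p w ∉ chl n p w := by
    intro h0
    rw [h24_chl]
    rintro ⟨h1, h2, h3⟩
    have h4 := hp (p w) h2 h1
    have h5 := hp w h0 hw
    omega
  rcases Nat.eq_zero_or_pos w with h0 | h0
  · have e1 : EX n p w = chl n p w := by
      ext i
      rw [h24_EX, h24_chl]
      constructor
      · rintro ⟨⟨h1, h2⟩, h3 | h3⟩
        · omega
        · exact ⟨h2, h1, h3⟩
      · rintro ⟨h1, h2, h3⟩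
        exact ⟨⟨h2, h1⟩, Or.inr h3⟩
    have e2 : Ad p (range n) w = chl n p w := by
      ext i
      unfold Ad
      rw [mem_filter, mem_range, h24_chl]
      constructor
      · rintro ⟨h1, ⟨h2, h3⟩ | ⟨h2, h3⟩⟩
        · omega
        · exact ⟨h1, h2, h3⟩
      · rintro ⟨h1, h2, h3⟩
        exact ⟨h1, Or.inr ⟨h2, h3⟩⟩
    rw [e1, e2]
  · have e1 : EX n p w = insert w (chl n p w) := by
      ext i
      rw [h24_EX, mem_insert, h24_chl]
      constructor
      · rintro ⟨⟨h1, h2⟩, h3 | h3⟩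
        · exact Or.inl h3
        · exact Or.inr ⟨h2, h1, h3⟩
      · rintro (rfl | ⟨h1, h2, h3⟩)
        · exact ⟨⟨h0, hw⟩, Or.inl rfl⟩
        · exact ⟨⟨h2, h1⟩, Or.inr h3⟩
    have e2 : Ad p (range n) w = insert (p w) (chl n p w) := by
      ext i
      unfold Ad
      rw [mem_filter, mem_range, mem_insert, h24_chl]
      constructor
      · rintro ⟨h1, ⟨h2, h3⟩ | ⟨h2, h3⟩⟩
        · exact Or.inl h3
        · exact Or.inr ⟨h1, h2, h3⟩
      · rintro (rfl | ⟨h1, h2, h3⟩)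
        · exact ⟨(hp w h0 hw).trans hw, Or.inl ⟨h0, rfl⟩⟩
        · exact ⟨h1, Or.inr ⟨h2, h3⟩⟩
    rw [e1, e2, card_insert_of_notMem hwc, card_insert_of_notMem (hpc h0)]

/-- the neighbours of a leg or of a vertex of `X` are in `A` or in `Sp` -/
private theorem h24_N {n : ℕ} {p : ℕ → ℕ} {e D K : ℕ} {R Sp X A : Finset ℕ} {top : ℕ → ℕ}
    (h : TDec n p e D K R Sp X A top) {C : Finset ℕ} (hC : C = Sp.biUnion (nb n p) ∪ X) :
    ∀ w ∈ C, (0 < w → p w ∈ A ∨ p w ∈ Sp) ∧ ∀ i, 0 < i → i < n → p i = w → i ∈ A ∨ i ∈ Sp := by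
  intro w hw
  rw [hC, mem_union, mem_biUnion] at hw
  rcases hw with ⟨v, hv, hw⟩ | hw
  · refine ⟨fun h0 => ?_, fun i h1 h2 h3 => ?_⟩
    · rcases h.leg_par v hv w hw h0 with h4 | h4
      · rw [h4]
        exact Or.inr hv
      · exact Or.inl h4
    · rcases h.leg_chl v hv w hw i (h24_chl.mpr ⟨h2, h1, h3⟩) with h4 | h4
      · rw [h4]
        exact Or.inr hv
      · exact Or.inl h4
  · exact ⟨fun h0 => Or.inl (h.X_par w hw h0),
      fun i h1 h2 h3 => Or.inl (h.X_chl w hw (h24_chl.mpr ⟨h2, h1, h3⟩))⟩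

private theorem h24_CA {n : ℕ} {p : ℕ → ℕ} {e D K : ℕ} {R Sp X A : Finset ℕ} {top : ℕ → ℕ}
    (h : TDec n p e D K R Sp X A top) {C : Finset ℕ} (hC : C = Sp.biUnion (nb n p) ∪ X) :
    ∀ w ∈ C, w ∈ R ∧ w ∉ A ∧ w ∉ Sp := by
  intro w hw
  rw [hC, mem_union, mem_biUnion] at hw
  rcases hw with ⟨v, hv, hw⟩ | hw
  · have h1 := h.leg_in v hv w hw
    exact ⟨h1.1, fun h2 => ((h24_AR h).mp h2).2.2.1 v hv hw, h1.2.1⟩
  · exact ⟨h.XR hw, fun h2 => ((h24_AR h).mp h2).2.2.2 hw,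
      fun h2 => disjoint_left.mp h.XSp hw h2⟩

private theorem h24_cardleg {n : ℕ} {p : ℕ → ℕ} {e D K : ℕ} {R Sp X A : Finset ℕ} {top : ℕ → ℕ}
    (hp : Par n p) (h : TDec n p e D K R Sp X A top) {v w : ℕ} (hv : v ∈ Sp) (hw : w ∈ nb n p v) :
    (EX n p w).card = 1 + (Ad p A w).card := by
  have hwR := (h.leg_in v hv w hw).1
  have hvR := h.spR hv
  have e1 : Ad p (range n) w = insert v (Ad p A w) := by
    ext i
    unfold Ad
    rw [mem_filter, mem_range, mem_insert, mem_filter]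
    constructor
    · rintro ⟨h1, ⟨h2, h3⟩ | ⟨h2, h3⟩⟩
      · rcases h.leg_par v hv w hw h2 with h4 | h4
        · exact Or.inl (h3.trans h4)
        · exact Or.inr ⟨h3 ▸ h4, Or.inl ⟨h2, h3⟩⟩
      · rcases h.leg_chl v hv w hw i (h24_chl.mpr ⟨h1, h2, h3⟩) with h4 | h4
        · exact Or.inl h4
        · exact Or.inr ⟨h4, Or.inr ⟨h2, h3⟩⟩
    · rintro (rfl | ⟨h1, h2⟩)
      · refine ⟨h24_lt h hvR, ?_⟩
        rcases h24_nb.mp hw with h3 | ⟨h3, h4, h5⟩
        · exact Or.inr ⟨h.sp_pos _ hv, h3.symm⟩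
        · exact Or.inl ⟨h4, h5.symm⟩
      · exact ⟨h24_lt h ((h24_AR h).mp h1).1, h2⟩
  rw [h24_cardEX hp (h24_lt h hwR), e1, card_insert_of_notMem, add_comm]
  intro h1
  exact ((h24_AR h).mp (mem_filter.mp h1).1).2.1 hv

private theorem h24_cardX {n : ℕ} {p : ℕ → ℕ} {e D K : ℕ} {R Sp X A : Finset ℕ} {top : ℕ → ℕ}
    (hp : Par n p) (h : TDec n p e D K R Sp X A top) {x : ℕ} (hx : x ∈ X) :
    (EX n p x).card = (Ad p A x).card := by
  have e1 : Ad p (range n) x = Ad p A x := by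
    ext i
    unfold Ad
    rw [mem_filter, mem_range, mem_filter]
    constructor
    · rintro ⟨h1, ⟨h2, h3⟩ | ⟨h2, h3⟩⟩
      · exact ⟨h3 ▸ h.X_par x hx h2, Or.inl ⟨h2, h3⟩⟩
      · exact ⟨h.X_chl x hx (h24_chl.mpr ⟨h1, h2, h3⟩), Or.inr ⟨h2, h3⟩⟩
    · rintro ⟨h1, h2⟩
      exact ⟨h24_lt h ((h24_AR h).mp h1).1, h2⟩
  rw [h24_cardEX hp (h24_lt h (h.XR hx)), e1]

private theorem h24_cardVU {n : ℕ} {p : ℕ → ℕ} {e D K : ℕ} {R Sp X A : Finset ℕ} {top : ℕ → ℕ}
    (hp : Par n p) (h : TDec n p e D K R Sp X A top) {v : ℕ} (hv : v ∈ Sp) :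
    (VU n p v).card = e + 2 := by
  have h0 := h.sp_pos v hv
  have hn := h24_lt h (h.spR hv)
  have h1 := hp v h0 hn
  unfold VU nb
  rw [card_insert_of_notMem, card_insert_of_notMem, h.sp_chl v hv]
  · rw [h24_chl]
    rintro ⟨h2, h3, h4⟩
    have := hp (p v) h3 h2
    omega
  · rw [mem_insert, h24_chl]
    rintro (h2 | ⟨h2, h3, h4⟩) <;> omega

theorem count {n : ℕ} {p : ℕ → ℕ} {e D K : ℕ} {R Sp X A T : Finset ℕ} {top : ℕ → ℕ} (hn : 0 < n)
    (hp : Par n p) (h : TDec n p e D K R Sp X A top)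
    (hT : T = (range n).filter fun τ => τ ∉ R ∧ p τ ∈ R) :
    2 * n = 1 + (A.card + (Ed p A).card) + ((MV n R top T).card + (EM n p R top T).card) +
      ∑ v ∈ Sp, (e + 2 + ∑ w ∈ nb n p v, (1 + (Ad p A w).card)) +
      ∑ x ∈ X, (1 + (Ad p A x).card) := by
  obtain ⟨hV, hE⟩ := part hp h hT
  obtain ⟨C, hC⟩ : ∃ C : Finset ℕ, C = Sp.biUnion (nb n p) ∪ X := ⟨_, rfl⟩
  have hN := h24_N h hC
  have hCA := h24_CA h hC
  have AR := fun {v : ℕ} (hv : v ∈ A) => ((h24_AR h).mp hv).1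
  have c1 : n = A.card + (MV n R top T).card + ∑ v ∈ Sp, (e + 2) + X.card := by
    have h1 := congrArg card hV
    rw [card_range] at h1
    refine h1.trans ?_
    rw [card_union_of_disjoint, card_union_of_disjoint, card_union_of_disjoint, card_biUnion]
    · rw [sum_congr rfl fun v hv => h24_cardVU hp h hv]
    · intro v hv v' hv' hne
      rw [Function.onFun, disjoint_left]
      intro t h2 h3
      rcases mem_insert.mp h2 with rfl | h2 <;> rcases mem_insert.mp h3 with h3 | h3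
      · exact hne h3
      · exact (h.leg_in v' hv' t h3).2.1 hv
      · rw [h3] at h2
        exact (h.leg_in v hv v' h2).2.1 hv'
      · exact disjoint_left.mp (h.leg_dj v hv v' hv' hne) h2 h3
    · rw [disjoint_left]
      intro t h2 h3
      exact (mem_filter.mp h3).2.1 (AR h2)
    · rw [disjoint_left]
      intro t h2 h3
      obtain ⟨v, hv, h3⟩ := mem_biUnion.mp h3
      have h4 : t ∈ R := by
        rcases mem_insert.mp h3 with rfl | h3
        · exact h.spR hv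
        · exact (h.leg_in v hv t h3).1
      rcases mem_union.mp h2 with h2 | h2
      · have h5 := (h24_AR h).mp h2
        rcases mem_insert.mp h3 with rfl | h3
        · exact h5.2.1 hv
        · exact h5.2.2.1 v hv h3
      · exact (mem_filter.mp h2).2.1 h4
    · rw [disjoint_left]
      intro t h2 h3
      rcases mem_union.mp h2 with h2 | h2
      · rcases mem_union.mp h2 with h2 | h2
        · exact ((h24_AR h).mp h2).2.2.2 h3
        · exact (mem_filter.mp h2).2.1 (h.XR h3)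
      · obtain ⟨v, hv, h2⟩ := mem_biUnion.mp h2
        rcases mem_insert.mp h2 with rfl | h2
        · exact disjoint_left.mp h.XSp h3 hv
        · exact (h.leg_in v hv t h2).2.2.1 h3
  have eC : Sp.biUnion (EU n p) ∪ X.biUnion (EX n p) = C.biUnion (EX n p) := by
    rw [hC]
    ext i
    rw [mem_union, mem_biUnion, mem_biUnion, mem_biUnion]
    constructor
    · rintro (⟨v, hv, hi⟩ | ⟨x, hx, hi⟩)
      · obtain ⟨h1, h2 | h2⟩ := mem_filter.mp hi
        · exact ⟨i, mem_union_left _ (mem_biUnion.mpr ⟨v, hv, h2⟩),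
            h24_EX.mpr ⟨mem_Ico.mp h1, Or.inl rfl⟩⟩
        · exact ⟨p i, mem_union_left _ (mem_biUnion.mpr ⟨v, hv, h2⟩),
            h24_EX.mpr ⟨mem_Ico.mp h1, Or.inr rfl⟩⟩
      · exact ⟨x, mem_union_right _ hx, hi⟩
    · rintro ⟨w, hw, hi⟩
      rcases mem_union.mp hw with hw | hw
      · obtain ⟨v, hv, hw⟩ := mem_biUnion.mp hw
        obtain ⟨h1, h2⟩ := h24_EX.mp hi
        refine Or.inl ⟨v, hv, mem_filter.mpr ⟨mem_Ico.mpr h1, ?_⟩⟩
        rcases h2 with rfl | rfl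
        · exact Or.inl hw
        · exact Or.inr hw
      · exact Or.inr ⟨w, hw, hi⟩
  have c2 : (Ico 1 n).card = (Ed p A).card + (EM n p R top T).card +
      (∑ v ∈ Sp, ∑ w ∈ nb n p v, (1 + (Ad p A w).card) + ∑ x ∈ X, (Ad p A x).card) := by
    have e2 : ∑ v ∈ Sp, ∑ w ∈ nb n p v, (1 + (Ad p A w).card) + ∑ x ∈ X, (Ad p A x).card =
        (C.biUnion (EX n p)).card := by
      rw [card_biUnion, hC, sum_union, sum_biUnion]
      · congr 1
        · refine sum_congr rfl fun v hv => sum_congr rfl fun w hw => ?_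
          rw [h24_cardleg hp h hv hw]
        · refine sum_congr rfl fun x hx => ?_
          rw [h24_cardX hp h hx]
      · intro v hv v' hv' hne
        exact h.leg_dj v hv v' hv' hne
      · rw [disjoint_left]
        intro t h2 h3
        obtain ⟨v, hv, h2⟩ := mem_biUnion.mp h2
        exact (h.leg_in v hv t h2).2.2.1 h3
      · intro w hw w' hw' hne
        rw [Function.onFun, disjoint_left]
        intro i h2 h3
        obtain ⟨⟨a1, a2⟩, h2⟩ := h24_EX.mp h2
        obtain ⟨-, h3⟩ := h24_EX.mp h3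
        have key : ∀ w ∈ C, ∀ w' ∈ C, i = w → p i = w' → False := by
          intro w hw w' hw' e1 e2
          subst e1
          rcases (hN i hw).1 a1 with h4 | h4
          · exact (hCA w' hw').2.1 (e2 ▸ h4)
          · exact (hCA w' hw').2.2 (e2 ▸ h4)
        rcases h2 with h2 | h2 <;> rcases h3 with h3 | h3
        · exact hne (h2.symm.trans h3)
        · exact key w hw w' hw' h2 h3
        · exact key w' hw' w hw h3 h2
        · exact hne (h2.symm.trans h3)
    rw [e2, ← eC, hE, union_assoc, card_union_of_disjoint, card_union_of_disjoint]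
    · rw [disjoint_left]
      intro i h2 h3
      obtain ⟨h4, h5, h6⟩ := mem_filter.mp h2
      obtain ⟨h7, h8, h9⟩ := mem_filter.mp h3
      rcases h9 with h9 | h9
      · exact h9.1 (AR h4)
      · exact h9.2.1 (AR h6)
    · rw [eC, disjoint_left]
      intro i h2 h3
      obtain ⟨w, hw, h3⟩ := mem_biUnion.mp h3
      obtain ⟨⟨a1, a2⟩, h3⟩ := h24_EX.mp h3
      have hwC := hCA w hw
      have hRR : i ∈ R ∧ p i ∈ R := by
        rcases h3 with h3 | h3
        · subst h3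
          refine ⟨hwC.1, ?_⟩
          rcases (hN i hw).1 a1 with h4 | h4
          · exact AR h4
          · exact h.spR h4
        · refine ⟨?_, h3 ▸ hwC.1⟩
          rcases (hN w hw).2 i a1 a2 h3 with h4 | h4
          · exact AR h4
          · exact h.spR h4
      rcases mem_union.mp h2 with h2 | h2
      · obtain ⟨h4, h5, h6⟩ := mem_filter.mp h2
        rcases h3 with h3 | h3
        · exact hwC.2.1 (h3 ▸ h4)
        · exact hwC.2.1 (h3 ▸ h6)
      · obtain ⟨h7, h8, h9⟩ := mem_filter.mp h2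
        rcases h9 with h9 | h9
        · exact h9.1 hRR.1
        · exact h9.2.1 hRR.2
  rw [Nat.card_Ico] at c2
  rw [sum_add_distrib, sum_add_distrib (s := X), sum_const (s := X), smul_eq_mul, mul_one]
  omega

end Pool.Agent.SQ
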