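import Pool.Agent.Helper73.SQ.Defs
import Pool.Agent.Helper73.SEM.T1

/-!
# SQ-FT: from parent functions to graphs
-/

set_option autoImplicit false

namespace Pool.Agent.SQ

open Finset Pool.Agent.SEM

theorem sq_graph {V : Type} [Fintype V] {n : ℕ} (G : SimpleGraph V) (hG : G.IsTree)
    (e : V ≃ Fin n) (p : ℕ → ℕ) (hp : Par n p)
    (hadj : ∀ u v, G.Adj u v ↔ (0 < (e v : ℕ) ∧ p (e v) = (e u : ℕ)) ∨
      (0 < (e u : ℕ) ∧ p (e u) = (e v : ℕ)))
    (hSQ : IsSQ n p) :
    ∃ h : V → ℕ,
      Function.Injective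
        (Sum.elim h
          (fun e : G.edgeSet =>
            Sym2.lift ⟨fun u v => h u + h v, fun u v => add_comm (h u) (h v)⟩ e.1)) ∧
      Set.range
        (Sum.elim h
          (fun e : G.edgeSet =>
            Sym2.lift ⟨fun u v => h u + h v, fun u v => add_comm (h u) (h v)⟩ e.1))
        = Set.Icc 1 (Fintype.card V + Nat.card G.edgeSet) := by
  classical
  obtain ⟨f, hE, hI⟩ := hSQ
  have hn : Fintype.card V = n := by rw [Fintype.card_congr e, Fintype.card_fin]
  set h : V → ℕ := fun v => f (e v) with hh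
  have hn0 : 0 < n := by
    haveI := hG.connected.nonempty
    rw [← hn]
    exact Fintype.card_pos
  -- every edge has an index
  have key : ∀ ed : G.edgeSet, ∃ i, i ∈ Ico 1 n ∧ ∃ u v : V, ed.1 = s(u, v) ∧ (e v : ℕ) = i ∧
      (e u : ℕ) = p i := by
    rintro ⟨ed, hed⟩
    induction ed using Sym2.ind with
    | _ u v =>
      rw [SimpleGraph.mem_edgeSet, hadj] at hed
      rcases hed with hed | hed
      · exact ⟨e v, mem_Ico.2 ⟨hed.1, (e v).2⟩, u, v, rfl, rfl, hed.2.symm⟩
      · exact ⟨e u, mem_Ico.2 ⟨hed.1, (e u).2⟩, v, u, Sym2.eq_swap, rfl, hed.2.symm⟩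
  choose ix hix a b hab hb ha using key
  have hsum : ∀ ed : G.edgeSet,
      Sym2.lift ⟨fun u v => h u + h v, fun u v => add_comm (h u) (h v)⟩ ed.1 =
        f (ix ed) + f (p (ix ed)) := by
    intro ed
    rw [hab ed, Sym2.lift_mk]
    simp only [hh]
    rw [hb ed, ha ed, add_comm]
  have hixinj : ∀ ed ed' : G.edgeSet, ix ed = ix ed' → ed = ed' := by
    intro ed ed' h'
    apply Subtype.ext
    rw [hab ed, hab ed']
    have h1 : b ed = b ed' := e.injective (Fin.ext (by rw [hb, hb, h']))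
    have h2 : a ed = a ed' := e.injective (Fin.ext (by rw [ha, ha, h']))
    rw [h1, h2]
  have hixsurj : ∀ i ∈ Ico 1 n, ∃ ed : G.edgeSet, ix ed = i := by
    intro i hi
    rw [mem_Ico] at hi
    have hpi : p i < n := (hp i (by omega) hi.2).trans hi.2
    have hA : G.Adj (e.symm ⟨p i, hpi⟩) (e.symm ⟨i, hi.2⟩) := by
      rw [hadj]
      left
      simp only [Equiv.apply_symm_apply]
      exact ⟨by omega, trivial⟩
    refine ⟨⟨s(e.symm ⟨p i, hpi⟩, e.symm ⟨i, hi.2⟩), hA⟩, ?_⟩
    set ed : G.edgeSet := ⟨s(e.symm ⟨p i, hpi⟩, e.symm ⟨i, hi.2⟩), hA⟩ with hed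
    have h1 := hab ed
    have h2 := hb ed
    have h3 := ha ed
    have h4 := mem_Ico.1 (hix ed)
    rw [Sym2.eq_iff] at h1
    rcases h1 with h1 | h1
    · rw [← h2, ← h1.2]
      simp
    · exfalso
      have h5 : (e (b ed) : ℕ) = p i := by rw [← h1.1]; simp
      have h6 : (e (a ed) : ℕ) = i := by rw [← h1.2]; simp
      have h7 := hp (ix ed) h4.1 h4.2
      have h8 := hp i (by omega) hi.2
      omega
  have hcardE : Nat.card G.edgeSet = n - 1 := by
    have h1 : Nat.card G.edgeSet + 1 = Nat.card V := by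
      have := hG.card_edgeFinset
      rw [Nat.card_eq_fintype_card, Nat.card_eq_fintype_card, ← this, SimpleGraph.edgeFinset_card]
    rw [Nat.card_eq_fintype_card (α := V), hn] at h1
    omega
  have hvs : vs p f (range n) (Ico 1 n) = Icc 1 (2 * n - 1) := by
    apply eq_of_subset_of_card_le hI
    unfold vs
    rw [card_union_of_disjoint, card_image_of_injOn hE.lab, card_image_of_injOn hE.sum]
    · simp
      omega
    · rw [Finset.disjoint_left]
      intro t ht ht'
      rw [mem_image] at ht ht'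
      obtain ⟨a, ha, rfl⟩ := ht
      obtain ⟨b, hb, hb'⟩ := ht'
      exact hE.ne a ha b hb hb'.symm
  refine ⟨h, ?_, ?_⟩
  · intro x y hxy
    rcases x with x | x <;> rcases y with y | y
    · simp only [Sum.elim_inl] at hxy
      have h1 := hE.lab (mem_coe.2 (mem_range.2 (e x).2)) (mem_coe.2 (mem_range.2 (e y).2)) hxy
      rw [e.injective (Fin.ext h1)]
    · exfalso
      simp only [Sum.elim_inl, Sum.elim_inr] at hxy
      rw [hsum] at hxy
      exact hE.ne _ (mem_range.2 (e x).2) _ (hix y) hxy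
    · exfalso
      simp only [Sum.elim_inl, Sum.elim_inr] at hxy
      rw [hsum] at hxy
      exact hE.ne _ (mem_range.2 (e y).2) _ (hix x) hxy.symm
    · simp only [Sum.elim_inr] at hxy
      rw [hsum, hsum] at hxy
      have h1 := hE.sum (mem_coe.2 (hix x)) (mem_coe.2 (hix y)) hxy
      rw [hixinj x y h1]
  · rw [hcardE, hn, show n + (n - 1) = 2 * n - 1 by omega]
    ext t
    rw [Set.mem_range, Set.mem_Icc, ← mem_Icc, ← hvs, vs, mem_union, mem_image, mem_image]
    constructor
    · rintro ⟨x | x, hx⟩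
      · left
        exact ⟨e x, mem_range.2 (e x).2, hx⟩
      · right
        rw [Sum.elim_inr, hsum] at hx
        exact ⟨ix x, hix x, hx⟩
    · rintro (⟨i, hi, rfl⟩ | ⟨i, hi, rfl⟩)
      · refine ⟨Sum.inl (e.symm ⟨i, mem_range.1 hi⟩), ?_⟩
        simp [hh]
      · obtain ⟨ed, hed⟩ := hixsurj i hi
        refine ⟨Sum.inr ed, ?_⟩
        rw [Sum.elim_inr, hsum, hed]

open Classical in
theorem chl_le_degree {V : Type} [Fintype V] {n : ℕ} (G : SimpleGraph V)
    (e : V ≃ Fin n) (p : ℕ → ℕ)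
    (hadj : ∀ u v, G.Adj u v ↔ (0 < (e v : ℕ) ∧ p (e v) = (e u : ℕ)) ∨
      (0 < (e u : ℕ) ∧ p (e u) = (e v : ℕ))) (v : V) :
    (chl n p (e v)).card ≤ G.degree v := by
  have hsub : chl n p (e v) ⊆ (G.neighborFinset v).image fun w => (e w : ℕ) := by
    intro j hj
    unfold chl at hj
    rw [mem_filter, mem_range] at hj
    obtain ⟨hjn, hj0, hjp⟩ := hj
    rw [mem_image]
    refine ⟨e.symm ⟨j, hjn⟩, ?_, by simp⟩
    rw [SimpleGraph.mem_neighborFinset]
    refine (hadj v _).2 (Or.inl ?_)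
    simp only [Equiv.apply_symm_apply]
    exact ⟨hj0, hjp⟩
  exact (card_le_card hsub).trans card_image_le

open Classical in
theorem heavy_le {V : Type} [Fintype V] {n : ℕ} (G : SimpleGraph V)
    (e : V ≃ Fin n) (p : ℕ → ℕ)
    (hadj : ∀ u v, G.Adj u v ↔ (0 < (e v : ℕ) ∧ p (e v) = (e u : ℕ)) ∨
      (0 < (e u : ℕ) ∧ p (e u) = (e v : ℕ))) (D : ℕ) :
    ∑ v ∈ (range n).filter (fun v => D < (chl n p v).card), (chl n p v).card ≤
      ∑ v ∈ univ.filter (fun v => D < G.degree v), G.degree v := by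
  have h1 : (range n).filter (fun v => D < (chl n p v).card) =
      (univ.filter fun v : V => D < (chl n p (e v)).card).image fun v => (e v : ℕ) := by
    ext i
    rw [mem_filter, mem_range, mem_image]
    constructor
    · rintro ⟨h1, h2⟩
      refine ⟨e.symm ⟨i, h1⟩, ?_, by simp⟩
      rw [mem_filter]
      simp only [Equiv.apply_symm_apply]
      exact ⟨mem_univ _, h2⟩
    · rintro ⟨v, h1, rfl⟩
      rw [mem_filter] at h1
      exact ⟨(e v).2, h1.2⟩
  rw [h1, sum_image (fun a _ b _ hab => e.injective (Fin.ext hab))]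
  calc ∑ v ∈ univ.filter (fun v : V => D < (chl n p (e v)).card), (chl n p (e v)).card
      ≤ ∑ v ∈ univ.filter (fun v : V => D < (chl n p (e v)).card), G.degree v :=
        sum_le_sum fun v _ => chl_le_degree G e p hadj v
    _ ≤ ∑ v ∈ univ.filter (fun v => D < G.degree v), G.degree v := by
        refine sum_le_sum_of_subset ?_
        intro v hv
        rw [mem_filter] at hv ⊢
        exact ⟨hv.1, hv.2.trans_le (chl_le_degree G e p hadj v)⟩

end Pool.Agent.SQ
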