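import Pool.Agent.Helper73.SQ.Defs

/-!
# SQ-KD: the kernel

`U` = set of available values, `Y = {x ∈ U : 1000 x ≤ (2000 - κ) n}` for a small parameter (natural number `H`: `Y = {x ∈ U : x ≤ H}`), `al x = #{y ∈ Y : x + y ∈ U}`,
`k x y = 1 / al x` if `y ∈ Y`, `x + y ∈ U` (else `0`), `π x = al x / Z` on `Y` (else `0`), `Z = ∑_{x ∈ Y} al x`.

Proof in words (`N = 2n - 1`, `H = ⌊(2 - κ) n⌋`, the complement of `U` has at most `ζ n` elements, `ζ ≤ κ / 8`).
For `x ≤ H`: the `y ≤ min (N - x) H` number at least `κ n - 1`, and those with `y ∉ U` or `x + y ∉ U` at most `2 ζ n`, so `al x ≥ κ n / 2`; also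
`al x ≤ N - x` and `al x ≥ N - x - κ n - 2 ζ n - 1`.  `Z ≤ N²/2` and `Z ≥ N²/2 - (κ² + 4 ζ) n² - 2 n ≥ n²` ... (pairs `x + y ≤ N` number `N (N-1)/2`; pairs with `x > H`
or `y > H` at most `(κ n + 1)²`; pairs with `x ∉ U` or `y ∉ U` or `x + y ∉ U` at most `3 ζ n N`).  `lowπ`: for `4 x ≤ 7 n`, `al x ≥ n/8`.
`rev`: `π x * k x y = 1/Z` if `x, y ∈ Y`, `x + y ∈ U`, symmetric.  `bal`: `Z (π t + ∑_x π x k x (t-x)) = al t + #{x ∈ Y : t - x ∈ Y, x < t}` is at most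
`(N - t) + (t - 1) ≤ N` and at least `N - 4 κ n - 6 ζ n - 3`, for every `t ∈ U` (also for `t > H`, where the first term is `0`), and `n N / Z = 1 + O(κ² + ζ + 1/n)`.
-/

set_option autoImplicit false

namespace Pool.Agent.SQ

open Finset Pool.Agent.SEM

/-- properties of the transition kernel; `B` bounds the densities, `t` is the (small) error -/
structure KS (n : ℕ) (U Y : Finset ℕ) (B t : ℝ) (k : ℕ → ℕ → ℝ) (π : ℕ → ℝ) : Prop where
  YU : Y ⊆ U
  UI : U ⊆ Icc 1 (2 * n - 1)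
  YH : ∀ x ∈ U, 4 * x ≤ 7 * n → x ∈ Y
  nn : ∀ x y, 0 ≤ k x y
  supp : ∀ x y, k x y ≠ 0 → y ∈ Y ∧ x + y ∈ U
  low : ∀ x ∈ Y, ∀ y ∈ Y, x + y ∈ U → 1 / (2 * n) ≤ k x y
  up : ∀ x ∈ Y, ∀ y, k x y ≤ B / n
  one : ∀ x ∈ Y, ∑ y ∈ Y, k x y = 1
  πnn : ∀ x, 0 ≤ π x
  πY : ∀ x, π x ≠ 0 → x ∈ Y
  πone : ∑ x ∈ Y, π x = 1
  πup : ∀ x, π x ≤ 3 / n
  πlow : ∀ x ∈ U, 4 * x ≤ 7 * n → 1 / (20 * n) ≤ π x
  rev : ∀ x ∈ Y, ∀ y ∈ Y, π x * k x y = π y * k y x
  bal : ∀ s ∈ U, |n * (π s + ∑ x ∈ Y, if x ≤ s then π x * k x (s - x) else 0) - 1| ≤ t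
  room : ∀ x ∈ Y, ∀ x' ∈ Y, n / B ≤ ((Y.filter fun y => x + y ∈ U ∧ x' + y ∈ U).card : ℝ)

/-- `al x = #{y ∈ Y : x + y ∈ U}` -/
private def al10 (U Y : Finset ℕ) (x : ℕ) : ℕ := (Y.filter fun y => x + y ∈ U).card

/-- `#{x ∈ Y : x ≤ s, s - x ∈ Y}` -/
private def cc10 (Y : Finset ℕ) (s : ℕ) : ℕ := (Y.filter fun x => x ≤ s ∧ s - x ∈ Y).card

private def ZZ10 (U Y : Finset ℕ) : ℕ := ∑ x ∈ Y, al10 U Y x

private noncomputable def kk10 (U Y : Finset ℕ) (x y : ℕ) : ℝ :=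
  if x ∈ Y ∧ y ∈ Y ∧ x + y ∈ U then 1 / (al10 U Y x : ℝ) else 0

private noncomputable def pp10 (U Y : Finset ℕ) (x : ℕ) : ℝ :=
  if x ∈ Y then (al10 U Y x : ℝ) / (ZZ10 U Y : ℝ) else 0

private lemma al10_upper {N : ℕ} {U Y : Finset ℕ} (hU : U ⊆ Icc 1 N) (hY : Y ⊆ U) (x : ℕ) :
    al10 U Y x ≤ N - x := by
  unfold al10
  have h1 : (Y.filter fun y => x + y ∈ U) ⊆ Icc 1 (N - x) := by
    intro y hy
    rw [mem_filter] at hy
    have h2 := mem_Icc.mp (hU (hY hy.1))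
    have h3 := mem_Icc.mp (hU hy.2)
    rw [mem_Icc]
    omega
  have := card_le_card h1
  simpa using this

private lemma al10_lower {N : ℕ} {U Y : Finset ℕ} (x : ℕ) :
    N - x ≤ al10 U Y x + (Icc 1 N \ Y).card + (Icc 1 N \ U).card := by
  have h1 : Icc 1 (N - x) ⊆ ((Y.filter fun y => x + y ∈ U) ∪ (Icc 1 N \ Y)) ∪
      (Icc 1 (N - x)).filter (fun y => x + y ∈ Icc 1 N \ U) := by
    intro y hy
    have h2 := mem_Icc.mp hy
    by_cases h3 : y ∈ Y
    · by_cases h4 : x + y ∈ U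
      · exact mem_union_left _ (mem_union_left _ (mem_filter.mpr ⟨h3, h4⟩))
      · refine mem_union_right _ (mem_filter.mpr ⟨hy, mem_sdiff.mpr ⟨mem_Icc.mpr ?_, h4⟩⟩)
        omega
    · refine mem_union_left _ (mem_union_right _ (mem_sdiff.mpr ⟨mem_Icc.mpr ?_, h3⟩))
      omega
  have h5 : ((Icc 1 (N - x)).filter (fun y => x + y ∈ Icc 1 N \ U)).card
      ≤ (Icc 1 N \ U).card := by
    apply card_le_card_of_injOn (fun y => x + y)
    · intro y hy
      have hy' := mem_filter.mp (mem_coe.mp hy)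
      exact mem_coe.mpr hy'.2
    · intro a _ b _ hab
      simp only at hab
      omega
  have h6 := card_le_card h1
  have h7 := card_union_le ((Y.filter fun y => x + y ∈ U) ∪ (Icc 1 N \ Y))
    ((Icc 1 (N - x)).filter (fun y => x + y ∈ Icc 1 N \ U))
  have h8 := card_union_le (Y.filter fun y => x + y ∈ U) (Icc 1 N \ Y)
  have h9 : (Icc 1 (N - x)).card = N - x := by simp
  unfold al10
  omega

private lemma cc10_upper {N : ℕ} {Y : Finset ℕ} (hY : Y ⊆ Icc 1 N) (s : ℕ) :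
    cc10 Y s ≤ s - 1 := by
  unfold cc10
  have h1 : (Y.filter fun x => x ≤ s ∧ s - x ∈ Y) ⊆ Icc 1 (s - 1) := by
    intro y hy
    rw [mem_filter] at hy
    have h2 := mem_Icc.mp (hY hy.1)
    have h3 := mem_Icc.mp (hY hy.2.2)
    rw [mem_Icc]
    omega
  have := card_le_card h1
  simpa using this

private lemma cc10_lower {N : ℕ} {Y : Finset ℕ} {s : ℕ} (hs : s ≤ N) :
    s - 1 ≤ cc10 Y s + 2 * (Icc 1 N \ Y).card := by
  have h1 : Icc 1 (s - 1) ⊆ ((Y.filter fun x => x ≤ s ∧ s - x ∈ Y) ∪ (Icc 1 N \ Y)) ∪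
      (Icc 1 (s - 1)).filter (fun x => s - x ∈ Icc 1 N \ Y) := by
    intro y hy
    have h2 := mem_Icc.mp hy
    by_cases h3 : y ∈ Y
    · by_cases h4 : s - y ∈ Y
      · exact mem_union_left _ (mem_union_left _ (mem_filter.mpr ⟨h3, by omega, h4⟩))
      · refine mem_union_right _ (mem_filter.mpr ⟨hy, mem_sdiff.mpr ⟨mem_Icc.mpr ?_, h4⟩⟩)
        omega
    · refine mem_union_left _ (mem_union_right _ (mem_sdiff.mpr ⟨mem_Icc.mpr ?_, h3⟩))
      omega
  have h5 : ((Icc 1 (s - 1)).filter (fun x => s - x ∈ Icc 1 N \ Y)).card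
      ≤ (Icc 1 N \ Y).card := by
    apply card_le_card_of_injOn (fun y => s - y)
    · intro y hy
      have hy' := mem_filter.mp (mem_coe.mp hy)
      exact mem_coe.mpr hy'.2
    · intro a ha b hb hab
      have ha' := mem_Icc.mp (mem_filter.mp (mem_coe.mp ha)).1
      have hb' := mem_Icc.mp (mem_filter.mp (mem_coe.mp hb)).1
      simp only at hab
      omega
  have h6 := card_le_card h1
  have h7 := card_union_le ((Y.filter fun x => x ≤ s ∧ s - x ∈ Y) ∪ (Icc 1 N \ Y))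
    ((Icc 1 (s - 1)).filter (fun x => s - x ∈ Icc 1 N \ Y))
  have h8 := card_union_le (Y.filter fun x => x ≤ s ∧ s - x ∈ Y) (Icc 1 N \ Y)
  have h9 : (Icc 1 (s - 1)).card = s - 1 := by simp
  unfold cc10
  omega

private lemma sum_sub10 (N : ℕ) : 2 * ∑ x ∈ Icc 1 N, (N - x) + N = N * N := by
  have h1 : ∑ x ∈ Icc 1 N, (N - x) = ∑ x ∈ range N, x := by
    apply Finset.sum_bij' (fun x _ => N - x) (fun x _ => N - x)
    · intro a ha
      have := mem_Icc.mp ha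
      rw [mem_range]; omega
    · intro a ha
      have := mem_range.mp ha
      rw [mem_Icc]; omega
    · intro a ha
      have := mem_Icc.mp ha
      omega
    · intro a ha
      have := mem_range.mp ha
      omega
    · intro a ha
      rfl
  have h2 := Finset.sum_range_id_mul_two N
  rw [h1]
  rcases N with _ | N
  · simp
  · have h3 : (∑ i ∈ range (N + 1), i) * 2 = (N + 1) * N := by simpa using h2
    nlinarith

private lemma ZZ10_upper {N : ℕ} {U Y : Finset ℕ} (hU : U ⊆ Icc 1 N) (hY : Y ⊆ U) :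
    2 * ZZ10 U Y + N ≤ N * N := by
  have h1 : ZZ10 U Y ≤ ∑ x ∈ Icc 1 N, (N - x) := by
    unfold ZZ10
    calc ∑ x ∈ Y, al10 U Y x ≤ ∑ x ∈ Y, (N - x) :=
          sum_le_sum (fun x _ => al10_upper hU hY x)
      _ ≤ ∑ x ∈ Icc 1 N, (N - x) := sum_le_sum_of_subset (hY.trans hU)
  have := sum_sub10 N
  omega

private lemma ZZ10_lower {N : ℕ} {U Y : Finset ℕ} (hY : Y ⊆ Icc 1 N) :
    N * N ≤ 2 * ZZ10 U Y + N + 2 * (N * (2 * (Icc 1 N \ Y).card + (Icc 1 N \ U).card)) := by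
  have h1 : ∑ x ∈ Y, (N - x) ≤ ZZ10 U Y + Y.card * ((Icc 1 N \ Y).card + (Icc 1 N \ U).card) := by
    unfold ZZ10
    calc ∑ x ∈ Y, (N - x) ≤ ∑ x ∈ Y, (al10 U Y x + ((Icc 1 N \ Y).card + (Icc 1 N \ U).card)) :=
          sum_le_sum (fun x _ => by have := al10_lower (N := N) (U := U) (Y := Y) x; omega)
      _ = _ := by rw [sum_add_distrib]; simp
  have h2 : ∑ x ∈ Icc 1 N, (N - x) = ∑ x ∈ Icc 1 N \ Y, (N - x) + ∑ x ∈ Y, (N - x) :=
    (sum_sdiff hY).symm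
  have h3 : ∑ x ∈ Icc 1 N \ Y, (N - x) ≤ (Icc 1 N \ Y).card * N := by
    have := sum_le_card_nsmul (Icc 1 N \ Y) (fun x => N - x) N (fun x _ => Nat.sub_le _ _)
    simpa using this
  have h4 : Y.card ≤ N := by
    have := card_le_card hY
    simpa using this
  have h5 := sum_sub10 N
  have h6 : Y.card * ((Icc 1 N \ Y).card + (Icc 1 N \ U).card) ≤
      N * ((Icc 1 N \ Y).card + (Icc 1 N \ U).card) := Nat.mul_le_mul_right _ h4
  nlinarith

private lemma room10 {N M : ℕ} {U Y : Finset ℕ} {x x' : ℕ}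
    (hx : x + M ≤ N) (hx' : x' + M ≤ N) :
    M ≤ (Y.filter fun y => x + y ∈ U ∧ x' + y ∈ U).card +
      ((Icc 1 M).filter (fun y => y ∉ Y)).card + 2 * (Icc 1 N \ U).card := by
  have h1 : Icc 1 M ⊆ (((Y.filter fun y => x + y ∈ U ∧ x' + y ∈ U) ∪
      (Icc 1 M).filter (fun y => y ∉ Y)) ∪ (Icc 1 M).filter (fun y => x + y ∈ Icc 1 N \ U)) ∪
      (Icc 1 M).filter (fun y => x' + y ∈ Icc 1 N \ U) := by
    intro y hy
    have h2 := mem_Icc.mp hy
    by_cases h3 : y ∈ Y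
    · by_cases h4 : x + y ∈ U
      · by_cases h4' : x' + y ∈ U
        · exact mem_union_left _ (mem_union_left _ (mem_union_left _
            (mem_filter.mpr ⟨h3, h4, h4'⟩)))
        · refine mem_union_right _ (mem_filter.mpr ⟨hy, mem_sdiff.mpr ⟨mem_Icc.mpr ?_, h4'⟩⟩)
          omega
      · refine mem_union_left _ (mem_union_right _ (mem_filter.mpr ⟨hy, mem_sdiff.mpr
          ⟨mem_Icc.mpr ?_, h4⟩⟩))
        omega
    · exact mem_union_left _ (mem_union_left _ (mem_union_right _ (mem_filter.mpr ⟨hy, h3⟩)))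
  have h5 : ∀ w : ℕ, ((Icc 1 M).filter (fun y => w + y ∈ Icc 1 N \ U)).card
      ≤ (Icc 1 N \ U).card := by
    intro w
    apply card_le_card_of_injOn (fun y => w + y)
    · intro y hy
      have hy' := mem_filter.mp (mem_coe.mp hy)
      exact mem_coe.mpr hy'.2
    · intro a _ b _ hab
      simp only at hab
      omega
  have h6 := card_le_card h1
  have h7 := card_union_le (((Y.filter fun y => x + y ∈ U ∧ x' + y ∈ U) ∪
      (Icc 1 M).filter (fun y => y ∉ Y)) ∪ (Icc 1 M).filter (fun y => x + y ∈ Icc 1 N \ U))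
      ((Icc 1 M).filter (fun y => x' + y ∈ Icc 1 N \ U))
  have h8 := card_union_le ((Y.filter fun y => x + y ∈ U ∧ x' + y ∈ U) ∪
      (Icc 1 M).filter (fun y => y ∉ Y)) ((Icc 1 M).filter (fun y => x + y ∈ Icc 1 N \ U))
  have h9 := card_union_le (Y.filter fun y => x + y ∈ U ∧ x' + y ∈ U)
      ((Icc 1 M).filter (fun y => y ∉ Y))
  have h10 : (Icc 1 M).card = M := by simp
  have h11 := h5 x
  have h12 := h5 x'
  omega

theorem kernel_exists (t : ℝ) (ht : 0 < t) : ∃ B : ℝ, 1 ≤ B ∧ ∃ κ : ℝ, 0 < κ ∧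
    ∃ ζ : ℝ, 0 < ζ ∧ ζ ≤ t ∧ ∃ n₀ : ℕ, ∀ (n : ℕ) (U : Finset ℕ), n₀ ≤ n → U ⊆ Icc 1 (2 * n - 1) →
      ((Icc 1 (2 * n - 1) \ U).card : ℝ) ≤ ζ * n →
      ∃ (Y : Finset ℕ) (k : ℕ → ℕ → ℝ) (π : ℕ → ℝ), KS n U Y B t k π ∧
        (∀ y ∈ Y, (y : ℝ) ≤ (2 - κ) * n - 1) := by
  set τ : ℝ := min t 1 with hτ
  have hτ0 : 0 < τ := lt_min ht one_pos
  have hτ1 : τ ≤ 1 := min_le_right _ _
  have hτt : τ ≤ t := min_le_left _ _
  set κ : ℝ := τ / 40 with hκ
  have hκ0 : 0 < κ := by positivity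
  have hκ1 : κ ≤ 1 / 40 := by rw [hκ]; linarith
  refine ⟨2 / κ, ?_, κ, hκ0, κ / 8, by positivity, ?_, ⌈1000 / κ⌉₊, ?_⟩
  · rw [le_div_iff₀ hκ0]; linarith
  · rw [hκ]; linarith
  intro n U hn hU hC
  have hnR : 1000 / κ ≤ (n : ℝ) := (Nat.le_ceil _).trans (by exact_mod_cast hn)
  have hκn : 1000 ≤ κ * n := by
    rw [div_le_iff₀ hκ0] at hnR
    linarith
  have hn4 : 40000 ≤ (n : ℝ) := by nlinarith
  have hn0 : (0 : ℝ) < n := by linarith
  have hn1 : 1 ≤ n := by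
    have : (0 : ℝ) < n := hn0
    exact_mod_cast this
  have hNR : ((2 * n - 1 : ℕ) : ℝ) = 2 * n - 1 := by
    rw [Nat.cast_sub (by omega)]; push_cast; ring
  set N : ℕ := 2 * n - 1 with hN
  obtain ⟨Y, hYm⟩ : ∃ Y : Finset ℕ, ∀ x : ℕ, x ∈ Y ↔ x ∈ U ∧ (x : ℝ) ≤ (2 - κ) * n - 1 :=
    ⟨U.filter (fun x : ℕ => (x : ℝ) ≤ (2 - κ) * n - 1), fun x => mem_filter⟩
  have hYU : Y ⊆ U := fun y hy => ((hYm y).mp hy).1
  have hYI : Y ⊆ Icc 1 N := hYU.trans hU
  have hYH : ∀ y ∈ Y, (y : ℝ) ≤ (2 - κ) * n - 1 := fun y hy => ((hYm y).mp hy).2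
  -- the complement of Y
  have hC' : ((Icc 1 N \ Y).card : ℝ) ≤ (κ / 8 + κ) * n + 1 := by
    have hr0 : 0 ≤ (2 - κ) * n - 1 := by nlinarith
    have h1 : Icc 1 N \ Y ⊆ (Icc 1 N \ U) ∪ Ioc ⌊(2 - κ) * n - 1⌋₊ N := by
      intro y hy
      rw [mem_sdiff] at hy
      by_cases h2 : y ∈ U
      · refine mem_union_right _ (mem_Ioc.mpr ⟨?_, (mem_Icc.mp hy.1).2⟩)
        rw [Nat.floor_lt hr0]
        by_contra h3
        exact hy.2 ((hYm y).mpr ⟨h2, not_lt.mp h3⟩)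
      · exact mem_union_left _ (mem_sdiff.mpr ⟨hy.1, h2⟩)
    have h2 := (card_le_card h1).trans (card_union_le _ _)
    have h3 : ((Ioc ⌊(2 - κ) * n - 1⌋₊ N).card : ℝ) ≤ κ * n + 1 := by
      rw [Nat.card_Ioc]
      have h4 := Nat.lt_floor_add_one ((2 - κ) * n - 1)
      have h5 : ⌊(2 - κ) * n - 1⌋₊ ≤ N := by
        apply Nat.floor_le_of_le
        rw [hNR]
        nlinarith
      rw [Nat.cast_sub h5, hNR]
      linarith
    have h6 : ((Icc 1 N \ Y).card : ℝ) ≤ ((Icc 1 N \ U).card : ℝ) +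
        ((Ioc ⌊(2 - κ) * n - 1⌋₊ N).card : ℝ) := by exact_mod_cast h2
    linarith
  -- bounds in the reals
  have alU : ∀ x : ℕ, x ≤ N → (al10 U Y x : ℝ) ≤ 2 * n - 1 - x := by
    intro x hx
    have h1 := al10_upper hU hYU x
    have h2 : al10 U Y x + x ≤ N := by omega
    have h3 : (al10 U Y x : ℝ) + x ≤ (N : ℝ) := by exact_mod_cast h2
    rw [hNR] at h3
    linarith
  have alL : ∀ x : ℕ, 2 * (n : ℝ) - 1 - x ≤ al10 U Y x + ((κ / 8 + κ) * n + 1) + κ / 8 * n := by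
    intro x
    have h1 := al10_lower (N := N) (U := U) (Y := Y) x
    have h2 : N ≤ al10 U Y x + (Icc 1 N \ Y).card + (Icc 1 N \ U).card + x := by omega
    have h3 : (N : ℝ) ≤ al10 U Y x + (Icc 1 N \ Y).card + (Icc 1 N \ U).card + x := by
      exact_mod_cast h2
    rw [hNR] at h3
    linarith
  have ccU : ∀ s : ℕ, 1 ≤ s → (cc10 Y s : ℝ) ≤ s - 1 := by
    intro s hs
    have h1 := cc10_upper hYI s
    have h2 : cc10 Y s + 1 ≤ s := by omega
    have h3 : (cc10 Y s : ℝ) + 1 ≤ s := by exact_mod_cast h2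
    linarith
  have ccL : ∀ s : ℕ, s ≤ N → (s : ℝ) - 1 ≤ cc10 Y s + 2 * ((κ / 8 + κ) * n + 1) := by
    intro s hs
    have h1 := cc10_lower (Y := Y) hs
    have h2 : s ≤ cc10 Y s + 2 * (Icc 1 N \ Y).card + 1 := by omega
    have h3 : (s : ℝ) ≤ cc10 Y s + 2 * (Icc 1 N \ Y).card + 1 := by exact_mod_cast h2
    linarith
  have hZU : (ZZ10 U Y : ℝ) ≤ 2 * n ^ 2 := by
    have h1 := ZZ10_upper hU hYU
    have h2 : 2 * (ZZ10 U Y : ℝ) + (N : ℝ) ≤ (N : ℝ) * N := by exact_mod_cast h1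
    rw [hNR] at h2
    nlinarith
  have hZL : (2 * (n : ℝ) - 1) / 2 * (2 * n - 6 - 5 * κ * n) ≤ ZZ10 U Y := by
    have h1 := ZZ10_lower (N := N) (U := U) hYI
    have h2 : (N : ℝ) * N ≤ 2 * (ZZ10 U Y : ℝ) + N + 2 * (N * (2 * ((Icc 1 N \ Y).card : ℝ) +
        ((Icc 1 N \ U).card : ℝ))) := by exact_mod_cast h1
    have h3 : 2 * ((Icc 1 N \ Y).card : ℝ) + ((Icc 1 N \ U).card : ℝ) ≤
        2 * ((κ / 8 + κ) * n + 1) + κ / 8 * n := by linarith
    have h4 : (0 : ℝ) ≤ 2 * n - 1 := by linarith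
    have h5 := mul_le_mul_of_nonneg_left h3 h4
    rw [hNR] at h2
    nlinarith [mul_nonneg h4 (mul_pos hκ0 hn0).le]
  have hZ1 : 1.8 * (n : ℝ) * ((2 * n - 1) / 2) ≤ ZZ10 U Y := by
    refine le_trans ?_ hZL
    have h1 : 1.8 * (n : ℝ) ≤ 2 * n - 6 - 5 * κ * n := by nlinarith
    nlinarith
  have hZ0 : (0 : ℝ) < ZZ10 U Y := by
    refine lt_of_lt_of_le ?_ hZ1
    have : (0 : ℝ) < 2 * n - 1 := by linarith
    positivity
  -- room
  have hroom : ∀ x ∈ Y, ∀ x' ∈ Y, n / (2 / κ) ≤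
      ((Y.filter fun y => x + y ∈ U ∧ x' + y ∈ U).card : ℝ) := by
    intro x hx x' hx'
    set M : ℕ := ⌊κ * n⌋₊ with hM
    have hM1 : (M : ℝ) ≤ κ * n := Nat.floor_le (by positivity)
    have hM2 : κ * n < M + 1 := Nat.lt_floor_add_one _
    have hle : ∀ z ∈ Y, z + M ≤ N := by
      intro z hz
      have h1 := hYH z hz
      have h2 : ((z + M : ℕ) : ℝ) ≤ ((N : ℕ) : ℝ) := by
        rw [hNR]; push_cast; nlinarith
      exact_mod_cast h2
    have h1 := room10 (U := U) (Y := Y) (hle x hx) (hle x' hx')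
    have h2 : ((Icc 1 M).filter (fun y => y ∉ Y)).card ≤ (Icc 1 N \ U).card := by
      apply card_le_card
      intro y hy
      rw [mem_filter, mem_Icc] at hy
      have hyM : (y : ℝ) ≤ M := by exact_mod_cast hy.1.2
      have hMN : M ≤ N := by have := hle x hx; omega
      rw [mem_sdiff, mem_Icc]
      refine ⟨⟨hy.1.1, hy.1.2.trans hMN⟩, fun hyU => hy.2 ((hYm y).mpr ⟨hyU, ?_⟩)⟩
      nlinarith
    have h3 : (M : ℝ) ≤ ((Y.filter fun y => x + y ∈ U ∧ x' + y ∈ U).card : ℝ) +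
        ((Icc 1 N \ U).card : ℝ) + 2 * ((Icc 1 N \ U).card : ℝ) := by
      have : M ≤ (Y.filter fun y => x + y ∈ U ∧ x' + y ∈ U).card + (Icc 1 N \ U).card +
        2 * (Icc 1 N \ U).card := by omega
      exact_mod_cast this
    have h4 : (n : ℝ) / (2 / κ) = κ * n / 2 := by field_simp
    rw [h4]
    nlinarith
  have hal : ∀ x ∈ Y, n / (2 / κ) ≤ (al10 U Y x : ℝ) := by
    intro x hx
    have := hroom x hx x hx
    simpa [al10] using this
  have hal0 : ∀ x ∈ Y, (0 : ℝ) < al10 U Y x := by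
    intro x hx
    refine lt_of_lt_of_le ?_ (hal x hx)
    positivity
  have hxN : ∀ x ∈ Y, x ≤ N := fun x hx => (mem_Icc.mp (hYI hx)).2
  refine ⟨Y, kk10 U Y, pp10 U Y, ?_, hYH⟩
  refine ⟨hYU, hU, ?_, ?_, ?_, ?_, ?_, ?_, ?_, ?_, ?_, ?_, ?_, ?_, ?_, hroom⟩
  · -- YH
    intro x hx h4
    refine (hYm x).mpr ⟨hx, ?_⟩
    have : 4 * (x : ℝ) ≤ 7 * n := by exact_mod_cast h4
    nlinarith
  · -- nn
    intro x y
    unfold kk10
    split_ifs
    · positivity
    · exact le_rfl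
  · -- supp
    intro x y h
    unfold kk10 at h
    by_cases h1 : x ∈ Y ∧ y ∈ Y ∧ x + y ∈ U
    · exact h1.2
    · rw [if_neg h1] at h
      exact absurd rfl h
  · -- low
    intro x hx y hy hxy
    unfold kk10
    rw [if_pos ⟨hx, hy, hxy⟩]
    apply one_div_le_one_div_of_le (hal0 x hx)
    have h1 := alU x (hxN x hx)
    have h2 : (0 : ℝ) ≤ x := Nat.cast_nonneg _
    linarith
  · -- up
    intro x hx y
    unfold kk10
    have h2 := hal x hx
    split_ifs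
    · rw [div_le_div_iff₀ (hal0 x hx) hn0]
      rw [div_le_iff₀ (by positivity)] at h2
      linarith
    · positivity
  · -- one
    intro x hx
    have h1 : ∑ y ∈ Y, kk10 U Y x y = ∑ y ∈ Y.filter (fun y => x + y ∈ U),
        1 / (al10 U Y x : ℝ) := by
      rw [sum_filter]
      apply sum_congr rfl
      intro y hy
      unfold kk10
      by_cases h : x + y ∈ U
      · rw [if_pos ⟨hx, hy, h⟩, if_pos h]
      · rw [if_neg (fun h' => h h'.2.2), if_neg h]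
    rw [h1, sum_const, nsmul_eq_mul]
    have h2 : ((Y.filter fun y => x + y ∈ U).card : ℝ) = al10 U Y x := rfl
    rw [h2]
    have h3 := (hal0 x hx).ne'
    field_simp
  · -- πnn
    intro x
    unfold pp10
    split_ifs
    · positivity
    · exact le_rfl
  · -- πY
    intro x h
    unfold pp10 at h
    by_contra h1
    rw [if_neg h1] at h
    exact h rfl
  · -- πone
    have h1 : ∑ x ∈ Y, pp10 U Y x = ∑ x ∈ Y, (al10 U Y x : ℝ) / (ZZ10 U Y : ℝ) := by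
      apply sum_congr rfl
      intro x hx
      unfold pp10
      rw [if_pos hx]
    rw [h1, ← sum_div]
    have h2 : ∑ x ∈ Y, (al10 U Y x : ℝ) = (ZZ10 U Y : ℝ) := by
      unfold ZZ10
      push_cast
      rfl
    rw [h2, div_self hZ0.ne']
  · -- πup
    intro x
    unfold pp10
    split_ifs with hx
    · rw [div_le_div_iff₀ hZ0 hn0]
      have h1 := alU x (hxN x hx)
      have h2 : (0 : ℝ) ≤ x := Nat.cast_nonneg _
      have h3 : (al10 U Y x : ℝ) * n ≤ (2 * n - 1) * n :=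
        mul_le_mul_of_nonneg_right (by linarith) hn0.le
      nlinarith
    · positivity
  · -- πlow
    intro x hx h4
    have h4R : 4 * (x : ℝ) ≤ 7 * n := by exact_mod_cast h4
    have hxY : x ∈ Y := (hYm x).mpr ⟨hx, by nlinarith⟩
    unfold pp10
    rw [if_pos hxY, div_le_div_iff₀ (by positivity) hZ0]
    have h1 := alL x
    have h2 : (n : ℝ) / 8 ≤ al10 U Y x := by nlinarith
    have h3 : (n : ℝ) / 8 * (20 * n) ≤ al10 U Y x * (20 * n) :=
      mul_le_mul_of_nonneg_right h2 (by positivity)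
    nlinarith
  · -- rev
    intro x hx y hy
    unfold pp10 kk10
    rw [if_pos hx, if_pos hy]
    by_cases h : x + y ∈ U
    · have h' : y + x ∈ U := by rwa [add_comm]
      rw [if_pos ⟨hx, hy, h⟩, if_pos ⟨hy, hx, h'⟩]
      have h1 := (hal0 x hx).ne'
      have h2 := (hal0 y hy).ne'
      field_simp
    · have h' : y + x ∉ U := by rwa [add_comm]
      rw [if_neg (fun h1 => h h1.2.2), if_neg (fun h1 => h' h1.2.2)]
      ring
  · -- bal
    intro s hs
    have hsN : s ≤ N := (mem_Icc.mp (hU hs)).2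
    have hs1 : 1 ≤ s := (mem_Icc.mp (hU hs)).1
    have h1 : (∑ x ∈ Y, if x ≤ s then pp10 U Y x * kk10 U Y x (s - x) else 0) =
        (cc10 Y s : ℝ) / ZZ10 U Y := by
      have h2 : ∀ x ∈ Y, (if x ≤ s then pp10 U Y x * kk10 U Y x (s - x) else 0) =
          if x ≤ s ∧ s - x ∈ Y then 1 / (ZZ10 U Y : ℝ) else 0 := by
        intro x hx
        by_cases h3 : x ≤ s
        · rw [if_pos h3]
          by_cases h4 : s - x ∈ Y
          · have h5 : x + (s - x) = s := by omega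
            rw [if_pos ⟨h3, h4⟩]
            unfold pp10 kk10
            rw [if_pos hx, if_pos ⟨hx, h4, by rw [h5]; exact hs⟩]
            have h1 := (hal0 x hx).ne'
            field_simp
          · rw [if_neg (fun h => h4 h.2)]
            unfold kk10
            rw [if_neg (fun h => h4 h.2.1), mul_zero]
        · rw [if_neg h3, if_neg (fun h => h3 h.1)]
      rw [sum_congr rfl h2, ← sum_filter, sum_const, nsmul_eq_mul]
      unfold cc10
      ring
    rw [h1]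
    -- total
    set T : ℝ := (if s ∈ Y then (al10 U Y s : ℝ) else 0) + cc10 Y s with hT
    have h2 : (n : ℝ) * (pp10 U Y s + (cc10 Y s : ℝ) / ZZ10 U Y) = n * T / ZZ10 U Y := by
      rw [hT]
      unfold pp10
      split_ifs <;> ring
    rw [h2]
    have hTU : T ≤ 2 * n - 1 := by
      rw [hT]
      have h3 := alU s hsN
      have h4 := ccU s hs1
      have h5 : (s : ℝ) ≤ 2 * n - 1 := by rw [← hNR]; exact_mod_cast hsN
      split_ifs <;> linarith
    have hTL : 2 * n - 7 - 5 * κ * n ≤ T := by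
      rw [hT]
      have h3 := alL s
      have h4 := ccL s hsN
      split_ifs with h5
      · nlinarith
      · have h6 : (2 - κ) * n - 1 < (s : ℝ) := by
          by_contra h7
          exact h5 ((hYm s).mpr ⟨hs, not_lt.mp h7⟩)
        nlinarith
    have hκτ : κ * n = τ * n / 40 := by rw [hκ]; ring
    have hτn : 40000 ≤ τ * n := by linarith
    refine le_trans ?_ hτt
    rw [abs_le]
    constructor
    · have h5 : 1 - τ ≤ n * T / ZZ10 U Y := by
        rw [le_div_iff₀ hZ0]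
        have h6 : (1 - τ) * (ZZ10 U Y : ℝ) ≤ (1 - τ) * (2 * n ^ 2) :=
          mul_le_mul_of_nonneg_left hZU (by linarith)
        have h7 : (1 - τ) * (2 * (n : ℝ)) ≤ T := by nlinarith
        nlinarith
      linarith
    · have h5 : n * T / ZZ10 U Y ≤ 1 + τ := by
        rw [div_le_iff₀ hZ0]
        have h6 : (1 + τ) * ((2 * (n : ℝ) - 1) / 2 * (2 * n - 6 - 5 * κ * n)) ≤
            (1 + τ) * ZZ10 U Y := mul_le_mul_of_nonneg_left hZL (by linarith)
        have h7 : 2 * (n : ℝ) ≤ (1 + τ) * (2 * n - 6 - 5 * κ * n) := by nlinarith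
        have h8 : n * T ≤ n * (2 * n - 1) := mul_le_mul_of_nonneg_left hTU hn0.le
        have h9 : (2 * (n : ℝ) - 1) / 2 * (2 * n) ≤
            (2 * (n : ℝ) - 1) / 2 * ((1 + τ) * (2 * n - 6 - 5 * κ * n)) :=
          mul_le_mul_of_nonneg_left h7 (by linarith)
        nlinarith
      linarith

end Pool.Agent.SQ
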