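import Pool.Agent.Helper73.SQ.FA

/-!
# SQ-LB: codegree and injectivity bounds for the labelling of one piece

Proof in words (adapt SEM.LW5).  `us φ s` = the value `s` is used: a label or a sum.  All events are unions of events `∀ v ∈ A, φ v = x v` with `A ⊆ P`, bounded by
`(B/n)^|A|` (`PLs.joint`).  Edges of type I: `i ∈ P`, `i ≠ τ` (two random labels); the edges `τ` (sum `φ τ + lab (p τ)`) and `r ∈ ex` (sum `lab r + φ (p r)`) are
determined by one random label.  All values are `≤ 2n - 1`.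
* one value: `Pr ≤ C/n`.
* two different values `s ≠ s'`: two labels: `(B/n)²`; label `s` of `v` and sum `s'` of a type I edge: three labels with one free, or two determined labels if `v` is one
of its ends; label `s` of `v` and sum of `τ` or `r`: if `v ≠ τ` (`v ≠ p r`) `(B/n)²`; if `v = τ` then `s' = s + lab (p τ)`, probability `≤ B/n`
(similarly `s' = s + lab r`), this is the extra term.  Two sums: as in SEM.LW5 (`p r ≠ τ`).
* not injective: two equal labels; two equal sums; a label equal to a sum: for a type I edge `(i, p i)` and `v ∉ {i, p i}` three labels with two free values: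
`n² (B/n)³`; `v ∈ {i, p i}`: impossible as labels are positive (`Y ⊆ Icc 1 _`); for `τ`: `v ≠ τ`: `n (B/n)²`, `v = τ` impossible as `lab (p τ) ≥ 1`.
-/

set_option autoImplicit false

namespace Pool.Agent.SQ

open Finset Pool.Agent.SEM

/-- the value `s` is used on the piece -/
def us (p : ℕ → ℕ) (P ex : Finset ℕ) (s : ℕ) (φ : ℕ → ℕ) : Prop :=
  (∃ v ∈ P, φ v = s) ∨ ∃ i ∈ P ∪ ex, φ i + φ (p i) = s

section H47

variable {n : ℕ} {p lab : ℕ → ℕ} {R Y U P ex : Finset ℕ} {τ K : ℕ} {B : ℝ} {L : FL}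

private theorem Pr_mono_h47 (hnn : ∀ ω, 0 ≤ L.wt ω) {E F : (ℕ → ℕ) → Prop}
    (h : ∀ ω, L.wt ω ≠ 0 → E (L.Φ ω) → F (L.Φ ω)) : L.Pr E ≤ L.Pr F := by
  unfold FL.Pr FL.Ex
  letI := L.fin
  refine Finset.sum_le_sum fun ω _ => ?_
  by_cases hw : L.wt ω = 0
  · rw [hw, zero_mul, zero_mul]
  · refine mul_le_mul_of_nonneg_left ?_ (hnn ω)
    beta_reduce
    by_cases hE : E (L.Φ ω)
    · rw [if_pos hE, if_pos (h ω hw hE)]
    · rw [if_neg hE]
      split_ifs <;> norm_num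

private theorem Pr_nonneg_h47 (hnn : ∀ ω, 0 ≤ L.wt ω) (E : (ℕ → ℕ) → Prop) : 0 ≤ L.Pr E := by
  unfold FL.Pr FL.Ex
  letI := L.fin
  refine Finset.sum_nonneg fun ω _ => mul_nonneg (hnn ω) ?_
  beta_reduce
  split_ifs <;> norm_num

private theorem Pr_zero_h47 (hnn : ∀ ω, 0 ≤ L.wt ω) {E : (ℕ → ℕ) → Prop}
    (h : ∀ ω, L.wt ω ≠ 0 → ¬ E (L.Φ ω)) : L.Pr E ≤ 0 := by
  unfold FL.Pr FL.Ex
  letI := L.fin
  refine Finset.sum_nonpos fun ω _ => ?_
  by_cases hw : L.wt ω = 0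
  · rw [hw, zero_mul]
  · beta_reduce
    rw [if_neg (h ω hw), mul_zero]

open Classical in
private theorem Pr_union_h47 (hnn : ∀ ω, 0 ≤ L.wt ω) {ι : Type*} (s : Finset ι)
    (E : ι → (ℕ → ℕ) → Prop) :
    L.Pr (fun φ => ∃ i ∈ s, E i φ) ≤ ∑ i ∈ s, L.Pr (E i) := by
  unfold FL.Pr FL.Ex
  letI := L.fin
  rw [Finset.sum_comm]
  refine Finset.sum_le_sum fun ω _ => ?_
  rw [← Finset.mul_sum]
  refine mul_le_mul_of_nonneg_left ?_ (hnn ω)
  beta_reduce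
  by_cases h : ∃ i ∈ s, E i (L.Φ ω)
  · rw [if_pos h]
    obtain ⟨i, hi, hE⟩ := h
    calc (1 : ℝ) = (if E i (L.Φ ω) then (1:ℝ) else 0) := by rw [if_pos hE]
      _ ≤ _ := Finset.single_le_sum (f := fun i => if E i (L.Φ ω) then (1:ℝ) else 0)
          (fun j _ => by split_ifs <;> norm_num) hi
  · rw [if_neg h]
    exact Finset.sum_nonneg fun j _ => by split_ifs <;> norm_num

private theorem Pr_or_h47 (hnn : ∀ ω, 0 ≤ L.wt ω) (E F : (ℕ → ℕ) → Prop) :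
    L.Pr (fun φ => E φ ∨ F φ) ≤ L.Pr E + L.Pr F := by
  unfold FL.Pr FL.Ex
  letI := L.fin
  rw [← Finset.sum_add_distrib]
  refine Finset.sum_le_sum fun ω _ => ?_
  rw [← mul_add]
  refine mul_le_mul_of_nonneg_left ?_ (hnn ω)
  beta_reduce
  by_cases h1 : E (L.Φ ω)
  · rw [if_pos (Or.inl h1), if_pos h1]
    split_ifs <;> norm_num
  · by_cases h2 : F (L.Φ ω)
    · rw [if_pos (Or.inr h2), if_neg h1, if_pos h2]; norm_num
    · rw [if_neg (by tauto), if_neg h1, if_neg h2]; norm_num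

private theorem P1_h47 (hL : PLs n p lab Y U P ex B L) {a : ℕ} (ha : a ∈ P)
    {E : (ℕ → ℕ) → Prop} (xa : ℕ)
    (hE : ∀ ω, L.wt ω ≠ 0 → E (L.Φ ω) → L.Φ ω a = xa) : L.Pr E ≤ B / n := by
  have h := hL.joint {a} (Finset.singleton_subset_iff.mpr ha) (fun _ => xa)
  rw [Finset.card_singleton, pow_one] at h
  refine (Pr_mono_h47 hL.nn fun ω hw hE' => ?_).trans h
  intro v hv
  rw [Finset.mem_singleton.mp hv]
  exact hE ω hw hE'

private theorem P2_h47 (hL : PLs n p lab Y U P ex B L) {a b : ℕ} (ha : a ∈ P) (hb : b ∈ P)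
    (hab : a ≠ b) {E : (ℕ → ℕ) → Prop} (xa xb : ℕ)
    (hE : ∀ ω, L.wt ω ≠ 0 → E (L.Φ ω) → L.Φ ω a = xa ∧ L.Φ ω b = xb) :
    L.Pr E ≤ (B / n) ^ 2 := by
  have h := hL.joint {a, b} (by
    intro v hv
    rcases Finset.mem_insert.mp hv with rfl | hv
    · exact ha
    · rw [Finset.mem_singleton.mp hv]; exact hb) (fun v => if v = a then xa else xb)
  rw [Finset.card_pair hab] at h
  refine (Pr_mono_h47 hL.nn fun ω hw hE' => ?_).trans h
  obtain ⟨h1, h2⟩ := hE ω hw hE'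
  intro v hv
  rcases Finset.mem_insert.mp hv with rfl | hv
  · rw [if_pos rfl]; exact h1
  · rw [Finset.mem_singleton.mp hv, if_neg hab.symm]; exact h2

private theorem P3_h47 (hL : PLs n p lab Y U P ex B L) {a b c : ℕ} (ha : a ∈ P) (hb : b ∈ P)
    (hc : c ∈ P) (hab : a ≠ b) (hac : a ≠ c) (hbc : b ≠ c) {E : (ℕ → ℕ) → Prop}
    (xa xb xc : ℕ)
    (hE : ∀ ω, L.wt ω ≠ 0 → E (L.Φ ω) →
      L.Φ ω a = xa ∧ L.Φ ω b = xb ∧ L.Φ ω c = xc) :
    L.Pr E ≤ (B / n) ^ 3 := by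
  have h := hL.joint {a, b, c} (by
    intro v hv
    rcases Finset.mem_insert.mp hv with rfl | hv
    · exact ha
    rcases Finset.mem_insert.mp hv with rfl | hv
    · exact hb
    · rw [Finset.mem_singleton.mp hv]; exact hc)
    (fun v => if v = a then xa else if v = b then xb else xc)
  have hcard : ({a, b, c} : Finset ℕ).card = 3 := by
    rw [Finset.card_insert_of_notMem (by simp [hab, hac]),
      Finset.card_pair hbc]
  rw [hcard] at h
  refine (Pr_mono_h47 hL.nn fun ω hw hE' => ?_).trans h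
  obtain ⟨h1, h2, h3⟩ := hE ω hw hE'
  intro v hv
  rcases Finset.mem_insert.mp hv with rfl | hv
  · rw [if_pos rfl]; exact h1
  rcases Finset.mem_insert.mp hv with rfl | hv
  · rw [if_neg hab.symm, if_pos rfl]; exact h2
  · rw [Finset.mem_singleton.mp hv, if_neg hac.symm, if_neg hbc.symm]; exact h3

private theorem P4_h47 (hL : PLs n p lab Y U P ex B L) {a b c d : ℕ} (ha : a ∈ P)
    (hb : b ∈ P) (hc : c ∈ P) (hd : d ∈ P) (hab : a ≠ b) (hac : a ≠ c) (had : a ≠ d)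
    (hbc : b ≠ c) (hbd : b ≠ d) (hcd : c ≠ d) {E : (ℕ → ℕ) → Prop} (xa xb xc xd : ℕ)
    (hE : ∀ ω, L.wt ω ≠ 0 → E (L.Φ ω) →
      L.Φ ω a = xa ∧ L.Φ ω b = xb ∧ L.Φ ω c = xc ∧ L.Φ ω d = xd) :
    L.Pr E ≤ (B / n) ^ 4 := by
  have h := hL.joint {a, b, c, d} (by
    intro v hv
    rcases Finset.mem_insert.mp hv with rfl | hv
    · exact ha
    rcases Finset.mem_insert.mp hv with rfl | hv
    · exact hb
    rcases Finset.mem_insert.mp hv with rfl | hv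
    · exact hc
    · rw [Finset.mem_singleton.mp hv]; exact hd)
    (fun v => if v = a then xa else if v = b then xb else if v = c then xc else xd)
  have hcard : ({a, b, c, d} : Finset ℕ).card = 4 := by
    rw [Finset.card_insert_of_notMem (by simp [hab, hac, had]),
      Finset.card_insert_of_notMem (by simp [hbc, hbd]), Finset.card_pair hcd]
  rw [hcard] at h
  refine (Pr_mono_h47 hL.nn fun ω hw hE' => ?_).trans h
  obtain ⟨h1, h2, h3, h4⟩ := hE ω hw hE'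
  intro v hv
  rcases Finset.mem_insert.mp hv with rfl | hv
  · rw [if_pos rfl]; exact h1
  rcases Finset.mem_insert.mp hv with rfl | hv
  · rw [if_neg hab.symm, if_pos rfl]; exact h2
  rcases Finset.mem_insert.mp hv with rfl | hv
  · rw [if_neg hac.symm, if_neg hbc.symm, if_pos rfl]; exact h3
  · rw [Finset.mem_singleton.mp hv, if_neg had.symm, if_neg hbd.symm, if_neg hcd.symm]
    exact h4

/-- fix the label of one vertex of `P` -/
private theorem cond_h47 (hL : PLs n p lab Y U P ex B L) (hY : Y ⊆ Icc 1 (2 * n - 1)) {a : ℕ}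
    (ha : a ∈ P) {E : (ℕ → ℕ) → Prop} {D : ℝ} (hD : 0 ≤ D)
    (h : ∀ x, L.Pr (fun φ => E φ ∧ φ a = x) ≤ D) : L.Pr E ≤ 2 * n * D := by
  have h1 : L.Pr E ≤ L.Pr (fun φ => ∃ x ∈ Y, (E φ ∧ φ a = x)) :=
    Pr_mono_h47 hL.nn fun ω hw hE => ⟨L.Φ ω a, hL.lbl ω hw a ha, hE, rfl⟩
  refine h1.trans ((Pr_union_h47 hL.nn Y (fun x φ => E φ ∧ φ a = x)).trans ?_)
  refine (Finset.sum_le_sum fun x _ => h x).trans ?_
  rw [Finset.sum_const, nsmul_eq_mul]
  refine mul_le_mul_of_nonneg_right ?_ hD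
  have := Finset.card_le_card hY
  rw [Nat.card_Icc] at this
  exact_mod_cast this.trans (by omega)

private theorem arith_h47 (hn : 1 ≤ n) (hB : 1 ≤ B) :
    (B / n) ^ 2 ≤ 4 * B ^ 4 / n ^ 2 ∧ 2 * (n : ℝ) * (B / n) ^ 3 ≤ 4 * B ^ 4 / n ^ 2 ∧
      2 * (n : ℝ) * (2 * n * (B / n) ^ 4) ≤ 4 * B ^ 4 / n ^ 2 ∧ B / n ≤ 4 * B ^ 4 / n ∧
      2 * (n : ℝ) * (B / n) ^ 2 ≤ 4 * B ^ 4 / n := by
  have hn0 : (0 : ℝ) < n := by exact_mod_cast hn
  have hB0 : 0 < B := by linarith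
  have h24 : B ^ 2 ≤ B ^ 4 := pow_le_pow_right₀ hB (by norm_num)
  have h34 : B ^ 3 ≤ B ^ 4 := pow_le_pow_right₀ hB (by norm_num)
  have h14 : B ≤ B ^ 4 := by
    calc B = B ^ 1 := (pow_one B).symm
      _ ≤ B ^ 4 := pow_le_pow_right₀ hB (by norm_num)
  have h4 : 0 < B ^ 4 := by positivity
  refine ⟨?_, ?_, ?_, ?_, ?_⟩
  · rw [div_pow]
    exact div_le_div_of_nonneg_right (by linarith) (by positivity)
  · have : 2 * (n : ℝ) * (B / n) ^ 3 = 2 * B ^ 3 / n ^ 2 := by field_simp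
    rw [this]
    exact div_le_div_of_nonneg_right (by linarith) (by positivity)
  · have : 2 * (n : ℝ) * (2 * n * (B / n) ^ 4) = 4 * B ^ 4 / n ^ 2 := by field_simp; ring
    rw [this]
  · exact div_le_div_of_nonneg_right (by linarith) hn0.le
  · have : 2 * (n : ℝ) * (B / n) ^ 2 = 2 * B ^ 2 / n := by field_simp
    rw [this]
    exact div_le_div_of_nonneg_right (by linarith) hn0.le

private theorem onR_h47 (hG : Geo p R P ex τ) (hL : PLs n p lab Y U P ex B L) (ω : L.Ω) (r : ℕ)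
    (hr : r ∈ R) : L.Φ ω r = lab r :=
  hL.off ω r fun h => Finset.disjoint_left.mp hG.PR h hr

/-- the two kinds of edges -/
private theorem kinds_h47 (hG : Geo p R P ex τ) (hL : PLs n p lab Y U P ex B L) {i : ℕ}
    (hi : i ∈ P ∪ ex) :
    (i ∈ P ∧ i ≠ τ ∧ p i ∈ P ∧ p i < i) ∨
      (i = τ ∧ ∀ ω, L.Φ ω i + L.Φ ω (p i) = L.Φ ω τ + lab (p τ)) ∨
      (i ∈ ex ∧ i ∉ P ∧ p i ∈ P ∧ p i ≠ τ ∧
        ∀ ω, L.Φ ω i + L.Φ ω (p i) = L.Φ ω (p i) + lab i) := by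
  rcases Finset.mem_union.mp hi with hi | hi
  · by_cases hτ : i = τ
    · right; left
      refine ⟨hτ, fun ω => ?_⟩
      rw [hτ, onR_h47 hG hL ω _ hG.tR]
    · left
      exact ⟨hi, hτ, hG.st i hi hτ, hG.lt i hi⟩
  · right; right
    refine ⟨hi, ?_, (hG.exP i hi).1, (hG.exP i hi).2, fun ω => ?_⟩
    · intro hP
      exact Finset.disjoint_left.mp hG.PR hP (hG.exR hi)
    · rw [onR_h47 hG hL ω _ (hG.exR hi)]
      ring

/-- one sum -/
private theorem sum1_h47 (hn : 1 ≤ n) (hY : Y ⊆ Icc 1 (2 * n - 1)) (hB : 1 ≤ B) (hG : Geo p R P ex τ)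
    (hL : PLs n p lab Y U P ex B L) {i : ℕ} (hi : i ∈ P ∪ ex) (s : ℕ) :
    L.Pr (fun φ => φ i + φ (p i) = s) ≤ 4 * B ^ 4 / n := by
  obtain ⟨-, -, -, ha4, ha5⟩ := arith_h47 (n := n) hn hB
  have hn0 : (0 : ℝ) < n := by exact_mod_cast hn
  have hB0 : 0 < B := by linarith
  rcases kinds_h47 hG hL hi with ⟨hiP, -, hpP, hlt⟩ | ⟨-, hsum⟩ | ⟨-, -, hpP, -, hsum⟩
  · refine (cond_h47 hL hY hiP (D := (B / n) ^ 2) (by positivity) fun x => ?_).trans ha5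
    refine P2_h47 hL hiP hpP hlt.ne' x (s - x) fun ω _ hE => ?_
    obtain ⟨h1, h2⟩ := hE
    exact ⟨h2, by omega⟩
  · refine (P1_h47 hL hG.tP (s - lab (p τ)) fun ω _ hE => ?_).trans ha4
    rw [hsum ω] at hE
    omega
  · refine (P1_h47 hL hpP (s - lab i) fun ω _ hE => ?_).trans ha4
    rw [hsum ω] at hE
    omega

private theorem swap_h47 (hnn : ∀ ω, 0 ≤ L.wt ω) {E F : (ℕ → ℕ) → Prop} :
    L.Pr (fun φ => E φ ∧ F φ) ≤ L.Pr (fun φ => F φ ∧ E φ) :=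
  Pr_mono_h47 hnn fun _ _ h => ⟨h.2, h.1⟩

/-- an inner edge and a determined edge -/
private theorem inner_det_h47 (hn : 1 ≤ n) (hY : Y ⊆ Icc 1 (2 * n - 1)) (hB : 1 ≤ B)
    (hL : PLs n p lab Y U P ex B L) {i j w c : ℕ} (hiP : i ∈ P) (hpP : p i ∈ P)
    (hlt : p i < i) (hw : w ∈ P) (hsum : ∀ ω, L.Φ ω j + L.Φ ω (p j) = L.Φ ω w + c)
    (s s' : ℕ) :
    L.Pr (fun φ => φ i + φ (p i) = s ∧ φ j + φ (p j) = s') ≤ 4 * B ^ 4 / n ^ 2 := by
  obtain ⟨ha1, ha2, -, -, -⟩ := arith_h47 (n := n) hn hB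
  have hn0 : (0 : ℝ) < n := by exact_mod_cast hn
  have hB0 : 0 < B := by linarith
  by_cases h1 : w = i
  · refine (P2_h47 hL hiP hpP hlt.ne' (s' - c) (s - (s' - c)) fun ω _ hE => ?_).trans ha1
    obtain ⟨h2, h3⟩ := hE
    rw [hsum ω, h1] at h3
    omega
  by_cases h2 : w = p i
  · refine (P2_h47 hL hiP hpP hlt.ne' (s - (s' - c)) (s' - c) fun ω _ hE => ?_).trans ha1
    obtain ⟨h3, h4⟩ := hE
    rw [hsum ω, h2] at h4
    omega
  · refine (cond_h47 hL hY hiP (D := (B / n) ^ 3) (by positivity) fun x => ?_).trans ha2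
    refine P3_h47 hL hiP hpP hw hlt.ne' (Ne.symm h1) (Ne.symm h2) x (s - x) (s' - c)
      fun ω _ hE => ?_
    obtain ⟨⟨h3, h4⟩, h5⟩ := hE
    rw [hsum ω] at h4
    omega

/-- two inner edges -/
private theorem inner_inner_h47 (hn : 1 ≤ n) (hY : Y ⊆ Icc 1 (2 * n - 1)) (hB : 1 ≤ B)
    (hL : PLs n p lab Y U P ex B L) {i j : ℕ} (hiP : i ∈ P) (hpP : p i ∈ P)
    (hlt : p i < i) (hjP : j ∈ P) (hqP : p j ∈ P) (hlt' : p j < j) (hij : i ≠ j)
    (s s' : ℕ) :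
    L.Pr (fun φ => φ i + φ (p i) = s ∧ φ j + φ (p j) = s') ≤ 4 * B ^ 4 / n ^ 2 := by
  obtain ⟨ha1, ha2, ha3, -, -⟩ := arith_h47 (n := n) hn hB
  have hn0 : (0 : ℝ) < n := by exact_mod_cast hn
  have hB0 : 0 < B := by linarith
  by_cases h1 : p i = j
  · refine (cond_h47 hL hY hjP (D := (B / n) ^ 3) (by positivity) fun x => ?_).trans ha2
    refine P3_h47 hL hjP hiP hqP (Ne.symm hij) hlt'.ne' (by omega) x (s - x) (s' - x)
      fun ω _ hE => ?_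
    obtain ⟨⟨h3, h4⟩, h5⟩ := hE
    rw [h1] at h3
    omega
  by_cases h2 : p j = i
  · refine (cond_h47 hL hY hiP (D := (B / n) ^ 3) (by positivity) fun x => ?_).trans ha2
    refine P3_h47 hL hiP hjP hpP hij hlt.ne' (by omega) x (s' - x) (s - x)
      fun ω _ hE => ?_
    obtain ⟨⟨h3, h4⟩, h5⟩ := hE
    rw [h2] at h4
    omega
  by_cases h3 : p i = p j
  · refine (cond_h47 hL hY hpP (D := (B / n) ^ 3) (by positivity) fun x => ?_).trans ha2
    refine P3_h47 hL hpP hiP hjP hlt.ne (by omega) hij x (s - x) (s' - x)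
      fun ω _ hE => ?_
    obtain ⟨⟨h4, h5⟩, h6⟩ := hE
    rw [← h3] at h5
    omega
  · refine (cond_h47 hL hY hiP (D := 2 * n * (B / n) ^ 4) (by positivity) fun x => ?_).trans ha3
    refine cond_h47 hL hY hjP (D := (B / n) ^ 4) (by positivity) fun y => ?_
    refine P4_h47 hL hiP hpP hjP hqP hlt.ne' hij (Ne.symm h2) h1 h3 hlt'.ne' x (s - x) y
      (s' - y) fun ω _ hE => ?_
    obtain ⟨⟨⟨h4, h5⟩, h6⟩, h7⟩ := hE
    omega

/-- two sums -/
private theorem sum2_h47 (hn : 1 ≤ n) (hY : Y ⊆ Icc 1 (2 * n - 1)) (hB : 1 ≤ B) (hG : Geo p R P ex τ)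
    (hL : PLs n p lab Y U P ex B L) {i j : ℕ} (hi : i ∈ P ∪ ex) (hj : j ∈ P ∪ ex)
    (hij : i ≠ j) (s s' : ℕ) :
    L.Pr (fun φ => φ i + φ (p i) = s ∧ φ j + φ (p j) = s') ≤ 4 * B ^ 4 / n ^ 2 := by
  obtain ⟨ha1, -, -, -, -⟩ := arith_h47 (n := n) hn hB
  rcases kinds_h47 hG hL hi with ⟨hiP, -, hpP, hlt⟩ | ⟨hiτ, hsum⟩ | ⟨hie, -, hpP, hpτ, hsum⟩
  · rcases kinds_h47 hG hL hj with ⟨hjP, -, hqP, hlt'⟩ | ⟨-, hsum'⟩ | ⟨-, -, hqP, -, hsum'⟩
    · exact inner_inner_h47 hn hY hB hL hiP hpP hlt hjP hqP hlt' hij s s'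
    · exact inner_det_h47 hn hY hB hL hiP hpP hlt hG.tP hsum' s s'
    · exact inner_det_h47 hn hY hB hL hiP hpP hlt hqP hsum' s s'
  · rcases kinds_h47 hG hL hj with ⟨hjP, -, hqP, hlt'⟩ | ⟨hjτ, hsum'⟩ |
      ⟨-, -, hqP, hqτ, hsum'⟩
    · exact (swap_h47 hL.nn).trans
        (inner_det_h47 hn hY hB hL hjP hqP hlt' hG.tP hsum s' s)
    · exact absurd (hiτ.trans hjτ.symm) hij
    · refine (P2_h47 hL hG.tP hqP (Ne.symm hqτ) (s - lab (p τ)) (s' - lab j)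
        fun ω _ hE => ?_).trans ha1
      obtain ⟨h1, h2⟩ := hE
      rw [hsum ω] at h1
      rw [hsum' ω] at h2
      omega
  · rcases kinds_h47 hG hL hj with ⟨hjP, -, hqP, hlt'⟩ | ⟨hjτ, hsum'⟩ |
      ⟨hje, -, hqP, hqτ, hsum'⟩
    · exact (swap_h47 hL.nn).trans
        (inner_det_h47 hn hY hB hL hjP hqP hlt' hpP hsum s' s)
    · refine (P2_h47 hL hpP hG.tP hpτ (s - lab i) (s' - lab (p τ))
        fun ω _ hE => ?_).trans ha1
      obtain ⟨h1, h2⟩ := hE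
      rw [hsum ω] at h1
      rw [hsum' ω] at h2
      omega
    · exact absurd (Finset.card_le_one.mp hG.ex1 i hie j hje) hij

/-- a label and the sum of a determined edge -/
private theorem lab_det_h47 (hn : 1 ≤ n) (hB : 1 ≤ B)
    (hL : PLs n p lab Y U P ex B L) {v i w c : ℕ} (hv : v ∈ P) (hw : w ∈ P)
    (hsum : ∀ ω, L.Φ ω i + L.Φ ω (p i) = L.Φ ω w + c) (x s : ℕ) :
    L.Pr (fun φ => φ v = x ∧ φ i + φ (p i) = s) ≤
      4 * B ^ 4 / n ^ 2 + if v = w ∧ x + c = s then B / n else 0 := by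
  obtain ⟨ha1, ha2, -, -, -⟩ := arith_h47 (n := n) hn hB
  have hn0 : (0 : ℝ) < n := by exact_mod_cast hn
  have hB0 : 0 < B := by linarith
  have hD : (0:ℝ) ≤ 4 * B ^ 4 / n ^ 2 := by positivity
  by_cases h1 : v = w
  · by_cases h2 : x + c = s
    · rw [if_pos ⟨h1, h2⟩]
      have := P1_h47 hL hv (E := fun φ => φ v = x ∧ φ i + φ (p i) = s) x
        (fun ω _ hE => hE.1)
      linarith
    · rw [if_neg (fun h => h2 h.2), add_zero]
      refine (Pr_zero_h47 hL.nn fun ω _ hE => h2 ?_).trans hD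
      obtain ⟨h3, h4⟩ := hE
      rw [hsum ω, ← h1] at h4
      omega
  · rw [if_neg (fun h => h1 h.1), add_zero]
    refine (P2_h47 hL hv hw h1 x (s - c) fun ω _ hE => ?_).trans ha1
    obtain ⟨h3, h4⟩ := hE
    rw [hsum ω] at h4
    omega

/-- a label and a sum -/
private theorem lab_sum_h47 (hn : 1 ≤ n) (hY : Y ⊆ Icc 1 (2 * n - 1)) (hB : 1 ≤ B)
    (hG : Geo p R P ex τ) (hL : PLs n p lab Y U P ex B L) {v i : ℕ} (hv : v ∈ P)
    (hi : i ∈ P ∪ ex) (x s : ℕ) :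
    L.Pr (fun φ => φ v = x ∧ φ i + φ (p i) = s) ≤ 4 * B ^ 4 / n ^ 2 +
      (if i = τ ∧ v = τ then (if x + lab (p τ) = s then B / n else 0) else 0) +
      (if i ∈ ex ∧ v = p i then (if x + lab i = s then B / n else 0) else 0) := by
  obtain ⟨ha1, ha2, -, -, -⟩ := arith_h47 (n := n) hn hB
  have hn0 : (0 : ℝ) < n := by exact_mod_cast hn
  have hB0 : 0 < B := by linarith
  have hu : (0:ℝ) ≤ B / n := by positivity
  rcases kinds_h47 hG hL hi with ⟨hiP, hiτ, hpP, hlt⟩ | ⟨hiτ, hsum⟩ |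
    ⟨hie, hiP, hpP, hpτ, hsum⟩
  · rw [if_neg (fun h => hiτ h.1)]
    have hnex : ¬ (i ∈ ex ∧ v = p i) := fun h =>
      Finset.disjoint_left.mp hG.PR hiP (hG.exR h.1)
    rw [if_neg hnex, add_zero, add_zero]
    by_cases h1 : v = i
    · refine (P2_h47 hL hiP hpP hlt.ne' x (s - x) fun ω _ hE => ?_).trans ha1
      obtain ⟨h3, h4⟩ := hE
      rw [h1] at h3
      omega
    by_cases h2 : v = p i
    · refine (P2_h47 hL hiP hpP hlt.ne' (s - x) x fun ω _ hE => ?_).trans ha1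
      obtain ⟨h3, h4⟩ := hE
      rw [h2] at h3
      omega
    · refine (cond_h47 hL hY hiP (D := (B / n) ^ 3) (by positivity) fun y => ?_).trans ha2
      refine P3_h47 hL hiP hpP hv hlt.ne' (Ne.symm h1) (Ne.symm h2) y (s - y) x
        fun ω _ hE => ?_
      obtain ⟨⟨h3, h4⟩, h5⟩ := hE
      omega
  · have h := lab_det_h47 hn hB hL hv hG.tP hsum x s
    refine h.trans ?_
    have h3 : (if v = τ ∧ x + lab (p τ) = s then B / (n:ℝ) else 0) ≤
        (if i = τ ∧ v = τ then (if x + lab (p τ) = s then B / n else 0) else 0) := by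
      by_cases ha : v = τ ∧ x + lab (p τ) = s
      · rw [if_pos ha, if_pos ⟨hiτ, ha.1⟩, if_pos ha.2]
      · rw [if_neg ha]
        split_ifs <;> first | exact le_rfl | exact hu
    have h4 : (0:ℝ) ≤ (if i ∈ ex ∧ v = p i then (if x + lab i = s then B / n else 0) else 0) := by
      split_ifs <;> first | exact le_rfl | exact hu
    linarith
  · have h := lab_det_h47 hn hB hL hv hpP hsum x s
    refine h.trans ?_
    have h3 : (if v = p i ∧ x + lab i = s then B / (n:ℝ) else 0) ≤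
        (if i ∈ ex ∧ v = p i then (if x + lab i = s then B / n else 0) else 0) := by
      by_cases ha : v = p i ∧ x + lab i = s
      · rw [if_pos ha, if_pos ⟨hie, ha.1⟩, if_pos ha.2]
      · rw [if_neg ha]
        split_ifs <;> first | exact le_rfl | exact hu
    have h4 : (0:ℝ) ≤ (if i = τ ∧ v = τ then (if x + lab (p τ) = s then B / n else 0)
        else 0) := by
      split_ifs <;> first | exact le_rfl | exact hu
    linarith

/-- union bound over pairs -/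
private theorem pairs_h47 (hnn : ∀ ω, 0 ≤ L.wt ω) {α β : Type*} (A : Finset α) (D : Finset β)
    (E : α → (ℕ → ℕ) → Prop) (F : β → (ℕ → ℕ) → Prop) :
    L.Pr (fun φ => (∃ a ∈ A, E a φ) ∧ ∃ b ∈ D, F b φ) ≤
      ∑ a ∈ A, ∑ b ∈ D, L.Pr (fun φ => E a φ ∧ F b φ) := by
  have h1 : L.Pr (fun φ => (∃ a ∈ A, E a φ) ∧ ∃ b ∈ D, F b φ) ≤
      L.Pr (fun φ => ∃ q ∈ A ×ˢ D, (E q.1 φ ∧ F q.2 φ)) := by
    refine Pr_mono_h47 hnn fun ω _ hE => ?_
    obtain ⟨⟨v, hv, h2⟩, w, hw, h3⟩ := hE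
    exact ⟨(v, w), Finset.mem_product.mpr ⟨hv, hw⟩, h2, h3⟩
  refine h1.trans ((Pr_union_h47 hnn (A ×ˢ D) (fun q φ => E q.1 φ ∧ F q.2 φ)).trans ?_)
  rw [Finset.sum_product]

private theorem sumK_h47 {α β : Type*} (A : Finset α) (D : Finset β) {K' c : ℝ} (hc : 0 ≤ c)
    (hA : (A.card : ℝ) ≤ K') (hD : (D.card : ℝ) ≤ K') :
    ∑ _a ∈ A, ∑ _b ∈ D, c ≤ K' ^ 2 * c := by
  rw [Finset.sum_const, Finset.sum_const, nsmul_eq_mul, nsmul_eq_mul, ← mul_assoc]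
  refine mul_le_mul_of_nonneg_right ?_ hc
  rw [pow_two]
  exact mul_le_mul hA hD (Nat.cast_nonneg _) ((Nat.cast_nonneg _).trans hA)

private theorem ls_h47 (hn : 1 ≤ n) (hY : Y ⊆ Icc 1 (2 * n - 1)) (hB : 1 ≤ B)
    (hG : Geo p R P ex τ) (hL : PLs n p lab Y U P ex B L) {K' : ℝ} (hP : (P.card : ℝ) ≤ K')
    (hE : ((P ∪ ex).card : ℝ) ≤ K') (x s : ℕ) :
    L.Pr (fun φ => (∃ v ∈ P, φ v = x) ∧ ∃ i ∈ P ∪ ex, φ i + φ (p i) = s) ≤
      K' ^ 2 * (4 * B ^ 4 / n ^ 2) + (if x + lab (p τ) = s then B / n else 0) +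
        ∑ r ∈ ex, if x + lab r = s then B / n else 0 := by
  have hn0 : (0 : ℝ) < n := by exact_mod_cast hn
  have hB0 : 0 < B := by linarith
  refine (pairs_h47 hL.nn P (P ∪ ex) (fun v φ => φ v = x)
    (fun i φ => φ i + φ (p i) = s)).trans ?_
  refine (Finset.sum_le_sum fun v hv => Finset.sum_le_sum fun i hi =>
    lab_sum_h47 hn hY hB hG hL hv hi x s).trans ?_
  have hS1 := sumK_h47 P (P ∪ ex) (c := 4 * B ^ 4 / (n:ℝ) ^ 2) (by positivity) hP hE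
  have hS2 : ∑ v ∈ P, ∑ i ∈ P ∪ ex, (if i = τ ∧ v = τ then
      (if x + lab (p τ) = s then B / (n:ℝ) else 0) else 0) ≤
      (if x + lab (p τ) = s then B / n else 0) := by
    rw [Finset.sum_eq_single_of_mem τ hG.tP]
    · rw [Finset.sum_eq_single_of_mem τ (Finset.mem_union_left _ hG.tP)]
      · rw [if_pos ⟨rfl, rfl⟩]
      · intro i _ hi
        rw [if_neg (fun h => hi h.1)]
    · intro v _ hv
      refine Finset.sum_eq_zero fun i _ => ?_
      rw [if_neg (fun h => hv h.2)]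
  have hS3 : ∑ v ∈ P, ∑ i ∈ P ∪ ex, (if i ∈ ex ∧ v = p i then
      (if x + lab i = s then B / (n:ℝ) else 0) else 0) ≤
      ∑ r ∈ ex, if x + lab r = s then B / (n:ℝ) else 0 := by
    rw [Finset.sum_comm]
    rw [← Finset.sum_subset (Finset.subset_union_right : ex ⊆ P ∪ ex)]
    · refine Finset.sum_le_sum fun r hr => ?_
      rw [Finset.sum_eq_single_of_mem (p r) (hG.exP r hr).1]
      · rw [if_pos ⟨hr, rfl⟩]
      · intro v _ hv
        rw [if_neg (fun h => hv h.2)]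
    · intro r _ hr
      refine Finset.sum_eq_zero fun v _ => ?_
      rw [if_neg (fun h => hr h.1)]
  simp only [Finset.sum_add_distrib] at *
  linarith

end H47

theorem piece_bounds (K : ℕ) (B : ℝ) (hB : 1 ≤ B) : ∃ C : ℝ, 0 < C ∧ ∀ (n : ℕ)
    (p lab : ℕ → ℕ) (R Y U P ex : Finset ℕ) (τ : ℕ) (L : FL), 1 ≤ n → Y ⊆ Icc 1 (2 * n - 1) →
    U ⊆ Icc 1 (2 * n - 1) → P.card ≤ K → Geo p R P ex τ → PLs n p lab Y U P ex B L →
    (1 ≤ lab (p τ)) → (∀ r ∈ ex, 1 ≤ lab r) →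
    (∀ s, L.Pr (us p P ex s) ≤ C / n) ∧
    (∀ s s', s ≠ s' → L.Pr (fun φ => us p P ex s φ ∧ us p P ex s' φ) ≤ C / (n : ℝ) ^ 2 +
      (if s' = s + lab (p τ) ∨ s = s' + lab (p τ) then B / n else 0) +
        ∑ r ∈ ex, if s' = s + lab r ∨ s = s' + lab r then B / n else 0) ∧
    L.Pr (fun φ => ¬ Emb p φ P (P ∪ ex)) ≤ C / n := by
  refine ⟨100 * ((K : ℝ) + 1) ^ 2 * B ^ 4, by positivity, ?_⟩
  intro n p lab R Y U P ex τ L hn hY hU hK hG hL hlτ hlr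
  obtain ⟨ha1, ha2, ha3, ha4, ha5⟩ := arith_h47 (n := n) hn hB
  have hn0 : (0 : ℝ) < n := by exact_mod_cast hn
  have hB0 : 0 < B := by linarith
  set K' : ℝ := (K : ℝ) + 1 with hK'
  have hK1 : (1 : ℝ) ≤ K' := by
    have : (0:ℝ) ≤ K := Nat.cast_nonneg _
    linarith
  have hPc : (P.card : ℝ) ≤ K' := by
    have : (P.card : ℝ) ≤ K := by exact_mod_cast hK
    linarith
  have hec : ((P ∪ ex).card : ℝ) ≤ K' := by
    have h1 := Finset.card_union_le P ex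
    have h2 := hG.ex1
    have h3 : (P ∪ ex).card ≤ K + 1 := by omega
    have h4 : ((P ∪ ex).card : ℝ) ≤ ((K + 1 : ℕ) : ℝ) := by exact_mod_cast h3
    rw [hK']
    push_cast at h4
    exact h4
  have hA : (0:ℝ) ≤ 4 * B ^ 4 / n := by positivity
  have hD : (0:ℝ) ≤ 4 * B ^ 4 / n ^ 2 := by positivity
  have hu : (0:ℝ) ≤ B / n := by positivity
  have hKK : K' ≤ K' ^ 2 := by nlinarith
  have hUc : (U.card : ℝ) ≤ 2 * n := by
    have := Finset.card_le_card hU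
    rw [Nat.card_Icc] at this
    exact_mod_cast this.trans (by omega)
  have hU4 : (0:ℝ) ≤ K' ^ 2 * B ^ 4 / n := by positivity
  refine ⟨?_, ?_, ?_⟩
  · intro s
    have h1 := Pr_or_h47 hL.nn (fun φ => ∃ v ∈ P, φ v = s)
      (fun φ => ∃ i ∈ P ∪ ex, φ i + φ (p i) = s)
    have h2 : L.Pr (fun φ => ∃ v ∈ P, φ v = s) ≤ K' ^ 2 * (4 * B ^ 4 / n) := by
      refine (Pr_union_h47 hL.nn P (fun v φ => φ v = s)).trans ?_
      refine (Finset.sum_le_sum fun v hv =>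
        (P1_h47 hL hv (E := fun φ => φ v = s) s (fun ω _ h => h)).trans ha4).trans ?_
      rw [Finset.sum_const, nsmul_eq_mul]
      exact mul_le_mul_of_nonneg_right (hPc.trans hKK) hA
    have h3 : L.Pr (fun φ => ∃ i ∈ P ∪ ex, φ i + φ (p i) = s) ≤ K' ^ 2 * (4 * B ^ 4 / n) := by
      refine (Pr_union_h47 hL.nn (P ∪ ex) (fun i φ => φ i + φ (p i) = s)).trans ?_
      refine (Finset.sum_le_sum fun i hi => sum1_h47 hn hY hB hG hL hi s).trans ?_
      rw [Finset.sum_const, nsmul_eq_mul]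
      exact mul_le_mul_of_nonneg_right (hec.trans hKK) hA
    have h4 : K' ^ 2 * (4 * B ^ 4 / n) = 4 * (K' ^ 2 * B ^ 4 / n) := by ring
    have h5 : 100 * K' ^ 2 * B ^ 4 / n = 100 * (K' ^ 2 * B ^ 4 / n) := by ring
    rw [h5]
    unfold us
    rw [h4] at h2 h3
    linarith
  · intro s s' hss
    have e1 : L.Pr (fun φ => us p P ex s φ ∧ us p P ex s' φ) ≤
        L.Pr (fun φ => (((∃ v ∈ P, φ v = s) ∧ ∃ v ∈ P, φ v = s') ∨
          ((∃ v ∈ P, φ v = s) ∧ ∃ i ∈ P ∪ ex, φ i + φ (p i) = s')) ∨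
          (((∃ v ∈ P, φ v = s') ∧ ∃ i ∈ P ∪ ex, φ i + φ (p i) = s) ∨
          ((∃ i ∈ P ∪ ex, φ i + φ (p i) = s) ∧ ∃ i ∈ P ∪ ex, φ i + φ (p i) = s'))) := by
      refine Pr_mono_h47 hL.nn fun ω _ hE => ?_
      unfold us at hE
      beta_reduce
      obtain ⟨h1 | h1, h2 | h2⟩ := hE
      · exact Or.inl (Or.inl ⟨h1, h2⟩)
      · exact Or.inl (Or.inr ⟨h1, h2⟩)
      · exact Or.inr (Or.inl ⟨h2, h1⟩)
      · exact Or.inr (Or.inr ⟨h1, h2⟩)
    have o1 := Pr_or_h47 hL.nn (fun φ => ((∃ v ∈ P, φ v = s) ∧ ∃ v ∈ P, φ v = s') ∨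
          ((∃ v ∈ P, φ v = s) ∧ ∃ i ∈ P ∪ ex, φ i + φ (p i) = s'))
      (fun φ => ((∃ v ∈ P, φ v = s') ∧ ∃ i ∈ P ∪ ex, φ i + φ (p i) = s) ∨
          ((∃ i ∈ P ∪ ex, φ i + φ (p i) = s) ∧ ∃ i ∈ P ∪ ex, φ i + φ (p i) = s'))
    have o2 := Pr_or_h47 hL.nn (fun φ => (∃ v ∈ P, φ v = s) ∧ ∃ v ∈ P, φ v = s')
      (fun φ => (∃ v ∈ P, φ v = s) ∧ ∃ i ∈ P ∪ ex, φ i + φ (p i) = s')
    have o3 := Pr_or_h47 hL.nn (fun φ => (∃ v ∈ P, φ v = s') ∧ ∃ i ∈ P ∪ ex, φ i + φ (p i) = s)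
      (fun φ => (∃ i ∈ P ∪ ex, φ i + φ (p i) = s) ∧ ∃ i ∈ P ∪ ex, φ i + φ (p i) = s')
    have b1 : L.Pr (fun φ => (∃ v ∈ P, φ v = s) ∧ ∃ v ∈ P, φ v = s') ≤
        K' ^ 2 * (4 * B ^ 4 / n ^ 2) := by
      refine (pairs_h47 hL.nn P P (fun v φ => φ v = s) (fun v φ => φ v = s')).trans ?_
      refine (Finset.sum_le_sum (g := fun _ => ∑ _b ∈ P, 4 * B ^ 4 / (n:ℝ) ^ 2) fun v hv =>
        Finset.sum_le_sum fun w hw => ?_).trans (sumK_h47 P P hD hPc hPc)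
      by_cases h : v = w
      · refine (Pr_zero_h47 hL.nn fun ω _ hE => hss ?_).trans hD
        rw [← hE.1, ← hE.2, h]
      · exact (P2_h47 hL hv hw h s s' (fun ω _ hE => hE)).trans ha1
    have b2 := ls_h47 hn hY hB hG hL hPc hec s s'
    have b3 := ls_h47 hn hY hB hG hL hPc hec s' s
    have b4 : L.Pr (fun φ => (∃ i ∈ P ∪ ex, φ i + φ (p i) = s) ∧
        ∃ i ∈ P ∪ ex, φ i + φ (p i) = s') ≤ K' ^ 2 * (4 * B ^ 4 / n ^ 2) := by
      refine (pairs_h47 hL.nn (P ∪ ex) (P ∪ ex) (fun i φ => φ i + φ (p i) = s)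
        (fun i φ => φ i + φ (p i) = s')).trans ?_
      refine (Finset.sum_le_sum (g := fun _ => ∑ _b ∈ P ∪ ex, 4 * B ^ 4 / (n:ℝ) ^ 2) fun v hv =>
        Finset.sum_le_sum fun w hw => ?_).trans (sumK_h47 (P ∪ ex) (P ∪ ex) hD hec hec)
      by_cases h : v = w
      · refine (Pr_zero_h47 hL.nn fun ω _ hE => hss ?_).trans hD
        rw [← hE.1, ← hE.2, h]
      · exact sum2_h47 hn hY hB hG hL hv hw h s s'
    have c1 : ∀ c : ℕ, 1 ≤ c → ((if s + c = s' then B / (n:ℝ) else 0) +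
        if s' + c = s then B / (n:ℝ) else 0) ≤
        if s' = s + c ∨ s = s' + c then B / n else 0 := by
      intro c hc
      by_cases h1 : s + c = s'
      · rw [if_pos h1, if_neg (by omega), if_pos (by omega), add_zero]
      · by_cases h2 : s' + c = s
        · rw [if_neg h1, if_pos h2, if_pos (by omega), zero_add]
        · rw [if_neg h1, if_neg h2, if_neg (by omega), add_zero]
    have c2 := c1 (lab (p τ)) hlτ
    have c3 : (∑ r ∈ ex, if s + lab r = s' then B / (n:ℝ) else 0) +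
        (∑ r ∈ ex, if s' + lab r = s then B / (n:ℝ) else 0) ≤
        ∑ r ∈ ex, if s' = s + lab r ∨ s = s' + lab r then B / n else 0 := by
      rw [← Finset.sum_add_distrib]
      exact Finset.sum_le_sum fun r hr => c1 (lab r) (hlr r hr)
    have h4 : K' ^ 2 * (4 * B ^ 4 / n ^ 2) = 4 * (K' ^ 2 * B ^ 4 / n ^ 2) := by ring
    have h5 : 100 * K' ^ 2 * B ^ 4 / n ^ 2 = 100 * (K' ^ 2 * B ^ 4 / n ^ 2) := by ring
    have h6 : (0:ℝ) ≤ K' ^ 2 * B ^ 4 / n ^ 2 := by positivity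
    rw [h5]
    rw [h4] at b1 b2 b3 b4
    linarith
  · have e1 : L.Pr (fun φ => ¬ Emb p φ P (P ∪ ex)) ≤
        L.Pr (fun φ => (∃ q ∈ (P ×ˢ P).filter (fun q => q.1 ≠ q.2), φ q.1 = φ q.2) ∨
          ((∃ q ∈ ((P ∪ ex) ×ˢ (P ∪ ex)).filter (fun q => q.1 ≠ q.2),
            φ q.1 + φ (p q.1) = φ q.2 + φ (p q.2)) ∨
          ∃ q ∈ P ×ˢ (P ∪ ex), φ q.1 = φ q.2 + φ (p q.2))) := by
      refine Pr_mono_h47 hL.nn fun ω _ hE => ?_
      by_contra hcon
      push Not at hcon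
      obtain ⟨n1, n2, n3⟩ := hcon
      refine hE ⟨?_, ?_, ?_⟩
      · intro a ha b hb hab
        by_contra hne
        exact n1 (a, b) (Finset.mem_filter.mpr ⟨Finset.mem_product.mpr
          ⟨Finset.mem_coe.mp ha, Finset.mem_coe.mp hb⟩, hne⟩) hab
      · intro a ha b hb hab
        by_contra hne
        exact n2 (a, b) (Finset.mem_filter.mpr ⟨Finset.mem_product.mpr
          ⟨Finset.mem_coe.mp ha, Finset.mem_coe.mp hb⟩, hne⟩) hab
      · intro a ha b hb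
        exact n3 (a, b) (Finset.mem_product.mpr ⟨ha, hb⟩)
    have o1 := Pr_or_h47 hL.nn
      (fun φ => ∃ q ∈ (P ×ˢ P).filter (fun q => q.1 ≠ q.2), φ q.1 = φ q.2)
      (fun φ => (∃ q ∈ ((P ∪ ex) ×ˢ (P ∪ ex)).filter (fun q => q.1 ≠ q.2),
            φ q.1 + φ (p q.1) = φ q.2 + φ (p q.2)) ∨
          ∃ q ∈ P ×ˢ (P ∪ ex), φ q.1 = φ q.2 + φ (p q.2))
    have o2 := Pr_or_h47 hL.nn
      (fun φ => ∃ q ∈ ((P ∪ ex) ×ˢ (P ∪ ex)).filter (fun q => q.1 ≠ q.2),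
            φ q.1 + φ (p q.1) = φ q.2 + φ (p q.2))
      (fun φ => ∃ q ∈ P ×ˢ (P ∪ ex), φ q.1 = φ q.2 + φ (p q.2))
    have cnt : ∀ A D : Finset ℕ, (A.card : ℝ) ≤ K' → (D.card : ℝ) ≤ K' →
        ∀ c : ℝ, 0 ≤ c → ((A ×ˢ D).card : ℝ) * c ≤ K' ^ 2 * c := by
      intro A D hA' hD' c hc
      refine mul_le_mul_of_nonneg_right ?_ hc
      rw [Finset.card_product, Nat.cast_mul, pow_two]
      exact mul_le_mul hA' hD' (Nat.cast_nonneg _) (by linarith)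
    have cnf : ∀ A D : Finset ℕ, (A.card : ℝ) ≤ K' → (D.card : ℝ) ≤ K' →
        ∀ c : ℝ, 0 ≤ c → (((A ×ˢ D).filter (fun q => q.1 ≠ q.2)).card : ℝ) * c ≤ K' ^ 2 * c := by
      intro A D hA' hD' c hc
      refine le_trans ?_ (cnt A D hA' hD' c hc)
      refine mul_le_mul_of_nonneg_right ?_ hc
      exact_mod_cast Finset.card_filter_le (A ×ˢ D) (fun q => q.1 ≠ q.2)
    have b1 : L.Pr (fun φ => ∃ q ∈ (P ×ˢ P).filter (fun q => q.1 ≠ q.2), φ q.1 = φ q.2) ≤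
        K' ^ 2 * (4 * B ^ 4 / n) := by
      refine (Pr_union_h47 hL.nn _ (fun (q : ℕ × ℕ) φ => φ q.1 = φ q.2)).trans ?_
      refine (Finset.sum_le_sum (g := fun _ => 4 * B ^ 4 / (n:ℝ)) fun q hq => ?_).trans ?_
      · obtain ⟨hq0, hne⟩ := Finset.mem_filter.mp hq
        obtain ⟨hq1, hq2⟩ := Finset.mem_product.mp hq0
        refine (cond_h47 hL hY hq1 (D := (B / n) ^ 2) (by positivity) fun x => ?_).trans ha5
        refine P2_h47 hL hq1 hq2 hne x x fun ω _ hE => ?_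
        exact ⟨hE.2, hE.1 ▸ hE.2⟩
      · rw [Finset.sum_const, nsmul_eq_mul]
        exact cnf P P hPc hPc _ hA
    have hUs : ∀ c : ℝ, c ≤ 4 * B ^ 4 / n ^ 2 → (U.card : ℝ) * c ≤ 8 * B ^ 4 / n := by
      intro c hc
      calc (U.card : ℝ) * c ≤ U.card * (4 * B ^ 4 / n ^ 2) :=
            mul_le_mul_of_nonneg_left hc (Nat.cast_nonneg _)
        _ ≤ 2 * n * (4 * B ^ 4 / n ^ 2) := mul_le_mul_of_nonneg_right hUc hD
        _ = 8 * B ^ 4 / n := by field_simp; ring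
    have hA8 : (0:ℝ) ≤ 8 * B ^ 4 / n := by positivity
    have b2 : L.Pr (fun φ => ∃ q ∈ ((P ∪ ex) ×ˢ (P ∪ ex)).filter (fun q => q.1 ≠ q.2),
        φ q.1 + φ (p q.1) = φ q.2 + φ (p q.2)) ≤ K' ^ 2 * (8 * B ^ 4 / n) := by
      refine (Pr_union_h47 hL.nn _
        (fun (q : ℕ × ℕ) φ => φ q.1 + φ (p q.1) = φ q.2 + φ (p q.2))).trans ?_
      refine (Finset.sum_le_sum (g := fun _ => 8 * B ^ 4 / (n:ℝ)) fun q hq => ?_).trans ?_
      · obtain ⟨hq0, hne⟩ := Finset.mem_filter.mp hq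
        obtain ⟨hq1, hq2⟩ := Finset.mem_product.mp hq0
        have h3 : L.Pr (fun φ => φ q.1 + φ (p q.1) = φ q.2 + φ (p q.2)) ≤
            L.Pr (fun φ => ∃ s ∈ U, (φ q.1 + φ (p q.1) = s ∧ φ q.2 + φ (p q.2) = s)) :=
          Pr_mono_h47 hL.nn fun ω hw hE => ⟨_, hL.sm ω hw q.1 hq1, rfl, hE.symm⟩
        refine h3.trans ((Pr_union_h47 hL.nn U
          (fun s φ => φ q.1 + φ (p q.1) = s ∧ φ q.2 + φ (p q.2) = s)).trans ?_)
        refine (Finset.sum_le_sum fun s _ =>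
          sum2_h47 hn hY hB hG hL hq1 hq2 hne s s).trans ?_
        rw [Finset.sum_const, nsmul_eq_mul]
        exact hUs _ le_rfl
      · rw [Finset.sum_const, nsmul_eq_mul]
        exact cnf _ _ hec hec _ hA8
    have b3 : L.Pr (fun φ => ∃ q ∈ P ×ˢ (P ∪ ex), φ q.1 = φ q.2 + φ (p q.2)) ≤
        K' ^ 2 * (8 * B ^ 4 / n) := by
      refine (Pr_union_h47 hL.nn _
        (fun (q : ℕ × ℕ) φ => φ q.1 = φ q.2 + φ (p q.2))).trans ?_
      refine (Finset.sum_le_sum (g := fun _ => 8 * B ^ 4 / (n:ℝ)) fun q hq => ?_).trans ?_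
      · obtain ⟨hq1, hq2⟩ := Finset.mem_product.mp hq
        have h3 : L.Pr (fun φ => φ q.1 = φ q.2 + φ (p q.2)) ≤
            L.Pr (fun φ => ∃ s ∈ U, (φ q.1 = s ∧ φ q.2 + φ (p q.2) = s)) :=
          Pr_mono_h47 hL.nn fun ω hw hE => ⟨_, hL.sm ω hw q.2 hq2, hE, rfl⟩
        refine h3.trans ((Pr_union_h47 hL.nn U
          (fun s φ => φ q.1 = s ∧ φ q.2 + φ (p q.2) = s)).trans ?_)
        refine (Finset.sum_le_sum (g := fun _ => 4 * B ^ 4 / (n:ℝ) ^ 2) fun s _ => ?_).trans ?_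
        · refine (lab_sum_h47 hn hY hB hG hL hq1 hq2 s s).trans ?_
          have z1 : (if q.2 = τ ∧ q.1 = τ then
              (if s + lab (p τ) = s then B / (n:ℝ) else 0) else 0) = 0 := by
            rw [if_neg (by omega : ¬ s + lab (p τ) = s)]
            split_ifs <;> rfl
          have z2 : (if q.2 ∈ ex ∧ q.1 = p q.2 then
              (if s + lab q.2 = s then B / (n:ℝ) else 0) else 0) = 0 := by
            by_cases h : q.2 ∈ ex ∧ q.1 = p q.2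
            · have := hlr q.2 h.1
              rw [if_pos h, if_neg (by omega)]
            · rw [if_neg h]
          rw [z1, z2, add_zero, add_zero]
        · rw [Finset.sum_const, nsmul_eq_mul]
          exact hUs _ le_rfl
      · rw [Finset.sum_const, nsmul_eq_mul]
        exact cnt _ _ hPc hec _ hA8
    have h4 : K' ^ 2 * (4 * B ^ 4 / n) = 4 * (K' ^ 2 * B ^ 4 / n) := by ring
    have h8 : K' ^ 2 * (8 * B ^ 4 / n) = 8 * (K' ^ 2 * B ^ 4 / n) := by ring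
    have h5 : 100 * K' ^ 2 * B ^ 4 / n = 100 * (K' ^ 2 * B ^ 4 / n) := by ring
    rw [h5]
    rw [h4] at b1
    rw [h8] at b2 b3
    linarith

end Pool.Agent.SQ
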