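import Pool.Agent.Helper73.SQ.LED

/-!
# SQ-LE1: the random labelling of the skeleton of a piece

Proof in words.  `Bd` = set of the `y ∈ Y` with `lab (p τ) + y ∉ U` or `lab r + y ∉ U` for the exit `r ∈ ex` (at most `2 ζ n`).
`ρ y = π y / Z` if `lab (p τ) + y ∈ U`, else `0`; `Z = 1 - π(bad) ≥ 1 - 3 ζ`.  For `v` different from the exit parent `Kv v = kb`; for `v = p r` (`r ∈ ex`)
`Kv v x y = kb v x y / Z_x` if `lab r + y ∈ U`, else `0`, `Z_x = 1 - ∑_{y bad} kb v x y ≥ 1 - B' ζ`, where `B' / n` bounds `kb` (`k ≤ B/n`, and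
`k2 Y k x w = ∑ k x y k y w ≤ B/n` by `∑ k x y = 1`).  (Outside `Y`, or if `x ∉ Y`, put `Kv v x y = 0` resp. anything `≥ 0`: the fields ask for `x ∈ Y` where needed;
`Keq` asks for equality for `x ∈ Y` and all `y`: `kb v x y = 0` for `y ∉ Y`.)  Apply `chain` with `Q = P \ F`, `p' = pq p F`: for `v ∈ P \ F`,
`v ≠ τ`, `pq p F v ∈ P \ F` and `< v` (`Geo`, `FlP`).  `sm`: for `i ∈ P \ F`, `p i ∉ F`: `i = τ`: support of `ρ`; `i ≠ τ`: `pq p F i = p i`, `Kv i (..) ≠ 0` gives
`kb = k ≠ 0` and `KS.supp`; `r ∈ ex`: `Φ (p r)` is a value with `lab r + y ∈ U` (`v = p r ≠ τ`).  Labels off `P \ F` are `lab` (`R` and also `F`).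
`δ = C ζ` with `C` depending on `B`.
-/

set_option autoImplicit false

namespace Pool.Agent.SQ

open Finset Pool.Agent.SEM

section H40

open Classical in
/-- conditioning of a probability vector `f` on `Y` by an event `g` -/
noncomputable def cond40 (Y : Finset ℕ) (g : ℕ → Prop) (f : ℕ → ℝ) (y : ℕ) : ℝ :=
  if g y then f y / (∑ z ∈ Y.filter fun z => g z, f z) else 0

open Classical in
theorem cond40_facts {n : ℕ} (hn : 1 ≤ n) {Y : Finset ℕ} {g : ℕ → Prop} {f : ℕ → ℝ} {b ζ : ℝ}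
    (hf0 : ∀ y, 0 ≤ f y) (hf1 : ∑ y ∈ Y, f y = 1) (hfb : ∀ y, f y ≤ b / n)
    (hbad : ((Y.filter fun y => ¬ g y).card : ℝ) ≤ ζ * n) (hb : 0 ≤ b) (hbz : b * ζ ≤ 1 / 2)
    (hζ : 0 ≤ ζ) :
    (∀ y, 0 ≤ cond40 Y g f y) ∧ (∑ y ∈ Y, cond40 Y g f y = 1) ∧
      (∑ y ∈ Y, |cond40 Y g f y - f y| ≤ 2 * (b * ζ)) ∧
      (∀ y, g y → f y ≤ cond40 Y g f y) ∧
      (∀ y, cond40 Y g f y ≤ (1 + 2 * (b * ζ)) * f y) ∧
      (∀ y, cond40 Y g f y ≠ 0 → g y ∧ f y ≠ 0) := by
  have hn0 : (0 : ℝ) < n := by exact_mod_cast hn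
  set Z : ℝ := ∑ z ∈ Y.filter fun z => g z, f z with hZ
  set W : ℝ := ∑ z ∈ Y.filter fun z => ¬ g z, f z with hW
  have hZW : Z + W = 1 := by
    rw [hZ, hW, ← hf1]
    exact Finset.sum_filter_add_sum_filter_not Y (fun z => g z) f
  have hW0 : 0 ≤ W := Finset.sum_nonneg fun z _ => hf0 z
  have hWb : W ≤ b * ζ := by
    calc W ≤ ∑ z ∈ Y.filter (fun z => ¬ g z), b / n := Finset.sum_le_sum fun z _ => hfb z
      _ = ((Y.filter fun y => ¬ g y).card : ℝ) * (b / n) := by rw [Finset.sum_const, nsmul_eq_mul]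
      _ ≤ (ζ * n) * (b / n) := mul_le_mul_of_nonneg_right hbad (by positivity)
      _ = b * ζ := by field_simp
  have hZ1 : Z ≤ 1 := by linarith
  have hZh : 1 / 2 ≤ Z := by linarith
  have hZ0 : 0 < Z := by linarith
  have hinv1 : 1 ≤ 1 / Z := by rw [le_div_iff₀ hZ0]; linarith
  have hinv2 : 1 / Z ≤ 1 + 2 * (b * ζ) := by
    rw [div_le_iff₀ hZ0]
    nlinarith [mul_nonneg hb hζ]
  have hsum1 : ∑ y ∈ Y, cond40 Y g f y = 1 := by
    unfold cond40
    rw [← Finset.sum_filter, ← Finset.sum_div, div_self hZ0.ne']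
  refine ⟨?_, hsum1, ?_, ?_, ?_, ?_⟩
  · intro y
    unfold cond40
    split_ifs
    · exact div_nonneg (hf0 y) hZ0.le
    · exact le_rfl
  · have h1 : ∀ y ∈ Y, |cond40 Y g f y - f y| =
        (if g y then (cond40 Y g f y - f y) else 0) + (if ¬ g y then f y else 0) := by
      intro y _
      by_cases hg : g y
      · rw [if_pos hg, if_neg (not_not.2 hg), add_zero]
        apply abs_of_nonneg
        unfold cond40
        rw [if_pos hg]
        have : f y / Z = f y * (1 / Z) := by ring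
        rw [this]
        nlinarith [hf0 y]
      · rw [if_neg hg, if_pos hg, zero_add]
        unfold cond40
        rw [if_neg hg, zero_sub, abs_neg, abs_of_nonneg (hf0 y)]
    rw [Finset.sum_congr rfl h1, Finset.sum_add_distrib, ← Finset.sum_filter, ← Finset.sum_filter,
      Finset.sum_sub_distrib]
    have h2 : ∑ y ∈ Y.filter (fun y => g y), cond40 Y g f y = 1 := by
      have : ∀ y ∈ Y.filter (fun y => g y), cond40 Y g f y = f y / Z := by
        intro y hy
        unfold cond40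
        rw [if_pos (Finset.mem_filter.1 hy).2]
      rw [Finset.sum_congr rfl this, ← Finset.sum_div, div_self hZ0.ne']
    rw [h2]
    change 1 - Z + W ≤ _
    linarith
  · intro y hg
    unfold cond40
    rw [if_pos hg]
    have : f y / Z = f y * (1 / Z) := by ring
    change f y ≤ f y / Z
    rw [this]
    nlinarith [hf0 y]
  · intro y
    unfold cond40
    split_ifs
    · change f y / Z ≤ _
      have : f y / Z = (1 / Z) * f y := by ring
      rw [this]
      exact mul_le_mul_of_nonneg_right hinv2 (hf0 y)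
    · have := mul_nonneg hb hζ
      have := hf0 y
      positivity
  · intro y hy
    unfold cond40 at hy
    split_ifs at hy with hg
    · refine ⟨hg, fun h => hy ?_⟩
      rw [h, zero_div]
    · exact absurd rfl hy

variable {n : ℕ} {U Y : Finset ℕ} {B t : ℝ} {k : ℕ → ℕ → ℝ} {π : ℕ → ℝ}

theorem k2_nonneg40 (h : KS n U Y B t k π) (x w : ℕ) : 0 ≤ k2 Y k x w :=
  Finset.sum_nonneg fun _ _ => mul_nonneg (h.nn _ _) (h.nn _ _)

theorem k2_le40 (h : KS n U Y B t k π) {x : ℕ} (hx : x ∈ Y) (w : ℕ) : k2 Y k x w ≤ B / n := by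
  unfold k2
  calc ∑ y ∈ Y, k x y * k y w ≤ ∑ y ∈ Y, k x y * (B / n) :=
        Finset.sum_le_sum fun y hy => mul_le_mul_of_nonneg_left (h.up y hy w) (h.nn _ _)
    _ = B / n := by rw [← Finset.sum_mul, h.one x hx, one_mul]

theorem k2_one40 (h : KS n U Y B t k π) {x : ℕ} (hx : x ∈ Y) : ∑ w ∈ Y, k2 Y k x w = 1 := by
  unfold k2
  rw [Finset.sum_comm]
  calc ∑ y ∈ Y, ∑ w ∈ Y, k x y * k y w = ∑ y ∈ Y, k x y := by
        refine Finset.sum_congr rfl fun y hy => ?_
        rw [← Finset.mul_sum, h.one y hy, mul_one]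
    _ = 1 := h.one x hx

theorem kb_nonneg40 (h : KS n U Y B t k π) (p : ℕ → ℕ) (F : Finset ℕ) (v x y : ℕ) :
    0 ≤ kb p F Y k v x y := by
  unfold kb
  split_ifs
  · exact k2_nonneg40 h _ _
  · exact h.nn _ _

theorem kb_le40 (h : KS n U Y B t k π) (p : ℕ → ℕ) (F : Finset ℕ) (v : ℕ) {x : ℕ} (hx : x ∈ Y)
    (y : ℕ) : kb p F Y k v x y ≤ B / n := by
  unfold kb
  split_ifs
  · exact k2_le40 h hx _
  · exact h.up x hx y

theorem kb_one40 (h : KS n U Y B t k π) (p : ℕ → ℕ) (F : Finset ℕ) (v : ℕ) {x : ℕ} (hx : x ∈ Y) :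
    ∑ y ∈ Y, kb p F Y k v x y = 1 := by
  unfold kb
  by_cases hv : p v ∈ F
  · simp only [if_pos hv]
    exact k2_one40 h hx
  · simp only [if_neg hv]
    exact h.one x hx

end H40

theorem skeleton (B : ℝ) (hB : 1 ≤ B) : ∃ B1 : ℝ, 1 ≤ B1 ∧ ∃ C : ℝ, 0 < C ∧
    ∀ (n : ℕ) (U Y : Finset ℕ) (t : ℝ) (k : ℕ → ℕ → ℝ) (π : ℕ → ℝ) (p lab u : ℕ → ℕ) (e : ℕ)
      (R P ex F : Finset ℕ) (τ : ℕ) (ζ : ℝ), 1 ≤ n → KS n U Y B t k π → 0 ≤ ζ → C * ζ ≤ 1 / 10 →
      Geo p R P ex τ → FlP p u e P ex F τ →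
      (∀ c ∈ insert (lab (p τ)) (ex.image lab),
        ((Y.filter fun y => c + y ∉ U).card : ℝ) ≤ ζ * n) →
      ∃ (Bd : Finset ℕ) (ρ : ℕ → ℝ) (Kv : ℕ → ℕ → ℕ → ℝ) (L : FL),
        SkL n U Y k π p lab P ex F Bd τ B1 (C * ζ) ρ Kv L := by
  classical
  refine ⟨6 * B, by linarith, 6 * B, by linarith, ?_⟩
  intro n U Y t k π p lab u e R P ex F τ ζ hn hk hζ hC hgeo hfl hbad
  have hn0 : (0 : ℝ) < n := by exact_mod_cast hn
  have hBζ : 0 ≤ B * ζ := mul_nonneg (by linarith) hζ
  have hζB : ζ ≤ B * ζ := by nlinarith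
  -- the events
  set g0 : ℕ → Prop := fun y => lab (p τ) + y ∈ U with hg0
  set g : ℕ → ℕ → Prop := fun v y => ∀ r ∈ ex, v = p r → lab r + y ∈ U with hg
  have hbad0 : ((Y.filter fun y => ¬ g0 y).card : ℝ) ≤ ζ * n :=
    hbad _ (Finset.mem_insert_self _ _)
  have hex : ex = ∅ ∨ ∃ r, ex = {r} := by
    rcases Nat.lt_or_ge ex.card 1 with h | h
    · left
      exact Finset.card_eq_zero.1 (by omega)
    · right
      exact Finset.card_eq_one.1 (le_antisymm hgeo.ex1 h)
  have hbad1 : ∀ v, ((Y.filter fun y => ¬ g v y).card : ℝ) ≤ ζ * n := by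
    intro v
    rcases hex with h | ⟨r, h⟩
    · have : (Y.filter fun y => ¬ g v y) = ∅ := by
        rw [Finset.filter_eq_empty_iff]
        intro y _ hy
        apply hy
        intro r hr
        rw [h] at hr
        exact absurd hr (Finset.notMem_empty r)
      rw [this, Finset.card_empty, Nat.cast_zero]
      positivity
    · refine le_trans ?_ (hbad (lab r) ?_)
      · have : (Y.filter fun y => ¬ g v y) ⊆ Y.filter fun y => lab r + y ∉ U := by
          intro y hy
          rw [Finset.mem_filter] at hy ⊢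
          refine ⟨hy.1, fun hr => hy.2 ?_⟩
          intro r' hr' _
          rw [h, Finset.mem_singleton] at hr'
          rw [hr']
          exact hr
        exact_mod_cast Finset.card_le_card this
      · refine Finset.mem_insert_of_mem (Finset.mem_image_of_mem lab ?_)
        rw [h]
        exact Finset.mem_singleton_self r
  -- the objects
  set ρ : ℕ → ℝ := cond40 Y g0 π with hρ
  set Kv : ℕ → ℕ → ℕ → ℝ := fun v x => if x ∈ Y then cond40 Y (g v) (kb p F Y k v x) else fun _ => 0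
    with hKv
  obtain ⟨r1, r2, r3, r4, r5, r6⟩ := cond40_facts (n := n) hn (Y := Y) (g := g0) (f := π) (b := 3)
    (ζ := ζ) hk.πnn hk.πone hk.πup (by convert hbad0) (by norm_num) (by nlinarith) hζ
  have hK : ∀ v, ∀ x ∈ Y, (∀ y, 0 ≤ Kv v x y) ∧ (∑ y ∈ Y, Kv v x y = 1) ∧
      (∑ y ∈ Y, |Kv v x y - kb p F Y k v x y| ≤ 2 * (B * ζ)) ∧
      (∀ y, g v y → kb p F Y k v x y ≤ Kv v x y) ∧
      (∀ y, Kv v x y ≤ (1 + 2 * (B * ζ)) * kb p F Y k v x y) ∧
      (∀ y, Kv v x y ≠ 0 → g v y ∧ kb p F Y k v x y ≠ 0) := by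
    intro v x hx
    have e : Kv v x = cond40 Y (g v) (kb p F Y k v x) := by
      rw [hKv]
      simp only [if_pos hx]
    rw [e]
    exact cond40_facts (n := n) hn (kb_nonneg40 hk p F v x) (kb_one40 hk p F v hx)
      (kb_le40 hk p F v hx) (by convert hbad1 v) (by linarith) (by nlinarith) hζ
  have hK0 : ∀ v x y, 0 ≤ Kv v x y := by
    intro v x y
    by_cases hx : x ∈ Y
    · exact (hK v x hx).1 y
    · rw [hKv]
      simp only [if_neg hx, le_refl]
  have hπ2 : ∀ x, π x ≤ 3 / n := hk.πup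
  have hρup : ∀ x, ρ x ≤ 6 / n := by
    intro x
    have h1 := r5 x
    have h2 := hk.πnn x
    have h3 := hπ2 x
    have h4 : (1 + 2 * (3 * ζ)) ≤ 2 := by nlinarith
    calc ρ x ≤ (1 + 2 * (3 * ζ)) * π x := h1
      _ ≤ 2 * (3 / n) := mul_le_mul h4 h3 h2 (by norm_num)
      _ = 6 / n := by ring
  have hKup : ∀ v, ∀ x ∈ Y, ∀ y, Kv v x y ≤ 6 * B / n := by
    intro v x hx y
    have h1 := (hK v x hx).2.2.2.2.1 y
    have h2 := kb_nonneg40 hk p F v x y
    have h3 := kb_le40 hk p F v hx y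
    have h4 : (1 + 2 * (B * ζ)) ≤ 6 := by nlinarith
    calc Kv v x y ≤ (1 + 2 * (B * ζ)) * kb p F Y k v x y := h1
      _ ≤ 6 * (B / n) := mul_le_mul h4 h3 h2 (by norm_num)
      _ = 6 * B / n := by ring
  have hτ : τ ∈ P \ F := Finset.mem_sdiff.2 ⟨hgeo.tP, hfl.top⟩
  have hp' : ∀ v ∈ P \ F, v ≠ τ → pq p F v ∈ P \ F ∧ pq p F v < v := by
    intro v hv hvτ
    rw [Finset.mem_sdiff] at hv
    have h1 : p v ∈ P := hgeo.st v hv.1 hvτ
    have h2 : p v < v := hgeo.lt v hv.1
    unfold pq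
    by_cases hF : p v ∈ F
    · rw [if_pos hF]
      have h3 : p v ≠ τ := fun h => hfl.top (h ▸ hF)
      have h4 : p (p v) ∈ P := hgeo.st _ h1 h3
      have h5 : p (p v) < p v := hgeo.lt _ h1
      exact ⟨Finset.mem_sdiff.2 ⟨h4, hfl.par _ hF⟩, by omega⟩
    · rw [if_neg hF]
      exact ⟨Finset.mem_sdiff.2 ⟨h1, hF⟩, h2⟩
  have hρB : ∀ x, ρ x ≤ 6 * B / n := by
    intro x
    refine (hρup x).trans ?_
    gcongr
    linarith
  obtain ⟨L, l1, l2, l3, l4, l5, l6, l7⟩ := chain (n := n) (pq p F) lab (P \ F) Y τ ρ Kv (6 * B) hτ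
    hp' r1 r2 hρB hK0 (fun v _ _ x hx => (hK v x hx).2.1) (fun v _ x hx y => hKup v x hx y)
  refine ⟨Y.filter fun y => ¬ g0 y ∨ ∃ v, ¬ g v y, ρ, Kv, L, ?_⟩
  have hpR : ∀ r ∈ R, r ∉ P \ F := by
    intro r hr h
    exact Finset.disjoint_left.1 hgeo.PR (Finset.mem_sdiff.1 h).1 hr
  constructor
  · exact l1
  · exact l2
  · exact l3
  · exact fun ω hω => (l4 ω hω).1
  · intro ω hω i hi hpi
    obtain ⟨m1, m2, m3⟩ := l4 ω hω
    rw [Finset.mem_union] at hi
    rcases hi with hi | hi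
    · by_cases hiτ : i = τ
      · subst hiτ
        have h1 := (r6 _ m2).1
        rw [l3 ω (p i) (hpR _ hgeo.tR), add_comm]
        exact h1
      · have h1 := m3 i hi hiτ
        have h2 := (hp' i hi hiτ).1
        have h3 : pq p F i = p i := by unfold pq; rw [if_neg hpi]
        have h4 := ((hK i _ (m1 _ h2)).2.2.2.2.2 _ h1).2
        rw [h3] at h4
        unfold kb at h4
        rw [if_neg hpi] at h4
        have h5 := (hk.supp _ _ h4).2
        rw [add_comm]
        exact h5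
    · have h1 : p i ∈ P := (hgeo.exP i hi).1
      have h2 : p i ≠ τ := (hgeo.exP i hi).2
      have h3 : p i ∈ P \ F := Finset.mem_sdiff.2 ⟨h1, hpi⟩
      have h4 := m3 (p i) h3 h2
      have h5 := (hp' (p i) h3 h2).1
      have h6 := ((hK (p i) _ (m1 _ h5)).2.2.2.2.2 _ h4).1
      rw [l3 ω i (hpR _ (hgeo.exR hi))]
      exact h6 i hi rfl
  · exact l7
  · exact l5
  · exact l6
  · exact r1
  · exact r2
  · refine r3.trans ?_
    nlinarith
  · intro x hx hxB
    refine r4 x ?_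
    by_contra h
    exact hxB (Finset.mem_filter.2 ⟨hx, Or.inl h⟩)
  · exact hρup
  · exact hK0
  · exact fun v _ _ x hx => (hK v x hx).2.1
  · intro v _ _ x hx
    refine ((hK v x hx).2.2.1).trans ?_
    nlinarith
  · intro v _ _ hv x hx y
    have hgv : ∀ y, g v y := fun y r hr h => absurd h (hv r hr)
    have e : Kv v x = cond40 Y (g v) (kb p F Y k v x) := by
      rw [hKv]
      simp only [if_pos hx]
    rw [e]
    unfold cond40
    rw [if_pos (hgv y)]
    have e2 : (∑ a ∈ Y, if g v a then kb p F Y k v x a else 0) = ∑ a ∈ Y, kb p F Y k v x a := by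
      refine Finset.sum_congr rfl fun z _ => ?_
      rw [if_pos (hgv z)]
    rw [kb_one40 hk p F v hx] at e2
    rw [Finset.sum_filter]
    have e3 : ∀ s : ℝ, s = 1 → kb p F Y k v x y / s = kb p F Y k v x y := by
      intro s hs
      rw [hs, div_one]
    refine e3 _ ?_
    convert e2
  · intro v _ _ x hx y hy hyB
    refine (hK v x hx).2.2.2.1 y ?_
    by_contra h
    exact hyB (Finset.mem_filter.2 ⟨hy, Or.inr ⟨v, h⟩⟩)
  · intro v _ _ x hx y
    refine ((hK v x hx).2.2.2.2.1 y).trans ?_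
    refine mul_le_mul_of_nonneg_right ?_ (kb_nonneg40 hk p F v x y)
    nlinarith
  · intro v _ x hx y
    refine (kb_le40 hk p F v hx y).trans ?_
    gcongr
    linarith
  · -- the number of the exceptional labels
    have hsub : (Y.filter fun y => ¬ g0 y ∨ ∃ v, ¬ g v y) ⊆
        (Y.filter fun y => ¬ g0 y) ∪ (ex.biUnion fun r => Y.filter fun y => ¬ g (p r) y) := by
      intro y hy
      rw [Finset.mem_filter] at hy
      rcases hy.2 with h | ⟨v, h⟩
      · exact Finset.mem_union_left _ (Finset.mem_filter.2 ⟨hy.1, h⟩)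
      · refine Finset.mem_union_right _ ?_
        simp only [hg, not_forall] at h
        obtain ⟨r, hr, hvr, h⟩ := h
        refine Finset.mem_biUnion.2 ⟨r, hr, Finset.mem_filter.2 ⟨hy.1, fun h' => h ?_⟩⟩
        exact h' r hr rfl
    have h1 : ((Y.filter fun y => ¬ g0 y ∨ ∃ v, ¬ g v y).card : ℝ) ≤
        ((Y.filter fun y => ¬ g0 y).card : ℝ) +
          ((ex.biUnion fun r => Y.filter fun y => ¬ g (p r) y).card : ℝ) := by
      exact_mod_cast (Finset.card_le_card hsub).trans (Finset.card_union_le _ _)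
    have h2 : ((ex.biUnion fun r => Y.filter fun y => ¬ g (p r) y).card : ℝ) ≤ ζ * n := by
      rcases hex with h | ⟨r, h⟩
      · have e4 : (ex.biUnion fun r => Y.filter fun y => ¬ g (p r) y) = ∅ := by
          ext y
          simp only [Finset.mem_biUnion, Finset.notMem_empty, iff_false]
          rintro ⟨r', hr', _⟩
          rw [h] at hr'
          exact absurd hr' (Finset.notMem_empty r')
        rw [e4, Finset.card_empty, Nat.cast_zero]
        positivity
      · have e3 : (ex.biUnion fun r => Y.filter fun y => ¬ g (p r) y) =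
            Y.filter fun y => ¬ g (p r) y := by
          ext y
          simp only [Finset.mem_biUnion, Finset.mem_filter]
          constructor
          · rintro ⟨r', hr', h'⟩
            have : r' = r := by
              rw [h] at hr'
              exact Finset.mem_singleton.1 hr'
            rw [this] at h'
            exact h'
          · intro h'
            refine ⟨r, ?_, h'⟩
            have := Finset.mem_singleton_self r
            rwa [← h] at this
        rw [e3]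
        exact hbad1 (p r)
    have h3 : (6 * B * ζ) * n = 6 * (B * ζ) * n := by ring
    rw [h3]
    have h4 : ζ * n ≤ (B * ζ) * n := mul_le_mul_of_nonneg_right hζB hn0.le
    have h5 : 0 ≤ ζ * n := by positivity
    nlinarith

end Pool.Agent.SQ
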