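import Pool.Agent.Helper73.SQ.LED

/-!
# SQ-LE2: estimates for the random labelling of a piece

Proof in words.  `l_v x = Pr (φ v = x)`.  (0) `kb` is stationary for `π` on `Y` (`KS.rev`, `KS.one`, also for `k2`).  (1) for all `v ∈ P \ F`:
`∑_x |l_v x - π x| ≤ 2 δ`: induction along the tree from `τ` (`ρd`); a step with `Kv = kb` does not increase the `L¹` distance, the step to the exit parent
(at most one) increases it by at most `δ` (`Kd`).  (1') if `v ≠ τ` is not the exit parent: `|l_v y - π y| = |∑_x (l_{p'} x - π x) kb v x y| ≤ 2 δ B1/n`.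
(2) sums, `i ∈ P \ F`, `i ≠ τ`, `p i ∉ F`: `Pr (φ i + φ (p i) = s) = ∑_{x ≤ s} l_{p i} x Kv i x (s - x)`; replace `l` by `π`: error
`2 δ B1 / n * 2`; replace `Kv` by `k`: only if `i` is the exit parent: `|Kv i x y - k x y| ≤ δ k x y` for `y ∉ Bd` (`Klow`, `Kup`), and `≤ k x y ≤ B1/n` for
`y ∈ Bd`, `∑_{x : s - x ∈ Bd} π x k x (s-x) ≤ δ n (3/n)(B1/n)`.
(3) flexible `v ∈ F`, `x = φ (p v)`, `w = φ (u v)`: `e = 0`: `Ex (k (φ (p v)) s)`, as in (1').  `e = 1`: the pair law of `u v` (`pq p F (u v) = p v`) gives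
`∑_x l_{p v} x ∑_w Kv (u v) x w hh x w s`; replace `Kv` by `k2` (error `≤ δ * sup hh`), then `∑_w k2 x w hh x w s = k x s ∑_w k s w = k x s`
(`s ∈ Y`; both are `0` if `s ∉ Y`), then as in (1').  The sums `(v, p v)`: the same with `s - x`; the sums `(u v, v)`: `∑_x l x ∑_{w ≤ s} k x (s-w) k (s-w) w`, replace `l` by `π`,
use `∑_x π x k x (s-w) = π (s-w)` (`s - w ∈ Y`) and `π (s-w) k (s-w) w = π w k w (s-w)` (`rev`).  `hh ≤ 4 B³/n` by `KS.up`, `low`, `room`.
(4) `Pr (φ v = s) ≤ 8/n`: `τ`: `ρup`; others: `≤ (1+δ) ∑_x l x kb v x s ≤ (1+δ)(π s + 2 δ B1 /n)`.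
(5) `x ∉ Bd`, `4 x ≤ 7 n`, `x ∈ Y`: `l_{p v} x ≥ π x - 2 δ B1/n ≥ 1/(40 n)` (for `p v = τ` by `ρlow`, for the exit parent by `Klow`), and for `e = 1` the pair probability is
`l x * Kv (u v) x w ≥ l x * k2 x w` for `w ∉ Bd`.
-/

set_option autoImplicit false

namespace Pool.Agent.SQ

open Finset Pool.Agent.SEM

section H6

variable {n : ℕ} {U Y : Finset ℕ} {B B1 t δ : ℝ} {k : ℕ → ℕ → ℝ} {π : ℕ → ℝ} {p lab u : ℕ → ℕ}
  {e : ℕ} {R P ex F Bd : Finset ℕ} {τ : ℕ} {ρ : ℕ → ℝ} {Kv : ℕ → ℕ → ℕ → ℝ} {L : FL}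

private theorem prE6 (E : (ℕ → ℕ) → Prop) [DecidablePred E] :
    L.Pr E = L.Ex (fun φ => if E φ then 1 else 0) := by
  unfold FL.Pr
  congr 1
  funext φ
  congr

private theorem exG6 (hS : SkL n U Y k π p lab P ex F Bd τ B1 δ ρ Kv L) {v : ℕ} (hv : v ∈ P \ F)
    (G : ℕ → ℝ) : L.Ex (fun φ => G (φ v)) = ∑ x ∈ Y, L.Pr (fun φ => φ v = x) * G x := by
  classical
  let _ := L.fin
  have h1 : ∀ x ∈ Y, L.Pr (fun φ => φ v = x) * G x =
      ∑ ω : L.Ω, (L.wt ω * (if L.Φ ω v = x then 1 else 0)) * G x := by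
    intro x _
    rw [prE6]
    unfold FL.Ex
    rw [Finset.sum_mul]
  rw [Finset.sum_congr rfl h1, Finset.sum_comm]
  unfold FL.Ex
  refine Finset.sum_congr rfl fun ω _ => ?_
  by_cases hw : L.wt ω = 0
  · simp [hw]
  · have hY := hS.lbl ω hw v hv
    rw [Finset.sum_eq_single (L.Φ ω v)]
    · simp
    · intro x _ hx
      rw [if_neg (Ne.symm hx)]
      simp
    · intro h
      exact absurd hY h

private theorem pr_nn6 (hS : SkL n U Y k π p lab P ex F Bd τ B1 δ ρ Kv L)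
    (E : (ℕ → ℕ) → Prop) : 0 ≤ L.Pr E := by
  unfold FL.Pr FL.Ex
  let _ := L.fin
  refine Finset.sum_nonneg fun ω _ => mul_nonneg (hS.nn ω) ?_
  beta_reduce
  split_ifs <;> norm_num

private theorem pr_off6 (hS : SkL n U Y k π p lab P ex F Bd τ B1 δ ρ Kv L) {v : ℕ}
    (hv : v ∈ P \ F) {s : ℕ} (hs : s ∉ Y) : L.Pr (fun φ => φ v = s) = 0 := by
  unfold FL.Pr FL.Ex
  let _ := L.fin
  refine Finset.sum_eq_zero fun ω _ => ?_
  by_cases hw : L.wt ω = 0
  · rw [hw, zero_mul]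
  · beta_reduce
    rw [if_neg, mul_zero]
    intro h
    exact hs (h ▸ hS.lbl ω hw v hv)

private theorem pr_sum6 (hS : SkL n U Y k π p lab P ex F Bd τ B1 δ ρ Kv L) {v : ℕ}
    (hv : v ∈ P \ F) : ∑ x ∈ Y, L.Pr (fun φ => φ v = x) = 1 := by
  have h := exG6 hS hv (fun _ => 1)
  rw [hS.one] at h
  simpa using h.symm

private theorem pqm6 (hG : Geo p R P ex τ) (hF : FlP p u e P ex F τ) {v : ℕ} (hv : v ∈ P \ F)
    (hvτ : v ≠ τ) : pq p F v ∈ P \ F ∧ pq p F v < v := by
  obtain ⟨hvP, hvF⟩ := Finset.mem_sdiff.mp hv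
  have h1 := hG.st v hvP hvτ
  have h2 := hG.lt v hvP
  unfold pq
  split_ifs with h
  · have h3 : p v ≠ τ := fun h' => hF.top (h' ▸ h)
    have h4 := hG.st (p v) h1 h3
    have h5 := hG.lt (p v) h1
    exact ⟨Finset.mem_sdiff.mpr ⟨h4, hF.par _ h⟩, by omega⟩
  · exact ⟨Finset.mem_sdiff.mpr ⟨h1, h⟩, h2⟩

private theorem pairG6 (hG : Geo p R P ex τ) (hF : FlP p u e P ex F τ)
    (hS : SkL n U Y k π p lab P ex F Bd τ B1 δ ρ Kv L) {v : ℕ} (hv : v ∈ P \ F) (hvτ : v ≠ τ)
    (G : ℕ → ℕ → ℝ) : L.Ex (fun φ => G (φ (pq p F v)) (φ v)) =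
      ∑ x ∈ Y, L.Pr (fun φ => φ (pq p F v) = x) * ∑ y ∈ Y, Kv v x y * G x y := by
  rw [hS.pair v hv hvτ G]
  exact exG6 hS (pqm6 hG hF hv hvτ).1 (fun x => ∑ y ∈ Y, Kv v x y * G x y)

private theorem lv6 (hG : Geo p R P ex τ) (hF : FlP p u e P ex F τ)
    (hS : SkL n U Y k π p lab P ex F Bd τ B1 δ ρ Kv L) {v : ℕ} (hv : v ∈ P \ F) (hvτ : v ≠ τ)
    {y : ℕ} (hy : y ∈ Y) : L.Pr (fun φ => φ v = y) =
      ∑ x ∈ Y, L.Pr (fun φ => φ (pq p F v) = x) * Kv v x y := by
  rw [prE6, pairG6 hG hF hS hv hvτ (fun _ b => if b = y then 1 else 0)]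
  refine Finset.sum_congr rfl fun x _ => ?_
  congr 1
  simp [Finset.sum_ite_eq', hy]

/-! #### the kernels -/

private theorem k_off6 (hK : KS n U Y B t k π) {x y : ℕ} (hy : y ∉ Y) : k x y = 0 := by
  by_contra h
  exact hy (hK.supp x y h).1

private theorem st6 (hK : KS n U Y B t k π) (y : ℕ) : ∑ x ∈ Y, π x * k x y = π y := by
  by_cases hy : y ∈ Y
  · rw [Finset.sum_congr rfl fun x hx => hK.rev x hx y hy, ← Finset.mul_sum, hK.one y hy, mul_one]
  · have h1 : π y = 0 := by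
      by_contra h
      exact hy (hK.πY y h)
    rw [h1]
    refine Finset.sum_eq_zero fun x _ => ?_
    rw [k_off6 hK hy, mul_zero]

private theorem k2_nn6 (hK : KS n U Y B t k π) (x w : ℕ) : 0 ≤ k2 Y k x w :=
  Finset.sum_nonneg fun y _ => mul_nonneg (hK.nn _ _) (hK.nn _ _)

private theorem st26 (hK : KS n U Y B t k π) (w : ℕ) : ∑ x ∈ Y, π x * k2 Y k x w = π w := by
  have h1 : ∀ x ∈ Y, π x * k2 Y k x w = ∑ y ∈ Y, π x * k x y * k y w := by
    intro x _
    unfold k2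
    rw [Finset.mul_sum]
    exact Finset.sum_congr rfl fun y _ => by ring
  rw [Finset.sum_congr rfl h1, Finset.sum_comm]
  have h2 : ∀ y ∈ Y, ∑ x ∈ Y, π x * k x y * k y w = π y * k y w := by
    intro _ _
    rw [← Finset.sum_mul, st6 hK]
  rw [Finset.sum_congr rfl h2, st6 hK]

private theorem kb_nn6 (hK : KS n U Y B t k π) (v x y : ℕ) : 0 ≤ kb p F Y k v x y := by
  unfold kb
  split_ifs
  · exact k2_nn6 hK x y
  · exact hK.nn x y

private theorem stb6 (hK : KS n U Y B t k π) (v y : ℕ) :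
    ∑ x ∈ Y, π x * kb p F Y k v x y = π y := by
  unfold kb
  split_ifs
  · exact st26 hK y
  · exact st6 hK y

private theorem oneb6 (hK : KS n U Y B t k π) (v : ℕ) {x : ℕ} (hx : x ∈ Y) :
    ∑ y ∈ Y, kb p F Y k v x y = 1 := by
  unfold kb
  split_ifs
  · unfold k2
    rw [Finset.sum_comm]
    have h1 : ∀ y ∈ Y, ∑ w ∈ Y, k x y * k y w = k x y := by
      intro y hy
      rw [← Finset.mul_sum, hK.one y hy, mul_one]
    rw [Finset.sum_congr rfl h1, hK.one x hx]
  · exact hK.one x hx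

/-- replacing one function by another one close in `L¹` -/
private theorem repl6 {l : ℕ → ℝ} {g : ℕ → ℝ} {d M : ℝ} (hd : ∑ x ∈ Y, |l x - π x| ≤ d)
    (hM : ∀ x ∈ Y, |g x| ≤ M) (hM0 : 0 ≤ M) :
    |∑ x ∈ Y, l x * g x - ∑ x ∈ Y, π x * g x| ≤ d * M := by
  rw [← Finset.sum_sub_distrib]
  calc |∑ x ∈ Y, (l x * g x - π x * g x)| ≤ ∑ x ∈ Y, |l x * g x - π x * g x| :=
        Finset.abs_sum_le_sum_abs _ _
    _ ≤ ∑ x ∈ Y, |l x - π x| * M := by
        refine Finset.sum_le_sum fun x hx => ?_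
        rw [← sub_mul, abs_mul]
        exact mul_le_mul_of_nonneg_left (hM x hx) (abs_nonneg _)
    _ = (∑ x ∈ Y, |l x - π x|) * M := by rw [Finset.sum_mul]
    _ ≤ d * M := mul_le_mul_of_nonneg_right hd hM0

/-- one step -/
private theorem step6 (hK : KS n U Y B t k π) (hG : Geo p R P ex τ) (hF : FlP p u e P ex F τ)
    (hS : SkL n U Y k π p lab P ex F Bd τ B1 δ ρ Kv L) {v : ℕ} (hv : v ∈ P \ F) (hvτ : v ≠ τ)
    {d : ℝ} (hd : ∀ x ∈ Y, ∑ y ∈ Y, |Kv v x y - kb p F Y k v x y| ≤ d) :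
    ∑ y ∈ Y, |L.Pr (fun φ => φ v = y) - π y| ≤
      d + ∑ x ∈ Y, |L.Pr (fun φ => φ (pq p F v) = x) - π x| := by
  have hq := (pqm6 hG hF hv hvτ).1
  have h1 : ∀ y ∈ Y, |L.Pr (fun φ => φ v = y) - π y| ≤
      ∑ x ∈ Y, L.Pr (fun φ => φ (pq p F v) = x) * |Kv v x y - kb p F Y k v x y| +
      ∑ x ∈ Y, |L.Pr (fun φ => φ (pq p F v) = x) - π x| * kb p F Y k v x y := by
    intro y hy
    have e1 : L.Pr (fun φ => φ v = y) - π y =
        ∑ x ∈ Y, (L.Pr (fun φ => φ (pq p F v) = x) * (Kv v x y - kb p F Y k v x y) +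
          (L.Pr (fun φ => φ (pq p F v) = x) - π x) * kb p F Y k v x y) := by
      rw [lv6 hG hF hS hv hvτ hy, ← stb6 (p := p) (F := F) hK v y, ← Finset.sum_sub_distrib]
      exact Finset.sum_congr rfl fun x _ => by ring
    rw [e1, ← Finset.sum_add_distrib]
    refine (Finset.abs_sum_le_sum_abs _ _).trans (Finset.sum_le_sum fun x _ => ?_)
    refine (abs_add_le _ _).trans (add_le_add ?_ ?_)
    · rw [abs_mul, abs_of_nonneg (pr_nn6 hS _)]
    · rw [abs_mul, abs_of_nonneg (kb_nn6 hK _ _ _)]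
  refine (Finset.sum_le_sum h1).trans ?_
  rw [Finset.sum_add_distrib]
  refine add_le_add ?_ ?_
  · rw [Finset.sum_comm]
    calc ∑ x ∈ Y, ∑ y ∈ Y, L.Pr (fun φ => φ (pq p F v) = x) * |Kv v x y - kb p F Y k v x y|
        = ∑ x ∈ Y, L.Pr (fun φ => φ (pq p F v) = x) *
          ∑ y ∈ Y, |Kv v x y - kb p F Y k v x y| :=
          Finset.sum_congr rfl fun x _ => by rw [Finset.mul_sum]
      _ ≤ ∑ x ∈ Y, L.Pr (fun φ => φ (pq p F v) = x) * d :=
          Finset.sum_le_sum fun x hx => mul_le_mul_of_nonneg_left (hd x hx) (pr_nn6 hS _)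
      _ = d := by rw [← Finset.sum_mul, pr_sum6 hS hq, one_mul]
  · rw [Finset.sum_comm]
    refine le_of_eq (Finset.sum_congr rfl fun x hx => ?_)
    rw [← Finset.mul_sum, oneb6 hK v hx, mul_one]

private theorem dist6 (hK : KS n U Y B t k π) (hδ : 0 ≤ δ) (hG : Geo p R P ex τ)
    (hF : FlP p u e P ex F τ) (hS : SkL n U Y k π p lab P ex F Bd τ B1 δ ρ Kv L) :
    ∀ v : ℕ, v ∈ P \ F →
      ((∀ r ∈ ex, v < p r) → ∑ x ∈ Y, |L.Pr (fun φ => φ v = x) - π x| ≤ δ) ∧
      ∑ x ∈ Y, |L.Pr (fun φ => φ v = x) - π x| ≤ 2 * δ := by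
  intro v
  induction v using Nat.strong_induction_on with
  | _ v ih =>
    intro hv
    by_cases hvτ : v = τ
    · have h1 : ∀ x ∈ Y, L.Pr (fun φ => φ v = x) = ρ x := by
        intro x hx
        rw [prE6, hvτ, hS.topl (fun y => if y = x then 1 else 0)]
        simp [Finset.sum_ite_eq', hx]
      have h2 : ∑ x ∈ Y, |L.Pr (fun φ => φ v = x) - π x| ≤ δ := by
        rw [Finset.sum_congr rfl fun x hx => by rw [h1 x hx]]
        exact hS.ρd
      exact ⟨fun _ => h2, by linarith⟩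
    · obtain ⟨hq1, hq2⟩ := pqm6 hG hF hv hvτ
      obtain ⟨i1, i2⟩ := ih _ hq2 hq1
      have hz : (∀ r ∈ ex, v ≠ p r) → ∀ x ∈ Y, ∑ y ∈ Y, |Kv v x y - kb p F Y k v x y| ≤ 0 := by
        intro hne x hx
        refine le_of_eq (Finset.sum_eq_zero fun y _ => ?_)
        rw [hS.Keq v hv hvτ hne x hx y, sub_self, abs_zero]
      constructor
      · intro hr
        have h1 := step6 hK hG hF hS hv hvτ (d := 0) (hz fun r hr' => (hr r hr').ne)
        have h2 := i1 fun r hr' => lt_trans hq2 (hr r hr')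
        linarith
      · by_cases hne : ∀ r ∈ ex, v ≠ p r
        · have h1 := step6 hK hG hF hS hv hvτ (d := 0) (hz hne)
          linarith
        · push Not at hne
          obtain ⟨r, hr, hvr⟩ := hne
          have h1 := step6 hK hG hF hS hv hvτ (d := δ) (hS.Kd v hv hvτ)
          have h2 := i1 fun r' hr' => by
            have : r' = r := Finset.card_le_one.mp hG.ex1 r' hr' r hr
            rw [this, ← hvr]
            exact hq2
          linarith

/-! #### lower bound for the two-step kernel, upper bound for `hh` -/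

private theorem k2_low6 (hn : 1 ≤ n) (hB : 1 ≤ B) (hK : KS n U Y B t k π) {x w : ℕ} (hx : x ∈ Y)
    (hw : w ∈ Y) : 1 / (4 * B * n) ≤ k2 Y k x w := by
  have hn' : (0 : ℝ) < n := by exact_mod_cast hn
  have hB' : 0 < B := by linarith
  have h1 := hK.room x hx w hw
  have h2 : ((Y.filter fun y => x + y ∈ U ∧ w + y ∈ U).card : ℝ) * (1 / (2 * n) * (1 / (2 * n))) ≤
      k2 Y k x w := by
    rw [← nsmul_eq_mul, ← Finset.sum_const]
    unfold k2
    refine (Finset.sum_le_sum (g := fun y => k x y * k y w) ?_).trans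
      (Finset.sum_le_sum_of_subset_of_nonneg (Finset.filter_subset _ _)
        (fun y _ _ => mul_nonneg (hK.nn _ _) (hK.nn _ _)))
    intro y hy
    obtain ⟨hy1, hy2, hy3⟩ := Finset.mem_filter.mp hy
    refine mul_le_mul (hK.low x hx y hy1 hy2) (hK.low y hy1 w hw ?_) (by positivity) (hK.nn _ _)
    rw [add_comm]
    exact hy3
  refine le_trans ?_ h2
  refine le_trans (le_of_eq ?_) (mul_le_mul_of_nonneg_right h1 (by positivity))
  field_simp
  ring

private theorem hh_bd6 (hn : 1 ≤ n) (hB : 1 ≤ B) (hK : KS n U Y B t k π) {x w : ℕ} (hx : x ∈ Y)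
    (hw : w ∈ Y) (s : ℕ) : |hh 1 Y k x w s| ≤ 4 * B ^ 3 / n := by
  have hn' : (0 : ℝ) < n := by exact_mod_cast hn
  have hB' : 0 < B := by linarith
  have h1 := k2_low6 hn hB hK hx hw
  have h0 : 0 < k2 Y k x w := lt_of_lt_of_le (by positivity) h1
  unfold hh
  rw [if_neg one_ne_zero]
  by_cases hs : s ∈ Y
  · have h2 : 0 ≤ k x s * k s w := mul_nonneg (hK.nn _ _) (hK.nn _ _)
    rw [abs_of_nonneg (div_nonneg h2 h0.le), div_le_iff₀ h0]
    have h3 : k x s * k s w ≤ B / n * (B / n) :=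
      mul_le_mul (hK.up x hx s) (hK.up s hs w) (hK.nn _ _) (by positivity)
    refine h3.trans (le_trans (le_of_eq ?_)
      (mul_le_mul_of_nonneg_left h1 (by positivity : 0 ≤ 4 * B ^ 3 / (n : ℝ))))
    field_simp
  · rw [k_off6 hK hs]
    simp only [zero_mul, zero_div, abs_zero]
    positivity

private theorem hh_sum6 (hn : 1 ≤ n) (hB : 1 ≤ B) (hK : KS n U Y B t k π) {x : ℕ} (hx : x ∈ Y)
    (s : ℕ) : ∑ w ∈ Y, k2 Y k x w * hh 1 Y k x w s = k x s := by
  have h1 : ∀ w ∈ Y, k2 Y k x w * hh 1 Y k x w s = k x s * k s w := by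
    intro w hw
    have h1 := k2_low6 hn hB hK hx hw
    have hn' : (0 : ℝ) < n := by exact_mod_cast hn
    have h0 : 0 < k2 Y k x w := lt_of_lt_of_le (by positivity) h1
    unfold hh
    rw [if_neg one_ne_zero]
    field_simp
  rw [Finset.sum_congr rfl h1, ← Finset.mul_sum]
  by_cases hs : s ∈ Y
  · rw [hK.one s hs, mul_one]
  · rw [k_off6 hK hs, zero_mul]

/-! #### steps at flexible vertices -/

private theorem flQ6 (hG : Geo p R P ex τ) (hF : FlP p u e P ex F τ) {v : ℕ} (hv : v ∈ F) :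
    p v ∈ P \ F := by
  have h1 : v ≠ τ := fun h => hF.top (h ▸ hv)
  exact Finset.mem_sdiff.mpr ⟨hG.st v (hF.sub hv) h1, hF.par v hv⟩

private theorem flu6 (hG : Geo p R P ex τ) (hF : FlP p u e P ex F τ) (he : e = 1) {v : ℕ}
    (hv : v ∈ F) : u v ∈ P \ F ∧ u v ≠ τ ∧ pq p F (u v) = p v ∧ p (u v) ∈ F := by
  obtain ⟨h1, h2, h3⟩ := hF.ch1 he v hv
  refine ⟨Finset.mem_sdiff.mpr ⟨h1, h2⟩, ?_, ?_, ?_⟩
  · intro h
    have h4 := hG.tR
    rw [← h, h3] at h4
    exact Finset.disjoint_left.mp hG.PR (hF.sub hv) h4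
  · unfold pq
    rw [h3, if_pos hv]
  · rw [h3]; exact hv

private theorem flexG6 (hG : Geo p R P ex τ) (hF : FlP p u e P ex F τ)
    (hS : SkL n U Y k π p lab P ex F Bd τ B1 δ ρ Kv L) (he : e = 1) {v : ℕ} (hv : v ∈ F)
    (G : ℕ → ℕ → ℝ) {M : ℝ} (hM0 : 0 ≤ M) (hM : ∀ x ∈ Y, ∀ w ∈ Y, |G x w| ≤ M) :
    |L.Ex (fun φ => G (φ (p v)) (φ (u v))) -
      ∑ x ∈ Y, L.Pr (fun φ => φ (p v) = x) * ∑ w ∈ Y, k2 Y k x w * G x w| ≤ δ * M := by
  obtain ⟨h1, h2, h3, h4⟩ := flu6 hG hF he hv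
  have e1 := pairG6 hG hF hS h1 h2 G
  rw [h3] at e1
  rw [e1, ← Finset.sum_sub_distrib]
  have h5 : ∀ x ∈ Y, |L.Pr (fun φ => φ (p v) = x) * ∑ y ∈ Y, Kv (u v) x y * G x y -
      L.Pr (fun φ => φ (p v) = x) * ∑ w ∈ Y, k2 Y k x w * G x w| ≤
      L.Pr (fun φ => φ (p v) = x) * (δ * M) := by
    intro x hx
    rw [← mul_sub, abs_mul, abs_of_nonneg (pr_nn6 hS _)]
    refine mul_le_mul_of_nonneg_left ?_ (pr_nn6 hS _)
    rw [← Finset.sum_sub_distrib]
    have h6 := hS.Kd (u v) h1 h2 x hx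
    calc |∑ y ∈ Y, (Kv (u v) x y * G x y - k2 Y k x y * G x y)|
        ≤ ∑ y ∈ Y, |Kv (u v) x y * G x y - k2 Y k x y * G x y| := Finset.abs_sum_le_sum_abs _ _
      _ ≤ ∑ y ∈ Y, |Kv (u v) x y - kb p F Y k (u v) x y| * M := by
          refine Finset.sum_le_sum fun y hy => ?_
          unfold kb
          rw [if_pos h4, ← sub_mul, abs_mul]
          exact mul_le_mul_of_nonneg_left (hM x hx y hy) (abs_nonneg _)
      _ = (∑ y ∈ Y, |Kv (u v) x y - kb p F Y k (u v) x y|) * M := by rw [Finset.sum_mul]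
      _ ≤ δ * M := mul_le_mul_of_nonneg_right h6 hM0
  refine (Finset.abs_sum_le_sum_abs _ _).trans ((Finset.sum_le_sum h5).trans ?_)
  rw [← Finset.sum_mul, pr_sum6 hS (flQ6 hG hF hv), one_mul]

private theorem sg6 (s : ℕ) :
    sg Y k π s = ∑ x ∈ Y, π x * (if x ≤ s then k x (s - x) else 0) := by
  unfold sg
  refine Finset.sum_congr rfl fun x _ => ?_
  split_ifs
  · rfl
  · rw [mul_zero]

private theorem ksx_bd6 (hn : 1 ≤ n) (hB : 1 ≤ B) (hK : KS n U Y B t k π) {x : ℕ} (hx : x ∈ Y)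
    (s : ℕ) : |if x ≤ s then k x (s - x) else 0| ≤ B / n := by
  have hn' : (0 : ℝ) < n := by exact_mod_cast hn
  split_ifs
  · rw [abs_of_nonneg (hK.nn _ _)]
    exact hK.up x hx _
  · rw [abs_zero]
    positivity

/-- the law of the sums at the child of a flexible vertex -/
private noncomputable def g6 (Y : Finset ℕ) (k : ℕ → ℕ → ℝ) (s x : ℕ) : ℝ :=
  ∑ w ∈ Y, if w ≤ s then k x (s - w) * k (s - w) w else 0

private theorem g6_bd (hn : 1 ≤ n) (hB : 1 ≤ B) (hK : KS n U Y B t k π) {x : ℕ} (hx : x ∈ Y)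
    (s : ℕ) : |g6 Y k s x| ≤ B / n := by
  have hn' : (0 : ℝ) < n := by exact_mod_cast hn
  have hB' : 0 < B := by linarith
  have h0 : 0 ≤ g6 Y k s x := by
    refine Finset.sum_nonneg fun w _ => ?_
    split_ifs
    · exact mul_nonneg (hK.nn _ _) (hK.nn _ _)
    · exact le_rfl
  rw [abs_of_nonneg h0]
  unfold g6
  rw [← Finset.sum_filter]
  have h1 : ∀ w ∈ Y.filter (fun w => w ≤ s), k x (s - w) * k (s - w) w ≤ k x (s - w) * (B / n) := by
    intro w _
    by_cases hs : s - w ∈ Y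
    · exact mul_le_mul_of_nonneg_left (hK.up _ hs w) (hK.nn _ _)
    · rw [k_off6 hK hs, zero_mul, zero_mul]
  refine (Finset.sum_le_sum h1).trans ?_
  rw [← Finset.sum_mul]
  have h2 : ∑ w ∈ Y.filter (fun w => w ≤ s), k x (s - w) ≤ 1 := by
    have h3 : ∑ w ∈ Y.filter (fun w => w ≤ s), k x (s - w) =
        ∑ y ∈ (Y.filter (fun w => w ≤ s)).image (fun w => s - w), k x y := by
      rw [Finset.sum_image]
      intro a ha b hb hab
      have ha' := (Finset.mem_filter.mp (Finset.mem_coe.mp ha)).2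
      have hb' := (Finset.mem_filter.mp (Finset.mem_coe.mp hb)).2
      simp only at hab
      omega
    rw [h3, ← hK.one x hx]
    have h4 : ∑ y ∈ (Y.filter (fun w => w ≤ s)).image (fun w => s - w), k x y =
        ∑ y ∈ ((Y.filter (fun w => w ≤ s)).image (fun w => s - w)).filter (fun y => y ∈ Y),
          k x y := by
      refine (Finset.sum_filter_of_ne ?_).symm
      intro y _ hy
      by_contra hyY
      exact hy (k_off6 hK hyY)
    rw [h4]
    refine Finset.sum_le_sum_of_subset_of_nonneg ?_ (fun y _ _ => hK.nn _ _)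
    intro y hy
    exact (Finset.mem_filter.mp hy).2
  calc (∑ w ∈ Y.filter (fun w => w ≤ s), k x (s - w)) * (B / n) ≤ 1 * (B / n) :=
        mul_le_mul_of_nonneg_right h2 (by positivity)
    _ = B / n := one_mul _

private theorem g6_st (hK : KS n U Y B t k π) (s : ℕ) :
    ∑ x ∈ Y, π x * g6 Y k s x = sg Y k π s := by
  have h1 : ∀ x ∈ Y, π x * g6 Y k s x =
      ∑ w ∈ Y, if w ≤ s then π x * k x (s - w) * k (s - w) w else 0 := by
    intro x _
    unfold g6
    rw [Finset.mul_sum]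
    refine Finset.sum_congr rfl fun w _ => ?_
    split_ifs
    · ring
    · rw [mul_zero]
  rw [Finset.sum_congr rfl h1, Finset.sum_comm]
  unfold sg
  refine Finset.sum_congr rfl fun w hw => ?_
  by_cases hws : w ≤ s
  · simp only [hws, if_true]
    rw [← Finset.sum_mul, st6 hK]
    by_cases hs : s - w ∈ Y
    · exact hK.rev _ hs w hw
    · have h2 : π (s - w) = 0 := by
        by_contra h
        exact hs (hK.πY _ h)
      rw [h2, k_off6 hK hs, zero_mul, mul_zero]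
  · simp only [hws, if_false, Finset.sum_const_zero]

private theorem pr_top6 (hS : SkL n U Y k π p lab P ex F Bd τ B1 δ ρ Kv L) {x : ℕ} (hx : x ∈ Y) :
    L.Pr (fun φ => φ τ = x) = ρ x := by
  rw [prE6, hS.topl (fun y => if y = x then 1 else 0)]
  simp [Finset.sum_ite_eq', hx]

private theorem kbl6 (hK : KS n U Y B t k π) (hn : 1 ≤ n) (hB1 : 1 ≤ B1) (hδ : 0 ≤ δ)
    (hG : Geo p R P ex τ) (hF : FlP p u e P ex F τ)
    (hS : SkL n U Y k π p lab P ex F Bd τ B1 δ ρ Kv L) {v : ℕ} (hv : v ∈ P \ F) (hvτ : v ≠ τ)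
    (y : ℕ) : |∑ x ∈ Y, L.Pr (fun φ => φ (pq p F v) = x) * kb p F Y k v x y - π y| ≤
      2 * δ * (B1 / n) := by
  have hn' : (0 : ℝ) < n := by exact_mod_cast hn
  have h1 := repl6 (π := π) (g := fun x => kb p F Y k v x y) (M := B1 / n)
    (dist6 hK hδ hG hF hS _ (pqm6 hG hF hv hvτ).1).2
    (fun x hx => by
      show |kb p F Y k v x y| ≤ B1 / n
      rw [abs_of_nonneg (kb_nn6 hK _ _ _)]
      exact hS.KB v hv x hx y) (by positivity)
  rw [stb6 hK] at h1
  exact h1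

private theorem low6 (hK : KS n U Y B t k π) (hn : 1 ≤ n) (hB1 : 1 ≤ B1) (hδ : 0 ≤ δ)
    (hδB : B1 * δ ≤ 1 / 1000) (hG : Geo p R P ex τ) (hF : FlP p u e P ex F τ)
    (hS : SkL n U Y k π p lab P ex F Bd τ B1 δ ρ Kv L) {v : ℕ} (hv : v ∈ P \ F) {x : ℕ}
    (hx : x ∈ Y) (hxB : x ∉ Bd) (hxn : 4 * x ≤ 7 * n) :
    1 / (40 * n) ≤ L.Pr (fun φ => φ v = x) := by
  have hn' : (0 : ℝ) < n := by exact_mod_cast hn
  have h1 := hK.πlow x (hK.YU hx) hxn
  have e20 : (1 : ℝ) / (20 * n) = 50 / 1000 * (1 / n) := by field_simp; norm_num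
  have e40 : (1 : ℝ) / (40 * n) = 25 / 1000 * (1 / n) := by field_simp; norm_num
  have hi : (0 : ℝ) < 1 / n := by positivity
  rw [e20] at h1
  rw [e40]
  by_cases hvτ : v = τ
  · rw [hvτ, pr_top6 hS hx]
    have h2 := hS.ρlow x hx hxB
    linarith
  · have h2 := kbl6 hK hn hB1 hδ hG hF hS hv hvτ x
    have h3 : ∑ x' ∈ Y, L.Pr (fun φ => φ (pq p F v) = x') * kb p F Y k v x' x ≤
        L.Pr (fun φ => φ v = x) := by
      rw [lv6 hG hF hS hv hvτ hx]
      exact Finset.sum_le_sum fun x' hx' => mul_le_mul_of_nonneg_left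
        (hS.Klow v hv hvτ x' hx' x hx hxB) (pr_nn6 hS _)
    rw [abs_le] at h2
    have h4 : 2 * δ * (B1 / n) = 2 * (B1 * δ) * (1 / n) := by ring
    have h5 : 2 * (B1 * δ) * (1 / (n : ℝ)) ≤ 2 / 1000 * (1 / n) :=
      mul_le_mul_of_nonneg_right (by linarith) hi.le
    linarith [h2.1]

end H6

theorem piece_est (B B1 : ℝ) (hB : 1 ≤ B) (hB1 : 1 ≤ B1) : ∃ C : ℝ, 0 < C ∧
    ∀ (n : ℕ) (U Y : Finset ℕ) (t : ℝ) (k : ℕ → ℕ → ℝ) (π : ℕ → ℝ) (p lab u : ℕ → ℕ) (e : ℕ)
      (R P ex F Bd : Finset ℕ) (τ : ℕ) (δ : ℝ) (ρ : ℕ → ℝ) (Kv : ℕ → ℕ → ℕ → ℝ) (L : FL), 1 ≤ n →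
      KS n U Y B t k π → 0 ≤ δ → C * δ ≤ 1 / 100 → Geo p R P ex τ → FlP p u e P ex F τ →
      SkL n U Y k π p lab P ex F Bd τ B1 δ ρ Kv L →
      (∀ v ∈ P \ F, v ≠ τ → (∀ r ∈ ex, v ≠ p r) → ∀ s,
        |L.Pr (fun φ => φ v = s) - π s| ≤ C * δ / n) ∧
      (∀ i ∈ P \ F, i ≠ τ → p i ∉ F → ∀ s,
        |L.Pr (fun φ => φ i + φ (p i) = s) - sg Y k π s| ≤ C * δ / n) ∧
      (∀ v ∈ F, ∀ s, |L.Ex (fun φ => hh e Y k (φ (p v)) (cw e u φ v) s) - π s| ≤ C * δ / n) ∧
      (∀ v ∈ F, ∀ s, |L.Ex (fun φ => if φ (p v) ≤ s then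
        hh e Y k (φ (p v)) (cw e u φ v) (s - φ (p v)) else 0) - sg Y k π s| ≤ C * δ / n) ∧
      (e = 1 → ∀ v ∈ F, ∀ s, |L.Ex (fun φ => if φ (u v) ≤ s then
        hh e Y k (φ (p v)) (φ (u v)) (s - φ (u v)) else 0) - sg Y k π s| ≤ C * δ / n) ∧
      (∀ v ∈ P \ F, ∀ s, L.Pr (fun φ => φ v = s) ≤ 8 / n) ∧
      (e = 0 → ∀ v ∈ F, ∀ x ∈ Y, x ∉ Bd → 4 * x ≤ 7 * n →
        1 / (40 * n) ≤ L.Pr (fun φ => φ (p v) = x)) ∧
      (e = 1 → ∀ v ∈ F, ∀ x ∈ Y, x ∉ Bd → 4 * x ≤ 7 * n → ∀ w ∈ Y, w ∉ Bd →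
        1 / (40 * n) * k2 Y k x w ≤ L.Pr (fun φ => φ (p v) = x ∧ φ (u v) = w)) := by
  refine ⟨4 * B ^ 3 + 2 * B + 10 * B1, by positivity, ?_⟩
  intro n U Y t k π p lab u e R P ex F Bd τ δ ρ Kv L hn hK hδ hC hG hF hS
  have hn' : (0 : ℝ) < n := by exact_mod_cast hn
  have hin : (0 : ℝ) < 1 / n := by positivity
  have hB3 : 0 ≤ 4 * B ^ 3 := by positivity
  have hδB : B1 * δ ≤ 1 / 1000 := by nlinarith
  have hδ1 : δ ≤ 1 / 1000 := by nlinarith
  have hCn : (4 * B ^ 3 + 2 * B + 10 * B1) * δ / n =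
      δ * (4 * B ^ 3 / n) + 2 * δ * (B / n) + 10 * (δ * (B1 / n)) := by field_simp
  have t1 : 0 ≤ δ * (4 * B ^ 3 / n) := by positivity
  have t2 : 0 ≤ δ * (B / n) := by positivity
  have t3 : 0 ≤ δ * (B1 / n) := by positivity
  rw [hCn]
  have hfl : ∀ v ∈ F, ∀ G : ℕ → ℝ, (∀ x ∈ Y, |G x| ≤ B / n) →
      |∑ x ∈ Y, L.Pr (fun φ => φ (p v) = x) * G x - ∑ x ∈ Y, π x * G x| ≤
        2 * δ * (B / n) := by
    intro v hv G hGb
    exact repl6 (dist6 hK hδ hG hF hS _ (flQ6 hG hF hv)).2 hGb (by positivity)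
  refine ⟨?_, ?_, ?_, ?_, ?_, ?_, ?_, ?_⟩
  · intro v hv hvτ hne s
    by_cases hs : s ∈ Y
    · rw [lv6 hG hF hS hv hvτ hs, Finset.sum_congr rfl fun x hx => by
        rw [hS.Keq v hv hvτ hne x hx s]]
      have h1 := kbl6 hK hn hB1 hδ hG hF hS hv hvτ s
      have e1 : 2 * δ * (B1 / n) = 2 * (δ * (B1 / n)) := by ring
      linarith
    · rw [pr_off6 hS hv hs]
      have h1 : π s = 0 := by
        by_contra h
        exact hs (hK.πY s h)
      rw [h1, sub_zero, abs_zero]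
      linarith
  · intro i hi hiτ hpi s
    have hpq : pq p F i = p i := by unfold pq; rw [if_neg hpi]
    have hkb : ∀ x y, kb p F Y k i x y = k x y := fun x y => by unfold kb; rw [if_neg hpi]
    have e1 : L.Pr (fun φ => φ i + φ (p i) = s) =
        ∑ x ∈ Y, L.Pr (fun φ => φ (p i) = x) * (if x ≤ s ∧ s - x ∈ Y then Kv i x (s - x) else 0) := by
      have e2 := pairG6 hG hF hS hi hiτ (fun a b => if b + a = s then 1 else 0)
      rw [hpq] at e2
      rw [prE6, e2]
      refine Finset.sum_congr rfl fun x _ => ?_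
      congr 1
      by_cases hx : x ≤ s ∧ s - x ∈ Y
      · rw [if_pos hx, Finset.sum_eq_single (s - x)]
        · rw [if_pos (by omega), mul_one]
        · intro y _ hy
          rw [if_neg (by omega), mul_zero]
        · intro h
          exact absurd hx.2 h
      · rw [if_neg hx]
        refine Finset.sum_eq_zero fun y hy => ?_
        rw [if_neg, mul_zero]
        intro h
        exact hx ⟨by omega, by
          have : s - x = y := by omega
          rw [this]; exact hy⟩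
    have hKvb : ∀ x ∈ Y, ∀ y, Kv i x y ≤ 2 * (B1 / n) := by
      intro x hx y
      have h1 := hS.Kup i hi hiτ x hx y
      have h2 := hS.KB i hi x hx y
      have h3 := kb_nn6 (p := p) (F := F) hK i x y
      nlinarith
    have h1 : |∑ x ∈ Y, L.Pr (fun φ => φ (p i) = x) *
          (if x ≤ s ∧ s - x ∈ Y then Kv i x (s - x) else 0) -
        ∑ x ∈ Y, π x * (if x ≤ s ∧ s - x ∈ Y then Kv i x (s - x) else 0)| ≤
        2 * δ * (2 * (B1 / n)) := by
      have hq := (pqm6 hG hF hi hiτ).1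
      rw [hpq] at hq
      refine repl6 (dist6 hK hδ hG hF hS _ hq).2 (fun x hx => ?_) (by positivity)
      split_ifs
      · rw [abs_of_nonneg (hS.K0 _ _ _)]
        exact hKvb x hx _
      · rw [abs_zero]
        positivity
    have h2 : |∑ x ∈ Y, π x * (if x ≤ s ∧ s - x ∈ Y then Kv i x (s - x) else 0) -
        sg Y k π s| ≤ 4 * (δ * (B1 / n)) := by
      rw [sg6, ← Finset.sum_sub_distrib]
      have h3 : ∀ x ∈ Y, |π x * (if x ≤ s ∧ s - x ∈ Y then Kv i x (s - x) else 0) -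
          π x * (if x ≤ s then k x (s - x) else 0)| ≤
          π x * (δ * (B1 / n)) + (if x ≤ s ∧ s - x ∈ Bd then 3 / n * (B1 / n) else 0) := by
        intro x hx
        rw [← mul_sub, abs_mul, abs_of_nonneg (hK.πnn x)]
        have hπ := hK.πnn x
        have hzero : 0 ≤ π x * (δ * (B1 / n)) := by positivity
        have hite : (0 : ℝ) ≤ (if x ≤ s ∧ s - x ∈ Bd then 3 / n * (B1 / n) else 0) := by
          split_ifs
          · positivity
          · exact le_rfl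
        by_cases hxs : x ≤ s
        · by_cases hsY : s - x ∈ Y
          · rw [if_pos ⟨hxs, hsY⟩, if_pos hxs]
            have q1 := hS.Kup i hi hiτ x hx (s - x)
            have q2 := hS.KB i hi x hx (s - x)
            have q3 := hS.K0 i x (s - x)
            rw [hkb] at q1 q2
            have q4 := hK.nn x (s - x)
            by_cases hBd : s - x ∈ Bd
            · rw [if_pos ⟨hxs, hBd⟩]
              have q5 : |Kv i x (s - x) - k x (s - x)| ≤ B1 / n := by
                rw [abs_le]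
                constructor
                · linarith
                · nlinarith
              have q6 : π x * |Kv i x (s - x) - k x (s - x)| ≤ 3 / n * (B1 / n) :=
                mul_le_mul (hK.πup x) q5 (abs_nonneg _) (by positivity)
              linarith
            · have q5 := hS.Klow i hi hiτ x hx (s - x) hsY hBd
              rw [hkb] at q5
              have q6 : |Kv i x (s - x) - k x (s - x)| ≤ δ * (B1 / n) := by
                rw [abs_of_nonneg (by linarith)]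
                nlinarith
              have q7 := mul_le_mul_of_nonneg_left q6 hπ
              linarith
          · rw [if_neg (fun h => hsY h.2), if_pos hxs, k_off6 hK hsY, sub_zero, abs_zero,
              mul_zero]
            linarith
        · rw [if_neg (fun h => hxs h.1), if_neg hxs, sub_zero, abs_zero, mul_zero]
          linarith
      refine (Finset.abs_sum_le_sum_abs _ _).trans ((Finset.sum_le_sum h3).trans ?_)
      rw [Finset.sum_add_distrib, ← Finset.sum_mul, hK.πone, one_mul, ← Finset.sum_filter,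
        Finset.sum_const, nsmul_eq_mul]
      have h4 : ((Y.filter fun x => x ≤ s ∧ s - x ∈ Bd).card : ℝ) ≤ δ * n := by
        refine le_trans ?_ hS.Bdc
        have h5 : (Y.filter fun x => x ≤ s ∧ s - x ∈ Bd).card ≤ Bd.card := by
          refine Finset.card_le_card_of_injOn (fun x => s - x) ?_ ?_
          · intro x hx
            exact (Finset.mem_filter.mp (Finset.mem_coe.mp hx)).2.2
          · intro a ha b hb hab
            have ha' := (Finset.mem_filter.mp (Finset.mem_coe.mp ha)).2.1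
            have hb' := (Finset.mem_filter.mp (Finset.mem_coe.mp hb)).2.1
            simp only at hab
            omega
        exact_mod_cast h5
      have h6 : ((Y.filter fun x => x ≤ s ∧ s - x ∈ Bd).card : ℝ) * (3 / n * (B1 / n)) ≤
          δ * n * (3 / n * (B1 / n)) := mul_le_mul_of_nonneg_right h4 (by positivity)
      have e3 : δ * n * (3 / n * (B1 / n)) = 3 * (δ * (B1 / n)) := by field_simp
      linarith
    rw [e1]
    have h7 := abs_sub_le (∑ x ∈ Y, L.Pr (fun φ => φ (p i) = x) *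
          (if x ≤ s ∧ s - x ∈ Y then Kv i x (s - x) else 0))
      (∑ x ∈ Y, π x * (if x ≤ s ∧ s - x ∈ Y then Kv i x (s - x) else 0)) (sg Y k π s)
    have e4 : 2 * δ * (2 * (B1 / n)) = 4 * (δ * (B1 / n)) := by ring
    linarith
  · intro v hv s
    have hb : ∀ x ∈ Y, |k x s| ≤ B / n := fun x hx => by
      rw [abs_of_nonneg (hK.nn _ _)]
      exact hK.up x hx s
    have h1 := hfl v hv (fun x => k x s) hb
    rw [st6 hK] at h1
    rcases Nat.le_one_iff_eq_zero_or_eq_one.mp hF.e1 with he | he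
    · subst he
      have e1 : L.Ex (fun φ => hh 0 Y k (φ (p v)) (cw 0 u φ v) s) =
          ∑ x ∈ Y, L.Pr (fun φ => φ (p v) = x) * k x s := by
        rw [← exG6 hS (flQ6 hG hF hv) (fun x => k x s)]
        simp [hh]
      rw [e1]
      linarith
    · subst he
      have h2 := flexG6 hG hF hS rfl hv (fun x w => hh 1 Y k x w s)
        (by positivity : 0 ≤ 4 * B ^ 3 / (n : ℝ)) (fun x hx w hw => hh_bd6 hn hB hK hx hw s)
      rw [Finset.sum_congr rfl fun x hx => by rw [hh_sum6 hn hB hK hx s]] at h2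
      have h3 := abs_sub_le (L.Ex (fun φ => hh 1 Y k (φ (p v)) (φ (u v)) s))
        (∑ x ∈ Y, L.Pr (fun φ => φ (p v) = x) * k x s) (π s)
      have e2 : (fun φ : ℕ → ℕ => hh 1 Y k (φ (p v)) (cw 1 u φ v) s) =
          fun φ => hh 1 Y k (φ (p v)) (φ (u v)) s := by
        funext φ
        simp [cw]
      rw [e2]
      linarith
  · intro v hv s
    have h1 := hfl v hv (fun x => if x ≤ s then k x (s - x) else 0)
      (fun x hx => ksx_bd6 hn hB hK hx s)
    rw [← sg6 (Y := Y) (k := k) (π := π) s] at h1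
    rcases Nat.le_one_iff_eq_zero_or_eq_one.mp hF.e1 with he | he
    · subst he
      have e1 : L.Ex (fun φ => if φ (p v) ≤ s then
          hh 0 Y k (φ (p v)) (cw 0 u φ v) (s - φ (p v)) else 0) =
          ∑ x ∈ Y, L.Pr (fun φ => φ (p v) = x) * (if x ≤ s then k x (s - x) else 0) := by
        rw [← exG6 hS (flQ6 hG hF hv) (fun x => if x ≤ s then k x (s - x) else 0)]
        simp [hh]
      rw [e1]
      linarith
    · subst he
      have h2 := flexG6 hG hF hS rfl hv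
        (fun x w => if x ≤ s then hh 1 Y k x w (s - x) else 0)
        (by positivity : 0 ≤ 4 * B ^ 3 / (n : ℝ)) (fun x hx w hw => by
          split_ifs
          · exact hh_bd6 hn hB hK hx hw _
          · rw [abs_zero]; positivity)
      have e3 : ∀ x ∈ Y, ∑ w ∈ Y, k2 Y k x w * (if x ≤ s then hh 1 Y k x w (s - x) else 0) =
          if x ≤ s then k x (s - x) else 0 := by
        intro x hx
        split_ifs
        · exact hh_sum6 hn hB hK hx _
        · simp
      beta_reduce at h2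
      rw [Finset.sum_congr rfl fun x hx => by rw [e3 x hx]] at h2
      have h3 := abs_sub_le (L.Ex (fun φ => if φ (p v) ≤ s then
          hh 1 Y k (φ (p v)) (φ (u v)) (s - φ (p v)) else 0))
        (∑ x ∈ Y, L.Pr (fun φ => φ (p v) = x) * (if x ≤ s then k x (s - x) else 0)) (sg Y k π s)
      have e2 : (fun φ : ℕ → ℕ => if φ (p v) ≤ s then
          hh 1 Y k (φ (p v)) (cw 1 u φ v) (s - φ (p v)) else 0) =
          fun φ => if φ (p v) ≤ s then hh 1 Y k (φ (p v)) (φ (u v)) (s - φ (p v)) else 0 := by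
        funext φ
        simp [cw]
      rw [e2]
      linarith
  · intro he v hv s
    subst he
    have h1 := hfl v hv (g6 Y k s) (fun x hx => g6_bd hn hB hK hx s)
    rw [g6_st hK] at h1
    have h2 := flexG6 hG hF hS rfl hv
      (fun x w => if w ≤ s then hh 1 Y k x w (s - w) else 0)
      (by positivity : 0 ≤ 4 * B ^ 3 / (n : ℝ)) (fun x hx w hw => by
        split_ifs
        · exact hh_bd6 hn hB hK hx hw _
        · rw [abs_zero]; positivity)
    have e3 : ∀ x ∈ Y, ∑ w ∈ Y, k2 Y k x w * (if w ≤ s then hh 1 Y k x w (s - w) else 0) =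
        g6 Y k s x := by
      intro x hx
      unfold g6
      refine Finset.sum_congr rfl fun w hw => ?_
      split_ifs
      · have q1 := k2_low6 hn hB hK hx hw
        have q0 : 0 < k2 Y k x w := lt_of_lt_of_le (by positivity) q1
        unfold hh
        rw [if_neg one_ne_zero]
        field_simp
      · rw [mul_zero]
    beta_reduce at h2
    rw [Finset.sum_congr rfl fun x hx => by rw [e3 x hx]] at h2
    have h3 := abs_sub_le (L.Ex (fun φ => if φ (u v) ≤ s then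
        hh 1 Y k (φ (p v)) (φ (u v)) (s - φ (u v)) else 0))
      (∑ x ∈ Y, L.Pr (fun φ => φ (p v) = x) * g6 Y k s x) (sg Y k π s)
    linarith
  · intro v hv s
    by_cases hs : s ∈ Y
    · by_cases hvτ : v = τ
      · rw [hvτ, pr_top6 hS hs]
        refine (hS.ρup s).trans ?_
        exact div_le_div_of_nonneg_right (by norm_num) hn'.le
      · have h1 := kbl6 hK hn hB1 hδ hG hF hS hv hvτ s
        have h2 : L.Pr (fun φ => φ v = s) ≤
            (1 + δ) * ∑ x ∈ Y, L.Pr (fun φ => φ (pq p F v) = x) * kb p F Y k v x s := by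
          rw [lv6 hG hF hS hv hvτ hs, Finset.mul_sum]
          refine Finset.sum_le_sum fun x hx => ?_
          have q1 := mul_le_mul_of_nonneg_left (hS.Kup v hv hvτ x hx s)
            (pr_nn6 hS (fun φ => φ (pq p F v) = x))
          linarith
        rw [abs_le] at h1
        have h3 := hK.πup s
        have e1 : (3 : ℝ) / n = 3 * (1 / n) := by ring
        have e2 : (8 : ℝ) / n = 8 * (1 / n) := by ring
        have e3 : 2 * δ * (B1 / n) = 2 * (B1 * δ) * (1 / n) := by ring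
        have h4 : 2 * (B1 * δ) * (1 / (n : ℝ)) ≤ 2 / 1000 * (1 / n) :=
          mul_le_mul_of_nonneg_right (by linarith) hin.le
        rw [e1] at h3
        rw [e2]
        have h5 : ∑ x ∈ Y, L.Pr (fun φ => φ (pq p F v) = x) * kb p F Y k v x s ≤
            4 * (1 / n) := by linarith [h1.2]
        have h6 : (1 + δ) * ∑ x ∈ Y, L.Pr (fun φ => φ (pq p F v) = x) * kb p F Y k v x s ≤
            2 * (4 * (1 / n)) := by
          refine mul_le_mul (by linarith) h5 ?_ (by norm_num)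
          exact Finset.sum_nonneg fun x _ => mul_nonneg (pr_nn6 hS _) (kb_nn6 hK _ _ _)
        linarith
    · rw [pr_off6 hS hv hs]
      positivity
  · intro _ v hv x hx hxB hxn
    exact low6 hK hn hB1 hδ hδB hG hF hS (flQ6 hG hF hv) hx hxB hxn
  · intro he v hv x hx hxB hxn w hw hwB
    obtain ⟨h1, h2, h3, h4⟩ := flu6 hG hF he hv
    have e1 : L.Pr (fun φ => φ (p v) = x ∧ φ (u v) = w) =
        L.Pr (fun φ => φ (p v) = x) * Kv (u v) x w := by
      have e2 := pairG6 hG hF hS h1 h2 (fun a b => if a = x ∧ b = w then 1 else 0)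
      rw [h3] at e2
      rw [prE6 (fun φ => φ (p v) = x ∧ φ (u v) = w), e2, Finset.sum_eq_single x]
      · congr 1
        rw [Finset.sum_eq_single w]
        · rw [if_pos ⟨rfl, rfl⟩, mul_one]
        · intro y _ hy
          rw [if_neg fun h => hy h.2, mul_zero]
        · intro h
          exact absurd hw h
      · intro y _ hy
        rw [Finset.sum_eq_zero, mul_zero]
        intro z _
        rw [if_neg fun h => hy h.1, mul_zero]
      · intro h
        exact absurd hx h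
    have h5 := low6 hK hn hB1 hδ hδB hG hF hS (flQ6 hG hF hv) hx hxB hxn
    have h6 := hS.Klow (u v) h1 h2 x hx w hw hwB
    unfold kb at h6
    rw [if_pos h4] at h6
    rw [e1]
    exact mul_le_mul h5 h6 (k2_nn6 hK _ _) (pr_nn6 hS _)

end Pool.Agent.SQ
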