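import Pool.Agent.Helper73.SQ.KD
import Pool.Agent.Helper73.SQ.CN
import Pool.Agent.Helper73.SEM.LW5

/-!
# SQ-LED: definitions for the laws of the pieces
-/

set_option autoImplicit false

namespace Pool.Agent.SQ

open Finset Pool.Agent.SEM

/-- two-step kernel -/
noncomputable def k2 (Y : Finset ℕ) (k : ℕ → ℕ → ℝ) (x w : ℕ) : ℝ := ∑ y ∈ Y, k x y * k y w

/-- conditional law of the label `y` of a flexible vertex, given the label `x` of its parent and (`e = 1`) the label `w` of its child -/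
noncomputable def hh (e : ℕ) (Y : Finset ℕ) (k : ℕ → ℕ → ℝ) (x w y : ℕ) : ℝ :=
  if e = 0 then k x y else k x y * k y w / k2 Y k x w

/-- stationary law of the sums -/
noncomputable def sg (Y : Finset ℕ) (k : ℕ → ℕ → ℝ) (π : ℕ → ℝ) (s : ℕ) : ℝ :=
  ∑ x ∈ Y, if x ≤ s then π x * k x (s - x) else 0

/-- label of the child of `v` (`0` if `e = 0`) -/
def cw (e : ℕ) (u : ℕ → ℕ) (φ : ℕ → ℕ) (v : ℕ) : ℕ := if e = 0 then 0 else φ (u v)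

/-- flexible vertices `F` of a piece `P` with top `τ` and exits `ex`; `u v` = child of `v ∈ F` if `e = 1` -/
structure FlP (p u : ℕ → ℕ) (e : ℕ) (P ex F : Finset ℕ) (τ : ℕ) : Prop where
  e1 : e ≤ 1
  sub : F ⊆ P
  top : τ ∉ F
  par : ∀ v ∈ F, p v ∉ F
  ch0 : e = 0 → ∀ v ∈ P, p v ∉ F
  ch1 : e = 1 → ∀ v ∈ F, u v ∈ P ∧ u v ∉ F ∧ p (u v) = v
  chu : ∀ v ∈ P, p v ∈ F → v = u (p v)
  exF : ∀ r ∈ ex, p r ∉ F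

/-- parent in the skeleton `P \ F` -/
def pq (p : ℕ → ℕ) (F : Finset ℕ) (v : ℕ) : ℕ := if p v ∈ F then p (p v) else p v

/-- kernel of the step from `pq p F v` to `v` without exit condition -/
noncomputable def kb (p : ℕ → ℕ) (F Y : Finset ℕ) (k : ℕ → ℕ → ℝ) (v x y : ℕ) : ℝ :=
  if p v ∈ F then k2 Y k x y else k x y

/-- random labelling of the skeleton `P \ F` of a piece: Markov chain with kernels `Kv` close to `kb`, first law `ρ` close to `π`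
(`δ` = error in total variation, `Bd` = exceptional labels, `B` = bound for all densities) -/
structure SkL (n : ℕ) (U Y : Finset ℕ) (k : ℕ → ℕ → ℝ) (π : ℕ → ℝ) (p lab : ℕ → ℕ)
    (P ex F Bd : Finset ℕ) (τ : ℕ) (B δ : ℝ) (ρ : ℕ → ℝ) (Kv : ℕ → ℕ → ℕ → ℝ) (L : FL) : Prop where
  nn : ∀ ω, 0 ≤ L.wt ω
  one : L.Ex (fun _ => 1) = 1
  off : ∀ ω, ∀ v, v ∉ P \ F → L.Φ ω v = lab v
  lbl : ∀ ω, L.wt ω ≠ 0 → ∀ v ∈ P \ F, L.Φ ω v ∈ Y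
  sm : ∀ ω, L.wt ω ≠ 0 → ∀ i ∈ (P \ F) ∪ ex, p i ∉ F → L.Φ ω i + L.Φ ω (p i) ∈ U
  joint : ∀ A ⊆ P \ F, ∀ x : ℕ → ℕ, L.Pr (fun φ => ∀ v ∈ A, φ v = x v) ≤ (B / n) ^ A.card
  topl : ∀ G : ℕ → ℝ, L.Ex (fun φ => G (φ τ)) = ∑ y ∈ Y, ρ y * G y
  pair : ∀ v ∈ P \ F, v ≠ τ → ∀ G : ℕ → ℕ → ℝ, L.Ex (fun φ => G (φ (pq p F v)) (φ v)) =
    L.Ex (fun φ => ∑ y ∈ Y, Kv v (φ (pq p F v)) y * G (φ (pq p F v)) y)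
  ρ0 : ∀ x, 0 ≤ ρ x
  ρ1 : ∑ x ∈ Y, ρ x = 1
  ρd : ∑ x ∈ Y, |ρ x - π x| ≤ δ
  ρlow : ∀ x ∈ Y, x ∉ Bd → π x ≤ ρ x
  ρup : ∀ x, ρ x ≤ 6 / n
  K0 : ∀ v x y, 0 ≤ Kv v x y
  K1 : ∀ v ∈ P \ F, v ≠ τ → ∀ x ∈ Y, ∑ y ∈ Y, Kv v x y = 1
  Kd : ∀ v ∈ P \ F, v ≠ τ → ∀ x ∈ Y, ∑ y ∈ Y, |Kv v x y - kb p F Y k v x y| ≤ δ
  Keq : ∀ v ∈ P \ F, v ≠ τ → (∀ r ∈ ex, v ≠ p r) → ∀ x ∈ Y, ∀ y, Kv v x y = kb p F Y k v x y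
  Klow : ∀ v ∈ P \ F, v ≠ τ → ∀ x ∈ Y, ∀ y ∈ Y, y ∉ Bd → kb p F Y k v x y ≤ Kv v x y
  Kup : ∀ v ∈ P \ F, v ≠ τ → ∀ x ∈ Y, ∀ y, Kv v x y ≤ (1 + δ) * kb p F Y k v x y
  KB : ∀ v ∈ P \ F, ∀ x ∈ Y, ∀ y, kb p F Y k v x y ≤ B / n
  Bdc : (Bd.card : ℝ) ≤ δ * n

end Pool.Agent.SQ
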