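import Pool.Agent.Helper73.SQ.LLD

/-!
# SQ-LL1: the loads before correction (proof by helper29)

Proof in words.  `∑_{x,w} mF x w ∑_y hh e Y k x w y AA e x w y s = ∑_τ ∑_{v ∈ F τ} (Ex hh(..) s + Ex hh(..)(s - φ (p v)) + [e=1] Ex hh(..)(s - φ (u v)))`
(labels of `p v`, `u v` are in `Y`; `hh e Y k x w y = 0` if `y ∉ Y`).  So the left side is a sum over all vertices `v ∈ P τ` and all edges `i ∈ P τ ∪ ex τ`:
vertices: `v ∈ P τ \ F τ`, `v ≠ τ`, not the exit parent: `π s ± η/n` (`h1`); `v ∈ F τ`: `π s ± η/n` (`h3`); the others (at most `|T| + ∑|ex| ≤ 2a`):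
between `0` and `8/n`.  Edges: `i ∈ P τ \ F τ`, `i ≠ τ`, `p i ∉ F τ`: `σ s ± η/n` (`h2`); `i ∈ F τ`: `σ s ± η/n` (`h4`); `p i ∈ F τ` (only if `e = 1`, `i = u (p i)`):
`σ s ± η/n` (`h5`; `v ↦ u v` is a bijection from `F τ` to these edges: `FlP.ch1`, `chu`); `i = τ` or `i ∈ ex τ`: between `0` and `8/n`: the sum is determined by one
label (`φ (p τ) = lab (p τ)`, `φ r = lab r` by `off`; `p r ∈ P τ \ F τ`).  `n (π s + σ s) = 1 ± t` for `s ∈ U` (`KS.bal`), `0 ≤ π, σ`.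
With `V = ∑ |P τ|`, `E = ∑ |P τ ∪ ex τ|` in `[n - a, n]` the total is `1 ± (t + 3 η + 50 a / n)`.
-/

set_option autoImplicit false

namespace Pool.Agent.SQ

open Finset Pool.Agent.SEM

section H29

private theorem Ex_congr_h29 {L : FL} {F G : (ℕ → ℕ) → ℝ}
    (h : ∀ ω, L.wt ω ≠ 0 → F (L.Φ ω) = G (L.Φ ω)) : L.Ex F = L.Ex G := by
  unfold FL.Ex
  let _ := L.fin
  refine Finset.sum_congr rfl fun ω _ => ?_
  by_cases hw : L.wt ω = 0
  · rw [hw, zero_mul, zero_mul]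
  · rw [h ω hw]

private theorem Ex_add_h29 (L : FL) (F G : (ℕ → ℕ) → ℝ) :
    L.Ex (fun φ => F φ + G φ) = L.Ex F + L.Ex G := by
  unfold FL.Ex
  let _ := L.fin
  rw [← Finset.sum_add_distrib]
  exact Finset.sum_congr rfl fun ω _ => mul_add _ _ _

private theorem Ex_mul_h29 (L : FL) (F : (ℕ → ℕ) → ℝ) (c : ℝ) :
    L.Ex (fun φ => F φ * c) = L.Ex F * c := by
  unfold FL.Ex
  let _ := L.fin
  rw [Finset.sum_mul]
  exact Finset.sum_congr rfl fun ω _ => (mul_assoc _ _ _).symm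

private theorem Ex_sum_h29 {ι : Type} (L : FL) (A : Finset ι) (F : ι → (ℕ → ℕ) → ℝ) :
    L.Ex (fun φ => ∑ i ∈ A, F i φ) = ∑ i ∈ A, L.Ex (F i) := by
  unfold FL.Ex
  let _ := L.fin
  rw [Finset.sum_comm]
  exact Finset.sum_congr rfl fun ω _ => Finset.mul_sum _ _ _

private theorem Pr_nonneg_h29 {L : FL} (hnn : ∀ ω, 0 ≤ L.wt ω) (E : (ℕ → ℕ) → Prop) :
    0 ≤ L.Pr E := by
  unfold FL.Pr FL.Ex
  let _ := L.fin
  refine Finset.sum_nonneg fun ω _ => mul_nonneg (hnn ω) ?_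
  beta_reduce
  split_ifs <;> norm_num

private theorem Pr_mono_h29 {L : FL} (hnn : ∀ ω, 0 ≤ L.wt ω) {E F : (ℕ → ℕ) → Prop}
    (h : ∀ ω, E (L.Φ ω) → F (L.Φ ω)) : L.Pr E ≤ L.Pr F := by
  unfold FL.Pr FL.Ex
  let _ := L.fin
  refine Finset.sum_le_sum fun ω _ => mul_le_mul_of_nonneg_left ?_ (hnn ω)
  beta_reduce
  by_cases h1 : E (L.Φ ω)
  · rw [if_pos h1, if_pos (h ω h1)]
  · rw [if_neg h1]
    split_ifs <;> norm_num

private theorem sum_near_h29 (A B : Finset ℕ) (f : ℕ → ℝ) (c ε M : ℝ)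
    (hM : 0 ≤ M) (h1 : ∀ i ∈ A, i ∉ B → |f i - c| ≤ ε)
    (h2 : ∀ i ∈ A, i ∈ B → |f i - c| ≤ ε + M) :
    |∑ i ∈ A, f i - A.card * c| ≤ A.card * ε + B.card * M := by
  have e1 : ∑ i ∈ A, f i - A.card * c = ∑ i ∈ A, (f i - c) := by
    rw [Finset.sum_sub_distrib, Finset.sum_const, nsmul_eq_mul]
  rw [e1]
  calc |∑ i ∈ A, (f i - c)| ≤ ∑ i ∈ A, |f i - c| := Finset.abs_sum_le_sum_abs _ _
    _ ≤ ∑ i ∈ A, (ε + if i ∈ B then M else 0) := by
        refine Finset.sum_le_sum fun i hi => ?_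
        by_cases hB : i ∈ B
        · rw [if_pos hB]
          exact h2 i hi hB
        · rw [if_neg hB, add_zero]
          exact h1 i hi hB
    _ = A.card * ε + (A.filter fun i => i ∈ B).card * M := by
        rw [Finset.sum_add_distrib, Finset.sum_const, nsmul_eq_mul, ← Finset.sum_filter,
          Finset.sum_const, nsmul_eq_mul]
    _ ≤ A.card * ε + B.card * M := by
        have h3 : (A.filter fun i => i ∈ B).card ≤ B.card :=
          Finset.card_le_card fun i hi => (Finset.mem_filter.mp hi).2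
        have h4 : ((A.filter fun i => i ∈ B).card : ℝ) ≤ B.card := by exact_mod_cast h3
        have h5 := mul_le_mul_of_nonneg_right h4 hM
        linarith

private theorem sum_ind_h29 (Y : Finset ℕ) (f : ℕ → ℝ) (hf : ∀ y, y ∉ Y → f y = 0) (c s : ℕ) :
    ∑ y ∈ Y, f y * (if c + y = s then 1 else 0) = if c ≤ s then f (s - c) else 0 := by
  by_cases hc : c ≤ s
  · rw [if_pos hc]
    by_cases hy : s - c ∈ Y
    · rw [Finset.sum_eq_single_of_mem (s - c) hy]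
      · rw [if_pos (by omega), mul_one]
      · intro y _ hne
        rw [if_neg (by omega), mul_zero]
    · rw [hf _ hy]
      refine Finset.sum_eq_zero fun y hyY => ?_
      rw [if_neg, mul_zero]
      intro h
      apply hy
      have : s - c = y := by omega
      rw [this]
      exact hyY
  · rw [if_neg hc]
    refine Finset.sum_eq_zero fun y _ => ?_
    rw [if_neg (by omega), mul_zero]

/-- the inner sum over `y` -/
private theorem sum_y_h29 {n : ℕ} {U Y : Finset ℕ} {B t : ℝ} {k : ℕ → ℕ → ℝ} {π : ℕ → ℝ}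
    (hk : KS n U Y B t k π) (e x w s : ℕ) :
    ∑ y ∈ Y, hh e Y k x w y * AA e x w y s = hh e Y k x w s +
      (if x ≤ s then hh e Y k x w (s - x) else 0) +
      (if e = 1 then (if w ≤ s then hh e Y k x w (s - w) else 0) else 0) := by
  have hf : ∀ y, y ∉ Y → hh e Y k x w y = 0 := by
    intro y hy
    have hk0 : k x y = 0 := by
      by_contra h0
      exact hy (hk.supp x y h0).1
    unfold hh
    rw [hk0]
    split_ifs <;> simp
  have e1 : ∀ y, hh e Y k x w y * AA e x w y s =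
      hh e Y k x w y * (if 0 + y = s then 1 else 0) + hh e Y k x w y * (if x + y = s then 1 else 0) +
      (if e = 1 then hh e Y k x w y * (if w + y = s then 1 else 0) else 0) := by
    intro y
    unfold AA
    rw [zero_add, mul_add, mul_add]
    congr 1
    by_cases he : e = 1
    · simp [he]
    · simp [he]
  rw [Finset.sum_congr rfl fun y _ => e1 y, Finset.sum_add_distrib, Finset.sum_add_distrib,
    sum_ind_h29 Y _ hf 0 s, sum_ind_h29 Y _ hf x s, if_pos (Nat.zero_le s), Nat.sub_zero]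
  congr 1
  by_cases he : e = 1
  · simp only [if_pos he]
    exact sum_ind_h29 Y _ hf w s
  · simp only [if_neg he, Finset.sum_const_zero]

/-- picking the values of two random labels -/
private theorem pick_h29 (L : FL) (Y W : Finset ℕ) (f g : (ℕ → ℕ) → ℕ) (G : ℕ → ℕ → ℝ)
    (hf : ∀ ω, L.wt ω ≠ 0 → f (L.Φ ω) ∈ Y) (hg : ∀ ω, L.wt ω ≠ 0 → g (L.Φ ω) ∈ W) :
    ∑ x ∈ Y, ∑ w ∈ W, L.Pr (fun φ => f φ = x ∧ g φ = w) * G x w =
      L.Ex (fun φ => G (f φ) (g φ)) := by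
  have e1 : ∀ x w, L.Pr (fun φ => f φ = x ∧ g φ = w) * G x w =
      L.Ex (fun φ => (if f φ = x ∧ g φ = w then 1 else 0) * G x w) := by
    intro x w
    rw [Ex_mul_h29]
    unfold FL.Pr
    congr 2
    funext φ
    by_cases h : f φ = x ∧ g φ = w
    · rw [if_pos h, if_pos h]
    · rw [if_neg h, if_neg h]
  calc ∑ x ∈ Y, ∑ w ∈ W, L.Pr (fun φ => f φ = x ∧ g φ = w) * G x w
      = ∑ x ∈ Y, ∑ w ∈ W, L.Ex (fun φ => (if f φ = x ∧ g φ = w then 1 else 0) * G x w) :=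
        Finset.sum_congr rfl fun x _ => Finset.sum_congr rfl fun w _ => e1 x w
    _ = L.Ex (fun φ => ∑ x ∈ Y, ∑ w ∈ W, (if f φ = x ∧ g φ = w then 1 else 0) * G x w) := by
        rw [Ex_sum_h29]
        exact Finset.sum_congr rfl fun x _ => (Ex_sum_h29 L W _).symm
    _ = _ := by
        refine Ex_congr_h29 fun ω hω => ?_
        rw [Finset.sum_eq_single_of_mem _ (hf ω hω)]
        · rw [Finset.sum_eq_single_of_mem _ (hg ω hω)]
          · rw [if_pos ⟨rfl, rfl⟩, one_mul]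
          · intro w _ hne
            rw [if_neg (fun h => hne h.2.symm), zero_mul]
        · intro x _ hne
          refine Finset.sum_eq_zero fun w _ => ?_
          rw [if_neg (fun h => hne h.1.symm), zero_mul]

variable {n : ℕ} {U Y : Finset ℕ} {B t : ℝ} {k : ℕ → ℕ → ℝ} {π : ℕ → ℝ}

/-- vertices of one piece -/
private theorem vert_h29 (hk : KS n U Y B t k π) (hn : 1 ≤ n) (p u : ℕ → ℕ) (e : ℕ)
    (P ex F : Finset ℕ) (τ : ℕ) (L : FL) (η : ℝ) (hη : 0 ≤ η)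
    (hF : FlP p u e P ex F τ) (hnn : ∀ ω, 0 ≤ L.wt ω) (s : ℕ)
    (h1 : ∀ v ∈ P \ F, v ≠ τ → (∀ r ∈ ex, v ≠ p r) →
        |L.Pr (fun φ => φ v = s) - π s| ≤ η / n)
    (h3 : ∀ v ∈ F, |L.Ex (fun φ => hh e Y k (φ (p v)) (cw e u φ v) s) - π s| ≤ η / n)
    (h6 : ∀ v ∈ P \ F, L.Pr (fun φ => φ v = s) ≤ 8 / n) :
    |(∑ v ∈ P \ F, L.Pr (fun φ => φ v = s) +
        ∑ v ∈ F, L.Ex (fun φ => hh e Y k (φ (p v)) (cw e u φ v) s)) - P.card * π s| ≤
      P.card * (η / n) + (1 + ex.card) * (8 / n) := by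
  have hn0 : (0 : ℝ) < n := by exact_mod_cast hn
  obtain ⟨f, hf⟩ : ∃ f : ℕ → ℝ, ∀ v, f v = if v ∈ F then
      L.Ex (fun φ => hh e Y k (φ (p v)) (cw e u φ v) s) else L.Pr (fun φ => φ v = s) :=
    ⟨_, fun _ => rfl⟩
  have hsum : ∑ v ∈ P \ F, L.Pr (fun φ => φ v = s) +
      ∑ v ∈ F, L.Ex (fun φ => hh e Y k (φ (p v)) (cw e u φ v) s) = ∑ v ∈ P, f v := by
    rw [← Finset.sum_sdiff hF.sub]
    congr 1
    · refine Finset.sum_congr rfl fun v hv => ?_
      rw [hf, if_neg (Finset.mem_sdiff.mp hv).2]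
    · refine Finset.sum_congr rfl fun v hv => ?_
      rw [hf, if_pos hv]
  rw [hsum]
  have hηn : 0 ≤ η / n := by positivity
  have hB : ((insert τ (ex.image p)).card : ℝ) ≤ 1 + ex.card := by
    have h7 : (insert τ (ex.image p)).card ≤ 1 + ex.card := by
      refine (Finset.card_insert_le _ _).trans ?_
      have := Finset.card_image_le (s := ex) (f := p)
      omega
    exact_mod_cast h7
  refine (sum_near_h29 P (insert τ (ex.image p)) f (π s) (η / n) (8 / n) (by positivity)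
    ?_ ?_).trans ?_
  · intro v hv hvB
    rw [hf]
    by_cases hvF : v ∈ F
    · rw [if_pos hvF]
      exact h3 v hvF
    · rw [if_neg hvF]
      refine h1 v (Finset.mem_sdiff.mpr ⟨hv, hvF⟩) ?_ ?_
      · intro h
        exact hvB (h ▸ Finset.mem_insert_self _ _)
      · intro r hr h
        exact hvB (Finset.mem_insert_of_mem (Finset.mem_image.mpr ⟨r, hr, h.symm⟩))
  · intro v hv _
    rw [hf]
    by_cases hvF : v ∈ F
    · rw [if_pos hvF]
      have h8 := h3 v hvF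
      have : (0 : ℝ) ≤ 8 / n := by positivity
      linarith
    · rw [if_neg hvF]
      have a1 := Pr_nonneg_h29 hnn (fun φ => φ v = s)
      have a2 := h6 v (Finset.mem_sdiff.mpr ⟨hv, hvF⟩)
      have a3 := hk.πnn s
      have a4 := hk.πup s
      have a5 : (3 : ℝ) / n ≤ 8 / n := by
        refine div_le_div_of_nonneg_right (by norm_num) hn0.le
      rw [abs_le]
      constructor <;> linarith
  · have : ((insert τ (ex.image p)).card : ℝ) * (8 / n) ≤ (1 + ex.card) * (8 / n) :=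
      mul_le_mul_of_nonneg_right hB (by positivity)
    linarith

/-- edges of one piece -/
private theorem edge_h29 (hk : KS n U Y B t k π) (hn : 1 ≤ n) (ht1 : t ≤ 1) (p lab u : ℕ → ℕ)
    (e : ℕ) (R P ex F : Finset ℕ) (τ : ℕ) (L : FL) (η : ℝ) (hη : 0 ≤ η)
    (hG : Geo p R P ex τ) (hF : FlP p u e P ex F τ) (hnn : ∀ ω, 0 ≤ L.wt ω)
    (hoff : ∀ ω, ∀ v, v ∉ P \ F → L.Φ ω v = lab v) (s : ℕ) (hs : s ∈ U)
    (h2 : ∀ i ∈ P \ F, i ≠ τ → p i ∉ F →
        |L.Pr (fun φ => φ i + φ (p i) = s) - sg Y k π s| ≤ η / n)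
    (h4 : ∀ v ∈ F, |L.Ex (fun φ => if φ (p v) ≤ s then
        hh e Y k (φ (p v)) (cw e u φ v) (s - φ (p v)) else 0) - sg Y k π s| ≤ η / n)
    (h5 : e = 1 → ∀ v ∈ F, |L.Ex (fun φ => if φ (u v) ≤ s then
        hh e Y k (φ (p v)) (φ (u v)) (s - φ (u v)) else 0) - sg Y k π s| ≤ η / n)
    (h6 : ∀ v ∈ P \ F, ∀ s, L.Pr (fun φ => φ v = s) ≤ 8 / n) :
    |(∑ i ∈ ((P \ F) ∪ ex).filter (fun i => p i ∉ F), L.Pr (fun φ => φ i + φ (p i) = s) +
        ∑ v ∈ F, L.Ex (fun φ => if φ (p v) ≤ s then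
          hh e Y k (φ (p v)) (cw e u φ v) (s - φ (p v)) else 0) +
        (if e = 1 then ∑ v ∈ F, L.Ex (fun φ => if φ (u v) ≤ s then
          hh e Y k (φ (p v)) (φ (u v)) (s - φ (u v)) else 0) else 0)) -
        (P ∪ ex).card * sg Y k π s| ≤
      (P ∪ ex).card * (η / n) + (1 + ex.card) * (8 / n) := by
  have hn0 : (0 : ℝ) < n := by exact_mod_cast hn
  have hηn : 0 ≤ η / n := by positivity
  -- bounds for sg
  have hsg0 : 0 ≤ sg Y k π s := by
    unfold sg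
    refine Finset.sum_nonneg fun x _ => ?_
    split_ifs
    · exact mul_nonneg (hk.πnn x) (hk.nn _ _)
    · exact le_rfl
  have hsg1 : sg Y k π s ≤ 2 / n := by
    have h7 := (abs_le.mp (hk.bal s hs)).2
    have h8 : (n : ℝ) * (π s + sg Y k π s) ≤ 2 := by
      unfold sg
      linarith
    have h9 := hk.πnn s
    rw [le_div_iff₀ hn0]
    nlinarith
  obtain ⟨E4, hE4⟩ : ∃ f : ℕ → ℝ, ∀ v, f v = L.Ex (fun φ => if φ (p v) ≤ s then
          hh e Y k (φ (p v)) (cw e u φ v) (s - φ (p v)) else 0) := ⟨_, fun _ => rfl⟩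
  obtain ⟨E5, hE5⟩ : ∃ f : ℕ → ℝ, ∀ v, f v = L.Ex (fun φ => if φ (u v) ≤ s then
          hh e Y k (φ (p v)) (φ (u v)) (s - φ (u v)) else 0) := ⟨_, fun _ => rfl⟩
  simp only [← hE4, ← hE5] at h4 h5 ⊢
  obtain ⟨f, hf⟩ : ∃ f : ℕ → ℝ, ∀ i, f i = if i ∈ F then E4 i else if p i ∈ F then E5 (p i)
      else L.Pr (fun φ => φ i + φ (p i) = s) := ⟨_, fun _ => rfl⟩
  have hexF : ∀ r ∈ ex, r ∉ P := fun r hr hP => Finset.disjoint_left.mp hG.PR hP (hG.exR hr)
  have hunion : P ∪ ex = F ∪ ((P \ F) ∪ ex) := by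
    ext i
    simp only [Finset.mem_union, Finset.mem_sdiff]
    constructor
    · rintro (h | h)
      · by_cases hi : i ∈ F
        · exact Or.inl hi
        · exact Or.inr (Or.inl ⟨h, hi⟩)
      · exact Or.inr (Or.inr h)
    · rintro (h | h | h)
      · exact Or.inl (hF.sub h)
      · exact Or.inl h.1
      · exact Or.inr h
  have hdisj : Disjoint F ((P \ F) ∪ ex) := by
    rw [Finset.disjoint_left]
    intro i hi hi2
    rcases Finset.mem_union.mp hi2 with h | h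
    · exact (Finset.mem_sdiff.mp h).2 hi
    · exact hexF i h (hF.sub hi)
  have hsum : ∑ i ∈ ((P \ F) ∪ ex).filter (fun i => p i ∉ F), L.Pr (fun φ => φ i + φ (p i) = s) +
        ∑ v ∈ F, E4 v + (if e = 1 then ∑ v ∈ F, E5 v else 0) = ∑ i ∈ P ∪ ex, f i := by
    have e1 : ∑ i ∈ ((P \ F) ∪ ex).filter (fun i => p i ∉ F), L.Pr (fun φ => φ i + φ (p i) = s) =
        ∑ i ∈ ((P \ F) ∪ ex).filter (fun i => ¬ (p i ∈ F)), f i := by
      refine Finset.sum_congr rfl fun i hi => ?_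
      obtain ⟨h7, h8⟩ := Finset.mem_filter.mp hi
      rw [hf, if_neg, if_neg h8]
      intro h9
      exact Finset.disjoint_left.mp hdisj h9 h7
    have e2 : ∑ v ∈ F, E4 v = ∑ i ∈ F, f i := by
      refine Finset.sum_congr rfl fun i hi => ?_
      rw [hf, if_pos hi]
    have e3 : (if e = 1 then ∑ v ∈ F, E5 v else 0) =
        ∑ i ∈ ((P \ F) ∪ ex).filter (fun i => p i ∈ F), f i := by
      by_cases he : e = 1
      · rw [if_pos he]
        refine Finset.sum_nbij' (i := u) (j := p) ?_ ?_ ?_ ?_ ?_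
        · intro v hv
          obtain ⟨a1, a2, a3⟩ := hF.ch1 he v hv
          refine Finset.mem_filter.mpr ⟨Finset.mem_union_left _ (Finset.mem_sdiff.mpr ⟨a1, a2⟩), ?_⟩
          rw [a3]
          exact hv
        · intro i hi
          exact (Finset.mem_filter.mp hi).2
        · intro v hv
          exact (hF.ch1 he v hv).2.2
        · intro i hi
          obtain ⟨h7, h8⟩ := Finset.mem_filter.mp hi
          rcases Finset.mem_union.mp h7 with h9 | h9
          · exact (hF.chu i (Finset.mem_sdiff.mp h9).1 h8).symm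
          · exact absurd h8 (hF.exF i h9)
        · intro v hv
          obtain ⟨a1, a2, a3⟩ := hF.ch1 he v hv
          rw [hf, if_neg a2, a3, if_pos hv]
      · rw [if_neg he]
        symm
        refine Finset.sum_eq_zero fun i hi => ?_
        obtain ⟨h7, h8⟩ := Finset.mem_filter.mp hi
        exfalso
        rcases Finset.mem_union.mp h7 with h9 | h9
        · have he0 : e = 0 := by
            have := hF.e1
            omega
          exact hF.ch0 he0 i (Finset.mem_sdiff.mp h9).1 h8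
        · exact hF.exF i h9 h8
    rw [e1, e2, e3, hunion, Finset.sum_union hdisj,
      ← Finset.sum_filter_add_sum_filter_not ((P \ F) ∪ ex) (fun i => p i ∈ F)]
    ring
  rw [hsum]
  have hB : ((insert τ ex).card : ℝ) ≤ 1 + ex.card := by
    have h7 : (insert τ ex).card ≤ 1 + ex.card := by
      refine (Finset.card_insert_le _ _).trans ?_
      omega
    exact_mod_cast h7
  refine (sum_near_h29 (P ∪ ex) (insert τ ex) f (sg Y k π s) (η / n) (8 / n) (by positivity)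
    ?_ ?_).trans ?_
  · intro i hi hiB
    rw [hf]
    by_cases hiF : i ∈ F
    · rw [if_pos hiF]
      exact h4 i hiF
    · rw [if_neg hiF]
      have hiP : i ∈ P := by
        rcases Finset.mem_union.mp hi with h | h
        · exact h
        · exact absurd (Finset.mem_insert_of_mem h) hiB
      by_cases hpF : p i ∈ F
      · rw [if_pos hpF]
        have he : e = 1 := by
          by_contra hne
          have he0 : e = 0 := by
            have := hF.e1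
            omega
          exact hF.ch0 he0 i hiP hpF
        exact h5 he (p i) hpF
      · rw [if_neg hpF]
        exact h2 i (Finset.mem_sdiff.mpr ⟨hiP, hiF⟩)
          (fun h => hiB (h ▸ Finset.mem_insert_self _ _)) hpF
  · intro i hi hiB
    have h28 : (2 : ℝ) / n ≤ 8 / n := div_le_div_of_nonneg_right (by norm_num) hn0.le
    have hPr : L.Pr (fun φ => φ i + φ (p i) = s) ≤ 8 / n := by
      rcases Finset.mem_insert.mp hiB with h | h
      · -- i = τ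
        have hτ : i ∈ P \ F := by
          rw [h]
          exact Finset.mem_sdiff.mpr ⟨hG.tP, hF.top⟩
        have hpτ : p i ∉ P \ F := by
          intro h7
          rw [h] at h7
          exact Finset.disjoint_left.mp hG.PR (Finset.mem_sdiff.mp h7).1 hG.tR
        refine (Pr_mono_h29 hnn (F := fun φ => φ i = s - lab (p i)) ?_).trans (h6 i hτ _)
        intro ω h7
        have h8 := hoff ω (p i) hpτ
        show L.Φ ω i = s - lab (p i)
        have h9 : L.Φ ω i + L.Φ ω (p i) = s := h7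
        rw [h8] at h9
        omega
      · -- i ∈ ex
        have h10 : p i ∈ P \ F := Finset.mem_sdiff.mpr ⟨(hG.exP i h).1, hF.exF i h⟩
        have h11 : i ∉ P \ F := fun h12 => hexF i h (Finset.mem_sdiff.mp h12).1
        refine (Pr_mono_h29 hnn (F := fun φ => φ (p i) = s - lab i) ?_).trans (h6 (p i) h10 _)
        intro ω h7
        have h8 := hoff ω i h11
        show L.Φ ω (p i) = s - lab i
        have h9 : L.Φ ω i + L.Φ ω (p i) = s := h7
        rw [h8] at h9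
        omega
    have hval : f i = L.Pr (fun φ => φ i + φ (p i) = s) := by
      rcases Finset.mem_insert.mp hiB with h | h
      · rw [hf, if_neg, if_neg]
        · intro h7
          rw [h] at h7
          exact Finset.disjoint_left.mp hG.PR (hF.sub h7) hG.tR
        · rw [h]
          exact hF.top
      · rw [hf, if_neg, if_neg (hF.exF i h)]
        intro h7
        exact hexF i h (hF.sub h7)
    rw [hval]
    have a1 := Pr_nonneg_h29 hnn (fun φ => φ i + φ (p i) = s)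
    rw [abs_le]
    constructor <;> linarith
  · have : ((insert τ ex).card : ℝ) * (8 / n) ≤ (1 + ex.card) * (8 / n) :=
      mul_le_mul_of_nonneg_right hB (by positivity)
    linarith

end H29

theorem load_est {n : ℕ} {U Y : Finset ℕ} {B t : ℝ} {k : ℕ → ℕ → ℝ} {π : ℕ → ℝ}
    (hk : KS n U Y B t k π) (hn : 1 ≤ n) (ht : 0 ≤ t) (ht1 : t ≤ 1) (p lab u : ℕ → ℕ) (e : ℕ)
    (R T : Finset ℕ) (P ex F : ℕ → Finset ℕ) (L : ℕ → FL) (η a : ℝ) (hη : 0 ≤ η) (ha : 0 ≤ a)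
    (hG : ∀ τ ∈ T, Geo p R (P τ) (ex τ) τ) (hF : ∀ τ ∈ T, FlP p u e (P τ) (ex τ) (F τ) τ)
    (hnn : ∀ τ ∈ T, ∀ ω, 0 ≤ (L τ).wt ω) (hone : ∀ τ ∈ T, (L τ).Ex (fun _ => 1) = 1)
    (hoff : ∀ τ ∈ T, ∀ ω, ∀ v, v ∉ P τ \ F τ → (L τ).Φ ω v = lab v)
    (hlbl : ∀ τ ∈ T, ∀ ω, (L τ).wt ω ≠ 0 → ∀ v ∈ P τ \ F τ, (L τ).Φ ω v ∈ Y)
    (h1 : ∀ τ ∈ T, ∀ v ∈ P τ \ F τ, v ≠ τ → (∀ r ∈ ex τ, v ≠ p r) → ∀ s,
        |(L τ).Pr (fun φ => φ v = s) - π s| ≤ η / n)
    (h2 : ∀ τ ∈ T, ∀ i ∈ P τ \ F τ, i ≠ τ → p i ∉ F τ → ∀ s,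
        |(L τ).Pr (fun φ => φ i + φ (p i) = s) - sg Y k π s| ≤ η / n)
    (h3 : ∀ τ ∈ T, ∀ v ∈ F τ, ∀ s,
        |(L τ).Ex (fun φ => hh e Y k (φ (p v)) (cw e u φ v) s) - π s| ≤ η / n)
    (h4 : ∀ τ ∈ T, ∀ v ∈ F τ, ∀ s, |(L τ).Ex (fun φ => if φ (p v) ≤ s then
        hh e Y k (φ (p v)) (cw e u φ v) (s - φ (p v)) else 0) - sg Y k π s| ≤ η / n)
    (h5 : e = 1 → ∀ τ ∈ T, ∀ v ∈ F τ, ∀ s, |(L τ).Ex (fun φ => if φ (u v) ≤ s then
        hh e Y k (φ (p v)) (φ (u v)) (s - φ (u v)) else 0) - sg Y k π s| ≤ η / n)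
    (h6 : ∀ τ ∈ T, ∀ v ∈ P τ \ F τ, ∀ s, (L τ).Pr (fun φ => φ v = s) ≤ 8 / n)
    (hV : (n : ℝ) - a ≤ ∑ τ ∈ T, ((P τ).card : ℝ)) (hV' : ∑ τ ∈ T, ((P τ).card : ℝ) ≤ n)
    (hE : (n : ℝ) - a ≤ ∑ τ ∈ T, ((P τ ∪ ex τ).card : ℝ))
    (hE' : ∑ τ ∈ T, ((P τ ∪ ex τ).card : ℝ) ≤ n)
    (hT : (T.card : ℝ) ≤ a) (hX : ∑ τ ∈ T, ((ex τ).card : ℝ) ≤ a) :
    ∀ s ∈ U, |bS p T P ex F L s + ∑ x ∈ Y, ∑ w ∈ insert 0 Y,
      mF p u e T F L x w * ∑ y ∈ Y, hh e Y k x w y * AA e x w y s - 1| ≤ t + 3 * η + 50 * a / n := by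
  intro s hs
  have hn0 : (0 : ℝ) < n := by exact_mod_cast hn
  -- step A
  obtain ⟨E3, hE3⟩ : ∃ f : ℕ → ℕ → ℝ, ∀ τ v, f τ v =
      (L τ).Ex (fun φ => hh e Y k (φ (p v)) (cw e u φ v) s) := ⟨_, fun _ _ => rfl⟩
  obtain ⟨E4, hE4⟩ : ∃ f : ℕ → ℕ → ℝ, ∀ τ v, f τ v = (L τ).Ex (fun φ => if φ (p v) ≤ s then
          hh e Y k (φ (p v)) (cw e u φ v) (s - φ (p v)) else 0) := ⟨_, fun _ _ => rfl⟩
  obtain ⟨E5, hE5⟩ : ∃ f : ℕ → ℕ → ℝ, ∀ τ v, f τ v = (L τ).Ex (fun φ => if φ (u v) ≤ s then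
          hh e Y k (φ (p v)) (φ (u v)) (s - φ (u v)) else 0) := ⟨_, fun _ _ => rfl⟩
  have hA : ∑ x ∈ Y, ∑ w ∈ insert 0 Y,
      mF p u e T F L x w * ∑ y ∈ Y, hh e Y k x w y * AA e x w y s =
      ∑ τ ∈ T, ∑ v ∈ F τ, (E3 τ v + E4 τ v + if e = 1 then E5 τ v else 0) := by
    have e1 : ∀ x w, mF p u e T F L x w * ∑ y ∈ Y, hh e Y k x w y * AA e x w y s =
        ∑ τ ∈ T, ∑ v ∈ F τ, (L τ).Pr (fun φ => φ (p v) = x ∧ cw e u φ v = w) *
          ∑ y ∈ Y, hh e Y k x w y * AA e x w y s := by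
      intro x w
      unfold mF
      rw [Finset.sum_mul]
      exact Finset.sum_congr rfl fun τ _ => Finset.sum_mul _ _ _
    have e2 : ∑ x ∈ Y, ∑ w ∈ insert 0 Y,
        mF p u e T F L x w * ∑ y ∈ Y, hh e Y k x w y * AA e x w y s =
        ∑ τ ∈ T, ∑ v ∈ F τ, ∑ x ∈ Y, ∑ w ∈ insert 0 Y,
          (L τ).Pr (fun φ => φ (p v) = x ∧ cw e u φ v = w) *
          ∑ y ∈ Y, hh e Y k x w y * AA e x w y s := by
      simp only [e1]
      calc ∑ x ∈ Y, ∑ w ∈ insert 0 Y, ∑ τ ∈ T, ∑ v ∈ F τ,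
            (L τ).Pr (fun φ => φ (p v) = x ∧ cw e u φ v = w) *
            ∑ y ∈ Y, hh e Y k x w y * AA e x w y s
          = ∑ x ∈ Y, ∑ τ ∈ T, ∑ w ∈ insert 0 Y, ∑ v ∈ F τ,
            (L τ).Pr (fun φ => φ (p v) = x ∧ cw e u φ v = w) *
            ∑ y ∈ Y, hh e Y k x w y * AA e x w y s :=
            Finset.sum_congr rfl fun x _ => Finset.sum_comm
        _ = ∑ τ ∈ T, ∑ x ∈ Y, ∑ w ∈ insert 0 Y, ∑ v ∈ F τ,
            (L τ).Pr (fun φ => φ (p v) = x ∧ cw e u φ v = w) *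
            ∑ y ∈ Y, hh e Y k x w y * AA e x w y s := Finset.sum_comm
        _ = ∑ τ ∈ T, ∑ x ∈ Y, ∑ v ∈ F τ, ∑ w ∈ insert 0 Y,
            (L τ).Pr (fun φ => φ (p v) = x ∧ cw e u φ v = w) *
            ∑ y ∈ Y, hh e Y k x w y * AA e x w y s :=
            Finset.sum_congr rfl fun τ _ => Finset.sum_congr rfl fun x _ => Finset.sum_comm
        _ = _ := Finset.sum_congr rfl fun τ _ => Finset.sum_comm
    rw [e2]
    refine Finset.sum_congr rfl fun τ hτ => Finset.sum_congr rfl fun v hv => ?_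
    have hpv : p v ∈ P τ \ F τ := by
      refine Finset.mem_sdiff.mpr ⟨(hG τ hτ).st v ((hF τ hτ).sub hv) ?_, (hF τ hτ).par v hv⟩
      intro h
      exact (hF τ hτ).top (h ▸ hv)
    have hfY : ∀ ω, (L τ).wt ω ≠ 0 → (L τ).Φ ω (p v) ∈ Y := fun ω hω =>
      hlbl τ hτ ω hω _ hpv
    have hgY : ∀ ω, (L τ).wt ω ≠ 0 → cw e u ((L τ).Φ ω) v ∈ insert 0 Y := by
      intro ω hω
      unfold cw
      by_cases he : e = 0
      · rw [if_pos he]
        exact Finset.mem_insert_self _ _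
      · rw [if_neg he]
        have he1 : e = 1 := by
          have := (hF τ hτ).e1
          omega
        obtain ⟨a1, a2, _⟩ := (hF τ hτ).ch1 he1 v hv
        exact Finset.mem_insert_of_mem (hlbl τ hτ ω hω _ (Finset.mem_sdiff.mpr ⟨a1, a2⟩))
    rw [pick_h29 (L τ) Y (insert 0 Y) (fun φ => φ (p v)) (fun φ => cw e u φ v)
      (fun x w => ∑ y ∈ Y, hh e Y k x w y * AA e x w y s) hfY hgY]
    simp only [sum_y_h29 hk]
    rw [Ex_add_h29, Ex_add_h29, hE3, hE4, hE5]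
    congr 1
    by_cases he : e = 1
    · simp only [if_pos he]
      refine Ex_congr_h29 fun ω _ => ?_
      have hcw : cw e u ((L τ).Φ ω) v = (L τ).Φ ω (u v) := by
        unfold cw
        rw [if_neg (by omega)]
      simp only [hcw]
    · simp only [if_neg he]
      unfold FL.Ex
      simp
  -- one piece
  obtain ⟨ρv, hρv⟩ : ∃ f : ℕ → ℝ, ∀ τ, f τ = ∑ v ∈ P τ \ F τ, (L τ).Pr (fun φ => φ v = s) +
      ∑ v ∈ F τ, E3 τ v := ⟨_, fun _ => rfl⟩
  obtain ⟨ρe, hρe⟩ : ∃ f : ℕ → ℝ, ∀ τ, f τ = ∑ i ∈ ((P τ \ F τ) ∪ ex τ).filter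
      (fun i => p i ∉ F τ), (L τ).Pr (fun φ => φ i + φ (p i) = s) + ∑ v ∈ F τ, E4 τ v +
      (if e = 1 then ∑ v ∈ F τ, E5 τ v else 0) := ⟨_, fun _ => rfl⟩
  have htot : bS p T P ex F L s + ∑ x ∈ Y, ∑ w ∈ insert 0 Y,
      mF p u e T F L x w * ∑ y ∈ Y, hh e Y k x w y * AA e x w y s = ∑ τ ∈ T, (ρv τ + ρe τ) := by
    rw [hA]
    unfold bS
    rw [← Finset.sum_add_distrib]
    refine Finset.sum_congr rfl fun τ _ => ?_
    rw [hρv, hρe, Finset.sum_add_distrib, Finset.sum_add_distrib]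
    have : (∑ v ∈ F τ, if e = 1 then E5 τ v else 0) = if e = 1 then ∑ v ∈ F τ, E5 τ v else 0 := by
      by_cases he : e = 1
      · simp only [if_pos he]
      · simp only [if_neg he, Finset.sum_const_zero]
    rw [this]
    ring
  have hv : ∀ τ ∈ T, |ρv τ - (P τ).card * π s| ≤
      (P τ).card * (η / n) + (1 + (ex τ).card) * (8 / n) := by
    intro τ hτ
    rw [hρv]
    simp only [hE3]
    exact vert_h29 hk hn p u e (P τ) (ex τ) (F τ) τ (L τ) η hη (hF τ hτ) (hnn τ hτ) s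
      (fun v hv hne hex => h1 τ hτ v hv hne hex s) (fun v hv => h3 τ hτ v hv s)
      (fun v hv => h6 τ hτ v hv s)
  have he : ∀ τ ∈ T, |ρe τ - (P τ ∪ ex τ).card * sg Y k π s| ≤
      (P τ ∪ ex τ).card * (η / n) + (1 + (ex τ).card) * (8 / n) := by
    intro τ hτ
    rw [hρe]
    simp only [hE4, hE5]
    exact edge_h29 hk hn ht1 p lab u e R (P τ) (ex τ) (F τ) τ (L τ) η hη (hG τ hτ) (hF τ hτ)
      (hnn τ hτ) (hoff τ hτ) s hs (fun i hi hne hpi => h2 τ hτ i hi hne hpi s)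
      (fun v hv => h4 τ hτ v hv s) (fun he1 v hv => h5 he1 τ hτ v hv s) (h6 τ hτ)
  rw [htot]
  -- summation
  have hs1 : |∑ τ ∈ T, (ρv τ + ρe τ) - ((∑ τ ∈ T, ((P τ).card : ℝ)) * π s +
      (∑ τ ∈ T, ((P τ ∪ ex τ).card : ℝ)) * sg Y k π s)| ≤
      (∑ τ ∈ T, ((P τ).card : ℝ)) * (η / n) + (∑ τ ∈ T, ((P τ ∪ ex τ).card : ℝ)) * (η / n) +
        2 * ((T.card + ∑ τ ∈ T, ((ex τ).card : ℝ)) * (8 / n)) := by
    have e1 : ∑ τ ∈ T, (ρv τ + ρe τ) - ((∑ τ ∈ T, ((P τ).card : ℝ)) * π s +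
      (∑ τ ∈ T, ((P τ ∪ ex τ).card : ℝ)) * sg Y k π s) =
      ∑ τ ∈ T, ((ρv τ - (P τ).card * π s) + (ρe τ - (P τ ∪ ex τ).card * sg Y k π s)) := by
      rw [Finset.sum_mul, Finset.sum_mul, ← Finset.sum_add_distrib, ← Finset.sum_sub_distrib]
      exact Finset.sum_congr rfl fun τ _ => by ring
    rw [e1]
    calc _ ≤ ∑ τ ∈ T, |(ρv τ - (P τ).card * π s) + (ρe τ - (P τ ∪ ex τ).card * sg Y k π s)| :=
          Finset.abs_sum_le_sum_abs _ _
      _ ≤ ∑ τ ∈ T, (((P τ).card * (η / n) + (1 + (ex τ).card) * (8 / n)) +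
          ((P τ ∪ ex τ).card * (η / n) + (1 + (ex τ).card) * (8 / n))) := by
          refine Finset.sum_le_sum fun τ hτ => (abs_add_le _ _).trans ?_
          exact add_le_add (hv τ hτ) (he τ hτ)
      _ = _ := by
          have e2 : (T.card : ℝ) = ∑ τ ∈ T, (1 : ℝ) := by simp
          rw [e2, ← Finset.sum_add_distrib, Finset.sum_mul, Finset.sum_mul, Finset.sum_mul,
            Finset.mul_sum, ← Finset.sum_add_distrib, ← Finset.sum_add_distrib]
          exact Finset.sum_congr rfl fun τ _ => by ring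
  obtain ⟨V, hVd⟩ : ∃ V : ℝ, V = ∑ τ ∈ T, ((P τ).card : ℝ) := ⟨_, rfl⟩
  obtain ⟨W, hWd⟩ : ∃ W : ℝ, W = ∑ τ ∈ T, ((P τ ∪ ex τ).card : ℝ) := ⟨_, rfl⟩
  obtain ⟨X, hXd⟩ : ∃ X : ℝ, X = ∑ τ ∈ T, ((ex τ).card : ℝ) := ⟨_, rfl⟩
  rw [← hVd, ← hWd, ← hXd] at hs1
  rw [← hVd] at hV hV'
  rw [← hWd] at hE hE'
  rw [← hXd] at hX
  have hbal := hk.bal s hs
  have hbal' : |(n : ℝ) * (π s + sg Y k π s) - 1| ≤ t := by
    unfold sg
    exact hbal
  have hπ0 := hk.πnn s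
  have hsg0 : 0 ≤ sg Y k π s := by
    unfold sg
    refine Finset.sum_nonneg fun x _ => ?_
    split_ifs
    · exact mul_nonneg (hk.πnn x) (hk.nn _ _)
    · exact le_rfl
  have hηn : 0 ≤ η / n := by positivity
  have hb1 : V * (η / n) ≤ η := by
    calc V * (η / n) ≤ n * (η / n) := mul_le_mul_of_nonneg_right hV' hηn
      _ = η := by field_simp
  have hb2 : W * (η / n) ≤ η := by
    calc W * (η / n) ≤ n * (η / n) := mul_le_mul_of_nonneg_right hE' hηn
      _ = η := by field_simp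
  have hb3 : 2 * ((T.card + X) * (8 / n)) ≤ 32 * a / n := by
    have h7 : (T.card + X) * (8 / n) ≤ (a + a) * (8 / (n : ℝ)) :=
      mul_le_mul_of_nonneg_right (by linarith) (by positivity)
    calc 2 * ((T.card + X) * (8 / n)) ≤ 2 * ((a + a) * (8 / (n : ℝ))) := by linarith
      _ = 32 * a / n := by ring
  have hb4 : a * (π s + sg Y k π s) ≤ 2 * a / n := by
    have h7 : (n : ℝ) * (π s + sg Y k π s) ≤ 2 := by linarith [(abs_le.mp hbal').2]
    rw [le_div_iff₀ hn0]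
    nlinarith
  have hc1 : |V * π s + W * sg Y k π s - n * (π s + sg Y k π s)| ≤ 2 * a / n := by
    rw [abs_le]
    constructor
    · have h8 : (n - V) * π s ≤ a * π s := mul_le_mul_of_nonneg_right (by linarith) hπ0
      have h9 : (n - W) * sg Y k π s ≤ a * sg Y k π s :=
        mul_le_mul_of_nonneg_right (by linarith) hsg0
      nlinarith
    · have h8 : 0 ≤ (n - V) * π s := mul_nonneg (by linarith) hπ0
      have h9 : 0 ≤ (n - W) * sg Y k π s := mul_nonneg (by linarith) hsg0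
      have h10 : 0 ≤ 2 * a / n := by positivity
      nlinarith
  have hfin : (50 : ℝ) * a / n = 32 * a / n + 2 * a / n + 16 * a / n := by ring
  have h16 : 0 ≤ 16 * a / n := by positivity
  rw [hfin]
  rw [abs_le] at hs1 hbal' hc1 ⊢
  constructor
  · linarith [hs1.1, hbal'.1, hc1.1]
  · linarith [hs1.2, hbal'.2, hc1.2]

end Pool.Agent.SQ
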