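import Pool.Agent.Helper73.SQ.Defs

/-!
# SQ-PQ: the Poincare inequality (helper61)

Statement corrected with respect to the first version of this file (which was false: for `e = 1` the value `b t` of a small `t ∈ U` with
`w + t ∉ U` occurs in no term of the right-hand side as `b y` is only taken for `y ∈ Y`, `w + y ∈ U`): every element `y ∈ U` with `4 y ≤ 7 n` belongs to
`Y`, and the left-hand side is the sum over `t, t' ∈ U` with (`e = 1 → w + t ∈ U ∨ n ≤ 2 t`).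

Proof in words.  Write `ψ(x, y) = b y + b (x+y) + e b (w+y) - g x` on the allowed pairs (`Al`), `ph = |ψ|` there, `SS` the right-hand sum.
Fractions of `n`: `GG` = elements of `U` in `[2/64, 87/64]` with `w + t ∈ U`, `MM` in `[3/64, 86/64]`, `LL` below `3/64` with `w + t ∈ U`, `HH` above
`86/64`.
`step1`: `(2+e)(b t - b s) = ψ(x,t) - ψ(x,s) - ψ(x+y,t-y) + (1+e) ψ(y,t-y) + ψ(x+y,s-y) - (1+e) ψ(y,s-y) - e (ψ(w+y,t-y) - ψ(w+y,s-y))` on `GG`;
`step15`: `b t - b s = ψ(t-x,x) - ψ(s-x,x) - ψ(t-x,y) + ψ(s-x,y) + (b(t-x+y) - b(s-x+y))` on `MM`;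
`step2`: `b t - b s = ψ(x,t) - ψ(x,y) - (b(x+t) - b(x+y)) - e (b(w+t) - b(w+y)) + (b y - b s)` on `LL × MM`;
`step3`: `b t - b s = ψ(t-x,x) - ψ(t-x,y) + (b y - b x) - e (b(w+x) - b(w+y)) + (b(t-x+y) - b s)` on `HH × MM`.
Each is averaged (`avg`) over the pairs `(x, y)` of two intervals of length `n/64` for which all pairs are allowed; each term is summed by injectivity
(`gen`).
-/

set_option autoImplicit false

namespace Pool.Agent.SQ

open Finset Pool.Agent.SEM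

namespace PQ61

open Classical

/-! ### Failing pairs -/

/-- `P` fails for at most `κ` elements of `Ω` -/
def Fail (Ω : Finset (ℕ × ℕ)) (P : ℕ × ℕ → Prop) (κ : ℝ) : Prop :=
  ((Ω.filter fun ω => ¬ P ω).card : ℝ) ≤ κ

theorem Fail.and {Ω : Finset (ℕ × ℕ)} {P Q : ℕ × ℕ → Prop} {κ κ' : ℝ} (hP : Fail Ω P κ)
    (hQ : Fail Ω Q κ') : Fail Ω (fun ω => P ω ∧ Q ω) (κ + κ') := by
  unfold Fail at *
  have h : (Ω.filter fun ω => ¬ (P ω ∧ Q ω)) ⊆
      (Ω.filter fun ω => ¬ P ω) ∪ (Ω.filter fun ω => ¬ Q ω) := by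
    intro ω hω
    simp only [mem_filter, mem_union] at hω ⊢
    tauto
  have h1 : (Ω.filter fun ω => ¬ (P ω ∧ Q ω)).card ≤
      (Ω.filter fun ω => ¬ P ω).card + (Ω.filter fun ω => ¬ Q ω).card :=
    (card_le_card h).trans (card_union_le _ _)
  have h2 : ((Ω.filter fun ω => ¬ (P ω ∧ Q ω)).card : ℝ) ≤
      ((Ω.filter fun ω => ¬ P ω).card : ℝ) + ((Ω.filter fun ω => ¬ Q ω).card : ℝ) := by
    exact_mod_cast h1
  have h3 : ((Ω.filter fun ω => ¬ (P ω ∧ Q ω)).card : ℝ) ≤ κ + κ' := by linarith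
  convert h3

theorem Fail.mono {Ω : Finset (ℕ × ℕ)} {P Q : ℕ × ℕ → Prop} {κ : ℝ} (hP : Fail Ω P κ)
    (h : ∀ ω ∈ Ω, P ω → Q ω) : Fail Ω Q κ := by
  unfold Fail at *
  have h' : (Ω.filter fun ω => ¬ Q ω) ⊆ (Ω.filter fun ω => ¬ P ω) := by
    intro ω hω
    simp only [mem_filter] at hω ⊢
    exact ⟨hω.1, fun hp => hω.2 (h ω hω.1 hp)⟩
  have h1 : ((Ω.filter fun ω => ¬ Q ω).card : ℝ) ≤ ((Ω.filter fun ω => ¬ P ω).card : ℝ) := by
    exact_mod_cast card_le_card h'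
  linarith

theorem Fail.of_true {Ω : Finset (ℕ × ℕ)} {P : ℕ × ℕ → Prop} {κ : ℝ} (hκ : 0 ≤ κ)
    (h : ∀ ω ∈ Ω, P ω) : Fail Ω P κ := by
  unfold Fail
  have h' : (Ω.filter fun ω => ¬ P ω) = ∅ := by
    rw [filter_eq_empty_iff]
    intro ω hω hn
    exact hn (h ω hω)
  rw [h']
  simpa using hκ

theorem Fail.imp {Ω : Finset (ℕ × ℕ)} {P : ℕ × ℕ → Prop} {κ : ℝ} (hκ : 0 ≤ κ) {c : Prop}
    (h : c → Fail Ω P κ) : Fail Ω (fun ω => c → P ω) κ := by
  by_cases hc : c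
  · exact (h hc).mono fun ω _ hp _ => hp
  · exact Fail.of_true hκ fun ω _ hc' => absurd hc' hc

theorem fail_left {C D S T : Finset ℕ} {a : ℕ → ℕ → ℕ} {κ K : ℝ}
    (hT : ((T \ S).card : ℝ) ≤ κ) (hD : (D.card : ℝ) ≤ K) (hκ : 0 ≤ κ)
    (ha : ∀ x ∈ C, ∀ y ∈ D, a x y ∈ T)
    (inj : ∀ x ∈ C, ∀ x' ∈ C, ∀ y ∈ D, a x y = a x' y → x = x') :
    Fail (C ×ˢ D) (fun ω => a ω.1 ω.2 ∈ S) (κ * K) := by
  unfold Fail
  have h : ((C ×ˢ D).filter fun ω => ¬ a ω.1 ω.2 ∈ S).card ≤ ((T \ S) ×ˢ D).card := by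
    refine card_le_card_of_injOn (fun ω => (a ω.1 ω.2, ω.2)) ?_ ?_
    · intro ω hω
      have hω' := mem_filter.1 (mem_coe.1 hω)
      have h1 := mem_product.1 hω'.1
      simp only [coe_product, coe_sdiff, Set.mem_prod, Set.mem_sdiff, mem_coe]
      exact ⟨⟨ha _ h1.1 _ h1.2, hω'.2⟩, h1.2⟩
    · intro ω hω ω' hω' heq
      have h1 := mem_product.1 (mem_filter.1 (mem_coe.1 hω)).1
      have h2 := mem_product.1 (mem_filter.1 (mem_coe.1 hω')).1
      simp only [Prod.mk.injEq] at heq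
      have h3 : a ω.1 ω.2 = a ω'.1 ω.2 := by rw [heq.1, heq.2]
      exact Prod.ext (inj _ h1.1 _ h2.1 _ h1.2 h3) heq.2
  rw [card_product] at h
  have h1 : (((C ×ˢ D).filter fun ω => ¬ a ω.1 ω.2 ∈ S).card : ℝ) ≤
      ((T \ S).card : ℝ) * (D.card : ℝ) := by exact_mod_cast h
  have h2 : ((T \ S).card : ℝ) * (D.card : ℝ) ≤ κ * K :=
    mul_le_mul hT hD (Nat.cast_nonneg _) hκ
  have h3 : (((C ×ˢ D).filter fun ω => ¬ a ω.1 ω.2 ∈ S).card : ℝ) ≤ κ * K := by linarith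
  convert h3

theorem fail_right {C D S T : Finset ℕ} {a : ℕ → ℕ → ℕ} {κ K : ℝ}
    (hT : ((T \ S).card : ℝ) ≤ κ) (hC : (C.card : ℝ) ≤ K) (hκ : 0 ≤ κ)
    (ha : ∀ x ∈ C, ∀ y ∈ D, a x y ∈ T)
    (inj : ∀ x ∈ C, ∀ y ∈ D, ∀ y' ∈ D, a x y = a x y' → y = y') :
    Fail (C ×ˢ D) (fun ω => a ω.1 ω.2 ∈ S) (κ * K) := by
  unfold Fail
  have h : ((C ×ˢ D).filter fun ω => ¬ a ω.1 ω.2 ∈ S).card ≤ ((T \ S) ×ˢ C).card := by
    refine card_le_card_of_injOn (fun ω => (a ω.1 ω.2, ω.1)) ?_ ?_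
    · intro ω hω
      have hω' := mem_filter.1 (mem_coe.1 hω)
      have h1 := mem_product.1 hω'.1
      simp only [coe_product, coe_sdiff, Set.mem_prod, Set.mem_sdiff, mem_coe]
      exact ⟨⟨ha _ h1.1 _ h1.2, hω'.2⟩, h1.1⟩
    · intro ω hω ω' hω' heq
      have h1 := mem_product.1 (mem_filter.1 (mem_coe.1 hω)).1
      have h2 := mem_product.1 (mem_filter.1 (mem_coe.1 hω')).1
      simp only [Prod.mk.injEq] at heq
      have h3 : a ω.1 ω.2 = a ω.1 ω'.2 := by rw [heq.1, heq.2]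
      exact Prod.ext heq.2 (inj _ h1.1 _ h1.2 _ h2.2 h3)
  rw [card_product] at h
  have h1 : (((C ×ˢ D).filter fun ω => ¬ a ω.1 ω.2 ∈ S).card : ℝ) ≤
      ((T \ S).card : ℝ) * (C.card : ℝ) := by exact_mod_cast h
  have h2 : ((T \ S).card : ℝ) * (C.card : ℝ) ≤ κ * K :=
    mul_le_mul hT hC (Nat.cast_nonneg _) hκ
  have h3 : (((C ×ˢ D).filter fun ω => ¬ a ω.1 ω.2 ∈ S).card : ℝ) ≤ κ * K := by linarith
  convert h3

/-! ### Averaging -/

theorem avg {T1 T2 C D : Finset ℕ} {d : ℕ → ℕ → ℝ} {R : ℕ → ℕ → ℕ → ℕ → ℝ}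
    {P : ℕ → ℕ → ℕ × ℕ → Prop} {κ m : ℝ} (hd : ∀ t s, 0 ≤ d t s)
    (hR : ∀ t s x y, 0 ≤ R t s x y)
    (h : ∀ t ∈ T1, ∀ s ∈ T2, ∀ x ∈ C, ∀ y ∈ D, P t s (x, y) → d t s ≤ R t s x y)
    (hF : ∀ t ∈ T1, ∀ s ∈ T2, Fail (C ×ˢ D) (P t s) κ)
    (hκ : m + κ ≤ (C.card : ℝ) * D.card) :
    m * ∑ t ∈ T1, ∑ s ∈ T2, d t s ≤ ∑ t ∈ T1, ∑ s ∈ T2, ∑ x ∈ C, ∑ y ∈ D, R t s x y := by
  rw [mul_sum]
  refine sum_le_sum fun t ht => ?_
  rw [mul_sum]
  refine sum_le_sum fun s hs => ?_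
  have h1 : ∑ x ∈ C, ∑ y ∈ D, d t s * (1 - if P t s (x, y) then 0 else 1) ≤
      ∑ x ∈ C, ∑ y ∈ D, R t s x y := by
    refine sum_le_sum fun x hx => sum_le_sum fun y hy => ?_
    split_ifs with hP
    · simpa using h t ht s hs x hx y hy hP
    · simpa using hR t s x y
  have h2 : ∑ x ∈ C, ∑ y ∈ D, d t s * (1 - if P t s (x, y) then 0 else 1) =
      d t s * ((C.card : ℝ) * D.card - ((C ×ˢ D).filter fun ω => ¬ P t s ω).card) := by
    rw [← sum_product' (f := fun x y => d t s * (1 - if P t s (x, y) then 0 else 1)), ← mul_sum,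
      sum_sub_distrib]
    congr 2
    · simp
    · rw [card_filter]
      push_cast
      refine sum_congr rfl fun ω _ => ?_
      by_cases hP : P t s ω <;> simp [hP]
  have h3 := hF t ht s hs
  unfold Fail at h3
  have h4 : m ≤ (C.card : ℝ) * D.card - ((C ×ˢ D).filter fun ω => ¬ P t s ω).card := by linarith
  calc m * d t s ≤ d t s * ((C.card : ℝ) * D.card -
        ((C ×ˢ D).filter fun ω => ¬ P t s ω).card) := by
        rw [mul_comm]; exact mul_le_mul_of_nonneg_left h4 (hd t s)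
    _ = _ := h2.symm
    _ ≤ _ := h1

theorem gen {T1 T2 C D : Finset ℕ} {N : ℕ} {F : ℕ → ℕ → ℝ} {Q : Finset (ℕ × ℕ)}
    (hF : ∀ a b, 0 ≤ F a b) (hQ : ∀ a b, F a b ≠ 0 → (a, b) ∈ Q)
    (f1 f2 f3 f4 : ℕ → ℕ → ℕ → ℕ → ℕ)
    (h3 : ∀ t ∈ T1, ∀ s ∈ T2, ∀ x ∈ C, ∀ y ∈ D, f3 t s x y < N ∧ f4 t s x y < N)
    (inj : ∀ t ∈ T1, ∀ s ∈ T2, ∀ x ∈ C, ∀ y ∈ D, ∀ t' ∈ T1, ∀ s' ∈ T2, ∀ x' ∈ C, ∀ y' ∈ D,
      f1 t s x y = f1 t' s' x' y' → f2 t s x y = f2 t' s' x' y' →
      f3 t s x y = f3 t' s' x' y' → f4 t s x y = f4 t' s' x' y' →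
      t = t' ∧ s = s' ∧ x = x' ∧ y = y') :
    ∑ t ∈ T1, ∑ s ∈ T2, ∑ x ∈ C, ∑ y ∈ D, F (f1 t s x y) (f2 t s x y) ≤
      (N : ℝ) ^ 2 * ∑ q ∈ Q, F q.1 q.2 := by
  have e1 : ∑ t ∈ T1, ∑ s ∈ T2, ∑ x ∈ C, ∑ y ∈ D, F (f1 t s x y) (f2 t s x y) =
      ∑ p ∈ T1 ×ˢ (T2 ×ˢ (C ×ˢ D)), F (f1 p.1 p.2.1 p.2.2.1 p.2.2.2)
        (f2 p.1 p.2.1 p.2.2.1 p.2.2.2) := by
    rw [sum_product]
    refine sum_congr rfl fun t _ => ?_
    rw [sum_product]
    refine sum_congr rfl fun s _ => ?_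
    rw [sum_product]
  set P := T1 ×ˢ (T2 ×ˢ (C ×ˢ D)) with hP
  set Φ : ℕ × ℕ × ℕ × ℕ → (ℕ × ℕ) × (ℕ × ℕ) := fun p =>
    ((f1 p.1 p.2.1 p.2.2.1 p.2.2.2, f2 p.1 p.2.1 p.2.2.1 p.2.2.2),
      (f3 p.1 p.2.1 p.2.2.1 p.2.2.2, f4 p.1 p.2.1 p.2.2.1 p.2.2.2)) with hΦ
  have hinj : Set.InjOn Φ (P : Set (ℕ × ℕ × ℕ × ℕ)) := by
    rintro ⟨t, s, x, y⟩ hp ⟨t', s', x', y'⟩ hp' heq
    simp only [hP, coe_product, Set.mem_prod, mem_coe] at hp hp'
    simp only [hΦ, Prod.mk.injEq] at heq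
    obtain ⟨⟨q1, q2⟩, q3, q4⟩ := heq
    obtain ⟨r1, r2, r3, r4⟩ := inj t hp.1 s hp.2.1 x hp.2.2.1 y hp.2.2.2 t' hp'.1 s' hp'.2.1 x'
      hp'.2.2.1 y' hp'.2.2.2 q1 q2 q3 q4
    subst r1 r2 r3 r4
    rfl
  have e2 : ∑ p ∈ P, F (f1 p.1 p.2.1 p.2.2.1 p.2.2.2) (f2 p.1 p.2.1 p.2.2.1 p.2.2.2) =
      ∑ r ∈ P.image Φ, F r.1.1 r.1.2 := by
    rw [sum_image hinj]
  have e3 : ∑ r ∈ P.image Φ, F r.1.1 r.1.2 ≤
      ∑ r ∈ Q ×ˢ (range N ×ˢ range N), F r.1.1 r.1.2 := by
    have h1 : ∑ r ∈ P.image Φ, F r.1.1 r.1.2 =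
        ∑ r ∈ (P.image Φ).filter (fun r => F r.1.1 r.1.2 ≠ 0), F r.1.1 r.1.2 :=
      (sum_filter_ne_zero _).symm
    rw [h1]
    refine sum_le_sum_of_subset_of_nonneg ?_ fun r _ _ => hF _ _
    intro r hr
    obtain ⟨hr1, hr2⟩ := mem_filter.1 hr
    obtain ⟨⟨t, s, x, y⟩, hp, rfl⟩ := mem_image.1 hr1
    have hp1 := mem_product.1 hp
    have hp2 := mem_product.1 hp1.2
    have hp3 := mem_product.1 hp2.2
    have := h3 t hp1.1 s hp2.1 x hp3.1 y hp3.2
    exact mem_product.2 ⟨hQ _ _ hr2, mem_product.2 ⟨mem_range.2 this.1, mem_range.2 this.2⟩⟩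
  have e4 : ∑ r ∈ Q ×ˢ (range N ×ˢ range N), F r.1.1 r.1.2 =
      (N : ℝ) ^ 2 * ∑ q ∈ Q, F q.1 q.2 := by
    rw [sum_product, mul_sum]
    refine sum_congr rfl fun q _ => ?_
    simp only [sum_const, card_product, card_range, nsmul_eq_mul]
    push_cast; ring
  rw [e1, e2]
  exact e3.trans_eq e4

/-! ### The setting -/

structure Ctx (n : ℕ) (U X Y : Finset ℕ) (e w : ℕ) : Prop where
  hn : 1000 ≤ n
  cU : ((Icc 1 (2 * n - 1) \ U).card : ℝ) ≤ n / 1000000
  cX : ((((Icc 1 (2 * n)).filter fun x => 4 * x ≤ 7 * n) \ X).card : ℝ) ≤ n / 1000000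
  hU : U ⊆ Icc 1 (2 * n - 1)
  hY : ∀ y ∈ U, 4 * y ≤ 7 * n → y ∈ Y
  he : e = 0 ∨ (e = 1 ∧ n ≤ 2 * w ∧ 8 * w ≤ 5 * n)

/-- allowed pairs -/
def Al (U X Y : Finset ℕ) (e w x y : ℕ) : Prop :=
  x ∈ X ∧ y ∈ Y ∧ x + y ∈ U ∧ (e = 1 → w + y ∈ U)

/-- the function `|ψ|` on the allowed pairs -/
noncomputable def ph (U X Y : Finset ℕ) (e w : ℕ) (b g : ℕ → ℝ) (x y : ℕ) : ℝ :=
  if Al U X Y e w x y then |b y + b (x + y) + e * b (w + y) - g x| else 0

/-- differences on `A × B` -/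
noncomputable def df (A B : Finset ℕ) (b : ℕ → ℝ) (s t : ℕ) : ℝ :=
  if s ∈ A ∧ t ∈ B then |b s - b t| else 0

theorem ph_nn (U X Y : Finset ℕ) (e w : ℕ) (b g : ℕ → ℝ) (x y : ℕ) :
    0 ≤ ph U X Y e w b g x y := by
  unfold ph; split_ifs <;> positivity

theorem df_nn (A B : Finset ℕ) (b : ℕ → ℝ) (s t : ℕ) : 0 ≤ df A B b s t := by
  unfold df; split_ifs <;> positivity

theorem ph_eq {U X Y : Finset ℕ} {e w : ℕ} {b g : ℕ → ℝ} {x y : ℕ} (h : Al U X Y e w x y) :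
    ph U X Y e w b g x y = |b y + b (x + y) + e * b (w + y) - g x| := if_pos h

theorem df_eq {A B : Finset ℕ} {b : ℕ → ℝ} {s t : ℕ} (hs : s ∈ A) (ht : t ∈ B) :
    df A B b s t = |b s - b t| := if_pos ⟨hs, ht⟩

theorem sum_df (A B : Finset ℕ) (b : ℕ → ℝ) :
    ∑ q ∈ A ×ˢ B, df A B b q.1 q.2 = ∑ s ∈ A, ∑ t ∈ B, |b s - b t| := by
  rw [sum_product]
  refine sum_congr rfl fun s hs => sum_congr rfl fun t ht => ?_
  exact df_eq hs ht

theorem df_supp (A B : Finset ℕ) (b : ℕ → ℝ) (s t : ℕ) (h : df A B b s t ≠ 0) :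
    (s, t) ∈ A ×ˢ B := by
  unfold df at h
  split_ifs at h with h1
  · exact mem_product.2 h1
  · exact absurd rfl h

theorem ph_supp (U X Y : Finset ℕ) (e w : ℕ) (b g : ℕ → ℝ) (x y : ℕ)
    (h : ph U X Y e w b g x y ≠ 0) : (x, y) ∈ X ×ˢ Y := by
  unfold ph at h
  split_ifs at h with h1
  · exact mem_product.2 ⟨h1.1, h1.2.1⟩
  · exact absurd rfl h

/-- the right-hand side -/
noncomputable def SS (U X Y : Finset ℕ) (e w : ℕ) (b g : ℕ → ℝ) : ℝ :=
  ∑ q ∈ X ×ˢ Y, ph U X Y e w b g q.1 q.2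

theorem SS_nn (U X Y : Finset ℕ) (e w : ℕ) (b g : ℕ → ℝ) : 0 ≤ SS U X Y e w b g :=
  sum_nonneg fun _ _ => ph_nn _ _ _ _ _ _ _ _ _

/-- the middle sets -/
def GG (n : ℕ) (U : Finset ℕ) (e w : ℕ) : Finset ℕ :=
  U.filter fun t => 2 * n ≤ 64 * t ∧ 64 * t ≤ 87 * n ∧ (e = 1 → w + t ∈ U)

def MM (n : ℕ) (U : Finset ℕ) : Finset ℕ := U.filter fun t => 3 * n ≤ 64 * t ∧ 64 * t ≤ 86 * n

def LL (n : ℕ) (U : Finset ℕ) (e w : ℕ) : Finset ℕ :=
  U.filter fun t => 64 * t < 3 * n ∧ (e = 1 → w + t ∈ U)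

def HH (n : ℕ) (U : Finset ℕ) : Finset ℕ := U.filter fun t => 86 * n < 64 * t

section
variable {n : ℕ} {U X Y : Finset ℕ} {e w : ℕ} {C D : Finset ℕ}

/-- the base cases: membership in `U` of an expression injective in the first or second variable -/
theorem Ctx.failU1 (h : Ctx n U X Y e w) (hD : (D.card : ℝ) ≤ n / 32) {a : ℕ → ℕ → ℕ}
    (ha : ∀ x ∈ C, ∀ y ∈ D, 1 ≤ a x y ∧ a x y ≤ 2 * n - 1)
    (inj : ∀ x ∈ C, ∀ x' ∈ C, ∀ y ∈ D, a x y = a x' y → x = x') :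
    Fail (C ×ˢ D) (fun ω => a ω.1 ω.2 ∈ U) ((n : ℝ) / 1000000 * (n / 32)) :=
  fail_left h.cU hD (by positivity) (fun x hx y hy => mem_Icc.2 (ha x hx y hy)) inj

theorem Ctx.failU2 (h : Ctx n U X Y e w) (hC : (C.card : ℝ) ≤ n / 32) {a : ℕ → ℕ → ℕ}
    (ha : ∀ x ∈ C, ∀ y ∈ D, 1 ≤ a x y ∧ a x y ≤ 2 * n - 1)
    (inj : ∀ x ∈ C, ∀ y ∈ D, ∀ y' ∈ D, a x y = a x y' → y = y') :
    Fail (C ×ˢ D) (fun ω => a ω.1 ω.2 ∈ U) ((n : ℝ) / 1000000 * (n / 32)) :=
  fail_right h.cU hC (by positivity) (fun x hx y hy => mem_Icc.2 (ha x hx y hy)) inj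

theorem Ctx.failX1 (h : Ctx n U X Y e w) (hD : (D.card : ℝ) ≤ n / 32) {a : ℕ → ℕ → ℕ}
    (ha : ∀ x ∈ C, ∀ y ∈ D, 1 ≤ a x y ∧ 4 * a x y ≤ 7 * n)
    (inj : ∀ x ∈ C, ∀ x' ∈ C, ∀ y ∈ D, a x y = a x' y → x = x') :
    Fail (C ×ˢ D) (fun ω => a ω.1 ω.2 ∈ X) ((n : ℝ) / 1000000 * (n / 32)) := by
  refine fail_left h.cX hD (by positivity) (fun x hx y hy => mem_filter.2 ⟨mem_Icc.2 ?_, ?_⟩) inj
  · have := ha x hx y hy; omega
  · exact (ha x hx y hy).2

theorem Ctx.failX2 (h : Ctx n U X Y e w) (hC : (C.card : ℝ) ≤ n / 32) {a : ℕ → ℕ → ℕ}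
    (ha : ∀ x ∈ C, ∀ y ∈ D, 1 ≤ a x y ∧ 4 * a x y ≤ 7 * n)
    (inj : ∀ x ∈ C, ∀ y ∈ D, ∀ y' ∈ D, a x y = a x y' → y = y') :
    Fail (C ×ˢ D) (fun ω => a ω.1 ω.2 ∈ X) ((n : ℝ) / 1000000 * (n / 32)) := by
  refine fail_right h.cX hC (by positivity) (fun x hx y hy => mem_filter.2 ⟨mem_Icc.2 ?_, ?_⟩) inj
  · have := ha x hx y hy; omega
  · exact (ha x hx y hy).2

theorem Ctx.failAl (h : Ctx n U X Y e w) {Ω : Finset (ℕ × ℕ)} {px py : ℕ → ℕ → ℕ} {κ : ℝ}
    (hκ : 0 ≤ κ) (h1 : Fail Ω (fun ω => px ω.1 ω.2 ∈ X) κ)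
    (h2 : Fail Ω (fun ω => py ω.1 ω.2 ∈ U) κ) (h2' : ∀ ω ∈ Ω, 4 * py ω.1 ω.2 ≤ 7 * n)
    (h3 : Fail Ω (fun ω => px ω.1 ω.2 + py ω.1 ω.2 ∈ U) κ)
    (h4 : e = 1 → Fail Ω (fun ω => w + py ω.1 ω.2 ∈ U) κ) :
    Fail Ω (fun ω => Al U X Y e w (px ω.1 ω.2) (py ω.1 ω.2)) (4 * κ) := by
  have h5 := ((h1.and h2).and h3).and (Fail.imp hκ h4)
  have h6 : κ + κ + κ + κ = 4 * κ := by ring
  rw [h6] at h5
  exact h5.mono fun ω hω hP => ⟨hP.1.1.1, h.hY _ hP.1.1.2 (h2' ω hω), hP.1.2, hP.2⟩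

/-- the parameter ranges -/
theorem card_small (hn : 1000 ≤ n) : (n : ℝ) / 128 ≤ ((Icc 1 (n / 64)).card : ℝ) ∧
    ((Icc 1 (n / 64)).card : ℝ) ≤ n / 32 := by
  have h1 : (Icc 1 (n / 64)).card = n / 64 := by simp
  rw [h1]
  have h2 : n ≤ 128 * (n / 64) := by omega
  have h3 : 32 * (n / 64) ≤ n := by omega
  have h2' : (n : ℝ) ≤ 128 * ((n / 64 : ℕ) : ℝ) := by exact_mod_cast h2
  have h3' : 32 * ((n / 64 : ℕ) : ℝ) ≤ (n : ℝ) := by exact_mod_cast h3
  constructor <;> linarith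

theorem card_int (hn : 1000 ≤ n) (k : ℕ) :
    (n : ℝ) / 128 ≤ ((Icc ((k * n + 63) / 64) (((k + 1) * n) / 64)).card : ℝ) ∧
      ((Icc ((k * n + 63) / 64) (((k + 1) * n) / 64)).card : ℝ) ≤ n / 32 := by
  rw [Nat.card_Icc]
  have e1 : (k + 1) * n = k * n + n := by ring
  rw [e1]
  generalize k * n = a
  have h2 : n ≤ 128 * ((a + n) / 64 + 1 - (a + 63) / 64) := by omega
  have h3 : 32 * ((a + n) / 64 + 1 - (a + 63) / 64) ≤ n := by omega
  have h2' : (n : ℝ) ≤ 128 * (((a + n) / 64 + 1 - (a + 63) / 64 : ℕ) : ℝ) := by exact_mod_cast h2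
  have h3' : 32 * (((a + n) / 64 + 1 - (a + 63) / 64 : ℕ) : ℝ) ≤ (n : ℝ) := by exact_mod_cast h3
  constructor <;> linarith

theorem prod_card {C D : Finset ℕ} {κ : ℝ} (hC : (n : ℝ) / 128 ≤ (C.card : ℝ))
    (hD : (n : ℝ) / 128 ≤ (D.card : ℝ)) (hκ : κ ≤ (n : ℝ) ^ 2 / 32768) :
    (n : ℝ) ^ 2 / 32768 + κ ≤ (C.card : ℝ) * D.card := by
  have h1 : (n : ℝ) / 128 * (n / 128) ≤ (C.card : ℝ) * D.card :=
    mul_le_mul hC hD (by positivity) (Nat.cast_nonneg _)
  nlinarith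

theorem genP {T1 T2 C D : Finset ℕ} {b g : ℕ → ℝ} (f1 f2 f3 f4 : ℕ → ℕ → ℕ → ℕ → ℕ)
    (h3 : ∀ t ∈ T1, ∀ s ∈ T2, ∀ x ∈ C, ∀ y ∈ D, f3 t s x y < 2 * n + 1 ∧ f4 t s x y < 2 * n + 1)
    (inj : ∀ t ∈ T1, ∀ s ∈ T2, ∀ x ∈ C, ∀ y ∈ D, ∀ t' ∈ T1, ∀ s' ∈ T2, ∀ x' ∈ C, ∀ y' ∈ D,
      f1 t s x y = f1 t' s' x' y' → f2 t s x y = f2 t' s' x' y' →
      f3 t s x y = f3 t' s' x' y' → f4 t s x y = f4 t' s' x' y' →
      t = t' ∧ s = s' ∧ x = x' ∧ y = y') :
    ∑ t ∈ T1, ∑ s ∈ T2, ∑ x ∈ C, ∑ y ∈ D, ph U X Y e w b g (f1 t s x y) (f2 t s x y) ≤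
      (2 * (n : ℝ) + 1) ^ 2 * SS U X Y e w b g := by
  have := gen (N := 2 * n + 1) (ph_nn U X Y e w b g) (ph_supp U X Y e w b g) f1 f2 f3 f4 h3 inj
  push_cast at this
  exact this

theorem genD {T1 T2 C D A B : Finset ℕ} {b : ℕ → ℝ} (f1 f2 f3 f4 : ℕ → ℕ → ℕ → ℕ → ℕ)
    (h3 : ∀ t ∈ T1, ∀ s ∈ T2, ∀ x ∈ C, ∀ y ∈ D, f3 t s x y < 2 * n + 1 ∧ f4 t s x y < 2 * n + 1)
    (inj : ∀ t ∈ T1, ∀ s ∈ T2, ∀ x ∈ C, ∀ y ∈ D, ∀ t' ∈ T1, ∀ s' ∈ T2, ∀ x' ∈ C, ∀ y' ∈ D,
      f1 t s x y = f1 t' s' x' y' → f2 t s x y = f2 t' s' x' y' →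
      f3 t s x y = f3 t' s' x' y' → f4 t s x y = f4 t' s' x' y' →
      t = t' ∧ s = s' ∧ x = x' ∧ y = y') :
    ∑ t ∈ T1, ∑ s ∈ T2, ∑ x ∈ C, ∑ y ∈ D, df A B b (f1 t s x y) (f2 t s x y) ≤
      (2 * (n : ℝ) + 1) ^ 2 * ∑ s ∈ A, ∑ t ∈ B, |b s - b t| := by
  have := gen (N := 2 * n + 1) (df_nn A B b) (df_supp A B b) f1 f2 f3 f4 h3 inj
  rw [sum_df] at this
  push_cast at this
  exact this

/-- bound of the failures used everywhere -/
theorem kk_le (n : ℕ) : 40 * ((n : ℝ) / 1000000 * (n / 32)) ≤ (n : ℝ) ^ 2 / 32768 := by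
  nlinarith [sq_nonneg (n : ℝ)]

theorem Ctx.step1 (h : Ctx n U X Y e w) (b g : ℕ → ℝ) :
    (n : ℝ) ^ 2 / 32768 * ∑ t ∈ GG n U e w, ∑ s ∈ GG n U e w, |b t - b s| ≤
      10 * ((2 * (n : ℝ) + 1) ^ 2 * SS U X Y e w b g) := by
  have hn := h.hn
  obtain ⟨hc1, hc2⟩ := card_small hn
  set C := Icc 1 (n / 64) with hC
  set κ := (n : ℝ) / 1000000 * (n / 32) with hκ
  have hκ0 : 0 ≤ κ := by positivity
  have hx : ∀ x ∈ C, 1 ≤ x ∧ 64 * x ≤ n := fun x hx => by
    have := mem_Icc.1 hx; omega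
  have hw : e = 1 → n ≤ 2 * w ∧ 8 * w ≤ 5 * n := fun he => by
    rcases h.he with h1 | h1
    · omega
    · exact h1.2
  have hG : ∀ t ∈ GG n U e w, t ∈ U ∧ 2 * n ≤ 64 * t ∧ 64 * t ≤ 87 * n ∧ (e = 1 → w + t ∈ U) ∧
      t < 2 * n + 1 := fun t ht => by
    have h1 := mem_filter.1 ht
    have h2 := mem_Icc.1 (h.hU h1.1)
    exact ⟨h1.1, h1.2.1, h1.2.2.1, h1.2.2.2, by omega⟩
  -- the pair (x, t)
  have F1 : ∀ t ∈ GG n U e w, Fail (C ×ˢ C) (fun ω => Al U X Y e w ω.1 t) (4 * κ) := by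
    intro t ht
    obtain ⟨t1, t2, t3, t4, t5⟩ := hG t ht
    refine h.failAl (px := fun x _ => x) (py := fun _ _ => t) hκ0 ?_ ?_ ?_ ?_ ?_
    · exact h.failX1 hc2 (a := fun x _ => x) (fun x hx' y _ => by have := hx x hx'; omega)
        (fun x _ x' _ y _ hxx => hxx)
    · exact Fail.of_true hκ0 fun _ _ => t1
    · intro _ _; omega
    · exact h.failU1 hc2 (a := fun x _ => x + t) (fun x hx' y _ => by have := hx x hx'; omega)
        (fun x _ x' _ y _ hxx => by omega)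
    · exact fun he => Fail.of_true hκ0 fun _ _ => t4 he
  -- the pair (x + y, t - y)
  have F2 : ∀ t ∈ GG n U e w,
      Fail (C ×ˢ C) (fun ω => Al U X Y e w (ω.1 + ω.2) (t - ω.2)) (4 * κ) := by
    intro t ht
    obtain ⟨t1, t2, t3, t4, t5⟩ := hG t ht
    refine h.failAl (px := fun x y => x + y) (py := fun _ y => t - y) hκ0 ?_ ?_ ?_ ?_ ?_
    · exact h.failX1 hc2 (a := fun x y => x + y)
        (fun x hx' y hy' => by have := hx x hx'; have := hx y hy'; omega)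
        (fun x _ x' _ y _ hxx => by omega)
    · exact h.failU2 hc2 (a := fun _ y => t - y)
        (fun x hx' y hy' => by have := hx y hy'; omega)
        (fun x _ y hy y' hy' hxx => by have := hx y hy; have := hx y' hy'; omega)
    · intro ω hω
      have := hx _ (mem_product.1 hω).2
      omega
    · exact h.failU1 hc2 (a := fun x y => x + y + (t - y))
        (fun x hx' y hy' => by have := hx x hx'; have := hx y hy'; omega)
        (fun x _ x' _ y _ hxx => by omega)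
    · intro he
      have := hw he
      exact h.failU2 hc2 (a := fun _ y => w + (t - y))
        (fun x hx' y hy' => by have := hx y hy'; omega)
        (fun x _ y hy y' hy' hxx => by have := hx y hy; have := hx y' hy'; omega)
  -- the pair (y, t - y)
  have F3 : ∀ t ∈ GG n U e w,
      Fail (C ×ˢ C) (fun ω => Al U X Y e w ω.2 (t - ω.2)) (4 * κ) := by
    intro t ht
    obtain ⟨t1, t2, t3, t4, t5⟩ := hG t ht
    refine h.failAl (px := fun _ y => y) (py := fun _ y => t - y) hκ0 ?_ ?_ ?_ ?_ ?_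
    · exact h.failX2 hc2 (a := fun _ y => y)
        (fun x hx' y hy' => by have := hx y hy'; omega)
        (fun x _ y _ y' _ hxx => hxx)
    · exact h.failU2 hc2 (a := fun _ y => t - y)
        (fun x hx' y hy' => by have := hx y hy'; omega)
        (fun x _ y hy y' hy' hxx => by have := hx y hy; have := hx y' hy'; omega)
    · intro ω hω
      have := hx _ (mem_product.1 hω).2
      omega
    · refine Fail.of_true hκ0 fun ω hω => ?_
      have := hx _ (mem_product.1 hω).2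
      have e1 : ω.2 + (t - ω.2) = t := by omega
      rw [e1]; exact t1
    · intro he
      have := hw he
      exact h.failU2 hc2 (a := fun _ y => w + (t - y))
        (fun x hx' y hy' => by have := hx y hy'; omega)
        (fun x _ y hy y' hy' hxx => by have := hx y hy; have := hx y' hy'; omega)
  -- the pair (w + y, t - y)
  have F4 : ∀ t ∈ GG n U e w, e = 1 →
      Fail (C ×ˢ C) (fun ω => Al U X Y e w (w + ω.2) (t - ω.2)) (4 * κ) := by
    intro t ht he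
    obtain ⟨t1, t2, t3, t4, t5⟩ := hG t ht
    have hw' := hw he
    refine h.failAl (px := fun _ y => w + y) (py := fun _ y => t - y) hκ0 ?_ ?_ ?_ ?_ ?_
    · exact h.failX2 hc2 (a := fun _ y => w + y)
        (fun x hx' y hy' => by have := hx y hy'; omega)
        (fun x _ y _ y' _ hxx => by omega)
    · exact h.failU2 hc2 (a := fun _ y => t - y)
        (fun x hx' y hy' => by have := hx y hy'; omega)
        (fun x _ y hy y' hy' hxx => by have := hx y hy; have := hx y' hy'; omega)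
    · intro ω hω
      have := hx _ (mem_product.1 hω).2
      omega
    · refine Fail.of_true hκ0 fun ω hω => ?_
      have := hx _ (mem_product.1 hω).2
      have e1 : w + ω.2 + (t - ω.2) = w + t := by omega
      rw [e1]; exact t4 he
    · intro _
      exact h.failU2 hc2 (a := fun _ y => w + (t - y))
        (fun x hx' y hy' => by have := hx y hy'; omega)
        (fun x _ y hy y' hy' hxx => by have := hx y hy; have := hx y' hy'; omega)
  have key := avg (T1 := GG n U e w) (T2 := GG n U e w) (C := C) (D := C)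
    (d := fun t s => |b t - b s|)
    (R := fun t s x y => ph U X Y e w b g x t + ph U X Y e w b g x s +
      ph U X Y e w b g (x + y) (t - y) + ph U X Y e w b g y (t - y) + ph U X Y e w b g y (t - y) +
      ph U X Y e w b g (x + y) (s - y) + ph U X Y e w b g y (s - y) + ph U X Y e w b g y (s - y) +
      ph U X Y e w b g (w + y) (t - y) + ph U X Y e w b g (w + y) (s - y))
    (P := fun t s ω => (((((Al U X Y e w ω.1 t ∧ Al U X Y e w ω.1 s) ∧
      Al U X Y e w (ω.1 + ω.2) (t - ω.2)) ∧ Al U X Y e w ω.2 (t - ω.2)) ∧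
      Al U X Y e w (ω.1 + ω.2) (s - ω.2)) ∧ Al U X Y e w ω.2 (s - ω.2)) ∧
      (e = 1 → Al U X Y e w (w + ω.2) (t - ω.2) ∧ Al U X Y e w (w + ω.2) (s - ω.2)))
    (κ := 4 * κ + 4 * κ + 4 * κ + 4 * κ + 4 * κ + 4 * κ + (4 * κ + 4 * κ))
    (m := (n : ℝ) ^ 2 / 32768) (fun _ _ => abs_nonneg _)
    (fun t s x y => by
      have := ph_nn U X Y e w b g
      exact add_nonneg (add_nonneg (add_nonneg (add_nonneg (add_nonneg (add_nonneg (add_nonneg
        (add_nonneg (add_nonneg (this _ _) (this _ _)) (this _ _)) (this _ _)) (this _ _))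
        (this _ _)) (this _ _)) (this _ _)) (this _ _)) (this _ _))
    (fun t ht s hs x hx' y hy' hP => ?_)
    (fun t ht s hs => (((((((F1 t ht).and (F1 s hs)).and (F2 t ht)).and (F3 t ht)).and
      (F2 s hs)).and (F3 s hs)).and
      (Fail.imp (by positivity) fun he => (F4 t ht he).and (F4 s hs he))))
    (prod_card hc1 hc1 (by have := kk_le n; rw [← hκ] at this; linarith))
  · refine key.trans ?_
    have hb : ∀ x ∈ C, x < 2 * n + 1 := fun x hx' => by have := hx x hx'; omega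
    simp only [sum_add_distrib]
    have G1 := genP (n := n) (U := U) (X := X) (Y := Y) (e := e) (w := w) (b := b) (g := g)
      (T1 := GG n U e w) (T2 := GG n U e w) (C := C) (D := C)
      (fun t s x y => x) (fun t s x y => t) (fun t s x y => s) (fun t s x y => y)
      (fun t ht s hs x hx' y hy' => ⟨(hG s hs).2.2.2.2, hb y hy'⟩)
      (fun t ht s hs x hx' y hy' t' ht' s' hs' x'' hx'' y'' hy'' q1 q2 q3 q4 =>
        ⟨q2, q3, q1, q4⟩)
    have G2 := genP (n := n) (U := U) (X := X) (Y := Y) (e := e) (w := w) (b := b) (g := g)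
      (T1 := GG n U e w) (T2 := GG n U e w) (C := C) (D := C)
      (fun t s x y => x) (fun t s x y => s) (fun t s x y => t) (fun t s x y => y)
      (fun t ht s hs x hx' y hy' => ⟨(hG t ht).2.2.2.2, hb y hy'⟩)
      (fun t ht s hs x hx' y hy' t' ht' s' hs' x'' hx'' y'' hy'' q1 q2 q3 q4 =>
        ⟨q3, q2, q1, q4⟩)
    have G3 := genP (n := n) (U := U) (X := X) (Y := Y) (e := e) (w := w) (b := b) (g := g)
      (T1 := GG n U e w) (T2 := GG n U e w) (C := C) (D := C)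
      (fun t s x y => x + y) (fun t s x y => t - y) (fun t s x y => s) (fun t s x y => y)
      (fun t ht s hs x hx' y hy' => ⟨(hG s hs).2.2.2.2, hb y hy'⟩)
      (fun t ht s hs x hx' y hy' t' ht' s' hs' x'' hx'' y'' hy'' q1 q2 q3 q4 => by
        have := hG t ht; have := hG t' ht'; have := hx y hy'; have := hx y'' hy''; omega)
    have G4 := genP (n := n) (U := U) (X := X) (Y := Y) (e := e) (w := w) (b := b) (g := g)
      (T1 := GG n U e w) (T2 := GG n U e w) (C := C) (D := C)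
      (fun t s x y => y) (fun t s x y => t - y) (fun t s x y => s) (fun t s x y => x)
      (fun t ht s hs x hx' y hy' => ⟨(hG s hs).2.2.2.2, hb x hx'⟩)
      (fun t ht s hs x hx' y hy' t' ht' s' hs' x'' hx'' y'' hy'' q1 q2 q3 q4 => by
        have := hG t ht; have := hG t' ht'; have := hx y hy'; have := hx y'' hy''; omega)
    have G5 := genP (n := n) (U := U) (X := X) (Y := Y) (e := e) (w := w) (b := b) (g := g)
      (T1 := GG n U e w) (T2 := GG n U e w) (C := C) (D := C)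
      (fun t s x y => x + y) (fun t s x y => s - y) (fun t s x y => t) (fun t s x y => y)
      (fun t ht s hs x hx' y hy' => ⟨(hG t ht).2.2.2.2, hb y hy'⟩)
      (fun t ht s hs x hx' y hy' t' ht' s' hs' x'' hx'' y'' hy'' q1 q2 q3 q4 => by
        have := hG s hs; have := hG s' hs'; have := hx y hy'; have := hx y'' hy''; omega)
    have G6 := genP (n := n) (U := U) (X := X) (Y := Y) (e := e) (w := w) (b := b) (g := g)
      (T1 := GG n U e w) (T2 := GG n U e w) (C := C) (D := C)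
      (fun t s x y => y) (fun t s x y => s - y) (fun t s x y => t) (fun t s x y => x)
      (fun t ht s hs x hx' y hy' => ⟨(hG t ht).2.2.2.2, hb x hx'⟩)
      (fun t ht s hs x hx' y hy' t' ht' s' hs' x'' hx'' y'' hy'' q1 q2 q3 q4 => by
        have := hG s hs; have := hG s' hs'; have := hx y hy'; have := hx y'' hy''; omega)
    have G7 := genP (n := n) (U := U) (X := X) (Y := Y) (e := e) (w := w) (b := b) (g := g)
      (T1 := GG n U e w) (T2 := GG n U e w) (C := C) (D := C)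
      (fun t s x y => w + y) (fun t s x y => t - y) (fun t s x y => s) (fun t s x y => x)
      (fun t ht s hs x hx' y hy' => ⟨(hG s hs).2.2.2.2, hb x hx'⟩)
      (fun t ht s hs x hx' y hy' t' ht' s' hs' x'' hx'' y'' hy'' q1 q2 q3 q4 => by
        have := hG t ht; have := hG t' ht'; have := hx y hy'; have := hx y'' hy''; omega)
    have G8 := genP (n := n) (U := U) (X := X) (Y := Y) (e := e) (w := w) (b := b) (g := g)
      (T1 := GG n U e w) (T2 := GG n U e w) (C := C) (D := C)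
      (fun t s x y => w + y) (fun t s x y => s - y) (fun t s x y => t) (fun t s x y => x)
      (fun t ht s hs x hx' y hy' => ⟨(hG t ht).2.2.2.2, hb x hx'⟩)
      (fun t ht s hs x hx' y hy' t' ht' s' hs' x'' hx'' y'' hy'' q1 q2 q3 q4 => by
        have := hG s hs; have := hG s' hs'; have := hx y hy'; have := hx y'' hy''; omega)
    linarith
  · dsimp only at hP ⊢
    obtain ⟨⟨⟨⟨⟨⟨p1, p2⟩, p3⟩, p4⟩, p5⟩, p6⟩, p7⟩ := hP
    have e1 := hx y hy'
    have e2 := hG t ht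
    have e3 := hG s hs
    have r1 : x + y + (t - y) = x + t := by omega
    have r2 : y + (t - y) = t := by omega
    have r3 : x + y + (s - y) = x + s := by omega
    have r4 : y + (s - y) = s := by omega
    have r5 : w + y + (t - y) = w + t := by omega
    have r6 : w + y + (s - y) = w + s := by omega
    rw [ph_eq p1, ph_eq p2, ph_eq p3, ph_eq p4, ph_eq p5, ph_eq p6, r1, r2, r3, r4]
    rcases h.he with he | ⟨he, -⟩
    · subst he
      have n1 := ph_nn U X Y 0 w b g (w + y) (t - y)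
      have n2 := ph_nn U X Y 0 w b g (w + y) (s - y)
      simp only [Nat.cast_zero, zero_mul, add_zero]
      set A1 := b t + b (x + t) - g x
      set A2 := b s + b (x + s) - g x
      set A3 := b (t - y) + b (x + t) - g (x + y)
      set A4 := b (t - y) + b t - g y
      set A5 := b (s - y) + b (x + s) - g (x + y)
      set A6 := b (s - y) + b s - g y
      have hid : 2 * (b t - b s) = A1 - A2 - A3 + A4 + A5 - A6 := by
        simp only [A1, A2, A3, A4, A5, A6]; ring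
      rw [abs_le]
      constructor <;> linarith [le_abs_self A1, neg_abs_le A1, le_abs_self A2, neg_abs_le A2,
        le_abs_self A3, neg_abs_le A3, le_abs_self A4, neg_abs_le A4, le_abs_self A5,
        neg_abs_le A5, le_abs_self A6, neg_abs_le A6, abs_nonneg A1, abs_nonneg A2,
        abs_nonneg A3, abs_nonneg A4, abs_nonneg A5, abs_nonneg A6]
    · obtain ⟨p8, p9⟩ := p7 he
      rw [ph_eq p8, ph_eq p9, r5, r6]
      subst he
      simp only [Nat.cast_one, one_mul]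
      set A1 := b t + b (x + t) + b (w + t) - g x
      set A2 := b s + b (x + s) + b (w + s) - g x
      set A3 := b (t - y) + b (x + t) + b (w + (t - y)) - g (x + y)
      set A4 := b (t - y) + b t + b (w + (t - y)) - g y
      set A5 := b (s - y) + b (x + s) + b (w + (s - y)) - g (x + y)
      set A6 := b (s - y) + b s + b (w + (s - y)) - g y
      set A7 := b (t - y) + b (w + t) + b (w + (t - y)) - g (w + y)
      set A8 := b (s - y) + b (w + s) + b (w + (s - y)) - g (w + y)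
      have hid : 3 * (b t - b s) = A1 - A2 - A3 + 2 * A4 + A5 - 2 * A6 - A7 + A8 := by
        simp only [A1, A2, A3, A4, A5, A6, A7, A8]; ring
      rw [abs_le]
      constructor <;> linarith [le_abs_self A1, neg_abs_le A1, le_abs_self A2, neg_abs_le A2,
        le_abs_self A3, neg_abs_le A3, le_abs_self A4, neg_abs_le A4, le_abs_self A5,
        neg_abs_le A5, le_abs_self A6, neg_abs_le A6, le_abs_self A7, neg_abs_le A7,
        le_abs_self A8, neg_abs_le A8, abs_nonneg A1, abs_nonneg A2,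
        abs_nonneg A3, abs_nonneg A4, abs_nonneg A5, abs_nonneg A6, abs_nonneg A7, abs_nonneg A8]


/-- common facts about the ranges -/
theorem Ctx.w_bd (h : Ctx n U X Y e w) : e = 1 → n ≤ 2 * w ∧ 8 * w ≤ 5 * n := fun he => by
  rcases h.he with h1 | h1
  · omega
  · exact h1.2

theorem Ctx.MM_facts (h : Ctx n U X Y e w) : ∀ t ∈ MM n U, t ∈ U ∧ 3 * n ≤ 64 * t ∧
    64 * t ≤ 86 * n ∧ t < 2 * n + 1 := fun t ht => by
  have h1 := mem_filter.1 ht
  have h2 := mem_Icc.1 (h.hU h1.1)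
  exact ⟨h1.1, h1.2.1, h1.2.2, by omega⟩

theorem Ctx.LL_facts (h : Ctx n U X Y e w) : ∀ t ∈ LL n U e w, t ∈ U ∧ 64 * t < 3 * n ∧
    (e = 1 → w + t ∈ U) ∧ t < 2 * n + 1 := fun t ht => by
  have h1 := mem_filter.1 ht
  have h2 := mem_Icc.1 (h.hU h1.1)
  exact ⟨h1.1, h1.2.1, h1.2.2, by omega⟩

theorem Ctx.HH_facts (h : Ctx n U X Y e w) : ∀ t ∈ HH n U, t ∈ U ∧ 86 * n < 64 * t ∧
    t ≤ 2 * n - 1 ∧ t < 2 * n + 1 := fun t ht => by
  have h1 := mem_filter.1 ht
  have h2 := mem_Icc.1 (h.hU h1.1)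
  exact ⟨h1.1, h1.2, h2.2, by omega⟩

theorem Ctx.step15 (h : Ctx n U X Y e w) (b g : ℕ → ℝ) :
    (n : ℝ) ^ 2 / 32768 * ∑ t ∈ MM n U, ∑ s ∈ MM n U, |b t - b s| ≤
      4 * ((2 * (n : ℝ) + 1) ^ 2 * SS U X Y e w b g) + (2 * (n : ℝ) + 1) ^ 2 *
        ∑ t ∈ GG n U e w, ∑ s ∈ GG n U e w, |b t - b s| := by
  have hn := h.hn
  obtain ⟨hc1, hc2⟩ := card_small hn
  set C := Icc 1 (n / 64) with hC
  set κ := (n : ℝ) / 1000000 * (n / 32) with hκ
  have hκ0 : 0 ≤ κ := by positivity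
  have hx : ∀ x ∈ C, 1 ≤ x ∧ 64 * x ≤ n := fun x hx => by
    have := mem_Icc.1 hx; omega
  have hw := h.w_bd
  have hM := h.MM_facts
  -- the pair (t - x, x)
  have F1 : ∀ t ∈ MM n U, Fail (C ×ˢ C) (fun ω => Al U X Y e w (t - ω.1) ω.1) (4 * κ) := by
    intro t ht
    obtain ⟨t1, t2, t3, t4⟩ := hM t ht
    refine h.failAl (px := fun x _ => t - x) (py := fun x _ => x) hκ0 ?_ ?_ ?_ ?_ ?_
    · exact h.failX1 hc2 (a := fun x _ => t - x) (fun x hx' y _ => by have := hx x hx'; omega)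
        (fun x hx' x' hx'' y _ hxx => by have := hx x hx'; have := hx x' hx''; omega)
    · exact h.failU1 hc2 (a := fun x _ => x) (fun x hx' y _ => by have := hx x hx'; omega)
        (fun x _ x' _ y _ hxx => hxx)
    · intro ω hω
      have := hx _ (mem_product.1 hω).1
      omega
    · refine Fail.of_true hκ0 fun ω hω => ?_
      have := hx _ (mem_product.1 hω).1
      have e1 : t - ω.1 + ω.1 = t := by omega
      rw [e1]; exact t1
    · intro he
      have := hw he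
      exact h.failU1 hc2 (a := fun x _ => w + x) (fun x hx' y _ => by have := hx x hx'; omega)
        (fun x _ x' _ y _ hxx => by omega)
  -- the pair (t - x, y)
  have F2 : ∀ t ∈ MM n U, Fail (C ×ˢ C) (fun ω => Al U X Y e w (t - ω.1) ω.2) (4 * κ) := by
    intro t ht
    obtain ⟨t1, t2, t3, t4⟩ := hM t ht
    refine h.failAl (px := fun x _ => t - x) (py := fun _ y => y) hκ0 ?_ ?_ ?_ ?_ ?_
    · exact h.failX1 hc2 (a := fun x _ => t - x) (fun x hx' y _ => by have := hx x hx'; omega)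
        (fun x hx' x' hx'' y _ hxx => by have := hx x hx'; have := hx x' hx''; omega)
    · exact h.failU2 hc2 (a := fun _ y => y) (fun x _ y hy' => by have := hx y hy'; omega)
        (fun x _ y _ y' _ hxx => hxx)
    · intro ω hω
      have := hx _ (mem_product.1 hω).2
      omega
    · exact h.failU2 hc2 (a := fun x y => t - x + y)
        (fun x hx' y hy' => by have := hx x hx'; have := hx y hy'; omega)
        (fun x _ y _ y' _ hxx => by omega)
    · intro he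
      have := hw he
      exact h.failU2 hc2 (a := fun _ y => w + y) (fun x _ y hy' => by have := hx y hy'; omega)
        (fun x _ y _ y' _ hxx => by omega)
  -- t - x + y is in GG
  have F3 : ∀ t ∈ MM n U, Fail (C ×ˢ C) (fun ω => t - ω.1 + ω.2 ∈ GG n U e w) (κ + κ) := by
    intro t ht
    obtain ⟨t1, t2, t3, t4⟩ := hM t ht
    have h1 : Fail (C ×ˢ C) (fun ω => t - ω.1 + ω.2 ∈ U) κ :=
      h.failU2 hc2 (a := fun x y => t - x + y)
        (fun x hx' y hy' => by have := hx x hx'; have := hx y hy'; omega)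
        (fun x _ y _ y' _ hxx => by omega)
    have h2 : Fail (C ×ˢ C) (fun ω => e = 1 → w + (t - ω.1 + ω.2) ∈ U) κ :=
      Fail.imp hκ0 fun he => h.failU2 hc2 (a := fun x y => w + (t - x + y))
        (fun x hx' y hy' => by have := hx x hx'; have := hx y hy'; have := hw he; omega)
        (fun x _ y _ y' _ hxx => by omega)
    refine (h1.and h2).mono fun ω hω hP => mem_filter.2 ⟨hP.1, ?_, ?_, hP.2⟩
    · have := hx _ (mem_product.1 hω).1
      have := hx _ (mem_product.1 hω).2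
      omega
    · have := hx _ (mem_product.1 hω).1
      have := hx _ (mem_product.1 hω).2
      omega
  have key := avg (T1 := MM n U) (T2 := MM n U) (C := C) (D := C)
    (d := fun t s => |b t - b s|)
    (R := fun t s x y => ph U X Y e w b g (t - x) x + ph U X Y e w b g (t - x) y +
      ph U X Y e w b g (s - x) x + ph U X Y e w b g (s - x) y +
      df (GG n U e w) (GG n U e w) b (t - x + y) (s - x + y))
    (P := fun t s ω => (((((Al U X Y e w (t - ω.1) ω.1 ∧ Al U X Y e w (s - ω.1) ω.1) ∧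
      Al U X Y e w (t - ω.1) ω.2) ∧ Al U X Y e w (s - ω.1) ω.2) ∧
      t - ω.1 + ω.2 ∈ GG n U e w) ∧ s - ω.1 + ω.2 ∈ GG n U e w))
    (κ := 4 * κ + 4 * κ + 4 * κ + 4 * κ + (κ + κ) + (κ + κ))
    (m := (n : ℝ) ^ 2 / 32768) (fun _ _ => abs_nonneg _)
    (fun t s x y => by
      have := ph_nn U X Y e w b g
      exact add_nonneg (add_nonneg (add_nonneg (add_nonneg (this _ _) (this _ _)) (this _ _))
        (this _ _)) (df_nn _ _ _ _ _))
    (fun t ht s hs x hx' y hy' hP => ?_)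
    (fun t ht s hs => ((((((F1 t ht).and (F1 s hs)).and (F2 t ht)).and (F2 s hs)).and
      (F3 t ht)).and (F3 s hs)))
    (prod_card hc1 hc1 (by have := kk_le n; rw [← hκ] at this; linarith))
  · refine key.trans ?_
    have hb : ∀ x ∈ C, x < 2 * n + 1 := fun x hx' => by have := hx x hx'; omega
    simp only [sum_add_distrib]
    have G1 := genP (n := n) (U := U) (X := X) (Y := Y) (e := e) (w := w) (b := b) (g := g)
      (T1 := MM n U) (T2 := MM n U) (C := C) (D := C)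
      (fun t s x y => t - x) (fun t s x y => x) (fun t s x y => s) (fun t s x y => y)
      (fun t ht s hs x hx' y hy' => ⟨(hM s hs).2.2.2, hb y hy'⟩)
      (fun t ht s hs x hx' y hy' t' ht' s' hs' x'' hx'' y'' hy'' q1 q2 q3 q4 => by
        have := hM t ht; have := hM t' ht'; have := hx x hx'; have := hx x'' hx''; omega)
    have G2 := genP (n := n) (U := U) (X := X) (Y := Y) (e := e) (w := w) (b := b) (g := g)
      (T1 := MM n U) (T2 := MM n U) (C := C) (D := C)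
      (fun t s x y => t - x) (fun t s x y => y) (fun t s x y => s) (fun t s x y => x)
      (fun t ht s hs x hx' y hy' => ⟨(hM s hs).2.2.2, hb x hx'⟩)
      (fun t ht s hs x hx' y hy' t' ht' s' hs' x'' hx'' y'' hy'' q1 q2 q3 q4 => by
        have := hM t ht; have := hM t' ht'; have := hx x hx'; have := hx x'' hx''; omega)
    have G3 := genP (n := n) (U := U) (X := X) (Y := Y) (e := e) (w := w) (b := b) (g := g)
      (T1 := MM n U) (T2 := MM n U) (C := C) (D := C)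
      (fun t s x y => s - x) (fun t s x y => x) (fun t s x y => t) (fun t s x y => y)
      (fun t ht s hs x hx' y hy' => ⟨(hM t ht).2.2.2, hb y hy'⟩)
      (fun t ht s hs x hx' y hy' t' ht' s' hs' x'' hx'' y'' hy'' q1 q2 q3 q4 => by
        have := hM s hs; have := hM s' hs'; have := hx x hx'; have := hx x'' hx''; omega)
    have G4 := genP (n := n) (U := U) (X := X) (Y := Y) (e := e) (w := w) (b := b) (g := g)
      (T1 := MM n U) (T2 := MM n U) (C := C) (D := C)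
      (fun t s x y => s - x) (fun t s x y => y) (fun t s x y => t) (fun t s x y => x)
      (fun t ht s hs x hx' y hy' => ⟨(hM t ht).2.2.2, hb x hx'⟩)
      (fun t ht s hs x hx' y hy' t' ht' s' hs' x'' hx'' y'' hy'' q1 q2 q3 q4 => by
        have := hM s hs; have := hM s' hs'; have := hx x hx'; have := hx x'' hx''; omega)
    have G5 := genD (n := n) (b := b) (A := GG n U e w) (B := GG n U e w)
      (T1 := MM n U) (T2 := MM n U) (C := C) (D := C)
      (fun t s x y => t - x + y) (fun t s x y => s - x + y) (fun t s x y => x) (fun t s x y => y)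
      (fun t ht s hs x hx' y hy' => ⟨hb x hx', hb y hy'⟩)
      (fun t ht s hs x hx' y hy' t' ht' s' hs' x'' hx'' y'' hy'' q1 q2 q3 q4 => by
        have := hM t ht; have := hM t' ht'; have := hM s hs; have := hM s' hs'
        have := hx x hx'; have := hx x'' hx''; omega)
    linarith
  · dsimp only at hP ⊢
    obtain ⟨⟨⟨⟨⟨p1, p2⟩, p3⟩, p4⟩, p5⟩, p6⟩ := hP
    have e1 := hx x hx'
    have e2 := hM t ht
    have e3 := hM s hs
    have r1 : t - x + x = t := by omega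
    have r2 : s - x + x = s := by omega
    rw [ph_eq p1, ph_eq p2, ph_eq p3, ph_eq p4, df_eq p5 p6, r1, r2]
    set A1 := b x + b t + e * b (w + x) - g (t - x)
    set A2 := b x + b s + e * b (w + x) - g (s - x)
    set A3 := b y + b (t - x + y) + e * b (w + y) - g (t - x)
    set A4 := b y + b (s - x + y) + e * b (w + y) - g (s - x)
    set A5 := b (t - x + y) - b (s - x + y)
    have hid : b t - b s = A1 - A2 - A3 + A4 + A5 := by
      simp only [A1, A2, A3, A4, A5]; ring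
    rw [abs_le]
    constructor <;> linarith [le_abs_self A1, neg_abs_le A1, le_abs_self A2, neg_abs_le A2,
      le_abs_self A3, neg_abs_le A3, le_abs_self A4, neg_abs_le A4, le_abs_self A5,
      neg_abs_le A5]

theorem Ctx.step2 (h : Ctx n U X Y e w) (b g : ℕ → ℝ) :
    (n : ℝ) ^ 2 / 32768 * ∑ t ∈ LL n U e w, ∑ s ∈ MM n U, |b t - b s| ≤
      2 * ((2 * (n : ℝ) + 1) ^ 2 * SS U X Y e w b g) + 3 * ((2 * (n : ℝ) + 1) ^ 2 *
        ∑ t ∈ MM n U, ∑ s ∈ MM n U, |b t - b s|) := by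
  have hn := h.hn
  obtain ⟨hc1, hc2⟩ := card_int hn 3
  set C := Icc ((3 * n + 63) / 64) (((3 + 1) * n) / 64) with hC
  set κ := (n : ℝ) / 1000000 * (n / 32) with hκ
  have hκ0 : 0 ≤ κ := by positivity
  have hx : ∀ x ∈ C, 3 * n ≤ 64 * x ∧ 64 * x ≤ 4 * n ∧ x < 2 * n + 1 := fun x hx => by
    have := mem_Icc.1 hx; omega
  have hw := h.w_bd
  have hM := h.MM_facts
  have hL := h.LL_facts
  have F1 : ∀ t ∈ LL n U e w, Fail (C ×ˢ C) (fun ω => Al U X Y e w ω.1 t) (4 * κ) := by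
    intro t ht
    obtain ⟨t1, t2, t3, t4⟩ := hL t ht
    refine h.failAl (px := fun x _ => x) (py := fun _ _ => t) hκ0 ?_ ?_ ?_ ?_ ?_
    · exact h.failX1 hc2 (a := fun x _ => x) (fun x hx' y _ => by have := hx x hx'; omega)
        (fun x _ x' _ y _ hxx => hxx)
    · exact Fail.of_true hκ0 fun _ _ => t1
    · intro _ _; omega
    · exact h.failU1 hc2 (a := fun x _ => x + t) (fun x hx' y _ => by have := hx x hx'; omega)
        (fun x _ x' _ y _ hxx => by omega)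
    · exact fun he => Fail.of_true hκ0 fun _ _ => t3 he
  have F2 : Fail (C ×ˢ C) (fun ω => Al U X Y e w ω.1 ω.2) (4 * κ) := by
    refine h.failAl (px := fun x _ => x) (py := fun _ y => y) hκ0 ?_ ?_ ?_ ?_ ?_
    · exact h.failX1 hc2 (a := fun x _ => x) (fun x hx' y _ => by have := hx x hx'; omega)
        (fun x _ x' _ y _ hxx => hxx)
    · exact h.failU2 hc2 (a := fun _ y => y) (fun x _ y hy' => by have := hx y hy'; omega)
        (fun x _ y _ y' _ hxx => hxx)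
    · intro ω hω
      have := hx _ (mem_product.1 hω).2
      omega
    · exact h.failU2 hc2 (a := fun x y => x + y)
        (fun x hx' y hy' => by have := hx x hx'; have := hx y hy'; omega)
        (fun x _ y _ y' _ hxx => by omega)
    · intro he
      have := hw he
      exact h.failU2 hc2 (a := fun _ y => w + y) (fun x _ y hy' => by have := hx y hy'; omega)
        (fun x _ y _ y' _ hxx => by omega)
  have key := avg (T1 := LL n U e w) (T2 := MM n U) (C := C) (D := C)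
    (d := fun t s => |b t - b s|)
    (R := fun t s x y => ph U X Y e w b g x t + ph U X Y e w b g x y +
      df (MM n U) (MM n U) b (x + t) (x + y) + df (MM n U) (MM n U) b (w + t) (w + y) +
      df (MM n U) (MM n U) b y s)
    (P := fun t s ω => (Al U X Y e w ω.1 t ∧ Al U X Y e w ω.1 ω.2) ∧ ω.2 ∈ U)
    (κ := 4 * κ + 4 * κ + κ)
    (m := (n : ℝ) ^ 2 / 32768) (fun _ _ => abs_nonneg _)
    (fun t s x y => by
      have := ph_nn U X Y e w b g
      exact add_nonneg (add_nonneg (add_nonneg (add_nonneg (this _ _) (this _ _))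
        (df_nn _ _ _ _ _)) (df_nn _ _ _ _ _)) (df_nn _ _ _ _ _))
    (fun t ht s hs x hx' y hy' hP => ?_)
    (fun t ht s hs => ((F1 t ht).and F2).and (h.failU2 hc2 (a := fun _ y => y)
      (fun x _ y hy' => by have := hx y hy'; omega) (fun x _ y _ y' _ hxx => hxx)))
    (prod_card hc1 hc1 (by have := kk_le n; rw [← hκ] at this; linarith))
  · refine key.trans ?_
    simp only [sum_add_distrib]
    have G1 := genP (n := n) (U := U) (X := X) (Y := Y) (e := e) (w := w) (b := b) (g := g)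
      (T1 := LL n U e w) (T2 := MM n U) (C := C) (D := C)
      (fun t s x y => x) (fun t s x y => t) (fun t s x y => s) (fun t s x y => y)
      (fun t ht s hs x hx' y hy' => ⟨(hM s hs).2.2.2, (hx y hy').2.2⟩)
      (fun t ht s hs x hx' y hy' t' ht' s' hs' x'' hx'' y'' hy'' q1 q2 q3 q4 =>
        ⟨q2, q3, q1, q4⟩)
    have G2 := genP (n := n) (U := U) (X := X) (Y := Y) (e := e) (w := w) (b := b) (g := g)
      (T1 := LL n U e w) (T2 := MM n U) (C := C) (D := C)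
      (fun t s x y => x) (fun t s x y => y) (fun t s x y => t) (fun t s x y => s)
      (fun t ht s hs x hx' y hy' => ⟨(hL t ht).2.2.2, (hM s hs).2.2.2⟩)
      (fun t ht s hs x hx' y hy' t' ht' s' hs' x'' hx'' y'' hy'' q1 q2 q3 q4 =>
        ⟨q3, q4, q1, q2⟩)
    have G3 := genD (n := n) (b := b) (A := MM n U) (B := MM n U)
      (T1 := LL n U e w) (T2 := MM n U) (C := C) (D := C)
      (fun t s x y => x + t) (fun t s x y => x + y) (fun t s x y => s) (fun t s x y => x)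
      (fun t ht s hs x hx' y hy' => ⟨(hM s hs).2.2.2, (hx x hx').2.2⟩)
      (fun t ht s hs x hx' y hy' t' ht' s' hs' x'' hx'' y'' hy'' q1 q2 q3 q4 => by
        omega)
    have G4 := genD (n := n) (b := b) (A := MM n U) (B := MM n U)
      (T1 := LL n U e w) (T2 := MM n U) (C := C) (D := C)
      (fun t s x y => w + t) (fun t s x y => w + y) (fun t s x y => s) (fun t s x y => x)
      (fun t ht s hs x hx' y hy' => ⟨(hM s hs).2.2.2, (hx x hx').2.2⟩)
      (fun t ht s hs x hx' y hy' t' ht' s' hs' x'' hx'' y'' hy'' q1 q2 q3 q4 => by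
        omega)
    have G5 := genD (n := n) (b := b) (A := MM n U) (B := MM n U)
      (T1 := LL n U e w) (T2 := MM n U) (C := C) (D := C)
      (fun t s x y => y) (fun t s x y => s) (fun t s x y => t) (fun t s x y => x)
      (fun t ht s hs x hx' y hy' => ⟨(hL t ht).2.2.2, (hx x hx').2.2⟩)
      (fun t ht s hs x hx' y hy' t' ht' s' hs' x'' hx'' y'' hy'' q1 q2 q3 q4 =>
        ⟨q3, q2, q4, q1⟩)
    linarith
  · dsimp only at hP ⊢
    obtain ⟨⟨p1, p2⟩, p3⟩ := hP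
    have e1 := hx x hx'
    have e1' := hx y hy'
    have e2 := hL t ht
    have m1 : x + t ∈ MM n U := mem_filter.2 ⟨p1.2.2.1, by omega, by omega⟩
    have m2 : x + y ∈ MM n U := mem_filter.2 ⟨p2.2.2.1, by omega, by omega⟩
    have m3 : y ∈ MM n U := mem_filter.2 ⟨p3, by omega, by omega⟩
    rw [ph_eq p1, ph_eq p2, df_eq m1 m2, df_eq m3 hs]
    set A1 := b t + b (x + t) + e * b (w + t) - g x
    set A2 := b y + b (x + y) + e * b (w + y) - g x
    set A3 := b (x + t) - b (x + y)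
    set A5 := b y - b s
    rcases h.he with he | ⟨he, -⟩
    · have n1 := df_nn (MM n U) (MM n U) b (w + t) (w + y)
      have hid : b t - b s = A1 - A2 - A3 + A5 := by
        simp only [A1, A2, A3, A5, he]; push_cast; ring
      rw [abs_le]
      constructor <;> linarith [le_abs_self A1, neg_abs_le A1, le_abs_self A2, neg_abs_le A2,
        le_abs_self A3, neg_abs_le A3, le_abs_self A5, neg_abs_le A5]
    · have hw' := hw he
      have m4 : w + t ∈ MM n U := mem_filter.2 ⟨p1.2.2.2 he, by omega, by omega⟩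
      have m5 : w + y ∈ MM n U := mem_filter.2 ⟨p2.2.2.2 he, by omega, by omega⟩
      rw [df_eq m4 m5]
      set A4 := b (w + t) - b (w + y)
      have hid : b t - b s = A1 - A2 - A3 - A4 + A5 := by
        simp only [A1, A2, A3, A4, A5, he]; push_cast; ring
      rw [abs_le]
      constructor <;> linarith [le_abs_self A1, neg_abs_le A1, le_abs_self A2, neg_abs_le A2,
        le_abs_self A3, neg_abs_le A3, le_abs_self A4, neg_abs_le A4, le_abs_self A5,
        neg_abs_le A5]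

theorem Ctx.step3 (h : Ctx n U X Y e w) (b g : ℕ → ℝ) :
    (n : ℝ) ^ 2 / 32768 * ∑ t ∈ HH n U, ∑ s ∈ MM n U, |b t - b s| ≤
      2 * ((2 * (n : ℝ) + 1) ^ 2 * SS U X Y e w b g) + (2 * (n : ℝ) + 1) ^ 2 *
        (∑ t ∈ LL n U e w, ∑ s ∈ MM n U, |b t - b s|) + 2 * ((2 * (n : ℝ) + 1) ^ 2 *
        ∑ t ∈ MM n U, ∑ s ∈ MM n U, |b t - b s|) := by
  have hn := h.hn
  obtain ⟨hc1, hc2⟩ := card_int hn 43
  obtain ⟨hd1, hd2⟩ := card_small hn
  set C := Icc ((43 * n + 63) / 64) (((43 + 1) * n) / 64) with hC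
  set D := Icc 1 (n / 64) with hD
  set κ := (n : ℝ) / 1000000 * (n / 32) with hκ
  have hκ0 : 0 ≤ κ := by positivity
  have hx : ∀ x ∈ C, 43 * n ≤ 64 * x ∧ 64 * x ≤ 44 * n ∧ x < 2 * n + 1 := fun x hx => by
    have := mem_Icc.1 hx; omega
  have hy : ∀ y ∈ D, 1 ≤ y ∧ 64 * y ≤ n ∧ y < 2 * n + 1 := fun y hy => by
    have := mem_Icc.1 hy; omega
  have hw := h.w_bd
  have hM := h.MM_facts
  have hH := h.HH_facts
  -- the pair (t - x, x)
  have F1 : ∀ t ∈ HH n U, Fail (C ×ˢ D) (fun ω => Al U X Y e w (t - ω.1) ω.1) (4 * κ) := by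
    intro t ht
    obtain ⟨t1, t2, t3, t4⟩ := hH t ht
    refine h.failAl (px := fun x _ => t - x) (py := fun x _ => x) hκ0 ?_ ?_ ?_ ?_ ?_
    · exact h.failX1 hd2 (a := fun x _ => t - x) (fun x hx' y _ => by have := hx x hx'; omega)
        (fun x hx' x' hx'' y _ hxx => by have := hx x hx'; have := hx x' hx''; omega)
    · exact h.failU1 hd2 (a := fun x _ => x) (fun x hx' y _ => by have := hx x hx'; omega)
        (fun x _ x' _ y _ hxx => hxx)
    · intro ω hω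
      have := hx _ (mem_product.1 hω).1
      omega
    · refine Fail.of_true hκ0 fun ω hω => ?_
      have := hx _ (mem_product.1 hω).1
      have e1 : t - ω.1 + ω.1 = t := by omega
      rw [e1]; exact t1
    · intro he
      have := hw he
      exact h.failU1 hd2 (a := fun x _ => w + x) (fun x hx' y _ => by have := hx x hx'; omega)
        (fun x _ x' _ y _ hxx => by omega)
  -- the pair (t - x, y)
  have F2 : ∀ t ∈ HH n U, Fail (C ×ˢ D) (fun ω => Al U X Y e w (t - ω.1) ω.2) (4 * κ) := by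
    intro t ht
    obtain ⟨t1, t2, t3, t4⟩ := hH t ht
    refine h.failAl (px := fun x _ => t - x) (py := fun _ y => y) hκ0 ?_ ?_ ?_ ?_ ?_
    · exact h.failX1 hd2 (a := fun x _ => t - x) (fun x hx' y _ => by have := hx x hx'; omega)
        (fun x hx' x' hx'' y _ hxx => by have := hx x hx'; have := hx x' hx''; omega)
    · exact h.failU2 hc2 (a := fun _ y => y) (fun x _ y hy' => by have := hy y hy'; omega)
        (fun x _ y _ y' _ hxx => hxx)
    · intro ω hω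
      have := hy _ (mem_product.1 hω).2
      omega
    · exact h.failU2 hc2 (a := fun x y => t - x + y)
        (fun x hx' y hy' => by have := hx x hx'; have := hy y hy'; omega)
        (fun x _ y _ y' _ hxx => by omega)
    · intro he
      have := hw he
      exact h.failU2 hc2 (a := fun _ y => w + y) (fun x _ y hy' => by have := hy y hy'; omega)
        (fun x _ y _ y' _ hxx => by omega)
  have key := avg (T1 := HH n U) (T2 := MM n U) (C := C) (D := D)
    (d := fun t s => |b t - b s|)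
    (R := fun t s x y => ph U X Y e w b g (t - x) x + ph U X Y e w b g (t - x) y +
      df (LL n U e w) (MM n U) b y x + df (MM n U) (MM n U) b (w + x) (w + y) +
      df (MM n U) (MM n U) b (t - x + y) s)
    (P := fun t s ω => ((Al U X Y e w (t - ω.1) ω.1 ∧ Al U X Y e w (t - ω.1) ω.2) ∧
      ω.1 ∈ U) ∧ ω.2 ∈ U)
    (κ := 4 * κ + 4 * κ + κ + κ)
    (m := (n : ℝ) ^ 2 / 32768) (fun _ _ => abs_nonneg _)
    (fun t s x y => by
      have := ph_nn U X Y e w b g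
      exact add_nonneg (add_nonneg (add_nonneg (add_nonneg (this _ _) (this _ _))
        (df_nn _ _ _ _ _)) (df_nn _ _ _ _ _)) (df_nn _ _ _ _ _))
    (fun t ht s hs x hx' y hy' hP => ?_)
    (fun t ht s hs => ((((F1 t ht).and (F2 t ht)).and (h.failU1 hd2 (a := fun x _ => x)
      (fun x hx' y _ => by have := hx x hx'; omega) (fun x _ x' _ y _ hxx => hxx)))).and
      (h.failU2 hc2 (a := fun _ y => y)
      (fun x _ y hy' => by have := hy y hy'; omega) (fun x _ y _ y' _ hxx => hxx)))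
    (prod_card hc1 hd1 (by have := kk_le n; rw [← hκ] at this; linarith))
  · refine key.trans ?_
    simp only [sum_add_distrib]
    have G1 := genP (n := n) (U := U) (X := X) (Y := Y) (e := e) (w := w) (b := b) (g := g)
      (T1 := HH n U) (T2 := MM n U) (C := C) (D := D)
      (fun t s x y => t - x) (fun t s x y => x) (fun t s x y => s) (fun t s x y => y)
      (fun t ht s hs x hx' y hy' => ⟨(hM s hs).2.2.2, (hy y hy').2.2⟩)
      (fun t ht s hs x hx' y hy' t' ht' s' hs' x'' hx'' y'' hy'' q1 q2 q3 q4 => by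
        have := hH t ht; have := hH t' ht'; have := hx x hx'; have := hx x'' hx''; omega)
    have G2 := genP (n := n) (U := U) (X := X) (Y := Y) (e := e) (w := w) (b := b) (g := g)
      (T1 := HH n U) (T2 := MM n U) (C := C) (D := D)
      (fun t s x y => t - x) (fun t s x y => y) (fun t s x y => s) (fun t s x y => x)
      (fun t ht s hs x hx' y hy' => ⟨(hM s hs).2.2.2, (hx x hx').2.2⟩)
      (fun t ht s hs x hx' y hy' t' ht' s' hs' x'' hx'' y'' hy'' q1 q2 q3 q4 => by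
        have := hH t ht; have := hH t' ht'; have := hx x hx'; have := hx x'' hx''; omega)
    have G3 := genD (n := n) (b := b) (A := LL n U e w) (B := MM n U)
      (T1 := HH n U) (T2 := MM n U) (C := C) (D := D)
      (fun t s x y => y) (fun t s x y => x) (fun t s x y => t) (fun t s x y => s)
      (fun t ht s hs x hx' y hy' => ⟨(hH t ht).2.2.2, (hM s hs).2.2.2⟩)
      (fun t ht s hs x hx' y hy' t' ht' s' hs' x'' hx'' y'' hy'' q1 q2 q3 q4 =>
        ⟨q3, q4, q2, q1⟩)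
    have G4 := genD (n := n) (b := b) (A := MM n U) (B := MM n U)
      (T1 := HH n U) (T2 := MM n U) (C := C) (D := D)
      (fun t s x y => w + x) (fun t s x y => w + y) (fun t s x y => t) (fun t s x y => s)
      (fun t ht s hs x hx' y hy' => ⟨(hH t ht).2.2.2, (hM s hs).2.2.2⟩)
      (fun t ht s hs x hx' y hy' t' ht' s' hs' x'' hx'' y'' hy'' q1 q2 q3 q4 => by
        omega)
    have G5 := genD (n := n) (b := b) (A := MM n U) (B := MM n U)
      (T1 := HH n U) (T2 := MM n U) (C := C) (D := D)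
      (fun t s x y => t - x + y) (fun t s x y => s) (fun t s x y => x) (fun t s x y => y)
      (fun t ht s hs x hx' y hy' => ⟨(hx x hx').2.2, (hy y hy').2.2⟩)
      (fun t ht s hs x hx' y hy' t' ht' s' hs' x'' hx'' y'' hy'' q1 q2 q3 q4 => by
        have := hH t ht; have := hH t' ht'; have := hx x hx'; have := hx x'' hx''; omega)
    linarith
  · dsimp only at hP ⊢
    obtain ⟨⟨⟨p1, p2⟩, p3⟩, p4⟩ := hP
    have e1 := hx x hx'
    have e1' := hy y hy'
    have e2 := hH t ht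
    have r1 : t - x + x = t := by omega
    have m1 : y ∈ LL n U e w := mem_filter.2 ⟨p4, by omega, p2.2.2.2⟩
    have m2 : x ∈ MM n U := mem_filter.2 ⟨p3, by omega, by omega⟩
    have m3 : t - x + y ∈ MM n U := mem_filter.2 ⟨p2.2.2.1, by omega, by omega⟩
    rw [ph_eq p1, ph_eq p2, df_eq m1 m2, df_eq m3 hs, r1]
    set A1 := b x + b t + e * b (w + x) - g (t - x)
    set A2 := b y + b (t - x + y) + e * b (w + y) - g (t - x)
    set A3 := b y - b x
    set A5 := b (t - x + y) - b s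
    rcases h.he with he | ⟨he, -⟩
    · have n1 := df_nn (MM n U) (MM n U) b (w + x) (w + y)
      have hid : b t - b s = A1 - A2 + A3 + A5 := by
        simp only [A1, A2, A3, A5, he]; push_cast; ring
      rw [abs_le]
      constructor <;> linarith [le_abs_self A1, neg_abs_le A1, le_abs_self A2, neg_abs_le A2,
        le_abs_self A3, neg_abs_le A3, le_abs_self A5, neg_abs_le A5]
    · have hw' := hw he
      have m4 : w + x ∈ MM n U := mem_filter.2 ⟨p1.2.2.2 he, by omega, by omega⟩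
      have m5 : w + y ∈ MM n U := mem_filter.2 ⟨p2.2.2.2 he, by omega, by omega⟩
      rw [df_eq m4 m5]
      set A4 := b (w + x) - b (w + y)
      have hid : b t - b s = A1 - A2 + A3 - A4 + A5 := by
        simp only [A1, A2, A3, A4, A5, he]; push_cast; ring
      rw [abs_le]
      constructor <;> linarith [le_abs_self A1, neg_abs_le A1, le_abs_self A2, neg_abs_le A2,
        le_abs_self A3, neg_abs_le A3, le_abs_self A4, neg_abs_le A4, le_abs_self A5,
        neg_abs_le A5]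

/-- triangle inequality through the middle set -/
theorem tri {A M : Finset ℕ} {b : ℕ → ℝ} (hM : (n : ℝ) ≤ M.card) (hA : (A.card : ℝ) ≤ 2 * n)
    (hn : (0 : ℝ) < n) :
    ∑ t ∈ A, ∑ t' ∈ A, |b t - b t'| ≤ 4 * ∑ t ∈ A, ∑ s ∈ M, |b t - b s| := by
  set S := ∑ t ∈ A, ∑ s ∈ M, |b t - b s| with hS
  have hS0 : 0 ≤ S := sum_nonneg fun _ _ => sum_nonneg fun _ _ => abs_nonneg _
  have hD0 : 0 ≤ ∑ t ∈ A, ∑ t' ∈ A, |b t - b t'| :=
    sum_nonneg fun _ _ => sum_nonneg fun _ _ => abs_nonneg _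
  have h1 : (M.card : ℝ) * ∑ t ∈ A, ∑ t' ∈ A, |b t - b t'| ≤
      ∑ t ∈ A, ∑ t' ∈ A, (∑ s ∈ M, |b t - b s| + ∑ s ∈ M, |b t' - b s|) := by
    rw [mul_sum]
    refine sum_le_sum fun t _ => ?_
    rw [mul_sum]
    refine sum_le_sum fun t' _ => ?_
    rw [← sum_add_distrib, ← nsmul_eq_mul, ← sum_const]
    refine sum_le_sum fun s _ => ?_
    have := abs_sub_le (b t) (b s) (b t')
    rw [abs_sub_comm (b s) (b t')] at this
    exact this
  have h2 : ∑ t ∈ A, ∑ t' ∈ A, (∑ s ∈ M, |b t - b s| + ∑ s ∈ M, |b t' - b s|) =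
      2 * ((A.card : ℝ) * S) := by
    simp only [sum_add_distrib, sum_const, nsmul_eq_mul, ← mul_sum]
    rw [← hS]; ring
  have h3 : (A.card : ℝ) * S ≤ 2 * n * S := mul_le_mul_of_nonneg_right hA hS0
  have h4 : (n : ℝ) * ∑ t ∈ A, ∑ t' ∈ A, |b t - b t'| ≤
      (M.card : ℝ) * ∑ t ∈ A, ∑ t' ∈ A, |b t - b t'| := mul_le_mul_of_nonneg_right hM hD0
  have h5 : (n : ℝ) * ∑ t ∈ A, ∑ t' ∈ A, |b t - b t'| ≤ n * (4 * S) := by linarith
  exact le_of_mul_le_mul_left h5 hn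

theorem Ctx.card_MM (h : Ctx n U X Y e w) : (n : ℝ) ≤ (MM n U).card := by
  have hn := h.hn
  have h1 : Icc ((3 * n + 63) / 64) (86 * n / 64) ⊆ MM n U ∪ (Icc 1 (2 * n - 1) \ U) := by
    intro t ht
    have := mem_Icc.1 ht
    by_cases hu : t ∈ U
    · exact mem_union_left _ (mem_filter.2 ⟨hu, by omega, by omega⟩)
    · exact mem_union_right _ (mem_sdiff.2 ⟨mem_Icc.2 (by omega), hu⟩)
  have h2 := (card_le_card h1).trans (card_union_le _ _)
  rw [Nat.card_Icc] at h2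
  have h3 : 5 * n ≤ 4 * (86 * n / 64 + 1 - (3 * n + 63) / 64) := by omega
  have h4 : 5 * n ≤ 4 * ((MM n U).card + (Icc 1 (2 * n - 1) \ U).card) := by omega
  have h5 : (5 * n : ℝ) ≤ 4 * ((MM n U).card + ((Icc 1 (2 * n - 1) \ U).card : ℝ)) := by
    exact_mod_cast h4
  have := h.cU
  have hn' : (1000 : ℝ) ≤ n := by exact_mod_cast hn
  linarith

theorem Ctx.final (h : Ctx n U X Y e w) (b g : ℕ → ℝ) :
    ∑ t ∈ U.filter (fun t => e = 1 → w + t ∈ U ∨ n ≤ 2 * t),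
      ∑ t' ∈ U.filter (fun t => e = 1 → w + t ∈ U ∨ n ≤ 2 * t), |b t - b t'| ≤
      10 ^ 30 * SS U X Y e w b g := by
  have hn := h.hn
  have hn' : (1000 : ℝ) ≤ n := by exact_mod_cast hn
  set V := U.filter (fun t => e = 1 → w + t ∈ U ∨ n ≤ 2 * t) with hV
  have hVs : V ⊆ MM n U ∪ (LL n U e w ∪ HH n U) := by
    intro t ht
    obtain ⟨t1, t2⟩ := mem_filter.1 ht
    by_cases c1 : 64 * t < 3 * n
    · refine mem_union_right _ (mem_union_left _ (mem_filter.2 ⟨t1, c1, fun he => ?_⟩))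
      rcases t2 he with h1 | h1
      · exact h1
      · omega
    · by_cases c2 : 64 * t ≤ 86 * n
      · exact mem_union_left _ (mem_filter.2 ⟨t1, by omega, c2⟩)
      · exact mem_union_right _ (mem_union_right _ (mem_filter.2 ⟨t1, by omega⟩))
  have hVc : (V.card : ℝ) ≤ 2 * n := by
    have h1 : V ⊆ Icc 1 (2 * n) := fun t ht => by
      have := mem_Icc.1 (h.hU (mem_filter.1 ht).1)
      exact mem_Icc.2 (by omega)
    have h2 := card_le_card h1
    rw [Nat.card_Icc] at h2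
    have h3 : V.card ≤ 2 * n := by omega
    exact_mod_cast h3
  have T := tri (b := b) h.card_MM hVc (by linarith)
  set f : ℕ → ℝ := fun t => ∑ s ∈ MM n U, |b t - b s| with hf
  have hf0 : ∀ t, 0 ≤ f t := fun t => sum_nonneg fun _ _ => abs_nonneg _
  have hsp : ∑ t ∈ V, f t ≤ ∑ t ∈ MM n U, f t + ∑ t ∈ LL n U e w, f t + ∑ t ∈ HH n U, f t := by
    have q1 : ∑ t ∈ V, f t ≤ ∑ t ∈ MM n U ∪ (LL n U e w ∪ HH n U), f t :=
      sum_le_sum_of_subset_of_nonneg hVs fun t _ _ => hf0 t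
    have q2 : ∀ A B : Finset ℕ, ∑ t ∈ A ∪ B, f t ≤ ∑ t ∈ A, f t + ∑ t ∈ B, f t := by
      intro A B
      rw [← sum_union_inter]
      have := sum_nonneg (s := A ∩ B) fun t _ => hf0 t
      linarith
    have q3 := q2 (MM n U) (LL n U e w ∪ HH n U)
    have q4 := q2 (LL n U e w) (HH n U)
    linarith
  have hS := SS_nn U X Y e w b g
  set S := SS U X Y e w b g with hSdef
  have hm : (0 : ℝ) < (n : ℝ) ^ 2 / 32768 := by positivity
  have hN : (2 * (n : ℝ) + 1) ^ 2 ≤ 294912 * ((n : ℝ) ^ 2 / 32768) := by nlinarith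
  have conv : ∀ {a K : ℝ}, 0 ≤ K → (n : ℝ) ^ 2 / 32768 * a ≤ (2 * (n : ℝ) + 1) ^ 2 * K →
      a ≤ 294912 * K := by
    intro a K hK h1
    have h2 : (2 * (n : ℝ) + 1) ^ 2 * K ≤ 294912 * ((n : ℝ) ^ 2 / 32768) * K :=
      mul_le_mul_of_nonneg_right hN hK
    have h3 : (n : ℝ) ^ 2 / 32768 * a ≤ (n : ℝ) ^ 2 / 32768 * (294912 * K) := by linarith
    exact le_of_mul_le_mul_left h3 hm
  have nn : ∀ A B : Finset ℕ, 0 ≤ ∑ t ∈ A, ∑ s ∈ B, |b t - b s| := fun A B =>
    sum_nonneg fun _ _ => sum_nonneg fun _ _ => abs_nonneg _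
  have s1 := h.step1 b g
  have s2 := h.step15 b g
  have s3 := h.step2 b g
  have s4 := h.step3 b g
  rw [← hSdef] at s1 s2 s3 s4
  have n1 := nn (GG n U e w) (GG n U e w)
  have n2 := nn (MM n U) (MM n U)
  have n3 := nn (LL n U e w) (MM n U)
  have n4 := nn (HH n U) (MM n U)
  set DG := ∑ t ∈ GG n U e w, ∑ s ∈ GG n U e w, |b t - b s| with hDG
  set DM := ∑ t ∈ MM n U, ∑ s ∈ MM n U, |b t - b s| with hDM
  set DL := ∑ t ∈ LL n U e w, ∑ s ∈ MM n U, |b t - b s| with hDL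
  set DH := ∑ t ∈ HH n U, ∑ s ∈ MM n U, |b t - b s| with hDH
  have c1 : DG ≤ 294912 * (10 * S) := conv (by positivity) (by linarith)
  have c2 : DM ≤ 294912 * (4 * S + DG) := conv (by positivity) (by linarith)
  have c3 : DL ≤ 294912 * (2 * S + 3 * DM) := conv (by positivity) (by linarith)
  have c4 : DH ≤ 294912 * (2 * S + DL + 2 * DM) := conv (by positivity) (by linarith)
  have c5 : ∑ t ∈ V, f t ≤ DM + DL + DH := hsp
  have c6 : ∑ t ∈ V, ∑ t' ∈ V, |b t - b t'| ≤ 4 * (DM + DL + DH) := by linarith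
  linarith

theorem SS_eq (U X Y : Finset ℕ) (e w : ℕ) (b g : ℕ → ℝ) :
    SS U X Y e w b g = ∑ x ∈ X, ∑ y ∈ Y.filter (fun y => x + y ∈ U ∧ (e = 1 → w + y ∈ U)),
      |b y + b (x + y) + e * b (w + y) - g x| := by
  unfold SS
  rw [sum_product]
  refine sum_congr rfl fun x hx => ?_
  rw [sum_filter]
  refine sum_congr rfl fun y hy => ?_
  unfold ph Al
  by_cases hc : x + y ∈ U ∧ (e = 1 → w + y ∈ U)
  · rw [if_pos hc, if_pos ⟨hx, hy, hc⟩]
  · rw [if_neg hc, if_neg fun h1 => hc h1.2.2]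

end

end PQ61

theorem poincare : ∃ C : ℝ, 0 < C ∧ ∃ ζ : ℝ, 0 < ζ ∧ ∃ n₀ : ℕ, ∀ (n : ℕ) (U X Y : Finset ℕ)
    (e w : ℕ) (b g : ℕ → ℝ), n₀ ≤ n → U ⊆ Icc 1 (2 * n - 1) →
    ((Icc 1 (2 * n - 1) \ U).card : ℝ) ≤ ζ * n → X ⊆ Icc 1 (2 * n) → Y ⊆ Icc 1 (2 * n) →
    ((((Icc 1 (2 * n)).filter fun x => 4 * x ≤ 7 * n) \ X).card : ℝ) ≤ ζ * n →
    (∀ y ∈ U, 4 * y ≤ 7 * n → y ∈ Y) →
    (e = 0 ∨ (e = 1 ∧ n ≤ 2 * w ∧ 8 * w ≤ 5 * n)) →
    ∑ t ∈ U.filter (fun t => e = 1 → w + t ∈ U ∨ n ≤ 2 * t),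
      ∑ t' ∈ U.filter (fun t => e = 1 → w + t ∈ U ∨ n ≤ 2 * t), |b t - b t'| ≤
      C * ∑ x ∈ X, ∑ y ∈ Y.filter (fun y => x + y ∈ U ∧ (e = 1 → w + y ∈ U)),
        |b y + b (x + y) + e * b (w + y) - g x| := by
  refine ⟨10 ^ 30, by positivity, 1 / 1000000, by norm_num, 1000, ?_⟩
  intro n U X Y e w b g hn hU hcU _ _ hcX hY he
  have h : PQ61.Ctx n U X Y e w :=
    ⟨hn, by linarith, by linarith, hU, hY, he⟩
  have h1 := h.final b g
  rw [PQ61.SS_eq] at h1
  convert h1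

end Pool.Agent.SQ
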