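import Pool.Agent.Helper73.SQ.LLD
import Pool.Agent.Helper73.SQ.PQ

/-!
# SQ-LL2: the gain (Poincare inequality for the flexible vertices) (proof by helper27)

Proof in words.  `hh e Y k x w y ≠ 0` implies `y ∈ Y ⊆ U`, `x + y ∈ U` and (`e = 1`) `w + y ∈ U`, and then `∑_{t ∈ U} b t AA e x w y t = b y + b (x+y) + e b (w+y)`.
`e = 0` (`w = 0`): `mF x 0 = ∑_τ ∑_{v ∈ F τ} Pr (φ (p v) = x) ≥ (1/(40 n)) #{v : x ∉ Bd τ}` for `4x ≤ 7n`, `x ∈ Y`; let `X` be the set of the `x ∈ Y`, `4x ≤ 7n`,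
with `x ∉ Bd τ` for at least `3/4` of all the `v` (`∑_x #{v : x ∈ Bd τ} ≤ |Fl| δ n`, so all but `4 δ n` of the `x` are in `X`).  For `x ∈ X`: `mF x 0 ≥ (n/32)/(40 n)`, `k x y ≥ 1/(2n)`.
So the right side is `≥ c/n ∑_{x ∈ X} ∑_{y : x + y ∈ U} |b y + b (x+y) - g x|`; `poincare` (with this `X`, `Y`) and `∑_{t'} |b t - b t'| ≥ |U| |b t - β|`
(`β` = mean), `|U| ≥ n`.
`e = 1`: `mF x w hh e Y k x w y ≥ (1/(40 n)) #{v : x, w ∉ Bd τ} k x y k y w`, `k ≥ 1/(2n)`; restrict to `w ∈ W` (`n/2 ≤ w ≤ 5n/8`, `w ∈ Y`, `w ∉ Bd τ` for at least `3/4` of the `v`,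
at least `n/16` such `w`) and `x ∈ X`; apply `poincare` with `e = 1` for each `w ∈ W` and sum; for fixed `t, t' ∈ U` all `w ∈ W` except `2 ζ n` see the pair.
-/

set_option autoImplicit false

namespace Pool.Agent.SQ

open Finset Pool.Agent.SEM

section H27

private theorem ar1_h27 (n c d z : ℝ) (h1 : 2 * n - 1 ≤ d + c) (h2 : d ≤ z * n) (h3 : z ≤ 1 / 1000)
    (h4 : 100 ≤ n) : n ≤ c := by
  have : z * n ≤ 1 / 1000 * n := mul_le_mul_of_nonneg_right h3 (by linarith)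
  linarith

private theorem ar2_h27 (n a b c z ζ : ℝ) (h1 : c ≤ a + b) (h2 : a ≤ z * n) (h3 : b ≤ 4 * (z * n))
    (h4 : z ≤ ζ / 5) (h5 : 0 < n) : c ≤ ζ * n := by
  have : z * n ≤ ζ / 5 * n := mul_le_mul_of_nonneg_right h4 h5.le
  linarith

private theorem ar3_h27 (n M β c m : ℝ) (hn : 0 < n) (h1 : β ≤ M / 4) (hc : c = 1 / (40 * n))
    (h2 : c * (M - β) ≤ m) (hM : n / 16 ≤ M) : 1 / 2560 ≤ m := by
  refine le_trans ?_ h2
  have h3 : c * (3 / 4 * (n / 16)) ≤ c * (M - β) :=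
    mul_le_mul_of_nonneg_left (by linarith) (by rw [hc]; positivity)
  refine le_trans ?_ h3
  rw [hc, div_mul_eq_mul_div, div_le_div_iff₀ (by norm_num) (by positivity)]
  nlinarith

private theorem ar4_h27 (n Q S C : ℝ) (hn : 0 < n) (hC : 0 < C) (hQ : 0 ≤ Q)
    (h : n * S ≤ C * Q) : 1 / (300000 * C) * S ≤ 1 / (5120 * n) * Q := by
  rw [one_div_mul_eq_div, one_div_mul_eq_div, div_le_div_iff₀ (by positivity) (by positivity)]
  have := mul_nonneg hC.le hQ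
  nlinarith

private theorem ar5_h27 (n a b c z : ℝ) (h1 : n / 8 - 2 ≤ c + a + b) (h2 : a ≤ z * n)
    (h3 : b ≤ 4 * (z * n)) (h4 : z ≤ 1 / 1000) (h5 : 100 ≤ n) : n / 10 ≤ c := by
  have : z * n ≤ 1 / 1000 * n := mul_le_mul_of_nonneg_right h4 (by linarith)
  linarith

private theorem ar6_h27 (n M a b k m : ℝ) (hn : 0 < n) (hk : 0 ≤ k) (h1 : a ≤ M / 4)
    (h1' : b ≤ M / 4) (h2 : 1 / (40 * n) * k * (M - a - b) ≤ m) (hM : n / 16 ≤ M) :
    1 / 1280 * k ≤ m := by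
  refine le_trans ?_ h2
  have h3 : 1 / (40 * n) * k * (1 / 2 * (n / 16)) ≤ 1 / (40 * n) * k * (M - a - b) :=
    mul_le_mul_of_nonneg_left (by linarith) (by positivity)
  refine le_trans (le_of_eq ?_) h3
  field_simp
  ring

private theorem ar7_h27 (n a b q m : ℝ) (hn : 0 < n) (h1 : 1 / (2 * n) ≤ a) (h2 : 1 / (2 * n) ≤ b)
    (h : 1 / 1280 * (a * b) ≤ m) (hq : 0 ≤ q) : 1 / (10240 * n ^ 2) * q ≤ m * q := by
  refine mul_le_mul_of_nonneg_right ?_ hq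
  refine le_trans ?_ h
  have h3 : 1 / (2 * n) * (1 / (2 * n)) ≤ a * b :=
    mul_le_mul h1 h2 (by positivity) (le_trans (by positivity) h1)
  have h4 : 1 / 1280 * (1 / (2 * n) * (1 / (2 * n))) ≤ 1 / 1280 * (a * b) :=
    mul_le_mul_of_nonneg_left h3 (by norm_num)
  refine le_trans ?_ h4
  have h5 : (1 : ℝ) / 1280 * (1 / (2 * n) * (1 / (2 * n))) = 1 / (5120 * n ^ 2) := by
    field_simp
    norm_num
  rw [h5]
  apply one_div_le_one_div_of_le (by positivity)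
  nlinarith [sq_nonneg n]

private theorem ar8_h27 (n w a b c z : ℝ) (h1 : w ≤ c + (a + b)) (h2 : a ≤ z * n) (h3 : b ≤ z * n)
    (h4 : z ≤ 1 / 1000) (h5 : 100 ≤ n) (h6 : n / 10 ≤ w) : n / 20 ≤ c := by
  have : z * n ≤ 1 / 1000 * n := mul_le_mul_of_nonneg_right h4 (by linarith)
  linarith

private theorem ar9_h27 (n Q S C D E : ℝ) (hn : 0 < n) (hC : 0 < C) (hQ : 0 ≤ Q)
    (h1 : n * S ≤ D) (h2 : n / 20 * D ≤ E) (h3 : E ≤ C * Q) :
    1 / (300000 * C) * S ≤ 1 / (10240 * n ^ 2) * Q := by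
  have h4 : n / 20 * (n * S) ≤ n / 20 * D := mul_le_mul_of_nonneg_left h1 (by positivity)
  have h5 : S * n ^ 2 ≤ 20 * (C * Q) := by nlinarith
  rw [one_div_mul_eq_div, one_div_mul_eq_div, div_le_div_iff₀ (by positivity) (by positivity)]
  have := mul_nonneg hC.le hQ
  nlinarith

private theorem ar10_h27 (n q s m : ℝ) (hn : 0 < n) (hm : 1 / 2560 ≤ m) (hq : 0 ≤ q)
    (h : 1 / (2 * n) * q ≤ s) : 1 / (5120 * n) * q ≤ m * s := by
  have h1 : 1 / 2560 * (1 / (2 * n) * q) ≤ m * s :=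
    mul_le_mul hm h (by positivity) (le_trans (by norm_num) hm)
  refine le_trans (le_of_eq ?_) h1
  field_simp
  ring

private theorem Pr_nonneg_h27 {L : FL} (hnn : ∀ ω, 0 ≤ L.wt ω) (E : (ℕ → ℕ) → Prop) :
    0 ≤ L.Pr E := by
  unfold FL.Pr FL.Ex
  let _ := L.fin
  refine Finset.sum_nonneg fun ω _ => mul_nonneg (hnn ω) ?_
  beta_reduce
  split_ifs <;> norm_num

/-- weight of the flexible vertices for which `x` is exceptional -/
private noncomputable def bw_h27 (T : Finset ℕ) (F Bd : ℕ → Finset ℕ) (x : ℕ) : ℝ :=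
  ∑ τ ∈ T, if x ∈ Bd τ then ((F τ).card : ℝ) else 0

private theorem bad_card_h27 (T Z : Finset ℕ) (F Bd : ℕ → Finset ℕ) (d : ℝ)
    (hM : 0 < ∑ τ ∈ T, ((F τ).card : ℝ)) (hBd : ∀ τ ∈ T, ((Bd τ).card : ℝ) ≤ d) :
    ((Z.filter fun x => (∑ τ ∈ T, ((F τ).card : ℝ)) / 4 < bw_h27 T F Bd x).card : ℝ) ≤ 4 * d := by
  set M := ∑ τ ∈ T, ((F τ).card : ℝ) with hMdef
  set Z' := Z.filter fun x => M / 4 < bw_h27 T F Bd x with hZ'
  have h1 : (Z'.card : ℝ) * (M / 4) ≤ ∑ x ∈ Z', bw_h27 T F Bd x := by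
    rw [← nsmul_eq_mul, ← Finset.sum_const]
    exact Finset.sum_le_sum fun x hx => (Finset.mem_filter.1 hx).2.le
  have h2 : ∑ x ∈ Z', bw_h27 T F Bd x ≤ M * d := by
    unfold bw_h27
    rw [Finset.sum_comm, hMdef, Finset.sum_mul]
    refine Finset.sum_le_sum fun τ hτ => ?_
    rw [← Finset.sum_filter, Finset.sum_const, nsmul_eq_mul, mul_comm]
    refine mul_le_mul_of_nonneg_left ?_ (Nat.cast_nonneg _)
    refine le_trans ?_ (hBd τ hτ)
    exact_mod_cast Finset.card_le_card fun x hx => (Finset.mem_filter.1 hx).2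
  have h3 : (Z'.card : ℝ) * (M / 4) ≤ (4 * d) * (M / 4) := by
    refine (h1.trans h2).trans (le_of_eq (by ring))
  exact le_of_mul_le_mul_right h3 (div_pos hM (by norm_num))

private theorem AA_sum_h27 (U : Finset ℕ) (b : ℕ → ℝ) (e x w y : ℕ) (he : e = 0 ∨ e = 1)
    (hy : y ∈ U) (hxy : x + y ∈ U) (hw : e = 1 → w + y ∈ U) :
    ∑ t ∈ U, b t * AA e x w y t = b y + b (x + y) + e * b (w + y) := by
  unfold AA
  have e1 : ∀ t ∈ U, b t * ((if y = t then (1 : ℝ) else 0) + (if x + y = t then 1 else 0) +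
      if e = 1 ∧ w + y = t then 1 else 0) = (if y = t then b t else 0) +
      (if x + y = t then b t else 0) + if w + y = t then (e : ℝ) * b t else 0 := by
    intro t _
    have e2 : (if e = 1 ∧ w + y = t then (1 : ℝ) else 0) = if w + y = t then (e : ℝ) else 0 := by
      rcases he with rfl | rfl
      · rw [if_neg (fun h => absurd h.1 (by norm_num))]
        split_ifs <;> simp
      · by_cases h3 : w + y = t
        · rw [if_pos ⟨rfl, h3⟩, if_pos h3, Nat.cast_one]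
        · rw [if_neg (fun h => h3 h.2), if_neg h3]
    rw [e2, mul_add, mul_add, mul_ite, mul_ite, mul_ite, mul_one, mul_zero, mul_comm (b t) (e : ℝ)]
  rw [Finset.sum_congr rfl e1, Finset.sum_add_distrib, Finset.sum_add_distrib,
    Finset.sum_ite_eq, Finset.sum_ite_eq, if_pos hy, if_pos hxy]
  congr 1
  rcases he with rfl | rfl
  · simp
  · rw [Finset.sum_ite_eq, if_pos (hw rfl)]

private theorem mF_zero_h27 (p u : ℕ → ℕ) (T : Finset ℕ) (F Bd : ℕ → Finset ℕ) (L : ℕ → FL)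
    (x : ℕ) (c : ℝ) (hnn : ∀ τ ∈ T, ∀ ω, 0 ≤ (L τ).wt ω)
    (h : ∀ τ ∈ T, ∀ v ∈ F τ, x ∉ Bd τ → c ≤ (L τ).Pr (fun φ => φ (p v) = x)) :
    c * ((∑ τ ∈ T, ((F τ).card : ℝ)) - bw_h27 T F Bd x) ≤ mF p u 0 T F L x 0 := by
  unfold mF bw_h27
  rw [← Finset.sum_sub_distrib, Finset.mul_sum]
  refine Finset.sum_le_sum fun τ hτ => ?_
  by_cases hx : x ∈ Bd τ
  · rw [if_pos hx, sub_self, mul_zero]
    exact Finset.sum_nonneg fun v _ => Pr_nonneg_h27 (hnn τ hτ) _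
  · rw [if_neg hx, sub_zero, mul_comm, ← nsmul_eq_mul, ← Finset.sum_const]
    refine Finset.sum_le_sum fun v hv => ?_
    have e1 : (fun φ : ℕ → ℕ => φ (p v) = x ∧ cw 0 u φ v = 0) = fun φ => φ (p v) = x := by
      funext φ
      simp [cw]
    rw [e1]
    exact h τ hτ v hv hx

private theorem mF_one_h27 (p u : ℕ → ℕ) (T : Finset ℕ) (F Bd : ℕ → Finset ℕ) (L : ℕ → FL)
    (x w : ℕ) (c : ℝ) (hnn : ∀ τ ∈ T, ∀ ω, 0 ≤ (L τ).wt ω) (hc : 0 ≤ c)
    (h : ∀ τ ∈ T, ∀ v ∈ F τ, x ∉ Bd τ → w ∉ Bd τ →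
      c ≤ (L τ).Pr (fun φ => φ (p v) = x ∧ φ (u v) = w)) :
    c * ((∑ τ ∈ T, ((F τ).card : ℝ)) - bw_h27 T F Bd x - bw_h27 T F Bd w) ≤
      mF p u 1 T F L x w := by
  unfold mF bw_h27
  rw [← Finset.sum_sub_distrib, ← Finset.sum_sub_distrib, Finset.mul_sum]
  refine Finset.sum_le_sum fun τ hτ => ?_
  have h0 : 0 ≤ ∑ v ∈ F τ, (L τ).Pr fun φ => φ (p v) = x ∧ cw 1 u φ v = w :=
    Finset.sum_nonneg fun v _ => Pr_nonneg_h27 (hnn τ hτ) _
  have hF : (0 : ℝ) ≤ ((F τ).card : ℝ) := Nat.cast_nonneg _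
  by_cases hx : x ∈ Bd τ
  · rw [if_pos hx, sub_self, zero_sub]
    refine le_trans ?_ h0
    rw [mul_neg, neg_nonpos]
    refine mul_nonneg hc ?_
    split_ifs <;> simp
  · rw [if_neg hx, sub_zero]
    by_cases hw : w ∈ Bd τ
    · rw [if_pos hw, sub_self, mul_zero]
      exact h0
    · rw [if_neg hw, sub_zero, mul_comm, ← nsmul_eq_mul, ← Finset.sum_const]
      refine Finset.sum_le_sum fun v hv => ?_
      have e1 : (fun φ : ℕ → ℕ => φ (p v) = x ∧ cw 1 u φ v = w) =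
          fun φ => φ (p v) = x ∧ φ (u v) = w := by
        funext φ
        simp [cw]
      rw [e1]
      exact h τ hτ v hv hx hw

private theorem mean_h27 (U : Finset ℕ) (b : ℕ → ℝ) (β : ℝ) (hU : 0 < (U.card : ℝ))
    (hβ : β = (∑ t ∈ U, b t) / U.card) :
    (U.card : ℝ) * ∑ t ∈ U, |b t - β| ≤ ∑ t ∈ U, ∑ t' ∈ U, |b t - b t'| := by
  rw [Finset.mul_sum]
  refine Finset.sum_le_sum fun t _ => ?_
  have e1 : (U.card : ℝ) * (b t - β) = ∑ t' ∈ U, (b t - b t') := by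
    rw [Finset.sum_sub_distrib, Finset.sum_const, nsmul_eq_mul, hβ]
    field_simp
  have e2 : (U.card : ℝ) * |b t - β| = |(U.card : ℝ) * (b t - β)| := by
    rw [abs_mul, abs_of_pos hU]
  rw [e2, e1]
  exact Finset.abs_sum_le_sum_abs _ _

private theorem k2_nonneg_h27 (Y : Finset ℕ) (k : ℕ → ℕ → ℝ) (hk : ∀ x y, 0 ≤ k x y) (x w : ℕ) :
    0 ≤ k2 Y k x w := Finset.sum_nonneg fun y _ => mul_nonneg (hk x y) (hk y w)

private theorem hh_nonneg_h27 (e : ℕ) (Y : Finset ℕ) (k : ℕ → ℕ → ℝ) (hk : ∀ x y, 0 ≤ k x y)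
    (x w y : ℕ) : 0 ≤ hh e Y k x w y := by
  unfold hh
  split_ifs
  · exact hk x y
  · exact div_nonneg (mul_nonneg (hk x y) (hk y w)) (k2_nonneg_h27 Y k hk x w)

private theorem mF_nonneg_h27 (p u : ℕ → ℕ) (e : ℕ) (T : Finset ℕ) (F : ℕ → Finset ℕ)
    (L : ℕ → FL) (x w : ℕ) (hnn : ∀ τ ∈ T, ∀ ω, 0 ≤ (L τ).wt ω) : 0 ≤ mF p u e T F L x w :=
  Finset.sum_nonneg fun τ hτ => Finset.sum_nonneg fun _ _ => Pr_nonneg_h27 (hnn τ hτ) _

/-- `k2 * hh = k k` -/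
private theorem k2_hh_h27 (Y : Finset ℕ) (k : ℕ → ℕ → ℝ) (hk : ∀ x y, 0 ≤ k x y)
    (x w y : ℕ) (hy : y ∈ Y) : k2 Y k x w * hh 1 Y k x w y = k x y * k y w := by
  unfold hh
  rw [if_neg one_ne_zero]
  by_cases h0 : k2 Y k x w = 0
  · have h1 : k x y * k y w ≤ k2 Y k x w :=
      Finset.single_le_sum (f := fun y => k x y * k y w)
        (fun y _ => mul_nonneg (hk x y) (hk y w)) hy
    have h2 : 0 ≤ k x y * k y w := mul_nonneg (hk x y) (hk y w)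
    rw [h0, zero_mul]
    linarith
  · field_simp

end H27

/-- the statement of `poincare` for given constants -/
private def PH_h27 (C ζ : ℝ) (n₀ : ℕ) : Prop := ∀ (n : ℕ) (U X Y : Finset ℕ)
    (e w : ℕ) (b g : ℕ → ℝ), n₀ ≤ n → U ⊆ Icc 1 (2 * n - 1) →
    ((Icc 1 (2 * n - 1) \ U).card : ℝ) ≤ ζ * n → X ⊆ Icc 1 (2 * n) → Y ⊆ Icc 1 (2 * n) →
    ((((Icc 1 (2 * n)).filter fun x => 4 * x ≤ 7 * n) \ X).card : ℝ) ≤ ζ * n →
    (∀ y ∈ U, 4 * y ≤ 7 * n → y ∈ Y) →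
    (e = 0 ∨ (e = 1 ∧ n ≤ 2 * w ∧ 8 * w ≤ 5 * n)) →
    ∑ t ∈ U.filter (fun t => e = 1 → w + t ∈ U ∨ n ≤ 2 * t),
      ∑ t' ∈ U.filter (fun t => e = 1 → w + t ∈ U ∨ n ≤ 2 * t), |b t - b t'| ≤
      C * ∑ x ∈ X, ∑ y ∈ Y.filter (fun y => x + y ∈ U ∧ (e = 1 → w + y ∈ U)),
        |b y + b (x + y) + e * b (w + y) - g x|

private theorem gain_aux_h27 (C ζ : ℝ) (n₀ : ℕ) (hC : 0 < C) (hζ : 0 < ζ) (hP : PH_h27 C ζ n₀) :
    ∀ (n : ℕ) (U Y : Finset ℕ)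
    (B t : ℝ) (k : ℕ → ℕ → ℝ) (π : ℕ → ℝ) (p u : ℕ → ℕ) (e : ℕ) (T : Finset ℕ)
    (P ex F Bd : ℕ → Finset ℕ) (L : ℕ → FL), max n₀ 100 ≤ n → KS n U Y B t k π →
    ((Icc 1 (2 * n - 1) \ U).card : ℝ) ≤ (min (ζ / 5) (1 / 1000)) * n →
    (∀ τ ∈ T, FlP p u e (P τ) (ex τ) (F τ) τ) → (∀ τ ∈ T, ∀ ω, 0 ≤ (L τ).wt ω) →
    (∀ τ ∈ T, ((Bd τ).card : ℝ) ≤ (min (ζ / 5) (1 / 1000)) * n) →
    (e = 0 → ∀ τ ∈ T, ∀ v ∈ F τ, ∀ x ∈ Y, x ∉ Bd τ → 4 * x ≤ 7 * n →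
        1 / (40 * n) ≤ (L τ).Pr (fun φ => φ (p v) = x)) →
    (e = 1 → ∀ τ ∈ T, ∀ v ∈ F τ, ∀ x ∈ Y, x ∉ Bd τ → 4 * x ≤ 7 * n → ∀ w ∈ Y, w ∉ Bd τ →
        1 / (40 * n) * k2 Y k x w ≤ (L τ).Pr (fun φ => φ (p v) = x ∧ φ (u v) = w)) →
    (n : ℝ) / 16 ≤ ∑ τ ∈ T, ((F τ).card : ℝ) →
    ∀ (b : ℕ → ℝ) (g : ℕ → ℕ → ℝ) (β : ℝ), β = (∑ t ∈ U, b t) / U.card →
      (1 / (300000 * C)) * ∑ t ∈ U, |b t - β| ≤ ∑ x ∈ Y, ∑ w ∈ insert 0 Y,
        mF p u e T F L x w * ∑ y ∈ Y, hh e Y k x w y * |∑ t ∈ U, b t * AA e x w y t - g x w| := by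
  intro n U Y B t k π p u e T P ex F Bd L hn hKS hUc hFl hwt hBd hL0 hL1 hM b g β hβ
  have hn0 : n₀ ≤ n := le_trans (le_max_left _ _) hn
  have hn100 : 100 ≤ n := le_trans (le_max_right _ _) hn
  have hnR : (100 : ℝ) ≤ (n : ℝ) := by exact_mod_cast hn100
  have hnpos : (0 : ℝ) < n := by linarith
  set ζ0 : ℝ := min (ζ / 5) (1 / 1000) with hζ0
  have hζ0pos : 0 < ζ0 := lt_min (div_pos hζ (by norm_num)) (by norm_num)
  have hζ01 : ζ0 ≤ ζ / 5 := min_le_left _ _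
  have hζ02 : ζ0 ≤ 1 / 1000 := min_le_right _ _
  set M : ℝ := ∑ τ ∈ T, ((F τ).card : ℝ) with hMd
  have hMpos : 0 < M := lt_of_lt_of_le (div_pos hnpos (by norm_num)) hM
  -- e ≤ 1
  have he : e = 0 ∨ e = 1 := by
    have hT : T.Nonempty := by
      rw [Finset.nonempty_iff_ne_empty]
      intro h
      rw [hMd, h, Finset.sum_empty] at hMpos
      exact lt_irrefl _ hMpos
    obtain ⟨τ, hτ⟩ := hT
    have := (hFl τ hτ).e1
    omega
  have hUI := hKS.UI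
  have hUc' : ((Icc 1 (2 * n - 1) \ U).card : ℝ) ≤ ζ * n := by
    refine hUc.trans (mul_le_mul_of_nonneg_right ?_ hnpos.le)
    linarith
  -- card of U
  have hUn : (n : ℝ) ≤ U.card := by
    have h1 : (Icc 1 (2 * n - 1)).card ≤ (Icc 1 (2 * n - 1) \ U).card + U.card := by
      have := Finset.card_sdiff_add_card (Icc 1 (2 * n - 1)) U
      rw [this]
      exact Finset.card_le_card Finset.subset_union_left
    rw [Nat.card_Icc] at h1
    have h2 : ((2 * n - 1 + 1 - 1 : ℕ) : ℝ) ≤ ((Icc 1 (2 * n - 1) \ U).card : ℝ) + U.card := by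
      exact_mod_cast h1
    have h3 : ((2 * n - 1 + 1 - 1 : ℕ) : ℝ) = 2 * n - 1 := by
      rw [show 2 * n - 1 + 1 - 1 = 2 * n - 1 by omega, Nat.cast_sub (by omega)]
      push_cast
      ring
    rw [h3] at h2
    exact ar1_h27 _ _ _ _ h2 hUc hζ02 hnR
  have hUpos : (0 : ℝ) < U.card := lt_of_lt_of_le hnpos hUn
  set X : Finset ℕ := (Icc 1 (2 * n)).filter fun x => x ∈ Y ∧ 4 * x ≤ 7 * n ∧
    bw_h27 T F Bd x ≤ M / 4 with hX
  have hXsub : X ⊆ Icc 1 (2 * n) := Finset.filter_subset _ _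
  have hXY : X ⊆ Y := fun x hx => (Finset.mem_filter.1 hx).2.1
  have hX7 : ∀ x ∈ X, 4 * x ≤ 7 * n := fun x hx => (Finset.mem_filter.1 hx).2.2.1
  have hXb : ∀ x ∈ X, bw_h27 T F Bd x ≤ M / 4 := fun x hx => (Finset.mem_filter.1 hx).2.2.2
  have hYsub : Y ⊆ Icc 1 (2 * n) := by
    intro y hy
    have := Finset.mem_Icc.1 (hUI (hKS.YU hy))
    rw [Finset.mem_Icc]
    omega
  have hXc : ((((Icc 1 (2 * n)).filter fun x => 4 * x ≤ 7 * n) \ X).card : ℝ) ≤ ζ * n := by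
    have h1 : ((Icc 1 (2 * n)).filter fun x => 4 * x ≤ 7 * n) \ X ⊆
        (Icc 1 (2 * n - 1) \ U) ∪ Y.filter fun x => M / 4 < bw_h27 T F Bd x := by
      intro x hx
      rw [Finset.mem_sdiff, Finset.mem_filter, Finset.mem_Icc] at hx
      obtain ⟨⟨⟨h1, h2⟩, h3⟩, h4⟩ := hx
      rw [Finset.mem_union, Finset.mem_sdiff, Finset.mem_filter, Finset.mem_Icc]
      by_cases hxU : x ∈ U
      · right
        have hxY := hKS.YH x hxU h3
        refine ⟨hxY, ?_⟩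
        by_contra h5
        exact h4 (Finset.mem_filter.2 ⟨Finset.mem_Icc.2 ⟨h1, h2⟩, hxY, h3, not_lt.1 h5⟩)
      · left
        exact ⟨⟨h1, by omega⟩, hxU⟩
    have h2 : (((((Icc 1 (2 * n)).filter fun x => 4 * x ≤ 7 * n) \ X).card : ℕ) : ℝ) ≤
        ((Icc 1 (2 * n - 1) \ U).card : ℝ) +
          ((Y.filter fun x => M / 4 < bw_h27 T F Bd x).card : ℝ) := by
      exact_mod_cast (Finset.card_le_card h1).trans (Finset.card_union_le _ _)
    have h3 := bad_card_h27 T Y F Bd (ζ0 * n) hMpos hBd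
    exact ar2_h27 _ _ _ _ _ _ h2 hUc h3 hζ01 hnpos
  have hmean := mean_h27 U b β hUpos hβ
  have hSnn : 0 ≤ ∑ t ∈ U, |b t - β| := Finset.sum_nonneg fun _ _ => abs_nonneg _
  have hDnn : 0 ≤ ∑ t ∈ U, ∑ t' ∈ U, |b t - b t'| :=
    Finset.sum_nonneg fun _ _ => Finset.sum_nonneg fun _ _ => abs_nonneg _
  have hnD : (n : ℝ) * ∑ t ∈ U, |b t - β| ≤ ∑ t ∈ U, ∑ t' ∈ U, |b t - b t'| :=
    (mul_le_mul_of_nonneg_right hUn hSnn).trans hmean
  set Rt : ℕ → ℕ → ℝ := fun x w => mF p u e T F L x w *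
    ∑ y ∈ Y, hh e Y k x w y * |∑ t ∈ U, b t * AA e x w y t - g x w| with hRt
  have hRtnn : ∀ x w, 0 ≤ Rt x w := fun x w => mul_nonneg (mF_nonneg_h27 p u e T F L x w hwt)
    (Finset.sum_nonneg fun y _ => mul_nonneg (hh_nonneg_h27 e Y k hKS.nn x w y) (abs_nonneg _))
  show (1 / (300000 * C)) * ∑ t ∈ U, |b t - β| ≤ ∑ x ∈ Y, ∑ w ∈ insert 0 Y, Rt x w
  rcases he with rfl | rfl
  · -- e = 0
    have hp := hP n U X Y 0 0 b (fun x => g x 0) hn0 hUI hUc' hXsub hYsub hXc hKS.YH (Or.inl rfl)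
    have hUf : U.filter (fun t => (0 : ℕ) = 1 → 0 + t ∈ U ∨ n ≤ 2 * t) = U :=
      Finset.filter_true_of_mem fun t _ h => absurd h (by norm_num)
    rw [hUf] at hp
    have hx : ∀ x ∈ X, 1 / (5120 * n) * ∑ y ∈ Y.filter (fun y => x + y ∈ U ∧
        ((0 : ℕ) = 1 → 0 + y ∈ U)), |b y + b (x + y) + ((0 : ℕ) : ℝ) * b (0 + y) - g x 0| ≤
        Rt x 0 := by
      intro x hxX
      have hxY := hXY hxX
      have h1 : 1 / 2560 ≤ mF p u 0 T F L x 0 :=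
        ar3_h27 n M _ _ _ hnpos (hXb x hxX) rfl
          (mF_zero_h27 p u T F Bd L x (1 / (40 * n)) hwt
          fun τ hτ v hv hb => hL0 rfl τ hτ v hv x hxY hb (hX7 x hxX)) hM
      have h2 : 1 / (2 * n) * ∑ y ∈ Y.filter (fun y => x + y ∈ U ∧
          ((0 : ℕ) = 1 → 0 + y ∈ U)), |b y + b (x + y) + ((0 : ℕ) : ℝ) * b (0 + y) - g x 0| ≤
          ∑ y ∈ Y, hh 0 Y k x 0 y * |∑ t ∈ U, b t * AA 0 x 0 y t - g x 0| := by
        rw [Finset.mul_sum]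
        refine le_trans ?_ (Finset.sum_le_sum_of_subset_of_nonneg (Finset.filter_subset
          (fun y => x + y ∈ U ∧ ((0 : ℕ) = 1 → 0 + y ∈ U)) Y)
          fun y _ _ => mul_nonneg (hh_nonneg_h27 0 Y k hKS.nn x 0 y) (abs_nonneg _))
        refine Finset.sum_le_sum fun y hy => ?_
        rw [Finset.mem_filter] at hy
        rw [AA_sum_h27 U b 0 x 0 y (Or.inl rfl) (hKS.YU hy.1) hy.2.1 hy.2.2]
        refine mul_le_mul_of_nonneg_right ?_ (abs_nonneg _)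
        unfold hh
        rw [if_pos rfl]
        exact hKS.low x hxY y hy.1 hy.2.1
      exact ar10_h27 n _ _ _ hnpos h1 (Finset.sum_nonneg fun _ _ => abs_nonneg _) h2
    have hsum : 1 / (5120 * n) * ∑ x ∈ X, ∑ y ∈ Y.filter (fun y => x + y ∈ U ∧
        ((0 : ℕ) = 1 → 0 + y ∈ U)), |b y + b (x + y) + ((0 : ℕ) : ℝ) * b (0 + y) - g x 0| ≤
        ∑ x ∈ Y, ∑ w ∈ insert 0 Y, Rt x w := by
      rw [Finset.mul_sum]
      refine (Finset.sum_le_sum hx).trans ?_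
      refine le_trans ?_ (Finset.sum_le_sum_of_subset_of_nonneg hXY
        fun x _ _ => Finset.sum_nonneg fun w _ => hRtnn x w)
      refine Finset.sum_le_sum fun x _ => ?_
      exact Finset.single_le_sum (f := fun w => Rt x w) (fun w _ => hRtnn x w)
        (Finset.mem_insert_self 0 Y)
    refine le_trans ?_ hsum
    set Q := ∑ x ∈ X, ∑ y ∈ Y.filter (fun y => x + y ∈ U ∧
        ((0 : ℕ) = 1 → 0 + y ∈ U)), |b y + b (x + y) + ((0 : ℕ) : ℝ) * b (0 + y) - g x 0| with hQ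
    exact ar4_h27 n Q _ C hnpos hC (Finset.sum_nonneg fun _ _ => Finset.sum_nonneg fun _ _ =>
      abs_nonneg _) (hnD.trans hp)
  · -- e = 1
    set W : Finset ℕ := Y.filter fun w => n ≤ 2 * w ∧ 8 * w ≤ 5 * n ∧
      bw_h27 T F Bd w ≤ M / 4 with hW
    have hWc : (n : ℝ) / 10 ≤ W.card := by
      have h1 : (Icc 1 n).filter (fun w => n ≤ 2 * w ∧ 8 * w ≤ 5 * n) ⊆
          (W ∪ (Icc 1 (2 * n - 1) \ U)) ∪ Y.filter fun x => M / 4 < bw_h27 T F Bd x := by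
        intro w hw
        rw [Finset.mem_filter, Finset.mem_Icc] at hw
        rw [Finset.mem_union, Finset.mem_union, Finset.mem_sdiff, Finset.mem_filter,
          Finset.mem_filter, Finset.mem_Icc]
        by_cases hwU : w ∈ U
        · have hwY := hKS.YH w hwU (by omega)
          by_cases h5 : bw_h27 T F Bd w ≤ M / 4
          · exact Or.inl (Or.inl ⟨hwY, hw.2.1, hw.2.2, h5⟩)
          · exact Or.inr ⟨hwY, not_le.1 h5⟩
        · exact Or.inl (Or.inr ⟨⟨hw.1.1, by omega⟩, hwU⟩)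
      have h2 : (Icc ((n + 1) / 2) (5 * n / 8)).card ≤
          ((Icc 1 n).filter (fun w => n ≤ 2 * w ∧ 8 * w ≤ 5 * n)).card := by
        refine Finset.card_le_card fun w hw => ?_
        rw [Finset.mem_Icc] at hw
        rw [Finset.mem_filter, Finset.mem_Icc]
        omega
      rw [Nat.card_Icc] at h2
      have h3 : (n : ℝ) / 8 - 2 ≤ ((5 * n / 8 + 1 - (n + 1) / 2 : ℕ) : ℝ) := by
        have h4 : n ≤ 8 * (5 * n / 8 + 1 - (n + 1) / 2) + 16 := by omega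
        have h5 : (n : ℝ) ≤ 8 * ((5 * n / 8 + 1 - (n + 1) / 2 : ℕ) : ℝ) + 16 := by exact_mod_cast h4
        linarith
      have h4 : ((5 * n / 8 + 1 - (n + 1) / 2 : ℕ) : ℝ) ≤ (W.card : ℝ) +
          ((Icc 1 (2 * n - 1) \ U).card : ℝ) +
          ((Y.filter fun x => M / 4 < bw_h27 T F Bd x).card : ℝ) := by
        have h5 := (Finset.card_le_card h1).trans (Finset.card_union_le _ _)
        have h6 := Finset.card_union_le W (Icc 1 (2 * n - 1) \ U)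
        have h7 : 5 * n / 8 + 1 - (n + 1) / 2 ≤ W.card + (Icc 1 (2 * n - 1) \ U).card +
          (Y.filter fun x => M / 4 < bw_h27 T F Bd x).card := by omega
        exact_mod_cast h7
      have h5 := bad_card_h27 T Y F Bd (ζ0 * n) hMpos hBd
      exact ar5_h27 _ _ _ _ _ (h3.trans h4) hUc h5 hζ02 hnR
    have hWY : W ⊆ Y := Finset.filter_subset _ _
    have hxw : ∀ w ∈ W, ∀ x ∈ X, 1 / (10240 * n ^ 2) * ∑ y ∈ Y.filter (fun y => x + y ∈ U ∧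
        ((1 : ℕ) = 1 → w + y ∈ U)), |b y + b (x + y) + ((1 : ℕ) : ℝ) * b (w + y) - g x w| ≤
        Rt x w := by
      intro w hwW x hxX
      have hxY := hXY hxX
      have hwY := hWY hwW
      have hwb := (Finset.mem_filter.1 hwW).2.2.2
      have hk2n := k2_nonneg_h27 Y k hKS.nn x w
      have h1 : 1 / 1280 * k2 Y k x w ≤ mF p u 1 T F L x w :=
        ar6_h27 n M _ _ _ _ hnpos hk2n (hXb x hxX) hwb (mF_one_h27 p u T F Bd L x w
          (1 / (40 * n) * k2 Y k x w) hwt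
          (mul_nonneg (one_div_nonneg.2 (by linarith)) hk2n)
          fun τ hτ v hv hb hb' => hL1 rfl τ hτ v hv x hxY hb (hX7 x hxX) w hwY hb') hM
      have h5 : Rt x w = ∑ y ∈ Y, (mF p u 1 T F L x w * hh 1 Y k x w y) *
          |∑ t ∈ U, b t * AA 1 x w y t - g x w| := by
        rw [hRt]
        simp only
        rw [Finset.mul_sum]
        exact Finset.sum_congr rfl fun y _ => (mul_assoc _ _ _).symm
      rw [h5, Finset.mul_sum]
      refine le_trans ?_ (Finset.sum_le_sum_of_subset_of_nonneg (Finset.filter_subset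
          (fun y => x + y ∈ U ∧ ((1 : ℕ) = 1 → w + y ∈ U)) Y)
          fun y _ _ => mul_nonneg (mul_nonneg (mF_nonneg_h27 p u 1 T F L x w hwt)
            (hh_nonneg_h27 1 Y k hKS.nn x w y)) (abs_nonneg _))
      refine Finset.sum_le_sum fun y hy => ?_
      rw [Finset.mem_filter] at hy
      rw [AA_sum_h27 U b 1 x w y (Or.inr rfl) (hKS.YU hy.1) hy.2.1 hy.2.2]
      have hk1 := hKS.low x hxY y hy.1 hy.2.1
      have hk2 : 1 / (2 * (n : ℝ)) ≤ k y w := by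
        refine hKS.low y hy.1 w hwY ?_
        rw [add_comm]
        exact hy.2.2 rfl
      have h6 : 1 / 1280 * (k2 Y k x w * hh 1 Y k x w y) ≤
          mF p u 1 T F L x w * hh 1 Y k x w y := by
        rw [← mul_assoc]
        exact mul_le_mul_of_nonneg_right h1 (hh_nonneg_h27 1 Y k hKS.nn x w y)
      rw [k2_hh_h27 Y k hKS.nn x w y hy.1] at h6
      exact ar7_h27 n _ _ _ _ hnpos hk1 hk2 h6 (abs_nonneg _)
    have hpw : ∀ w ∈ W, ∑ t ∈ U.filter (fun t => (1 : ℕ) = 1 → w + t ∈ U ∨ n ≤ 2 * t),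
        ∑ t' ∈ U.filter (fun t => (1 : ℕ) = 1 → w + t ∈ U ∨ n ≤ 2 * t), |b t - b t'| ≤
        C * ∑ x ∈ X, ∑ y ∈ Y.filter (fun y => x + y ∈ U ∧ ((1 : ℕ) = 1 → w + y ∈ U)),
          |b y + b (x + y) + ((1 : ℕ) : ℝ) * b (w + y) - g x w| := by
      intro w hw
      rw [Finset.mem_filter] at hw
      exact hP n U X Y 1 w b (fun x => g x w) hn0 hUI hUc' hXsub hYsub hXc hKS.YH
        (Or.inr ⟨rfl, hw.2.1, hw.2.2.1⟩)
    -- sum over w of the left sides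
    have hleft : (n : ℝ) / 20 * ∑ t ∈ U, ∑ t' ∈ U, |b t - b t'| ≤
        ∑ w ∈ W, ∑ t ∈ U.filter (fun t => (1 : ℕ) = 1 → w + t ∈ U ∨ n ≤ 2 * t),
        ∑ t' ∈ U.filter (fun t => (1 : ℕ) = 1 → w + t ∈ U ∨ n ≤ 2 * t), |b t - b t'| := by
      have e1 : ∀ w ∈ W, ∑ t ∈ U.filter (fun t => (1 : ℕ) = 1 → w + t ∈ U ∨ n ≤ 2 * t),
          ∑ t' ∈ U.filter (fun t => (1 : ℕ) = 1 → w + t ∈ U ∨ n ≤ 2 * t), |b t - b t'| =
          ∑ t ∈ U, ∑ t' ∈ U, if ((w + t ∈ U ∨ n ≤ 2 * t) ∧ (w + t' ∈ U ∨ n ≤ 2 * t')) then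
            |b t - b t'| else 0 := by
        intro w _
        rw [Finset.sum_filter]
        refine Finset.sum_congr rfl fun t _ => ?_
        by_cases h1 : w + t ∈ U ∨ n ≤ 2 * t
        · rw [if_pos (fun _ => h1), Finset.sum_filter]
          refine Finset.sum_congr rfl fun t' _ => ?_
          by_cases h2 : w + t' ∈ U ∨ n ≤ 2 * t'
          · rw [if_pos (fun _ => h2), if_pos ⟨h1, h2⟩]
          · rw [if_neg (fun h => h2 (h rfl)), if_neg (fun h => h2 h.2)]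
        · rw [if_neg (fun h => h1 (h rfl))]
          symm
          refine Finset.sum_eq_zero fun t' _ => ?_
          rw [if_neg (fun h => h1 h.1)]
      rw [Finset.sum_congr rfl e1, Finset.sum_comm (s := W), Finset.mul_sum]
      refine Finset.sum_le_sum fun t ht => ?_
      rw [Finset.sum_comm (s := W), Finset.mul_sum]
      refine Finset.sum_le_sum fun t' ht' => ?_
      rw [← Finset.sum_filter, Finset.sum_const, nsmul_eq_mul]
      refine mul_le_mul_of_nonneg_right ?_ (abs_nonneg _)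
      -- number of good w
      have hbadt : ∀ t ∈ U, ((W.filter fun w => ¬ (w + t ∈ U ∨ n ≤ 2 * t)).card : ℝ) ≤
          ζ0 * n := by
        intro t ht
        refine le_trans ?_ hUc
        have h1 : (W.filter fun w => ¬ (w + t ∈ U ∨ n ≤ 2 * t)).card ≤
            (Icc 1 (2 * n - 1) \ U).card := by
          refine Finset.card_le_card_of_injOn (fun w => w + t) ?_ ?_
          · intro w hw
            have hw' := Finset.mem_filter.1 hw
            have hwW := Finset.mem_filter.1 hw'.1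
            have h2 := hw'.2
            push Not at h2
            have ht1 := Finset.mem_Icc.1 (hUI ht)
            rw [Finset.mem_coe, Finset.mem_sdiff, Finset.mem_Icc]
            refine ⟨?_, h2.1⟩
            show 1 ≤ w + t ∧ w + t ≤ 2 * n - 1
            have h3 := h2.2
            have h4 := hwW.2.2.1
            clear hL0 hL1
            omega
          · intro a _ c _ h
            simpa using h
        exact_mod_cast h1
      have h1 : W ⊆ (W.filter fun w => (w + t ∈ U ∨ n ≤ 2 * t) ∧ (w + t' ∈ U ∨ n ≤ 2 * t')) ∪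
          ((W.filter fun w => ¬ (w + t ∈ U ∨ n ≤ 2 * t)) ∪
            (W.filter fun w => ¬ (w + t' ∈ U ∨ n ≤ 2 * t'))) := by
        intro w hw
        by_cases h1 : w + t ∈ U ∨ n ≤ 2 * t
        · by_cases h2 : w + t' ∈ U ∨ n ≤ 2 * t'
          · exact Finset.mem_union_left _ (Finset.mem_filter.2 ⟨hw, h1, h2⟩)
          · exact Finset.mem_union_right _ (Finset.mem_union_right _
              (Finset.mem_filter.2 ⟨hw, h2⟩))
        · exact Finset.mem_union_right _ (Finset.mem_union_left _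
            (Finset.mem_filter.2 ⟨hw, h1⟩))
      have h2 : (W.card : ℝ) ≤
          ((W.filter fun w => (w + t ∈ U ∨ n ≤ 2 * t) ∧ (w + t' ∈ U ∨ n ≤ 2 * t')).card : ℝ) +
          (((W.filter fun w => ¬ (w + t ∈ U ∨ n ≤ 2 * t)).card : ℝ) +
            ((W.filter fun w => ¬ (w + t' ∈ U ∨ n ≤ 2 * t')).card : ℝ)) := by
        have h3 := (Finset.card_le_card h1).trans (Finset.card_union_le _ _)
        have h4 := Finset.card_union_le (W.filter fun w => ¬ (w + t ∈ U ∨ n ≤ 2 * t))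
          (W.filter fun w => ¬ (w + t' ∈ U ∨ n ≤ 2 * t'))
        have h5 := h3.trans (Nat.add_le_add_left h4 _)
        exact_mod_cast h5
      exact ar8_h27 _ _ _ _ _ _ h2 (hbadt t ht) (hbadt t' ht') hζ02 hnR hWc
    have hsum : 1 / (10240 * n ^ 2) * ∑ w ∈ W, ∑ x ∈ X, ∑ y ∈ Y.filter (fun y => x + y ∈ U ∧
        ((1 : ℕ) = 1 → w + y ∈ U)), |b y + b (x + y) + ((1 : ℕ) : ℝ) * b (w + y) - g x w| ≤
        ∑ x ∈ Y, ∑ w ∈ insert 0 Y, Rt x w := by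
      rw [Finset.sum_comm (s := Y)]
      refine le_trans ?_ (Finset.sum_le_sum_of_subset_of_nonneg
        (hWY.trans (Finset.subset_insert 0 Y)) fun w _ _ => Finset.sum_nonneg fun x _ => hRtnn x w)
      rw [Finset.mul_sum]
      refine Finset.sum_le_sum fun w hw => ?_
      refine le_trans ?_ (Finset.sum_le_sum_of_subset_of_nonneg hXY fun x _ _ => hRtnn x w)
      rw [Finset.mul_sum]
      exact Finset.sum_le_sum fun x hx => hxw w hw x hx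
    refine le_trans ?_ hsum
    set Q := ∑ w ∈ W, ∑ x ∈ X, ∑ y ∈ Y.filter (fun y => x + y ∈ U ∧
        ((1 : ℕ) = 1 → w + y ∈ U)), |b y + b (x + y) + ((1 : ℕ) : ℝ) * b (w + y) - g x w| with hQ
    refine ar9_h27 n Q _ C _ _ hnpos hC (Finset.sum_nonneg fun _ _ => Finset.sum_nonneg fun _ _ =>
      Finset.sum_nonneg fun _ _ => abs_nonneg _) hnD hleft ?_
    rw [hQ, Finset.mul_sum]
    exact Finset.sum_le_sum hpw

theorem gain : ∃ e0 : ℝ, 0 < e0 ∧ ∃ ζ0 : ℝ, 0 < ζ0 ∧ ∃ n₀ : ℕ, ∀ (n : ℕ) (U Y : Finset ℕ)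
    (B t : ℝ) (k : ℕ → ℕ → ℝ) (π : ℕ → ℝ) (p u : ℕ → ℕ) (e : ℕ) (T : Finset ℕ)
    (P ex F Bd : ℕ → Finset ℕ) (L : ℕ → FL), n₀ ≤ n → KS n U Y B t k π →
    ((Icc 1 (2 * n - 1) \ U).card : ℝ) ≤ ζ0 * n →
    (∀ τ ∈ T, FlP p u e (P τ) (ex τ) (F τ) τ) → (∀ τ ∈ T, ∀ ω, 0 ≤ (L τ).wt ω) →
    (∀ τ ∈ T, ((Bd τ).card : ℝ) ≤ ζ0 * n) →
    (e = 0 → ∀ τ ∈ T, ∀ v ∈ F τ, ∀ x ∈ Y, x ∉ Bd τ → 4 * x ≤ 7 * n →
        1 / (40 * n) ≤ (L τ).Pr (fun φ => φ (p v) = x)) →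
    (e = 1 → ∀ τ ∈ T, ∀ v ∈ F τ, ∀ x ∈ Y, x ∉ Bd τ → 4 * x ≤ 7 * n → ∀ w ∈ Y, w ∉ Bd τ →
        1 / (40 * n) * k2 Y k x w ≤ (L τ).Pr (fun φ => φ (p v) = x ∧ φ (u v) = w)) →
    (n : ℝ) / 16 ≤ ∑ τ ∈ T, ((F τ).card : ℝ) →
    ∀ (b : ℕ → ℝ) (g : ℕ → ℕ → ℝ) (β : ℝ), β = (∑ t ∈ U, b t) / U.card →
      e0 * ∑ t ∈ U, |b t - β| ≤ ∑ x ∈ Y, ∑ w ∈ insert 0 Y,
        mF p u e T F L x w * ∑ y ∈ Y, hh e Y k x w y * |∑ t ∈ U, b t * AA e x w y t - g x w| := by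
  obtain ⟨C, hC, ζ, hζ, n₀, hP⟩ := poincare
  have h1 : 0 < 1 / (300000 * C) := one_div_pos.2 (mul_pos (by norm_num) hC)
  have h2 : 0 < min (ζ / 5) (1 / 1000) := lt_min (div_pos hζ (by norm_num)) (by norm_num)
  exact ⟨1 / (300000 * C), h1, min (ζ / 5) (1 / 1000), h2, max n₀ 100,
    gain_aux_h27 C ζ n₀ hC hζ hP⟩

end Pool.Agent.SQ
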