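import Pool.Agent.Helper73.SQ.LL1
import Pool.Agent.Helper73.SQ.LL2
import Pool.Agent.Helper73.SQ.LE1
import Pool.Agent.Helper73.SQ.LE2
import Pool.Agent.Helper73.SQ.FA
import Pool.Agent.Helper73.SQ.LPQ
import Pool.Agent.Helper73.SEM.LW1

/-!
# SQ-LL3: random labellings of all the pieces with loads at most one

Proof in words.  `gain` gives `e0, ζ0`; `kernel_exists` with `t = min (e0/4) 1` gives `B, κ, ζ`; `skeleton B` gives `B1, C`; `piece_est B B1` gives `C'`.  `τ0` small: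
`τ0 ≤ ζ, ζ0, κ`, `C τ0 ≤ min (1/10) ζ0`, `C' C τ0 ≤ 1/100`, `3 C' C τ0 ≤ e0/4`, `200 τ0 ≤ e0/4`.  For `τ ∈ T` with `c = lab (p τ)` or `c = lab r` (`r ∈ ex τ`): `c ≤ κ n`
and `y ≤ (2-κ) n - 1` for `y ∈ Y`, so `c + y ≤ 2n - 1` and `c + y ∉ U` for at most `τ0 n` of the `y ∈ Y`.  `skeleton` gives `L0 τ` (choice), `piece_est` all the estimates with
`η = C' C τ0`.  `load_est` with `a = 2 τ0 n`: total load `1 ± e0` on `U`; its sum over `U` is at most `∑ |P τ| + ∑ |P τ ∪ ex τ| = |U|`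
(all labels and sums are in `U`; use total mass one, `hh` sums to one on the realised configurations: `e = 0`: `KS.one`; `e = 1`: `k2 > 0` by `KS.room`, `KS.low`).
`lp_exact` with `ι = {z // z ∈ Y ×ˢ insert 0 Y}`, `m = mF`, `h = hh`, `A = AA`, `t1 = e0` and `gain` give `q ≤ 2 hh`, `∑_y q = ∑_y hh` with loads at most one.
`hh ≤ 4 B³ / n`; `flex_add` with this `q` (`M = max B1 (8 B³)`) gives `L τ`; the loads of `L τ` are `bS + ∑ mF ∑ q AA`
(vertices and edges of the skeleton: unchanged expectations; flexible: triple law; the edges `i` with `p i ∈ F τ` are the `u v`, `v ∈ F τ`).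
-/

set_option autoImplicit false

namespace Pool.Agent.SQ

open Finset Pool.Agent.SEM

section aux74

private theorem Pr_eq74 (L : FL) (P : (ℕ → ℕ) → Prop) [DecidablePred P] :
    L.Pr P = L.Ex fun φ => if P φ then 1 else 0 := by
  unfold FL.Pr
  congr 1
  funext φ
  congr

private theorem ex_pair74 (L : FL) (C D : Finset ℕ) (f g : (ℕ → ℕ) → ℕ)
    (h : ∀ ω, L.wt ω ≠ 0 → f (L.Φ ω) ∈ C ∧ g (L.Φ ω) ∈ D) (G : ℕ → ℕ → ℝ) :
    L.Ex (fun φ => G (f φ) (g φ)) =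
      ∑ x ∈ C, ∑ w ∈ D, L.Pr (fun φ => f φ = x ∧ g φ = w) * G x w := by
  have h1 : ∀ x ∈ C, ∑ w ∈ D, L.Pr (fun φ => f φ = x ∧ g φ = w) * G x w =
      L.Ex (fun φ => ∑ w ∈ D, (if f φ = x ∧ g φ = w then (1 : ℝ) else 0) * G x w) := by
    intro x _
    rw [FL.Ex_sum38]
    refine Finset.sum_congr rfl fun w _ => ?_
    rw [Pr_eq74, ← FL.Ex_mul38]
  rw [Finset.sum_congr rfl h1, ← FL.Ex_sum38]
  refine L.Ex_congr38 fun ω hω => ?_
  obtain ⟨hf, hg⟩ := h ω hω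
  rw [Finset.sum_eq_single_of_mem (f (L.Φ ω)) hf, Finset.sum_eq_single_of_mem (g (L.Φ ω)) hg]
  · simp
  · intro b _ hb
    rw [if_neg (fun hc => hb hc.2.symm), zero_mul]
  · intro b _ hb
    refine Finset.sum_eq_zero fun w _ => ?_
    rw [if_neg (fun hc => hb hc.1.symm), zero_mul]

private theorem mF_sum74 {p u : ℕ → ℕ} {e : ℕ} {T Y : Finset ℕ} {F : ℕ → Finset ℕ} {L : ℕ → FL}
    (h : ∀ τ ∈ T, ∀ v ∈ F τ, ∀ ω, (L τ).wt ω ≠ 0 →
      (L τ).Φ ω (p v) ∈ Y ∧ cw e u ((L τ).Φ ω) v ∈ insert 0 Y) (G : ℕ → ℕ → ℝ) :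
    ∑ τ ∈ T, ∑ v ∈ F τ, (L τ).Ex (fun φ => G (φ (p v)) (cw e u φ v)) =
      ∑ x ∈ Y, ∑ w ∈ insert 0 Y, mF p u e T F L x w * G x w := by
  have h1 : ∀ τ ∈ T, ∀ v ∈ F τ, (L τ).Ex (fun φ => G (φ (p v)) (cw e u φ v)) =
      ∑ x ∈ Y, ∑ w ∈ insert 0 Y,
        (L τ).Pr (fun φ => φ (p v) = x ∧ cw e u φ v = w) * G x w := by
    intro τ hτ v hv
    exact ex_pair74 (L τ) Y (insert 0 Y) (fun φ => φ (p v)) (fun φ => cw e u φ v) (h τ hτ v hv) G
  rw [Finset.sum_congr rfl fun τ hτ => Finset.sum_congr rfl fun v hv => h1 τ hτ v hv]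
  unfold mF
  simp_rw [Finset.sum_mul]
  have h2 : ∀ τ ∈ T, ∑ v ∈ F τ, ∑ x ∈ Y, ∑ w ∈ insert 0 Y,
      (L τ).Pr (fun φ => φ (p v) = x ∧ cw e u φ v = w) * G x w =
      ∑ x ∈ Y, ∑ w ∈ insert 0 Y, ∑ v ∈ F τ,
        (L τ).Pr (fun φ => φ (p v) = x ∧ cw e u φ v = w) * G x w := by
    intro τ _
    rw [Finset.sum_comm]
    refine Finset.sum_congr rfl fun x _ => ?_
    rw [Finset.sum_comm]
  rw [Finset.sum_congr rfl h2, Finset.sum_comm]
  refine Finset.sum_congr rfl fun x _ => ?_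
  rw [Finset.sum_comm]

private theorem edges74 {p u : ℕ → ℕ} {e : ℕ} {R P ex F : Finset ℕ} {τ : ℕ}
    (hG : Geo p R P ex τ) (hF : FlP p u e P ex F τ) (g : ℕ → ℝ) :
    ∑ i ∈ P ∪ ex, g i = ∑ i ∈ ((P \ F) ∪ ex).filter (fun i => p i ∉ F), g i + ∑ v ∈ F, g v +
      (if e = 1 then ∑ v ∈ F, g (u v) else 0) := by
  classical
  have hexF : Disjoint ex F := by
    rw [Finset.disjoint_left]
    intro r hr hrF
    exact Finset.disjoint_left.1 hG.PR (hF.sub hrF) (hG.exR hr)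
  have h1 : P ∪ ex = ((P \ F) ∪ ex) ∪ F := by
    ext i
    simp only [Finset.mem_union, Finset.mem_sdiff]
    constructor
    · rintro (h | h)
      · by_cases hi : i ∈ F
        · exact Or.inr hi
        · exact Or.inl (Or.inl ⟨h, hi⟩)
      · exact Or.inl (Or.inr h)
    · rintro ((h | h) | h)
      · exact Or.inl h.1
      · exact Or.inr h
      · exact Or.inl (hF.sub h)
  have h2 : Disjoint ((P \ F) ∪ ex) F := by
    rw [Finset.disjoint_union_left]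
    exact ⟨Finset.sdiff_disjoint, hexF⟩
  rw [h1, Finset.sum_union h2]
  rw [← Finset.sum_filter_add_sum_filter_not ((P \ F) ∪ ex) (fun i => p i ∉ F) g]
  have h3 : ∑ i ∈ ((P \ F) ∪ ex).filter (fun i => ¬ p i ∉ F), g i =
      (if e = 1 then ∑ v ∈ F, g (u v) else 0) := by
    by_cases he : e = 1
    · rw [if_pos he]
      have h4 : ((P \ F) ∪ ex).filter (fun i => ¬ p i ∉ F) = F.image u := by
        ext i
        simp only [Finset.mem_filter, Finset.mem_union, Finset.mem_sdiff, not_not,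
          Finset.mem_image]
        constructor
        · rintro ⟨h | h, hp⟩
          · exact ⟨p i, hp, (hF.chu i h.1 hp).symm⟩
          · exact absurd hp (hF.exF i h)
        · rintro ⟨v, hv, rfl⟩
          obtain ⟨a, b, c⟩ := hF.ch1 he v hv
          exact ⟨Or.inl ⟨a, b⟩, by rw [c]; exact hv⟩
      rw [h4, Finset.sum_image]
      intro v hv w hw hvw
      have a := (hF.ch1 he v hv).2.2
      have b := (hF.ch1 he w hw).2.2
      rw [← a, ← b, hvw]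
    · rw [if_neg he]
      refine Finset.sum_eq_zero fun i hi => ?_
      exfalso
      simp only [Finset.mem_filter, Finset.mem_union, Finset.mem_sdiff, not_not] at hi
      have he0 : e = 0 := by have := hF.e1; omega
      rcases hi.1 with h | h
      · exact hF.ch0 he0 i h.1 hi.2
      · exact hF.exF i h hi.2
  rw [h3]; ring

private theorem sum_Pr74 (L : FL) (hnn : ∀ ω, 0 ≤ L.wt ω) (hone : L.Ex (fun _ => 1) = 1)
    (U : Finset ℕ) (f : (ℕ → ℕ) → ℕ) : ∑ s ∈ U, L.Pr (fun φ => f φ = s) ≤ 1 := by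
  have h1 : ∑ s ∈ U, L.Pr (fun φ => f φ = s) =
      L.Ex (fun φ => ∑ s ∈ U, if f φ = s then (1 : ℝ) else 0) := by
    rw [FL.Ex_sum38]
    exact Finset.sum_congr rfl fun s _ => Pr_eq74 L _
  rw [h1]
  refine le_trans (L.Ex_mono38 hnn (G := fun _ => 1) fun ω _ => ?_) hone.le
  rw [Finset.sum_ite_eq]
  split_ifs <;> norm_num

private theorem sum_AA74 (e x w y : ℕ) (U : Finset ℕ) :
    ∑ s ∈ U, AA e x w y s ≤ 2 + if e = 1 then 1 else 0 := by
  have h0 : ∀ z : ℕ, ∑ s ∈ U, (if z = s then (1 : ℝ) else 0) ≤ 1 := by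
    intro z
    rw [Finset.sum_ite_eq]
    split_ifs <;> norm_num
  unfold AA
  rw [Finset.sum_add_distrib, Finset.sum_add_distrib]
  have h1 : ∑ s ∈ U, (if e = 1 ∧ w + y = s then (1 : ℝ) else 0) ≤ if e = 1 then 1 else 0 := by
    by_cases he : e = 1
    · rw [if_pos he]
      refine le_trans (Finset.sum_le_sum fun s _ => ?_) (h0 (w + y))
      by_cases h : w + y = s
      · rw [if_pos h, if_pos ⟨he, h⟩]
      · rw [if_neg h, if_neg (fun hc => h hc.2)]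
    · rw [if_neg he]
      refine le_of_eq (Finset.sum_eq_zero fun s _ => ?_)
      rw [if_neg (fun hc => he hc.1)]
  have := h0 y
  have := h0 (x + y)
  linarith

private theorem AA_nonneg74 (e x w y s : ℕ) : 0 ≤ AA e x w y s := by
  unfold AA
  split_ifs <;> norm_num

variable {n : ℕ} {U Y : Finset ℕ} {B t : ℝ} {k : ℕ → ℕ → ℝ} {π : ℕ → ℝ}

private theorem k2_nonneg74 (hk : KS n U Y B t k π) (x w : ℕ) : 0 ≤ k2 Y k x w :=
  Finset.sum_nonneg fun y _ => mul_nonneg (hk.nn _ _) (hk.nn _ _)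

private theorem hh_nonneg74 (hk : KS n U Y B t k π) (e x w y : ℕ) : 0 ≤ hh e Y k x w y := by
  unfold hh
  split_ifs
  · exact hk.nn _ _
  · exact div_nonneg (mul_nonneg (hk.nn _ _) (hk.nn _ _)) (k2_nonneg74 hk _ _)

private theorem hh_sum_le74 (hk : KS n U Y B t k π) (e : ℕ) {x : ℕ} (hx : x ∈ Y) (w : ℕ) :
    ∑ y ∈ Y, hh e Y k x w y ≤ 1 := by
  unfold hh
  by_cases he : e = 0
  · simp only [if_pos he]
    exact (hk.one x hx).le
  · simp only [if_neg he]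
    rw [← Finset.sum_div]
    exact div_self_le_one _

private theorem k2_low74 (hk : KS n U Y B t k π) (hn : 1 ≤ n) (hB : 1 ≤ B) {x w : ℕ} (hx : x ∈ Y)
    (hw : w ∈ Y) : 1 / (4 * B * n) ≤ k2 Y k x w := by
  have hn' : (0 : ℝ) < n := by exact_mod_cast hn
  have hroom := hk.room x hx w hw
  unfold k2
  calc 1 / (4 * B * n) = (n / B) * (1 / (2 * n) * (1 / (2 * n))) := by field_simp; norm_num
    _ ≤ ((Y.filter fun y => x + y ∈ U ∧ w + y ∈ U).card : ℝ) *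
        (1 / (2 * n) * (1 / (2 * n))) := by gcongr
    _ = ∑ y ∈ Y.filter fun y => x + y ∈ U ∧ w + y ∈ U, (1 / (2 * n) * (1 / (2 * n)) : ℝ) := by
        rw [Finset.sum_const, nsmul_eq_mul]
    _ ≤ ∑ y ∈ Y.filter fun y => x + y ∈ U ∧ w + y ∈ U, k x y * k y w := by
        refine Finset.sum_le_sum fun y hy => ?_
        rw [Finset.mem_filter] at hy
        have h1 := hk.low x hx y hy.1 hy.2.1
        have h2 := hk.low y hy.1 w hw (by rw [add_comm]; exact hy.2.2)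
        exact mul_le_mul h1 h2 (by positivity) (hk.nn _ _)
    _ ≤ ∑ y ∈ Y, k x y * k y w :=
        Finset.sum_le_sum_of_subset_of_nonneg (Finset.filter_subset _ _)
          fun y _ _ => mul_nonneg (hk.nn _ _) (hk.nn _ _)

private theorem hh_sum_one74 (hk : KS n U Y B t k π) (hn : 1 ≤ n) (hB : 1 ≤ B) {e x w : ℕ}
    (hx : x ∈ Y) (hw : e ≠ 0 → w ∈ Y) : ∑ y ∈ Y, hh e Y k x w y = 1 := by
  unfold hh
  by_cases he : e = 0
  · simp only [if_pos he]
    exact hk.one x hx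
  · simp only [if_neg he]
    have hn' : (0 : ℝ) < n := by exact_mod_cast hn
    have h1 := k2_low74 hk hn hB hx (hw he)
    have h2 : (0 : ℝ) < 1 / (4 * B * n) := by positivity
    rw [← Finset.sum_div]
    exact div_self (ne_of_gt (lt_of_lt_of_le h2 h1))

private theorem hh_supp74 (hk : KS n U Y B t k π) {e x w y : ℕ} (h : hh e Y k x w y ≠ 0) :
    y ∈ Y ∧ x + y ∈ U ∧ (e = 1 → w + y ∈ U) := by
  unfold hh at h
  by_cases he : e = 0
  · rw [if_pos he] at h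
    have h1 := hk.supp _ _ h
    exact ⟨h1.1, h1.2, fun hc => absurd hc (by omega)⟩
  · rw [if_neg he] at h
    have h2 : k x y * k y w ≠ 0 := fun hc => h (by rw [hc, zero_div])
    have h3 := hk.supp _ _ (left_ne_zero_of_mul h2)
    have h4 := hk.supp _ _ (right_ne_zero_of_mul h2)
    exact ⟨h3.1, h3.2, fun _ => by rw [add_comm]; exact h4.2⟩

private theorem hh_le74 (hk : KS n U Y B t k π) (hn : 1 ≤ n) (hB : 1 ≤ B) {e x w y : ℕ}
    (hx : x ∈ Y) (hy : y ∈ Y) (hw : e ≠ 0 → w ∈ Y) : 2 * hh e Y k x w y ≤ 8 * B ^ 3 / n := by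
  have hn' : (0 : ℝ) < n := by exact_mod_cast hn
  unfold hh
  by_cases he : e = 0
  · rw [if_pos he]
    have h1 := hk.up x hx y
    calc 2 * k x y ≤ 2 * (B / n) := by gcongr
      _ = 2 * B / n := by ring
      _ ≤ 8 * B ^ 3 / n := by
        have hB3 : B ≤ B ^ 3 := le_self_pow₀ hB (by norm_num)
        exact div_le_div_of_nonneg_right (by linarith) hn'.le
  · rw [if_neg he]
    have h1 := k2_low74 hk hn hB hx (hw he)
    have h2 : (0 : ℝ) < 1 / (4 * B * n) := by positivity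
    have h3 := hk.up x hx y
    have h4 := hk.up y hy w
    have h5 : k x y * k y w ≤ (B / n) * (B / n) :=
      mul_le_mul h3 h4 (hk.nn _ _) (by positivity)
    have h6 : k x y * k y w / k2 Y k x w ≤ (B / n) * (B / n) / (1 / (4 * B * n)) :=
      div_le_div₀ (by positivity) h5 h2 h1
    calc 2 * (k x y * k y w / k2 Y k x w) ≤ 2 * ((B / n) * (B / n) / (1 / (4 * B * n))) := by
          gcongr
      _ = 8 * B ^ 3 / n := by field_simp; norm_num

private theorem bad_card74 {n : ℕ} {Y U : Finset ℕ} {c : ℕ} {κ τ0 : ℝ} (hUI : U ⊆ Icc 1 (2 * n - 1))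
    (hYκ : ∀ y ∈ Y, (y : ℝ) ≤ (2 - κ) * n - 1) (hc : 1 ≤ c) (hcτ : (c : ℝ) ≤ κ * n)
    (hUc : ((Icc 1 (2 * n - 1) \ U).card : ℝ) ≤ τ0 * n) :
    ((Y.filter fun y => c + y ∉ U).card : ℝ) ≤ τ0 * n := by
  refine le_trans ?_ hUc
  have h1 : (Y.filter fun y => c + y ∉ U).card ≤ (Icc 1 (2 * n - 1) \ U).card := by
    refine Finset.card_le_card_of_injOn (fun y => c + y) ?_ ?_
    · intro y hy
      rw [Finset.mem_coe, Finset.mem_filter] at hy
      rw [Finset.mem_coe, Finset.mem_sdiff, Finset.mem_Icc]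
      change (1 ≤ c + y ∧ c + y ≤ 2 * n - 1) ∧ c + y ∉ U
      refine ⟨⟨by omega, ?_⟩, hy.2⟩
      have h2 := hYκ y hy.1
      have h3 : ((c + y : ℕ) : ℝ) + 1 ≤ 2 * n := by
        push_cast
        nlinarith
      have h4 : c + y + 1 ≤ 2 * n := by exact_mod_cast h3
      omega
    · intro a _ b _ hab
      simpa using hab
  exact_mod_cast h1

end aux74

theorem laws : ∃ τ0 : ℝ, 0 < τ0 ∧ ∃ B : ℝ, 1 ≤ B ∧ ∃ n0 : ℕ, ∀ (n : ℕ) (p lab u : ℕ → ℕ) (e : ℕ)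
    (R A U T : Finset ℕ) (P ex F : ℕ → Finset ℕ), n0 ≤ n → e ≤ 1 →
    U ⊆ Icc 1 (2 * n - 1) → ((Icc 1 (2 * n - 1) \ U).card : ℝ) ≤ τ0 * n →
    (∀ τ ∈ T, Geo p R (P τ) (ex τ) τ) → (∀ τ ∈ T, FlP p u e (P τ) (ex τ) (F τ) τ) →
    (∀ τ ∈ T, p τ ∈ A ∧ ex τ ⊆ A) → (∀ r ∈ A, 1 ≤ lab r ∧ (lab r : ℝ) ≤ τ0 * n) →
    ((n : ℝ) - τ0 * n ≤ ∑ τ ∈ T, ((P τ).card : ℝ)) → (∑ τ ∈ T, ((P τ).card : ℝ) ≤ n) →
    ((n : ℝ) - τ0 * n ≤ ∑ τ ∈ T, ((P τ ∪ ex τ).card : ℝ)) →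
    (∑ τ ∈ T, ((P τ ∪ ex τ).card : ℝ) ≤ n) →
    (∑ τ ∈ T, (P τ).card + ∑ τ ∈ T, (P τ ∪ ex τ).card = U.card) →
    ((T.card : ℝ) ≤ τ0 * n) → (∑ τ ∈ T, ((ex τ).card : ℝ) ≤ τ0 * n) →
    ((n : ℝ) / 16 ≤ ∑ τ ∈ T, ((F τ).card : ℝ)) →
    ∃ (Y : Finset ℕ) (L : ℕ → FL), Y ⊆ U ∧ (∀ τ ∈ T, PLs n p lab Y U (P τ) (ex τ) B (L τ)) ∧
      ∀ s ∈ U, ∑ τ ∈ T, (∑ v ∈ P τ, (L τ).Pr (fun φ => φ v = s) +
        ∑ i ∈ P τ ∪ ex τ, (L τ).Pr (fun φ => φ i + φ (p i) = s)) ≤ 1 := by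
  obtain ⟨e0, he0, ζ0, hζ0, n1, hgain⟩ := gain
  obtain ⟨t, ht⟩ : ∃ t : ℝ, t = min (e0 / 4) 1 := ⟨_, rfl⟩
  have ht0 : 0 < t := by rw [ht]; exact lt_min (by linarith) one_pos
  have ht1 : t ≤ 1 := by rw [ht]; exact min_le_right _ _
  have hte : t ≤ e0 / 4 := by rw [ht]; exact min_le_left _ _
  obtain ⟨B, hB, κ, hκ, ζ, hζ, hζt, n2, hker⟩ := kernel_exists t ht0
  obtain ⟨B1, hB1, C, hC, hskel⟩ := skeleton B hB
  obtain ⟨C', hC', hest⟩ := piece_est B B1 hB hB1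
  obtain ⟨τ0, hτ0, hτζ, hτζ0, hτκ, hτC, hτCζ, hτC', hτC'e, hτe, hτ2⟩ : ∃ τ0 : ℝ, 0 < τ0 ∧
      τ0 ≤ ζ ∧ τ0 ≤ ζ0 ∧ τ0 ≤ κ ∧ C * τ0 ≤ 1 / 10 ∧ C * τ0 ≤ ζ0 ∧ C' * (C * τ0) ≤ 1 / 100 ∧
      3 * (C' * (C * τ0)) ≤ e0 / 4 ∧ 50 * τ0 ≤ e0 / 4 ∧ τ0 ≤ 1 / 2 := by
    have hpos : ∀ a b : ℝ, 0 < a → 0 < b → 0 < b / a := fun a b ha hb => div_pos hb ha
    obtain ⟨m, hm⟩ : ∃ m : ℝ, m = min ζ (min ζ0 (min κ (min (1 / 10 / C) (min (ζ0 / C)
      (min (1 / 100 / (C' * C)) (min (e0 / 4 / (3 * (C' * C))) (min (e0 / 4 / 50) (1 / 2)))))))) :=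
      ⟨_, rfl⟩
    have hm0 : 0 < m := by
      rw [hm]
      refine lt_min hζ (lt_min hζ0 (lt_min hκ (lt_min (by positivity) (lt_min (by positivity)
        (lt_min (by positivity) (lt_min (by positivity) (lt_min (by positivity)
          (by norm_num))))))))
    have hm1 := le_of_eq hm
    simp only [le_min_iff] at hm1
    obtain ⟨a1, a2, a3, a4, a5, a6, a7, a8, a9⟩ := hm1
    refine ⟨m, hm0, a1, a2, a3, ?_, ?_, ?_, ?_, ?_, a9⟩
    · rw [le_div_iff₀ hC] at a4; linarith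
    · rw [le_div_iff₀ hC] at a5; linarith
    · rw [le_div_iff₀ (by positivity)] at a6; linarith
    · rw [le_div_iff₀ (by positivity)] at a7; linarith
    · rw [le_div_iff₀ (by norm_num)] at a8; linarith
  refine ⟨τ0, hτ0, max B1 (8 * B ^ 3), le_max_of_le_left hB1, max n1 (max n2 1), ?_⟩
  intro n p lab u e R A U T P ex F hn he hUI hUc hG hF hA hlab hV hV' hE hE' hcard hT hX hFl
  have hn1 : n1 ≤ n := (le_max_left _ _).trans hn
  have hn2 : n2 ≤ n := ((le_max_left _ _).trans (le_max_right _ _)).trans hn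
  have hn3 : 1 ≤ n := ((le_max_right _ _).trans (le_max_right _ _)).trans hn
  have hn' : (0 : ℝ) < n := by exact_mod_cast hn3
  have hn4 : (1 : ℝ) ≤ n := by exact_mod_cast hn3
  obtain ⟨Y, k, π, hk, hYκ⟩ := hker n U hn2 hUI (hUc.trans (by gcongr))
  have hsk : ∀ τ, ∃ (Bd : Finset ℕ) (ρ : ℕ → ℝ) (Kv : ℕ → ℕ → ℕ → ℝ) (L : FL), τ ∈ T →
      SkL n U Y k π p lab (P τ) (ex τ) (F τ) Bd τ B1 (C * τ0) ρ Kv L := by
    intro τ
    by_cases hτ : τ ∈ T
    · obtain ⟨Bd, ρ, Kv, L, h⟩ := hskel n U Y t k π p lab u e R (P τ) (ex τ) (F τ) τ τ0 hn3 hk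
        hτ0.le hτC (hG τ hτ) (hF τ hτ) (by
          intro c hc
          obtain ⟨r, hr, rfl⟩ : ∃ r ∈ A, lab r = c := by
            rw [Finset.mem_insert] at hc
            rcases hc with rfl | hc
            · exact ⟨p τ, (hA τ hτ).1, rfl⟩
            · obtain ⟨r, hr, rfl⟩ := Finset.mem_image.1 hc
              exact ⟨r, (hA τ hτ).2 hr, rfl⟩
          exact bad_card74 hUI hYκ (hlab r hr).1 ((hlab r hr).2.trans (by gcongr)) hUc)
      exact ⟨Bd, ρ, Kv, L, fun _ => h⟩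
    · exact ⟨∅, fun _ => 0, fun _ _ _ => 0, ⟨PUnit, inferInstance, fun _ => 0, fun _ _ => 0⟩,
        fun h => absurd h hτ⟩
  choose Bd ρ Kv L0 hL0 using hsk
  have hes := fun τ (hτ : τ ∈ T) => hest n U Y t k π p lab u e R (P τ) (ex τ) (F τ) (Bd τ) τ
    (C * τ0) (ρ τ) (Kv τ) (L0 τ) hn3 hk (by positivity) hτC' (hG τ hτ) (hF τ hτ) (hL0 τ hτ)
  have hload := load_est hk hn3 ht0.le ht1 p lab u e R T P ex F L0 (C' * (C * τ0)) (τ0 * n)
    (by positivity) (by positivity) hG hF (fun τ hτ => (hL0 τ hτ).nn)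
    (fun τ hτ => (hL0 τ hτ).one) (fun τ hτ => (hL0 τ hτ).off) (fun τ hτ => (hL0 τ hτ).lbl)
    (fun τ hτ => (hes τ hτ).1) (fun τ hτ => (hes τ hτ).2.1) (fun τ hτ => (hes τ hτ).2.2.1)
    (fun τ hτ => (hes τ hτ).2.2.2.1) (fun h τ hτ => (hes τ hτ).2.2.2.2.1 h)
    (fun τ hτ => (hes τ hτ).2.2.2.2.2.1) hV hV' hE hE' hT hX
  have herr : t + 3 * (C' * (C * τ0)) + 50 * (τ0 * n) / n ≤ e0 := by
    have h1 : 50 * (τ0 * n) / n = 50 * τ0 := by field_simp
    rw [h1]; linarith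
  -- labels of the neighbours of the flexible vertices
  have hpv : ∀ τ ∈ T, ∀ v ∈ F τ, p v ∈ P τ \ F τ := by
    intro τ hτ v hv
    rw [Finset.mem_sdiff]
    refine ⟨(hG τ hτ).st v ((hF τ hτ).sub hv) ?_, (hF τ hτ).par v hv⟩
    rintro rfl
    exact (hF v hτ).top hv
  have hlY : ∀ τ ∈ T, ∀ v ∈ F τ, ∀ ω, (L0 τ).wt ω ≠ 0 → (L0 τ).Φ ω (p v) ∈ Y ∧
      (e ≠ 0 → cw e u ((L0 τ).Φ ω) v ∈ Y) ∧ cw e u ((L0 τ).Φ ω) v ∈ insert 0 Y := by
    intro τ hτ v hv ω hω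
    have h1 : e ≠ 0 → cw e u ((L0 τ).Φ ω) v ∈ Y := by
      intro he0
      have he1 : e = 1 := by omega
      unfold cw
      rw [if_neg he0]
      have h2 := (hF τ hτ).ch1 he1 v hv
      exact (hL0 τ hτ).lbl ω hω _ (Finset.mem_sdiff.2 ⟨h2.1, h2.2.1⟩)
    refine ⟨(hL0 τ hτ).lbl ω hω _ (hpv τ hτ v hv), h1, ?_⟩
    by_cases he0 : e = 0
    · unfold cw
      rw [if_pos he0]
      exact Finset.mem_insert_self _ _
    · exact Finset.mem_insert_of_mem (h1 he0)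
  have hmF := fun G => mF_sum74 (p := p) (u := u) (e := e) (T := T) (Y := Y) (F := F) (L := L0)
    (fun τ hτ v hv ω hω => ⟨(hlY τ hτ v hv ω hω).1, (hlY τ hτ v hv ω hω).2.2⟩) G
  have hmF0 : ∀ x w, 0 ≤ mF p u e T F L0 x w := by
    intro x w
    unfold mF
    exact Finset.sum_nonneg fun τ hτ => Finset.sum_nonneg fun v _ =>
      (L0 τ).Pr_nonneg38 (hL0 τ hτ).nn _
  obtain ⟨c, hc⟩ : ∃ c : ℝ, c = 2 + if e = 1 then 1 else 0 := ⟨_, rfl⟩
  -- the total load is at most `|U|`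
  have htotal : ∑ s ∈ U, (bS p T P ex F L0 s + ∑ x ∈ Y, ∑ w ∈ insert 0 Y,
      mF p u e T F L0 x w * ∑ y ∈ Y, hh e Y k x w y * AA e x w y s) ≤ U.card := by
    rw [Finset.sum_add_distrib]
    have h1 : ∑ s ∈ U, bS p T P ex F L0 s ≤ ∑ τ ∈ T, (((P τ \ F τ).card : ℝ) +
        ((((P τ \ F τ) ∪ ex τ).filter (fun i => p i ∉ F τ)).card : ℝ)) := by
      unfold bS
      rw [Finset.sum_comm]
      refine Finset.sum_le_sum fun τ hτ => ?_
      rw [Finset.sum_add_distrib, Finset.sum_comm]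
      refine add_le_add ?_ ?_
      · refine (Finset.sum_le_sum fun v _ => sum_Pr74 (L0 τ) (hL0 τ hτ).nn (hL0 τ hτ).one U
          (fun φ => φ v)).trans (le_of_eq ?_)
        rw [Finset.sum_const, nsmul_eq_mul, mul_one]
      · rw [Finset.sum_comm]
        refine (Finset.sum_le_sum fun i _ => sum_Pr74 (L0 τ) (hL0 τ hτ).nn (hL0 τ hτ).one U
          (fun φ => φ i + φ (p i))).trans (le_of_eq ?_)
        rw [Finset.sum_const, nsmul_eq_mul, mul_one]
    have h2 : ∑ s ∈ U, ∑ x ∈ Y, ∑ w ∈ insert 0 Y,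
        mF p u e T F L0 x w * ∑ y ∈ Y, hh e Y k x w y * AA e x w y s ≤
        ∑ x ∈ Y, ∑ w ∈ insert 0 Y, mF p u e T F L0 x w * c := by
      rw [Finset.sum_comm]
      refine Finset.sum_le_sum fun x hx => ?_
      rw [Finset.sum_comm]
      refine Finset.sum_le_sum fun w _ => ?_
      rw [← Finset.mul_sum]
      refine mul_le_mul_of_nonneg_left ?_ (hmF0 x w)
      rw [Finset.sum_comm]
      have h3 : ∀ y ∈ Y, ∑ s ∈ U, hh e Y k x w y * AA e x w y s ≤ hh e Y k x w y * c := by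
        intro y _
        rw [← Finset.mul_sum, hc]
        exact mul_le_mul_of_nonneg_left (sum_AA74 e x w y U) (hh_nonneg74 hk e x w y)
      refine (Finset.sum_le_sum h3).trans ?_
      rw [← Finset.sum_mul]
      have h4 := hh_sum_le74 hk e hx w
      have hc0 : 0 ≤ c := by rw [hc]; split_ifs <;> norm_num
      nlinarith
    have h3 : ∑ x ∈ Y, ∑ w ∈ insert 0 Y, mF p u e T F L0 x w * c =
        ∑ τ ∈ T, ((F τ).card : ℝ) * c := by
      rw [← hmF (fun _ _ => c)]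
      refine Finset.sum_congr rfl fun τ hτ => ?_
      rw [← nsmul_eq_mul, ← Finset.sum_const]
      refine Finset.sum_congr rfl fun v _ => ?_
      have h4 := (L0 τ).Ex_mul38 c (fun _ => 1)
      rw [(hL0 τ hτ).one, one_mul] at h4
      simpa using h4
    rw [h3] at h2
    have h5 : ∑ τ ∈ T, (((P τ \ F τ).card : ℝ) +
        ((((P τ \ F τ) ∪ ex τ).filter (fun i => p i ∉ F τ)).card : ℝ)) +
        ∑ τ ∈ T, ((F τ).card : ℝ) * c = U.card := by
      rw [← Finset.sum_add_distrib]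
      have h6 : ∀ τ ∈ T, ((P τ \ F τ).card : ℝ) +
          ((((P τ \ F τ) ∪ ex τ).filter (fun i => p i ∉ F τ)).card : ℝ) +
          ((F τ).card : ℝ) * c = ((P τ).card : ℝ) + ((P τ ∪ ex τ).card : ℝ) := by
        intro τ hτ
        have h7 := edges74 (hG τ hτ) (hF τ hτ) (fun _ => (1 : ℝ))
        simp only [Finset.sum_const, nsmul_eq_mul, mul_one] at h7
        have h8 : ((P τ \ F τ).card : ℝ) + ((F τ).card : ℝ) = ((P τ).card : ℝ) := by
          rw [← Nat.cast_add, Finset.card_sdiff_add_card_eq_card (hF τ hτ).sub]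
        rw [h7, hc]
        split_ifs <;> linarith
      rw [Finset.sum_congr rfl h6, Finset.sum_add_distrib, ← hcard]
      push_cast
      ring
    linarith
  have hUne : U.Nonempty := by
    rw [Finset.nonempty_iff_ne_empty]
    rintro rfl
    rw [Finset.sdiff_empty, Nat.card_Icc] at hUc
    have h1 : (2 * n - 1 + 1 - 1 : ℕ) = 2 * n - 1 := by omega
    rw [h1, Nat.cast_sub (by omega)] at hUc
    push_cast at hUc
    nlinarith
  have hconv : ∀ G : ℕ → ℕ → ℝ,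
      ∑ i : {z : ℕ × ℕ // z ∈ Y ×ˢ insert 0 Y}, G i.1.1 i.1.2 =
        ∑ x ∈ Y, ∑ w ∈ insert 0 Y, G x w := by
    intro G
    rw [← Finset.sum_product']
    exact Finset.sum_coe_sort (Y ×ˢ insert 0 Y) (fun z => G z.1 z.2)
  obtain ⟨q, hq, hqs, hql⟩ := lp_exact (ι := {z : ℕ × ℕ // z ∈ Y ×ˢ insert 0 Y}) U Y
    (fun i => mF p u e T F L0 i.1.1 i.1.2) (fun i y => hh e Y k i.1.1 i.1.2 y)
    (fun i y s => AA e i.1.1 i.1.2 y s) (bS p T P ex F L0) e0 (fun i => hmF0 _ _)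
    (fun i y => hh_nonneg74 hk _ _ _ _) hUne he0.le
    (by
      intro s hs
      rw [hconv (fun x w => mF p u e T F L0 x w * ∑ y ∈ Y, hh e Y k x w y * AA e x w y s)]
      exact (hload s hs).trans herr)
    (by
      rw [Finset.sum_sub_distrib, Finset.sum_const, nsmul_eq_mul, mul_one]
      have h1 : ∀ s ∈ U, (bS p T P ex F L0 s +
          ∑ i : {z : ℕ × ℕ // z ∈ Y ×ˢ insert 0 Y}, mF p u e T F L0 i.1.1 i.1.2 *
            ∑ y ∈ Y, hh e Y k i.1.1 i.1.2 y * AA e i.1.1 i.1.2 y s) =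
          (bS p T P ex F L0 s + ∑ x ∈ Y, ∑ w ∈ insert 0 Y,
            mF p u e T F L0 x w * ∑ y ∈ Y, hh e Y k x w y * AA e x w y s) := by
        intro s _
        rw [hconv (fun x w => mF p u e T F L0 x w * ∑ y ∈ Y, hh e Y k x w y * AA e x w y s)]
      rw [Finset.sum_congr rfl h1]
      linarith)
    (by
      intro b g β hβ
      have h1 := hgain n U Y B t k π p u e T P ex F Bd L0 hn1 hk (hUc.trans (by gcongr)) hF
        (fun τ hτ => (hL0 τ hτ).nn) (fun τ hτ => (hL0 τ hτ).Bdc.trans (by gcongr))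
        (fun h τ hτ => (hes τ hτ).2.2.2.2.2.2.1 h) (fun h τ hτ => (hes τ hτ).2.2.2.2.2.2.2 h)
        hFl b (fun x w => if h : (x, w) ∈ Y ×ˢ insert 0 Y then g ⟨(x, w), h⟩ else 0) β hβ
      refine h1.trans (le_of_eq ?_)
      rw [← hconv (fun x w => mF p u e T F L0 x w * ∑ y ∈ Y, hh e Y k x w y *
        |∑ t ∈ U, b t * AA e x w y t -
          (if h : (x, w) ∈ Y ×ˢ insert 0 Y then g ⟨(x, w), h⟩ else 0)|)]
      refine Finset.sum_congr rfl fun i _ => ?_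
      rw [dif_pos i.2])
  obtain ⟨q', hq'⟩ : ∃ q' : ℕ → ℕ → ℕ → ℝ, q' = fun x w y =>
    if h : (x, w) ∈ Y ×ˢ insert 0 Y then (if y ∈ Y then q ⟨(x, w), h⟩ y else 0) else 0 := ⟨_, rfl⟩
  have hq'0 : ∀ x w y, 0 ≤ q' x w y := by
    intro x w y
    rw [hq']
    dsimp only
    split_ifs with h1 h2
    · exact (hq _ y h2).1
    · exact le_rfl
    · exact le_rfl
  have hq'2 : ∀ x w y, q' x w y ≤ 2 * hh e Y k x w y := by
    intro x w y
    have h0 := hh_nonneg74 hk e x w y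
    rw [hq']
    dsimp only
    split_ifs with h1 h2
    · exact (hq ⟨(x, w), h1⟩ y h2).2
    · linarith
    · linarith
  have hq'sum : ∀ x ∈ Y, ∀ w ∈ insert 0 Y, ∑ y ∈ Y, q' x w y = ∑ y ∈ Y, hh e Y k x w y := by
    intro x hx w hw
    have h1 : (x, w) ∈ Y ×ˢ insert 0 Y := Finset.mem_product.2 ⟨hx, hw⟩
    rw [← hqs ⟨(x, w), h1⟩]
    refine Finset.sum_congr rfl fun y hy => ?_
    rw [hq']
    dsimp only
    rw [dif_pos h1, if_pos hy]
  have hflex : ∀ τ, ∃ L : FL, τ ∈ T →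
      PLs n p lab Y U (P τ) (ex τ) (max B1 (8 * B ^ 3)) L ∧
      (∀ f : (ℕ → ℕ) → ℝ, (∀ φ ψ : ℕ → ℕ, (∀ i, i ∉ F τ → φ i = ψ i) → f φ = f ψ) →
        L.Ex f = (L0 τ).Ex f) ∧
      (∀ v ∈ F τ, ∀ f : ℕ → ℕ → ℕ → ℝ,
        L.Ex (fun φ => f (φ (p v)) (cw e u φ v) (φ v)) =
          (L0 τ).Ex (fun φ => ∑ y ∈ Y, q' (φ (p v)) (cw e u φ v) y *
            f (φ (p v)) (cw e u φ v) y)) := by
    intro τ
    by_cases hτ : τ ∈ T
    · obtain ⟨L, hL⟩ := flex_add p lab u e R (P τ) (ex τ) (F τ) τ hn3 (hG τ hτ) (hF τ hτ) B1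
        (max B1 (8 * B ^ 3)) (by linarith) (le_max_left _ _) (L0 τ) (hL0 τ hτ).nn
        (hL0 τ hτ).one (hL0 τ hτ).off (hL0 τ hτ).lbl (hL0 τ hτ).sm (hL0 τ hτ).joint q' hq'0
        (by
          intro ω hω v hv
          obtain ⟨a1, a2, a3⟩ := hlY τ hτ v hv ω hω
          rw [hq'sum _ a1 _ a3]
          exact hh_sum_one74 hk hn3 hB a1 a2)
        (by
          intro x w y hne
          have h1 : hh e Y k x w y ≠ 0 := by
            intro h0
            have h2 := hq'2 x w y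
            rw [h0, mul_zero] at h2
            exact hne (le_antisymm h2 (hq'0 x w y))
          exact hh_supp74 hk h1)
        (by
          intro ω hω v hv y
          obtain ⟨a1, a2, a3⟩ := hlY τ hτ v hv ω hω
          by_cases hy : y ∈ Y
          · refine (hq'2 _ _ y).trans ((hh_le74 hk hn3 hB a1 hy a2).trans ?_)
            gcongr
            exact le_max_right _ _
          · rw [hq']
            dsimp only
            have : (0 : ℝ) ≤ max B1 (8 * B ^ 3) / n :=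
              div_nonneg (le_max_of_le_left (by linarith)) hn'.le
            split_ifs <;> exact this)
      exact ⟨L, fun _ => hL⟩
    · exact ⟨⟨PUnit, inferInstance, fun _ => 0, fun _ _ => 0⟩, fun h => absurd h hτ⟩
  choose L hL using hflex
  refine ⟨Y, L, hk.YU, fun τ hτ => (hL τ hτ).1, ?_⟩
  intro s hs
  refine le_trans (le_of_eq ?_) (hql s hs)
  have key : ∀ τ ∈ T, (∑ v ∈ P τ, (L τ).Pr (fun φ => φ v = s) +
      ∑ i ∈ P τ ∪ ex τ, (L τ).Pr (fun φ => φ i + φ (p i) = s)) =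
      (∑ v ∈ P τ \ F τ, (L0 τ).Pr (fun φ => φ v = s) +
        ∑ i ∈ ((P τ \ F τ) ∪ ex τ).filter (fun i => p i ∉ F τ),
          (L0 τ).Pr (fun φ => φ i + φ (p i) = s)) +
      ∑ v ∈ F τ, (L0 τ).Ex (fun φ => ∑ y ∈ Y, q' (φ (p v)) (cw e u φ v) y *
        AA e (φ (p v)) (cw e u φ v) y s) := by
    intro τ hτ
    obtain ⟨_, hold, hnew⟩ := hL τ hτ
    have hexF : ∀ i ∈ (P τ \ F τ) ∪ ex τ, i ∉ F τ := by
      intro i hi hiF
      rcases Finset.mem_union.1 hi with h | h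
      · exact (Finset.mem_sdiff.1 h).2 hiF
      · exact Finset.disjoint_left.1 (hG τ hτ).PR ((hF τ hτ).sub hiF) ((hG τ hτ).exR h)
    rw [edges74 (hG τ hτ) (hF τ hτ), ← Finset.sum_sdiff (hF τ hτ).sub]
    have h1 : ∑ v ∈ P τ \ F τ, (L τ).Pr (fun φ => φ v = s) =
        ∑ v ∈ P τ \ F τ, (L0 τ).Pr (fun φ => φ v = s) := by
      refine Finset.sum_congr rfl fun v hv => ?_
      unfold FL.Pr
      refine hold _ fun φ ψ h => ?_
      beta_reduce
      rw [h v (Finset.mem_sdiff.1 hv).2]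
    have h2 : ∑ i ∈ ((P τ \ F τ) ∪ ex τ).filter (fun i => p i ∉ F τ),
        (L τ).Pr (fun φ => φ i + φ (p i) = s) =
        ∑ i ∈ ((P τ \ F τ) ∪ ex τ).filter (fun i => p i ∉ F τ),
          (L0 τ).Pr (fun φ => φ i + φ (p i) = s) := by
      refine Finset.sum_congr rfl fun i hi => ?_
      rw [Finset.mem_filter] at hi
      unfold FL.Pr
      refine hold _ fun φ ψ h => ?_
      beta_reduce
      rw [h i (hexF i hi.1), h (p i) hi.2]
    have h3 : ∀ v ∈ F τ, (L τ).Pr (fun φ => φ v = s) + (L τ).Pr (fun φ => φ v + φ (p v) = s) +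
        (if e = 1 then (L τ).Pr (fun φ => φ (u v) + φ (p (u v)) = s) else 0) =
        (L0 τ).Ex (fun φ => ∑ y ∈ Y, q' (φ (p v)) (cw e u φ v) y *
          AA e (φ (p v)) (cw e u φ v) y s) := by
      intro v hv
      rw [← hnew v hv (fun x w y => AA e x w y s)]
      unfold AA
      rw [FL.Ex_add38, FL.Ex_add38]
      congr 1
      · congr 1
        · exact Pr_eq74 (L τ) _
        · rw [Pr_eq74]
          refine (L τ).Ex_congr38 fun ω _ => ?_
          rw [add_comm ((L τ).Φ ω v)]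
      · by_cases he1 : e = 1
        · rw [if_pos he1, ((hF τ hτ).ch1 he1 v hv).2.2, Pr_eq74]
          refine (L τ).Ex_congr38 fun ω _ => ?_
          have h4 : cw e u ((L τ).Φ ω) v = (L τ).Φ ω (u v) := by
            unfold cw
            rw [if_neg (by omega)]
          rw [h4]
          by_cases h5 : (L τ).Φ ω (u v) + (L τ).Φ ω v = s
          · rw [if_pos h5, if_pos ⟨he1, h5⟩]
          · rw [if_neg h5, if_neg (fun hc => h5 hc.2)]
        · rw [if_neg he1]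
          unfold FL.Ex
          symm
          refine Finset.sum_eq_zero fun ω _ => ?_
          beta_reduce
          rw [if_neg (fun hc => he1 hc.1), mul_zero]
    rw [h1, h2, ← Finset.sum_congr rfl h3, Finset.sum_add_distrib, Finset.sum_add_distrib]
    have h6 : ∑ v ∈ F τ, (if e = 1 then (L τ).Pr (fun φ => φ (u v) + φ (p (u v)) = s) else 0) =
        (if e = 1 then ∑ v ∈ F τ, (L τ).Pr (fun φ => φ (u v) + φ (p (u v)) = s) else 0) := by
      split_ifs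
      · rfl
      · exact Finset.sum_const_zero
    rw [h6]
    ring
  rw [Finset.sum_congr rfl key, Finset.sum_add_distrib,
    hmF (fun x w => ∑ y ∈ Y, q' x w y * AA e x w y s)]
  congr 1
  rw [← hconv (fun x w => mF p u e T F L0 x w * ∑ y ∈ Y, q' x w y * AA e x w y s)]
  refine Finset.sum_congr rfl fun i _ => ?_
  congr 1
  refine Finset.sum_congr rfl fun y hy => ?_
  rw [hq']
  dsimp only
  rw [dif_pos i.2, if_pos hy]

end Pool.Agent.SQ
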