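import Pool.Agent.Helper73.SQ.LED

/-!
# SQ-LLD: masses and loads (definitions)
-/

set_option autoImplicit false

namespace Pool.Agent.SQ

open Finset Pool.Agent.SEM

/-- expected number of flexible vertices with parent label `x` and child label `w` -/
noncomputable def mF (p u : ℕ → ℕ) (e : ℕ) (T : Finset ℕ) (F : ℕ → Finset ℕ) (L : ℕ → FL)
    (x w : ℕ) : ℝ :=
  ∑ τ ∈ T, ∑ v ∈ F τ, (L τ).Pr fun φ => φ (p v) = x ∧ cw e u φ v = w

/-- load on the value `s` of the label `y` of a flexible vertex and of the sums with its neighbours -/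
noncomputable def AA (e x w y s : ℕ) : ℝ :=
  (if y = s then 1 else 0) + (if x + y = s then 1 else 0) + if e = 1 ∧ w + y = s then 1 else 0

/-- load on the value `s` of the skeletons -/
noncomputable def bS (p : ℕ → ℕ) (T : Finset ℕ) (P ex F : ℕ → Finset ℕ) (L : ℕ → FL) (s : ℕ) : ℝ :=
  ∑ τ ∈ T, (∑ v ∈ P τ \ F τ, (L τ).Pr (fun φ => φ v = s) +
    ∑ i ∈ ((P τ \ F τ) ∪ ex τ).filter (fun i => p i ∉ F τ), (L τ).Pr (fun φ => φ i + φ (p i) = s))

end Pool.Agent.SQ
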