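import Pool.Agent.Helper73.SQ.FIN7
import Pool.Agent.Helper73.SQ.FT

/-!
# SQ-MAIN: the main theorem for graphs
-/

set_option autoImplicit false

namespace Pool.Agent.SQ

open Finset

open Classical in
theorem sq_tail :
    ∃ τ : ℝ, 0 < τ ∧ ∀ D : ℕ, ∃ δ : ℝ, 0 < δ ∧ ∃ n₀ : ℕ, ∀ (V : Type) [Fintype V]
      (G : SimpleGraph V), n₀ ≤ Fintype.card V → G.IsTree →
      (∀ v, (G.degree v : ℝ) ≤ δ * Fintype.card V) →
      ((∑ v ∈ univ.filter (fun v => D < G.degree v), G.degree v : ℕ) : ℝ) ≤ τ * Fintype.card V →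
      ∃ h : V → ℕ,
        Function.Injective
          (Sum.elim h
            (fun e : G.edgeSet =>
              Sym2.lift ⟨fun u v => h u + h v, fun u v => add_comm (h u) (h v)⟩ e.1)) ∧
        Set.range
          (Sum.elim h
            (fun e : G.edgeSet =>
              Sym2.lift ⟨fun u v => h u + h v, fun u v => add_comm (h u) (h v)⟩ e.1))
          = Set.Icc 1 (Fintype.card V + Nat.card G.edgeSet) := by
  obtain ⟨τ, hτ, hmain⟩ := main
  refine ⟨τ, hτ, fun D => ?_⟩
  obtain ⟨δ, hδ, n₀, H⟩ := hmain (max D 1) (le_max_right _ _)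
  refine ⟨δ, hδ, n₀, ?_⟩
  intro V _ G hn hG hdeg hsum
  haveI := hG.connected.nonempty
  obtain ⟨e, p, hp, -, hadj⟩ := SEM.tree_parent G hG (Classical.arbitrary V)
  refine sq_graph G hG e p hp hadj (H _ p hn hp ?_ ?_)
  · intro v hv
    have h1 := chl_le_degree G e p hadj (e.symm ⟨v, hv⟩)
    rw [Equiv.apply_symm_apply] at h1
    refine le_trans ?_ (hdeg (e.symm ⟨v, hv⟩))
    exact_mod_cast h1
  · have h1 := heavy_le G e p hadj (max D 1)
    have h2 : ∑ v ∈ univ.filter (fun v => max D 1 < G.degree v), G.degree v ≤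
        ∑ v ∈ univ.filter (fun v => D < G.degree v), G.degree v := by
      refine sum_le_sum_of_subset ?_
      intro v hv
      rw [mem_filter] at hv ⊢
      exact ⟨hv.1, (le_max_left _ _).trans_lt hv.2⟩
    refine le_trans ?_ hsum
    exact_mod_cast h1.trans h2

end Pool.Agent.SQ
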