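import Pool.Agent.Helper73.SQ.CH

/-!
# SQ-RF: the reservoir

Proof in words.  Apply `choose_set` with `G = (n/8, 2n-1]`, `r = D + 4`.  Families (the index set `J` is a set of `c`'s, the set of `c` consists of `c`, the `c + q`
(`q ∈ Qs`) and `c + j`, `c + j'`, resp. `j - c`, resp. `c + j`):
(a) for `Qs ∈ 𝒬`, `κ < g`, `j, j' ≤ n`: all `c` with `n/2 < c`, `4c ≤ 3n`, `c % g = κ` (at least `n/(4g) - 1 ≥ n/20`);
(b) for `Qs ∈ 𝒬`, `n < j ≤ 2n-1`: all `c` with `n/4 < c`, `2c ≤ n` (then `j - c > n/2`);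
(c) for `Qs ∈ 𝒬`, `n/2 < j`, `4j ≤ 7n`: all `c` with `n/8 < c`, `4c ≤ n`.
Every `t` is in at most `D + 4` of the sets (one `c` for each of the at most `D + 4` positions).  All elements are in `(n/8, 2n-1]`
(`c + q ≤ 3n/4 + n/16`, `c + j ≤ 7n/4`, `c + j ≤ n/4 + 7n/4 = 2n`: in (c) use `4c ≤ n`, `4j ≤ 7n`, `c + j ≤ 2n`; to have `≤ 2n-1` take only
`c` with `4 c < n`).  At most `4 n * (g (n+1)² + 2n + 2n) ≤ n^4` families.
-/

set_option autoImplicit false

namespace Pool.Agent.SQ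

open Finset Pool.Agent.SEM

/-- the reservoir `F` is rich -/
structure Rich (n g : ℕ) (ρ : ℝ) (F : Finset ℕ) (Qs : Finset (Finset ℕ)) : Prop where
  a : ∀ O ∈ Qs, ∀ κ < g, ∀ j ≤ n, ∀ j' ≤ n, ρ * n ≤ ((F.filter fun c => n < 2 * c ∧ 4 * c ≤ 3 * n ∧
    c % g = κ ∧ (∀ q ∈ O, c + q ∈ F) ∧ c + j ∈ F ∧ c + j' ∈ F).card : ℝ)
  b : ∀ O ∈ Qs, ∀ j, n < j → j ≤ 2 * n - 1 → ρ * n ≤ ((F.filter fun c => n < 4 * c ∧ 2 * c ≤ n ∧
    (∀ q ∈ O, c + q ∈ F) ∧ j - c ∈ F).card : ℝ)
  c : ∀ O ∈ Qs, ∀ j, n < 2 * j → 4 * j ≤ 7 * n → ρ * n ≤ ((F.filter fun c => n < 8 * c ∧ 4 * c ≤ n ∧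
    (∀ q ∈ O, c + q ∈ F) ∧ c + j ∈ F).card : ℝ)

private def S50 (O X : Finset ℕ) (c : ℕ) : Finset ℕ := insert c (O.image (fun q => c + q) ∪ X)

private theorem S50_card {D : ℕ} {O X : Finset ℕ} (hO : O.card ≤ D + 1) (hX : X.card ≤ 2) (c : ℕ) :
    (S50 O X c).card ≤ D + 4 := by
  unfold S50
  refine (card_insert_le _ _).trans ?_
  have h1 := card_union_le (O.image (fun q => c + q)) X
  have h2 := card_image_le (s := O) (f := fun q => c + q)
  omega

private theorem S50_mult {D : ℕ} {O J : Finset ℕ} {X Y : ℕ → Finset ℕ} (hO : O.card ≤ D + 1)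
    (hY : ∀ t, (Y t).card ≤ 2) (hXY : ∀ c ∈ J, ∀ t ∈ X c, c ∈ Y t) (t : ℕ) :
    (J.filter fun c => t ∈ S50 O (X c) c).card ≤ D + 4 := by
  have hsub : (J.filter fun c => t ∈ S50 O (X c) c) ⊆
      insert t (O.image (fun q => t - q) ∪ Y t) := by
    intro c hc
    rw [mem_filter] at hc
    obtain ⟨hcJ, hc⟩ := hc
    unfold S50 at hc
    rw [mem_insert, mem_union, mem_image] at hc
    rw [mem_insert, mem_union, mem_image]
    rcases hc with hc | ⟨q, hq, hc⟩ | hc
    · exact Or.inl hc.symm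
    · exact Or.inr (Or.inl ⟨q, hq, by omega⟩)
    · exact Or.inr (Or.inr (hXY c hcJ t hc))
  refine (card_le_card hsub).trans ((card_insert_le _ _).trans ?_)
  have h1 := card_union_le (O.image (fun q => t - q)) (Y t)
  have h2 := card_image_le (s := O) (f := fun q => t - q)
  have h3 := hY t
  omega

private def Ja50 (n g κ : ℕ) : Finset ℕ :=
  (range (2 * n)).filter fun c => n < 2 * c ∧ 4 * c ≤ 3 * n ∧ c % g = κ

private def Jb50 (n : ℕ) : Finset ℕ := (range (2 * n)).filter fun c => n < 4 * c ∧ 2 * c ≤ n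

private def Jc50 (n : ℕ) : Finset ℕ := (range (2 * n)).filter fun c => n < 8 * c ∧ 4 * c < n

private theorem Ja50_card {n g κ : ℕ} (hg : g = 2 ∨ g = 3) (hκ : κ < g) (hn : 100 ≤ n) :
    n ≤ 20 * (Ja50 n g κ).card := by
  have h1 : ((Ico (n / (2 * g) + 1) (3 * n / (4 * g))).image fun m => g * m + κ) ⊆ Ja50 n g κ := by
    intro c hc
    rw [mem_image] at hc
    obtain ⟨m, hm, rfl⟩ := hc
    rw [mem_Ico] at hm
    unfold Ja50
    rw [mem_filter, mem_range]
    rcases hg with rfl | rfl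
    · refine ⟨by omega, by omega, by omega, by omega⟩
    · refine ⟨by omega, by omega, by omega, by omega⟩
  have h2 : ((Ico (n / (2 * g) + 1) (3 * n / (4 * g))).image fun m => g * m + κ).card =
      3 * n / (4 * g) - (n / (2 * g) + 1) := by
    rw [card_image_of_injective, Nat.card_Ico]
    intro a b hab
    simp only at hab
    rcases hg with rfl | rfl <;> omega
  have h3 := card_le_card h1
  rw [h2] at h3
  rcases hg with rfl | rfl <;> omega

private theorem Jb50_card {n : ℕ} (hn : 100 ≤ n) : n ≤ 20 * (Jb50 n).card := by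
  have h1 : Ico (n / 4 + 1) (n / 2 + 1) ⊆ Jb50 n := by
    intro c hc
    rw [mem_Ico] at hc
    unfold Jb50
    rw [mem_filter, mem_range]
    refine ⟨by omega, by omega, by omega⟩
  have h3 := card_le_card h1
  rw [Nat.card_Ico] at h3
  omega

private theorem Jc50_card {n : ℕ} (hn : 100 ≤ n) : n ≤ 20 * (Jc50 n).card := by
  have h1 : Ico (n / 8 + 1) (n / 4) ⊆ Jc50 n := by
    intro c hc
    rw [mem_Ico] at hc
    unfold Jc50
    rw [mem_filter, mem_range]
    refine ⟨by omega, by omega, by omega⟩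
  have h3 := card_le_card h1
  rw [Nat.card_Ico] at h3
  omega

theorem reservoir (D g : ℕ) (hg : g = 2 ∨ g = 3) (φ : ℝ) (hφ : 0 < φ) :
    ∃ ρ : ℝ, 0 < ρ ∧ ∃ n₀ : ℕ, ∀ (n : ℕ) (Qs : Finset (Finset ℕ)), n₀ ≤ n → Qs.card ≤ 4 * n →
      (∀ O ∈ Qs, O.card ≤ D + 1 ∧ ∀ q ∈ O, 1 ≤ q ∧ 16 * q ≤ n) →
      ∃ F : Finset ℕ, (∀ t ∈ F, n < 8 * t ∧ t ≤ 2 * n - 1) ∧ (F.card : ℝ) ≤ φ * n ∧
        Rich n g ρ F Qs := by
  classical
  obtain ⟨ρ, hρ, n₀, hch⟩ := choose_set (D + 4) (1 / 20) φ (by norm_num) hφ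
  refine ⟨ρ, hρ, max n₀ 100, fun n Qs hn hQs hO => ?_⟩
  have hn0 : n₀ ≤ n := (le_max_left _ _).trans hn
  have hn1 : 100 ≤ n := (le_max_right _ _).trans hn
  set G : Finset ℕ := (range (2 * n)).filter fun t => n < 8 * t with hG
  have hGmem : ∀ t, t ∈ G ↔ t < 2 * n ∧ n < 8 * t := fun t => by
    rw [hG, mem_filter, mem_range]
  have hg1 : 2 ≤ g ∧ g ≤ 3 := by rcases hg with rfl | rfl <;> omega
  let ι : Type := (↥Qs × Fin g × Fin (n + 1) × Fin (n + 1)) ⊕
    ({x : ↥Qs × Fin (2 * n) // n < (x.2 : ℕ)} ⊕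
      {x : ↥Qs × Fin (2 * n) // n < 2 * (x.2 : ℕ) ∧ 4 * (x.2 : ℕ) ≤ 7 * n})
  let J : ι → Finset ℕ := Sum.elim (fun x => Ja50 n g (x.2.1 : ℕ))
    (Sum.elim (fun _ => Jb50 n) (fun _ => Jc50 n))
  let S : ι → ℕ → Finset ℕ := Sum.elim
    (fun x c => S50 x.1.1 {c + (x.2.2.1 : ℕ), c + (x.2.2.2 : ℕ)} c)
    (Sum.elim (fun x c => S50 x.1.1.1 {(x.1.2 : ℕ) - c} c)
      (fun x c => S50 x.1.1.1 {c + (x.1.2 : ℕ)} c))
  have hcardι : (Fintype.card ι : ℝ) ≤ (n : ℝ) ^ 4 := by
    have h1 : Fintype.card ι = Fintype.card (↥Qs × Fin g × Fin (n + 1) × Fin (n + 1)) +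
        (Fintype.card {x : ↥Qs × Fin (2 * n) // n < (x.2 : ℕ)} +
          Fintype.card {x : ↥Qs × Fin (2 * n) // n < 2 * (x.2 : ℕ) ∧ 4 * (x.2 : ℕ) ≤ 7 * n}) := by
      simp only [ι, Fintype.card_sum]
    have h2 : Fintype.card {x : ↥Qs × Fin (2 * n) // n < (x.2 : ℕ)} ≤
        Fintype.card (↥Qs × Fin (2 * n)) := Fintype.card_subtype_le _
    have h3 : Fintype.card {x : ↥Qs × Fin (2 * n) // n < 2 * (x.2 : ℕ) ∧ 4 * (x.2 : ℕ) ≤ 7 * n} ≤
        Fintype.card (↥Qs × Fin (2 * n)) := Fintype.card_subtype_le _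
    have h4 : Fintype.card (↥Qs × Fin (2 * n)) = Qs.card * (2 * n) := by
      rw [Fintype.card_prod, Fintype.card_coe, Fintype.card_fin]
    have h5 : Fintype.card (↥Qs × Fin g × Fin (n + 1) × Fin (n + 1)) =
        Qs.card * (g * ((n + 1) * (n + 1))) := by
      rw [Fintype.card_prod, Fintype.card_prod, Fintype.card_prod, Fintype.card_coe,
        Fintype.card_fin, Fintype.card_fin]
    have h6 : Qs.card * (g * ((n + 1) * (n + 1))) ≤ (4 * n) * (3 * ((n + 1) * (n + 1))) :=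
      Nat.mul_le_mul hQs (Nat.mul_le_mul_right _ hg1.2)
    have h7 : Qs.card * (2 * n) ≤ (4 * n) * (2 * n) := Nat.mul_le_mul_right _ hQs
    have h8 : Fintype.card ι ≤ (4 * n) * (3 * ((n + 1) * (n + 1))) +
        ((4 * n) * (2 * n) + (4 * n) * (2 * n)) := by
      rw [h1, h5]
      rw [h4] at h2 h3
      omega
    have h9 : (4 * n) * (3 * ((n + 1) * (n + 1))) + ((4 * n) * (2 * n) + (4 * n) * (2 * n)) ≤
        n ^ 4 := by
      have e1 : (n + 1) * (n + 1) ≤ 2 * n * n := by nlinarith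
      have e2 : (4 * n) * (3 * ((n + 1) * (n + 1))) ≤ (4 * n) * (3 * (2 * n * n)) :=
        Nat.mul_le_mul_left _ (Nat.mul_le_mul_left _ e1)
      have e3 : (4 * n) * (3 * (2 * n * n)) = 24 * (n * n * n) := by ring
      have e4 : (4 * n) * (2 * n) + (4 * n) * (2 * n) = 16 * (n * n) := by ring
      have e5 : 16 * (n * n) ≤ 16 * (n * n * n) := by nlinarith [Nat.mul_pos (show 0 < n by omega) (show 0 < n by omega)]
      have e6 : 40 * (n * n * n) ≤ n * (n * n * n) := Nat.mul_le_mul_right _ (by omega)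
      have e7 : n * (n * n * n) = n ^ 4 := by ring
      omega
    exact_mod_cast h8.trans h9
  obtain ⟨F, hFG, hFc, hF⟩ := hch n G ι J S hn0 (by
      rw [hG]
      exact (card_filter_le _ _).trans (by rw [card_range])) hcardι
    (by
      intro i
      have h1 : n ≤ 20 * (J i).card := by
        rcases i with x | x | x
        · exact Ja50_card hg x.2.1.2 hn1
        · exact Jb50_card hn1
        · exact Jc50_card hn1
      have h2 : (n : ℝ) ≤ 20 * ((J i).card : ℝ) := by exact_mod_cast h1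
      linarith)
    (by
      intro i c hc
      rcases i with x | x | x
      · have hOx := hO x.1.1 x.1.2
        refine ⟨?_, S50_card hOx.1 (card_insert_le _ _) c⟩
        change S50 _ _ c ⊆ G
        change c ∈ Ja50 n g _ at hc
        unfold Ja50 at hc
        rw [mem_filter, mem_range] at hc
        have hj1 := x.2.2.1.2
        have hj2 := x.2.2.2.2
        intro t ht
        unfold S50 at ht
        rw [mem_insert, mem_union, mem_image, mem_insert, mem_singleton] at ht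
        rw [hGmem]
        rcases ht with ht | ⟨q, hq, ht⟩ | ht | ht
        · omega
        · have := hOx.2 q hq
          omega
        · omega
        · omega
      · have hOx := hO x.1.1.1 x.1.1.2
        refine ⟨?_, S50_card hOx.1 (by simp) c⟩
        change S50 _ _ c ⊆ G
        change c ∈ Jb50 n at hc
        unfold Jb50 at hc
        rw [mem_filter, mem_range] at hc
        have hj1 := x.1.2.2
        have hj2 := x.2
        intro t ht
        unfold S50 at ht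
        rw [mem_insert, mem_union, mem_image, mem_singleton] at ht
        rw [hGmem]
        rcases ht with ht | ⟨q, hq, ht⟩ | ht
        · omega
        · have := hOx.2 q hq
          omega
        · omega
      · have hOx := hO x.1.1.1 x.1.1.2
        refine ⟨?_, S50_card hOx.1 (by simp) c⟩
        change S50 _ _ c ⊆ G
        change c ∈ Jc50 n at hc
        unfold Jc50 at hc
        rw [mem_filter, mem_range] at hc
        have hj1 := x.1.2.2
        have hj2 := x.2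
        intro t ht
        unfold S50 at ht
        rw [mem_insert, mem_union, mem_image, mem_singleton] at ht
        rw [hGmem]
        rcases ht with ht | ⟨q, hq, ht⟩ | ht
        · omega
        · have := hOx.2 q hq
          omega
        · omega)
    (by
      intro i t
      rcases i with x | x | x
      · exact S50_mult (J := Ja50 n g (x.2.1 : ℕ))
          (X := fun c => {c + (x.2.2.1 : ℕ), c + (x.2.2.2 : ℕ)})
          (Y := fun t => {t - (x.2.2.1 : ℕ), t - (x.2.2.2 : ℕ)})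
          (hO x.1.1 x.1.2).1 (fun t => card_insert_le _ _)
          (fun c _ t ht => by
            rw [mem_insert, mem_singleton] at ht ⊢
            omega) t
      · exact S50_mult (J := Jb50 n) (X := fun c => {(x.1.2 : ℕ) - c})
          (Y := fun t => {(x.1.2 : ℕ) - t})
          (hO x.1.1.1 x.1.1.2).1 (fun t => by simp)
          (fun c hc t ht => by
            have hj2 := x.2
            unfold Jb50 at hc
            rw [mem_filter, mem_range] at hc
            rw [mem_singleton] at ht ⊢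
            omega) t
      · exact S50_mult (J := Jc50 n) (X := fun c => {c + (x.1.2 : ℕ)})
          (Y := fun t => {t - (x.1.2 : ℕ)})
          (hO x.1.1.1 x.1.1.2).1 (fun t => by simp)
          (fun c hc t ht => by
            rw [mem_singleton] at ht ⊢
            omega) t)
  refine ⟨F, fun t ht => ?_, hFc, ?_, ?_, ?_⟩
  · have := (hGmem t).mp (hFG ht)
    omega
  · intro O hOQ κ hκ j hj j' hj'
    have h1 := hF (Sum.inl (⟨O, hOQ⟩, ⟨κ, hκ⟩, ⟨j, by omega⟩, ⟨j', by omega⟩))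
    refine h1.trans ?_
    have h2 : ((J (Sum.inl (⟨O, hOQ⟩, ⟨κ, hκ⟩, ⟨j, by omega⟩, ⟨j', by omega⟩))).filter fun c =>
        S (Sum.inl (⟨O, hOQ⟩, ⟨κ, hκ⟩, ⟨j, by omega⟩, ⟨j', by omega⟩)) c ⊆ F) ⊆
        F.filter fun c => n < 2 * c ∧ 4 * c ≤ 3 * n ∧
          c % g = κ ∧ (∀ q ∈ O, c + q ∈ F) ∧ c + j ∈ F ∧ c + j' ∈ F := by
      intro c hc
      rw [mem_filter] at hc
      obtain ⟨hc1, hc2⟩ := hc
      change c ∈ Ja50 n g κ at hc1
      change S50 O {c + j, c + j'} c ⊆ F at hc2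
      unfold Ja50 at hc1
      rw [mem_filter] at hc1
      rw [mem_filter]
      unfold S50 at hc2
      refine ⟨hc2 (mem_insert_self _ _), hc1.2.1, hc1.2.2.1, hc1.2.2.2, fun q hq => ?_, ?_, ?_⟩
      · exact hc2 (mem_insert_of_mem (mem_union_left _ (mem_image.mpr ⟨q, hq, rfl⟩)))
      · exact hc2 (mem_insert_of_mem (mem_union_right _ (mem_insert_self _ _)))
      · exact hc2 (mem_insert_of_mem (mem_union_right _ (mem_insert_of_mem (mem_singleton_self _))))
    exact_mod_cast card_le_card h2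
  · intro O hOQ j hj hj'
    have h1 := hF (Sum.inr (Sum.inl ⟨(⟨O, hOQ⟩, ⟨j, by omega⟩), hj⟩))
    refine h1.trans ?_
    have h2 : ((J (Sum.inr (Sum.inl ⟨(⟨O, hOQ⟩, ⟨j, by omega⟩), hj⟩))).filter fun c =>
        S (Sum.inr (Sum.inl ⟨(⟨O, hOQ⟩, ⟨j, by omega⟩), hj⟩)) c ⊆ F) ⊆
        F.filter fun c => n < 4 * c ∧ 2 * c ≤ n ∧ (∀ q ∈ O, c + q ∈ F) ∧ j - c ∈ F := by
      intro c hc
      rw [mem_filter] at hc
      obtain ⟨hc1, hc2⟩ := hc
      change c ∈ Jb50 n at hc1
      change S50 O {j - c} c ⊆ F at hc2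
      unfold Jb50 at hc1
      rw [mem_filter] at hc1
      rw [mem_filter]
      unfold S50 at hc2
      refine ⟨hc2 (mem_insert_self _ _), hc1.2.1, hc1.2.2, fun q hq => ?_, ?_⟩
      · exact hc2 (mem_insert_of_mem (mem_union_left _ (mem_image.mpr ⟨q, hq, rfl⟩)))
      · exact hc2 (mem_insert_of_mem (mem_union_right _ (mem_singleton_self _)))
    exact_mod_cast card_le_card h2
  · intro O hOQ j hj hj'
    have h1 := hF (Sum.inr (Sum.inr ⟨(⟨O, hOQ⟩, ⟨j, by omega⟩), ⟨hj, hj'⟩⟩))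
    refine h1.trans ?_
    have h2 : ((J (Sum.inr (Sum.inr ⟨(⟨O, hOQ⟩, ⟨j, by omega⟩), ⟨hj, hj'⟩⟩))).filter fun c =>
        S (Sum.inr (Sum.inr ⟨(⟨O, hOQ⟩, ⟨j, by omega⟩), ⟨hj, hj'⟩⟩)) c ⊆ F) ⊆
        F.filter fun c => n < 8 * c ∧ 4 * c ≤ n ∧ (∀ q ∈ O, c + q ∈ F) ∧ c + j ∈ F := by
      intro c hc
      rw [mem_filter] at hc
      obtain ⟨hc1, hc2⟩ := hc
      change c ∈ Jc50 n at hc1
      change S50 O {c + j} c ⊆ F at hc2
      unfold Jc50 at hc1
      rw [mem_filter] at hc1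
      rw [mem_filter]
      unfold S50 at hc2
      refine ⟨hc2 (mem_insert_self _ _), hc1.2.1, by omega, fun q hq => ?_, ?_⟩
      · exact hc2 (mem_insert_of_mem (mem_union_left _ (mem_image.mpr ⟨q, hq, rfl⟩)))
      · exact hc2 (mem_insert_of_mem (mem_union_right _ (mem_singleton_self _)))
    exact_mod_cast card_le_card h2

end Pool.Agent.SQ
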